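import Pool.Agent.Lib.MP_9227d9_nt.TwA

/-! The fundamental lemma for the two dimensional sieve weight. -/

namespace Pool.Agent.Lib.MP_9227d9_nt.Mob

open Polynomial

open scoped Classical

namespace TwDe

variable {k : Type} [Field k] [Fintype k] {h p : k[X]} {z : ℕ}

/-- The part of the normalisation of total degree `j`. -/
noncomputable def aj (h : k[X]) (z j : ℕ) : ℝ :=
  ∑ S ∈ (PrL k z).powerset.filter (fun S => ∑ p ∈ S, p.natDegree = j), ∏ p ∈ S, hp h p

theorem prod_nonneg (ha : Adm h) {S : Finset k[X]} (hS : S ∈ (PrL k z).powerset) :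
    0 ≤ ∏ p ∈ S, hp h p :=
  Finset.prod_nonneg fun _ hq => (ha.hp_pos (mem_PrL.1 (Finset.mem_powerset.1 hS hq)).1).le

theorem aj_nonneg (ha : Adm h) (z j : ℕ) : 0 ≤ aj h z j :=
  Finset.sum_nonneg fun _ hS => prod_nonneg ha (Finset.mem_filter.1 hS).1

theorem sum_aj (h : k[X]) (z : ℕ) (T : Finset ℕ) : ∑ j ∈ T, aj h z j =
    ∑ S ∈ (PrL k z).powerset, if ∑ p ∈ S, p.natDegree ∈ T then ∏ p ∈ S, hp h p else 0 := by
  rw [← Finset.sum_filter]
  exact Finset.sum_fiberwise_eq_sum_filter _ _ _ _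

/-- Sums over primes are bounded by sums over degrees. -/
theorem sum_PrL_le [CharP k 2] (z : ℕ) {f : ℕ → ℝ} (hf : ∀ m, 0 ≤ f m) :
    ∑ p ∈ PrL k z, (p.natDegree : ℝ) / Nm p * f p.natDegree ≤ ∑ m ∈ Finset.Ico 1 z, f m := by
  rw [← Finset.sum_fiberwise_of_maps_to (g := natDegree) (t := Finset.Ico 1 z) fun p hp =>
    Finset.mem_Ico.2 ⟨(mem_PrL.1 hp).1.natDegree_pos, (mem_PrL.1 hp).2⟩]
  refine Finset.sum_le_sum fun m hm => ?_
  have h1 : (PrL k z).filter (fun p => p.natDegree = m) = PrD k m := by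
    ext p
    rw [Finset.mem_filter, mem_PrL, mem_PrD]
    exact ⟨fun h => ⟨h.1.1, h.2⟩, fun h => ⟨⟨h.1, h.2 ▸ (Finset.mem_Ico.1 hm).2⟩, h.2⟩⟩
  rw [h1, Finset.sum_congr rfl (g := fun _ => (m : ℝ) / qR k ^ m * f m) fun p hp => by
    rw [Nm, (mem_PrD.1 hp).2], Finset.sum_const, nsmul_eq_mul, ← mul_assoc]
  refine mul_le_of_le_one_left (hf m) ?_
  rw [← mul_div_assoc, div_le_one (qR_pow_pos m), mul_comm]
  exact card_PrD_le m

omit [Fintype k] in
/-- Splitting the subsets according to one element. -/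
theorem sum_split {P : Finset k[X]} (hP : p ∈ P) (f : Finset k[X] → ℝ) :
    ∑ S ∈ P.powerset, f S =
      ∑ S ∈ (P.erase p).powerset, (f S + f (insert p S)) := by
  conv_lhs => rw [← Finset.insert_erase hP]
  rw [Finset.sum_powerset_insert (Finset.notMem_erase p P), Finset.sum_add_distrib]

omit [Fintype k] in
theorem notMem_of_mem {P S : Finset k[X]} (hS : S ∈ (P.erase p).powerset) : p ∉ S :=
  fun h => Finset.notMem_erase p P (Finset.mem_powerset.1 hS h)

theorem sum_erase_le (ha : Adm h) (c : Finset k[X] → Prop) [DecidablePred c] :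
    ∑ S ∈ ((PrL k z).erase p).powerset, (if c S then ∏ p ∈ S, hp h p else 0) ≤
      ∑ S ∈ (PrL k z).powerset, if c S then ∏ p ∈ S, hp h p else 0 := by
  refine Finset.sum_le_sum_of_subset_of_nonneg
    (Finset.powerset_mono.2 (Finset.erase_subset _ _)) fun S hS _ => ?_
  split_ifs
  · exact prod_nonneg ha hS
  · exact le_rfl

/-- The recursion of Dickman type. -/
theorem aj_rec [CharP k 2] (ha : Adm h) (z j : ℕ) :
    (j : ℝ) * aj h z j ≤ 4 * ∑ i ∈ Finset.Ico (j - z) j, aj h z i := by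
  have h1 : (j : ℝ) * aj h z j = ∑ p ∈ PrL k z, (p.natDegree : ℝ) * ∑ S ∈ (PrL k z).powerset,
      if ∑ q ∈ S, q.natDegree = j ∧ p ∈ S then ∏ q ∈ S, hp h q else 0 := by
    simp only [Finset.mul_sum]
    rw [Finset.sum_comm, aj, Finset.sum_filter, Finset.mul_sum]
    refine Finset.sum_congr rfl fun S hS => ?_
    by_cases hj : ∑ q ∈ S, q.natDegree = j
    · simp only [hj, true_and, if_true, mul_ite, mul_zero]
      rw [← Finset.sum_filter, Finset.filter_mem_eq_inter,
        Finset.inter_eq_right.2 (Finset.mem_powerset.1 hS), ← Finset.sum_mul, ← hj, Nat.cast_sum]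
    · simp [hj]
  have h2 : ∀ p ∈ PrL k z, (p.natDegree : ℝ) * (∑ S ∈ (PrL k z).powerset,
      if ∑ q ∈ S, q.natDegree = j ∧ p ∈ S then ∏ q ∈ S, hp h q else 0) ≤
      4 * ((p.natDegree : ℝ) / Nm p *
        if p.natDegree ≤ j then aj h z (j - p.natDegree) else 0) := by
    intro p hp1
    have hP := (mem_PrL.1 hp1).1
    have h3 : (∑ S ∈ (PrL k z).powerset,
        if ∑ q ∈ S, q.natDegree = j ∧ p ∈ S then ∏ q ∈ S, hp h q else 0) =
        hp h p * ∑ S ∈ ((PrL k z).erase p).powerset,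
          if p.natDegree + ∑ q ∈ S, q.natDegree = j then ∏ q ∈ S, hp h q else 0 := by
      rw [sum_split hp1, Finset.mul_sum]
      refine Finset.sum_congr rfl fun S hS => ?_
      have h4 := notMem_of_mem hS
      rw [Finset.sum_insert h4, Finset.prod_insert h4, if_neg fun h => h4 h.2]
      simp
    have h4 : (∑ S ∈ (PrL k z).powerset,
        if p.natDegree + ∑ q ∈ S, q.natDegree = j then ∏ q ∈ S, hp h q else 0) =
        if p.natDegree ≤ j then aj h z (j - p.natDegree) else 0 := by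
      split_ifs with h5
      · rw [aj, Finset.sum_filter]
        exact Finset.sum_congr rfl fun S _ => if_congr (by omega) rfl rfl
      · exact Finset.sum_eq_zero fun S _ => if_neg (by omega)
    have h5 := (sum_erase_le (p := p) (z := z) ha
      fun S => p.natDegree + ∑ q ∈ S, q.natDegree = j).trans_eq h4
    have h6 : 0 ≤ if p.natDegree ≤ j then aj h z (j - p.natDegree) else 0 := by
      split_ifs
      · exact aj_nonneg ha _ _
      · exact le_rfl
    have h7 := mul_le_mul_of_nonneg_left h5 (ha.hp_pos hP).le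
    have h8 := mul_le_mul_of_nonneg_right (ha.hp_le hP) h6
    rw [h3]
    exact (mul_le_mul_of_nonneg_left (h7.trans h8) (Nat.cast_nonneg _)).trans_eq (by ring)
  rw [h1]
  refine (Finset.sum_le_sum h2).trans ?_
  rw [← Finset.mul_sum]
  refine mul_le_mul_of_nonneg_left ((sum_PrL_le z
    (f := fun m => if m ≤ j then aj h z (j - m) else 0) fun m => ?_).trans ?_) (by norm_num)
  · split_ifs
    · exact aj_nonneg ha _ _
    · exact le_rfl
  · rw [← Finset.sum_filter, ← Finset.sum_image (g := fun m => j - m) (f := aj h z)]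
    · refine Finset.sum_le_sum_of_subset_of_nonneg (fun i hi => ?_) fun i _ _ => aj_nonneg ha _ _
      simp only [Finset.mem_image, Finset.mem_filter, Finset.mem_Ico] at hi ⊢
      obtain ⟨m, hm, rfl⟩ := hi
      omega
    · intro m hm m' hm' he
      simp only [Finset.coe_filter, Finset.mem_Ico, Set.mem_ofPred_eq] at hm hm' he
      omega

/-- The weight on the residue classes removed by `p`. -/
theorem w2_eq (hp1 : p ∈ PrL k z) (y : ℕ) {F : k[X]} (hF : p ∣ F * (F + h)) :
    w2 h y z F = ∑ S ∈ ((PrL k z).erase p).powerset.filter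
      (fun S => ∑ q ∈ S, q.natDegree ∈ Finset.Ioc (y - p.natDegree) y ∨
        (y < p.natDegree ∧ ∑ q ∈ S, q.natDegree ≤ y)), ∏ q ∈ S, ps2 h q F := by
  rw [w2, SS, Finset.sum_filter, Finset.sum_filter, sum_split hp1]
  refine Finset.sum_congr rfl fun S hS => ?_
  have h4 := notMem_of_mem hS
  rw [Finset.sum_insert h4, Finset.prod_insert h4, ps2, if_pos hF]
  simp only [Finset.mem_Ioc]
  split_ifs <;> first | omega | ring

/-- Orthogonality. -/
theorem orth (ha : Adm h) (hp1 : p ∈ PrL k z) {S S' : Finset k[X]} {n : ℕ}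
    (hS : S ∈ ((PrL k z).erase p).powerset) (hS' : S' ∈ ((PrL k z).erase p).powerset)
    (hn : p.natDegree + (∑ q ∈ S, q.natDegree + ∑ q ∈ S', q.natDegree) ≤ n) :
    avm n (fun F => (if p ∣ F * (F + h) then (1 : ℝ) else 0) *
      ((∏ q ∈ S, ps2 h q F) * ∏ q ∈ S', ps2 h q F)) =
      if S = S' then om h p / Nm p * ∏ q ∈ S, hp h q else 0 := by
  have hP : ∀ {S : Finset k[X]}, S ∈ ((PrL k z).erase p).powerset → ∀ q ∈ S, IsP q :=
    fun hS q hq => (mem_PrL.1 (Finset.mem_of_mem_erase (Finset.mem_powerset.1 hS hq))).1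
  have hU : p ∉ S ∪ S' := fun h =>
    (Finset.mem_union.1 h).elim (notMem_of_mem hS) (notMem_of_mem hS')
  have hT : ∀ q ∈ insert p (S ∪ S'), IsP q := fun q hq => by
    rcases Finset.mem_insert.1 hq with rfl | hq
    · exact (mem_PrL.1 hp1).1
    · exact (Finset.mem_union.1 hq).elim (hP hS q) (hP hS' q)
  set Φ : k[X] → k[X] → ℝ := fun q F => if q = p then (if p ∣ F * (F + h) then 1 else 0) else
    (if q ∈ S then ps2 h q F else 1) * if q ∈ S' then ps2 h q F else 1 with hΦ
  have hΦ1 : ∀ q ∈ S ∪ S', Φ q = fun F =>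
      (if q ∈ S then ps2 h q F else 1) * if q ∈ S' then ps2 h q F else 1 := fun q hq => by
    have : q ≠ p := fun he => hU (he ▸ hq)
    simp only [hΦ, if_neg this]
  have hΦ2 : Φ p = fun F => if p ∣ F * (F + h) then 1 else 0 := by simp only [hΦ, if_true]
  have e : ∀ F, (if p ∣ F * (F + h) then (1 : ℝ) else 0) *
      ((∏ q ∈ S, ps2 h q F) * ∏ q ∈ S', ps2 h q F) = ∏ q ∈ insert p (S ∪ S'), Φ q F := by
    intro F
    rw [Finset.prod_insert hU, hΦ2, Finset.prod_congr rfl fun q hq => congrFun (hΦ1 q hq) F]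
    simp only [Finset.prod_mul_distrib, Finset.prod_ite_mem, Finset.union_inter_cancel_left,
      Finset.union_inter_cancel_right]
  have hdeg : ∑ q ∈ insert p (S ∪ S'), (id q : k[X]).natDegree ≤ n := by
    have h3 : ∑ q ∈ S ∪ S', q.natDegree ≤ ∑ q ∈ S, q.natDegree + ∑ q ∈ S', q.natDegree := by
      rw [← Finset.sum_union_inter]
      exact Nat.le_add_right _ _
    simp only [id]
    rw [Finset.sum_insert hU]
    omega
  have key := avg_prod (n := n) (insert p (S ∪ S')) id Φ
    (fun q hq => (hT q hq).1.ne_zero) (fun q hq q' hq' => (hT q hq).isCoprime (hT q' hq'))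
    (fun q _ v t => by
      have h1 : ps2 h q (v + q * t) = ps2 h q v := ps2_congr ⟨t, by ring⟩
      simp only [hΦ, id, h1]
      split_ifs with h2 h3 h4 h4 <;> try rfl
      · subst h2
        exact absurd ((dvd_iff_dvd_of_dvd_sub ⟨t * (2 * v + q * t + h), by ring⟩).1 h3) h4
      · subst h2
        exact absurd ((dvd_iff_dvd_of_dvd_sub ⟨t * (2 * v + q * t + h), by ring⟩).2 h4) h3)
    hdeg (X ^ n)
  simp only [e, avm]
  rw [key, Finset.prod_insert hU, hΦ2, id, avg_dvd_two (mem_PrL.1 hp1).1]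
  split_ifs with h12
  · subst h12
    rw [Finset.union_self] at hΦ1 ⊢
    congr 1
    refine Finset.prod_congr rfl fun q hq => ?_
    rw [hΦ1 q hq, ← ha.avg_ps2_sq (hP hS q hq)]
    simp only [if_pos hq, id, pow_two]
  · refine mul_eq_zero_of_right _ ?_
    rw [Finset.ext_iff, not_forall] at h12
    obtain ⟨q, hq⟩ := h12
    by_cases h3 : q ∈ S
    · have h4 : q ∉ S' := fun h4 => hq (iff_of_true h3 h4)
      refine Finset.prod_eq_zero (Finset.mem_union_left _ h3) ?_
      rw [hΦ1 q (Finset.mem_union_left _ h3), ← ha.avg_ps2 (hP hS q h3)]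
      simp only [if_pos h3, if_neg h4, id, mul_one]
    · have h4 : q ∈ S' := by_contra fun h4 => hq (iff_of_false h3 h4)
      refine Finset.prod_eq_zero (Finset.mem_union_right _ h4) ?_
      rw [hΦ1 q (Finset.mem_union_right _ h4), ← ha.avg_ps2 (hP hS' q h4)]
      simp only [if_neg h3, if_pos h4, id, one_mul]

/-- The mean of the square of the weight on the classes removed by `p`. -/
theorem avm_sq_le (ha : Adm h) (hp1 : p ∈ PrL k z) {y n : ℕ} (hy : z ≤ y) (hn : 2 * y + z ≤ n) :
    avm n (fun F => (if p ∣ F * (F + h) then (1 : ℝ) else 0) * w2 h y z F ^ 2) ≤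
      2 / Nm p * ∑ j ∈ Finset.Ioc (y - p.natDegree) y, aj h z j := by
  have hd := (mem_PrL.1 hp1).2
  set A := ((PrL k z).erase p).powerset.filter
    (fun S => ∑ q ∈ S, q.natDegree ∈ Finset.Ioc (y - p.natDegree) y ∨
      (y < p.natDegree ∧ ∑ q ∈ S, q.natDegree ≤ y)) with hA
  have hA1 : ∀ S ∈ A, S ∈ ((PrL k z).erase p).powerset ∧ ∑ q ∈ S, q.natDegree ≤ y := by
    intro S hS
    obtain ⟨h1, h2⟩ := Finset.mem_filter.1 hS
    rw [Finset.mem_Ioc] at h2
    exact ⟨h1, by omega⟩
  have e : ∀ F, (if p ∣ F * (F + h) then (1 : ℝ) else 0) * w2 h y z F ^ 2 =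
      ∑ S ∈ A, ∑ S' ∈ A, (if p ∣ F * (F + h) then (1 : ℝ) else 0) *
        ((∏ q ∈ S, ps2 h q F) * ∏ q ∈ S', ps2 h q F) := by
    intro F
    by_cases hF : p ∣ F * (F + h)
    · simp only [if_pos hF, one_mul]
      rw [w2_eq hp1 y hF, pow_two, Finset.sum_mul_sum]
    · simp [hF]
  simp only [e, avm_sum]
  rw [Finset.sum_congr rfl (g := fun S => om h p / Nm p * ∏ q ∈ S, hp h q) fun S hS => by
    rw [Finset.sum_congr rfl fun S' hS' => orth ha hp1 (hA1 S hS).1 (hA1 S' hS').1
      (by have := (hA1 S hS).2; have := (hA1 S' hS').2; omega), Finset.sum_ite_eq, if_pos hS],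
    ← Finset.mul_sum, sum_aj]
  have h1 : om h p / Nm p ≤ 2 / Nm p := by
    refine div_le_div_of_nonneg_right ?_ (Nm_pos p).le
    unfold om
    split_ifs <;> norm_num
  refine mul_le_mul h1 ?_ (Finset.sum_nonneg fun S hS => prod_nonneg (z := z) ha
    (Finset.powerset_mono.2 (Finset.erase_subset _ _) (hA1 S hS).1))
    (div_nonneg zero_le_two (Nm_pos p).le)
  have h2 := sum_erase_le (p := p) (z := z) ha
    fun S => ∑ q ∈ S, q.natDegree ∈ Finset.Ioc (y - p.natDegree) y
  refine le_trans (le_of_eq ?_) h2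
  rw [hA, Finset.sum_filter]
  refine Finset.sum_congr rfl fun S _ => if_congr ?_ rfl rfl
  exact or_iff_left fun h => by omega

end TwDe

open TwDe

theorem stDe (hS : StSeq) : StDe := by
  intro k _ _ _ h s z n ha hz hs hn
  obtain ⟨h1, h2⟩ := hS (aj h z) z s hz hs (aj_nonneg ha z) (aj_rec ha z)
  set T := ∑ i ∈ Finset.range (8 * z), aj h z i with hT
  have hT0 : 0 ≤ T := Finset.sum_nonneg fun i _ => aj_nonneg ha z i
  have he : 0 ≤ eps s := by
    unfold eps
    positivity
  have hsz : 16 * z ≤ s * z := Nat.mul_le_mul_right z hs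
  have hG : G2 h (s * z) z = ∑ j ∈ Finset.range (s * z + 1), aj h z j := by
    rw [sum_aj, G2, SS, Finset.sum_filter]
    exact Finset.sum_congr rfl fun S _ => if_congr (by rw [Finset.mem_range]; omega) rfl rfl
  have hTG : T ≤ G2 h (s * z) z := by
    rw [hG]
    exact Finset.sum_le_sum_of_subset_of_nonneg (Finset.range_mono (by omega))
      fun i _ _ => aj_nonneg ha z i
  have hG1 := ha.one_le_G2 (s * z) z
  have hPi : Pi2 h z = ∑ S ∈ (PrL k z).powerset, ∏ p ∈ S, hp h p := Finset.prod_one_add _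
  refine ⟨?_, ?_, ?_⟩
  · set B := eps s * T / (15 * z) with hB
    have hz0 : (0 : ℝ) < z := by exact_mod_cast hz
    have hB0 : 0 ≤ B := by positivity
    have hs1 : (s - 1) * z + z = s * z := by
      rw [← Nat.succ_mul, Nat.succ_eq_add_one, Nat.sub_add_cancel (by omega)]
    have h3 : ∀ j, (s - 1) * z ≤ j → aj h z j ≤ B := fun j hj => by
      rw [hB, le_div_iff₀ (by positivity), mul_comm]
      refine le_trans (mul_le_mul_of_nonneg_right ?_ (aj_nonneg ha z j)) (h1 j hj)
      exact_mod_cast (by omega : 15 * z ≤ j)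
    have e : De h (s * z) z = fun F => (∑ p ∈ PrL k z, (if p ∣ F * (F + h) then (1 : ℝ) else 0) *
        w2 h (s * z) z F ^ 2) * (1 / G2 h (s * z) z ^ 2) := by
      funext F
      rw [De, nu2, ← Finset.sum_mul, Finset.card_filter, div_pow]
      push_cast
      ring
    have h4 : ∀ p ∈ PrL k z, avm n (fun F => (if p ∣ F * (F + h) then (1 : ℝ) else 0) *
        w2 h (s * z) z F ^ 2) ≤ (p.natDegree : ℝ) / Nm p * (2 * B) := by
      intro p hp1
      have hd := (mem_PrL.1 hp1).2
      refine (avm_sq_le ha hp1 (by omega) (by nlinarith)).trans ?_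
      have h5 : ∑ j ∈ Finset.Ioc (s * z - p.natDegree) (s * z), aj h z j ≤ p.natDegree * B := by
        refine (Finset.sum_le_card_nsmul _ _ B fun j hj => h3 j ?_).trans ?_
        · rw [Finset.mem_Ioc] at hj
          omega
        · rw [nsmul_eq_mul, Nat.card_Ioc]
          refine mul_le_mul_of_nonneg_right ?_ hB0
          exact_mod_cast (by omega : s * z - (s * z - p.natDegree) ≤ p.natDegree)
      exact (mul_le_mul_of_nonneg_left h5 (div_nonneg zero_le_two (Nm_pos p).le)).trans_eq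
        (by ring)
    have h5 := (Finset.sum_le_sum h4).trans
      (sum_PrL_le (k := k) z (f := fun _ => 2 * B) fun _ => by positivity)
    rw [Finset.sum_const, nsmul_eq_mul, Nat.card_Ico] at h5
    have h6 : ((z - 1 : ℕ) : ℝ) * (2 * B) ≤ eps s * G2 h (s * z) z := by
      have h7 : ((z - 1 : ℕ) : ℝ) ≤ z := by exact_mod_cast Nat.sub_le z 1
      have h8 : (z : ℝ) * (2 * B) = 2 / 15 * (eps s * T) := by
        rw [hB]
        field_simp
      have h9 := mul_le_mul_of_nonneg_left hTG he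
      have h10 := mul_nonneg he hT0
      have h11 := mul_le_mul_of_nonneg_right h7 (by positivity : 0 ≤ 2 * B)
      linarith
    rw [e, avm_mul_right, avm_sum]
    refine (mul_le_mul_of_nonneg_right (h5.trans h6) (by positivity)).trans_eq ?_
    field_simp
  · rw [hPi, G2, SS]
    exact Finset.sum_le_sum_of_subset_of_nonneg (Finset.filter_subset _ _)
      fun S hS _ => prod_nonneg ha hS
  · have h3 := h2 (∑ p ∈ PrL k z, p.natDegree + 1)
    rw [sum_aj] at h3
    have h4 : Pi2 h z ≤ G2 h (s * z) z + ∑ S ∈ (PrL k z).powerset,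
        if ∑ p ∈ S, p.natDegree ∈ Finset.Ico (s * z) (∑ p ∈ PrL k z, p.natDegree + 1) then
          ∏ p ∈ S, hp h p else 0 := by
      rw [hPi, G2, SS, Finset.sum_filter, ← Finset.sum_add_distrib]
      refine Finset.sum_le_sum fun S hS => ?_
      have h5 := prod_nonneg ha hS
      have h6 : ∑ p ∈ S, p.natDegree ≤ ∑ p ∈ PrL k z, p.natDegree :=
        Finset.sum_le_sum_of_subset (Finset.mem_powerset.1 hS)
      simp only [Finset.mem_Ico]
      split_ifs <;> first | omega | linarith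
    have h5 := mul_le_mul_of_nonneg_left hTG he
    linarith

end Pool.Agent.Lib.MP_9227d9_nt.Mob
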