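import Pool.Agent.Lib.MP_9227d9_nt.TwDefs2
import Pool.Agent.Lib.MP_9227d9_nt.TwDe

/-! An upper bound sieve. -/

namespace Pool.Agent.Lib.MP_9227d9_nt.Mob

open Polynomial

open scoped Classical

namespace TwSel

variable {k : Type} [Field k] [Fintype k] {T : Finset k[X]} {c : k[X] → ℝ} {z : ℕ}

/-- The part of total degree `j`. -/
noncomputable def aj (T : Finset k[X]) (c : k[X] → ℝ) (j : ℕ) : ℝ :=
  ∑ S ∈ T.powerset.filter (fun S => ∑ p ∈ S, p.natDegree = j), ∏ p ∈ S, c p

omit [Fintype k] in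
theorem prod_nonneg (hc : ∀ p ∈ T, 0 ≤ c p) {S : Finset k[X]} (hS : S ∈ T.powerset) :
    0 ≤ ∏ p ∈ S, c p :=
  Finset.prod_nonneg fun _ hq => hc _ (Finset.mem_powerset.1 hS hq)

omit [Fintype k] in
theorem aj_nonneg (hc : ∀ p ∈ T, 0 ≤ c p) (j : ℕ) : 0 ≤ aj T c j :=
  Finset.sum_nonneg fun _ hS => prod_nonneg hc (Finset.mem_filter.1 hS).1

omit [Fintype k] in
theorem sum_aj (J : Finset ℕ) : ∑ j ∈ J, aj T c j =
    ∑ S ∈ T.powerset, if ∑ p ∈ S, p.natDegree ∈ J then ∏ p ∈ S, c p else 0 := by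
  rw [← Finset.sum_filter]
  exact Finset.sum_fiberwise_eq_sum_filter _ _ _ _

theorem aj_rec [CharP k 2] (hT : T ⊆ PrL k z) (hc : ∀ p ∈ T, 0 ≤ c p)
    (hc' : ∀ p ∈ T, c p ≤ 4 / Nm p) (j : ℕ) :
    (j : ℝ) * aj T c j ≤ 4 * ∑ i ∈ Finset.Ico (j - z) j, aj T c i := by
  have h1 : (j : ℝ) * aj T c j = ∑ p ∈ T, (p.natDegree : ℝ) * ∑ S ∈ T.powerset,
      if ∑ q ∈ S, q.natDegree = j ∧ p ∈ S then ∏ q ∈ S, c q else 0 := by
    simp only [Finset.mul_sum]
    rw [Finset.sum_comm, aj, Finset.sum_filter, Finset.mul_sum]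
    refine Finset.sum_congr rfl fun S hS => ?_
    by_cases hj : ∑ q ∈ S, q.natDegree = j
    · simp only [hj, true_and, if_true, mul_ite, mul_zero]
      rw [← Finset.sum_filter, Finset.filter_mem_eq_inter,
        Finset.inter_eq_right.2 (Finset.mem_powerset.1 hS), ← Finset.sum_mul, ← hj, Nat.cast_sum]
    · simp [hj]
  have h6 : ∀ m, 0 ≤ if m ≤ j then aj T c (j - m) else 0 := fun m => by
    split_ifs
    · exact aj_nonneg hc _
    · exact le_rfl
  have h2 : ∀ p ∈ T, (p.natDegree : ℝ) * (∑ S ∈ T.powerset,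
      if ∑ q ∈ S, q.natDegree = j ∧ p ∈ S then ∏ q ∈ S, c q else 0) ≤
      4 * ((p.natDegree : ℝ) / Nm p *
        if p.natDegree ≤ j then aj T c (j - p.natDegree) else 0) := by
    intro p hp1
    have h3 : (∑ S ∈ T.powerset,
        if ∑ q ∈ S, q.natDegree = j ∧ p ∈ S then ∏ q ∈ S, c q else 0) =
        c p * ∑ S ∈ (T.erase p).powerset,
          if p.natDegree + ∑ q ∈ S, q.natDegree = j then ∏ q ∈ S, c q else 0 := by
      rw [TwDe.sum_split hp1, Finset.mul_sum]
      refine Finset.sum_congr rfl fun S hS => ?_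
      have h4 := TwDe.notMem_of_mem hS
      rw [Finset.sum_insert h4, Finset.prod_insert h4, if_neg fun h => h4 h.2]
      simp
    have h4 : (∑ S ∈ T.powerset,
        if p.natDegree + ∑ q ∈ S, q.natDegree = j then ∏ q ∈ S, c q else 0) =
        if p.natDegree ≤ j then aj T c (j - p.natDegree) else 0 := by
      split_ifs with h5
      · rw [aj, Finset.sum_filter]
        exact Finset.sum_congr rfl fun S _ => if_congr (by omega) rfl rfl
      · exact Finset.sum_eq_zero fun S _ => if_neg (by omega)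
    have h5 : (∑ S ∈ (T.erase p).powerset,
        if p.natDegree + ∑ q ∈ S, q.natDegree = j then ∏ q ∈ S, c q else 0) ≤ _ :=
      (Finset.sum_le_sum_of_subset_of_nonneg
        (Finset.powerset_mono.2 (Finset.erase_subset _ _)) fun S hS _ => by
          split_ifs
          · exact prod_nonneg hc hS
          · exact le_rfl).trans_eq h4
    have h7 := mul_le_mul_of_nonneg_left h5 (hc p hp1)
    have h8 := mul_le_mul_of_nonneg_right (hc' p hp1) (h6 p.natDegree)
    rw [h3]
    exact (mul_le_mul_of_nonneg_left (h7.trans h8) (Nat.cast_nonneg _)).trans_eq (by ring)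
  rw [h1]
  refine (Finset.sum_le_sum h2).trans ?_
  rw [← Finset.mul_sum]
  refine mul_le_mul_of_nonneg_left ((Finset.sum_le_sum_of_subset_of_nonneg hT fun p _ _ =>
    mul_nonneg (div_nonneg (Nat.cast_nonneg _) (Nm_pos p).le) (h6 _)).trans
    ((TwDe.sum_PrL_le z (f := fun m => if m ≤ j then aj T c (j - m) else 0) h6).trans ?_))
    (by norm_num)
  rw [← Finset.sum_filter, ← Finset.sum_image (g := fun m => j - m) (f := aj T c)]
  · refine Finset.sum_le_sum_of_subset_of_nonneg (fun i hi => ?_) fun i _ _ => aj_nonneg hc _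
    simp only [Finset.mem_image, Finset.mem_filter, Finset.mem_Ico] at hi ⊢
    obtain ⟨m, hm, rfl⟩ := hi
    omega
  · intro m hm m' hm' he
    simp only [Finset.coe_filter, Finset.mem_Ico, Set.mem_ofPred_eq] at hm hm' he
    omega

theorem orth {ψ : k[X] → k[X] → ℝ} {S S' : Finset k[X]} {n : ℕ}
    (hA : ∀ p ∈ S ∪ S', IsP p ∧ (∀ v t, ψ p (v + p * t) = ψ p v) ∧ avg p.natDegree (ψ p) = 0 ∧
      avg p.natDegree (fun v => ψ p v * ψ p v) = c p) (hd : ∑ p ∈ S ∪ S', p.natDegree ≤ n) :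
    avm n (fun F => (∏ p ∈ S, ψ p F) * ∏ p ∈ S', ψ p F) = if S = S' then ∏ p ∈ S, c p else 0 := by
  have h1 : ∀ {T : Finset k[X]}, T ⊆ S ∪ S' → ∀ f : k[X] → ℝ,
      ∏ p ∈ T, f p = ∏ p ∈ S ∪ S', if p ∈ T then f p else 1 := fun hT f => by
    rw [Finset.prod_ite_mem, Finset.inter_eq_right.2 hT]
  have h2 := avg_prod (n := n) (S ∪ S') id
    (fun p t => (if p ∈ S then ψ p t else 1) * if p ∈ S' then ψ p t else 1)
    (fun p hp => (hA p hp).1.1.ne_zero) (fun p hp p' hp' => (hA p hp).1.isCoprime (hA p' hp').1)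
    (fun p hp v t => by simp only [id, (hA p hp).2.1]) hd (X ^ n)
  simp only [id] at h2
  simp only [avm, h1 Finset.subset_union_left, h1 Finset.subset_union_right,
    ← Finset.prod_mul_distrib]
  rw [h2]
  split_ifs with e
  · subst e
    refine Finset.prod_congr rfl fun p hp => ?_
    split_ifs
    · exact (hA p hp).2.2.2
    · simpa using avg_const p.natDegree 1
  · rw [Finset.ext_iff, not_forall] at e
    obtain ⟨p, hp⟩ := e
    by_cases h4 : p ∈ S
    · have h5 : p ∉ S' := fun h5 => hp (iff_of_true h4 h5)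
      refine Finset.prod_eq_zero (Finset.mem_union_left _ h4) ?_
      simpa [h4, h5] using (hA p (Finset.mem_union_left _ h4)).2.2.1
    · have h5 : p ∈ S' := by_contra fun h5 => hp (iff_of_false h4 h5)
      refine Finset.prod_eq_zero (Finset.mem_union_right _ h5) ?_
      simpa [h4, h5] using (hA p (Finset.mem_union_right _ h5)).2.2.1

end TwSel

theorem stSel (hS : StSeq) : StSel := by
  intro k _ _ _ T A g s z n hz hs hn H
  set c : k[X] → ℝ := fun p => g p / (1 - g p) with hc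
  set ψ : k[X] → k[X] → ℝ := fun p F => if A p F then -1 else c p with hψ
  have hg0 : ∀ p ∈ T, 0 ≤ g p := fun p hp => (H p hp).2.2.2.1 ▸ avg_nonneg fun v _ => by
    split_ifs <;> norm_num
  have hg1 : ∀ p ∈ T, 0 < 1 - g p := fun p hp => sub_pos.2 (H p hp).2.2.2.2.1
  have hc0 : ∀ p ∈ T, 0 ≤ c p := fun p hp => div_nonneg (hg0 p hp) (hg1 p hp).le
  have hT : T ⊆ PrL k z := fun p hp => mem_PrL.2 ⟨(H p hp).1, (H p hp).2.1⟩
  have hloc : ∀ p ∈ T, IsP p ∧ (∀ v t, ψ p (v + p * t) = ψ p v) ∧ avg p.natDegree (ψ p) = 0 ∧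
      avg p.natDegree (fun v => ψ p v * ψ p v) = c p := fun p hp => by
    have h1 := (hg1 p hp).ne'
    refine ⟨(H p hp).1, fun v t => by simp only [hψ, (H p hp).2.2.1], ?_, ?_⟩
    · rw [avg_congr (G := fun v => c p + (-1 - c p) * if A p v then 1 else 0) fun v _ => by
        simp only [hψ]; split_ifs <;> ring, avg_add, avg_const, avg_mul_left, (H p hp).2.2.2.1]
      simp only [hc]
      field_simp
      ring
    · rw [avg_congr (G := fun v => c p ^ 2 + (1 - c p ^ 2) * if A p v then 1 else 0) fun v _ => by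
        simp only [hψ]; split_ifs <;> ring, avg_add, avg_const, avg_mul_left, (H p hp).2.2.2.1]
      simp only [hc]
      field_simp
      ring
  set U := T.powerset.filter (fun S => ∑ p ∈ S, p.natDegree ≤ s * z) with hU
  set G := ∑ S ∈ U, ∏ p ∈ S, c p with hG
  have hG1 : 1 ≤ G := by
    have h0 : (∅ : Finset k[X]) ∈ U := by simp [hU]
    simpa using Finset.single_le_sum (f := fun S => ∏ p ∈ S, c p)
      (fun S hS => TwSel.prod_nonneg hc0 (Finset.mem_filter.1 hS).1) h0
  have hw : avm n (fun F => (∑ S ∈ U, ∏ p ∈ S, ψ p F) * ∑ S ∈ U, ∏ p ∈ S, ψ p F) = G := by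
    simp only [Finset.sum_mul_sum]
    rw [avm_sum]
    refine Finset.sum_congr rfl fun S hS1 => ?_
    rw [avm_sum, Finset.sum_congr rfl (g := fun S' => if S = S' then ∏ p ∈ S, c p else 0)
      fun S' hS2 => ?_, Finset.sum_ite_eq, if_pos hS1]
    obtain ⟨h1, h2⟩ := Finset.mem_filter.1 hS1
    obtain ⟨h3, h4⟩ := Finset.mem_filter.1 hS2
    refine TwSel.orth (fun p hp => hloc p (Finset.union_subset (Finset.mem_powerset.1 h1)
      (Finset.mem_powerset.1 h3) hp)) ?_
    have := Finset.sum_union_inter (s₁ := S) (s₂ := S') (f := fun p : k[X] => p.natDegree)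
    omega
  have h1 : avm n (fun F => if ∀ p ∈ T, ¬ A p F then (1 : ℝ) else 0) * G ^ 2 ≤ G := by
    rw [← avm_mul_right]
    refine (avm_mono fun F _ => ?_).trans_eq hw
    split_ifs with hF
    · have : ∑ S ∈ U, ∏ p ∈ S, ψ p F = G := Finset.sum_congr rfl fun S hS1 =>
        Finset.prod_congr rfl fun p hp =>
          if_neg (hF p (Finset.mem_powerset.1 (Finset.mem_filter.1 hS1).1 hp))
      rw [this]
      nlinarith
    · rw [zero_mul]
      exact mul_self_nonneg _
  obtain ⟨-, h2⟩ := hS (TwSel.aj T c) z s hz hs (TwSel.aj_nonneg hc0)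
    (TwSel.aj_rec hT hc0 fun p hp => (H p hp).2.2.2.2.2)
  have he : 0 ≤ eps s := by unfold eps; positivity
  have h3 : ∑ i ∈ Finset.range (8 * z), TwSel.aj T c i ≤ G := by
    rw [TwSel.sum_aj, hG, hU, Finset.sum_filter]
    refine Finset.sum_le_sum fun S hS1 => ?_
    have := TwSel.prod_nonneg hc0 hS1
    have h8 : 8 * z ≤ s * z := Nat.mul_le_mul_right z (by omega)
    simp only [Finset.mem_range]
    split_ifs <;> first | exact le_rfl | omega | assumption
  have h4 : ∏ p ∈ T, (1 + c p) ≤ G + ∑ i ∈ Finset.Ico (s * z) (∑ p ∈ T, p.natDegree + 1),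
      TwSel.aj T c i := by
    rw [Finset.prod_one_add, TwSel.sum_aj, hG, hU, Finset.sum_filter, ← Finset.sum_add_distrib]
    refine Finset.sum_le_sum fun S hS1 => ?_
    have := TwSel.prod_nonneg hc0 hS1
    have h8 : ∑ p ∈ S, p.natDegree ≤ ∑ p ∈ T, p.natDegree :=
      Finset.sum_le_sum_of_subset (Finset.mem_powerset.1 hS1)
    simp only [Finset.mem_Ico]
    split_ifs <;> first | omega | linarith
  have h5 : ∏ p ∈ T, (1 + c p) ≤ (1 + eps s) * G := by
    have := (h2 (∑ p ∈ T, p.natDegree + 1)).trans (mul_le_mul_of_nonneg_left h3 he)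
    linarith
  have h6 : (∏ p ∈ T, (1 + c p)) * ∏ p ∈ T, (1 - g p) = 1 := by
    rw [← Finset.prod_mul_distrib]
    refine Finset.prod_eq_one fun p hp => ?_
    have := (hg1 p hp).ne'
    simp only [hc]
    field_simp
    ring
  have h7 : 0 ≤ ∏ p ∈ T, (1 - g p) := Finset.prod_nonneg fun p hp => (hg1 p hp).le
  have h8 := mul_le_mul_of_nonneg_right h5 h7
  have h9 : avm n (fun F => if ∀ p ∈ T, ¬ A p F then (1 : ℝ) else 0) * G ≤ 1 := by
    refine le_of_mul_le_mul_right (a := G) ?_ (by linarith)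
    nlinarith
  refine le_of_mul_le_mul_right (a := G) ?_ (by linarith)
  nlinarith

end Pool.Agent.Lib.MP_9227d9_nt.Mob
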