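import Pool.Agent.Lib.MP_9227d9_nt.MobOd

/-!
The van der Corput iteration.
-/

namespace Pool.Agent.Lib.MP_9227d9_nt.Mob

open Polynomial

open scoped Classical

namespace B

variable {k : Type} [Field k] [Fintype k]

omit [Fintype k] in
theorem chi_le (p b a : k[X]) : |chi p b a| ≤ 1 := by
  unfold chi sgR
  split_ifs <;> simp

omit [Fintype k] in
theorem prod_le {ι : Type} [Fintype ι] (f : ι → ℝ) (h : ∀ i, |f i| ≤ 1) : |∏ i, f i| ≤ 1 := by
  rw [Finset.abs_prod]
  exact Finset.prod_le_one (fun i _ => abs_nonneg _) fun i _ => h i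

theorem mul_le {x y : ℝ} (hx : |x| ≤ 1) (hy : |y| ≤ 1) : |x * y| ≤ 1 := by
  rw [abs_mul]
  exact mul_le_one₀ hx (abs_nonneg _) hy

/-- Removing one periodic factor. -/
theorem vdc (L d : ℕ) (Φ ψ : k[X] → ℝ) (M : k[X]) (hψ : ∀ σ, |ψ σ| ≤ 1)
    (hper : ∀ σ t, ψ (σ + M * t) = ψ σ) (hd : M.natDegree + d ≤ L) :
    avg L (fun σ => Φ σ * ψ σ) ^ 2 ≤
      avg d fun t => avg d fun t' => avg L fun σ => Φ (σ + M * t) * Φ (σ + M * t') := by
  have h1 : avg L (fun σ => Φ σ * ψ σ) =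
      avg L fun σ => ψ σ * avg d fun t => Φ (σ + M * t) := by
    rw [avg_avg_shift d (fun t => M * t) fun t ht => degree_mul_lt ht hd]
    refine avg_congr fun σ _ => ?_
    rw [← avg_mul_left]
    refine avg_congr fun t _ => ?_
    rw [hper, mul_comm]
  have h2 : avg L (fun σ => ψ σ ^ 2) ≤ 1 := avg_le_of_le fun σ _ => by
    have := hψ σ
    rw [← sq_abs]
    exact pow_le_one₀ (abs_nonneg _) this
  have h3 : 0 ≤ avg L fun σ => (avg d fun t => Φ (σ + M * t)) ^ 2 :=
    avg_nonneg fun _ _ => sq_nonneg _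
  have h4 : (avg L fun σ => (avg d fun t => Φ (σ + M * t)) ^ 2) =
      avg d fun t => avg d fun t' => avg L fun σ => Φ (σ + M * t) * Φ (σ + M * t') := by
    have e1 : (avg L fun σ => (avg d fun t => Φ (σ + M * t)) ^ 2) =
        avg L fun σ => avg d fun t => avg d fun t' => Φ (σ + M * t) * Φ (σ + M * t') := by
      refine avg_congr fun σ _ => ?_
      rw [sq, ← avg_mul_right]
      refine avg_congr fun t _ => ?_
      rw [← avg_mul_left]
    rw [e1, avg_comm]
    refine avg_congr fun t _ => ?_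
    rw [avg_comm]
  rw [h1, ← h4]
  refine le_trans sq_avg_mul_le ?_
  exact mul_le_of_le_one_left h3 h2

/-- The statement proved by induction. -/
def Gen (m r : ℕ) (C : ℝ) : Prop :=
  ∀ (k : Type) [Field k] [Fintype k] [CharP k 2] (p b w : k[X]) (J : Type) [Fintype J]
    [Nonempty J] (a : J → k[X]) (φ : Fin m → k[X] → ℝ) (M : Fin m → k[X]) (L : ℕ),
    Fintype.card J ≤ r → IsP p → ¬ p ∣ derivative b → ¬ p ∣ w →
    (∀ i j, i ≠ j → ¬ p ∣ a i - a j) → (∀ i σ, |φ i σ| ≤ 1) →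
    (∀ i σ t, φ i (σ + M i * t) = φ i σ) → (∀ i, ¬ p ∣ M i) →
    (∀ i, (M i).natDegree + p.natDegree ≤ L) → 2 * p.natDegree ≤ L →
    |avg L fun σ => (∏ j, chi p b (a j + w * σ)) * ∏ i, φ i σ| ^ 2 ^ (m + 1) ≤ C / Nm p

theorem gen_zero (h : StB0) (r : ℕ) : Gen 0 r (((r : ℝ) + 2) ^ 2) := by
  intro k _ _ _ p b w J _ _ a φ M L hr hp hb hw ha _ _ _ _ hL
  have h1 := h k p b w J a L hp hb hw ha hL
  simp only [Finset.univ_eq_empty, Finset.prod_empty, mul_one, zero_add, pow_one, sq_abs]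
  refine h1.trans (div_le_div_of_nonneg_right ?_ (Nm_pos p).le)
  have : (Fintype.card J : ℝ) ≤ r := by exact_mod_cast hr
  gcongr

theorem numer {x ρ β C N : ℝ} {E : ℕ} (hE : E ≠ 0) (hρ : 0 ≤ ρ) (hβ : 0 ≤ β) (hN : 1 ≤ N)
    (hb : β ^ E = C / N) (hx : x ^ 2 ≤ ρ / N + β) :
    |x| ^ (E * 2) ≤ 2 ^ (E - 1) * (ρ ^ E + C) / N := by
  have hN0 : 0 < N := by linarith
  have h1 : |x| ^ (E * 2) = (x ^ 2) ^ E := by rw [mul_comm, pow_mul, sq_abs]
  have h2 : (x ^ 2) ^ E ≤ (ρ / N + β) ^ E := pow_le_pow_left₀ (sq_nonneg _) hx E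
  have h3 := add_pow_le (div_nonneg hρ hN0.le) hβ E
  have h4 : (ρ / N) ^ E ≤ ρ ^ E / N := by
    rw [div_pow]
    exact div_le_div_of_nonneg_left (pow_nonneg hρ _) hN0 (le_self_pow₀ hN hE)
  rw [h1, mul_div_assoc, add_div, ← hb]
  refine h2.trans (h3.trans ?_)
  gcongr

theorem gen_succ {m r : ℕ} {C : ℝ} (hC : 0 ≤ C) (ih : Gen m (2 * r) C) :
    Gen (m + 1) r (2 ^ (2 ^ (m + 1) - 1) * (((r : ℝ) ^ 2) ^ 2 ^ (m + 1) + C)) := by
  intro k _ _ _ p b w J _ _ a φ M L hr hp hb hw ha hφ hper hM hdeg hL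
  have hN0 := Nm_pos p
  have hN1 : (1 : ℝ) ≤ Nm p := le_trans (by norm_num) hp.two_le_Nm
  have hE : 2 ^ (m + 1) ≠ 0 := by positivity
  obtain ⟨β, hβ, hβE⟩ : ∃ β : ℝ, 0 ≤ β ∧ β ^ 2 ^ (m + 1) = C / Nm p :=
    ⟨(C / Nm p) ^ (((2 ^ (m + 1) : ℕ) : ℝ)⁻¹), Real.rpow_nonneg (div_nonneg hC hN0.le) _,
      Real.rpow_inv_natCast_pow (div_nonneg hC hN0.le) hE⟩
  rw [pow_succ 2 (m + 1)]
  refine numer hE (sq_nonneg _) hβ hN1 hβE ?_
  set Φ : k[X] → ℝ := fun σ => (∏ j, chi p b (a j + w * σ)) * ∏ i : Fin m, φ i.succ σ with hΦ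
  have e0 : (fun σ => (∏ j, chi p b (a j + w * σ)) * ∏ i, φ i σ) = fun σ => Φ σ * φ 0 σ := by
    funext σ
    rw [Fin.prod_univ_succ, hΦ]
    ring
  rw [e0]
  refine (vdc L p.natDegree Φ (φ 0) (M 0) (hφ 0) (hper 0) (hdeg 0)).trans ?_
  refine avg_le_of_le fun t _ => ?_
  have hΦ1 : ∀ σ, |Φ σ| ≤ 1 := fun σ =>
    mul_le (prod_le _ fun j => chi_le _ _ _) (prod_le _ fun i => hφ _ _)
  have hcop : IsCoprime (-(w * M 0)) p := by
    rw [hp.isCoprime_iff, dvd_neg]
    intro h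
    rcases hp.prime.dvd_or_dvd h with h | h
    · exact hw h
    · exact hM 0 h
  have key : ∀ t' : k[X], (avg L fun σ => Φ (σ + M 0 * t) * Φ (σ + M 0 * t')) ≤
      (∑ ij : J × J, if p ∣ (a ij.1 - a ij.2 + w * M 0 * t) + -(w * M 0) * t' then (1 : ℝ) else 0)
        + β := by
    intro t'
    have hnn : ∀ ij ∈ (Finset.univ : Finset (J × J)), (0 : ℝ) ≤
        if p ∣ (a ij.1 - a ij.2 + w * M 0 * t) + -(w * M 0) * t' then (1 : ℝ) else 0 :=
      fun ij _ => by split_ifs <;> norm_num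
    by_cases hbad : ∃ ij : J × J, p ∣ (a ij.1 - a ij.2 + w * M 0 * t) + -(w * M 0) * t'
    · obtain ⟨ij, hij⟩ := hbad
      have h1 := Finset.single_le_sum hnn (Finset.mem_univ ij)
      rw [if_pos hij] at h1
      have h2 : (avg L fun σ => Φ (σ + M 0 * t) * Φ (σ + M 0 * t')) ≤ 1 :=
        avg_le_of_le fun σ _ => (le_abs_self _).trans (mul_le (hΦ1 _) (hΦ1 _))
      linarith
    · have h1 := Finset.sum_nonneg hnn
      have h2 := ih k p b w (J ⊕ J)
        (Sum.elim (fun j => a j + w * M 0 * t) fun j => a j + w * M 0 * t')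
        (fun i σ => φ i.succ (σ + M 0 * t) * φ i.succ (σ + M 0 * t')) (fun i => M i.succ) L
        (by rw [Fintype.card_sum]; omega) hp hb hw ?_ (fun i σ => mul_le (hφ _ _) (hφ _ _))
        (fun i σ s => by
          rw [add_right_comm σ _ (M 0 * t), add_right_comm σ _ (M 0 * t'), hper, hper])
        (fun i => hM _) (fun i => hdeg _) hL
      · rw [← hβE] at h2
        have h3 := le_of_pow_le_pow_left₀ hE hβ h2
        have e1 : (fun σ => Φ (σ + M 0 * t) * Φ (σ + M 0 * t')) = fun σ =>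
            (∏ j : J ⊕ J, chi p b (Sum.elim (fun j => a j + w * M 0 * t)
              (fun j => a j + w * M 0 * t') j + w * σ)) *
            ∏ i : Fin m, φ i.succ (σ + M 0 * t) * φ i.succ (σ + M 0 * t') := by
          funext σ
          rw [Fintype.prod_sum_type, Finset.prod_mul_distrib, hΦ]
          simp only [Sum.elim_inl, Sum.elim_inr]
          have a1 : ∀ (j : J) (s : k[X]), a j + w * (σ + M 0 * s) = a j + w * M 0 * s + w * σ :=
            fun j s => by ring
          simp only [a1]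
          ring
        rw [e1]
        have := le_abs_self (avg L fun σ =>
            (∏ j : J ⊕ J, chi p b (Sum.elim (fun j => a j + w * M 0 * t)
              (fun j => a j + w * M 0 * t') j + w * σ)) *
            ∏ i : Fin m, φ i.succ (σ + M 0 * t) * φ i.succ (σ + M 0 * t'))
        linarith
      · rintro (i | i) (j | j) hij hd
        · refine ha i j (fun e => hij (by rw [e])) ?_
          simpa using hd
        · refine hbad ⟨(i, j), ?_⟩
          simp only [Sum.elim_inl, Sum.elim_inr] at hd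
          convert hd using 1
          ring
        · refine hbad ⟨(j, i), ?_⟩
          simp only [Sum.elim_inl, Sum.elim_inr] at hd
          rw [← dvd_neg] at hd
          convert hd using 1
          ring
        · refine ha i j (fun e => hij (by rw [e])) ?_
          simpa using hd
  refine (avg_mono fun t' _ => key t').trans ?_
  rw [avg_add, avg_const, avg_sum]
  have e2 : ∀ ij ∈ (Finset.univ : Finset (J × J)), (avg p.natDegree fun t' =>
      if p ∣ (a ij.1 - a ij.2 + w * M 0 * t) + -(w * M 0) * t' then (1 : ℝ) else 0) = 1 / Nm p :=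
    fun ij _ => avg_dvd hp.1.ne_zero le_rfl hcop _
  rw [Finset.sum_congr rfl e2, Finset.sum_const, Finset.card_univ, Fintype.card_prod,
    nsmul_eq_mul, mul_one_div]
  have : (Fintype.card J : ℝ) ≤ r := by exact_mod_cast hr
  push_cast
  rw [← sq]
  gcongr

theorem gen (h : StB0) (m : ℕ) : ∀ r, ∃ C, 0 ≤ C ∧ Gen m r C := by
  induction m with
  | zero => exact fun r => ⟨_, by positivity, gen_zero h r⟩
  | succ m ih =>
    intro r
    obtain ⟨C, hC, hG⟩ := ih (2 * r)
    exact ⟨_, by positivity, gen_succ hC hG⟩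

end B

theorem stB (h : StB0) : StB := by
  intro m
  choose C hC hG using fun n => B.gen h n 1
  refine ⟨∑ n ∈ Finset.range (m + 1), C n, ?_⟩
  intro k _ _ _ p b a w ι _ φ M L hm hp hb hw hφ hper hM hdeg hL
  let e := (Fintype.equivFin ι).symm
  have h1 := hG (Fintype.card ι) k p b w Unit (fun _ => a) (fun i => φ (e i)) (fun i => M (e i)) L
    (by simp) hp hb hw (fun i j hij => absurd (Subsingleton.elim i j) hij) (fun i => hφ _)
    (fun i => hper _) (fun i => hM _) (fun i => hdeg _) hL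
  have e1 : (fun σ => (∏ _j : Unit, chi p b (a + w * σ)) * ∏ i, φ (e i) σ) =
      fun σ => chi p b (a + w * σ) * ∏ i, φ i σ := by
    funext σ
    rw [Equiv.prod_comp e fun i => φ i σ]
    simp
  rw [e1] at h1
  have h2 : |avg L fun σ => chi p b (a + w * σ) * ∏ i, φ i σ| ≤ 1 :=
    abs_avg_le_of_le fun σ _ => B.mul_le (B.chi_le _ _ _) (B.prod_le _ fun i => hφ _ _)
  refine (pow_le_pow_of_le_one (abs_nonneg _) h2
    (Nat.pow_le_pow_right (by norm_num) (by omega))).trans (h1.trans ?_)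
  refine div_le_div_of_nonneg_right ?_ (Nm_pos p).le
  exact Finset.single_le_sum (fun n _ => hC n) (Finset.mem_range.2 (by omega))

end Pool.Agent.Lib.MP_9227d9_nt.Mob
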