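import Pool.Agent.Lib.MP_9227d9_nt.MobOd

/-!
The complete cubic sum in characteristic two.
-/

namespace Pool.Agent.Lib.MP_9227d9_nt.Mob

open Polynomial

open scoped Classical

namespace B0

/-- The additive character with kernel the values of `z ^ 2 + z`. -/
noncomputable def ps {K : Type} [Field K] (x : K) : ℝ := if ∃ z : K, z ^ 2 + z = x then 1 else -1

section Fld

variable {K : Type} [Field K] [Fintype K] [CharP K 2]

/-- The map `z ↦ z ^ 2 + z`. -/
def wp (K : Type) [Field K] [CharP K 2] : K →+ K where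
  toFun z := z ^ 2 + z
  map_zero' := by simp
  map_add' a b := by
    rw [CharTwo.add_sq]
    ring

theorem index_wp : (wp K).range.index = 2 := by
  rw [AddSubgroup.index_range]
  have h : ((wp K).ker : Set K) = {0, 1} := by
    ext z
    have h1 : z ^ 2 + z = z * (z - 1) := by
      rw [CharTwo.sub_eq_add]
      ring
    simp [wp, h1, sub_eq_zero]
  change Nat.card ((wp K).ker : Set K) = 2
  rw [h, Nat.card_coe_set_eq, Set.ncard_pair zero_ne_one]

theorem ps_eq (x : K) : ps x = if x ∈ (wp K).range then 1 else -1 := by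
  by_cases h : x ∈ (wp K).range
  · rw [if_pos h]
    exact if_pos h
  · rw [if_neg h]
    exact if_neg h

theorem ps_add (x y : K) : ps (x + y) = ps x * ps y := by
  have h := AddSubgroup.add_mem_iff_of_index_two (index_wp (K := K)) (a := x) (b := y)
  rw [ps_eq, ps_eq, ps_eq]
  by_cases hx : x ∈ (wp K).range <;> by_cases hy : y ∈ (wp K).range <;> simp [h, hx, hy]

omit [Fintype K] [CharP K 2] in
theorem ps_zero : ps (0 : K) = 1 := if_pos ⟨0, by simp⟩

omit [Fintype K] [CharP K 2] in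
theorem abs_ps (x : K) : |ps x| = 1 := by
  unfold ps
  split_ifs <;> simp

theorem ps_sq (x : K) : ps (x ^ 2) = ps x := by
  have h : x ^ 2 = (x ^ 2 + x) + x := by rw [add_assoc, CharTwo.add_self_eq_zero, add_zero]
  have h1 : ps (x ^ 2 + x) = 1 := if_pos ⟨x, rfl⟩
  rw [h, ps_add, h1, one_mul]

theorem ps_sum {ι : Type} (s : Finset ι) (f : ι → K) : ps (∑ i ∈ s, f i) = ∏ i ∈ s, ps (f i) := by
  induction s using Finset.induction_on with
  | empty => simpa using ps_zero
  | insert a s ha ih => rw [Finset.sum_insert ha, Finset.prod_insert ha, ps_add, ih]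

theorem sum_ps : ∑ x : K, ps x = 0 := by
  obtain ⟨a, ha⟩ : ∃ a : K, a ∉ (wp K).range := by
    by_contra h
    push Not at h
    have h1 : (wp K).range = ⊤ := (AddSubgroup.eq_top_iff' _).2 h
    have h2 := index_wp (K := K)
    rw [h1, AddSubgroup.index_top] at h2
    exact absurd h2 (by decide)
  have h1 : ps a = -1 := by rw [ps_eq, if_neg ha]
  have h2 : ∑ x : K, ps (x + a) = ∑ x : K, ps x := Equiv.sum_comp (Equiv.addRight a) ps
  simp only [ps_add, h1, mul_neg, mul_one, Finset.sum_neg_distrib] at h2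
  linarith

theorem sq_bij : Function.Bijective fun z : K => z ^ 2 :=
  Finite.injective_iff_bijective.1 fun a b h => by
    have h1 : (a + b) ^ 2 = 0 := by
      have h' : a ^ 2 = b ^ 2 := h
      rw [CharTwo.add_sq, h', CharTwo.add_self_eq_zero]
    exact CharTwo.add_eq_zero.1 (pow_eq_zero_iff two_ne_zero |>.1 h1)

theorem sum_ps_sq {l : K} (hl : l ≠ 0) : ∑ z : K, ps (l * z ^ 2) = 0 := by
  rw [sq_bij.sum_comp fun x : K => ps (l * x), ← sum_ps (K := K)]
  exact Equiv.sum_comp (Equiv.mulLeft₀ l hl) ps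

/-- Weyl differencing for a cubic phase. -/
theorem cubic {A : K} (hA : A ≠ 0) (B C D : K) :
    (∑ z : K, ps (A * z ^ 3 + B * z ^ 2 + C * z + D)) ^ 2 ≤ 4 * Fintype.card K := by
  have h2 : (2 : K) = 0 := CharTwo.two_eq_zero
  have key : ∀ h z : K, ps (A * z ^ 3 + B * z ^ 2 + C * z + D) *
      ps (A * (z + h) ^ 3 + B * (z + h) ^ 2 + C * (z + h) + D) =
      ps (A * h ^ 3 + B * h ^ 2 + C * h) * ps ((A * h + A ^ 2 * h ^ 4) * z ^ 2) := by
    intro h z
    have e1 : (A * h + A ^ 2 * h ^ 4) * z ^ 2 = A * h * z ^ 2 + (A * h ^ 2 * z) ^ 2 := by ring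
    rw [e1, ps_add (A * h * z ^ 2), ps_sq, ← ps_add, ← ps_add, ← ps_add]
    congr 1
    linear_combination (A * z ^ 3 + B * z ^ 2 + C * z + D + A * z ^ 2 * h + A * z * h ^ 2 +
      B * z * h) * h2
  have e : (∑ z : K, ps (A * z ^ 3 + B * z ^ 2 + C * z + D)) ^ 2 =
      ∑ h : K, ps (A * h ^ 3 + B * h ^ 2 + C * h) *
        ∑ z : K, ps ((A * h + A ^ 2 * h ^ 4) * z ^ 2) := by
    simp only [Finset.mul_sum, ← key]
    rw [sq, Finset.sum_mul_sum, Finset.sum_comm (s := Finset.univ) (t := Finset.univ)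
      (f := fun h z : K => ps (A * z ^ 3 + B * z ^ 2 + C * z + D) *
        ps (A * (z + h) ^ 3 + B * (z + h) ^ 2 + C * (z + h) + D))]
    refine Finset.sum_congr rfl fun z _ => ?_
    exact (Equiv.sum_comp (Equiv.addLeft z) fun u => ps (A * z ^ 3 + B * z ^ 2 + C * z + D) *
      ps (A * u ^ 3 + B * u ^ 2 + C * u + D)).symm
  have hc : (Finset.univ.filter fun h : K => A * h + A ^ 2 * h ^ 4 = 0).card ≤ 4 := by
    have hd : (Polynomial.C A * X + Polynomial.C (A ^ 2) * X ^ 4 : K[X]).natDegree = 4 := by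
      compute_degree!
    have h0 : (Polynomial.C A * X + Polynomial.C (A ^ 2) * X ^ 4 : K[X]) ≠ 0 := fun h => by
      rw [h, natDegree_zero] at hd
      exact absurd hd (by decide)
    refine (card_le_degree_of_subset_roots fun h hh => ?_).trans hd.le
    rw [mem_roots h0]
    simpa using hh
  rw [e]
  calc _ ≤ ∑ h : K, if A * h + A ^ 2 * h ^ 4 = 0 then (Fintype.card K : ℝ) else 0 := by
        refine Finset.sum_le_sum fun h _ => ?_
        split_ifs with hh
        · simp only [hh, zero_mul, ps_zero, Finset.sum_const, Finset.card_univ, nsmul_eq_mul,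
            mul_one]
          exact mul_le_of_le_one_left (Nat.cast_nonneg _) ((le_abs_self _).trans (abs_ps _).le)
        · rw [sum_ps_sq hh, mul_zero]
    _ ≤ 4 * Fintype.card K := by
        rw [← Finset.sum_filter, Finset.sum_const, nsmul_eq_mul]
        exact mul_le_mul_of_nonneg_right (by exact_mod_cast hc) (Nat.cast_nonneg _)

variable {J : Type} [Fintype J]

/-- The summand. -/
noncomputable def Ph (y v : J → K) (γ κ : K) (x : K × K) : ℝ :=
  ∏ j, if y j + x.1 = 0 then 0 else ps (((v j + x.2) ^ 2 + γ) ^ 3 / ((y j + x.1) ^ 2 * κ))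

omit [Fintype K] [CharP K 2] in
theorem abs_Ph (y v : J → K) (γ κ : K) (x : K × K) : |Ph y v γ κ x| ≤ 1 := by
  rw [Ph, Finset.abs_prod]
  refine Finset.prod_le_one (fun _ _ => abs_nonneg _) fun j _ => ?_
  split_ifs
  · simp
  · exact (abs_ps _).le

theorem card_bad [Nonempty J] {y : J → K} (hy : Function.Injective y) :
    (Finset.univ.filter fun s : K => (∀ j, y j + s ≠ 0) ∧ ∑ j, (y j + s)⁻¹ = 0).card ≤
      Fintype.card J := by
  have h0 : derivative (Lagrange.nodal Finset.univ y) ≠ 0 := fun h => by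
    obtain ⟨i⟩ := ‹Nonempty J›
    have h1 := Lagrange.eval_nodal_derivative_eval_node_eq (v := y) (Finset.mem_univ i)
    rw [h, eval_zero] at h1
    exact Lagrange.eval_nodal_not_at_node
      (fun j hj h2 => (Finset.mem_erase.1 hj).1 (hy h2).symm) h1.symm
  have hd : (derivative (Lagrange.nodal Finset.univ y)).natDegree ≤ Fintype.card J := by
    refine (natDegree_derivative_le _).trans ?_
    rw [Lagrange.natDegree_nodal, Finset.card_univ]
    exact Nat.sub_le _ _
  refine (card_le_degree_of_subset_roots fun s hs => ?_).trans hd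
  obtain ⟨h1, h2⟩ := (Finset.mem_filter.1 hs).2
  rw [mem_roots h0, IsRoot, Lagrange.derivative_nodal, eval_finsetSum]
  have h3 : ∀ j, eval s (Lagrange.nodal (Finset.univ.erase j) y) =
      eval s (Lagrange.nodal Finset.univ y) * (y j + s)⁻¹ := by
    intro j
    rw [Lagrange.nodal_eq_mul_nodal_erase (Finset.mem_univ j), eval_mul, eval_sub, eval_X, eval_C,
      CharTwo.sub_eq_add, add_comm s, mul_right_comm, mul_inv_cancel₀ (h1 j), one_mul]
  simp only [h3]
  rw [← Finset.mul_sum, h2, mul_zero]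

theorem inner_le (y v : J → K) (γ : K) {κ : K} (hκ : κ ≠ 0) (s : K)
    (hs : ¬ ((∀ j, y j + s ≠ 0) ∧ ∑ j, (y j + s)⁻¹ = 0)) :
    |∑ t : K, Ph y v γ κ (s, t)| ≤ 2 * √(Fintype.card K) := by
  by_cases h1 : ∀ j, y j + s ≠ 0
  · have h2 : ∑ j, (y j + s)⁻¹ ≠ 0 := fun h => hs ⟨h1, h⟩
    have h3 : (2 : K) = 0 := CharTwo.two_eq_zero
    have hA : ∑ j, ((y j + s) ^ 2 * κ)⁻¹ ≠ 0 := by
      have e : ∑ j, ((y j + s) ^ 2 * κ)⁻¹ = (∑ j, (y j + s)⁻¹) ^ 2 * κ⁻¹ := by
        rw [CharTwo.sum_sq, Finset.sum_mul]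
        exact Finset.sum_congr rfl fun j _ => by rw [mul_inv, inv_pow]
      rw [e]
      exact mul_ne_zero (pow_ne_zero _ h2) (inv_ne_zero hκ)
    have h4 := cubic hA (∑ j, ((y j + s) ^ 2 * κ)⁻¹ * (v j ^ 2 + γ))
      (∑ j, ((y j + s) ^ 2 * κ)⁻¹ * (v j ^ 2 + γ) ^ 2)
      (∑ j, ((y j + s) ^ 2 * κ)⁻¹ * (v j ^ 2 + γ) ^ 3)
    rw [← sq_bij.sum_comp] at h4
    have e : ∀ t : K, Ph y v γ κ (s, t) =
        ps ((∑ j, ((y j + s) ^ 2 * κ)⁻¹) * (t ^ 2) ^ 3 +
          (∑ j, ((y j + s) ^ 2 * κ)⁻¹ * (v j ^ 2 + γ)) * (t ^ 2) ^ 2 +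
          (∑ j, ((y j + s) ^ 2 * κ)⁻¹ * (v j ^ 2 + γ) ^ 2) * t ^ 2 +
          ∑ j, ((y j + s) ^ 2 * κ)⁻¹ * (v j ^ 2 + γ) ^ 3) := by
      intro t
      simp only [Ph, h1, if_false, Finset.sum_mul, ← Finset.sum_add_distrib, ps_sum]
      refine Finset.prod_congr rfl fun j _ => ?_
      congr 1
      rw [CharTwo.add_sq, div_eq_inv_mul]
      linear_combination ((y j + s) ^ 2 * κ)⁻¹ *
        ((v j ^ 2 + γ) * (t ^ 2) ^ 2 + (v j ^ 2 + γ) ^ 2 * t ^ 2) * h3
    simp only [e]
    refine abs_le_of_sq_le_sq' ?_ (by positivity) |> abs_le.2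
    rw [mul_pow, Real.sq_sqrt (Nat.cast_nonneg _)]
    linarith
  · push Not at h1
    obtain ⟨j, hj⟩ := h1
    have e : ∀ t : K, Ph y v γ κ (s, t) = 0 := fun t =>
      Finset.prod_eq_zero (Finset.mem_univ j) (if_pos hj)
    simp only [e, Finset.sum_const_zero, abs_zero]
    positivity

theorem total_le [Nonempty J] {y : J → K} (hy : Function.Injective y) (v : J → K) (γ : K) {κ : K}
    (hκ : κ ≠ 0) : ((∑ x : K × K, Ph y v γ κ x) / (Fintype.card K : ℝ) ^ 2) ^ 2 ≤
      ((Fintype.card J : ℝ) + 2) ^ 2 / Fintype.card K := by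
  have hN : (1 : ℝ) ≤ Fintype.card K := by exact_mod_cast Fintype.card_pos
  have hs : 1 ≤ √(Fintype.card K : ℝ) := Real.one_le_sqrt.2 hN
  have hq : √(Fintype.card K : ℝ) ^ 2 = Fintype.card K := Real.sq_sqrt (Nat.cast_nonneg _)
  have h1 : |∑ x : K × K, Ph y v γ κ x| ≤
      Fintype.card J * Fintype.card K + Fintype.card K * (2 * √(Fintype.card K)) := by
    rw [Fintype.sum_prod_type]
    refine (Finset.abs_sum_le_sum_abs _ _).trans ?_
    calc _ ≤ ∑ s : K, ((if (∀ j, y j + s ≠ 0) ∧ ∑ j, (y j + s)⁻¹ = 0 then (Fintype.card K : ℝ)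
          else 0) + 2 * √(Fintype.card K)) := by
          refine Finset.sum_le_sum fun s _ => ?_
          split_ifs with h
          · refine le_add_of_le_of_nonneg ((Finset.abs_sum_le_sum_abs _ _).trans ?_)
              (by positivity)
            simpa using Finset.sum_le_card_nsmul Finset.univ _ 1 fun (t : K) _ =>
              abs_Ph y v γ κ (s, t)
          · rw [zero_add]
            exact inner_le y v γ hκ s h
      _ ≤ _ := by
          rw [Finset.sum_add_distrib, ← Finset.sum_filter, Finset.sum_const, Finset.sum_const,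
            nsmul_eq_mul, nsmul_eq_mul, Finset.card_univ]
          gcongr
          exact card_bad hy
  generalize √(Fintype.card K : ℝ) = s at *
  rw [← hq] at h1 ⊢
  rw [← div_pow]
  refine sq_le_sq' (neg_le.1 ?_) ?_
  · rw [← neg_div, div_le_div_iff₀ (by positivity) (by positivity)]
    have h2 := neg_le_abs (∑ x : K × K, Ph y v γ κ x)
    have h3 : (Fintype.card J : ℝ) * s ^ 3 * 1 ≤ Fintype.card J * s ^ 3 * s := by gcongr
    nlinarith [mul_le_mul_of_nonneg_right (h2.trans h1) (zero_le_one.trans hs)]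
  · rw [div_le_div_iff₀ (by positivity) (by positivity)]
    have h2 := le_abs_self (∑ x : K × K, Ph y v γ κ x)
    have h3 : (Fintype.card J : ℝ) * s ^ 3 * 1 ≤ Fintype.card J * s ^ 3 * s := by gcongr
    nlinarith [mul_le_mul_of_nonneg_right (h2.trans h1) (zero_le_one.trans hs)]

end Fld

variable {k : Type} [Field k] [Fintype k] [CharP k 2]
  {K : Type} [Field K] [Fintype K] [CharP K 2] {p : k[X]} {f : k[X] →+* K}

omit [Fintype k] [CharP k 2] [Fintype K] in
theorem chi_eq (hf : Function.Surjective f) (h0 : ∀ x, f x = 0 ↔ p ∣ x) {b : k[X]}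
    (hb : ¬ p ∣ derivative b) (a : k[X]) :
    chi p b a = if f a = 0 then 0 else
      ps ((f (derivative a) ^ 2 + f (X * derivative b ^ 2)) ^ 3 /
        (f a ^ 2 * f (derivative b) ^ 4)) := by
  unfold chi
  by_cases ha : p ∣ a
  · rw [if_pos ha, if_pos ((h0 a).2 ha)]
  · have h1 : f a ≠ 0 := fun h => ha ((h0 a).1 h)
    have h2 : f a ^ 2 * f (derivative b) ^ 4 ≠ 0 :=
      mul_ne_zero (pow_ne_zero _ h1) (pow_ne_zero _ fun h => hb ((h0 _).1 h))
    rw [if_neg ha, if_neg h1, sgR, ps]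
    refine if_congr ?_ rfl rfl
    rw [hf.exists]
    refine exists_congr fun z => ?_
    rw [← h0, eq_div_iff h2, map_add, CharTwo.add_eq_zero, mul_comm]
    simp only [map_mul, map_pow, map_add]

omit [CharP k 2] [CharP K 2] in
theorem avg_eq (hp : IsP p) (h0 : ∀ x, f x = 0 ↔ p ∣ x) (hN : (Fintype.card K : ℝ) = Nm p)
    (Φ : K × K → ℝ) :
    avg (2 * p.natDegree) (fun τ => Φ (f τ, f (derivative τ))) =
      (∑ x, Φ x) / (Fintype.card K : ℝ) ^ 2 := by
  have hq : qR k ^ (2 * p.natDegree) = (Fintype.card K : ℝ) ^ 2 := by rw [hN, Nm, ← pow_mul']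
  have hi : Set.InjOn (fun τ : k[X] => (f τ, f (derivative τ))) (Pn k (2 * p.natDegree)) := by
    intro τ hτ τ' hτ' h
    obtain ⟨h1, h2⟩ := Prod.mk.inj h
    rw [← sub_eq_zero, ← map_sub, h0] at h1 h2
    rw [← derivative_sub] at h2
    obtain ⟨s, hs⟩ := h1
    rw [hs, derivative_mul, dvd_add_left (dvd_mul_right _ _)] at h2
    have h3 : p ∣ s := (isCoprime_derivative hp.2.squarefree).dvd_of_dvd_mul_left h2
    have h4 : p ^ 2 ∣ τ - τ' := by
      rw [hs, sq]
      exact mul_dvd_mul_left _ h3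
    refine sub_eq_zero.1 (eq_zero_of_dvd_of_degree_lt h4 ?_)
    rw [degree_eq_natDegree (pow_ne_zero _ hp.1.ne_zero), natDegree_pow]
    exact (degree_sub_le _ _).trans_lt (max_lt (mem_Pn.1 hτ) (mem_Pn.1 hτ'))
  have hu : (Pn k (2 * p.natDegree)).image (fun τ : k[X] => (f τ, f (derivative τ))) =
      Finset.univ := by
    refine Finset.eq_univ_of_card _ ?_
    rw [Finset.card_image_of_injOn hi, Fintype.card_prod]
    have := card_Pn (k := k) (2 * p.natDegree)
    rw [hq, sq] at this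
    exact_mod_cast this
  rw [avg, hq, ← hu, Finset.sum_image hi]

end B0

theorem stB0 : StB0 := by
  intro k _ _ _ p b w J _ _ a L hp hb hw ha hL
  have : Fact (Irreducible p) := ⟨hp.2⟩
  have : Module.Finite k (AdjoinRoot p) := (AdjoinRoot.powerBasis hp.1.ne_zero).finite
  have : Finite (AdjoinRoot p) := Module.finite_of_finite k
  let _ : Fintype (AdjoinRoot p) := Fintype.ofFinite _
  have : CharP (AdjoinRoot p) 2 :=
    charP_of_injective_algebraMap (algebraMap k (AdjoinRoot p)).injective 2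
  have hN : (Fintype.card (AdjoinRoot p) : ℝ) = Nm p := by
    rw [Module.card_eq_pow_finrank (K := k), (AdjoinRoot.powerBasis hp.1.ne_zero).finrank,
      AdjoinRoot.powerBasis_dim, Nat.cast_pow]
    rfl
  have h0 : ∀ x, AdjoinRoot.mk p x = 0 ↔ p ∣ x := fun x => AdjoinRoot.mk_eq_zero
  have h1 := avg_affine (F := fun τ => ∏ j, chi p b (a j + τ)) (n := L) (M := p ^ 2) (β := w)
    (pow_ne_zero _ hp.1.ne_zero) (by rwa [natDegree_pow])
    (fun v t => by simp only [← add_assoc, chi_periodic])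
    (hp.isCoprime_iff.2 hw).pow_right 0
  simp only [zero_add, natDegree_pow] at h1
  have hy : Function.Injective fun j => AdjoinRoot.mk p (a j) := fun i j h => by
    by_contra hne
    exact ha i j hne (AdjoinRoot.mk_eq_mk.1 h)
  have h2 := B0.total_le hy (fun j => AdjoinRoot.mk p (derivative (a j)))
    (AdjoinRoot.mk p (X * derivative b ^ 2)) (κ := AdjoinRoot.mk p (derivative b) ^ 4)
    (pow_ne_zero _ fun h => hb ((h0 _).1 h))
  rw [← B0.avg_eq hp h0 hN, hN] at h2
  rw [h1]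
  convert h2 using 4 with τ
  refine Finset.prod_congr rfl fun j _ => ?_
  rw [B0.chi_eq AdjoinRoot.mk_surjective h0 hb, derivative_add, map_add, map_add]

end Pool.Agent.Lib.MP_9227d9_nt.Mob
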