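import Pool.Agent.Lib.MP_9227d9_nt.MobOd

/-!
Four counting statements: S, SQ, EX, DN.
-/

namespace Pool.Agent.Lib.MP_9227d9_nt.Mob

open Polynomial

open scoped Classical

namespace S

theorem sum_fiber {α β : Type} [DecidableEq β] (A : Finset α) (B : Finset β) (f : α → β)
    (hf : ∀ a ∈ A, f a ∈ B) (Φ : β → ℝ) :
    ∑ a ∈ A, Φ (f a) = ∑ b ∈ B, ((A.filter fun a => f a = b).card : ℝ) * Φ b := by
  rw [← Finset.sum_fiberwise_of_maps_to hf]
  refine Finset.sum_congr rfl fun b _ => ?_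
  rw [Finset.sum_congr rfl (g := fun _ => Φ b) fun a ha => by rw [(Finset.mem_filter.1 ha).2],
    Finset.sum_const, nsmul_eq_mul]

variable {k : Type} [Field k] [Fintype k]

theorem card_le_of_param {α : Type} (T : Finset α) (e : ℕ) (π : α → k[X])
    (hπ : Set.InjOn π T) (g : k[X] → k[X])
    (hg : ∀ a ∈ T, ∃ s : k[X], s.degree < e ∧ π a = g s) : (T.card : ℝ) ≤ qR k ^ e := by
  rw [← card_Pn e, ← Finset.card_image_of_injOn hπ]
  have h1 : T.image π ⊆ (Pn k e).image g := by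
    intro x hx
    obtain ⟨a, ha, rfl⟩ := Finset.mem_image.1 hx
    obtain ⟨s, hs, h⟩ := hg a ha
    exact Finset.mem_image.2 ⟨s, mem_Pn.2 hs, h.symm⟩
  exact_mod_cast (Finset.card_le_card h1).trans Finset.card_image_le

omit [Fintype k] in
theorem degree_lt_of_mul {a w : k[X]} {n e : ℕ} (ha : a ≠ 0) (h : (a * w).degree < n)
    (he : n ≤ a.natDegree + e) : w.degree < e := by
  by_cases hw : w = 0
  · rw [hw, degree_zero]
    exact WithBot.bot_lt_coe _
  · rw [degree_eq_natDegree (mul_ne_zero ha hw), natDegree_mul ha hw] at h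
    rw [degree_eq_natDegree hw]
    have h1 : a.natDegree + w.natDegree < n := by exact_mod_cast h
    have h2 : w.natDegree < e := by omega
    exact_mod_cast h2

theorem geom (y N : ℕ) :
    ∑ i ∈ Finset.range N, 1 / qR k ^ (y + 1 + i) ≤ 1 / qR k ^ y - 1 / qR k ^ (y + N) := by
  have hq : (2 : ℝ) ≤ qR k := two_le_qR
  have hq0 : (0 : ℝ) < qR k := qR_pos
  induction N with
  | zero => simp
  | succ N ih =>
    rw [Finset.sum_range_succ]
    have h1 : y + 1 + N = y + N + 1 := by ring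
    have h2 : y + (N + 1) = y + N + 1 := by ring
    rw [h1, h2, pow_succ]
    have h3 : (0 : ℝ) < qR k ^ (y + N) := pow_pos hq0 _
    have h4 : 2 * (1 / (qR k ^ (y + N) * qR k)) ≤ 1 / qR k ^ (y + N) := by
      rw [mul_one_div, div_le_div_iff₀ (by positivity) h3]
      nlinarith
    linarith

end S

theorem stS : StS := by
  intro k _ _ _ u m m' Φ hu hs hum hm
  have hu0 : u ≠ 0 := hu.ne_zero
  obtain ⟨e, he⟩ : ∃ e, m = m' + e := ⟨m - m', by omega⟩
  have hq0 : (0 : ℝ) < qR k := qR_pos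
  have hf : ∀ v ∈ Pn k m, od (v * u) ∈ Pn k m' := by
    intro v hv
    refine mem_Pn.2 (degree_od_lt ?_)
    rw [mul_comm]
    exact degree_mul_lt (mem_Pn.1 hv) (by omega)
  have hle : ∀ y ∈ Pn k m',
      (((Pn k m).filter fun v => od (v * u) = y).card : ℝ) ≤ qR k ^ e := by
    intro y _
    rcases ((Pn k m).filter fun v => od (v * u) = y).eq_empty_or_nonempty with h0 | ⟨v₀, hv₀⟩
    · rw [h0, Finset.card_empty, Nat.cast_zero]
      positivity
    refine S.card_le_of_param _ e id (Set.injOn_id _) (fun s => v₀ + u * s ^ 2) fun v hv => ?_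
    obtain ⟨hv1, hv2⟩ := Finset.mem_filter.1 hv
    obtain ⟨hv3, hv4⟩ := Finset.mem_filter.1 hv₀
    have h1 : od (u * (v - v₀)) = 0 := by
      rw [mul_sub, od_sub, mul_comm u v, mul_comm u v₀, hv2, hv4, sub_self]
    obtain ⟨w, hw⟩ := dvd_of_od_eq_zero hs h1
    have h2 : od w = 0 := by
      rw [hw, show u * (u * w) = w * u ^ 2 by ring, od_mul_sq] at h1
      exact (mul_eq_zero.1 h1).resolve_left hu0
    have h3 : w = ev w ^ 2 := by
      have := ev_od w
      rw [h2] at this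
      simpa using this
    have h4 : (u * w).degree < m := by
      rw [← hw]
      exact (degree_sub_le _ _).trans_lt (max_lt (mem_Pn.1 hv1) (mem_Pn.1 hv3))
    refine ⟨ev w, degree_ev_lt (S.degree_lt_of_mul hu0 h4 (by omega)), ?_⟩
    rw [← h3, ← hw, id]
    ring
  have hsum : ∑ y ∈ Pn k m', (((Pn k m).filter fun v => od (v * u) = y).card : ℝ) =
      ∑ _y ∈ Pn k m', qR k ^ e := by
    have h1 := S.sum_fiber (Pn k m) (Pn k m') (fun v => od (v * u)) hf fun _ => 1
    simp only [mul_one] at h1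
    rw [← h1, Finset.sum_const, Finset.sum_const, nsmul_eq_mul, nsmul_eq_mul, card_Pn, card_Pn,
      he, pow_add, mul_one]
  have heq := (Finset.sum_eq_sum_iff_of_le hle).1 hsum
  unfold avg
  rw [S.sum_fiber (Pn k m) (Pn k m') (fun v => od (v * u)) hf Φ,
    Finset.sum_congr rfl fun y hy => by rw [heq y hy], ← Finset.mul_sum, he, pow_add]
  field_simp

theorem stSQ : StSQ := by
  intro k _ _ n y
  have hq0 : (0 : ℝ) < qR k := qR_pos
  have h1 : avm n (fun u : k[X] =>
      (((Mo k n).filter fun g => y < g.natDegree ∧ g ^ 2 ∣ u).card : ℝ)) =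
      ∑ g ∈ (Mo k n).filter (fun g => y < g.natDegree),
        avm n fun u : k[X] => if g ^ 2 ∣ u then (1 : ℝ) else 0 := by
    rw [← avm_sum]
    refine avm_congr fun u _ => ?_
    rw [← Finset.filter_filter, Finset.card_filter]
    push_cast
    rfl
  have h2 : ∀ g ∈ (Mo k n).filter (fun g => y < g.natDegree),
      (avm n fun u : k[X] => if g ^ 2 ∣ u then (1 : ℝ) else 0) ≤
        1 / qR k ^ (2 * g.natDegree) := by
    intro g hg
    have hg1 : g.Monic := (mem_Mo.1 (Finset.mem_filter.1 hg).1).1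
    have hg2 : (g ^ 2).natDegree = 2 * g.natDegree := hg1.natDegree_pow 2
    by_cases hn : 2 * g.natDegree ≤ n
    · have h3 := avg_dvd (n := n) (M := g ^ 2) (β := 1) (pow_ne_zero 2 hg1.ne_zero)
        (by rw [hg2]; exact hn) isCoprime_one_left (X ^ n)
      simp only [one_mul] at h3
      unfold avm
      rw [h3, Nm, hg2]
    · refine avm_le_of_le fun u hu => ?_
      rw [if_neg]
      · positivity
      · intro hd
        have := natDegree_le_of_dvd hd hu.ne_zero
        rw [hg2, hu.2] at this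
        exact hn this
  rw [h1]
  refine (Finset.sum_le_sum h2).trans ?_
  have hf : ∀ g ∈ (Mo k n).filter (fun g => y < g.natDegree),
      g.natDegree - (y + 1) ∈ Finset.range (n - y) := by
    intro g hg
    obtain ⟨hg1, hg2⟩ := Finset.mem_filter.1 hg
    have := (mem_Mo.1 hg1).2
    rw [Finset.mem_range]
    omega
  have h3 : ∑ g ∈ (Mo k n).filter (fun g => y < g.natDegree), 1 / qR k ^ (2 * g.natDegree) =
      ∑ g ∈ (Mo k n).filter (fun g => y < g.natDegree),
        1 / qR k ^ (2 * (y + 1 + (g.natDegree - (y + 1)))) := by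
    refine Finset.sum_congr rfl fun g hg => ?_
    have := (Finset.mem_filter.1 hg).2
    rw [show y + 1 + (g.natDegree - (y + 1)) = g.natDegree by omega]
  rw [h3, S.sum_fiber _ _ (fun g : k[X] => g.natDegree - (y + 1)) hf
    fun i => 1 / qR k ^ (2 * (y + 1 + i))]
  have h4 : ∀ i ∈ Finset.range (n - y),
      ((((Mo k n).filter fun g => y < g.natDegree).filter
        fun g => g.natDegree - (y + 1) = i).card : ℝ) * (1 / qR k ^ (2 * (y + 1 + i))) =
        1 / qR k ^ (y + 1 + i) := by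
    intro i hi
    have hi' := Finset.mem_range.1 hi
    have h5 : (((Mo k n).filter fun g => y < g.natDegree).filter
        fun g => g.natDegree - (y + 1) = i) =
        (Mo k n).filter fun g => g.natDegree = y + 1 + i := by
      rw [Finset.filter_filter]
      refine Finset.filter_congr fun g _ => ?_
      omega
    rw [h5, card_MD n (y + 1 + i) (by omega), two_mul]
    generalize y + 1 + i = j
    rw [pow_add]
    field_simp
  rw [Finset.sum_congr rfl h4]
  refine (S.geom y (n - y)).trans ?_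
  have : (0 : ℝ) ≤ 1 / qR k ^ (y + (n - y)) := by positivity
  linarith

theorem stEX : StEX := by
  intro k _ _ M α β s len hM _ hs hβ
  have hq0 : (0 : ℝ) < qR k := qR_pos
  have h1 : avg len (fun t => if ∃ p ∈ pf M, s ≤ p.natDegree ∧ p ∣ α + β * t then (1 : ℝ) else 0) ≤
      avg len fun t => ∑ p ∈ (pf M).filter (fun p => s ≤ p.natDegree),
        if p ∣ α + β * t then (1 : ℝ) else 0 := by
    refine avg_mono fun t _ => ?_
    have h0 : ∀ p ∈ (pf M).filter (fun p => s ≤ p.natDegree),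
        (0 : ℝ) ≤ if p ∣ α + β * t then (1 : ℝ) else 0 := fun p _ => by
      split_ifs <;> norm_num
    split_ifs with h
    · obtain ⟨p, hp, hp1, hp2⟩ := h
      have := Finset.single_le_sum h0 (Finset.mem_filter.2 ⟨hp, hp1⟩)
      rwa [if_pos hp2] at this
    · exact Finset.sum_nonneg h0
  refine h1.trans ?_
  rw [avg_sum]
  have h2 : ∀ p ∈ (pf M).filter (fun p => s ≤ p.natDegree),
      (avg len fun t => if p ∣ α + β * t then (1 : ℝ) else 0) ≤ 1 / qR k ^ s := by
    intro p hp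
    obtain ⟨hp1, hp2⟩ := Finset.mem_filter.1 hp
    have hP := isP_of_mem_pf hp1
    exact avg_dvd_le hP.1.ne_zero hs hp2 (hP.isCoprime_iff.2 (hβ p hp1 hp2)) α
  refine (Finset.sum_le_sum h2).trans ?_
  rw [Finset.sum_const, nsmul_eq_mul, mul_one_div]
  refine div_le_div_of_nonneg_right ?_ (by positivity)
  exact_mod_cast (Finset.card_filter_le _ _).trans (card_pf_le hM)

theorem stDN : StDN := by
  intro k _ _ _ c R G₀ Φ hR hRd hG hΦ
  have hq0 : (0 : ℝ) < qR k := qR_pos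
  have hq1 : (1 : ℝ) ≤ qR k := one_le_qR
  have e1 := c.d₁_eq
  have e2 := c.d₂_eq
  have e3 : c.m' = c.nu + c.L - 2 * c.τ := rfl
  have b1 := c.nu_ge
  have b2 := c.L_ge
  have b3 := c.D₁_deg
  have b4 := c.D₂_deg
  have hD₁ : c.D₁ ≠ 0 := c.D₁_monic.ne_zero
  have hD₂ : c.D₂ ≠ 0 := c.D₂_monic.ne_zero
  obtain ⟨f, hfdef⟩ : ∃ f : k[X] × k[X] → k[X], ∀ x, f x =
    c.D₁ * c.D₂ * (c.l₁ (X ^ c.nu + x.1) G₀ + R * x.2) + c.cu (X ^ c.nu + x.1) :=
    ⟨_, fun _ => rfl⟩
  obtain ⟨A, hA⟩ : ∃ A, A = Pn k c.nu ×ˢ Pn k c.m' := ⟨_, rfl⟩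
  obtain ⟨B, hB⟩ : ∃ B, B = (Mo k c.d₂).filter fun b => b.natDegree = c.d₂ := ⟨_, rfl⟩
  obtain ⟨e, he⟩ : ∃ e, e = c.nu - c.D₁.natDegree := ⟨_, rfl⟩
  have hf : ∀ x ∈ A, f x ∈ B := by
    intro x hx
    rw [hA] at hx
    rw [hB, hfdef]
    obtain ⟨hx1, hx2⟩ := Finset.mem_product.1 hx
    obtain ⟨-, -, -, h4⟩ := stDg k c (X ^ c.nu + x.1) G₀
    obtain ⟨-, h5, h6⟩ := h4 (MD_add (mem_Pn.1 hx1))
    have h7 := h5 _ ((h6 hG).1.add (v := R * x.2) (degree_mul_lt (mem_Pn.1 hx2) (by omega)))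
    exact Finset.mem_filter.2 ⟨mem_Mo.2 ⟨h7.1, h7.2.le⟩, h7.2⟩
  have hle : ∀ b ∈ B, ((A.filter fun x => f x = b).card : ℝ) ≤ qR k ^ e := by
    intro b _
    rcases (A.filter fun x => f x = b).eq_empty_or_nonempty with h0 | ⟨x₀, hx₀⟩
    · rw [h0, Finset.card_empty, Nat.cast_zero]
      positivity
    refine S.card_le_of_param _ e Prod.fst ?_ (fun w => x₀.1 + c.D₁ * w) fun x hx => ?_
    · intro x hx x' hx' hxx
      have h1 := (Finset.mem_filter.1 (Finset.mem_coe.1 hx)).2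
      have h2 := (Finset.mem_filter.1 (Finset.mem_coe.1 hx')).2
      have h3 : f x = f x' := h1.trans h2.symm
      rw [hfdef, hfdef, hxx] at h3
      have h4 := mul_left_cancel₀ (mul_ne_zero hD₁ hD₂) (add_right_cancel h3)
      exact Prod.ext hxx (mul_left_cancel₀ hR.ne_zero (add_left_cancel h4))
    · obtain ⟨hx1, hx2⟩ := Finset.mem_filter.1 hx
      obtain ⟨hx3, hx4⟩ := Finset.mem_filter.1 hx₀
      have h3 : f x = f x₀ := hx2.trans hx4.symm
      rw [hfdef, hfdef] at h3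
      rw [hA] at hx1 hx3
      have h4 : od (c.D₁ * (c.h * (x.1 - x₀.1))) =
          c.cu (X ^ c.nu + x.1) - c.cu (X ^ c.nu + x₀.1) := by
        unfold Ctx.cu
        rw [← od_sub]
        exact congrArg od (by ring)
      have h5 : c.D₁ ∣ od (c.D₁ * (c.h * (x.1 - x₀.1))) := by
        refine ⟨c.D₂ * ((c.l₁ (X ^ c.nu + x₀.1) G₀ + R * x₀.2) -
          (c.l₁ (X ^ c.nu + x.1) G₀ + R * x.2)), ?_⟩
        rw [h4]
        revert h3
        generalize c.l₁ (X ^ c.nu + x₀.1) G₀ = a₀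
        generalize c.l₁ (X ^ c.nu + x.1) G₀ = a₁
        generalize c.cu (X ^ c.nu + x₀.1) = d₀
        generalize c.cu (X ^ c.nu + x.1) = d₁
        intro h3
        linear_combination h3
      obtain ⟨w, hw⟩ := c.cop.dvd_of_dvd_mul_left (dvd_of_dvd_od c.D₁_sqf h5)
      have h6 : (c.D₁ * w).degree < c.nu := by
        rw [← hw]
        exact (degree_sub_le _ _).trans_lt (max_lt (mem_Pn.1 (Finset.mem_product.1 hx1).1)
          (mem_Pn.1 (Finset.mem_product.1 hx3).1))
      refine ⟨w, S.degree_lt_of_mul hD₁ h6 (by omega), ?_⟩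
      rw [← hw]
      ring
  have hS : 0 ≤ ∑ b ∈ B, Φ b := Finset.sum_nonneg fun b _ => hΦ b
  have h1 : avm c.nu (fun u => avg c.m' fun t =>
      Φ (c.D₁ * c.D₂ * (c.l₁ u G₀ + R * t) + c.cu u)) =
      (∑ x ∈ A, Φ (f x)) / qR k ^ (c.m' + c.nu) := by
    unfold avm avg
    simp only [hfdef]
    rw [hA, Finset.sum_product, ← Finset.sum_div, pow_add, div_div]
  have h2 : ∑ x ∈ A, Φ (f x) ≤ qR k ^ e * ∑ b ∈ B, Φ b := by
    rw [S.sum_fiber A B f hf Φ, Finset.mul_sum]
    exact Finset.sum_le_sum fun b hb => mul_le_mul_of_nonneg_right (hle b hb) (hΦ b)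
  have h3 : qR k ^ e * qR k ^ c.d₂ ≤ (qR k ^ c.τ) ^ 164 * qR k ^ (c.m' + c.nu) := by
    rw [← pow_mul, ← pow_add, ← pow_add]
    exact pow_le_pow_right₀ hq1 (by omega)
  rw [h1, avm_eq_sum, Ctx.Q, ← hB, ← mul_div_assoc,
    div_le_div_iff₀ (by positivity) (by positivity)]
  calc (∑ x ∈ A, Φ (f x)) * qR k ^ c.d₂ ≤ (qR k ^ e * ∑ b ∈ B, Φ b) * qR k ^ c.d₂ :=
        mul_le_mul_of_nonneg_right h2 (by positivity)
    _ = (qR k ^ e * qR k ^ c.d₂) * ∑ b ∈ B, Φ b := by ring
    _ ≤ ((qR k ^ c.τ) ^ 164 * qR k ^ (c.m' + c.nu)) * ∑ b ∈ B, Φ b :=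
        mul_le_mul_of_nonneg_right h3 hS
    _ = _ := by ring

end Pool.Agent.Lib.MP_9227d9_nt.Mob
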