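import Pool.Agent.Lib.MP_9227d9_nt.MobOd
import Pool.Agent.Lib.MP_a3f657_nt.C2LpPrime

/-!
The formula for the Moebius function of `a ^ 2 + X * b ^ 2`.
-/

namespace Pool.Agent.Lib.MP_9227d9_nt.Mob

open Polynomial

open scoped Classical

theorem stA2n : StA2n := by
  intro O _ ι _ v P Q f hf h1
  obtain ⟨g, hg⟩ : X ^ 4 ∣ f - (C (f.coeff 0) + C (f.coeff 1) * X + C (f.coeff 2) * X ^ 2
      + C (f.coeff 3) * X ^ 3) := by
    rw [X_pow_dvd_iff]
    intro d hd
    interval_cases d <;> simp [coeff_X, coeff_X_pow, coeff_C]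
  let w : QuadraticAlgebra O (-2 * Q) (-2 * P) := ⟨0, 1⟩
  have e1 : QuadraticAlgebra.norm (aeval w f) = ∏ i, (v i ^ 2 + 2 * P * v i + 2 * Q) := by
    rw [hf, map_prod, map_prod]
    refine Finset.prod_congr rfl fun i _ => ?_
    rw [map_sub, aeval_X, aeval_C, QuadraticAlgebra.norm_def]
    simp [w]
    ring
  have e2 : aeval w f = algebraMap O _ (f.coeff 0) + algebraMap O _ (f.coeff 1) * w
      + algebraMap O _ (f.coeff 2) * (w * w) + algebraMap O _ (f.coeff 3) * (w * w * w)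
      + w * w * w * w * aeval w g := by
    conv_lhs => rw [sub_eq_iff_eq_add'.1 hg]
    simp only [map_add, map_mul, map_pow, aeval_C, aeval_X]
    ring
  rw [← e1, e2, h1, QuadraticAlgebra.norm_def]
  generalize aeval w g = y
  generalize f.coeff 0 = f0
  generalize f.coeff 2 = f2
  generalize f.coeff 3 = f3
  obtain ⟨y0, y1⟩ := y
  simp only [w, QuadraticAlgebra.re_add, QuadraticAlgebra.im_add, QuadraticAlgebra.re_mul,
    QuadraticAlgebra.im_mul, QuadraticAlgebra.algebraMap_re, QuadraticAlgebra.algebraMap_im]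
  obtain ⟨u, hu⟩ : ∃ u, u = P * Q * f3 + (Q ^ 2 - 2 * P ^ 2 * Q) * y0
    - 2 * Q * (2 * P * Q - 2 * P ^ 3) * y1 := ⟨_, rfl⟩
  obtain ⟨t, ht⟩ : ∃ t, t = P ^ 2 * f3 + (2 * P * Q - 2 * P ^ 3) * y0
    + (Q ^ 2 - 2 * P ^ 2 * Q) * y1 - 2 * P * (2 * P * Q - 2 * P ^ 3) * y1 := ⟨_, rfl⟩
  refine ⟨-Q * f0 * f2 + u * (f0 - 2 * Q * f2) + 2 * u ^ 2 - P ^ 2 * Q * f2 ^ 2
    + 2 * P ^ 2 * f2 * u - P * t * (f0 - 2 * Q * f2 + 4 * u) + Q * (-P * f2 + 2 * t) ^ 2, ?_⟩
  rw [hu, ht]
  ring

namespace A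

open Pool.Agent.Lib.MP_a3f657_nt.Two

variable {k : Type} [Field k] [Fintype k] [CharP k 2]

omit [CharP k 2] in
/-- Enumeration of the roots of a squarefree polynomial, with the Frobenius permutation. -/
theorem exists_enum {G : k[X]} {n : ℕ} (hm : G.Monic) (hn : G.natDegree = n) (hs : Squarefree G) :
    ∃ (α : Fin n → AlgebraicClosure k) (s : Equiv.Perm (Fin n)), Function.Injective α ∧
      G.map (algebraMap k (AlgebraicClosure k)) = ∏ i, (X - C (α i)) ∧
      ∀ i, α (s i) = α i ^ Fintype.card k := by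
  have hsep : (G.map (algebraMap k (AlgebraicClosure k))).Separable :=
    (PerfectField.separable_iff_squarefree.2 hs).map
  have hnd := nodup_roots hsep
  have hsp := IsAlgClosed.splits (G.map (algebraMap k (AlgebraicClosure k)))
  have hc : (G.map (algebraMap k (AlgebraicClosure k))).roots.toFinset.card = n := by
    rw [Multiset.toFinset_card_of_nodup hnd, ← hsp.natDegree_eq_card_roots, natDegree_map, hn]
  let e := (Finset.equivFinOfCardEq hc).symm
  have hinj : Function.Injective fun i => (e i).1 := Subtype.val_injective.comp e.injective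
  have hmem : ∀ x, x ∈ (G.map (algebraMap k (AlgebraicClosure k))).roots.toFinset ↔
      aeval x G = 0 := fun x => by
    rw [Multiset.mem_toFinset, mem_roots (hm.map _).ne_zero, IsRoot, eval_map_algebraMap]
  have hex : ∀ i, ∃ j, (e j).1 = (e i).1 ^ Fintype.card k := fun i => by
    have h1 : aeval ((e i).1 ^ Fintype.card k) G = 0 := by
      have h2 := aeval_algHom_apply (FiniteField.frobeniusAlgHom k (AlgebraicClosure k)) (e i).1 G
      rw [(hmem _).1 (e i).2, map_zero] at h2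
      exact h2
    exact ⟨e.symm ⟨_, (hmem _).2 h1⟩, by rw [Equiv.apply_symm_apply]⟩
  choose σ hσ using hex
  have hσi : Function.Injective σ := fun i j hij => hinj (by
    have h1 := hσ i
    rw [hij, hσ j] at h1
    exact ((FiniteField.frobeniusAlgHom k (AlgebraicClosure k)).injective h1).symm)
  refine ⟨fun i => (e i).1, Equiv.ofBijective σ (Finite.injective_iff_bijective.1 hσi), hinj, ?_,
    hσ⟩
  rw [e.prod_comp fun x => X - C x.1, Finset.prod_coe_sort _ fun x => X - C x,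
    Finset.prod_eq_multiset_prod, Multiset.toFinset_val, hnd.dedup]
  exact hsp.eq_prod_roots_of_monic (hm.map _)

theorem coeff_sq {L : Type} [Field L] [CharP L 2] (g : L[X]) (n : ℕ) :
    (g ^ 2).coeff n = (if 2 ∣ n then g.coeff (n / 2) else 0) ^ 2 := by
  rw [← map_frobenius_expand, coeff_map, coeff_expand two_pos, frobenius_def]

theorem taylor_coeffs {L : Type} [Field L] [CharP L 2] (a b : L[X]) {β : L} (hb : b.eval β = 0) :
    (taylor β (a ^ 2 + X * b ^ 2)).coeff 0 = a.eval β ^ 2 ∧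
      (taylor β (a ^ 2 + X * b ^ 2)).coeff 2
        = (derivative a).eval β ^ 2 + β * (derivative b).eval β ^ 2 ∧
      (taylor β (a ^ 2 + X * b ^ 2)).coeff 3 = (derivative b).eval β ^ 2 := by
  have e : taylor β (a ^ 2 + X * b ^ 2)
      = taylor β a ^ 2 + (X * taylor β b ^ 2 + C β * taylor β b ^ 2) := by
    rw [map_add, taylor_mul, taylor_pow, taylor_pow, taylor_X, add_mul]
  rw [e]
  refine ⟨?_, ?_, ?_⟩
  · simp [coeff_sq, hb]
  · rw [coeff_add, coeff_add, coeff_X_mul, coeff_C_mul, coeff_sq, coeff_sq, coeff_sq]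
    simp
  · rw [coeff_add, coeff_add, coeff_X_mul, coeff_C_mul, coeff_sq, coeff_sq, coeff_sq]
    simp

theorem sg_prod {M : k[X]} (N : k[X]) (T : Finset k[X]) (h : ∀ p ∈ T, GoodP M p) :
    sg 1 (Lp.Sk M N (∏ p ∈ T, p)) = ∏ p ∈ T, sgP p M N := by
  induction T using Finset.induction_on with
  | empty =>
    rw [Finset.prod_empty, Finset.prod_empty, Lp.Sk, Polynomial.map_one, Lp.SS, roots_one,
      Multiset.empty_eq_zero, Multiset.map_zero, Multiset.sum_zero, sg, if_pos]
    exact ⟨0, (Rh.mem_fixF one_pos).2 (zero_pow (by simp)), by simp⟩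
  | insert p T hp ih =>
    have h1 := h p (Finset.mem_insert_self _ _)
    have h2 : ∀ r ∈ T, GoodP M r := fun r hr => h r (Finset.mem_insert_of_mem hr)
    rw [Finset.prod_insert hp, Finset.prod_insert hp,
      Lp.Sk_mul M N h1.1 (monic_prod_of_monic _ _ fun r hr => (h2 r hr).1),
      Lp.sg_add one_pos (Lp.Sk_mem ..) (Lp.Sk_mem ..), ih h2, Lp.sg_Sk N h1]

omit [Fintype k] [CharP k 2] in
theorem sgR_cast (p M N : k[X]) : ((sgR p M N : ℝ) : ℂ) = sgP p M N := by
  unfold sgR sgP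
  split_ifs <;> simp

end A

open Pool.Agent.Lib.MP_a3f657_nt.Two in
theorem stA (h1 : StA1) (h2 : StA2) : StA := by
  intro k _ _ _ S hS
  have hbm := monic_prod hS
  have hbs := squarefree_prod hS
  have hmem : ∀ {p : k[X]}, IsP p → (p ∣ ∏ p ∈ S, p ↔ p ∈ S) := fun hp => dvd_prod_iff_mem hS hp
  have hsg := fun (M N : k[X]) => A.sg_prod (M := M) N S
  generalize ∏ p ∈ S, p = b at *
  obtain ⟨ε, hε⟩ := h2 b.natDegree
  refine ⟨if ∃ z ∈ fixF k 1, z ^ 2 + z = (ε : AlgebraicClosure k) then -1 else 1,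
    by split_ifs <;> simp, fun a ha => ?_⟩
  by_cases hpa : ∃ p ∈ S, p ∣ a
  · obtain ⟨p, hp, hpa⟩ := hpa
    rw [Finset.prod_eq_zero hp (by rw [chi, if_pos hpa]), mul_zero]
    by_contra h0
    have h3 := mu_ne_zero_iff.1 h0 p (by
      rw [← pow_two]
      exact (pow_dvd_pow_of_dvd hpa 2).add
        ((pow_dvd_pow_of_dvd ((hmem (hS p hp)).2 hp) 2).mul_left _))
    exact (hS p hp).2.not_isUnit h3
  push Not at hpa
  have hXb : (X * b ^ 2).natDegree = 2 * b.natDegree + 1 := by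
    rw [monic_X.natDegree_mul (hbm.pow 2), natDegree_X, natDegree_pow, add_comm]
  have hlt : (a ^ 2).natDegree < (X * b ^ 2).natDegree := by
    rw [hXb, natDegree_pow]
    omega
  have hFm : (a ^ 2 + X * b ^ 2).Monic :=
    (monic_X.mul (hbm.pow 2)).add_of_right (degree_lt_degree hlt)
  have hFd : (a ^ 2 + X * b ^ 2).natDegree = 2 * b.natDegree + 1 := by
    rw [natDegree_add_eq_right_of_natDegree_lt hlt, hXb]
  have hFs : Squarefree (a ^ 2 + X * b ^ 2) := by
    by_contra h0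
    obtain ⟨p, hp, hd⟩ := exists_isP_of_not_squarefree hFm.ne_zero h0
    have h3 := dvd_od_of_sq_dvd hd
    have h4 := dvd_ev_of_sq_dvd hd
    rw [od_eq] at h3
    rw [ev_eq] at h4
    exact hpa p ((hmem hp).1 h3) h4
  obtain ⟨α, s, hα, hαF, hαs⟩ := A.exists_enum hFm hFd hFs
  obtain ⟨β, t, hβ, hβb, hβt⟩ := A.exists_enum hbm rfl hbs
  have hder : derivative ((a ^ 2 + X * b ^ 2).map (algebraMap k (AlgebraicClosure k)))
      = (∏ j, (X - C (β j))) ^ 2 := by
    rw [← hβb, derivative_map, ← od_pow_two, od_eq, Polynomial.map_pow]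
  obtain ⟨z, hz1, hz2⟩ := hε (AlgebraicClosure k)
    (FiniteField.frobeniusAlgHom k (AlgebraicClosure k)).toRingHom α β s t _ hα hβ
    (fun i => (hαs i).symm) (fun j => (hβt j).symm) hαF hder
  have hsum : ∑ j, (taylor (β j) ((a ^ 2 + X * b ^ 2).map
        (algebraMap k (AlgebraicClosure k)))).coeff 2 ^ 3 /
      ((taylor (β j) ((a ^ 2 + X * b ^ 2).map (algebraMap k (AlgebraicClosure k)))).coeff 0 *
        (taylor (β j) ((a ^ 2 + X * b ^ 2).map (algebraMap k (AlgebraicClosure k)))).coeff 3 ^ 2)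
      = Lp.Sk (a ^ 2 * derivative b ^ 4) ((derivative a ^ 2 + X * derivative b ^ 2) ^ 3) b := by
    rw [Lp.Sk, Lp.SS]
    conv_rhs => rw [hβb, Finset.prod_eq_multiset_prod, ← Function.comp_def (fun c => X - C c) β,
      ← Multiset.map_map, roots_multiset_prod_X_sub_C, Multiset.map_map,
      ← Finset.sum_eq_multiset_sum]
    refine Finset.sum_congr rfl fun j _ => ?_
    have h0 : (b.map (algebraMap k (AlgebraicClosure k))).eval (β j) = 0 := by
      rw [hβb, eval_prod]
      exact Finset.prod_eq_zero (Finset.mem_univ j) (by simp)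
    obtain ⟨c0, c2, c3⟩ := A.taylor_coeffs (a.map (algebraMap k (AlgebraicClosure k))) _ h0
    simp only [Polynomial.map_add, Polynomial.map_mul, Polynomial.map_pow, map_X, c0, c2, c3,
      Function.comp_apply, derivative_map, eval_add, eval_mul, eval_pow, eval_X]
    ring
  rw [hsum] at hz1
  have hgood : ∀ p ∈ S, GoodP (a ^ 2 * derivative b ^ 4) p := fun p hp => by
    refine ⟨(hS p hp).1, (hS p hp).2, fun hd => ?_⟩
    rcases (hS p hp).prime.dvd_or_dvd hd with h3 | h3
    · exact hpa p hp ((hS p hp).prime.dvd_of_dvd_pow h3)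
    · exact (hS p hp).2.not_isUnit ((isCoprime_derivative hbs).isUnit_of_dvd'
        ((hmem (hS p hp)).2 hp) ((hS p hp).prime.dvd_of_dvd_pow h3))
  have hεm : (ε : AlgebraicClosure k) ∈ fixF k 1 := by
    rw [Rh.mem_fixF one_pos, ← Rh.frob_pow_apply, map_natCast]
  have h3 := Rh.sg_eq (k := k) one_pos (a := if Equiv.Perm.sign s = 1 then 0 else 1) hz1 (by
    rw [pow_one]
    refine hz2.trans ?_
    split_ifs
    · rw [Rh.cz_zero]
    · rw [Rh.cz_one])
  rw [Lp.sg_add one_pos hεm (Lp.Sk_mem ..), hsg _ _ hgood] at h3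
  rw [h1 k _ _ α s hFs hαF hαs, Finset.prod_congr rfl fun p hp => by rw [chi, if_neg (hpa p hp)]]
  apply Complex.ofReal_injective
  push_cast
  simp only [A.sgR_cast]
  have h4 : (((Equiv.Perm.sign s : ℤˣ) : ℤ) : ℂ)
      = Rh.sgn (if Equiv.Perm.sign s = 1 then 0 else 1) := by
    rcases Int.units_eq_one_or (Equiv.Perm.sign s) with h | h <;> simp [h, Rh.sgn]
  rw [h4, ← h3, sg, pow_succ, pow_mul]
  split_ifs <;> simp

end Pool.Agent.Lib.MP_9227d9_nt.Mob
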