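import Pool.Agent.Lib.MP_9227d9_nt.MobOd

namespace Pool.Agent.Lib.MP_9227d9_nt.Mob

open Polynomial

open scoped Classical

namespace A1

open UniqueFactorizationMonoid Equiv IntermediateField

variable {k : Type} [Field k] [Fintype k]

theorem exists_pow {p : k[X]} (hp : Irreducible p) {x y : AlgebraicClosure k}
    (hx : aeval x p = 0) (hy : aeval y p = 0) : ∃ n : ℕ, y = x ^ Fintype.card k ^ n := by
  have : FiniteDimensional k k⟮x, y⟯ :=
    finiteDimensional_adjoin_pair (Algebra.IsIntegral.isIntegral x) (Algebra.IsIntegral.isIntegral y)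
  have : Finite k⟮x, y⟯ := Module.finite_of_finite k
  have h0 : ∀ z : k⟮x, y⟯, aeval (z : AlgebraicClosure k) p = 0 → aeval z p = 0 := fun z hz =>
    Subtype.ext ((aeval_algHom_apply k⟮x, y⟯.val z p).symm.trans hz)
  have h : IsConjRoot k (AdjoinPair.gen₂ k x y) (AdjoinPair.gen₁ k x y) :=
    (minpoly.eq_of_irreducible hp (h0 _ hy)).symm.trans (minpoly.eq_of_irreducible hp (h0 _ hx))
  obtain ⟨σ, hσ⟩ := h.exists_algEquiv
  obtain ⟨n, rfl⟩ := (FiniteField.bijective_frobeniusAlgEquivOfAlgebraic_pow k _).2 σ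
  rw [AlgEquiv.coe_pow, FiniteField.coe_frobeniusAlgEquivOfAlgebraic_iterate] at hσ
  exact ⟨n, (congrArg Subtype.val hσ).symm⟩

theorem sign_trans {ι : Type} [Fintype ι] [DecidableEq ι] [Nonempty ι] (s : Perm ι)
    (h : ∀ i j, s.SameCycle i j) : Perm.sign s = -(-1) ^ Fintype.card ι := by
  rcases subsingleton_or_nontrivial ι with h1 | h1
  · rw [Subsingleton.elim s 1, Fintype.card_eq_one_iff_nonempty_unique.2
      ⟨uniqueOfSubsingleton (Classical.arbitrary ι)⟩]
    simp
  · have h2 : ∀ i, s i ≠ i := fun i hi => by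
      obtain ⟨j, hj⟩ := exists_ne i
      exact hj ((h i j).eq_of_left hi).symm
    have h3 : s.IsCycle := ⟨Classical.arbitrary ι, h2 _, fun j _ => h _ j⟩
    rw [h3.sign, Finset.eq_univ_iff_forall.2 fun i => Perm.mem_support.2 (h2 i), Finset.card_univ]

theorem sign_irr {p : k[X]} (hp : Irreducible p) {ι : Type} [Fintype ι] [DecidableEq ι]
    (α : ι → AlgebraicClosure k) (s : Perm ι) (hα : Function.Injective α)
    (hr : ∀ x, aeval x p = 0 ↔ ∃ i, α i = x) (hs : ∀ i, α (s i) = α i ^ Fintype.card k) :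
    Perm.sign s = -(-1) ^ Fintype.card ι := by
  obtain ⟨x, hx⟩ := IsAlgClosed.exists_aeval_eq_zero (AlgebraicClosure k) p
    (degree_pos_of_irreducible hp).ne'
  have : Nonempty ι := ⟨((hr x).1 hx).choose⟩
  have h : ∀ (n : ℕ) i, α ((s ^ n) i) = α i ^ Fintype.card k ^ n := fun n i => by
    induction n with
    | zero => simp
    | succ n ih => rw [pow_succ', Perm.mul_apply, hs, ih, ← pow_mul, pow_succ]
  refine sign_trans s fun i j => ?_
  obtain ⟨n, hn⟩ := exists_pow hp ((hr _).2 ⟨i, rfl⟩) ((hr _).2 ⟨j, rfl⟩)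
  exact ⟨n, hα (by rw [zpow_natCast, h, hn])⟩

theorem main (F : k[X]) : ∀ (ι : Type) [Fintype ι] [DecidableEq ι]
    (α : ι → AlgebraicClosure k) (s : Perm ι), Squarefree F → Function.Injective α → (∀ x, aeval x F = 0 ↔ ∃ i, α i = x) →
    (∀ i, α (s i) = α i ^ Fintype.card k) →
    moebius F = (-1) ^ Fintype.card ι * (Perm.sign s : ℤ) := by
  refine induction_on_prime F ?_ ?_ ?_
  · exact fun _ _ _ _ _ h => (not_squarefree_zero h).elim
  · intro u hu ι _ _ α s _ _ hr _
    have : IsEmpty ι := ⟨fun i => (hu.map (aeval (α i))).ne_zero ((hr _).2 ⟨i, rfl⟩)⟩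
    rw [hu.moebius_eq, Subsingleton.elim s 1]
    simp
  · intro a p _ hp ih ι _ _ α s hF hα hr hs
    obtain ⟨h1, -, h2⟩ := squarefree_mul_iff.1 hF
    have hQ : ∀ i, aeval (α (s i)) p = 0 ↔ aeval (α i) p = 0 := fun i => by
      rw [hs]
      exact (aeval_algHom_apply (FiniteField.frobeniusAlgHom k _) (α i) p ▸
        map_eq_zero (FiniteField.frobeniusAlgHom k (AlgebraicClosure k)) :)
    have hr' : ∀ i, aeval (α i) p = 0 ∨ aeval (α i) a = 0 := fun i => by
      simpa using (hr _).2 ⟨i, rfl⟩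
    have e1 := sign_irr hp.irreducible (ι := {i // aeval (α i) p = 0}) (fun i => α i)
      (s.subtypePerm hQ) (hα.comp Subtype.val_injective) (fun x => ⟨fun hx => by
        obtain ⟨i, rfl⟩ := (hr x).1 (by rw [map_mul, hx, zero_mul])
        exact ⟨⟨i, hx⟩, rfl⟩, fun ⟨i, hi⟩ => hi ▸ i.2⟩) fun i => hs i
    have e2 := ih {i // ¬aeval (α i) p = 0} (fun i => α i)
      (s.subtypePerm fun i => (hQ i).not) h2 (hα.comp Subtype.val_injective) (fun x => ⟨fun hx => by
        obtain ⟨i, rfl⟩ := (hr x).1 (by rw [map_mul, hx, mul_zero])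
        exact ⟨⟨i, (aeval_ne_zero_of_isCoprime h1.isCoprime _).resolve_right (· hx)⟩, rfl⟩,
        fun ⟨i, hi⟩ => hi ▸ (hr' i).resolve_left i.2⟩) fun i => hs i
    have e3 : s = (s.subtypePerm hQ).subtypeCongr
        (s.subtypePerm (p := fun i => ¬aeval (α i) p = 0) fun i => (hQ i).not) := by
      ext i
      by_cases h : aeval (α i) p = 0 <;> simp [h]
    have e4 := Fintype.card_congr (Equiv.sumCompl fun i => aeval (α i) p = 0)
    rw [h1.moebius_mul, hp.irreducible.moebius_eq, e2, ← e4, Fintype.card_sum, pow_add]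
    conv_rhs => rw [e3, Perm.sign_subtypeCongr, e1]
    rcases neg_one_pow_eq_or ℤ (Fintype.card {i // aeval (α i) p = 0}) with h | h <;> simp [h]

end A1

theorem stA1 : StA1 := by
  intro k _ _ _ F n α s hF h hs
  have h1 := (PerfectField.separable_iff_squarefree.2 hF).map
    (f := algebraMap k (AlgebraicClosure k))
  rw [h, separable_prod_X_sub_C_iff] at h1
  have h2 := A1.main F (Fin n) α s hF h1 (fun x => by
    rw [← eval_map_algebraMap, h, eval_prod, Finset.prod_eq_zero_iff]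
    simp [sub_eq_zero, eq_comm]) hs
  rw [mu, h2, Fintype.card_fin]
  push_cast
  rfl

end Pool.Agent.Lib.MP_9227d9_nt.Mob
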