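import Pool.Agent.Lib.MP_9227d9_nt.TwAll

/-! Prime pairs with an arbitrary finite set of excluded further shifts. -/

namespace Pool.Agent.Lib.MP_9227d9_nt.Mob

open Polynomial Filter

open scoped Classical

theorem twOne (k : Type) [Field k] [Fintype k] [CharP k 2] (h : k[X]) (hh : h ≠ 0) : ∃ S : ℝ,
    HasProd (fun p : {p : k[X] // p.Monic ∧ Irreducible p} =>
      (1 - (if p.1 ∣ h then 1 else 2) / (Fintype.card k : ℝ) ^ p.1.natDegree) /
        (1 - 1 / (Fintype.card k : ℝ) ^ p.1.natDegree) ^ 2) S ∧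
    ((Fintype.card k = 2 → X * (X + 1) ∣ h) → 0 < S) ∧
    ∀ G : Finset k[X], Filter.Tendsto (fun n : ℕ => (n : ℝ) ^ 2 *
      (Set.ncard {P : k[X] | P.Monic ∧ P.natDegree = n ∧ Irreducible P ∧ Irreducible (P + h) ∧
        ∀ g ∈ G, Irreducible (P + g) → g = 0 ∨ g = h} : ℝ) /
        (Fintype.card k : ℝ) ^ n) Filter.atTop (nhds S) := by
  have h3 : StTri := stTri twSel (stMM stSeq (stSm1 stPar1))
  obtain ⟨S, h1, h2, h4⟩ := twMain k h hh
  refine ⟨S, h1, fun hx => (h4 hx).1, fun G => ?_⟩
  set c : k[X] → Prop := fun P => Irreducible P ∧ Irreducible (P + h) ∧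
    ∀ g ∈ G, Irreducible (P + g) → g = 0 ∨ g = h with hc
  set J := (G.erase 0).erase h with hJ
  have h5 : Tendsto (fun n : ℕ => ∑ g ∈ J, (n : ℝ) ^ 2 * avm n fun F : k[X] =>
      if Irreducible F ∧ Irreducible (F + h) ∧ Irreducible (F + g) then 1 else 0) atTop
      (nhds 0) := by
    have := tendsto_finsetSum J fun g hg => h3 k h g hh
      (Finset.ne_of_mem_erase (Finset.mem_of_mem_erase hg)) (Finset.ne_of_mem_erase hg).symm
    simpa using this
  have h6 : Tendsto (fun n : ℕ => (n : ℝ) ^ 2 * avm n fun F : k[X] =>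
      if Irreducible F ∧ Irreducible (F + h) then 1 else 0) atTop (nhds S) := by
    refine h2.congr fun n => ?_
    rw [TwTri.avm_ind (fun F => Irreducible F ∧ Irreducible (F + h)), mul_div_assoc]
  have h7 : Tendsto (fun n : ℕ => (n : ℝ) ^ 2 * avm n fun F : k[X] => if c F then 1 else 0)
      atTop (nhds S) := by
    have h8 := h6.sub h5
    rw [sub_zero] at h8
    refine tendsto_of_tendsto_of_tendsto_of_le_of_le h8 h6 (fun n => ?_) fun n => ?_
    · beta_reduce
      rw [← Finset.mul_sum, ← mul_sub, ← avm_sum, ← avm_sub]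
      refine mul_le_mul_of_nonneg_left (avm_mono fun F _ => ?_) (by positivity)
      have h9 : ∀ g ∈ J, (0 : ℝ) ≤
          if Irreducible F ∧ Irreducible (F + h) ∧ Irreducible (F + g) then 1 else 0 :=
        fun g _ => by split_ifs <;> norm_num
      have h10 := Finset.sum_nonneg h9
      split_ifs with c1 c2
      · linarith
      · simp only [hc, not_and, not_forall, not_or] at c2
        obtain ⟨g, g1, g2, g3, g4⟩ := c2 c1.1 c1.2
        have g5 : g ∈ J := Finset.mem_erase.2 ⟨g4, Finset.mem_erase.2 ⟨g3, g1⟩⟩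
        have := Finset.single_le_sum h9 g5
        rw [if_pos ⟨c1.1, c1.2, g2⟩] at this
        linarith
      · linarith
      · linarith
    · refine mul_le_mul_of_nonneg_left (avm_mono fun F _ => ?_) (by positivity)
      split_ifs with c1 c2
      · exact le_rfl
      · exact absurd ⟨c1.1, c1.2.1⟩ c2
      · exact zero_le_one
      · exact le_rfl
  exact h7.congr fun n => by rw [TwTri.avm_ind c, mul_div_assoc]

end Pool.Agent.Lib.MP_9227d9_nt.Mob
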