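import Pool.Agent.Lib.MP_9227d9_nt.MobOd

/-!
The weights agree with their models on progressions.
-/

namespace Pool.Agent.Lib.MP_9227d9_nt.Mob

open Polynomial

open scoped Classical

namespace PT

variable {k : Type} [Field k] [Fintype k]

theorem one_sub_sum_le {ι : Type} (s : Finset ι) (x : ι → ℝ) (h0 : ∀ i ∈ s, 0 ≤ x i)
    (h1 : ∀ i ∈ s, x i ≤ 1) : 1 - ∑ i ∈ s, x i ≤ ∏ i ∈ s, (1 - x i) := by
  induction s using Finset.induction_on with
  | empty => simp
  | insert a s ha ih =>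
    rw [Finset.sum_insert ha, Finset.prod_insert ha]
    have h2 := ih (fun i hi => h0 i (Finset.mem_insert_of_mem hi))
      fun i hi => h1 i (Finset.mem_insert_of_mem hi)
    have h3 := h0 a (Finset.mem_insert_self _ _)
    have h4 := h1 a (Finset.mem_insert_self _ _)
    have h5 : 0 ≤ ∑ i ∈ s, x i := Finset.sum_nonneg fun i hi => h0 i (Finset.mem_insert_of_mem hi)
    have h6 := mul_le_mul_of_nonneg_left h2 (sub_nonneg.2 h4)
    nlinarith [mul_nonneg h3 h5]

theorem add_sq_le' (p : Prop) [Decidable p] (x y : ℝ) :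
    ((if p then x else 0) + y) ^ 2 ≤ 2 * (if p then x ^ 2 else 0) + 2 * y ^ 2 := by
  split_ifs
  · nlinarith [sq_nonneg (x - y)]
  · nlinarith [sq_nonneg y]

/-- A small prime dividing `b` and `M` kills the weight on the progression. -/
theorem avg_Wt_eq_zero {ι : Type} [Fintype ι] {I : ι → ℕ} {p b M : k[X]} (hp : IsP p)
    (h1 : p ∣ b) (h2 : p ∣ M) (hI : ∀ i, p.natDegree < I i) (len : ℕ) :
    avg len (fun t => Wt I (b + M * t)) = 0 := by
  rw [← avg_const (k := k) len 0]
  refine avg_congr fun t _ => ?_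
  by_contra h
  obtain ⟨i, hi⟩ := natDegree_of_Wt_ne_zero h hp (dvd_add h1 (h2.mul_right t))
  exact (hI i).ne hi

theorem Q_pow (c : Ctx k) (j : ℕ) : c.Q ^ j = qR k ^ (j * c.τ) := by
  rw [Ctx.Q, ← pow_mul, mul_comm]

theorem Q_pos (c : Ctx k) : 0 < c.Q := lt_of_lt_of_le two_pos c.two_le_Q

/-- The small primes account for almost all of `cM`. -/
theorem cM_sub {M : k[X]} (hM : M ≠ 0) (s : ℕ) :
    |cM M - ∏ p ∈ (pf M).filter (fun p => p.natDegree < s), Nm p / (Nm p - 1)| ≤
      cM M * (M.natDegree / qR k ^ s) := by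
  set A := ∏ p ∈ (pf M).filter (fun p => p.natDegree < s), Nm p / (Nm p - 1) with hA
  set T := (pf M).filter (fun p => ¬ p.natDegree < s) with hT
  have hP : ∀ p ∈ T, IsP p := fun p hp => isP_of_mem_pf (Finset.mem_filter.1 hp).1
  have h1 : cM M = A * ∏ p ∈ T, Nm p / (Nm p - 1) :=
    (Finset.prod_filter_mul_prod_filter_not _ _ _).symm
  have h2 : A = cM M * ∏ p ∈ T, (1 - 1 / Nm p) := by
    rw [h1, mul_assoc, ← Finset.prod_mul_distrib, Finset.prod_eq_one, mul_one]
    intro p hp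
    have h3 := (hP p hp).two_le_Nm
    have h4 : Nm p - 1 ≠ 0 := by linarith
    have h5 : Nm p ≠ 0 := by linarith
    field_simp
  have h0 : ∀ p ∈ T, 0 ≤ 1 / Nm p := fun p _ => (one_div_pos.2 (Nm_pos p)).le
  have h3 : ∀ p ∈ T, 1 / Nm p ≤ 1 := fun p hp => by
    rw [div_le_one (Nm_pos p)]
    linarith [(hP p hp).two_le_Nm]
  have h4 := one_sub_sum_le T (fun p => 1 / Nm p) h0 h3
  have h5 : ∏ p ∈ T, (1 - 1 / Nm p) ≤ 1 :=
    Finset.prod_le_one (fun p hp => sub_nonneg.2 (h3 p hp)) fun p hp => by linarith [h0 p hp]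
  have h6 : ∑ p ∈ T, 1 / Nm p ≤ M.natDegree / qR k ^ s := by
    have h7 : ∑ p ∈ T, 1 / Nm p ≤ T.card • (1 / qR k ^ s) := by
      refine Finset.sum_le_card_nsmul _ _ _ fun p hp => ?_
      exact one_div_le_one_div_of_le (pow_pos qR_pos _)
        (pow_le_pow_right₀ one_le_qR (not_lt.1 (Finset.mem_filter.1 hp).2))
    have h8 : (T.card : ℝ) ≤ M.natDegree := by
      exact_mod_cast (Finset.card_filter_le _ _).trans (card_pf_le hM)
    rw [nsmul_eq_mul, mul_one_div] at h7
    exact h7.trans (div_le_div_of_nonneg_right h8 (pow_pos qR_pos _).le)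
  have hc : 0 ≤ cM M := zero_le_one.trans (one_le_cM M)
  rw [h2, ← mul_one_sub, abs_mul, abs_of_nonneg hc, abs_of_nonneg (sub_nonneg.2 h5)]
  exact mul_le_mul_of_nonneg_left (by linarith) hc

end PT

open PT

theorem stPT (hM1 : StM1) : StPT := by
  intro k _ _ _ c K b M len hK hb hM hs hdeg hlen hlen'
  have hτ := c.τ_pos
  have hd := c.d₁_eq
  have hnu := c.nu_ge
  have hL := c.L_ge
  have hK1 : 1 ≤ K := by linarith [hK.ten_le]
  have hQ : 0 < c.Q ^ 6 := pow_pos (Q_pos c) _
  have hw : avg len (fun t => c.w₁ (b + M * t)) = ∏ p ∈ pf M, (1 + psi p b) := by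
    rw [Finset.prod_one_add]
    refine (hM1 k (190 * c.τ) (12 * c.τ) len b M (by omega)).trans
      (Finset.sum_congr ?_ fun _ _ => rfl)
    ext S
    rw [Finset.mem_filter, mem_SS, Finset.mem_powerset]
    constructor
    · rintro ⟨⟨h1, -⟩, h2⟩ p hp
      exact (mem_pf hM).2 ⟨(h1 p hp).1, h2 p hp⟩
    · intro h
      refine ⟨⟨fun p hp => ⟨isP_of_mem_pf (h hp), hs p (h hp)⟩, ?_⟩,
        fun p hp => ((mem_pf hM).1 (h hp)).2⟩
      exact ((Finset.sum_le_sum_of_subset h).trans (sum_natDegree_pf_le hM)).trans hdeg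
  rw [avg_sub, hw, prod_one_add_psi fun p hp => isP_of_mem_pf hp]
  split_ifs with hc
  · have hcop : IsCoprime b M := (isCoprime_iff_pf hM).2 hc
    obtain ⟨θ, h1, h2⟩ := hK.var 66 c.I₁ M len (by norm_num)
      (fun i => by have := c.I₁_ge i; omega) c.I₁_le hM hlen
    have h3 := (le_avm_of_progression (n := c.d₁)
      (B := (avg len (fun t => Wt c.I₁ (b + M * t)) - θ * cM M) ^ 2)
      (F := fun b => if IsCoprime b M then
        (avg len (fun t => Wt c.I₁ (b + M * t)) - θ * cM M) ^ 2 else 0) hM hb hlen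
      (fun f _ => by positivity) fun t ht => by
        rw [if_pos (hcop.add_mul_left_left t), ← avg_shift (F := fun s => Wt c.I₁ (b + M * s)) ht]
        refine le_of_eq (congrArg (fun x => (x - θ * cM M) ^ 2) (avg_congr fun s _ => ?_))
        rw [mul_add, add_right_comm, add_assoc]).trans h2
    set A := avg len (fun t => Wt c.I₁ (b + M * t)) with hA
    have hq : ∀ n : ℕ, 0 < qR k ^ n := fun n => pow_pos qR_pos n
    have h4 : (A - θ * cM M) ^ 2 ≤ (K / c.Q ^ 6) ^ 2 := by
      rw [div_le_div_iff₀ (hq _) (hq _), mul_assoc, ← pow_add] at h3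
      rw [div_pow, ← pow_mul, Q_pow, le_div_iff₀ (hq _)]
      refine le_of_mul_le_mul_right ?_ (hq c.d₁)
      calc (A - θ * cM M) ^ 2 * qR k ^ (6 * 2 * c.τ) * qR k ^ c.d₁
          = (A - θ * cM M) ^ 2 * qR k ^ (6 * 2 * c.τ + c.d₁) := by rw [mul_assoc, ← pow_add]
        _ ≤ (A - θ * cM M) ^ 2 * qR k ^ (len + len) :=
          mul_le_mul_of_nonneg_left (pow_le_pow_right₀ one_le_qR (by omega)) (sq_nonneg _)
        _ ≤ K * qR k ^ c.d₁ := h3
        _ ≤ K ^ 2 * qR k ^ c.d₁ :=
          mul_le_mul_of_nonneg_right (le_self_pow₀ hK1 two_ne_zero) (hq _).le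
    have h5 : |A - θ * cM M| ≤ K / c.Q ^ 6 := abs_le_of_sq_le_sq' h4 (by positivity) |> abs_le.2
    have h6 : |(θ - 1) * cM M| ≤ K / c.Q ^ 6 * K := by
      rw [abs_mul, abs_of_nonneg (zero_le_one.trans (one_le_cM M)), Q_pow]
      exact mul_le_mul h1 (hK.cM_le hM (by omega)) (zero_le_one.trans (one_le_cM M))
        (div_nonneg (by linarith) (hq _).le)
    have h7 : K / c.Q ^ 6 ≤ K / c.Q ^ 6 * K := le_mul_of_one_le_right (by positivity) hK1
    calc |A - cM M| = |A - θ * cM M + (θ - 1) * cM M| := by ring_nf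
      _ ≤ K / c.Q ^ 6 * K + K / c.Q ^ 6 * K := (abs_add_le _ _).trans (add_le_add (h5.trans h7) h6)
      _ = 2 * K ^ 2 / c.Q ^ 6 := by ring
  · push Not at hc
    obtain ⟨p, hp, hpb⟩ := hc
    have h0 : avg len (fun t => c.W₁ (b + M * t)) = 0 :=
      avg_Wt_eq_zero (isP_of_mem_pf hp) hpb ((mem_pf hM).1 hp).2 (fun i => by
        have := c.I₁_ge i
        have := hs p hp
        omega) len
    rw [h0, sub_zero, abs_zero]
    positivity

theorem stBT (hM1 : StM1) (hM2 : StM2) : StBT := by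
  intro k _ _ _ c K M hK hM hdeg
  have hτ := c.τ_pos
  have hd := c.d₂_le
  have hK1 : 1 ≤ K := by linarith [hK.ten_le]
  have hQ : 0 < c.Q := Q_pos c
  have hQ1 : 1 ≤ c.Q := one_le_two.trans c.two_le_Q
  have hq : ∀ n : ℕ, 0 < qR k ^ n := fun n => pow_pos qR_pos n
  have hc0 : 0 ≤ cM M := zero_le_one.trans (one_le_cM M)
  have hcK : cM M ≤ K := hK.cM_le hM (by omega)
  obtain ⟨θ, h1, h2⟩ := hK.var 67 c.I₂ M (200 * c.τ) le_rfl c.I₂_ge c.I₂_le hM hdeg
  have h3 := hM2 k (180 * c.τ) (12 * c.τ) c.d₂ M hM (by omega)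
  let A : k[X] → ℝ := fun b => avg (200 * c.τ) fun t => Wt c.I₂ (b + M * t)
  let P : k[X] → ℝ := fun b => ∏ p ∈ (pf M).filter (fun p => p.natDegree < 12 * c.τ), (1 + psi p b)
  let T : k[X] → ℝ := fun b =>
    ∑ S ∈ (SS k (180 * c.τ) (12 * c.τ)).filter (fun S => ∀ p ∈ S, p ∣ M), ∏ p ∈ S, psi p b
  refine ⟨fun b => (if IsCoprime b M then A b - θ * cM M else 0) + (P b - T b), ?_, fun b hb => ?_⟩
  · have h4 : avm c.d₂ (fun b => ((if IsCoprime b M then A b - θ * cM M else 0) + (P b - T b)) ^ 2) ≤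
        avm c.d₂ fun b => 2 * (if IsCoprime b M then (A b - θ * cM M) ^ 2 else 0) +
          2 * (P b - T b) ^ 2 := by
      refine avm_mono fun b _ => ?_
      exact add_sq_le' _ _ _
    rw [avm_add, avm_mul_left, avm_mul_left] at h4
    have h5 : K / qR k ^ (200 * c.τ) ≤ K / c.Q ^ 180 := by
      rw [Q_pow]
      exact div_le_div_of_nonneg_left (by linarith) (hq _) (pow_le_pow_right₀ one_le_qR (by omega))
    have h6 : (4 : ℝ) ^ (pf M).card / qR k ^ (180 * c.τ) ≤ K / c.Q ^ 180 := by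
      rw [Q_pow]
      exact div_le_div_of_nonneg_right (hK.om M hM (by omega)) (hq _).le
    have h7 := h2.trans h5
    have h8 := h3.trans h6
    calc _ ≤ _ := h4
      _ ≤ 2 * (K / c.Q ^ 180) + 2 * (K / c.Q ^ 180) :=
        add_le_add (mul_le_mul_of_nonneg_left h7 zero_le_two)
          (mul_le_mul_of_nonneg_left h8 zero_le_two)
      _ = 4 * K / c.Q ^ 180 := by ring
  · have hnn : 0 ≤ 3 * K ^ 2 / c.Q ^ 6 := by positivity
    by_cases hex : ∃ p ∈ pf M, 12 * c.τ ≤ p.natDegree ∧ p ∣ b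
    · rw [if_pos hex]
      have h4 : |avg (200 * c.τ) fun t => c.W₂ (b + M * t) - c.w₂ (b + M * t)| ≤ 2 * K := by
        refine abs_avg_le_of_le fun t ht => (abs_sub _ _).trans ?_
        have h5 := c.W₂_le hK (b + M * t)
        have h6 := c.w₂_le hK (hb.add (degree_mul_lt ht hdeg))
        linarith
      exact h4.trans (le_add_of_nonneg_left (add_nonneg (abs_nonneg _) hnn))
    · rw [if_neg hex, add_zero, avg_sub]
      have hw : avg (200 * c.τ) (fun t => c.w₂ (b + M * t)) = T b :=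
        hM1 k (180 * c.τ) (12 * c.τ) (200 * c.τ) b M (by omega)
      have hP := prod_one_add_psi (S := (pf M).filter fun p => p.natDegree < 12 * c.τ)
        (fun p hp => isP_of_mem_pf (Finset.mem_filter.1 hp).1) b
      rw [hw]
      change |A b - T b| ≤ |(if IsCoprime b M then A b - θ * cM M else 0) + (P b - T b)| + _
      by_cases hcop : IsCoprime b M
      · rw [if_pos fun p hp => (isCoprime_iff_pf hM).1 hcop p (Finset.mem_filter.1 hp).1] at hP
        have h4 := cM_sub hM (12 * c.τ)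
        rw [← hP] at h4
        have h5 : cM M * (M.natDegree / qR k ^ (12 * c.τ)) ≤ K * (K / c.Q ^ 6) := by
          refine mul_le_mul hcK ?_ (div_nonneg (Nat.cast_nonneg _) (hq _).le) (by linarith)
          rw [Q_pow]
          refine div_le_div₀ (by linarith) ?_ (hq _) (pow_le_pow_right₀ one_le_qR (by omega))
          have h6 : (M.natDegree : ℝ) ≤ 6000 * c.τ := by exact_mod_cast (by omega)
          linarith [hK.lin]
        have h6 : |(θ - 1) * cM M| ≤ K / c.Q ^ 6 * K := by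
          rw [abs_mul, abs_of_nonneg hc0, Q_pow]
          exact mul_le_mul h1 hcK hc0 (div_nonneg (by linarith) (hq _).le)
        have h7 : 0 ≤ K ^ 2 / c.Q ^ 6 := by positivity
        rw [if_pos hcop]
        calc |A b - T b|
            = |(A b - θ * cM M + (P b - T b)) + ((θ - 1) * cM M + (cM M - P b))| := by ring_nf
          _ ≤ |A b - θ * cM M + (P b - T b)| + (K / c.Q ^ 6 * K + K * (K / c.Q ^ 6)) :=
            (abs_add_le _ _).trans (add_le_add le_rfl
              ((abs_add_le _ _).trans (add_le_add h6 (h4.trans h5))))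
          _ ≤ _ := by
            refine add_le_add le_rfl ?_
            calc _ = 2 * (K ^ 2 / c.Q ^ 6) := by ring
              _ ≤ 3 * (K ^ 2 / c.Q ^ 6) := by linarith
              _ = _ := by ring
      · obtain ⟨p, hp, hpb⟩ : ∃ p ∈ pf M, p ∣ b := by
          by_contra hc
          push Not at hc
          exact hcop ((isCoprime_iff_pf hM).2 hc)
        have hlt : p.natDegree < 12 * c.τ := not_le.1 fun h => hex ⟨p, hp, h, hpb⟩
        have h0 : A b = 0 := avg_Wt_eq_zero (isP_of_mem_pf hp) hpb ((mem_pf hM).1 hp).2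
          (fun i => hlt.trans_le (c.I₂_ge i)) _
        rw [if_neg fun h => h p (Finset.mem_filter.2 ⟨hp, hlt⟩) hpb] at hP
        rw [if_neg hcop, zero_add, h0, show P b = 0 from hP]
        exact le_add_of_nonneg_right hnn

end Pool.Agent.Lib.MP_9227d9_nt.Mob
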