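import Pool.Agent.Lib.MP_9227d9_nt.TwA
import Pool.Agent.Lib.MP_9227d9_nt.MobPT

/-! The mean of weight minus model on a cell. -/

namespace Pool.Agent.Lib.MP_9227d9_nt.Mob

open Polynomial

open scoped Classical

namespace TwCell

variable {k : Type} [Field k] [Fintype k] [CharP k 2]

omit [CharP k 2] in
theorem cell_MD (c : Tw k) {R G₀ v : k[X]} (hR : R.Monic) (hRd : R.natDegree < c.τ)
    (hG : MD c.n1 G₀) (hv : v.degree < (c.nu + 2 * c.L - 4 * c.τ : ℕ)) :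
    MD c.n1 (G₀ + R ^ 2 * v) := by
  refine hG.add (degree_mul_lt hv ?_)
  have h1 := c.nu_add
  have h2 := c.L_eq
  rw [hR.natDegree_pow]
  omega

theorem od_cell (R G₀ g u₁ v : k[X]) :
    od ((G₀ + R ^ 2 * v) * (g ^ 2 * u₁)) = od (G₀ * (g ^ 2 * u₁)) + R * g * od (v * u₁) := by
  rw [← od_mul_sq, ← od_add]
  congr 1
  ring

/-- the trivial bound -/
theorem triv (c : Tw k) {K : ℝ} (hK : KB2 k c.U c.τ K) {A c₀ R G₀ u : k[X]} (hA : MD c.a A)
    (hc : c₀.natDegree ≤ c.a + c.τ) (hR : R.Monic) (hRd : R.natDegree < c.τ) (hG : MD c.n1 G₀)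
    (hu : MD c.nu u) :
    |avg (c.nu + 2 * c.L - 4 * c.τ) fun v =>
      c.Wm (od ((A * (G₀ + R ^ 2 * v) + c₀) * A * u))| ≤ 2 * K :=
  abs_avg_le_of_le fun _ hv =>
    c.abs_Wm_le hK (c.MD_line hA hc (cell_MD c hR hRd hG hv) hu).2.2.1

/-- A prime factor of `A` that does not divide `u` does not divide the modulus. -/
theorem not_dvd {A c₀ u p : k[X]} (hs : Squarefree A) (hc : IsCoprime c₀ A) (hp : IsP p)
    (hpA : p ∣ A) (hpu : ¬ p ∣ u) (x : k[X]) : ¬ p ∣ A * x + od (c₀ * A * u) := by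
  intro h
  have h1 : p ∣ od (c₀ * A * u) := (dvd_add_right (hpA.mul_right x)).1 h
  have h2 := sq_dvd_of_dvd_od hp ((hpA.mul_left c₀).mul_right u) h1
  obtain ⟨A', rfl⟩ := hpA
  have h3 : p ∣ c₀ * A' * u := by
    have h4 : c₀ * (p * A') * u = p * (c₀ * A' * u) := by ring
    rw [h4, sq] at h2
    exact (mul_dvd_mul_iff_left hp.1.ne_zero).1 h2
  rcases hp.prime.dvd_or_dvd h3 with h5 | h5
  · rcases hp.prime.dvd_or_dvd h5 with h6 | h6
    · exact hp.2.not_isUnit (hc.isUnit_of_dvd' h6 (dvd_mul_right _ _))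
    · exact hp.2.not_isUnit (hs p (mul_dvd_mul_left p h6))
  · exact hpu h5

omit [CharP k 2] in
/-- The mean of the model on a progression whose modulus has a small smooth part. -/
theorem model (hM1 : StM1) {z s len : ℕ} {A N : k[X]} (hA : A ≠ 0) (hN : N ≠ 0)
    (hr : Rough s A) (hNd : N.natDegree ≤ z) (hz : z ≤ len) (b : k[X]) :
    avg len (fun t => wm z s (b + A * N * t)) =
      ∏ p ∈ (pf (A * N)).filter (fun p => p.natDegree < s), (1 + psi p b) := by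
  have hM : A * N ≠ 0 := mul_ne_zero hA hN
  rw [Finset.prod_one_add]
  refine (hM1 k z s len b (A * N) hz).trans (Finset.sum_congr ?_ fun _ _ => rfl)
  ext S
  rw [Finset.mem_filter, mem_SS, Finset.mem_powerset]
  constructor
  · rintro ⟨⟨h1, -⟩, h2⟩ p hp
    exact Finset.mem_filter.2 ⟨(mem_pf hM).2 ⟨(h1 p hp).1, h2 p hp⟩, (h1 p hp).2⟩
  · intro h
    have h1 : ∀ p ∈ S, IsP p ∧ p ∣ A * N := fun p hp =>
      (mem_pf hM).1 (Finset.mem_filter.1 (h hp)).1
    have h2 : ∀ p ∈ S, p.natDegree < s := fun p hp => (Finset.mem_filter.1 (h hp)).2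
    refine ⟨⟨fun p hp => ⟨(h1 p hp).1, h2 p hp⟩, ?_⟩, fun p hp => (h1 p hp).2⟩
    have h3 : S ⊆ pf N := fun p hp => by
      refine (mem_pf hN).2 ⟨(h1 p hp).1, ?_⟩
      rcases (h1 p hp).1.prime.dvd_or_dvd (h1 p hp).2 with h4 | h4
      · exact absurd (hr p (h1 p hp).1 h4) (not_le.2 (h2 p hp))
      · exact h4
    exact ((Finset.sum_le_sum_of_subset h3).trans (sum_natDegree_pf_le hN)).trans hNd

omit [CharP k 2] in
/-- Weight minus model on a short progression. -/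
theorem point (hM1 : StM1) (c : Tw k) {K θ : ℝ} (hK : KB2 k c.U c.τ K) {A N b : k[X]}
    (hA : MD c.a A) (hr : Rough (12 * c.τ) A) (hN : N ≠ 0) (hNd : N.natDegree ≤ 4 * c.τ)
    (hb : ∀ p, IsP p → p ∣ A → ¬ p ∣ b) (hθ : |θ - 1| ≤ K / c.Q ^ 6) :
    |avg c.len fun t => c.Wm (b + A * N * t)| ≤
      Ph c.I c.len θ (A * N) b + 2 * K ^ 2 / c.Q ^ 6 := by
  have hM : A * N ≠ 0 := mul_ne_zero hA.ne_zero hN
  have hτ := c.τ_pos
  have h1 := c.len_add
  have h2 := c.L_eq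
  have h3 := c.ab_le
  have h4 := c.τ_le
  have h5 := c.n_le
  have hMd : (A * N).natDegree ≤ c.n := by
    have := natDegree_mul_le (p := A) (q := N)
    rw [hA.2] at this
    omega
  have hK10 := hK.ten_le
  have hQ : 0 < c.Q := lt_of_lt_of_le two_pos c.two_le_Q
  have hq : ∀ n : ℕ, 0 < qR k ^ n := fun n => pow_pos qR_pos n
  have hc0 : 0 ≤ cM (A * N) := zero_le_one.trans (one_le_cM _)
  have hcK : cM (A * N) ≤ K := hK.cM_le hM (by rw [mul_assoc]; omega)
  have hw := model hM1 (len := c.len) hA.ne_zero hN hr hNd (by omega) b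
  have hP := prod_one_add_psi (S := (pf (A * N)).filter fun p => p.natDegree < 12 * c.τ)
    (fun p hp => isP_of_mem_pf (Finset.mem_filter.1 hp).1) b
  simp only [Tw.Wm]
  rw [avg_sub, hw, hP]
  by_cases hcop : IsCoprime b (A * N)
  · rw [if_pos fun p hp => (isCoprime_iff_pf hM).1 hcop p (Finset.mem_filter.1 hp).1, Ph,
      if_pos hcop]
    have a1 := PT.cM_sub hM (12 * c.τ)
    have a2 : cM (A * N) * ((A * N).natDegree / qR k ^ (12 * c.τ)) ≤ K * (K / c.Q ^ 6) := by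
      refine mul_le_mul hcK ?_ (div_nonneg (Nat.cast_nonneg _) (hq _).le) (by linarith)
      rw [c.Q_pow]
      refine div_le_div₀ (by linarith) ?_ (hq _) (pow_le_pow_right₀ one_le_qR (by omega))
      have a3 : ((A * N).natDegree : ℝ) ≤ c.n := by exact_mod_cast hMd
      have a4 := c.n_le_K hK
      have a5 : (0 : ℝ) ≤ c.n := Nat.cast_nonneg _
      linarith
    have a3 : |(θ - 1) * cM (A * N)| ≤ K / c.Q ^ 6 * K := by
      rw [abs_mul, abs_of_nonneg hc0]
      exact mul_le_mul hθ hcK hc0 (by positivity)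
    set W := avg c.len fun t => Wt c.I (b + A * N * t) with hW
    set P := ∏ p ∈ (pf (A * N)).filter (fun p => p.natDegree < 12 * c.τ), Nm p / (Nm p - 1)
      with hPd
    calc |W - P| = |(W - θ * cM (A * N)) + ((θ - 1) * cM (A * N) + (cM (A * N) - P))| := by
          ring_nf
      _ ≤ |W - θ * cM (A * N)| + (K / c.Q ^ 6 * K + K * (K / c.Q ^ 6)) :=
        (abs_add_le _ _).trans (add_le_add le_rfl
          ((abs_add_le _ _).trans (add_le_add a3 (a1.trans a2))))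
      _ = _ := by ring
  · obtain ⟨p, hp, hpb⟩ : ∃ p ∈ pf (A * N), p ∣ b := by
      by_contra hc
      push Not at hc
      exact hcop ((isCoprime_iff_pf hM).2 hc)
    obtain ⟨hp1, hp2⟩ := (mem_pf hM).1 hp
    have hlt : p.natDegree < 12 * c.τ := by
      rcases hp1.prime.dvd_or_dvd hp2 with h | h
      · exact absurd hpb (hb p hp1 h)
      · have := natDegree_le_of_dvd h hN
        omega
    rw [PT.avg_Wt_eq_zero hp1 hpb hp2 (fun i => hlt.trans_le (c.I_ge i)),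
      if_neg fun h => h p (Finset.mem_filter.2 ⟨hp, hlt⟩) hpb, sub_zero, abs_zero]
    exact add_nonneg (Ph_nonneg _ _ _ _ _) (by positivity)

/-- the bound for a small square part -/
theorem small (hS : StS) (hM1 : StM1) (c : Tw k) {K θ : ℝ} (hK : KB2 k c.U c.τ K)
    {A c₀ R G₀ g u₁ : k[X]} (hA : MD c.a A) (hsq : Squarefree A) (hr : Rough (12 * c.τ) A)
    (hc : IsCoprime c₀ A) (hR : R.Monic) (hRd : R.natDegree < c.τ) (hG : MD c.n1 G₀)
    (hg : g.Monic) (h1 : u₁.Monic) (hs : Squarefree u₁) (hu : MD c.nu (g ^ 2 * u₁))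
    (hgd : g.natDegree ≤ 3 * c.τ) (hcop : ∀ p, IsP p → p ∣ A → ¬ p ∣ g ^ 2 * u₁)
    (hθ : |θ - 1| ≤ K / c.Q ^ 6) :
    |avg (c.nu + 2 * c.L - 4 * c.τ) fun v =>
      c.Wm (od ((A * (G₀ + R ^ 2 * v) + c₀) * A * (g ^ 2 * u₁)))| ≤ 2 * K ^ 2 / c.Q ^ 6 +
      c.Q ^ 5 * avm (c.dl - c.a) fun x =>
        Ph c.I c.len θ (A * R * g) (A * x + od (c₀ * A * (g ^ 2 * u₁))) := by
  have hdeg : 2 * g.natDegree + u₁.natDegree = c.nu := by
    rw [← hu.2, (hg.pow 2).natDegree_mul h1, hg.natDegree_pow]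
  have hτ := c.τ_pos
  have d1 := c.len_add
  have d2 := c.L_eq
  have d3 := c.nu_add
  have d4 := c.dl_add
  have d5 := c.nu_ge
  have d6 := c.τ_le
  have hl : MD (c.dl - c.a) (od (G₀ * (g ^ 2 * u₁))) := by
    refine MD.od ?_
    have := hG.mul hu
    rwa [show c.n1 + c.nu = 2 * (c.dl - c.a) + 1 by omega] at this
  set l₀ := od (G₀ * (g ^ 2 * u₁)) with hl₀
  set e := od (c₀ * A * (g ^ 2 * u₁)) with he
  have hN : (R * g).Monic := hR.mul hg
  have hNd : (R * g).natDegree = R.natDegree + g.natDegree := hR.natDegree_mul hg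
  set m' := c.nu + c.L - 2 * c.τ - g.natDegree with hm'
  have e1 := hS k u₁ (c.nu + 2 * c.L - 4 * c.τ) m' (fun t => c.Wm (A * (l₀ + R * g * t) + e))
    h1 hs (by omega) (by omega)
  have e2 : ∀ v, od ((A * (G₀ + R ^ 2 * v) + c₀) * A * (g ^ 2 * u₁)) =
      A * (l₀ + R * g * od (v * u₁)) + e := fun v => by
    rw [(Tw.od_line A c₀ (G₀ + R ^ 2 * v) (g ^ 2 * u₁) 0).2.2, od_cell]
  simp only [e2]
  rw [e1, avg_avg_shift c.len (fun t => t) fun t ht => ht.trans_le (by exact_mod_cast by omega)]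
  refine abs_avg_le.trans ((avg_mono (G := fun t => 2 * K ^ 2 / c.Q ^ 6 +
    Ph c.I c.len θ (A * R * g) (A * (l₀ + R * g * t) + e)) fun t _ => ?_).trans ?_)
  · have a1 := point hM1 c hK hA hr hN.ne_zero (by omega) (b := A * (l₀ + R * g * t) + e)
      (fun p hp hpA => not_dvd hsq hc hp hpA (hcop p hp hpA) _) hθ
    rw [add_comm (2 * K ^ 2 / c.Q ^ 6), mul_assoc A R g]
    refine le_trans (le_of_eq ?_) a1
    refine congrArg _ (avg_congr fun t' _ => congrArg _ ?_)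
    ring
  · rw [avg_add, avg_const]
    refine add_le_add le_rfl ?_
    have a1 := avg_le_avm (Φ := fun x => Ph c.I c.len θ (A * R * g) (A * x + e)) (len := m')
      hN.ne_zero hl (by omega) fun _ _ => Ph_nonneg _ _ _ _ _
    refine a1.trans (mul_le_mul_of_nonneg_right ?_ (avm_nonneg fun _ _ => Ph_nonneg _ _ _ _ _))
    rw [c.Q_pow]
    exact pow_le_pow_right₀ one_le_qR (by omega)

end TwCell

theorem stCell (hS : StS) (hSQ : StSQ) (hEX : StEX) (hM1 : StM1) : StCell := by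
  intro k _ _ _ c K θ A c₀ R G₀ hK hA hsr hc hcd hR hRd hG hθ
  obtain ⟨hsq, hr⟩ := sr_ne_zero_iff.1 hsr
  have hK0 := hK.ten_le
  have hQ := c.two_le_Q
  have hQ0 : 0 < c.Q := by linarith
  have hτ := c.τ_pos
  have d5 := c.nu_ge
  have d6 := c.τ_le
  have hPh : ∀ g u : k[X], 0 ≤ avm (c.dl - c.a) fun x =>
      Ph c.I c.len (θ (A * R * g)) (A * R * g) (A * x + od (c₀ * A * u)) :=
    fun _ _ => avm_nonneg fun _ _ => Ph_nonneg _ _ _ _ _
  refine abs_avm_le.trans ((avm_mono (G := fun u => 2 * K ^ 2 / c.Q ^ 6 + 2 * K *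
    (((Mo k c.nu).filter fun g => 3 * c.τ < g.natDegree ∧ g ^ 2 ∣ u).card : ℝ) + 2 * K *
    (if ∃ p ∈ pf A, 12 * c.τ ≤ p.natDegree ∧ p ∣ u then 1 else 0) +
    c.Q ^ 5 * ∑ g ∈ Mo k (3 * c.τ), avm (c.dl - c.a) fun x =>
      Ph c.I c.len (θ (A * R * g)) (A * R * g) (A * x + od (c₀ * A * u)))
    fun u hu => ?_).trans ?_)
  · have b0 : 0 ≤ 2 * K ^ 2 / c.Q ^ 6 := by positivity
    have b1 : 0 ≤ 2 * K *
        (((Mo k c.nu).filter fun g => 3 * c.τ < g.natDegree ∧ g ^ 2 ∣ u).card : ℝ) := by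
      positivity
    have b2 : 0 ≤ 2 * K *
        (if ∃ p ∈ pf A, 12 * c.τ ≤ p.natDegree ∧ p ∣ u then (1 : ℝ) else 0) := by
      positivity
    have b3 : 0 ≤ c.Q ^ 5 * ∑ g ∈ Mo k (3 * c.τ), avm (c.dl - c.a) fun x =>
        Ph c.I c.len (θ (A * R * g)) (A * R * g) (A * x + od (c₀ * A * u)) :=
      mul_nonneg (by positivity) (Finset.sum_nonneg fun g _ => hPh g u)
    have b4 := TwCell.triv c hK hA hcd hR hRd hG hu
    by_cases hex : ∃ p ∈ pf A, 12 * c.τ ≤ p.natDegree ∧ p ∣ u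
    · rw [if_pos hex]
      linarith
    obtain ⟨g, u₁, hg, h1, hs, rfl⟩ := exists_sq_mul hu.1
    by_cases hgd : g.natDegree ≤ 3 * c.τ
    · have b5 := TwCell.small hS hM1 c hK hA hsq hr hc hR hRd hG hg h1 hs hu hgd
        (fun p hp hpA hpu => hex ⟨p, (mem_pf hA.ne_zero).2 ⟨hp, hpA⟩, hr p hp hpA, hpu⟩)
        (hθ (A * R * g))
      have b6 := mul_le_mul_of_nonneg_left (Finset.single_le_sum
        (f := fun g' => avm (c.dl - c.a) fun x => Ph c.I c.len (θ (A * R * g')) (A * R * g')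
          (A * x + od (c₀ * A * (g ^ 2 * u₁)))) (fun g' _ => hPh g' _) (mem_Mo.2 ⟨hg, hgd⟩))
        (pow_pos hQ0 5).le
      linarith
    · have hdeg : 2 * g.natDegree + u₁.natDegree = c.nu := by
        rw [← hu.2, (hg.pow 2).natDegree_mul h1, hg.natDegree_pow]
      have h2 : (1 : ℝ) ≤ (((Mo k c.nu).filter fun g' =>
          3 * c.τ < g'.natDegree ∧ g' ^ 2 ∣ g ^ 2 * u₁).card : ℝ) := by
        rw [Nat.one_le_cast]
        exact Finset.card_pos.2 ⟨g, Finset.mem_filter.2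
          ⟨mem_Mo.2 ⟨hg, by omega⟩, by omega, dvd_mul_right _ _⟩⟩
      have h3 := mul_le_mul_of_nonneg_left h2 (by linarith : 0 ≤ 2 * K)
      linarith
  · rw [avm_add, avm_add, avm_add, avm_const, avm_mul_left, avm_mul_left, avm_mul_left, avm_sum]
    refine add_le_add ?_ le_rfl
    have h1 := hSQ k c.nu (3 * c.τ)
    rw [← c.Q_pow] at h1
    have h2 : avm c.nu (fun u : k[X] =>
        if ∃ p ∈ pf A, 12 * c.τ ≤ p.natDegree ∧ p ∣ u then (1 : ℝ) else 0) ≤ K / c.Q ^ 3 := by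
      have h3 := hEX k A (X ^ c.nu) 1 (12 * c.τ) c.nu hA.ne_zero (by omega) (by omega)
        fun p hp _ h => (isP_of_mem_pf hp).2.not_isUnit (isUnit_of_dvd_one h)
      simp only [one_mul] at h3
      refine le_trans h3 ?_
      rw [← c.Q_pow, hA.2]
      refine div_le_div₀ (by linarith) ?_ (by positivity)
        (pow_le_pow_right₀ (by linarith) (by norm_num))
      have a3 : (c.a : ℝ) ≤ c.n := by
        have := c.a_le
        exact_mod_cast (by omega)
      have a4 := c.n_le_K hK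
      have a5 : (0 : ℝ) ≤ c.n := Nat.cast_nonneg _
      linarith
    have h3 : 2 * K ^ 2 / c.Q ^ 6 ≤ 2 * K ^ 3 / c.Q ^ 3 :=
      div_le_div₀ (by positivity) (by nlinarith [sq_nonneg K]) (by positivity)
        (pow_le_pow_right₀ (by linarith) (by norm_num))
    have h4 : 2 * K * (1 / c.Q ^ 3) ≤ 2 * K ^ 3 / c.Q ^ 3 := by
      rw [mul_one_div]
      exact div_le_div_of_nonneg_right (by nlinarith [sq_nonneg K]) (by positivity)
    have h5 : 2 * K * (K / c.Q ^ 3) ≤ 2 * K ^ 3 / c.Q ^ 3 := by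
      rw [← mul_div_assoc]
      exact div_le_div_of_nonneg_right (by nlinarith [sq_nonneg K]) (by positivity)
    have h6 := mul_le_mul_of_nonneg_left h1 (by linarith : 0 ≤ 2 * K)
    have h7 := mul_le_mul_of_nonneg_left h2 (by linarith : 0 ≤ 2 * K)
    calc _ ≤ 2 * K ^ 3 / c.Q ^ 3 + 2 * K ^ 3 / c.Q ^ 3 + 2 * K ^ 3 / c.Q ^ 3 := by linarith
      _ = _ := by ring

end Pool.Agent.Lib.MP_9227d9_nt.Mob
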