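import Pool.Agent.Lib.MP_9227d9_nt.TwA

/-! The residue classes of the moduli are well distributed in mean square. -/

namespace Pool.Agent.Lib.MP_9227d9_nt.Mob

open Polynomial

open scoped Classical

namespace TwColl

variable {k : Type} [Field k] [Fintype k]

theorem avg_delta {a : ℕ} {ρ : k[X]} (hρ : ρ.degree < a) (g : k[X] → ℝ) :
    avg a (fun r => qR k ^ a * (if ρ = r then g r else 0)) = g ρ := by
  unfold avg
  rw [← Finset.mul_sum, Finset.sum_ite_eq, if_pos (mem_Pn.2 hρ)]
  have := qR_pow_pos (k := k) a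
  field_simp

/-- The distribution of the classes. -/
noncomputable def Pd (b nu : ℕ) (w : k[X] → ℝ) (ρ : k[X] → k[X] → k[X]) (r : k[X]) : ℝ :=
  avm b fun B => avm nu fun u => if ρ B u = r then w B else 0

theorem key {a : ℕ} (b nu : ℕ) (w : k[X] → ℝ) {ρ : k[X] → k[X] → k[X]}
    (hρ : ∀ B u, (ρ B u).degree < a) (f : k[X] → ℝ) :
    avg a (fun r => (qR k ^ a * Pd b nu w ρ r) * f r) =
      avm b fun B => avm nu fun u => w B * f (ρ B u) := by
  have h1 : ∀ r, (qR k ^ a * Pd b nu w ρ r) * f r =
      avm b fun B => avm nu fun u => qR k ^ a * (if ρ B u = r then w B * f r else 0) := by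
    intro r
    unfold Pd
    rw [← avm_mul_left, ← avm_mul_right]
    refine avm_congr fun B _ => ?_
    rw [← avm_mul_left, ← avm_mul_right]
    refine avm_congr fun u _ => ?_
    split_ifs <;> ring
  simp only [h1]
  rw [← avm_avg_comm]
  refine avm_congr fun B _ => ?_
  rw [← avm_avg_comm]
  refine avm_congr fun u _ => ?_
  exact avg_delta (hρ B u) fun r => w B * f r

theorem cs {a : ℕ} (b nu : ℕ) (w : k[X] → ℝ) {ρ : k[X] → k[X] → k[X]}
    (hρ : ∀ B u, (ρ B u).degree < a) (f : k[X] → ℝ) :
    (avm b fun B => avm nu fun u => w B * f (ρ B u)) ^ 2 ≤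
      (avm b fun B => avm nu fun u => w B * (qR k ^ a * Pd b nu w ρ (ρ B u))) *
        avg a fun r => f r ^ 2 := by
  rw [← key b nu w hρ f, ← key b nu w hρ fun r => qR k ^ a * Pd b nu w ρ r]
  have := sq_avg_mul_le (n := a) (F := fun r => qR k ^ a * Pd b nu w ρ r) (G := f)
  simpa only [sq] using this

theorem avm_split {a dl : ℕ} {A : k[X]} (hA : MD a A) (h : a ≤ dl) (F : k[X] → ℝ) :
    avm dl F = avg a fun r => avm (dl - a) fun x => F (A * x + r) := by
  obtain ⟨e, rfl⟩ := Nat.exists_eq_add_of_le h
  have h1 : MD (a + e) (A * X ^ e) := hA.mul ⟨monic_X_pow e, natDegree_X_pow e⟩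
  have h2 := h1.degree_sub
  rw [Nat.add_sub_cancel_left, ← avm_shift h2]
  unfold avm
  have h3 := avg_split hA.ne_zero e fun v => F (X ^ (a + e) + v + (A * X ^ e - X ^ (a + e)))
  rw [hA.2] at h3
  rw [h3]
  refine avg_congr fun r _ => avg_congr fun t _ => ?_
  congr 1
  ring

theorem avm_mod {a dl : ℕ} {A c : k[X]} (hA : MD a A) (h : a ≤ dl) (hc : c.degree < dl)
    (F : k[X] → ℝ) : avm (dl - a) (fun x => F (A * x + c)) =
      avm (dl - a) fun x => F (A * x + c %ₘ A) := by
  have hd : (c /ₘ A).degree < (dl - a : ℕ) := by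
    refine degree_lt_of_natDegree fun h0 => ?_
    have hc0 : c ≠ 0 := fun h1 => h0 (by rw [h1, zero_divByMonic])
    have h1 := natDegree_lt_of_degree hc0 hc
    have h2 : ¬ c.degree < A.degree := fun h3 => h0 ((divByMonic_eq_zero_iff hA.1).2 h3)
    have h3 : A.natDegree ≤ c.natDegree := natDegree_le_natDegree (not_lt.1 h2)
    rw [natDegree_divByMonic c hA.1, hA.2]
    rw [hA.2] at h3
    omega
  rw [← avm_shift (F := fun x => F (A * x + c %ₘ A)) hd]
  refine avm_congr fun x _ => ?_
  congr 1
  have := modByMonic_add_div c A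
  linear_combination -this

theorem avm_tS (z j : ℕ) (F : k[X]) :
    avm j (fun A => if A ∣ F then sr z A else 0) = tS z j F / qR k ^ j := by
  rw [avm_eq_MoD, tS, Finset.sum_filter]

theorem dvd_of_class [CharP k 2] {A B B' c c' u u' h : k[X]} (hA : A.Monic) (hs : Squarefree A)
    (hh : IsCoprime A h) (h1 : A ∣ B * c - h) (h2 : A ∣ B' * c' - h)
    (he : od (c' * A * u') %ₘ A = od (c * A * u) %ₘ A) : A ∣ B' * u - B * u' := by
  have h3 : A ∣ od (c * A * u) - od (c' * A * u') := by
    rw [← modByMonic_eq_zero_iff_dvd hA, sub_modByMonic, he, sub_self]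
  rw [← od_sub, show c * A * u - c' * A * u' = A * (c * u - c' * u') by ring] at h3
  have h4 := dvd_of_dvd_od hs h3
  refine hh.dvd_of_dvd_mul_left ?_
  have h5 : h * (B' * u - B * u') =
      B * B' * (c * u - c' * u') - B' * u * (B * c - h) + B * u' * (B' * c' - h) := by ring
  rw [h5]
  exact dvd_add (dvd_sub (h4.mul_left _) (h1.mul_left _)) (h2.mul_left _)

theorem diag {z b nu : ℕ} {K : ℝ} (hz : 1 ≤ z) (hK : (2 : ℝ) ^ ((b + nu) / z) ≤ K) {B' u : k[X]}
    (hB' : MD b B') (hu : MD nu u) :
    (avm b fun B => avm nu fun u' => if B' * u = B * u' then sr z B else 0) ≤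
      K / qR k ^ (b + nu) := by
  have h1 : ∀ B : k[X], MD b B → (avm nu fun u' => if B' * u = B * u' then sr z B else 0) ≤
      (if B ∣ B' * u then sr z B else 0) * (1 / qR k ^ nu) := by
    intro B hB
    by_cases hd : B ∣ B' * u
    · obtain ⟨g, hg⟩ := hd
      rw [if_pos ⟨g, hg⟩]
      refine le_trans (avm_mono (G := fun u' => sr z B * if u' = g then 1 else 0) fun u' _ => ?_) ?_
      · by_cases he : B' * u = B * u'
        · have : u' = g := mul_left_cancel₀ hB.ne_zero (he.symm.trans hg)
          rw [if_pos he, if_pos this, mul_one]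
        · rw [if_neg he]
          exact mul_nonneg (sr_nonneg z B) (by split_ifs <;> norm_num)
      · rw [avm_mul_left]
        exact mul_le_mul_of_nonneg_left (avm_eq_one_le g) (sr_nonneg z B)
    · rw [if_neg hd, zero_mul]
      exact avm_le_of_le fun u' _ => by rw [if_neg fun he => hd ⟨u', he⟩]
  refine (avm_mono h1).trans ?_
  have h2 := hB'.mul hu
  have h3 := tS_le (z := z) h2.ne_zero hz b
  rw [h2.2] at h3
  rw [avm_mul_right, avm_tS, pow_add, div_mul_div_comm, mul_one]
  exact div_le_div_of_nonneg_right (h3.trans hK) (mul_pos (qR_pow_pos b) (qR_pow_pos nu)).le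

theorem offd {z a b nu : ℕ} {K : ℝ} (hz : 1 ≤ z) (hK : (2 : ℝ) ^ ((b + nu) / z) ≤ K)
    {B B' u u' : k[X]} (hB : MD b B) (hB' : MD b B') (hu : MD nu u) (hu' : MD nu u') :
    (avm a fun A => if A ∣ B' * u - B * u' then sr z A * sr z B else 0) ≤
      (if B' * u = B * u' then sr z B else 0) + K / qR k ^ a := by
  have hK0 : 0 ≤ K / qR k ^ a := div_nonneg (le_trans (by positivity) hK) (qR_pow_pos a).le
  by_cases he : B' * u = B * u'
  · rw [if_pos he]
    refine le_trans (avm_le_of_le fun A _ => ?_) (le_add_of_nonneg_right hK0)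
    split_ifs
    · exact mul_le_of_le_one_left (sr_nonneg z B) (sr_le_one z A)
    · exact sr_nonneg z B
  · rw [if_neg he, zero_add]
    have h0 : B' * u - B * u' ≠ 0 := sub_ne_zero.2 he
    have h1 : (B' * u - B * u').natDegree ≤ b + nu :=
      (natDegree_sub_le _ _).trans (max_le (hB'.mul hu).2.le (hB.mul hu').2.le)
    have h2 := tS_le (z := z) h0 hz a
    have h3 : (2 : ℝ) ^ ((B' * u - B * u').natDegree / z) ≤ 2 ^ ((b + nu) / z) :=
      pow_le_pow_right₀ one_le_two (Nat.div_le_div_right h1)
    refine le_trans (avm_mono (G := fun A => if A ∣ B' * u - B * u' then sr z A else 0)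
      fun A _ => ?_) ?_
    · split_ifs
      · exact mul_le_of_le_one_right (sr_nonneg z A) (sr_le_one z B)
      · exact le_rfl
    · rw [avm_tS]
      exact div_le_div_of_nonneg_right (h2.trans (h3.trans hK)) (qR_pow_pos a).le

theorem quad {z a b nu : ℕ} {K : ℝ} (hz : 1 ≤ z) (hK : (2 : ℝ) ^ ((b + nu) / z) ≤ K) :
    (avm a fun A : k[X] => avm b fun B => avm nu fun u => avm b fun B' => avm nu fun u' =>
      if A ∣ B' * u - B * u' then sr z A * sr z B else 0) ≤
      K / qR k ^ (b + nu) + K / qR k ^ a := by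
  have h1 : (avm a fun A : k[X] => avm b fun B => avm nu fun u => avm b fun B' => avm nu fun u' =>
      if A ∣ B' * u - B * u' then sr z A * sr z B else 0) =
      avm nu fun u : k[X] => avm b fun B' => avm b fun B => avm nu fun u' => avm a fun A =>
        if A ∣ B' * u - B * u' then sr z A * sr z B else 0 := by
    rw [avm_comm, avm_congr fun B _ => avm_comm a nu _, avm_comm]
    refine avm_congr fun u _ => ?_
    rw [avm_congr fun B _ => avm_comm a b _, avm_comm]
    refine avm_congr fun B' _ => avm_congr fun B _ => ?_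
    rw [avm_comm]
  rw [h1]
  refine avm_le_of_le fun u hu => avm_le_of_le fun B' hB' => ?_
  refine le_trans (avm_mono fun B hB => avm_mono fun u' hu' => offd hz hK hB hB' hu hu') ?_
  simp only [avm_add, avm_const]
  exact add_le_add (diag hz hK hB' hu) le_rfl

end TwColl

open TwColl in
theorem stColl : StColl := by
  intro k _ _ _ h z a b nu dl K B₀ c₀ Ψ hh hz had hK hB₀ _ hΨ hc
  have hz1 : 1 ≤ z := by omega
  have hq := qR_pow_pos (k := k) a
  -- the bound for a fixed modulus
  have h1 : ∀ A : k[X], MD a A → (avm b fun B => if IsCoprime A B then sr z A * sr z B *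
      avm nu (fun u => avm (dl - a) fun x => Ψ A (A * x + od (c₀ A B * A * u))) else 0) ^ 2 ≤
      (avm b fun B => avm nu fun u => avm b fun B' => avm nu fun u' =>
        if A ∣ B' * u - B * u' then sr z A * sr z B else 0) * (qR k ^ a * B₀) := by
    intro A hA
    set w : k[X] → ℝ := fun B => if IsCoprime A B then sr z A * sr z B else 0 with hw
    set ρ : k[X] → k[X] → k[X] := fun B u => od (c₀ A B * A * u) %ₘ A with hρ
    set f : k[X] → ℝ := fun r => avm (dl - a) fun x => Ψ A (A * x + r) with hf
    have hdeg : ∀ B u, (ρ B u).degree < a := fun B u => by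
      have := degree_modByMonic_lt (od (c₀ A B * A * u)) hA.1
      rwa [degree_eq_natDegree hA.ne_zero, hA.2] at this
    have hw0 : ∀ B, 0 ≤ w B := fun B => by
      simp only [hw]
      split_ifs
      · exact mul_nonneg (sr_nonneg z A) (sr_nonneg z B)
      · exact le_rfl
    have e1 : (avm b fun B => if IsCoprime A B then sr z A * sr z B *
        avm nu (fun u => avm (dl - a) fun x => Ψ A (A * x + od (c₀ A B * A * u))) else 0) =
        avm b fun B => avm nu fun u => w B * f (ρ B u) := by
      refine avm_congr fun B hB => ?_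
      rw [avm_mul_left]
      simp only [hw]
      split_ifs with hco
      · congr 1
        exact avm_congr fun u hu => avm_mod hA had ((hc A B hA hB hco).2 u hu) (Ψ A)
      · rw [zero_mul]
    have e2 : avg a (fun r => f r ^ 2) ≤ B₀ := by
      refine le_trans ?_ (hΨ A hA)
      rw [avm_split hA had]
      exact avg_mono fun r _ => sq_avm_le
    have e3 : (avm b fun B => avm nu fun u => w B * (qR k ^ a * Pd b nu w ρ (ρ B u))) ≤
        (avm b fun B => avm nu fun u => avm b fun B' => avm nu fun u' =>
          if A ∣ B' * u - B * u' then sr z A * sr z B else 0) * qR k ^ a := by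
      rw [← avm_mul_right]
      refine avm_mono fun B hB => ?_
      rw [← avm_mul_right]
      refine avm_mono fun u _ => ?_
      rw [mul_left_comm, mul_comm (qR k ^ a)]
      refine mul_le_mul_of_nonneg_right ?_ hq.le
      unfold Pd
      rw [← avm_mul_left]
      refine avm_mono fun B' hB' => ?_
      rw [← avm_mul_left]
      refine avm_mono fun u' _ => ?_
      have h0 : 0 ≤ if A ∣ B' * u - B * u' then sr z A * sr z B else 0 := by
        split_ifs
        · exact mul_nonneg (sr_nonneg z A) (sr_nonneg z B)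
        · exact le_rfl
      by_cases he : ρ B' u' = ρ B u
      swap
      · rwa [if_neg he, mul_zero]
      rw [if_pos he]
      by_cases hco : IsCoprime A B
      swap
      · simp only [hw, if_neg hco, zero_mul]
        exact h0
      by_cases hco' : IsCoprime A B'
      swap
      · simp only [hw, if_neg hco', mul_zero]
        exact h0
      by_cases hs : sr z A = 0
      · simp only [hw, hs, zero_mul, ite_self, le_refl]
      obtain ⟨hsq, hr⟩ := sr_ne_zero_iff.1 hs
      have hd := dvd_of_class hA.1 hsq (hr.isCoprime hh hz) (hc A B hA hB hco).1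
        (hc A B' hA hB' hco').1 he
      simp only [hw, if_pos hco, if_pos hco', if_pos hd]
      exact mul_le_of_le_one_right (mul_nonneg (sr_nonneg z A) (sr_nonneg z B))
        (mul_le_one₀ (sr_le_one z A) (sr_nonneg z B') (sr_le_one z B'))
    have e4 : 0 ≤ avm b fun B => avm nu fun u => avm b fun B' => avm nu fun u' =>
        if A ∣ B' * u - B * u' then sr z A * sr z B else 0 := by
      refine avm_nonneg fun B _ => avm_nonneg fun u _ => avm_nonneg fun B' _ =>
        avm_nonneg fun u' _ => ?_
      split_ifs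
      · exact mul_nonneg (sr_nonneg z A) (sr_nonneg z B)
      · exact le_rfl
    rw [e1, ← mul_assoc]
    exact (cs b nu w hdeg f).trans (mul_le_mul e3 e2 (avg_nonneg fun r _ => sq_nonneg _)
      (mul_nonneg e4 hq.le))
  refine sq_avm_le.trans ((avm_mono h1).trans ?_)
  rw [avm_mul_right]
  refine (mul_le_mul_of_nonneg_right (quad hz1 hK) (mul_nonneg hq.le hB₀)).trans (le_of_eq ?_)
  have hq' := qR_pow_pos (k := k) (b + nu)
  field_simp
  ring

end Pool.Agent.Lib.MP_9227d9_nt.Mob
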