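import Pool.Agent.Lib.MP_9227d9_nt.TwA

/-! Sums over divisors, parametrisation of congruences, and reduction to means over triples. -/

namespace Pool.Agent.Lib.MP_9227d9_nt.Mob

open Polynomial

open scoped Classical

namespace TwPar

variable {k : Type} [Field k] [Fintype k]

/-- The monic polynomials of degree `j` in a residue class modulo a monic polynomial. -/
theorem key {B m₀ : k[X]} {b j : ℕ} (hB : MD b B) (hm : m₀.degree < b) (hj : b ≤ j)
    (Φ : k[X] → ℝ) :
    qR k ^ b * avm j (fun m => if B ∣ m - m₀ then Φ m else 0) =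
      avm (j - b) fun m₁ => Φ (m₀ + B * m₁) := by
  obtain ⟨e, rfl⟩ := Nat.exists_eq_add_of_le hj
  have hm' : m₀.degree < ((b + e : ℕ) : WithBot ℕ) :=
    hm.trans_le (by exact_mod_cast Nat.le_add_right b e)
  have hs : ∑ m ∈ MoD k (b + e), (if B ∣ m - m₀ then Φ m else 0) =
      ∑ m₁ ∈ MoD k e, Φ (m₀ + B * m₁) := by
    rw [← Finset.sum_filter]
    symm
    refine Finset.sum_bij (fun m₁ _ => m₀ + B * m₁) ?_ ?_ ?_ fun _ _ => rfl
    · intro m₁ h1
      refine Finset.mem_filter.2 ⟨mem_MoD.2 ?_, ⟨m₁, by ring⟩⟩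
      rw [add_comm m₀]
      exact (hB.mul (mem_MoD.1 h1)).add hm'
    · intro m₁ _ m₂ _ h
      exact mul_left_cancel₀ hB.ne_zero (add_left_cancel h)
    · intro m hm2
      obtain ⟨h1, c, hc⟩ := Finset.mem_filter.1 hm2
      have h2 : MD (b + e) (m + -m₀) := (mem_MoD.1 h1).add (by rwa [degree_neg])
      rw [← sub_eq_add_neg, hc] at h2
      have h3 : c.Monic := hB.1.of_mul_monic_left h2.1
      have h4 := hB.1.natDegree_mul h3
      rw [h2.2, hB.2] at h4
      exact ⟨c, mem_MoD.2 ⟨h3, by omega⟩, by linear_combination -hc⟩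
  rw [Nat.add_sub_cancel_left, avm_eq_MoD, avm_eq_MoD, hs, pow_add]
  have h1 := qR_pow_pos (k := k) b
  have h2 := qR_pow_pos (k := k) e
  field_simp

/-- A sum over divisors as a mean. -/
theorem sum_dvd (b : ℕ) (G : k[X]) (Ψ : k[X] → ℝ) :
    ∑ B ∈ (MoD k b).filter (fun B => B ∣ G), Ψ B =
      qR k ^ b * avm b fun B => if B ∣ G then Ψ B else 0 := by
  rw [Finset.sum_filter, sum_MoD]

/-- The general form of the reduction. -/
theorem red (hP : StPar1) (h : k[X]) (z : ℕ) {n a : ℕ} (b : ℕ) (φ : k[X] → ℝ)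
    (α β : k[X] → k[X] → ℝ) (ha : a ≤ n) :
    avm n (fun F => φ F * (∑ A ∈ (MoD k a).filter (fun A => A ∣ F), sr z A * α A F) *
      ∑ B ∈ (MoD k b).filter (fun B => B ∣ F + h), sr z B * β B (F + h)) =
      E3 h z n a b fun A B m => φ (A * m) * α A (A * m) * β B (A * m + h) := by
  have h1 := hP k n a (fun A F => φ F * (sr z A * α A F) *
    ∑ B ∈ (MoD k b).filter (fun B => B ∣ F + h), sr z B * β B (F + h)) ha
  simp only [← Finset.sum_mul, ← Finset.mul_sum] at h1
  rw [h1, E3, ← avm_mul_left]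
  refine avm_congr fun A _ => ?_
  rw [avm_comm b (n - a), ← avm_mul_left]
  refine avm_congr fun m _ => ?_
  rw [sum_dvd, mul_left_comm, ← avm_mul_left]
  congr 1
  refine avm_congr fun B _ => ?_
  split_ifs
  · ring
  · ring

end TwPar

theorem stPar1 : StPar1 := by
  intro k _ _ n a Φ ha
  simp only [Finset.sum_filter]
  rw [avm_sum, avm_eq_MoD a, Finset.sum_div]
  refine Finset.sum_congr rfl fun A hA => ?_
  have h1 := TwPar.key (m₀ := 0) (mem_MoD.1 hA) (by simp) ha (Φ A)
  simp only [sub_zero, zero_add] at h1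
  rw [← h1, mul_div_cancel_left₀ _ (qR_pow_pos a).ne']

theorem stPar2 : StPar2 := by
  intro k _ _ A B h b hB hc
  obtain ⟨u, v, huv⟩ := hc
  have hd : B.degree = b := by rw [degree_eq_natDegree hB.ne_zero, hB.2]
  have h0 := modByMonic_add_div (-h * u) B
  set m₀ := (-h * u) %ₘ B with hm₀
  set t := (-h * u) /ₘ B with ht
  have hm : m₀.degree < b := hd ▸ degree_modByMonic_lt _ hB.1
  have hc : B * (h * v - A * t) = A * m₀ + h := by
    linear_combination h * huv - A * h0
  refine ⟨m₀, h * v - A * t, hm, hc, fun m₁ => ?_, fun j Φ hj => ?_⟩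
  · have : A * (m₀ + B * m₁) + h = B * (A * m₁ + (h * v - A * t)) := by
      linear_combination -hc
    rw [this, mul_div_cancel_left₀ _ hB.ne_zero]
  · rw [← TwPar.key hB hm hj Φ]
    congr 1
    refine avm_congr fun m _ => if_congr ?_ rfl rfl
    have h1 : A * m + h = A * (m - m₀) + B * (h * v - A * t) := by
      linear_combination -hc
    rw [h1, dvd_add_left (dvd_mul_right _ _)]
    exact ⟨fun h2 => (IsCoprime.symm ⟨u, v, huv⟩).dvd_of_dvd_mul_left h2,
      fun h2 => h2.mul_left A⟩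

theorem stRed (hP : StPar1) : StRed := by
  intro k _ _ h z n a b φ ha
  have hA : ∀ (j : ℕ) (F : k[X]), aS z j F =
      ∑ A ∈ (MoD k j).filter (fun A => A ∣ F), sr z A * mu A := fun j F =>
    Finset.sum_congr rfl fun A _ => (sr_mul_mu z A).symm
  have hT : ∀ (j : ℕ) (F : k[X]), tS z j F =
      ∑ A ∈ (MoD k j).filter (fun A => A ∣ F), sr z A * 1 := fun j F =>
    Finset.sum_congr rfl fun A _ => (mul_one _).symm
  refine ⟨?_, ?_, ?_, ?_⟩
  · simp only [hA]
    exact TwPar.red hP h z b φ (fun A _ => mu A) (fun B _ => mu B) ha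
  · simp only [hA, bS]
    exact TwPar.red hP h z b φ (fun A _ => mu A) (fun B G => mu (G / B)) ha
  · simp only [bS]
    rw [TwPar.red hP h z b φ (fun A F => mu (F / A)) (fun B G => mu (G / B)) ha]
    refine E3_congr fun A B m hA _ _ _ _ _ => ?_
    rw [mul_div_cancel_left₀ _ hA.ne_zero]
  · simp only [hT]
    rw [TwPar.red hP h z b φ (fun _ _ => 1) (fun _ _ => 1) ha]
    simp only [mul_one]

end Pool.Agent.Lib.MP_9227d9_nt.Mob
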