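import Pool.Agent.Lib.MP_9227d9_nt.TwA

/-! Concentration of the mean weight over the triples. -/

namespace Pool.Agent.Lib.MP_9227d9_nt.Mob

open Polynomial

open scoped Classical

namespace TwIns

variable {k : Type} [Field k] [Fintype k]

omit [Fintype k] in
theorem c0_deg {A B m₀ c₀ h : k[X]} {a b τ : ℕ} (hA : MD a A) (hB : MD b B) (hm : m₀.degree < b)
    (hh : h.natDegree ≤ τ) (hc : B * c₀ = A * m₀ + h) : c₀.natDegree ≤ a + τ := by
  by_cases h0 : c₀ = 0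
  · simp [h0]
  have h1 : (B * c₀).natDegree = b + c₀.natDegree := by
    rw [natDegree_mul hB.1.ne_zero h0, hB.2]
  have h2 : m₀.natDegree ≤ b := natDegree_le_of_degree_le hm.le
  have h3 : (A * m₀).natDegree ≤ a + b := by
    have := natDegree_mul_le (p := A) (q := m₀)
    rw [hA.2] at this
    omega
  have h4 := natDegree_add_le (A * m₀) h
  rw [← hc, h1] at h4
  have h5 : max (A * m₀).natDegree h.natDegree ≤ a + b + τ := max_le (by omega) (by omega)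
  omega

/-- The choice of the constants of the variance bound. -/
theorem exists_theta (c : Tw k) {K : ℝ} (H : KB2 k c.U c.τ K) :
    ∃ θ : k[X] → ℝ, (∀ M, |θ M - 1| ≤ K / c.Q ^ 6) ∧ ∀ M : k[X], M ≠ 0 →
      M.natDegree + c.len ≤ c.dl →
      avm c.dl (fun x => Ph c.I c.len (θ M) M x ^ 2) ≤ K / qR k ^ c.len := by
  have hK := H.ten_le
  have hQ := c.two_le_Q
  have key : ∀ M : k[X], ∃ t : ℝ, |t - 1| ≤ K / c.Q ^ 6 ∧ (M ≠ 0 → M.natDegree + c.len ≤ c.dl →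
      avm c.dl (fun x => Ph c.I c.len t M x ^ 2) ≤ K / qR k ^ c.len) := by
    intro M
    by_cases hM : M ≠ 0 ∧ M.natDegree + c.len ≤ c.dl
    · obtain ⟨t, h1, h2⟩ := H.var (c.r + 1) c.I M c.len c.r_le c.I_ge c.I_le hM.1 hM.2
      refine ⟨t, ?_, fun _ _ => h2⟩
      rw [c.Q_pow]
      exact h1
    · refine ⟨1, ?_, fun h1 h2 => absurd ⟨h1, h2⟩ hM⟩
      rw [sub_self, abs_zero]
      positivity
  choose θ h1 h2 using key
  exact ⟨θ, h1, h2⟩

/-- The choice of the parametrisation. -/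
theorem exists_par (hP : StPar2) (c : Tw k) :
    ∃ c₀ : k[X] → k[X] → k[X], (∀ A B, MD c.a A → MD c.b B → IsCoprime A B →
      A ∣ B * c₀ A B - c.h ∧ (c₀ A B).natDegree ≤ c.a + c.τ ∧
        (Rough c.z A → IsCoprime (c₀ A B) A)) ∧
      ∀ Φ : k[X] → k[X] → ℝ, c.E (fun A B m => Φ A (c.Xc A B m)) =
        avm c.a fun A => avm c.b fun B => if IsCoprime A B then sr c.z A * sr c.z B *
          avm c.n1 (fun G => Φ A (A * G + c₀ A B)) else 0 := by
  have key : ∀ A B : k[X], ∃ m₀ c₀ : k[X], MD c.b B → IsCoprime A B →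
      (m₀.degree < c.b ∧ B * c₀ = A * m₀ + c.h ∧
      (∀ m₁, (A * (m₀ + B * m₁) + c.h) / B = A * m₁ + c₀) ∧
      ∀ (j : ℕ) (Φ : k[X] → ℝ), c.b ≤ j →
        qR k ^ c.b * avm j (fun m => if B ∣ A * m + c.h then Φ m else 0) =
          avm (j - c.b) fun m₁ => Φ (m₀ + B * m₁)) := by
    intro A B
    by_cases h : MD c.b B ∧ IsCoprime A B
    · obtain ⟨m₀, c₀, h1⟩ := hP k A B c.h c.b h.1 h.2
      exact ⟨m₀, c₀, fun _ _ => h1⟩
    · exact ⟨0, 0, fun h1 h2 => absurd ⟨h1, h2⟩ h⟩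
  choose m₀ c₀ hs using key
  refine ⟨c₀, fun A B hA hB hAB => ?_, fun Φ => ?_⟩
  · obtain ⟨h1, h2, -, -⟩ := hs A B hB hAB
    refine ⟨⟨m₀ A B, by rw [h2]; ring⟩, c0_deg hA hB h1 c.h_deg h2, fun hr => ?_⟩
    exact (c.c₀_spec hA hB hr h1 h2).1
  · unfold Tw.E E3
    rw [← avm_mul_left]
    refine avm_congr fun A _ => ?_
    rw [← avm_mul_left]
    refine avm_congr fun B hB => ?_
    by_cases hAB : IsCoprime A B
    · obtain ⟨-, -, h3, h4⟩ := hs A B hB hAB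
      have hb : c.b ≤ c.n - c.a := by
        have := c.n1_add
        omega
      rw [if_pos hAB, h4 (c.n - c.a) (fun m => sr c.z A * sr c.z B * Φ A (c.Xc A B m)) hb,
        ← avm_mul_left]
      refine avm_congr fun G _ => ?_
      unfold Tw.Xc
      rw [h3]
    · rw [if_neg hAB, avm_congr (G := fun _ => 0), avm_const, mul_zero]
      intro m _
      split_ifs with hd
      · by_cases hr : sr c.z B = 0
        · rw [hr, mul_zero, zero_mul]
        · exact absurd ((sr_ne_zero_iff.1 hr).2.isCoprime_of_dvd c.h_ne c.h_lt_z hd).1 hAB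
      · rfl

variable [CharP k 2]

/-- The deviation on the cells of a pair. -/
noncomputable def T (c : Tw k) (θ : k[X] → ℝ) (A c₀ R g : k[X]) : ℝ :=
  avm c.nu fun u => avm (c.dl - c.a) fun x =>
    Ph c.I c.len (θ (A * R * g)) (A * R * g) (A * x + od (c₀ * A * u))

theorem T_nonneg (c : Tw k) (θ : k[X] → ℝ) (A c₀ R g : k[X]) : 0 ≤ T c θ A c₀ R g :=
  avm_nonneg fun _ _ => avm_nonneg fun _ _ => Ph_nonneg _ _ _ _ _

/-- One pair. -/
theorem pair_le (hD : StD) (hC : StCell) (c : Tw k) {K : ℝ} (H : KB2 k c.U c.τ K)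
    {θ : k[X] → ℝ} (hθ : ∀ M, |θ M - 1| ≤ K / c.Q ^ 6) {A c₀ : k[X]} (hA : MD c.a A)
    (hs : sr c.z A ≠ 0) (hc : IsCoprime c₀ A) (hd : c₀.natDegree ≤ c.a + c.τ) :
    avm c.n1 (fun G => (avm c.nu fun u => c.Wm (od ((A * G + c₀) * A * u))) ^ 2) ≤
      (2 * K) ^ 2 / c.Q + 2 * K * √c.Q * (6 * K ^ 3 / c.Q ^ 3 +
        c.Q ^ 5 * ∑ R ∈ Mo k c.τ, ∑ g ∈ Mo k (3 * c.τ), T c θ A c₀ R g) := by
  have hK := H.ten_le
  have hQ := c.two_le_Q
  have h1 := c.nu_add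
  have h2 := c.nu_ge
  have h3 := c.L_eq
  have h4 := c.τ_le
  have h5 := c.τ_pos
  have hn : c.nu + 2 * c.L - 1 = c.n1 := by omega
  have hS : 0 ≤ ∑ R ∈ Mo k c.τ, ∑ g ∈ Mo k (3 * c.τ), T c θ A c₀ R g :=
    Finset.sum_nonneg fun _ _ => Finset.sum_nonneg fun _ _ => T_nonneg _ _ _ _ _ _
  have := hD k c.nu c.L c.τ (fun u G => c.Wm (od ((A * G + c₀) * A * u))) (2 * K)
    (6 * K ^ 3 / c.Q ^ 3 +
        c.Q ^ 5 * ∑ R ∈ Mo k c.τ, ∑ g ∈ Mo k (3 * c.τ), T c θ A c₀ R g)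
    (by omega) (by omega) (by omega) (by positivity) (by positivity)
    (fun u G hu hG => c.abs_Wm_le H (c.MD_line hA hd (hn ▸ hG) hu).2.2.1)
    (fun u G σ => by rw [(Tw.od_line A c₀ G u σ).1])
    (fun R G₀ hR hRd hG => by
      refine (hC k c K θ A c₀ R G₀ H hA hs hc hd hR hRd (hn ▸ hG) hθ).trans ?_
      refine add_le_add le_rfl (mul_le_mul_of_nonneg_left ?_ (by positivity))
      exact Finset.single_le_sum (f := fun R => ∑ g ∈ Mo k (3 * c.τ), T c θ A c₀ R g)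
        (fun _ _ => Finset.sum_nonneg fun _ _ => T_nonneg _ _ _ _ _ _)
        (mem_Mo.2 ⟨hR, hRd.le⟩))
  rw [hn] at this
  exact this

/-- One cell type, all pairs. -/
theorem cell_le (hCo : StColl) (c : Tw k) {K : ℝ} (H : KB2 k c.U c.τ K) {θ : k[X] → ℝ}
    (hθ : ∀ M : k[X], M ≠ 0 → M.natDegree + c.len ≤ c.dl →
      avm c.dl (fun x => Ph c.I c.len (θ M) M x ^ 2) ≤ K / qR k ^ c.len)
    {c₀ : k[X] → k[X] → k[X]} (hc : ∀ A B, MD c.a A → MD c.b B → IsCoprime A B →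
      A ∣ B * c₀ A B - c.h ∧ (c₀ A B).natDegree ≤ c.a + c.τ)
    {R g : k[X]} (hR : R ∈ Mo k c.τ) (hg : g ∈ Mo k (3 * c.τ)) :
    (avm c.a fun A => avm c.b fun B => if IsCoprime A B then sr c.z A * sr c.z B *
      T c θ A (c₀ A B) R g else 0) ≤ 2 * K / c.Q ^ 12 := by
  have hK := H.ten_le
  have hQ := c.two_le_Q
  have h1 := c.nu_add
  have h2 := c.nu_ge
  have h3 := c.L_eq
  have h4 := c.τ_le
  have h5 := c.τ_pos
  have h6 := c.dl_add
  have h7 := c.len_add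
  have h8 := c.len_ge
  have h9 := c.n1_add
  have hq := qR_pos (k := k)
  have hq1 := one_le_qR (k := k)
  obtain ⟨hR1, hR2⟩ := mem_Mo.1 hR
  obtain ⟨hg1, hg2⟩ := mem_Mo.1 hg
  have hX : MD c.n1 (X ^ c.n1 : k[X]) := ⟨monic_X_pow _, natDegree_X_pow _⟩
  have key := hCo k c.h c.z c.a c.b c.nu c.dl K (K / qR k ^ c.len) c₀
    (fun A x => Ph c.I c.len (θ (A * R * g)) (A * R * g) x) c.h_ne c.h_lt_z (by omega)
    (c.two_pow_le_K H (by omega)) (by positivity) (fun _ _ => Ph_nonneg _ _ _ _ _)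
    (fun A hA => by
      refine hθ _ ((hA.1.mul hR1).mul hg1).ne_zero ?_
      rw [(hA.1.mul hR1).natDegree_mul hg1, hA.1.natDegree_mul hR1, hA.2]
      omega)
    (fun A B hA hB hAB => ⟨(hc A B hA hB hAB).1,
      fun u hu => (c.MD_line hA (hc A B hA hB hAB).2 hX hu).2.2.2⟩)
  refine (le_abs_self _).trans (abs_le_of_sq_le_sq (key.trans ?_) (by positivity))
  have e1 : 1 / qR k ^ c.len ≤ 1 / c.Q ^ 24 := by
    rw [c.Q_pow]
    exact one_div_le_one_div_of_le (by positivity) (pow_le_pow_right₀ hq1 (by omega))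
  have e2 : qR k ^ c.a / qR k ^ (c.b + c.nu) * (1 / qR k ^ c.len) ≤ 1 / c.Q ^ 24 := by
    rw [c.Q_pow, div_mul_div_comm, mul_one, div_le_div_iff₀ (by positivity) (by positivity),
      one_mul, ← pow_add, ← pow_add]
    exact pow_le_pow_right₀ hq1 (by omega)
  calc K * (1 + qR k ^ c.a / qR k ^ (c.b + c.nu)) * (K / qR k ^ c.len)
      = K ^ 2 * (1 / qR k ^ c.len +
        qR k ^ c.a / qR k ^ (c.b + c.nu) * (1 / qR k ^ c.len)) := by ring
    _ ≤ K ^ 2 * (1 / c.Q ^ 24 + 1 / c.Q ^ 24) :=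
        mul_le_mul_of_nonneg_left (add_le_add e1 e2) (by positivity)
    _ = 2 * (K ^ 2 / c.Q ^ 24) := by ring
    _ ≤ 4 * (K ^ 2 / c.Q ^ 24) := mul_le_mul_of_nonneg_right (by norm_num) (by positivity)
    _ = (2 * K / c.Q ^ 12) ^ 2 := by ring

theorem final {K Q s : ℝ} (hK : 10 ≤ K) (hQ : 2 ≤ Q) (hs : s ≤ Q) :
    (2 * K) ^ 2 / Q + 2 * K * s * (6 * K ^ 3 / Q ^ 3) +
      2 * K * s * Q ^ 5 * (2 * Q * (2 * Q ^ 3 * (2 * K / Q ^ 12))) ≤ 15 * K ^ 4 / Q := by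
  have hQ0 : 0 < Q := by linarith
  have hK0 : 0 < K := by linarith
  have h1 : 2 * K * s * (6 * K ^ 3 / Q ^ 3) ≤ 6 * K ^ 4 / Q := by
    calc 2 * K * s * (6 * K ^ 3 / Q ^ 3) ≤ 2 * K * Q * (6 * K ^ 3 / Q ^ 3) := by gcongr
      _ = 6 * K ^ 4 / Q * (2 / Q) := by field_simp
      _ ≤ 6 * K ^ 4 / Q * 1 := by
        refine mul_le_mul_of_nonneg_left ?_ (by positivity)
        rw [div_le_one hQ0]
        exact hQ
      _ = _ := mul_one _
  have h2 : 2 * K * s * Q ^ 5 * (2 * Q * (2 * Q ^ 3 * (2 * K / Q ^ 12))) ≤ 8 * K ^ 2 / Q := by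
    calc 2 * K * s * Q ^ 5 * (2 * Q * (2 * Q ^ 3 * (2 * K / Q ^ 12)))
        ≤ 2 * K * Q * Q ^ 5 * (2 * Q * (2 * Q ^ 3 * (2 * K / Q ^ 12))) := by gcongr
      _ = 8 * K ^ 2 / Q * (2 / Q) := by field_simp; ring
      _ ≤ 8 * K ^ 2 / Q * 1 := by
        refine mul_le_mul_of_nonneg_left ?_ (by positivity)
        rw [div_le_one hQ0]
        exact hQ
      _ = _ := mul_one _
  have h3 : (2 * K) ^ 2 + 6 * K ^ 4 + 8 * K ^ 2 ≤ 15 * K ^ 4 := by
    have h4 : 100 ≤ K ^ 2 := by nlinarith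
    nlinarith
  calc _ ≤ (2 * K) ^ 2 / Q + 6 * K ^ 4 / Q + 8 * K ^ 2 / Q := by linarith
    _ = ((2 * K) ^ 2 + 6 * K ^ 4 + 8 * K ^ 2) / Q := by ring
    _ ≤ _ := div_le_div_of_nonneg_right h3 hQ0.le

end TwIns

theorem stIns (hD : StD) (hC : StCell) (hCo : StColl) (hP : StPar2) : StIns := by
  intro k _ _ _ c K H
  have hK := H.ten_le
  have hQ := c.two_le_Q
  obtain ⟨θ, hθ1, hθ2⟩ := TwIns.exists_theta c H
  obtain ⟨c₀, hc, hE⟩ := TwIns.exists_par hP c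
  have hs : √c.Q ≤ c.Q := by
    rw [Real.sqrt_le_left (by linarith)]
    nlinarith
  have hE' := hE fun A Y => (avm c.nu fun u => c.Wm (od (Y * A * u))) ^ 2
  refine (le_of_eq hE').trans ?_
  have hstep : (avm c.a fun A => avm c.b fun B => if IsCoprime A B then sr c.z A * sr c.z B *
      avm c.n1 (fun G => (avm c.nu fun u => c.Wm (od ((A * G + c₀ A B) * A * u))) ^ 2) else 0) ≤
      avm c.a fun A => avm c.b fun B =>
        ((2 * K) ^ 2 / c.Q + 2 * K * √c.Q * (6 * K ^ 3 / c.Q ^ 3)) + 2 * K * √c.Q * c.Q ^ 5 *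
          ∑ R ∈ Mo k c.τ, ∑ g ∈ Mo k (3 * c.τ), if IsCoprime A B then sr c.z A * sr c.z B *
            TwIns.T c θ A (c₀ A B) R g else 0 := by
    refine avm_mono fun A hA => avm_mono fun B hB => ?_
    have hC0 : 0 ≤ (2 * K) ^ 2 / c.Q + 2 * K * √c.Q * (6 * K ^ 3 / c.Q ^ 3) := by positivity
    by_cases hAB : IsCoprime A B
    · simp only [if_pos hAB]
      by_cases hsA : sr c.z A = 0
      · simp only [hsA, zero_mul, Finset.sum_const_zero, mul_zero, add_zero]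
        exact hC0
      obtain ⟨-, h2, h3⟩ := hc A B hA hB hAB
      have h4 := TwIns.pair_le hD hC c H hθ1 hA hsA (h3 (sr_ne_zero_iff.1 hsA).2) h2
      have h5 : 0 ≤ sr c.z A * sr c.z B := mul_nonneg (sr_nonneg _ _) (sr_nonneg _ _)
      have h6 : sr c.z A * sr c.z B ≤ 1 :=
        mul_le_one₀ (sr_le_one _ _) (sr_nonneg _ _) (sr_le_one _ _)
      simp only [← Finset.mul_sum]
      refine (mul_le_mul_of_nonneg_left h4 h5).trans ?_
      have h7 := mul_le_of_le_one_left hC0 h6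
      nlinarith
    · simp only [if_neg hAB, Finset.sum_const_zero, mul_zero, add_zero]
      exact hC0
  refine hstep.trans ?_
  simp only [avm_add, avm_const, avm_mul_left, avm_sum]
  refine le_trans ?_ (TwIns.final hK hQ hs)
  refine add_le_add le_rfl (mul_le_mul_of_nonneg_left ?_ (by positivity))
  have hM1 : ((Mo k c.τ).card : ℝ) ≤ 2 * c.Q := card_Mo_le _
  have hM3 : ((Mo k (3 * c.τ)).card : ℝ) ≤ 2 * c.Q ^ 3 := by
    rw [c.Q_pow]
    exact card_Mo_le _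
  calc _ ≤ ∑ _R ∈ Mo k c.τ, ∑ _g ∈ Mo k (3 * c.τ), 2 * K / c.Q ^ 12 :=
        Finset.sum_le_sum fun R hR => Finset.sum_le_sum fun g hg =>
          TwIns.cell_le hCo c H hθ2
            (fun A B hA hB hAB => ⟨(hc A B hA hB hAB).1, (hc A B hA hB hAB).2.1⟩) hR hg
    _ = (Mo k c.τ).card * ((Mo k (3 * c.τ)).card * (2 * K / c.Q ^ 12)) := by
        simp only [Finset.sum_const, nsmul_eq_mul]
    _ ≤ _ := by gcongr

end Pool.Agent.Lib.MP_9227d9_nt.Mob
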