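import Pool.Agent.Lib.MP_9227d9_nt.TwA

/-! Insertion of the weight and the twisted mean of type I. -/

namespace Pool.Agent.Lib.MP_9227d9_nt.Mob

open Polynomial

open scoped Classical

namespace TwUse

variable {k : Type} [Field k] [Fintype k]

theorem SS_zero (s : ℕ) : SS k 0 s = {∅} := by
  ext S
  rw [mem_SS, Finset.mem_singleton]
  constructor
  · rintro ⟨h1, h2⟩
    refine Finset.eq_empty_of_forall_notMem fun p hp => ?_
    have h3 := (h1 p hp).1.natDegree_pos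
    have h4 : p.natDegree ≤ ∑ p ∈ S, p.natDegree :=
      Finset.single_le_sum (f := fun p : k[X] => p.natDegree) (fun _ _ => Nat.zero_le _) hp
    omega
  · rintro rfl
    simp

theorem wm_zero (s : ℕ) (l : k[X]) : wm 0 s l = 1 := by
  unfold wm
  rw [SS_zero]
  simp

theorem f0_zero (s : ℕ) (Z : k[X]) : f0 0 s Z = 1 := by
  unfold f0
  rw [SS_zero, Finset.filter_singleton, if_pos (by simp)]
  simp

theorem sqf_Xc (c : Tw k) {A B m : k[X]} (hB : MD c.b B) (hd : B ∣ A * m + c.h)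
    (hA : sr c.z A ≠ 0) (hX : mu (c.Xc A B m) ≠ 0) : Squarefree (c.Xc A B m * A) := by
  obtain ⟨h1, h2⟩ := sr_ne_zero_iff.1 hA
  have h3 : B * c.Xc A B m = A * m + c.h := EuclideanDomain.mul_div_cancel' hB.ne_zero hd
  have h4 : IsCoprime A c.h := h2.isCoprime c.h_ne c.toPar.h_lt_z
  have h5 : IsCoprime A (B * c.Xc A B m) := by
    rw [h3, add_comm]
    exact h4.add_mul_left_right m
  exact squarefree_mul_iff.2 ⟨h5.of_mul_right_right.symm.isRelPrime, mu_ne_zero_iff.1 hX, h1⟩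

theorem avm_Wm [CharP k 2] (hM4 : StM4) (c : Tw k) {A B m : k[X]}
    (hs : Squarefree (c.Xc A B m * A)) :
    (avm c.nu fun u => c.Wm (c.l A B m u)) = (avm c.nu fun u => c.W (c.l A B m u)) - 1 := by
  have h1 := c.nu_ge
  have h2 := c.toPar.τ_le
  have h3 := hM4 k (4 * c.τ) 0 (12 * c.τ) c.nu (c.Xc A B m * A) 1 hs squarefree_one
    (Nat.zero_le _) (by omega)
  rw [f0_zero] at h3
  have h4 : (avm c.nu fun u => wm (4 * c.τ) (12 * c.τ) (c.l A B m u)) = 1 := by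
    rw [← h3]
    refine avm_congr fun u _ => ?_
    rw [wm_zero, mul_one]
    rfl
  rw [← h4, ← avm_sub]
  rfl

theorem E_abs_le [CharP k 2] (hI : StIns) (c : Tw k) {K : ℝ} (H : KB2 k c.U c.τ K) :
    c.E (fun A B m => |avm c.nu fun u => c.Wm (c.l A B m u)|) ≤ 4 * K ^ 2 / √c.Q := by
  have hQ : 0 < c.Q := lt_of_lt_of_le two_pos c.toPar.two_le_Q
  have hab : c.a + c.b ≤ c.n := le_trans (Nat.le_add_right _ _) c.ab_le
  have h1 := sq_E3_le (Φ := fun A B m => |avm c.nu fun u => c.Wm (c.l A B m u)|) c.h_ne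
    c.toPar.h_lt_z hab
  have h2 := hI k c K H
  simp only [sq_abs] at h1
  have h3 : (4 * K ^ 2 / √c.Q) ^ 2 = 16 * K ^ 4 / c.Q := by
    rw [div_pow, Real.sq_sqrt hQ.le]
    ring
  have h4 : 15 * K ^ 4 / c.Q ≤ 16 * K ^ 4 / c.Q :=
    div_le_div_of_nonneg_right (by nlinarith [pow_two_nonneg (K ^ 2)]) hQ.le
  have h5 : c.E (fun A B m => |avm c.nu fun u => c.Wm (c.l A B m u)|) ^ 2 ≤
      (4 * K ^ 2 / √c.Q) ^ 2 := by
    rw [h3]
    exact h1.trans (h2.trans h4)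
  exact (le_abs_self _).trans (abs_le_of_sq_le_sq h5 (by positivity))

/-- The weighted mean for one pair of moduli. -/
theorem pair_le [CharP k 2] (hP : StPar2) (hO : StOn) (c : Tw k) {K sv : ℝ}
    (H : KB2 k c.U c.τ K) (hL : LineOK k c.U c.τ sv) (hsv : 0 ≤ sv) {A B : k[X]}
    (hA : MD c.a A) (hB : MD c.b B) :
    |qR k ^ c.b * avm (c.n - c.a) fun m => if B ∣ A * m + c.h then sr c.z A * sr c.z B *
      (c.ν (A * m) * mu A * mu (c.Xc A B m) * avm c.nu fun u => c.W (c.l A B m u)) else 0| ≤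
      K ^ 2 * K * (sv + K / c.Q) := by
  have hQ : 0 < c.Q := lt_of_lt_of_le two_pos c.toPar.two_le_Q
  have hK : 0 < K := lt_of_lt_of_le (by norm_num) H.ten_le
  have hab := c.ab_le
  by_cases h0 : sr c.z A ≠ 0 ∧ sr c.z B ≠ 0 ∧ IsCoprime A B
  swap
  · rw [avm_congr (G := fun _ => 0), avm_const, mul_zero, abs_zero]
    · positivity
    · intro m _
      split_ifs with hd
      · by_cases h1 : sr c.z A = 0
        · rw [h1, zero_mul, zero_mul]
        by_cases h2 : sr c.z B = 0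
        · rw [h2, mul_zero, zero_mul]
        exact absurd ⟨h1, h2,
          ((sr_ne_zero_iff.1 h2).2.isCoprime_of_dvd c.h_ne c.toPar.h_lt_z hd).1⟩ h0
      · rfl
  obtain ⟨hsA, hsB, hc⟩ := h0
  obtain ⟨hq, hr⟩ := sr_ne_zero_iff.1 hsA
  obtain ⟨m₀, c₀, hm₀, hc₀, hX, hav⟩ := hP k A B c.h c.b hB hc
  obtain ⟨hcop, hdeg⟩ := c.c₀_spec hA hB hr hm₀ hc₀
  have hF : ∀ m, MD c.n1 m → MD c.n (A * m₀ + A * B * m) := by
    intro m hm
    have h1 := (hA.mul hB).mul hm
    rw [c.n1_add] at h1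
    rw [add_comm]
    exact h1.add (degree_mul_lt hm₀ (by rw [hA.2]; omega))
  have hper : PerS c.z (2 * c.κ) c.n1 (K ^ 2) fun m => c.ν (A * m₀ + A * B * m) :=
    (c.toPar.perS H (A * m₀) (A * B) hF).mono (by omega)
  have hon := hO k c K (K ^ 2) sv A c₀ _ H hL hsv hA hq hcop hdeg hper
  rw [hav (c.n - c.a) (fun m => sr c.z A * sr c.z B *
    (c.ν (A * m) * mu A * mu (c.Xc A B m) * avm c.nu fun u => c.W (c.l A B m u))) (by omega)]
  have he : (avm (c.n - c.a - c.b) fun m₁ => sr c.z A * sr c.z B *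
      (c.ν (A * (m₀ + B * m₁)) * mu A * mu (c.Xc A B (m₀ + B * m₁)) *
        avm c.nu fun u => c.W (c.l A B (m₀ + B * m₁) u))) =
      sr c.z A * sr c.z B * mu A * avm c.nu fun u => avm c.n1 fun m =>
        c.ν (A * m₀ + A * B * m) * mu (A * m + c₀) * c.W (od ((A * m + c₀) * A * u)) := by
    rw [avm_comm, ← avm_mul_left]
    refine avm_congr fun m _ => ?_
    have h1 : c.Xc A B (m₀ + B * m) = A * m + c₀ := hX m
    have h2 : A * (m₀ + B * m) = A * m₀ + A * B * m := by ring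
    unfold Tw.l
    rw [avm_mul_left, h1, h2]
    ring
  rw [he, abs_mul]
  have h3 : |sr c.z A * sr c.z B * mu A| ≤ 1 := by
    rw [abs_mul, abs_mul, abs_of_nonneg (sr_nonneg _ _), abs_of_nonneg (sr_nonneg _ _)]
    exact mul_le_one₀ (mul_le_one₀ (sr_le_one _ _) (sr_nonneg _ _) (sr_le_one _ _))
      (abs_nonneg _) (abs_mu_le _)
  exact (mul_le_of_le_one_left (abs_nonneg _) h3).trans hon

end TwUse

theorem stUse (hI : StIns) (hM4 : StM4) : StUse := by
  intro k _ _ _ c K C₀ γ H hC hγ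
  have h1 := TwUse.E_abs_le hI c H
  unfold Tw.E at h1 ⊢
  rw [← E3_sub]
  refine abs_E3_le.trans ((E3_mono (Ψ := fun A B m =>
    C₀ * |avm c.nu fun u => c.Wm (c.l A B m u)|) ?_).trans ?_)
  · intro A B m hA hB hm hd hsA _
    by_cases hX : mu (c.Xc A B m) = 0
    · rw [hX, mul_zero, zero_mul, sub_zero, abs_zero]
      positivity
    rw [TwUse.avm_Wm hM4 c (TwUse.sqf_Xc c hB hd hsA hX), ← mul_one_sub, abs_mul, abs_mul,
      abs_sub_comm]
    refine mul_le_mul_of_nonneg_right ?_ (abs_nonneg _)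
    exact (mul_le_of_le_one_right (abs_nonneg _) (abs_mu_le _)).trans (hγ A B m hA hB hm)
  · rw [E3_mul_left]
    refine (mul_le_mul_of_nonneg_left h1 hC).trans (le_of_eq ?_)
    ring

theorem stA2' (hR : StRed) (hP : StPar2) (hU : StUse) (hO : StOn) : StA2' := by
  intro k _ _ _ c K sv H hL hsv
  have hQ2 : 2 ≤ c.Q := c.toPar.two_le_Q
  have hQ : 0 < c.Q := lt_of_lt_of_le two_pos hQ2
  have hK : 10 ≤ K := H.ten_le
  have hab := c.ab_le
  have h1 : c.T2 c.a c.b = c.E fun A B m => c.ν (A * m) * mu A * mu (c.Xc A B m) :=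
    (hR k c.h c.z c.n c.a c.b c.ν (by omega)).2.1
  have h2 := hU k c K (K ^ 2) (fun A _ m => c.ν (A * m) * mu A) H (by positivity) (by
    intro A B m hA _ hm
    have h3 := hA.mul hm
    rw [Nat.add_sub_cancel' (by omega)] at h3
    rw [abs_mul, abs_of_nonneg (a := c.ν (A * m)) (nu2_nonneg _ _ _ _)]
    exact (mul_le_of_le_one_right (nu2_nonneg _ _ _ _) (abs_mu_le _)).trans (c.toPar.ν_le H h3))
  have h3 : |c.E fun A B m => c.ν (A * m) * mu A * mu (c.Xc A B m) *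
      avm c.nu fun u => c.W (c.l A B m u)| ≤ K ^ 2 * K * (sv + K / c.Q) := by
    unfold Tw.E E3
    rw [← avm_mul_left]
    refine abs_avm_le_of_le fun A hA => ?_
    rw [← avm_mul_left]
    exact abs_avm_le_of_le fun B hB => TwUse.pair_le hP hO c H hL hsv hA hB
  have h4 : 1 / c.Q ≤ 1 / √c.Q := by
    refine one_div_le_one_div_of_le (Real.sqrt_pos.2 hQ) ?_
    rw [Real.sqrt_le_left hQ.le]
    nlinarith
  have h5 := abs_sub_abs_le_abs_sub
    (c.E fun A B m => c.ν (A * m) * mu A * mu (c.Xc A B m))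
    (c.E fun A B m => c.ν (A * m) * mu A * mu (c.Xc A B m) * avm c.nu fun u => c.W (c.l A B m u))
  have h6 : 4 * K ^ 2 * K ^ 2 / √c.Q = 4 * K ^ 4 * (1 / √c.Q) := by ring
  have h7 : K ^ 2 * K * (sv + K / c.Q) = K ^ 3 * sv + K ^ 4 * (1 / c.Q) := by ring
  have h8 : K ^ 4 * (1 / c.Q) ≤ K ^ 4 * (1 / √c.Q) :=
    mul_le_mul_of_nonneg_left h4 (by positivity)
  have h9 : K ^ 3 * sv ≤ 5 * K ^ 4 * sv := by
    refine mul_le_mul_of_nonneg_right ?_ hsv
    have : 0 < K ^ 3 := by positivity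
    nlinarith
  rw [h1]
  rw [h6] at h2
  rw [h7] at h3
  linarith

end Pool.Agent.Lib.MP_9227d9_nt.Mob
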