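import Pool.Agent.Lib.MP_9227d9_nt.MobOd

/-! The discriminant modulo eight, computed in the ring of Witt vectors. -/

namespace Pool.Agent.Lib.MP_9227d9_nt.Mob

open Polynomial

open scoped Classical

namespace A2

variable {O L : Type} [CommRing O] [Field L]

/-- A local ring with uniformiser two and residue map `r`. -/
structure Loc (r : O →+* L) : Prop where
  two : r 2 = 0
  ker : ∀ x, r x = 0 → ∃ y, x = 2 * y
  unit : ∀ x, r x ≠ 0 → IsUnit x
  ne : (2 : O) ≠ 0

/-- `x / y` is `1 + 4 e` modulo eight. -/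
def V (r : O →+* L) (x y : O) (e : L) : Prop := ∃ w, x = y * (1 + 4 * w) ∧ r w = e

variable {r : O →+* L}

theorem Loc.four (h : Loc r) : r 4 = 0 := by
  rw [show (4 : O) = 2 * 2 by norm_num, map_mul, h.two, zero_mul]

theorem V.mul (h : Loc r) {x y x' y' : O} {e e' : L} (h1 : V r x y e) (h2 : V r x' y' e') :
    V r (x * x') (y * y') (e + e') := by
  obtain ⟨w, rfl, rfl⟩ := h1
  obtain ⟨w', rfl, rfl⟩ := h2
  exact ⟨w + w' + 4 * (w * w'), by ring, by simp [h.four]⟩

theorem V.trans (h : Loc r) {x y z : O} {e e' : L} (h1 : V r x y e) (h2 : V r y z e') :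
    V r x z (e + e') := by
  obtain ⟨w, rfl, rfl⟩ := h1
  obtain ⟨w', rfl, rfl⟩ := h2
  exact ⟨w + w' + 4 * (w * w'), by ring, by simp [h.four]⟩

theorem V.refl (x : O) : V r x x 0 := ⟨0, by ring, map_zero r⟩

theorem V.prod (h : Loc r) {ι : Type} (s : Finset ι) {x y : ι → O} {e : ι → L}
    (H : ∀ i, V r (x i) (y i) (e i)) : V r (∏ i ∈ s, x i) (∏ i ∈ s, y i) (∑ i ∈ s, e i) := by
  induction s using Finset.induction_on with
  | empty => simpa using V.refl 1
  | insert i s hi ih =>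
    rw [Finset.prod_insert hi, Finset.prod_insert hi, Finset.sum_insert hi]
    exact (H i).mul h ih

theorem V.of_add (h : Loc r) {y w : O} (hy : r y ≠ 0) : V r (y + 4 * w) y (r w / r y) := by
  obtain ⟨u, hu⟩ := (h.unit y hy).exists_right_inv
  refine ⟨u * w, by linear_combination (-4 * w) * hu, ?_⟩
  have := congrArg r hu
  rw [map_mul, map_one] at this
  rw [map_mul, eq_div_iff hy]
  linear_combination r w * this

theorem V.unique [IsDomain O] (h : Loc r) {x y : O} {e e' : L} (hy : y ≠ 0) (h1 : V r x y e)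
    (h2 : V r x y e') : e = e' := by
  obtain ⟨w, rfl, rfl⟩ := h1
  obtain ⟨w', h2, rfl⟩ := h2
  have h3 := mul_left_cancel₀ hy h2
  have h4 : (2 : O) * (2 * w) = 2 * (2 * w') := by linear_combination h3
  rw [mul_left_cancel₀ h.ne (mul_left_cancel₀ h.ne h4)]

theorem eval_der {R ι : Type} [CommRing R] [Fintype ι] [DecidableEq ι] (a : ι → R) (i : ι) :
    (derivative (∏ k, (X - C (a k)))).eval (a i) = ∏ k ∈ Finset.univ.erase i, (a i - a k) := by
  have := Lagrange.eval_nodal_derivative_eval_node_eq (s := Finset.univ) (v := a)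
    (Finset.mem_univ i)
  rwa [Lagrange.eval_nodal, Lagrange.nodal_eq] at this

/-- The sign in the formula for the discriminant. -/
def eta (n : ℕ) : ℤ := ∏ i : Fin n, ∏ _j ∈ Finset.Ioi i, (-1 : ℤ)

theorem eta_odd (n : ℕ) : Odd (eta n) := by
  refine Finset.prod_induction _ Odd (fun _ _ => Odd.mul) odd_one fun i _ => ?_
  exact Finset.prod_induction _ Odd (fun _ _ => Odd.mul) odd_one fun _ _ => odd_neg_one

theorem disc {n : ℕ} (a : Fin n → O) : (Matrix.vandermonde a).det ^ 2 =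
    (eta n : O) * ∏ i, (derivative (∏ k, (X - C (a k)))).eval (a i) := by
  have h1 := Finset.prod_prod_Ioi_mul_eq_prod_prod_off_diag fun j i => a i - a j
  have h2 : ∀ i : Fin n, (derivative (∏ k, (X - C (a k)))).eval (a i)
      = ∏ j ∈ ({i}ᶜ : Finset (Fin n)), (a i - a j) := fun i => by
    rw [eval_der, Finset.compl_singleton]
  simp only [h2]
  rw [← h1, Matrix.det_vandermonde, eta, Int.cast_prod, ← Finset.prod_mul_distrib,
    ← Finset.prod_pow]
  refine Finset.prod_congr rfl fun i _ => ?_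
  rw [Int.cast_prod, ← Finset.prod_mul_distrib, ← Finset.prod_pow]
  refine Finset.prod_congr rfl fun j _ => ?_
  push_cast
  ring

theorem der_taylor {R : Type} [CommRing R] (b : R) (G : R[X]) :
    derivative (taylor b G) = taylor b (derivative G) := by
  simp [taylor_apply, derivative_comp]

theorem taylor_prod {R ι : Type} [CommRing R] [Fintype ι] (a : ι → R) (b : R) :
    taylor b (∏ k, (X - C (a k))) = ∏ k, (X - C (a k - b)) := by
  rw [taylor_apply, Polynomial.prod_comp]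
  refine Finset.prod_congr rfl fun k _ => ?_
  simp only [sub_comp, X_comp, C_comp, map_sub]
  ring

theorem dec {T : O[X]} {P Q : O} (h1 : T.coeff 1 = 2 * Q * T.coeff 3)
    (h2 : T.coeff 2 = P * T.coeff 3) :
    ∃ A B, derivative T = (X ^ 2 + 2 * (C P * X + C Q)) * A + 4 * B := by
  have h3 : X ^ 4 ∣ derivative T - (C (T.coeff 1) + C (T.coeff 2 * 2) * X +
      C (T.coeff 3 * 3) * X ^ 2 + C (T.coeff 4 * 4) * X ^ 3) := by
    rw [X_pow_dvd_iff]
    intro d hd
    simp only [coeff_sub, coeff_add, coeff_derivative, coeff_C_mul, coeff_X_pow, coeff_C, coeff_X]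
    interval_cases d <;> norm_num
  obtain ⟨R, hR⟩ := h3
  refine ⟨3 * C (T.coeff 3) + (X ^ 2 - 2 * (C P * X + C Q)) * R,
    -(C (T.coeff 3) * (C P * X + C Q)) + C (T.coeff 4) * X ^ 3 + (C P * X + C Q) ^ 2 * R, ?_⟩
  rw [h1, h2] at hR
  simp only [map_mul, map_ofNat] at hR
  linear_combination hR

theorem cop {S : Type} [CommRing S] (h4 : (4 : S) = 0) {x y : S} (h : IsCoprime x y) (w w' : S) :
    IsCoprime (x + 2 * w) (y + 2 * w') := by
  obtain ⟨u, v, huv⟩ := h
  refine ⟨(1 - 2 * (u * w + v * w')) * u, (1 - 2 * (u * w + v * w')) * v, ?_⟩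
  linear_combination (1 - 2 * (u * w + v * w')) * huv - (u * w + v * w') ^ 2 * h4

/-- The quadratic factor attached to a critical point. -/
noncomputable def HH (b P Q : O) : O[X] := (X - C b) ^ 2 + 2 * (C P * (X - C b) + C Q)

theorem HH_eq (b P Q : O) : taylor (-b) (X ^ 2 + 2 * (C P * X + C Q)) = HH b P Q := by
  simp [taylor_apply, HH, sub_eq_add_neg]

theorem HH_monic [Nontrivial O] (b P Q : O) : (HH b P Q).Monic ∧ (HH b P Q).natDegree = 2 := by
  have e : (X ^ 2 + 2 * (C P * X + C Q) : O[X]) = X ^ 2 + C (2 * P) * X + C (2 * Q) := by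
    simp only [map_mul, map_ofNat]
    ring
  rw [← HH_eq, e]
  constructor
  · rw [Monic, leadingCoeff_taylor]
    change Monic _
    monicity!
  · rw [natDegree_taylor]
    compute_degree!

theorem cong4 [IsDomain O] (h : Loc r) {m : ℕ} {G : O[X]} (hG : G.Monic)
    (hd : G.natDegree = 2 * m + 1) (b P Q : Fin m → O)
    (hb : Function.Injective fun j => r (b j))
    (h1 : ∀ j, (taylor (b j) G).coeff 1 = 2 * Q j * (taylor (b j) G).coeff 3)
    (h2 : ∀ j, (taylor (b j) G).coeff 2 = P j * (taylor (b j) G).coeff 3) :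
    ∃ Y : O[X], derivative G = C ((2 * m + 1 : ℕ) : O) * ∏ j, HH (b j) (P j) (Q j) + 4 * Y ∧
      Y.degree < (2 * m : ℕ) := by
  obtain ⟨W, hW⟩ : ∃ W, W = ∏ j, HH (b j) (P j) (Q j) := ⟨_, rfl⟩
  have hWm : W.Monic := hW ▸ monic_prod_of_monic _ _ fun j _ => (HH_monic _ _ _).1
  have hWd : W.natDegree = 2 * m := by
    rw [hW, natDegree_prod_of_monic _ _ fun j _ => (HH_monic _ _ _).1]
    simp [(HH_monic _ _ _).2, mul_comm]
  obtain ⟨D, hD⟩ : ∃ D, D = derivative G - C ((2 * m + 1 : ℕ) : O) * W := ⟨_, rfl⟩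
  have hDd : D.degree < (2 * m : ℕ) := by
    rw [degree_lt_iff_coeff_zero]
    intro k hk
    rw [hD, coeff_sub, coeff_derivative, coeff_C_mul]
    rcases hk.eq_or_lt with rfl | hk
    · have e1 : G.coeff (2 * m + 1) = 1 := hd ▸ hG.coeff_natDegree
      have e2 : W.coeff (2 * m) = 1 := hWd ▸ hWm.coeff_natDegree
      rw [e1, e2]
      push_cast
      ring
    · rw [coeff_eq_zero_of_natDegree_lt (by omega), coeff_eq_zero_of_natDegree_lt (by omega)]
      simp
  let π := Ideal.Quotient.mk (Ideal.span {(4 : O)})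
  have h4 : (4 : (O ⧸ Ideal.span {(4 : O)})[X]) = 0 := by
    have : π 4 = 0 := Ideal.Quotient.eq_zero_iff_mem.2 (Ideal.mem_span_singleton_self _)
    rw [← map_ofNat C, ← map_ofNat π, this, map_zero]
  have hdv : W.map π ∣ D.map π := by
    rw [hW, Polynomial.map_prod]
    refine Fintype.prod_dvd_of_coprime (fun j k hjk => ?_) fun j => ?_
    · have hu : IsUnit (b j - b k) := h.unit _ (by
        rw [map_sub, sub_ne_zero]
        exact fun e => hjk (hb e))
      have := ((isCoprime_X_sub_C_of_isUnit_sub hu).pow (m := 2) (n := 2)).map (mapRingHom π)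
      have h5 := cop h4 this ((C (P j) * (X - C (b j)) + C (Q j)).map π)
        ((C (P k) * (X - C (b k)) + C (Q k)).map π)
      simpa only [Function.onFun, HH, Polynomial.map_add, Polynomial.map_mul, Polynomial.map_ofNat,
        coe_mapRingHom] using h5
    · obtain ⟨A, B, hAB⟩ := dec (h1 j) (h2 j)
      have e1 : derivative G = HH (b j) (P j) (Q j) * taylor (-b j) A + 4 * taylor (-b j) B := by
        have := congrArg (taylor (-b j)) hAB
        rw [der_taylor, taylor_taylor, neg_add_cancel, taylor_zero, map_add, taylor_mul, HH_eq,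
          taylor_mul, ← map_ofNat C 4, taylor_C, map_ofNat] at this
        exact this
      rw [hD, e1, Polynomial.map_sub, Polynomial.map_add, Polynomial.map_mul, Polynomial.map_mul,
        Polynomial.map_ofNat, h4, zero_mul, add_zero, Polynomial.map_mul]
      refine dvd_sub (dvd_mul_right _ _) (Dvd.dvd.mul_left (Polynomial.map_dvd _ ?_) _)
      rw [hW]
      exact Finset.dvd_prod_of_mem _ (Finset.mem_univ j)
  have hD0 : D.map π = 0 := by
    have e1 : D %ₘ W = D := (modByMonic_eq_self_iff hWm).2 (by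
      rw [degree_eq_natDegree hWm.ne_zero, hWd]; exact hDd)
    rw [← e1, map_modByMonic _ hWm, modByMonic_eq_zero_iff_dvd (hWm.map _)]
    exact hdv
  obtain ⟨Y, hY⟩ : C (4 : O) ∣ D := (C_dvd_iff_dvd_coeff _ _).2 fun k => by
    have := congrArg (fun p => coeff p k) hD0
    simp only [coeff_map, coeff_zero] at this
    exact Ideal.mem_span_singleton.1 (Ideal.Quotient.eq_zero_iff_mem.1 this)
  have h40 : (4 : O) ≠ 0 := by
    rw [show (4 : O) = 2 * 2 by norm_num]
    exact mul_ne_zero h.ne h.ne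
  refine ⟨Y, ?_, by rwa [hY, degree_C_mul h40] at hDd⟩
  rw [← hW, ← map_ofNat C 4, ← hY, hD]
  ring

theorem resid {ι κ : Type} [Fintype ι] [Fintype κ] [CharP L 2] {α : ι → L} {β : κ → L} {F : L[X]}
    (hα : Function.Injective α) (hβ : Function.Injective β) (hF : F = ∏ i, (X - C (α i)))
    (hF' : derivative F = (∏ j, (X - C (β j))) ^ 2) (j : κ) :
    (taylor (β j) F).coeff 0 ≠ 0 ∧ (taylor (β j) F).coeff 1 = 0 ∧
      (taylor (β j) F).coeff 3 ≠ 0 := by
  have e0 : (∏ k, (X - C (β k))).eval (β j) = 0 := by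
    rw [eval_prod]
    exact Finset.prod_eq_zero (Finset.mem_univ j) (by simp)
  have e1 : (derivative F).eval (β j) = 0 := by rw [hF', eval_pow, e0]; simp
  refine ⟨fun h0 => ?_, by rw [taylor_coeff_one, e1], fun h3 => ?_⟩
  · rw [taylor_coeff_zero, hF, eval_prod, Finset.prod_eq_zero_iff] at h0
    obtain ⟨i, -, hi⟩ := h0
    rw [eval_sub, eval_X, eval_C, sub_eq_zero] at hi
    rw [hi, hF, eval_der, Finset.prod_eq_zero_iff] at e1
    obtain ⟨k, hk, hk'⟩ := e1
    exact Finset.ne_of_mem_erase hk (hα (sub_eq_zero.1 hk')).symm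
  · have e2 := congrArg (fun p => coeff p 2) (der_taylor (β j) F)
    simp only [coeff_derivative, h3, zero_mul, hF', taylor_pow] at e2
    rw [sq, coeff_mul, Finset.Nat.sum_antidiagonal_eq_sum_range_succ_mk] at e2
    simp only [Finset.sum_range_succ, Finset.sum_range_zero, taylor_coeff_zero, e0, tsub_self,
      zero_mul, mul_zero, zero_add, add_zero, Nat.reduceSub, taylor_coeff_one] at e2
    rw [eq_comm, mul_self_eq_zero, eval_der, Finset.prod_eq_zero_iff] at e2
    obtain ⟨k, hk, hk'⟩ := e2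
    exact Finset.ne_of_mem_erase hk (hβ (sub_eq_zero.1 hk')).symm

theorem main [IsDomain O] [CharP L 2] (h : Loc r) (hn : StA2n) (Φ : O →+* O) (φ : L →+* L)
    (hΦ : ∀ x, r (Φ x) = φ (r x)) {m : ℕ} (a : Fin (2 * m + 1) → O) (b : Fin m → O)
    (s : Equiv.Perm (Fin (2 * m + 1))) (t : Equiv.Perm (Fin m)) (F : L[X])
    (hα : Function.Injective fun i => r (a i)) (hβ : Function.Injective fun j => r (b j))
    (ha : ∀ i, Φ (a i) = a (s i)) (hb : ∀ j, Φ (b j) = b (t j))
    (hF : F = ∏ i, (X - C (r (a i)))) (hF' : derivative F = (∏ j, (X - C (r (b j)))) ^ 2) :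
    ∃ z : L, z ^ 2 + z = ((eta (2 * m + 1) * (2 * m + 1) ^ (2 * m + 1) / 4 : ℤ) : L) +
        ∑ j, (taylor (r (b j)) F).coeff 2 ^ 3 /
          ((taylor (r (b j)) F).coeff 0 * (taylor (r (b j)) F).coeff 3 ^ 2) ∧
      φ z = z + if Equiv.Perm.sign s = 1 then 0 else 1 := by
  have h2L : (2 : L) = 0 := CharTwo.two_eq_zero
  obtain ⟨G, hG⟩ : ∃ G : O[X], G = ∏ i, (X - C (a i)) := ⟨_, rfl⟩
  have hGm : G.Monic := hG ▸ monic_prod_of_monic _ _ fun i _ => monic_X_sub_C _
  have hGd : G.natDegree = 2 * m + 1 := by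
    rw [hG, natDegree_prod_of_monic _ _ fun i _ => monic_X_sub_C _]
    simp
  have hGF : G.map r = F := by simp [hG, hF, Polynomial.map_prod]
  have hGΦ : G.map Φ = G := by
    rw [hG, Polynomial.map_prod]
    simp only [Polynomial.map_sub, map_X, map_C, ha]
    exact Equiv.prod_comp s fun i => X - C (a i)
  obtain ⟨g, hg⟩ : ∃ g : ℕ → Fin m → O, ∀ k j, g k j = (taylor (b j) G).coeff k :=
    ⟨_, fun _ _ => rfl⟩
  obtain ⟨f, hf⟩ : ∃ f : ℕ → Fin m → L, ∀ k j, f k j = (taylor (r (b j)) F).coeff k :=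
    ⟨_, fun _ _ => rfl⟩
  have hgf : ∀ k j, r (g k j) = f k j := fun k j => by
    rw [hg, hf, ← coeff_map, map_taylor, hGF]
  have hgΦ : ∀ k j, Φ (g k j) = g k (t j) := fun k j => by
    rw [hg, hg, ← coeff_map, map_taylor, hGΦ, hb]
  have hfφ : ∀ k j, φ (f k j) = f k (t j) := fun k j => by rw [← hgf, ← hΦ, hgΦ, hgf]
  have hres : ∀ j, f 0 j ≠ 0 ∧ f 1 j = 0 ∧ f 3 j ≠ 0 := fun j => by
    simp only [hf]
    exact resid hα hβ hF hF' j
  simp only [← hf]
  have hPQ : ∀ j, ∃ P Q : O, g 1 j = 2 * Q * g 3 j ∧ g 2 j = P * g 3 j := fun j => by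
    obtain ⟨u, hu⟩ := (h.unit (g 3 j) (by rw [hgf]; exact (hres j).2.2)).exists_right_inv
    obtain ⟨y, hy⟩ := h.ker (g 1 j) (by rw [hgf]; exact (hres j).2.1)
    exact ⟨g 2 j * u, y * u, by linear_combination hy - 2 * y * hu,
      by linear_combination (-g 2 j) * hu⟩
  choose P Q hQ hP using hPQ
  have hQΦ : ∀ j, Φ (Q j) = Q (t j) := fun j => by
    have e1 := congrArg Φ (hQ j)
    rw [map_mul, map_mul, map_ofNat, hgΦ, hgΦ, hQ] at e1
    have e2 : g 3 (t j) ≠ 0 := fun e => (hres (t j)).2.2 (by rw [← hgf, e, map_zero])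
    exact (mul_left_cancel₀ h.ne (mul_right_cancel₀ e2 e1)).symm
  obtain ⟨ζ, hζ⟩ : ∃ ζ : Fin m → L, ∀ j, ζ j = r (Q j) * f 2 j / f 0 j := ⟨_, fun _ => rfl⟩
  have hζφ : ∀ j, φ (ζ j) = ζ (t j) := fun j => by
    rw [hζ, hζ, map_div₀, map_mul, ← hΦ, hQΦ, hfφ, hfφ]
  -- the norms
  have v1 : ∀ j, V r (∏ i, (HH (b j) (P j) (Q j)).eval (a i)) (g 0 j ^ 2)
      (f 2 j ^ 3 / (f 0 j * f 3 j ^ 2) + ζ j + ζ j ^ 2) := fun j => by
    obtain ⟨w, hw⟩ := hn O (Fin (2 * m + 1)) (fun i => a i - b j) (P j) (Q j) (taylor (b j) G)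
      (by rw [hG, taylor_prod]) (by rw [← hg, ← hg, hQ])
    simp only [← hg] at hw
    have e1 : ∏ i, (HH (b j) (P j) (Q j)).eval (a i) = g 0 j ^ 2 + 4 * (P j ^ 2 * g 0 j * g 2 j +
        Q j * g 0 j * g 2 j + Q j ^ 2 * g 2 j ^ 2 + 2 * w) := by
      rw [mul_add _ _ (2 * w), ← add_assoc, ← mul_assoc 4 2 w, show (4 * 2 : O) = 8 by norm_num,
        ← hw]
      refine Finset.prod_congr rfl fun i _ => ?_
      simp only [HH, eval_add, eval_mul, eval_pow, eval_sub, eval_X, eval_C, eval_ofNat]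
      ring
    have e2 : r (P j) = f 2 j / f 3 j := by
      rw [eq_div_iff (hres j).2.2, ← hgf, ← hgf, hP, map_mul]
    have e3 := V.of_add h (y := g 0 j ^ 2) (w := P j ^ 2 * g 0 j * g 2 j +
      Q j * g 0 j * g 2 j + Q j ^ 2 * g 2 j ^ 2 + 2 * w)
      (by rw [map_pow, hgf]; exact pow_ne_zero _ (hres j).1)
    rw [e1]
    convert e3 using 1
    have n0 := (hres j).1
    have n3 := (hres j).2.2
    simp only [map_add, map_mul, map_pow, hgf, h.two, e2, hζ]
    field_simp
    ring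
  -- the derivative at the roots
  obtain ⟨Y, hY, hYd⟩ := cong4 h hGm hGd b P Q hβ (fun j => by rw [← hg, ← hg, hQ])
    (fun j => by rw [← hg, ← hg, hP])
  have hder : ∀ i, r ((derivative G).eval (a i))
      = ∏ k ∈ Finset.univ.erase i, (r (a i) - r (a k)) := fun i => by
    simp only [hG, eval_der, map_prod, map_sub]
  have v2 : ∀ i, V r ((derivative G).eval (a i))
      (((2 * m + 1 : ℕ) : O) * ∏ j, (HH (b j) (P j) (Q j)).eval (a i))
      ((Y.map r).eval (r (a i)) / ∏ k ∈ Finset.univ.erase i, (r (a i) - r (a k))) := fun i => by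
    have e1 : (derivative G).eval (a i) = ((2 * m + 1 : ℕ) : O) *
        ∏ j, (HH (b j) (P j) (Q j)).eval (a i) + 4 * Y.eval (a i) := by
      rw [hY, eval_add, eval_mul, eval_mul, eval_C, eval_prod, eval_ofNat]
    have e2 : r (((2 * m + 1 : ℕ) : O) * ∏ j, (HH (b j) (P j) (Q j)).eval (a i))
        = ∏ k ∈ Finset.univ.erase i, (r (a i) - r (a k)) := by
      rw [← hder, e1, map_add, map_mul r 4, h.four, zero_mul, add_zero]
    have e3 := V.of_add h (w := Y.eval (a i)) (e2 ▸ Finset.prod_ne_zero_iff.2 fun k hk =>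
      sub_ne_zero.2 fun e => Finset.ne_of_mem_erase hk (hα e).symm)
    rwa [← e1, e2, ← eval_map_apply] at e3
  have v3 := V.prod h Finset.univ v2
  have e0 : ∑ i, (Y.map r).eval (r (a i)) / ∏ k ∈ Finset.univ.erase i, (r (a i) - r (a k))
      = 0 := by
    have d1 : (Y.map r).degree < (2 * m : ℕ) := degree_map_le.trans_lt hYd
    have := Lagrange.coeff_eq_sum (s := Finset.univ) (v := fun i => r (a i)) hα.injOn
      (P := Y.map r) (d1.trans (by simp only [Finset.card_univ, Fintype.card_fin]; norm_cast; omega))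
    rw [← this]
    simpa using coeff_eq_zero_of_degree_lt d1
  rw [e0, Finset.prod_mul_distrib, Finset.prod_comm, Finset.prod_const, Finset.card_univ,
    Fintype.card_fin] at v3
  have v4 := V.prod h Finset.univ v1
  rw [Finset.prod_pow] at v4
  obtain ⟨ρ, hρ⟩ : ∃ ρ, ρ = ∏ j, g 0 j := ⟨_, rfl⟩
  obtain ⟨δ, hδ⟩ : ∃ δ, δ = (Matrix.vandermonde a).det := ⟨_, rfl⟩
  obtain ⟨N, hN⟩ : ∃ N : ℤ, N = eta (2 * m + 1) * (2 * m + 1) ^ (2 * m + 1) := ⟨_, rfl⟩
  obtain ⟨E, hE⟩ : ∃ E, E = ∑ j, (f 2 j ^ 3 / (f 0 j * f 3 j ^ 2) + ζ j + ζ j ^ 2) := ⟨_, rfl⟩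
  rw [← hρ, ← hE] at v4
  rw [← hN]
  have v5 : V r (δ ^ 2) (N * ρ ^ 2) E := by
    have := (V.refl (eta (2 * m + 1) : O)).mul h (v3.trans h ((V.refl _).mul h v4))
    rw [zero_add, zero_add, zero_add, hG, ← disc, ← hδ, ← mul_assoc] at this
    rw [hN]
    push_cast at this ⊢
    exact this
  have hρr : r ρ ≠ 0 := by
    rw [hρ, map_prod]
    exact Finset.prod_ne_zero_iff.2 fun j _ => by rw [hgf]; exact (hres j).1
  have hρ0 : ρ ≠ 0 := fun e => hρr (by rw [e, map_zero])
  have hρΦ : Φ ρ = ρ := by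
    rw [hρ, map_prod]
    simp only [hgΦ]
    exact Equiv.prod_comp t fun j => g 0 j
  have hδΦ : Φ δ = ((Equiv.Perm.sign s : ℤˣ) : ℤ) * δ := by
    rw [hδ, RingHom.map_det, ← Matrix.det_permute]
    congr 1
    ext i k
    simp [ha]
  have hNo : Odd N := hN ▸ (eta_odd _).mul (Odd.pow ⟨m, rfl⟩)
  obtain ⟨τ, hτ⟩ : ∃ τ, δ = ρ * (1 + 2 * τ) := by
    obtain ⟨w, hw, -⟩ := v5
    obtain ⟨k, hk⟩ := hNo
    have e1 := congrArg r hw
    simp only [hk, map_mul, map_pow, map_add, map_one, h.four, h.two, Int.cast_add, Int.cast_mul,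
      Int.cast_ofNat, Int.cast_one, zero_mul, zero_add, add_zero, one_mul, mul_one] at e1
    have e2 : r (δ - ρ) ^ 2 = 0 := by
      rw [map_sub]
      linear_combination e1 + (r ρ ^ 2 - r δ * r ρ) * h2L
    obtain ⟨c, hc⟩ := h.ker _ (pow_eq_zero_iff two_ne_zero |>.1 e2)
    obtain ⟨u, hu⟩ := (h.unit ρ hρr).exists_right_inv
    exact ⟨u * c, by linear_combination hc - 2 * c * hu⟩
  have hN4 : N = 1 + 4 * (N / 4) := by
    by_contra hne
    obtain ⟨k, hk⟩ : ∃ k, N = 3 + 4 * k := ⟨N / 4, by have := Int.odd_iff.1 hNo; omega⟩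
    obtain ⟨w, hw, -⟩ := v5
    rw [hτ, hk] at hw
    push_cast at hw
    have e1 : ρ ^ 2 * (2 * (1 : O)) = ρ ^ 2 * (2 * (2 * (τ + τ ^ 2 - k - (3 + 4 * k) * w))) := by
      linear_combination -hw
    have e2 := congrArg r (mul_left_cancel₀ h.ne (mul_left_cancel₀ (pow_ne_zero 2 hρ0) e1))
    rw [map_mul, h.two, zero_mul, map_one] at e2
    exact one_ne_zero e2
  have v6 : V r (N * ρ ^ 2) (ρ ^ 2) ((N / 4 : ℤ) : L) :=
    ⟨((N / 4 : ℤ) : O), by nth_rewrite 1 [hN4]; push_cast; ring, map_intCast r _⟩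
  have v7 : V r (δ ^ 2) (ρ ^ 2) (r τ ^ 2 + r τ) :=
    ⟨τ ^ 2 + τ, by rw [hτ]; ring, by simp⟩
  have key := V.unique h (pow_ne_zero 2 hρ0) v7 (v5.trans h v6)
  refine ⟨r τ + ∑ j, ζ j, ?_, ?_⟩
  · rw [hE, Finset.sum_add_distrib, Finset.sum_add_distrib, ← CharTwo.sum_sq] at key
    linear_combination key + ((∑ j, ζ j) ^ 2 + ∑ j, ζ j + r τ * ∑ j, ζ j) * h2L
  · have e1 : φ (∑ j, ζ j) = ∑ j, ζ j := by
      rw [map_sum]
      simp only [hζφ]
      exact Equiv.sum_comp t ζ
    have e2 := congrArg Φ hτ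
    rw [hδΦ, map_mul, map_add, map_mul, map_one, map_ofNat, hρΦ, hτ] at e2
    rw [map_add, e1, ← hΦ]
    rcases Int.units_eq_one_or (Equiv.Perm.sign s) with hs | hs
    · rw [hs] at e2
      have e3 : ρ * (2 * Φ τ) = ρ * (2 * τ) := by
        push_cast at e2
        linear_combination -e2
      rw [mul_left_cancel₀ h.ne (mul_left_cancel₀ hρ0 e3), if_pos hs, add_zero]
    · rw [hs] at e2
      have e3 : ρ * (2 * Φ τ) = ρ * (2 * (-1 - τ)) := by
        push_cast at e2
        linear_combination -e2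
      rw [mul_left_cancel₀ h.ne (mul_left_cancel₀ hρ0 e3), if_neg (by rw [hs]; decide), map_sub,
        map_neg, map_one]
      linear_combination (-1 - r τ) * h2L

theorem loc_witt (L : Type) [Field L] [CharP L 2] [PerfectRing L 2] :
    Loc (WittVector.constantCoeff : WittVector 2 L →+* L) where
  two := by rw [map_ofNat]; exact CharTwo.two_eq_zero
  ker x hx := by
    have := (WittVector.mem_span_p_iff_coeff_zero_eq_zero x).2 hx
    rw [Ideal.mem_span_singleton] at this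
    exact_mod_cast this
  unit x hx := WittVector.isUnit_of_coeff_zero_ne_zero x hx
  ne := by exact_mod_cast (WittVector.irreducible 2 (k := L)).ne_zero

end A2

theorem stA2 (h : StA2n) : StA2 := by
  intro m
  refine ⟨(A2.eta (2 * m + 1) * (2 * m + 1) ^ (2 * m + 1) / 4 : ℤ).natAbs, ?_⟩
  intro L _ _ _ φ α β s t F hα hβ ha hb hF hF'
  have e : ∀ k : ℤ, ((k.natAbs : ℕ) : L) = (k : L) := fun k => by
    rcases Int.natAbs_eq k with hk | hk
    · conv_rhs => rw [hk, Int.cast_natCast]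
    · conv_rhs => rw [hk, Int.cast_neg, Int.cast_natCast, CharTwo.neg_eq]
  rw [e]
  exact A2.main (A2.loc_witt L) h (WittVector.map φ) φ (fun x => WittVector.map_coeff φ x 0)
    (fun i => WittVector.teichmuller 2 (α i)) (fun j => WittVector.teichmuller 2 (β j)) s t F hα hβ
    (fun i => by rw [WittVector.map_teichmuller, ha])
    (fun j => by rw [WittVector.map_teichmuller, hb]) hF hF'

end Pool.Agent.Lib.MP_9227d9_nt.Mob
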