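import Pool.Agent.Lib.MP_9227d9_nt.MobOd

/-!
Concentration of a mean of functions that are constant on lines.
-/

namespace Pool.Agent.Lib.MP_9227d9_nt.Mob

open Polynomial

open scoped Classical

namespace D

theorem char_cases {V : Type} [AddCommGroup V] (h2 : ∀ x : V, x + x = 0) (ψ : AddChar V ℂ)
    (x : V) : ψ x = 1 ∨ ψ x = -1 := by
  have h : ψ x * ψ x = 1 := by rw [← AddChar.map_add_eq_mul, h2, AddChar.map_zero_eq_one]
  exact mul_self_eq_one_iff.mp h

theorem re_add {V : Type} [AddCommGroup V] (h2 : ∀ x : V, x + x = 0) (ψ : AddChar V ℂ)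
    (x y : V) : (ψ (x + y)).re = (ψ x).re * (ψ y).re := by
  rw [AddChar.map_add_eq_mul]
  rcases char_cases h2 ψ x with h | h <;> simp [h]

theorem sum_re {V : Type} [AddCommGroup V] [Fintype V] (x : V) :
    ∑ ψ : AddChar V ℂ, (ψ x).re = if x = 0 then (Fintype.card V : ℝ) else 0 := by
  rw [← Complex.re_sum, AddChar.sum_apply_eq_ite]
  split_ifs <;> simp

theorem bochner_fin {V : Type} [AddCommGroup V] [Fintype V] (h2 : ∀ x : V, x + x = 0)
    (f : V → ℝ) (h : V) :
    ∑ ψ : AddChar V ℂ, (∑ g, f g * (ψ g).re) ^ 2 * (ψ h).re =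
      Fintype.card V * ∑ g, f g * f (g + h) := by
  have e1 : ∀ ψ : AddChar V ℂ, (∑ g, f g * (ψ g).re) ^ 2 * (ψ h).re =
      ∑ g, ∑ g', f g * f g' * (ψ (g + h + g')).re := by
    intro ψ
    rw [sq, Finset.sum_mul_sum, Finset.sum_mul]
    refine Finset.sum_congr rfl fun g _ => ?_
    rw [Finset.sum_mul]
    refine Finset.sum_congr rfl fun g' _ => ?_
    rw [re_add h2, re_add h2]
    ring
  simp_rw [e1]
  rw [Finset.sum_comm, Finset.mul_sum]
  refine Finset.sum_congr rfl fun g _ => ?_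
  rw [Finset.sum_comm]
  simp_rw [← Finset.mul_sum, sum_re]
  rw [Finset.sum_eq_single (g + h)]
  · rw [if_pos (h2 _)]
    ring
  · intro g' _ hg'
    rw [if_neg, mul_zero]
    intro h0
    apply hg'
    calc g' = (g + h + (g + h)) + g' := by rw [h2, zero_add]
      _ = g + h + (g + h + g') := by rw [add_assoc (g + h)]
      _ = g + h := by rw [h0, add_zero]
  · intro hg
    exact absurd (Finset.mem_univ _) hg

variable {k : Type} [Field k] [Fintype k] [CharP k 2]

omit [Fintype k] in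
theorem add_self (x : k[X]) : x + x = 0 := CharTwo.add_self_eq_zero x

/-- The autocorrelation of a function is a nonnegative combination of characters. -/
theorem bochner (n : ℕ) (f : k[X] → ℝ) :
    ∃ (ι : Type) (_ : Fintype ι) (ω : ι → AddChar k[X] ℂ) (a : ι → ℝ), (∀ i, 0 ≤ a i) ∧
      ∀ h : k[X], h.degree < n →
        avm n (fun G => f G * f (G + h)) = ∑ i, a i * (ω i h).re := by
  have : Finite (degreeLT k n) := Finite.of_equiv _ (degreeLTEquiv k n).toEquiv.symm
  let _ : Fintype (degreeLT k n) := Fintype.ofFinite _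
  obtain ⟨π, hπ⟩ := LinearMap.exists_leftInverse_of_injective (degreeLT k n).subtype
    (Submodule.ker_subtype _)
  have hmem : ∀ x : k[X], x ∈ Pn k n ↔ x ∈ degreeLT k n := fun x => by
    rw [mem_Pn, mem_degreeLT]
  have hcard : (Fintype.card (degreeLT k n) : ℝ) = qR k ^ n := by
    rw [← card_Pn, Fintype.card_of_subtype (Pn k n) hmem]
  have h2 : ∀ x : degreeLT k n, x + x = 0 := fun x => Subtype.ext (add_self x.1)
  have hq : (0 : ℝ) < qR k ^ n := pow_pos qR_pos n
  refine ⟨AddChar (degreeLT k n) ℂ, inferInstance,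
    fun ψ => ψ.compAddMonoidHom π.toAddMonoidHom,
    fun ψ => (∑ g : degreeLT k n, f (X ^ n + g.1) * (ψ g).re) ^ 2 / (qR k ^ n) ^ 2,
    fun ψ => by positivity, fun h hh => ?_⟩
  have hh' : h ∈ degreeLT k n := mem_degreeLT.mpr hh
  have hπh : π h = ⟨h, hh'⟩ := by
    have := LinearMap.congr_fun hπ ⟨h, hh'⟩
    simpa using this
  have key := bochner_fin h2 (fun g : degreeLT k n => f (X ^ n + g.1)) ⟨h, hh'⟩
  have e : ∀ ψ : AddChar (degreeLT k n) ℂ,
      (∑ g : degreeLT k n, f (X ^ n + g.1) * (ψ g).re) ^ 2 / (qR k ^ n) ^ 2 *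
        ((ψ.compAddMonoidHom π.toAddMonoidHom) h).re =
      (∑ g : degreeLT k n, f (X ^ n + g.1) * (ψ g).re) ^ 2 * (ψ ⟨h, hh'⟩).re / (qR k ^ n) ^ 2 := by
    intro ψ
    rw [AddChar.compAddMonoidHom_apply, LinearMap.toAddMonoidHom_coe, hπh]
    ring
  simp_rw [e]
  rw [← Finset.sum_div, key, hcard]
  unfold avm avg
  rw [Finset.sum_subtype (Pn k n) hmem]
  simp only [Submodule.coe_add, add_assoc]
  field_simp

/-- The mean of a character along an additive map. -/
theorem avg_char (L : ℕ) (ω : AddChar k[X] ℂ) (φ : k[X] → k[X])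
    (hφ : ∀ s t, φ (s + t) = φ s + φ t) :
    avg L (fun σ => (ω (φ σ)).re) = if ∀ σ ∈ Pn k L, ω (φ σ) = 1 then 1 else 0 := by
  split_ifs with h
  · rw [avg_congr (G := fun _ => 1), avg_const]
    intro v hv
    rw [h v (mem_Pn.mpr hv), Complex.one_re]
  · push Not at h
    obtain ⟨σ₀, h0, h1⟩ := h
    have h3 : ω (φ σ₀) = -1 := (char_cases add_self ω _).resolve_left h1
    have h4 := avg_shift (F := fun σ => (ω (φ σ)).re) (mem_Pn.mp h0)
    have h5 : avg L (fun v => (ω (φ (v + σ₀))).re) = avg L (fun v => (ω (φ v)).re * (-1)) := by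
      refine avg_congr fun v _ => ?_
      rw [hφ, re_add add_self, h3]
      simp
    rw [h5, avg_mul_right] at h4
    linarith

omit [CharP k 2] in
/-- The mean over the shifts is an orthogonal projection. -/
theorem proj_sq (n L : ℕ) (f : k[X] → ℝ) (φ : k[X] → k[X])
    (hφ : ∀ s t, φ (s + t) = φ s + φ t) (hd : ∀ t : k[X], t.degree < L → (φ t).degree < n) :
    avm n (fun G => (avg L fun σ => f (G + φ σ)) ^ 2) =
      avg L fun σ => avm n fun G => f G * f (G + φ σ) := by
  rw [← avm_avg_comm]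
  have h1 : avm n (fun G => avg L fun σ => f G * f (G + φ σ)) =
      avm n (fun G => f G * avg L fun σ => f (G + φ σ)) :=
    avm_congr fun G _ => avg_mul_left _
  rw [h1, avm_avg_shift L φ hd (F := fun G => f G * avg L fun σ => f (G + φ σ))]
  refine avm_congr fun G _ => ?_
  rw [sq, ← avg_mul_right]
  refine avg_congr fun t ht => ?_
  congr 1
  rw [← avg_shift (F := fun σ => f (G + φ σ)) ht]
  refine avg_congr fun v _ => ?_
  rw [hφ, add_assoc, add_comm (φ v)]

theorem proj_eq {n : ℕ} {f : k[X] → ℝ} {ι : Type} [Fintype ι] {ω : ι → AddChar k[X] ℂ}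
    {a : ι → ℝ} (hb : ∀ h : k[X], h.degree < n →
      avm n (fun G => f G * f (G + h)) = ∑ i, a i * (ω i h).re) (L : ℕ) (φ : k[X] → k[X])
    (hφ : ∀ s t, φ (s + t) = φ s + φ t) (hd : ∀ t : k[X], t.degree < L → (φ t).degree < n) :
    avm n (fun G => (avg L fun σ => f (G + φ σ)) ^ 2) =
      ∑ i, a i * if ∀ σ ∈ Pn k L, ω i (φ σ) = 1 then 1 else 0 := by
  rw [proj_sq n L f φ hφ hd, avg_congr (G := fun σ => ∑ i, a i * (ω i (φ σ)).re)
    fun v hv => hb _ (hd v hv), avg_sum]
  refine Finset.sum_congr rfl fun i _ => ?_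
  rw [avg_mul_left, avg_char L (ω i) φ hφ]

theorem le_of_sq_le {x a b : ℝ} (ha : 0 ≤ a) (hb : 0 ≤ b) (h : x ^ 2 ≤ a * x + b ^ 2) :
    x ≤ a + b := by
  by_contra hx
  push Not at hx
  nlinarith

end D

theorem stD (hDa : StDa) : StD := by
  intro k _ _ _ nu L z F K ε hz hL hnu hK hε hFK hFl hR
  set n := nu + 2 * L - 1 with hn
  set m := nu + 2 * L - 4 * z with hm
  set Fb : k[X] → ℝ := fun G => avm nu fun u => F u G with hFb
  set x := avm n (fun G => Fb G ^ 2) with hx
  have hq : (0 : ℝ) < qR k ^ z := pow_pos qR_pos z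
  obtain ⟨ι, _, ω, a, ha, hb⟩ := D.bochner n Fb
  have hxa : x = ∑ i, a i := by
    have h0 := hb 0 (by rw [degree_zero]; exact WithBot.bot_lt_coe _)
    simp only [add_zero, AddChar.map_zero_eq_one, Complex.one_re, mul_one] at h0
    rw [← h0, hx]
    exact avm_congr fun G _ => sq _
  have hadd : ∀ u s t : k[X], u * (s + t) ^ 2 = u * s ^ 2 + u * t ^ 2 := fun u s t => by
    rw [CharTwo.add_sq, mul_add]
  have hdu : ∀ u : k[X], MD nu u → ∀ t : k[X], t.degree < L → (u * t ^ 2).degree < n :=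
    fun u hu t ht => degree_mul_sq_lt ht (by rw [hu.2]; omega)
  set S := (Pn k z).filter fun R : k[X] => R.Monic with hS
  have hSm : ∀ R : k[X], R ∈ S ↔ R.Monic ∧ R.natDegree < z := by
    intro R
    rw [hS, Finset.mem_filter, mem_Pn]
    constructor
    · rintro ⟨h1, h2⟩
      exact ⟨h2, (natDegree_lt_iff_degree_lt h2.ne_zero).mpr h1⟩
    · rintro ⟨h1, h2⟩
      exact ⟨(natDegree_lt_iff_degree_lt h1.ne_zero).mp h2, h1⟩
  have hScard : (S.card : ℝ) ≤ qR k ^ z := by
    rw [← card_Pn]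
    exact_mod_cast Finset.card_filter_le _ _
  -- the projections along the cells are small
  have hcell : ∀ R ∈ S,
      (∑ i, a i * if ∀ v ∈ Pn k m, ω i (R ^ 2 * v) = 1 then 1 else 0) ≤ ε ^ 2 := by
    intro R hRS
    obtain ⟨h1, h2⟩ := (hSm R).mp hRS
    rw [← D.proj_eq hb m (fun v => R ^ 2 * v) (fun s t => mul_add _ _ _)
      fun t ht => degree_mul_lt ht (by rw [h1.natDegree_pow]; omega)]
    refine avm_le_of_le fun G hG => ?_
    have h3 := hR R G h1 h2 hG
    rw [avm_avg_comm] at h3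
    exact sq_le_sq' (abs_le.mp h3).1 (abs_le.mp h3).2
  -- the projections along the lines
  have hline : avm nu (fun u => avm n fun G => (avg L fun σ => Fb (G + u * σ ^ 2)) ^ 2) ≤
      1 / qR k ^ z * x + qR k ^ z * ε ^ 2 := by
    rw [avm_congr (G := fun u => ∑ i, a i * if ∀ σ ∈ Pn k L, ω i (u * σ ^ 2) = 1 then 1 else 0)
      fun u hu => D.proj_eq hb L (fun σ => u * σ ^ 2) (hadd u) (hdu u hu), avm_sum]
    have h1 : ∀ i, avm nu (fun u => a i * if ∀ σ ∈ Pn k L, ω i (u * σ ^ 2) = 1 then 1 else 0) ≤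
        1 / qR k ^ z * a i +
          ∑ R ∈ S, a i * if ∀ v ∈ Pn k m, ω i (R ^ 2 * v) = 1 then 1 else 0 := by
      intro i
      rw [avm_mul_left, ← Finset.mul_sum, mul_comm _ (a i), ← mul_add]
      refine mul_le_mul_of_nonneg_left ?_ (ha i)
      have hs : ∀ R ∈ S, (0 : ℝ) ≤ if ∀ v ∈ Pn k m, ω i (R ^ 2 * v) = 1 then 1 else 0 :=
        fun R _ => by split_ifs <;> norm_num
      rcases hDa k nu L z (ω i) hz hL hnu with h | ⟨R, h1, h2, h3⟩
      · exact h.trans (le_add_of_nonneg_right (Finset.sum_nonneg hs))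
      · have h4 := Finset.single_le_sum hs ((hSm R).mpr ⟨h1, h2⟩)
        rw [if_pos h3] at h4
        have h5 : avm nu (fun u : k[X] =>
            if ∀ σ ∈ Pn k L, ω i (u * σ ^ 2) = 1 then (1 : ℝ) else 0) ≤ 1 :=
          avm_le_of_le fun u _ => by split_ifs <;> norm_num
        have h6 : (0 : ℝ) ≤ 1 / qR k ^ z := by positivity
        linarith
    refine (Finset.sum_le_sum fun i _ => h1 i).trans ?_
    rw [Finset.sum_add_distrib, ← Finset.mul_sum, ← hxa, Finset.sum_comm]
    have h2 := Finset.sum_le_card_nsmul S _ _ hcell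
    rw [nsmul_eq_mul] at h2
    have h3 := mul_le_mul_of_nonneg_right hScard (sq_nonneg ε)
    linarith
  -- the mean square is a correlation with the projections
  have hcorr : x ≤ avm nu fun u => avm n fun G => K * |avg L fun σ => Fb (G + u * σ ^ 2)| := by
    have h1 : x = avm nu fun u => avm n fun G => Fb G * F u G := by
      rw [← avm_comm, hx]
      refine avm_congr fun G _ => ?_
      rw [avm_mul_left, sq]
    rw [h1]
    refine avm_mono fun u hu => ?_
    rw [avm_avg_shift L (fun σ => u * σ ^ 2) (hdu u hu) (F := fun G => Fb G * F u G)]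
    refine avm_mono fun G hG => ?_
    simp only [hFl]
    rw [avg_mul_right, mul_comm K]
    refine (le_abs_self _).trans ?_
    rw [abs_mul]
    exact mul_le_mul_of_nonneg_left (hFK u G hu hG) (abs_nonneg _)
  have hx0 : 0 ≤ x := avm_nonneg fun G _ => sq_nonneg _
  have hsq : x ^ 2 ≤ K ^ 2 * (1 / qR k ^ z * x + qR k ^ z * ε ^ 2) := by
    refine (pow_le_pow_left₀ hx0 hcorr 2).trans (sq_avm_le.trans ?_)
    refine le_trans ?_ (mul_le_mul_of_nonneg_left hline (sq_nonneg K))
    rw [← avm_mul_left]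
    refine avm_mono fun u _ => sq_avm_le.trans (le_of_eq ?_)
    rw [← avm_mul_left]
    refine avm_congr fun G _ => ?_
    rw [mul_pow, sq_abs]
  refine D.le_of_sq_le (by positivity) (by positivity) ?_
  rw [mul_pow, mul_pow, Real.sq_sqrt hq.le]
  calc x ^ 2 ≤ _ := hsq
    _ = _ := by ring

end Pool.Agent.Lib.MP_9227d9_nt.Mob
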