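import Pool.Agent.Lib.MP_9227d9_nt.MobOd

/-!
An additive character that is trivial on many lines is trivial on a cell.
-/

namespace Pool.Agent.Lib.MP_9227d9_nt.Mob

open Polynomial

open scoped Classical

namespace Da

variable {k : Type} [Field k] [Fintype k] [CharP k 2]

/-- The real sign of a character value. -/
noncomputable def sg (ω : AddChar k[X] ℂ) (x : k[X]) : ℝ := if ω x = 1 then 1 else -1

omit [Fintype k] in
theorem val_cases (ω : AddChar k[X] ℂ) (x : k[X]) : ω x = 1 ∨ ω x = -1 := by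
  have h : ω x * ω x = 1 := by
    rw [← AddChar.map_add_eq_mul, CharTwo.add_self_eq_zero, AddChar.map_zero_eq_one]
  exact mul_self_eq_one_iff.1 h

omit [Fintype k] in
theorem sg_add (ω : AddChar k[X] ℂ) (x y : k[X]) : sg ω (x + y) = sg ω x * sg ω y := by
  have h : (-1 : ℂ) ≠ 1 := by norm_num
  unfold sg
  rw [AddChar.map_add_eq_mul]
  rcases val_cases ω x with hx | hx <;> rcases val_cases ω y with hy | hy <;> simp [hx, hy, h]

omit [Fintype k] [CharP k 2] in
theorem sg_le (ω : AddChar k[X] ℂ) (x : k[X]) : sg ω x ≤ 1 := by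
  unfold sg
  split_ifs <;> norm_num

theorem avg_char (ω : AddChar k[X] ℂ) (n : ℕ) (φ : k[X] → k[X])
    (hφ : ∀ a b, φ (a + b) = φ a + φ b) :
    avg n (fun σ => sg ω (φ σ)) = if ∀ σ ∈ Pn k n, ω (φ σ) = 1 then 1 else 0 := by
  split_ifs with h
  · rw [← avg_const (k := k) n 1]
    exact avg_congr fun v hv => by simp [sg, h v (mem_Pn.2 hv)]
  · push Not at h
    obtain ⟨c, hc, h1⟩ := h
    have h2 := avg_shift (F := fun σ => sg ω (φ σ)) (mem_Pn.1 hc)
    simp only [hφ, sg_add] at h2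
    rw [avg_mul_right] at h2
    have h3 : sg ω (φ c) = -1 := by simp [sg, h1]
    rw [h3] at h2
    linarith

/-- The annihilator of the short multipliers. -/
def InS (ω : AddChar k[X] ℂ) (nu : ℕ) (σ : k[X]) : Prop := ∀ v ∈ Pn k nu, ω (v * σ ^ 2) = 1

theorem InS.add {ω : AddChar k[X] ℂ} {nu : ℕ} {a b : k[X]} (ha : InS ω nu a) (hb : InS ω nu b) :
    InS ω nu (a + b) := by
  intro v hv
  rw [CharTwo.add_sq, mul_add, AddChar.map_add_eq_mul, ha v hv, hb v hv, one_mul]

omit [CharP k 2] in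
theorem InS.mul_C {ω : AddChar k[X] ℂ} {nu : ℕ} {a : k[X]} (ha : InS ω nu a) (c : k) :
    InS ω nu (a * C c) := by
  intro v hv
  have h : (C (c ^ 2) * v) ∈ Pn k nu :=
    mem_Pn.2 (degree_mul_lt (L := nu) (mem_Pn.1 hv) (by simp only [natDegree_C]; omega))
  have := ha _ h
  rw [← this]
  congr 1
  rw [C_pow]
  ring

theorem mean_le (ω : AddChar k[X] ℂ) (nu L : ℕ) :
    avm nu (fun u => if ∀ σ ∈ Pn k L, ω (u * σ ^ 2) = 1 then 1 else 0) ≤
      (((Pn k L).filter (InS ω nu)).card : ℝ) / qR k ^ L := by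
  have h1 : ∀ u : k[X], (if ∀ σ ∈ Pn k L, ω (u * σ ^ 2) = 1 then (1 : ℝ) else 0) =
      avg L fun σ => sg ω (u * σ ^ 2) := fun u =>
    (avg_char ω L (fun σ => u * σ ^ 2) fun a b => by rw [CharTwo.add_sq, mul_add]).symm
  have h2 : ∀ σ : k[X], avg nu (fun v => sg ω (v * σ ^ 2)) = if InS ω nu σ then 1 else 0 :=
    fun σ => by
      rw [avg_char ω nu (fun v => v * σ ^ 2) fun a b => add_mul _ _ _]
      unfold InS
      congr
  simp only [h1]
  unfold avm
  rw [avg_comm]
  have h3 : (((Pn k L).filter (InS ω nu)).card : ℝ) / qR k ^ L =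
      avg L fun σ => if InS ω nu σ then 1 else 0 := by
    unfold avg
    rw [Finset.sum_boole]
  rw [h3]
  refine avg_mono fun σ _ => ?_
  simp only [add_mul, sg_add]
  rw [avg_mul_left, h2]
  have := sg_le ω (X ^ nu * σ ^ 2)
  split_ifs <;> linarith

theorem pigeon {ω : AddChar k[X] ℂ} {nu L z : ℕ}
    (h : 1 / qR k ^ z < (((Pn k L).filter (InS ω nu)).card : ℝ) / qR k ^ L) {a : k[X]}
    (hd : a.natDegree + z ≤ L) :
    ∃ t : k[X], t.Monic ∧ t.natDegree < z ∧ InS ω nu (a * t) := by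
  have key : ∃ t ∈ Pn k z, t ≠ 0 ∧ InS ω nu (a * t) := by
    by_contra hn
    push Not at hn
    have hc : ((Pn k z) ×ˢ ((Pn k L).filter (InS ω nu))).card ≤ (Pn k L).card := by
      refine Finset.card_le_card_of_injOn (fun p => a * p.1 + p.2) ?_ ?_
      · intro p hp
        simp only [Finset.coe_product, Set.mem_prod, Finset.mem_coe, Finset.mem_filter] at hp
        exact Finset.mem_coe.2 (mem_Pn.2 ((degree_add_le _ _).trans_lt
          (max_lt (degree_mul_lt (mem_Pn.1 hp.1) hd) (mem_Pn.1 hp.2.1))))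
      · intro p hp p' hp' e
        simp only [Finset.coe_product, Set.mem_prod, Finset.mem_coe, Finset.mem_filter] at hp hp'
        have e : a * p.1 + p.2 = a * p'.1 + p'.2 := e
        have e1 : a * (p.1 - p'.1) = p.2 + p'.2 := by
          linear_combination e - CharTwo.add_self_eq_zero p.2
        have h1 : p.1 - p'.1 ∈ Pn k z :=
          mem_Pn.2 ((degree_sub_le _ _).trans_lt (max_lt (mem_Pn.1 hp.1) (mem_Pn.1 hp'.1)))
        have h2 : p.1 = p'.1 := by
          by_contra h3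
          exact hn _ h1 (sub_ne_zero.2 h3) (e1 ▸ hp.2.2.add hp'.2.2)
        rw [h2] at e
        exact Prod.ext h2 (add_left_cancel e)
    rw [Finset.card_product] at hc
    have hc' : qR k ^ z * (((Pn k L).filter (InS ω nu)).card : ℝ) ≤ qR k ^ L := by
      rw [← card_Pn, ← card_Pn]
      exact_mod_cast hc
    have hq := qR_pos (k := k)
    rw [div_lt_div_iff₀ (by positivity) (by positivity)] at h
    linarith
  obtain ⟨t, ht, h0, hS⟩ := key
  refine ⟨t * C t.leadingCoeff⁻¹, monic_mul_leadingCoeff_inv h0, ?_, ?_⟩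
  · rw [natDegree_mul_leadingCoeff_inv _ h0]
    exact (natDegree_lt_iff_degree_lt h0).2 (mem_Pn.1 ht)
  · rw [← mul_assoc]
    exact hS.mul_C _

omit [Fintype k] [CharP k 2] in
theorem degree_sub_lt' {v g : k[X]} {m : ℕ} (hv : v.degree < (m + 1 : ℕ)) (hg : g.Monic)
    (hm : g.natDegree = m) : (v - C (v.coeff m) * g).degree < m := by
  rw [degree_lt_iff_coeff_zero]
  intro j hj
  rw [coeff_sub, coeff_C_mul]
  rcases hj.eq_or_lt with e | hlt
  · have : g.coeff m = 1 := by rw [← hm]; exact hg.coeff_natDegree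
    rw [← e, this, mul_one, sub_self]
  · rw [(degree_lt_iff_coeff_zero _ _).1 hv j hlt, coeff_eq_zero_of_natDegree_lt (p := g) (by omega),
      mul_zero, sub_self]

end Da

theorem stDa : StDa := by
  intro k _ _ _ nu L z ω hz hL hnu
  by_cases h : (((Pn k L).filter (Da.InS ω nu)).card : ℝ) / qR k ^ L ≤ 1 / qR k ^ z
  · exact Or.inl ((Da.mean_le ω nu L).trans h)
  rw [not_le] at h
  obtain ⟨R, hR, hRz, hS⟩ := Da.pigeon (a := 1) h (by simp only [natDegree_one]; omega)
  rw [one_mul] at hS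
  refine Or.inr ⟨R, hR, hRz, ?_⟩
  have key : ∀ m, nu ≤ m → m ≤ nu + 2 * L - 4 * z → ∀ v ∈ Pn k m, ω (R ^ 2 * v) = 1 := by
    intro m hm
    induction m, hm using Nat.le_induction with
    | base => exact fun _ v hv => by rw [mul_comm]; exact hS v hv
    | succ m hm ih =>
      intro hle v hv
      obtain ⟨j, hj⟩ : ∃ j, j = (m - nu) / 2 + 1 := ⟨_, rfl⟩
      have hdeg : (R * X ^ j).natDegree = R.natDegree + j := by
        rw [hR.natDegree_mul (monic_X_pow j), natDegree_X_pow]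
      obtain ⟨t, ht, htz, htS⟩ := Da.pigeon (a := R * X ^ j) h (by rw [hdeg]; omega)
      obtain ⟨e, he⟩ : ∃ e, m = e + 2 * j + 2 * t.natDegree :=
        ⟨m - 2 * j - 2 * t.natDegree, by omega⟩
      have hg : (X ^ (e + 2 * j) * t ^ 2).Monic := (monic_X_pow _).mul (ht.pow 2)
      have hgd : (X ^ (e + 2 * j) * t ^ 2).natDegree = m := by
        rw [(monic_X_pow _).natDegree_mul (ht.pow 2), natDegree_X_pow, ht.natDegree_pow, he]
      have h1 := ih (by omega) _ (mem_Pn.2 (Da.degree_sub_lt' (mem_Pn.1 hv) hg hgd))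
      have h2 := htS (C (v.coeff m) * X ^ e) (mem_Pn.2 ((degree_C_mul_X_pow_le e _).trans_lt
        (by exact_mod_cast (by omega : e < nu))))
      have e1 : R ^ 2 * v = R ^ 2 * (v - C (v.coeff m) * (X ^ (e + 2 * j) * t ^ 2)) +
          C (v.coeff m) * X ^ e * (R * X ^ j * t) ^ 2 := by ring
      rw [e1, AddChar.map_add_eq_mul, h1, h2, one_mul]
  exact key _ (by omega) le_rfl

end Pool.Agent.Lib.MP_9227d9_nt.Mob
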