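import Pool.Agent.Lib.MP_9227d9_nt.MobOd

/-!
The number of prime factors and the subexponential constant.
-/

namespace Pool.Agent.Lib.MP_9227d9_nt.Mob

open Polynomial

open scoped Classical

theorem stOm : StOm := by
  intro k _ _ θ hθ
  obtain ⟨T, hT⟩ := pow_unbounded_of_one_lt (4 : ℝ) hθ
  refine ⟨4 ^ (PrL k T).card, fun M hM => ?_⟩
  rw [← Finset.card_filter_add_card_filter_not (s := pf M) (fun p => p.natDegree < T), pow_add]
  refine mul_le_mul ?_ ?_ (by positivity) (by positivity)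
  · refine pow_le_pow_right₀ (by norm_num) (Finset.card_le_card fun p hp => ?_)
    rw [Finset.mem_filter] at hp
    exact mem_PrL.2 ⟨isP_of_mem_pf hp.1, hp.2⟩
  · rw [← Finset.prod_const]
    calc ∏ _p ∈ (pf M).filter (fun p => ¬ p.natDegree < T), (4 : ℝ)
        ≤ ∏ p ∈ (pf M).filter (fun p => ¬ p.natDegree < T), θ ^ p.natDegree := by
          refine Finset.prod_le_prod (fun _ _ => by norm_num) fun p hp => ?_
          exact hT.le.trans (pow_le_pow_right₀ hθ.le (not_lt.1 (Finset.mem_filter.1 hp).2))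
      _ = θ ^ ∑ p ∈ (pf M).filter (fun p => ¬ p.natDegree < T), p.natDegree :=
          Finset.prod_pow_eq_pow_sum _ _ _
      _ ≤ θ ^ M.natDegree := by
          refine pow_le_pow_right₀ hθ.le (le_trans ?_ (sum_natDegree_pf_le hM))
          exact Finset.sum_le_sum_of_subset (Finset.filter_subset _ _)

namespace K

variable {k : Type} [Field k] [Fintype k]

theorem poly_le {η : ℝ} (hη : 1 < η) (n : ℕ) :
    ∃ B : ℝ, 0 ≤ B ∧ ∀ τ : ℕ, ((τ : ℝ) + 1) ^ n ≤ B * η ^ τ := by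
  obtain ⟨B, hB⟩ := (tendsto_pow_const_div_const_pow_of_one_lt n hη).bddAbove_range
  have h0 : 0 < η := by linarith
  have h1 : ∀ m : ℕ, (m : ℝ) ^ n / η ^ m ≤ B := fun m => hB ⟨m, rfl⟩
  have h2 : 0 ≤ B := le_trans (by positivity) (h1 0)
  refine ⟨B * η, by positivity, fun τ => ?_⟩
  have := h1 (τ + 1)
  rw [div_le_iff₀ (by positivity), Nat.cast_add, Nat.cast_one, pow_succ η] at this
  linarith

theorem abs_prod_psi_le {η C : ℝ} (hη : 1 ≤ η) (hC0 : 0 ≤ C)
    (hC : ∀ M : k[X], M ≠ 0 → (4 : ℝ) ^ (pf M).card ≤ C * η ^ M.natDegree) {z s : ℕ}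
    {S : Finset k[X]} (hS : S ∈ SS k z s) (l : k[X]) :
    |∏ p ∈ S, psi p l| ≤ C * η ^ z * ∏ p ∈ S.filter (fun p => ¬ p ∣ l), 1 / Nm p := by
  obtain ⟨h1, h2⟩ := mem_SS.1 hS
  set S' := S.filter (fun p => ¬ p ∣ l) with hS'
  have h3 : ∀ p ∈ S', IsP p := fun p hp => (h1 p (Finset.mem_filter.1 hp).1).1
  have h4 : (4 : ℝ) ^ S'.card ≤ C * η ^ z := by
    have := hC _ (monic_prod h3).ne_zero
    rw [pf_prod h3, natDegree_prod_isP h3] at this
    refine this.trans (mul_le_mul_of_nonneg_left (pow_le_pow_right₀ hη (le_trans ?_ h2)) hC0)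
    exact Finset.sum_le_sum_of_subset (Finset.filter_subset _ _)
  have h5 : |∏ p ∈ S, psi p l| ≤ ∏ p ∈ S', 4 * (1 / Nm p) := by
    rw [Finset.abs_prod, hS', Finset.prod_filter]
    refine Finset.prod_le_prod (fun _ _ => abs_nonneg _) fun p hp => ?_
    split_ifs with h
    · exact abs_psi_le (h1 p hp).1 l
    · obtain ⟨h6, h7⟩ := one_div_Nm_sub_le (h1 p hp).1
      have h8 := Nm_pos p
      rw [psi, if_neg h, abs_of_pos h6]
      refine h7.trans ?_
      rw [mul_one_div]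
      exact div_le_div_of_nonneg_right (by norm_num) h8.le
  rw [Finset.prod_mul_distrib, Finset.prod_const] at h5
  exact h5.trans (mul_le_mul_of_nonneg_right h4
    (Finset.prod_nonneg fun p _ => (one_div_pos.2 (Nm_pos p)).le))

theorem sum_split {z s : ℕ} {l : k[X]} (hl : l ≠ 0) (g : Finset k[X] → ℝ) (hg : ∀ S, 0 ≤ g S) :
    ∑ S ∈ SS k z s, g (S.filter fun p => ¬ p ∣ l) ≤ 2 ^ (pf l).card * ∑ S ∈ SS k z s, g S := by
  have h1 : Set.InjOn (fun S : Finset k[X] =>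
      (S.filter (fun p => p ∣ l), S.filter (fun p => ¬ p ∣ l))) (SS k z s) := by
    intro S _ S' _ h
    obtain ⟨h2, h3⟩ := Prod.ext_iff.1 h
    dsimp only at h2 h3
    rw [← Finset.filter_union_filter_not_eq (fun p => p ∣ l) S, h2, h3,
      Finset.filter_union_filter_not_eq]
  have h2 := Finset.sum_image (f := fun x : Finset k[X] × Finset k[X] => g x.2) h1
  dsimp only at h2
  rw [← h2]
  calc _ ≤ ∑ x ∈ (pf l).powerset ×ˢ SS k z s, g x.2 := by
        refine Finset.sum_le_sum_of_subset_of_nonneg (fun x hx => ?_) fun _ _ _ => hg _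
        obtain ⟨S, hS, rfl⟩ := Finset.mem_image.1 hx
        obtain ⟨h3, h4⟩ := mem_SS.1 hS
        refine Finset.mem_product.2 ⟨Finset.mem_powerset.2 fun p hp => ?_, mem_SS.2 ⟨?_, ?_⟩⟩
        · rw [Finset.mem_filter] at hp
          exact (mem_pf hl).2 ⟨(h3 p hp.1).1, hp.2⟩
        · exact fun p hp => h3 p (Finset.mem_filter.1 hp).1
        · exact le_trans (Finset.sum_le_sum_of_subset (Finset.filter_subset _ _)) h4
    _ = 2 ^ (pf l).card * ∑ S ∈ SS k z s, g S := by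
        rw [Finset.sum_product]
        dsimp only
        rw [Finset.sum_const, Finset.card_powerset, nsmul_eq_mul]
        push_cast
        rfl

theorem wa_le (hM5 : StM5) {η C : ℝ} (hη : 1 ≤ η) (hC0 : 0 ≤ C)
    (hC : ∀ M : k[X], M ≠ 0 → (4 : ℝ) ^ (pf M).card ≤ C * η ^ M.natDegree) (z s : ℕ)
    {l : k[X]} (hl : l ≠ 0) :
    wa z s l ≤ C * η ^ z * (C * η ^ l.natDegree * (z + 1)) := by
  have h0 : ∀ S : Finset k[X], 0 ≤ ∏ p ∈ S, 1 / Nm p := fun S =>
    Finset.prod_nonneg fun p _ => (one_div_pos.2 (Nm_pos p)).le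
  have h1 : (2 : ℝ) ^ (pf l).card ≤ C * η ^ l.natDegree :=
    (pow_le_pow_left₀ (by norm_num) (by norm_num) _).trans (hC l hl)
  refine (Finset.sum_le_sum fun S hS => abs_prod_psi_le hη hC0 hC hS l).trans ?_
  rw [← Finset.mul_sum]
  refine mul_le_mul_of_nonneg_left ?_ (by positivity)
  refine (sum_split hl (fun S => ∏ p ∈ S, 1 / Nm p) h0).trans ?_
  exact mul_le_mul h1 (hM5 k z z s 0 le_rfl).1 (Finset.sum_nonneg fun S _ => h0 S)
    (by positivity)

theorem Wt_le {r : ℕ} (I : Fin r → ℕ) (l : k[X]) {B : ℝ} (hB : (∑ i, I i : ℕ) ≤ B) :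
    Wt I l ≤ B ^ (2 * r) := by
  have hB0 : 0 ≤ B := le_trans (by positivity) hB
  by_cases h : Wt I l = 0
  · rw [h]
    positivity
  obtain ⟨p₀, h1, h2⟩ := exists_of_Wt_ne_zero h
  have hl : l.Monic := h2 ▸ monic_prod_of_monic _ _ fun i _ => (h1 i).1.1
  have hd : l.natDegree = ∑ i, I i := by
    rw [← h2, natDegree_prod_of_monic _ _ fun i _ => (h1 i).1.1]
    exact Finset.sum_congr rfl fun i _ => (h1 i).2
  have h3 : ∏ i, (I i : ℝ) ≤ B ^ r := by
    calc ∏ i, (I i : ℝ) ≤ ∏ _i : Fin r, B := by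
          refine Finset.prod_le_prod (fun _ _ => by positivity) fun i _ => le_trans ?_ hB
          exact_mod_cast Finset.single_le_sum (f := I) (fun _ _ => Nat.zero_le _)
            (Finset.mem_univ i)
      _ = B ^ r := by simp
  have h4 : ((((Fintype.piFinset fun i => PrD k (I i)).filter
      fun p : Fin r → k[X] => ∏ i, p i = l).card : ℕ) : ℝ) ≤ B ^ r := by
    have h5 : ((Fintype.piFinset fun i => PrD k (I i)).filter
        fun p : Fin r → k[X] => ∏ i, p i = l) ⊆ Fintype.piFinset fun _ : Fin r => pf l := by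
      intro p hp
      rw [Finset.mem_filter, Fintype.mem_piFinset] at hp
      refine Fintype.mem_piFinset.2 fun i => (mem_pf hl.ne_zero).2 ⟨(mem_PrD.1 (hp.1 i)).1, ?_⟩
      rw [← hp.2]
      exact Finset.dvd_prod_of_mem _ (Finset.mem_univ i)
    have h6 := Finset.card_le_card h5
    rw [Fintype.card_piFinset, Finset.prod_const, Finset.card_univ, Fintype.card_fin] at h6
    have h7 : ((pf l).card : ℝ) ≤ B := by
      refine le_trans ?_ hB
      exact_mod_cast hd ▸ card_pf_le hl.ne_zero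
    calc _ ≤ (((pf l).card ^ r : ℕ) : ℝ) := by exact_mod_cast h6
      _ ≤ B ^ r := by
        rw [Nat.cast_pow]
        exact pow_le_pow_left₀ (by positivity) h7 r
  rw [Wt, ← Finset.sum_filter, Finset.sum_const, nsmul_eq_mul, two_mul, pow_add]
  refine mul_le_mul ?_ h3 (Finset.prod_nonneg fun _ _ => by positivity) (by positivity)
  refine le_trans (le_of_eq ?_) h4
  congr
  exact Subsingleton.elim _ _

theorem sum_le {r τ : ℕ} {I : Fin r → ℕ} (hr : r ≤ 67) (hI : ∀ i, I i ≤ 32 * τ) :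
    ∑ i, I i ≤ 2144 * τ := by
  have := Finset.sum_le_card_nsmul Finset.univ I (32 * τ) fun i _ => hI i
  rw [Finset.card_univ, Fintype.card_fin, smul_eq_mul] at this
  nlinarith

theorem le_K {x a A η t : ℝ} {i n j m : ℕ} (hx : x ≤ a * t ^ i * η ^ j) (ha : 0 ≤ a) (hA : a ≤ A)
    (ht : 1 ≤ t) (hη : 1 ≤ η) (hi : i ≤ n) (hj : j ≤ m) : x ≤ A * t ^ n * η ^ m := by
  refine hx.trans (mul_le_mul (mul_le_mul hA (pow_le_pow_right₀ ht hi) (by positivity)
    (ha.trans hA)) (pow_le_pow_right₀ hη hj) (by positivity) ?_)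
  have := ha.trans hA
  positivity

theorem pow_le_K {x c A η t : ℝ} {i n m : ℕ} (hx0 : 0 ≤ x) (hx : x ≤ c * t) (hc : 1 ≤ c)
    (hA : c ^ n ≤ A) (ht : 1 ≤ t) (hη : 1 ≤ η) (hi : i ≤ n) : x ^ i ≤ A * t ^ n * η ^ m := by
  refine le_K (a := c ^ i) (i := i) (j := 0) ?_ (by positivity)
    ((pow_le_pow_right₀ hc hi).trans hA) ht hη hi (Nat.zero_le _)
  rw [pow_zero, mul_one, ← mul_pow]
  exact pow_le_pow_left₀ hx0 hx i

end K

theorem stK (hVar : StVar) (hM5 : StM5) : StK := by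
  intro k _ _ _ θ hθ
  obtain ⟨η, hη, hηθ⟩ : ∃ η : ℝ, 1 < η ∧ η ^ 5201 = θ :=
    ⟨θ ^ ((5201 : ℕ) : ℝ)⁻¹, Real.one_lt_rpow hθ (by positivity),
      Real.rpow_inv_natCast_pow (by linarith) (by norm_num)⟩
  obtain ⟨C₀, hC₀⟩ := stOm k η hη
  obtain ⟨C, hC0, hC⟩ : ∃ C : ℝ, 0 ≤ C ∧
      ∀ M : k[X], M ≠ 0 → (4 : ℝ) ^ (pf M).card ≤ C * η ^ M.natDegree :=
    ⟨|C₀|, abs_nonneg _, fun M hM => (hC₀ M hM).trans
      (mul_le_mul_of_nonneg_right (le_abs_self _) (by positivity))⟩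
  obtain ⟨c, hc, hV⟩ := hVar k
  obtain ⟨B, hB0, hB⟩ := K.poly_le hη 134
  obtain ⟨A, hA1, hA2, hA3, hA4⟩ : ∃ A : ℝ, 6000 ≤ A ∧ C ≤ A ∧ 200 * C ^ 2 ≤ A ∧
      (2144 * c) ^ 134 ≤ A := by
    have h1 : 0 ≤ (2144 * c) ^ 134 := by positivity
    have h2 : 0 ≤ 200 * C ^ 2 := by positivity
    generalize (2144 * c) ^ 134 = y at h1 ⊢
    exact ⟨6000 + C + 200 * C ^ 2 + y, by linarith, by linarith, by linarith, by linarith⟩
  have hc' : 1 ≤ 2144 * c := by linarith
  refine ⟨A * B, fun τ hτ => ⟨A * ((τ : ℝ) + 1) ^ 134 * η ^ (5200 * τ), ?_, ?_⟩⟩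
  · have h1 : θ ^ τ = η ^ τ * η ^ (5200 * τ) := by
      rw [← hηθ, ← pow_mul, ← pow_add]
      congr 1
      ring
    have h2 : 0 ≤ A := by linarith
    rw [h1, ← mul_assoc, mul_assoc A B]
    exact mul_le_mul_of_nonneg_right (mul_le_mul_of_nonneg_left (hB τ) h2) (by positivity)
  have hτ0 : (0 : ℝ) ≤ τ := by positivity
  have ht : (1 : ℝ) ≤ τ + 1 := by linarith
  refine ⟨?_, fun M hM hd => ?_, fun z s l hl hd hz => ?_, fun r I l hr hI => ?_,
    fun r I M len hr hI hI' hM hlen => ?_⟩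
  · refine K.le_K (i := 1) (j := 0) ?_ (by norm_num) hA1 ht hη.le (by norm_num) (Nat.zero_le _)
    rw [pow_one, pow_zero, mul_one]
    linarith
  · refine K.le_K (i := 0) (j := M.natDegree) ?_ hC0 hA2 ht hη.le (by norm_num) (by omega)
    rw [pow_zero, mul_one]
    exact hC M hM
  · refine K.le_K (i := 1) (j := z + l.natDegree) ((K.wa_le hM5 hη.le hC0 hC z s hl).trans ?_)
      (by positivity) hA3 ht hη.le (by norm_num) (by omega)
    have h1 : (z : ℝ) + 1 ≤ 200 * (τ + 1) := by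
      have : (z : ℝ) ≤ 200 * τ := by exact_mod_cast hz
      linarith
    have h2 : 0 ≤ C ^ 2 * η ^ (z + l.natDegree) := by positivity
    calc C * η ^ z * (C * η ^ l.natDegree * (z + 1))
        = C ^ 2 * η ^ (z + l.natDegree) * (z + 1) := by ring
      _ ≤ C ^ 2 * η ^ (z + l.natDegree) * (200 * (τ + 1)) := mul_le_mul_of_nonneg_left h1 h2
      _ = _ := by ring
  · refine (K.Wt_le I l le_rfl).trans
      (K.pow_le_K (by positivity) ?_ hc' hA4 ht hη.le (by omega))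
    have h1 : ((∑ i, I i : ℕ) : ℝ) ≤ 2144 * τ := by exact_mod_cast K.sum_le hr hI
    nlinarith
  · obtain ⟨θ', h1, h2⟩ := hV r I M len (6 * τ) (by omega) (fun i => by have := hI i; omega) hM
      hlen
    have h3 : c * ((∑ i, I i + 2 : ℕ) : ℝ) ≤ 2144 * c * (τ + 1) := by
      have h4 : ((∑ i, I i : ℕ) : ℝ) ≤ 2144 * τ := by exact_mod_cast K.sum_le hr hI'
      rw [Nat.cast_add, Nat.cast_ofNat]
      nlinarith
    have h4 : 0 ≤ c * ((∑ i, I i + 2 : ℕ) : ℝ) := by positivity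
    have h5 : (0 : ℝ) < qR k := qR_pos
    refine ⟨θ', h1.trans (div_le_div_of_nonneg_right ?_ (by positivity)),
      h2.trans (div_le_div_of_nonneg_right ?_ (by positivity))⟩
    · exact K.pow_le_K h4 h3 hc' hA4 ht hη.le (by omega)
    · exact K.pow_le_K h4 h3 hc' hA4 ht hη.le (by omega)

end Pool.Agent.Lib.MP_9227d9_nt.Mob
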