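import Pool.Agent.Lib.MP_9227d9_nt.MobOd

/-!
The model of the weight: mean on progressions, tail, approximate inverse.
-/

namespace Pool.Agent.Lib.MP_9227d9_nt.Mob

open Polynomial

open scoped Classical

namespace M1

variable {k : Type} [Field k] [Fintype k]

theorem psi_per (p v t : k[X]) : psi p (v + p * t) = psi p v := psi_congr (by simp)

theorem avg_psi_prog {p : k[X]} (hp : IsP p) (b M : k[X]) :
    avg p.natDegree (fun t => psi p (b + M * t)) = if p ∣ M then psi p b else 0 := by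
  split_ifs with h
  · exact (avg_congr (G := fun _ => psi p b) fun v _ =>
      psi_congr (by simpa using h.mul_right v)).trans (avg_const _ _)
  · rw [avg_affine hp.1.ne_zero le_rfl (psi_per p) (hp.isCoprime_iff.2 h), avg_psi hp]

/-- The small prime factors. -/
noncomputable def sm (s : ℕ) (M : k[X]) : Finset k[X] := (pf M).filter fun p => p.natDegree < s

/-- The sets of small prime factors of large total degree. -/
noncomputable def tl (z s : ℕ) (M : k[X]) : Finset (Finset k[X]) :=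
  (sm s M).powerset.filter fun S => ¬ ∑ p ∈ S, p.natDegree ≤ z

theorem filter_SS {M : k[X]} (hM : M ≠ 0) (z s : ℕ) :
    (SS k z s).filter (fun S => ∀ p ∈ S, p ∣ M) =
      (sm s M).powerset.filter fun S => ∑ p ∈ S, p.natDegree ≤ z := by
  ext S
  simp only [Finset.mem_filter, mem_SS, Finset.mem_powerset, sm, Finset.subset_iff, mem_pf hM]
  exact ⟨fun h => ⟨fun p hp => ⟨⟨(h.1.1 p hp).1, h.2 p hp⟩, (h.1.1 p hp).2⟩, h.1.2⟩,
    fun h => ⟨⟨fun p hp => ⟨(h.1 hp).1.1, (h.1 hp).2⟩, h.2⟩, fun p hp => (h.1 hp).1.2⟩⟩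

theorem prod_sub_sum {M : k[X]} (hM : M ≠ 0) (z s : ℕ) (g : k[X] → ℝ) :
    ∏ p ∈ sm s M, (1 + g p) - ∑ S ∈ (SS k z s).filter (fun S => ∀ p ∈ S, p ∣ M), ∏ p ∈ S, g p =
      ∑ S ∈ tl z s M, ∏ p ∈ S, g p := by
  rw [Finset.prod_one_add, filter_SS hM, tl, sub_eq_iff_eq_add',
    Finset.sum_filter_add_sum_filter_not]

theorem card_powerset_le (s : ℕ) (M : k[X]) {T : Finset (Finset k[X])}
    (h : T ⊆ (sm s M).powerset) : (T.card : ℝ) ≤ 2 ^ (pf M).card := by
  have h1 := Finset.card_le_card h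
  rw [Finset.card_powerset] at h1
  exact_mod_cast h1.trans (Nat.pow_le_pow_right two_pos (Finset.card_filter_le _ _))

theorem tail_le (M : k[X]) (z s : ℕ) {g : k[X] → ℝ} {c : ℝ} (hc : 1 ≤ c)
    (hg : ∀ p, IsP p → |g p| ≤ c / Nm p) :
    |∑ S ∈ tl z s M, ∏ p ∈ S, g p| ≤ (2 * c) ^ (pf M).card / qR k ^ z := by
  have h0 : (0 : ℝ) < qR k ^ z := pow_pos qR_pos z
  have h1 : ∀ S ∈ tl z s M, |∏ p ∈ S, g p| ≤ c ^ (pf M).card / qR k ^ z := fun S hS => by
    obtain ⟨h2, h3⟩ := Finset.mem_filter.1 hS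
    have h4 : S ⊆ pf M := (Finset.mem_powerset.1 h2).trans (Finset.filter_subset _ _)
    rw [Finset.abs_prod]
    refine (Finset.prod_le_prod (fun p _ => abs_nonneg _)
      fun p hp => hg p (isP_of_mem_pf (h4 hp))).trans ?_
    rw [Finset.prod_div_distrib, Finset.prod_const, prod_Nm]
    exact div_le_div₀ (by positivity) (pow_le_pow_right₀ hc (Finset.card_le_card h4)) h0
      (pow_le_pow_right₀ one_le_qR (by omega))
  refine (Finset.abs_sum_le_sum_abs _ _).trans ((Finset.sum_le_card_nsmul _ _ _ h1).trans ?_)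
  rw [nsmul_eq_mul, mul_pow, mul_div_assoc]
  exact mul_le_mul_of_nonneg_right (card_powerset_le s M (Finset.filter_subset _ _))
    (by positivity)

theorem orth {A S S' : Finset k[X]} {d : ℕ} (hA : ∀ p ∈ A, IsP p)
    (hd : ∑ p ∈ A, p.natDegree ≤ d) (hS : S ⊆ A) (hS' : S' ⊆ A) :
    avm d (fun b => (∏ p ∈ S, psi p b) * ∏ p ∈ S', psi p b) =
      if S = S' then ∏ p ∈ S, 1 / (Nm p - 1) else 0 := by
  have h1 : ∀ {T : Finset k[X]}, T ⊆ A → ∀ f : k[X] → ℝ,
      ∏ p ∈ T, f p = ∏ p ∈ A, if p ∈ T then f p else 1 := fun hT f => by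
    rw [Finset.prod_ite_mem, Finset.inter_eq_right.2 hT]
  have h2 := avg_prod (n := d) A id
    (fun p b => (if p ∈ S then psi p b else 1) * if p ∈ S' then psi p b else 1)
    (fun p hp => (hA p hp).1.ne_zero) (fun p hp p' hp' => (hA p hp).isCoprime (hA p' hp'))
    (fun p _ v t => by simp only [id, psi_per]) hd (X ^ d)
  rw [avm]
  simp only [h1 hS, h1 hS', ← Finset.prod_mul_distrib]
  rw [h2]
  split_ifs with h
  · subst h
    refine Finset.prod_congr rfl fun p hp => ?_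
    split_ifs
    · simpa only [id, pow_two] using avg_psi_sq (hA p hp)
    · simpa using avg_const p.natDegree 1
  · rw [Finset.ext_iff, not_forall] at h
    obtain ⟨p, hp⟩ := h
    by_cases h3 : p ∈ S
    · have h4 : p ∉ S' := fun h4 => hp (iff_of_true h3 h4)
      refine Finset.prod_eq_zero (hS h3) ?_
      simpa [h3, h4] using avg_psi (hA p (hS h3))
    · have h4 : p ∈ S' := by_contra fun h4 => hp (iff_of_false h3 h4)
      refine Finset.prod_eq_zero (hS' h4) ?_
      simpa [h3, h4] using avg_psi (hA p (hS' h4))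

theorem sum_Mo (z : ℕ) : ∑ g ∈ Mo k z, 1 / Nm g = z + 1 := by
  rw [← Finset.sum_fiberwise_of_maps_to (g := natDegree) (t := Finset.range (z + 1))
    fun g hg => Finset.mem_range.2 (Nat.lt_succ_of_le (mem_Mo.1 hg).2)]
  rw [Finset.sum_congr rfl (g := fun _ => (1 : ℝ)) fun n hn => ?_]
  · simp
  · rw [Finset.sum_congr rfl (g := fun _ => 1 / qR k ^ n) fun g hg => by
      rw [Nm, (Finset.mem_filter.1 hg).2], Finset.sum_const, nsmul_eq_mul,
      card_MD z n (Nat.le_of_lt_succ (Finset.mem_range.1 hn)),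
      mul_one_div_cancel (pow_pos qR_pos n).ne']

theorem sum_SS (z s : ℕ) : ∑ S ∈ SS k z s, ∏ p ∈ S, 1 / Nm p ≤ z + 1 := by
  have h0 : ∀ S ∈ SS k z s, ∀ p ∈ S, IsP p := fun S hS p hp => ((mem_SS.1 hS).1 p hp).1
  have h1 : Set.InjOn (fun S : Finset k[X] => ∏ p ∈ S, p) (SS k z s) := fun S hS S' hS' h => by
    rw [← pf_prod (h0 S hS), ← pf_prod (h0 S' hS')]
    exact congrArg pf h
  rw [← sum_Mo (k := k), Finset.sum_congr rfl (g := fun S => 1 / Nm (∏ p ∈ S, p)) fun S hS => by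
    rw [Nm_prod (h0 S hS), Finset.prod_div_distrib, Finset.prod_const_one],
    ← Finset.sum_image (f := fun g => 1 / Nm g) h1]
  refine Finset.sum_le_sum_of_subset_of_nonneg (fun g hg => ?_)
    fun g _ _ => (one_div_pos.2 (Nm_pos g)).le
  obtain ⟨S, hS, rfl⟩ := Finset.mem_image.1 hg
  exact mem_Mo.2 ⟨monic_prod (h0 S hS), natDegree_prod_isP (h0 S hS) ▸ (mem_SS.1 hS).2⟩

end M1

open M1

theorem stM1 : StM1 := by
  intro k _ _ z s len b M hz
  simp only [wm]
  rw [avg_sum, Finset.sum_filter]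
  refine Finset.sum_congr rfl fun S hS => ?_
  obtain ⟨h1, h2⟩ := mem_SS.1 hS
  have h3 := avg_prod (n := len) S id (fun p t => psi p (b + M * t))
    (fun p hp => (h1 p hp).1.1.ne_zero) (fun p hp p' hp' => (h1 p hp).1.isCoprime (h1 p' hp').1)
    (fun p _ v t => psi_congr ⟨M * t, by simp only [id]; ring⟩) (h2.trans hz) 0
  simp only [zero_add, id] at h3
  rw [h3, Finset.prod_congr rfl fun p hp => avg_psi_prog (h1 p hp).1 b M]
  split_ifs with h
  · exact Finset.prod_congr rfl fun p hp => if_pos (h p hp)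
  · push Not at h
    obtain ⟨p, hp, h⟩ := h
    exact Finset.prod_eq_zero hp (if_neg h)

theorem stM2 : StM2 := by
  intro k _ _ z s d M hM hd
  have h1 : ∀ S ∈ tl z s M, S ⊆ pf M := fun S hS =>
    (Finset.mem_powerset.1 (Finset.mem_filter.1 hS).1).trans (Finset.filter_subset _ _)
  have h2 : ∀ b : k[X], (∏ p ∈ (pf M).filter (fun p => p.natDegree < s), (1 + psi p b) -
      ∑ S ∈ (SS k z s).filter (fun S => ∀ p ∈ S, p ∣ M), ∏ p ∈ S, psi p b) ^ 2 =
      ∑ S ∈ tl z s M, ∑ S' ∈ tl z s M, (∏ p ∈ S, psi p b) * ∏ p ∈ S', psi p b := fun b => by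
    rw [← Finset.sum_mul_sum, ← prod_sub_sum hM z s fun p => psi p b, pow_two, sm]
  simp only [h2, avm_sum]
  rw [Finset.sum_congr rfl (g := fun S => ∏ p ∈ S, 1 / (Nm p - 1)) fun S hS => by
    rw [Finset.sum_congr rfl fun S' hS' => orth (fun p => isP_of_mem_pf)
      ((sum_natDegree_pf_le hM).trans hd) (h1 S hS) (h1 S' hS'), Finset.sum_ite_eq, if_pos hS]]
  have h3 := tail_le M z s (g := fun p => 1 / (Nm p - 1)) one_le_two fun p hp => by
    rw [abs_of_pos (one_div_Nm_sub_le hp).1]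
    exact (one_div_Nm_sub_le hp).2
  rw [show (2 * 2 : ℝ) = 4 by norm_num] at h3
  exact (le_abs_self _).trans h3

theorem stM5 : StM5 := by
  intro k _ _ z z₂ s Z hz
  refine ⟨sum_SS z s, ?_, fun hZ => ?_⟩
  · refine (Finset.abs_sum_le_sum_abs _ _).trans (le_trans ?_ (sum_SS (k := k) z s))
    refine (Finset.sum_le_sum_of_subset_of_nonneg (Finset.filter_subset _ _)
      fun _ _ _ => abs_nonneg _).trans (Finset.sum_le_sum fun S _ => le_of_eq ?_)
    rw [Finset.abs_prod]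
    exact Finset.prod_congr rfl fun p _ => by rw [abs_div, abs_neg, abs_one, abs_of_pos (Nm_pos p)]
  have hA : ∀ p ∈ sm s Z, 2 ≤ Nm p := fun p hp =>
    (isP_of_mem_pf (Finset.mem_filter.1 hp).1).two_le_Nm
  have h1 := tail_le Z z s (g := fun p => -1 / Nm p) le_rfl fun p _ => by
    rw [abs_div, abs_neg, abs_one, abs_of_pos (Nm_pos p)]
  have h2 := tail_le Z z₂ s (g := fun p => 1 / (Nm p - 1)) one_le_two fun p hp => by
    rw [abs_of_pos (one_div_Nm_sub_le hp).1]
    exact (one_div_Nm_sub_le hp).2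
  rw [← prod_sub_sum hZ, ← rho, mul_one] at h1
  rw [← prod_sub_sum hZ, ← f0, show (2 * 2 : ℝ) = 4 by norm_num] at h2
  have h3 : (∏ p ∈ sm s Z, (1 + -1 / Nm p)) * ∏ p ∈ sm s Z, (1 + 1 / (Nm p - 1)) = 1 := by
    rw [← Finset.prod_mul_distrib]
    refine Finset.prod_eq_one fun p hp => ?_
    have h4 := hA p hp
    have h5 : Nm p - 1 ≠ 0 := by linarith
    have h6 : Nm p ≠ 0 := by linarith
    field_simp
    ring
  have h4 : |∏ p ∈ sm s Z, (1 + -1 / Nm p)| ≤ 1 := by
    rw [Finset.abs_prod]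
    refine Finset.prod_le_one (fun _ _ => abs_nonneg _) fun p hp => abs_le.2 ?_
    have h5 : 1 / Nm p ≤ 1 := (div_le_one (Nm_pos p)).2 (by linarith [hA p hp])
    have h6 := one_div_pos.2 (Nm_pos p)
    rw [neg_div]
    constructor <;> linarith
  have h5 : |f0 z₂ s Z| ≤ 2 ^ (pf Z).card := by
    rw [f0, filter_SS hZ]
    refine (Finset.abs_sum_le_sum_abs _ _).trans ((Finset.sum_le_card_nsmul _ _ 1
      fun S hS => ?_).trans ?_)
    · rw [Finset.abs_prod]
      refine Finset.prod_le_one (fun _ _ => abs_nonneg _) fun p hp => ?_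
      have h6 := hA p (Finset.mem_powerset.1 (Finset.mem_filter.1 hS).1 hp)
      rw [abs_of_pos (one_div_pos.2 (by linarith))]
      exact (div_le_one (by linarith)).2 (by linarith)
    · rw [nsmul_eq_mul, mul_one]
      exact card_powerset_le s Z (Finset.filter_subset _ _)
  generalize ∏ p ∈ sm s Z, (1 + -1 / Nm p) = R at h1 h3 h4
  generalize ∏ p ∈ sm s Z, (1 + 1 / (Nm p - 1)) = F at h2 h3
  have h6 : (4 : ℝ) ^ (pf Z).card / qR k ^ z₂ ≤ 4 ^ (pf Z).card / qR k ^ z :=
    div_le_div_of_nonneg_left (by positivity) (pow_pos qR_pos z) (pow_le_pow_right₀ one_le_qR hz)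
  have h7 := mul_le_mul h4 (h2.trans h6) (abs_nonneg _) zero_le_one
  have h8 := mul_le_mul h1 h5 (abs_nonneg _) ((abs_nonneg _).trans h1)
  rw [div_mul_eq_mul_div, ← mul_pow, show (2 * 2 : ℝ) = 4 by norm_num, ← abs_mul] at h8
  rw [← abs_mul, one_mul] at h7
  rw [show 1 - rho z s Z * f0 z₂ s Z = R * (F - f0 z₂ s Z) + (R - rho z s Z) * f0 z₂ s Z by
    linear_combination -h3, mul_div_assoc, two_mul]
  exact (abs_add_le _ _).trans (add_le_add h7 h8)

end Pool.Agent.Lib.MP_9227d9_nt.Mob
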