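import Pool.Agent.Lib.MP_9227d9_nt.MobOd

/-!
The mean of the product of the two models.
-/

namespace Pool.Agent.Lib.MP_9227d9_nt.Mob

open Polynomial

open scoped Classical

namespace M4

variable {k : Type} [Field k] [Fintype k]

/-- A periodic function may be averaged over arbitrary shifts. -/
theorem avg_shift_periodic {M : k[X]} {F : k[X] → ℝ} (hM : M ≠ 0)
    (hF : ∀ v t, F (v + M * t) = F v) (L : ℕ) (c : k[X] → k[X]) :
    avg M.natDegree F = avg M.natDegree fun v => avg L fun t => F (v + c t) := by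
  rw [avg_comm]
  have h : ∀ t : k[X], t.degree < L →
      avg M.natDegree (fun v => F (v + c t)) = avg M.natDegree F := by
    intro t _
    have h1 := avg_periodic (n := M.natDegree) hM le_rfl hF (c t)
    rw [← h1]
    exact avg_congr fun v _ => by rw [add_comm]
  rw [avg_congr h, avg_const]

theorem psi_periodic (p l t : k[X]) : psi p (l + p * t) = psi p l :=
  psi_congr (by rw [add_sub_cancel_left]; exact dvd_mul_right p t)

variable [CharP k 2]

theorem od_shift (G p v t : k[X]) : od (G * (v + p ^ 2 * t)) = od (G * v) + p * od (G * t) := by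
  have h : G * (v + p ^ 2 * t) = G * v + G * t * p ^ 2 := by ring
  rw [h, od_add, od_mul_sq]

/-- The image of the uniform measure modulo `p ^ 2` is uniform modulo `p`. -/
theorem avg_od {p G : k[X]} (hp : IsP p) (hG : ¬ p ^ 2 ∣ G) {Φ : k[X] → ℝ}
    (hΦ : ∀ v t, Φ (v + p * t) = Φ v) :
    avg (p ^ 2).natDegree (fun u => Φ (od (G * u))) = avg p.natDegree Φ := by
  obtain ⟨e, -, he⟩ := exists_not_dvd_od hp hG
  have hp0 : p ≠ 0 := hp.prime.ne_zero
  have hper : ∀ v t, (fun u => Φ (od (G * u))) (v + p ^ 2 * t) = (fun u => Φ (od (G * u))) v := by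
    intro v t
    simp only [od_shift, hΦ]
  rw [avg_shift_periodic (pow_ne_zero 2 hp0) hper p.natDegree fun t => X ^ e * t ^ 2]
  have h : ∀ v : k[X], v.degree < (p ^ 2).natDegree →
      avg p.natDegree (fun t => Φ (od (G * (v + X ^ e * t ^ 2)))) = avg p.natDegree Φ := by
    intro v _
    have h1 := avg_affine (n := p.natDegree) hp0 le_rfl hΦ (hp.isCoprime_iff.2 he) (od (G * v))
    rw [← h1]
    refine avg_congr fun t _ => ?_
    have h2 : G * (v + X ^ e * t ^ 2) = G * v + G * X ^ e * t ^ 2 := by ring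
    rw [h2, od_add, od_mul_sq, mul_comm t]
  rw [avg_congr h, avg_const]

/-- Two independent linear forms. -/
theorem avg_two_of_not_dvd {p G H : k[X]} (hp : IsP p) (hZ : ¬ p ∣ od (G * H)) :
    avg (p ^ 2).natDegree (fun u => psi p (od (G * u)) * psi p (od (H * u))) = 0 := by
  have hp0 : p ≠ 0 := hp.prime.ne_zero
  have hper : ∀ v t, (fun u => psi p (od (G * u)) * psi p (od (H * u))) (v + p ^ 2 * t) =
      (fun u => psi p (od (G * u)) * psi p (od (H * u))) v := by
    intro v t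
    simp only [od_shift, psi_periodic]
  rw [avg_shift_periodic (pow_ne_zero 2 hp0) hper p.natDegree fun t => G * t ^ 2]
  have h : ∀ v : k[X], v.degree < (p ^ 2).natDegree →
      avg p.natDegree (fun t => psi p (od (G * (v + G * t ^ 2))) *
        psi p (od (H * (v + G * t ^ 2)))) = 0 := by
    intro v _
    have h1 := avg_affine (n := p.natDegree) hp0 le_rfl (psi_periodic p)
      (hp.isCoprime_iff.2 hZ) (od (H * v))
    rw [avg_psi hp] at h1
    have h2 : avg p.natDegree (fun t => psi p (od (G * (v + G * t ^ 2))) *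
        psi p (od (H * (v + G * t ^ 2)))) = avg p.natDegree
          (fun t => psi p (od (G * v)) * psi p (od (H * v) + od (G * H) * t)) := by
      refine avg_congr fun t _ => ?_
      have h3 : G * (v + G * t ^ 2) = G * v + (G * t) ^ 2 := by ring
      have h4 : H * (v + G * t ^ 2) = H * v + G * H * t ^ 2 := by ring
      rw [h3, h4, od_add, od_add, od_sq, od_mul_sq, add_zero, mul_comm t]
    rw [h2, avg_mul_left, h1, mul_zero]
  rw [avg_congr h, avg_const]

/-- Two proportional linear forms. -/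
theorem dvd_od_of_dvd {p G H u : k[X]} (hp : IsP p) (hG : ¬ p ^ 2 ∣ G) (hZ : p ∣ od (G * H))
    (h : p ∣ od (G * u)) : p ∣ od (H * u) := by
  by_contra hB
  have h2 : (2 : k[X]) = 0 := CharTwo.two_eq_zero
  have e1 : ev G * od (H * u) = od (G * H) * ev u - ev H * od (G * u) := by
    simp only [od_mul]
    linear_combination (ev G * ev H * od u) * h2
  have e2 : od G * od (H * u) = od (G * H) * od u - od H * od (G * u) := by
    simp only [od_mul]
    linear_combination (od G * od H * ev u) * h2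
  have d1 : p ∣ ev G := by
    refine (hp.prime.dvd_or_dvd (b := od (H * u)) ?_).resolve_right hB
    rw [e1]
    exact dvd_sub (hZ.mul_right _) (h.mul_left _)
  have d2 : p ∣ od G := by
    refine (hp.prime.dvd_or_dvd (b := od (H * u)) ?_).resolve_right hB
    rw [e2]
    exact dvd_sub (hZ.mul_right _) (h.mul_left _)
  apply hG
  rw [ev_od G]
  exact dvd_add (pow_dvd_pow_of_dvd d1 2) ((pow_dvd_pow_of_dvd d2 2).mul_left _)

theorem avg_two_of_dvd {p G H : k[X]} (hp : IsP p) (hG : ¬ p ^ 2 ∣ G) (hH : ¬ p ^ 2 ∣ H)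
    (hZ : p ∣ od (G * H)) :
    avg (p ^ 2).natDegree (fun u => psi p (od (G * u)) * psi p (od (H * u))) =
      1 / (Nm p - 1) := by
  have h1 := avg_od hp hG (Φ := fun l => psi p l ^ 2) fun v t => by simp only [psi_periodic]
  rw [avg_psi_sq hp] at h1
  rw [← h1]
  refine avg_congr fun u _ => ?_
  have h2 : psi p (od (H * u)) = psi p (od (G * u)) := by
    have h3 : p ∣ od (H * u) ↔ p ∣ od (G * u) :=
      ⟨dvd_od_of_dvd hp hH (by rwa [mul_comm]), dvd_od_of_dvd hp hG hZ⟩
    simp only [psi, h3]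
  rw [h2, sq]

omit [Fintype k] [CharP k 2] in
theorem not_sq_dvd {p G : k[X]} (hp : IsP p) (hG : Squarefree G) : ¬ p ^ 2 ∣ G := fun h =>
  hp.2.not_isUnit (hG p (by rwa [← sq]))

/-- The mean of one term of the expansion. -/
theorem avm_term {G H : k[X]} (hG : Squarefree G) (hH : Squarefree H) {S₁ S₂ : Finset k[X]}
    (h₁ : ∀ p ∈ S₁, IsP p) (h₂ : ∀ p ∈ S₂, IsP p) {nu : ℕ}
    (hn : 2 * (∑ p ∈ S₁, p.natDegree + ∑ p ∈ S₂, p.natDegree) ≤ nu) :
    avm nu (fun u => (∏ p ∈ S₁, psi p (od (G * u))) * ∏ p ∈ S₂, psi p (od (H * u))) =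
      if S₁ = S₂ then (if ∀ p ∈ S₂, p ∣ od (G * H) then ∏ p ∈ S₂, 1 / (Nm p - 1) else 0)
      else 0 := by
  set F : k[X] → k[X] → ℝ := fun p u => (if p ∈ S₁ then psi p (od (G * u)) else 1) *
    (if p ∈ S₂ then psi p (od (H * u)) else 1) with hF
  have hT : ∀ p ∈ S₁ ∪ S₂, IsP p := fun p hp =>
    (Finset.mem_union.1 hp).elim (h₁ p) (h₂ p)
  have e : ∀ u, (∏ p ∈ S₁, psi p (od (G * u))) * ∏ p ∈ S₂, psi p (od (H * u)) =
      ∏ p ∈ S₁ ∪ S₂, F p u := by
    intro u
    rw [hF]
    simp only [Finset.prod_mul_distrib, Finset.prod_ite_mem, Finset.union_inter_cancel_left,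
      Finset.union_inter_cancel_right]
  have hdeg : ∑ p ∈ S₁ ∪ S₂, (p ^ 2).natDegree ≤ nu := by
    have h3 : ∑ p ∈ S₁ ∪ S₂, p.natDegree ≤ ∑ p ∈ S₁, p.natDegree + ∑ p ∈ S₂, p.natDegree := by
      rw [← Finset.sum_union_inter]
      exact Nat.le_add_right _ _
    simp only [natDegree_pow, ← Finset.mul_sum]
    omega
  have key := avg_prod (n := nu) (S₁ ∪ S₂) (fun p => p ^ 2) F
    (fun p hp => pow_ne_zero 2 (hT p hp).prime.ne_zero)
    (fun p hp p' hp' hne => ((hT p hp).isCoprime (hT p' hp') hne).pow)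
    (fun p _ v t => by simp only [hF, od_shift, psi_periodic]) hdeg (X ^ nu)
  have e2 : avm nu (fun u => (∏ p ∈ S₁, psi p (od (G * u))) * ∏ p ∈ S₂, psi p (od (H * u))) =
      ∏ p ∈ S₁ ∪ S₂, avg (p ^ 2).natDegree (F p) := by
    rw [← key]
    simp only [avm, e]
  rw [e2]
  split_ifs with h12 hd
  · subst h12
    rw [Finset.union_self]
    refine Finset.prod_congr rfl fun p hp => ?_
    rw [← avg_two_of_dvd (h₁ p hp) (not_sq_dvd (h₁ p hp) hG) (not_sq_dvd (h₁ p hp) hH) (hd p hp)]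
    simp only [hF, if_pos hp]
  · subst h12
    push Not at hd
    obtain ⟨p, hp, hpd⟩ := hd
    refine Finset.prod_eq_zero (Finset.mem_union_left _ hp) ?_
    rw [← avg_two_of_not_dvd (h₁ p hp) hpd]
    simp only [hF, if_pos hp]
  · by_cases hs : S₁ ⊆ S₂
    · have hs' : ¬ S₂ ⊆ S₁ := fun h => h12 (Finset.Subset.antisymm hs h)
      obtain ⟨p, hp2, hp1⟩ := Finset.not_subset.1 hs'
      refine Finset.prod_eq_zero (Finset.mem_union_right _ hp2) ?_
      rw [← avg_psi (h₂ p hp2), ← avg_od (h₂ p hp2) (not_sq_dvd (h₂ p hp2) hH) (psi_periodic p)]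
      simp only [hF, if_pos hp2, if_neg hp1, one_mul]
    · obtain ⟨p, hp1, hp2⟩ := Finset.not_subset.1 hs
      refine Finset.prod_eq_zero (Finset.mem_union_left _ hp1) ?_
      rw [← avg_psi (h₁ p hp1), ← avg_od (h₁ p hp1) (not_sq_dvd (h₁ p hp1) hG) (psi_periodic p)]
      simp only [hF, if_pos hp1, if_neg hp2, mul_one]

end M4

theorem stM4 : StM4 := by
  intro k _ _ _ z₁ z₂ s nu G H hG hH hz hn
  have e : ∀ u : k[X], wm z₁ s (od (G * u)) * wm z₂ s (od (H * u)) =
      ∑ S₂ ∈ SS k z₂ s, ∑ S₁ ∈ SS k z₁ s,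
        (∏ p ∈ S₁, psi p (od (G * u))) * ∏ p ∈ S₂, psi p (od (H * u)) := by
    intro u
    rw [wm, wm, Finset.sum_mul_sum, Finset.sum_comm]
  simp only [e]
  rw [avm_sum, f0, Finset.sum_filter]
  refine Finset.sum_congr rfl fun S₂ hS₂ => ?_
  rw [avm_sum]
  have h₂ := mem_SS.1 hS₂
  have hm : S₂ ∈ SS k z₁ s := mem_SS.2 ⟨h₂.1, h₂.2.trans hz⟩
  rw [Finset.sum_congr rfl fun S₁ hS₁ => M4.avm_term hG hH
    (fun p hp => ((mem_SS.1 hS₁).1 p hp).1) (fun p hp => (h₂.1 p hp).1)
    (le_trans (Nat.mul_le_mul_left 2 (Nat.add_le_add (mem_SS.1 hS₁).2 h₂.2)) hn),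
    Finset.sum_ite_eq', if_pos hm]

end Pool.Agent.Lib.MP_9227d9_nt.Mob
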