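import Pool.Agent.Lib.MP_9227d9_nt.MobOd
import Pool.Agent.Lib.MP_a3f657_nt.C2LpPrime
import Pool.Agent.Lib.MP_a3f657_nt.C2SfEuler
import Pool.Agent.Lib.MP_a3f657_nt.C2RhMain
import Pool.Agent.Lib.MP_a3f657_nt.C2SfFourier

/-!
Variance of the weight in short progressions.
-/

namespace Pool.Agent.Lib.MP_9227d9_nt.Mob

open Polynomial

open scoped Classical

namespace Var

open Pool.Agent.Lib.MP_a3f657_nt.Two

theorem sum_char {G : Type} [CommGroup G] [Finite G] [Fintype (G →* ℂˣ)] (g : G) :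
    ∑ ψ : G →* ℂˣ, (ψ g : ℂ) = if g = 1 then (Fintype.card (G →* ℂˣ) : ℂ) else 0 := by
  split_ifs with hg
  · simp [hg]
  · obtain ⟨ψ₀, h₀⟩ := CommGroup.exists_apply_ne_one_of_hasEnoughRootsOfUnity G ℂ hg
    have h2 : ∑ ψ : G →* ℂˣ, (ψ g : ℂ) = ψ₀ g * ∑ ψ : G →* ℂˣ, (ψ g : ℂ) := by
      rw [Finset.mul_sum]
      exact (Fintype.sum_equiv (Equiv.mulLeft ψ₀) _ _ fun ψ => by simp).symm
    have h3 : (ψ₀ g : ℂ) - 1 ≠ 0 := sub_ne_zero.2 fun h3 => h₀ (Units.ext h3)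
    apply mul_left_cancel₀ h3
    linear_combination -h2

theorem parseval {G α : Type} [CommGroup G] [Finite G] (s : Finset α) (u : α → G) (a : α → ℝ)
    (B : ℝ) (h : ∀ ψ : G →* ℂˣ, ‖∑ x ∈ s, (a x : ℂ) * ψ (u x)‖ ≤ B) :
    ∑ x ∈ s, a x * ∑ y ∈ s.filter (fun y => u y = u x), a y ≤ B ^ 2 := by
  have := Fintype.ofFinite (G →* ℂˣ)
  have h1 : ((Fintype.card (G →* ℂˣ) *
      ∑ x ∈ s, a x * ∑ y ∈ s.filter (fun y => u y = u x), a y : ℝ) : ℂ) =
      ((∑ ψ : G →* ℂˣ, ‖∑ x ∈ s, (a x : ℂ) * ψ (u x)‖ ^ 2 : ℝ) : ℂ) := by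
    push_cast
    have h2 : ∀ ψ : G →* ℂˣ, ((‖∑ x ∈ s, (a x : ℂ) * ψ (u x)‖ : ℝ) : ℂ) ^ 2 =
        ∑ x ∈ s, ∑ y ∈ s, (a x : ℂ) * a y * ψ (u y * (u x)⁻¹) := by
      intro ψ
      rw [← Complex.conj_mul', map_sum, Finset.sum_mul_sum]
      refine Finset.sum_congr rfl fun x _ => Finset.sum_congr rfl fun y _ => ?_
      rw [map_mul, Complex.conj_ofReal, ← Complex.inv_eq_conj (norm_char ψ (u x)), map_mul,
        map_inv, Units.val_mul, Units.val_inv_eq_inv_val]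
      ring
    simp only [h2]
    rw [Finset.sum_comm, Finset.mul_sum]
    refine Finset.sum_congr rfl fun x _ => ?_
    rw [Finset.sum_comm, Finset.sum_filter, Finset.mul_sum, Finset.mul_sum]
    refine Finset.sum_congr rfl fun y _ => ?_
    rw [← Finset.mul_sum, sum_char, mul_inv_eq_one]
    split_ifs
    · ring
    · ring
  have h3 : (0 : ℝ) < Fintype.card (G →* ℂˣ) := by exact_mod_cast Fintype.card_pos
  refine le_of_mul_le_mul_left ?_ h3
  rw [Complex.ofReal_injective h1, ← Finset.card_univ, ← nsmul_eq_mul]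
  exact Finset.sum_le_card_nsmul _ _ _ fun ψ _ => pow_le_pow_left₀ (norm_nonneg _) (h ψ) 2

theorem one_sub_le_prod {ι : Type} (s : Finset ι) (ρ : ι → ℝ) (ε : ℝ) (h0 : ∀ i, 0 ≤ ρ i)
    (h1 : ∀ i, ρ i ≤ 1) (h2 : ∀ i, 1 - ε ≤ ρ i) : 1 - s.card * ε ≤ ∏ i ∈ s, ρ i := by
  induction s using Finset.induction_on with
  | empty => simp
  | insert j s hj ih =>
    rw [Finset.prod_insert hj, Finset.card_insert_of_notMem hj]
    have h3 : ∏ i ∈ s, ρ i ≤ 1 := Finset.prod_le_one (fun i _ => h0 i) fun i _ => h1 i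
    have h4 := h1 j
    have h5 := h2 j
    push_cast
    nlinarith [mul_nonneg (sub_nonneg.2 h3) (sub_nonneg.2 h4)]

theorem mul_le_pow_two_mul (r : ℕ) {y : ℝ} (hy : 1 ≤ y) : r * y ≤ (2 * y) ^ r := by
  rcases Nat.eq_zero_or_pos r with h | h
  · simp [h]
  · rw [mul_pow]
    have h1 : (r : ℝ) ≤ 2 ^ r := by exact_mod_cast Nat.lt_two_pow_self.le
    have h2 : y ≤ y ^ r := le_self_pow₀ hy h.ne'
    exact mul_le_mul h1 h2 (by linarith) (by positivity)

variable {k : Type} [Field k] [Fintype k]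

/-- The monic polynomials of degree `d` that are prime to `M`. -/
noncomputable def Bd (M : k[X]) (d : ℕ) : Finset k[X] :=
  ((Mo k d).filter fun f => f.natDegree = d).filter fun f => IsCoprime f M

theorem mem_Bd {M f : k[X]} {d : ℕ} : f ∈ Bd M d ↔ MD d f ∧ IsCoprime f M := by
  simp only [Bd, Finset.mem_filter, mem_Mo, MD]
  exact ⟨fun h => ⟨⟨h.1.1.1, h.1.2⟩, h.2⟩, fun h => ⟨⟨⟨h.1.1, h.1.2.le⟩, h.1.2⟩, h.2⟩⟩

theorem card_Bd {M : k[X]} {d : ℕ} (hM : M ≠ 0) (hd : M.natDegree ≤ d) :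
    ((Bd M d).card : ℝ) * cM M = qR k ^ d := by
  have h := avm_isCoprime hM hd
  rw [avm_eq_sum, Finset.sum_boole, div_mul_eq_mul_div, div_eq_one_iff_eq
    (pow_pos qR_pos d).ne'] at h
  exact h

theorem PS_eq_PrD (M : k[X]) (h : k[X] → ℂ) (m : ℕ) :
    PS M h m = ∑ p ∈ PrD k m, if p ∣ M then 0 else (m : ℂ) * h p := by
  rw [PS_eq M h le_rfl, Finset.mul_sum]
  simp only [← ite_not (_ ∣ M)]
  rw [← Finset.sum_filter]
  refine Finset.sum_congr (Finset.ext fun p => ?_) fun _ _ => rfl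
  simp only [Finset.mem_filter, mem_goodLe, mem_PrD, GoodP, IsP]
  exact ⟨fun h => ⟨⟨⟨h.1.2.1, h.1.2.2.1⟩, h.2⟩, h.1.2.2.2⟩,
    fun h => ⟨⟨h.1.2.le, h.1.1.1, h.1.1.2, h.2⟩, h.1.2⟩⟩

theorem sum_Wt {ι : Type} [Fintype ι] (I : ι → ℕ) (M : k[X]) (Ψ : k[X] →* ℂ) :
    ∑ b ∈ Bd M (∑ i, I i), (Wt I b : ℂ) * Ψ b = ∏ i, PS M Ψ (I i) := by
  simp only [PS_eq_PrD, Wt]
  rw [Finset.prod_univ_sum]
  push_cast
  simp only [Finset.sum_mul]
  rw [Finset.sum_comm]
  refine Finset.sum_congr rfl fun p hp => ?_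
  have h1 : ∀ i, IsP (p i) ∧ (p i).natDegree = I i := fun i =>
    mem_PrD.1 (Fintype.mem_piFinset.1 hp i)
  have h2 : MD (∑ i, I i) (∏ i, p i) := by
    refine ⟨monic_prod_of_monic _ _ fun i _ => (h1 i).1.1, ?_⟩
    rw [natDegree_prod_of_monic _ _ fun i _ => (h1 i).1.1]
    exact Finset.sum_congr rfl fun i _ => (h1 i).2
  have h3 : ∀ b, ((if ∏ i, p i = b then ∏ i, (I i : ℝ) else 0 : ℝ) : ℂ) * Ψ b =
      if ∏ i, p i = b then (∏ i, (I i : ℂ)) * Ψ b else 0 := fun b => by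
    split_ifs
    · push_cast
      rfl
    · simp
  simp only [h3]
  rw [Finset.sum_ite_eq]
  by_cases h4 : ∀ i, ¬ p i ∣ M
  · rw [if_pos (mem_Bd.2 ⟨h2, IsCoprime.prod_left fun i _ =>
      ((h1 i).1.isCoprime_iff.2 (h4 i)).symm⟩), map_prod, ← Finset.prod_mul_distrib]
    exact Finset.prod_congr rfl fun i _ => (if_neg (h4 i)).symm
  · push Not at h4
    obtain ⟨i, hi⟩ := h4
    have h5 : ∏ i, p i ∉ Bd M (∑ i, I i) := fun h5 => (h1 i).1.2.not_isUnit
      ((mem_Bd.1 h5).2.isUnit_of_dvd' (Finset.dvd_prod_of_mem _ (Finset.mem_univ i)) hi)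
    rw [if_neg h5]
    refine (Finset.prod_eq_zero (Finset.mem_univ i) ?_).symm
    exact if_pos hi

omit [Fintype k] in
theorem clM_eq_iff {M f g : k[X]} {d K : ℕ} (hf : f.natDegree = d) (hg : g.natDegree = d) :
    clM M K f = clM M K g ↔ M ∣ f - g ∧ (f - g).degree < (d + 1 - K : ℕ) := by
  rw [clM, clM, Prod.mk.injEq, AdjoinRoot.mk_eq_mk, AdjoinRoot.mk_eq_mk, reverse_congr hf hg]

theorem exists_shift {M f₁ f₂ f : k[X]} {d : ℕ} (hd : M.natDegree ≤ d) (h₁ : f₁ ∈ Bd M d)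
    (h₂ : f₂ ∈ Bd M d) (hf : f ∈ Bd M d) :
    ∃ f' ∈ Bd M d, ∃ y : k[X], f * f₁ - f' * f₂ = M * y ∧ y.degree < d := by
  obtain ⟨h₁, c₁⟩ := mem_Bd.1 h₁
  obtain ⟨h₂, c₂⟩ := mem_Bd.1 h₂
  obtain ⟨hf, hc⟩ := mem_Bd.1 hf
  obtain ⟨a, b, hab⟩ := c₂
  have h1 := modByMonic_add_div (f * f₁ * b) f₂
  have h2 := degree_modByMonic_lt (f * f₁ * b) h₂.1
  rw [degree_eq_natDegree h₂.ne_zero, h₂.2] at h2
  set y := f * f₁ * b %ₘ f₂
  have h3 : (a * f * f₁ + f * f₁ * b /ₘ f₂ * M) * f₂ = f * f₁ + -(M * y) := by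
    linear_combination M * h1 + f * f₁ * hab
  have h4 : (-(M * y)).degree < (d + d : ℕ) := by
    rw [degree_neg]
    exact degree_mul_lt h2 (by omega)
  have h5 := (hf.mul h₁).add h4
  rw [← h3] at h5
  have h6 := h₂.1.of_mul_monic_right h5.1
  refine ⟨_, mem_Bd.2 ⟨⟨h6, ?_⟩, IsCoprime.of_mul_left_left (y := f₂) ?_⟩, y, by rw [h3]; ring, h2⟩
  · have := h5.2
    rw [h6.natDegree_mul h₂.1, h₂.2] at this
    omega
  · rw [h3, show f * f₁ + -(M * y) = f * f₁ + M * -y by ring]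
    exact (hc.mul_left c₁).add_mul_left_left _

theorem sum_eq_zero {M : k[X]} {d K : ℕ} (hM : M ≠ 0) (hd : M.natDegree ≤ d)
    (hK : M.natDegree + K ≤ d + 1) (χ : RM M K →* ℂ) {f₁ f₂ : k[X]} (h₁ : f₁ ∈ Bd M d)
    (h₂ : f₂ ∈ Bd M d) (hne : χ (clM M K f₁) ≠ χ (clM M K f₂)) :
    ∑ f ∈ Bd M d, χ (clM M K f) = 0 := by
  have h1 := fun f hf => exists_shift (f := f) hd h₁ h₂ hf
  choose! T hT y hy hy' using h1
  obtain ⟨m₁, c₁⟩ := mem_Bd.1 h₁
  obtain ⟨m₂, c₂⟩ := mem_Bd.1 h₂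
  have h2 : Set.BijOn T (Bd M d) (Bd M d) :=
    ((Bd M d).finite_toSet.injOn_iff_bijOn_of_mapsTo hT).1 fun f hf g hg hfg => by
      have h3 : (f - g) * f₁ = M * (y f - y g) := by
        linear_combination hy f hf - hy g hg + f₂ * hfg
      obtain ⟨z, hz⟩ := c₁.symm.dvd_of_dvd_mul_right ⟨_, h3⟩
      rw [hz, mul_assoc, mul_right_inj' hM] at h3
      have h4 : y f - y g = 0 := eq_zero_of_dvd_of_degree_lt ⟨z, by rw [← h3, mul_comm]⟩ (by
        rw [degree_eq_natDegree m₁.ne_zero, m₁.2]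
        exact (degree_sub_le _ _).trans_lt (max_lt (hy' f hf) (hy' g hg)))
      rw [h4, mul_eq_zero, or_iff_left m₁.ne_zero] at h3
      rw [← sub_eq_zero, hz, h3, mul_zero]
  have h3 : χ (clM M K f₁) * ∑ f ∈ Bd M d, χ (clM M K f) =
      χ (clM M K f₂) * ∑ f ∈ Bd M d, χ (clM M K f) := by
    rw [Finset.mul_sum, Finset.mul_sum]
    refine Finset.sum_nbij T (fun f hf => hT f hf) h2.injOn h2.surjOn fun f hf => ?_
    rw [← map_mul, ← map_mul, ← Lp.clM_mul, ← Lp.clM_mul, mul_comm f₁, mul_comm f₂]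
    congr 1
    rw [clM_eq_iff ((mem_Bd.1 hf).1.mul m₁).2 ((mem_Bd.1 (hT f hf)).1.mul m₂).2, hy f hf]
    exact ⟨dvd_mul_right _ _, degree_mul_lt (hy' f hf) (by omega)⟩
  by_contra h0
  exact hne (mul_right_cancel₀ h0 h3)

omit [Fintype k] in
theorem deg_char {M : k[X]} (Ψ : k[X] →* ℂ) {z : ℂ}
    (h : ∀ p, GoodP M p → Ψ p = z ^ p.natDegree) (n : ℕ) :
    ∀ f : k[X], f.Monic → f.natDegree = n → IsCoprime f M → Ψ f = z ^ n := by
  induction n using Nat.strong_induction_on with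
  | _ n ih =>
    intro f hf hn hc
    by_cases h0 : n = 0
    · rw [h0] at hn
      rw [hf.natDegree_eq_zero.1 hn, h0, map_one, pow_zero]
    · obtain ⟨p, h1, h2, g, rfl⟩ := exists_monic_irreducible_factor f fun hu => by
        rw [natDegree_eq_zero_of_isUnit hu] at hn
        exact h0 hn.symm
      have h3 := h1.of_mul_monic_left hf
      have h4 := h2.natDegree_pos
      rw [h1.natDegree_mul h3] at hn
      rw [map_mul, h p ⟨h1, h2, h2.coprime_iff_not_dvd.1 hc.of_mul_left_left⟩,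
        ih g.natDegree (by omega) g h3 rfl hc.of_mul_left_right, ← pow_add, hn]

theorem PS_one_eq (M : k[X]) (m : ℕ) :
    PS M (fun _ => 1) m = (‖PS M (fun _ => 1) m‖ : ℝ) := by
  rw [PS_eq M _ le_rfl, Finset.sum_const, nsmul_eq_mul, mul_one, ← Nat.cast_mul,
    Complex.norm_natCast, Complex.ofReal_natCast]

theorem norm_PS_one_le [CharP k 2] (M : k[X]) {m : ℕ} (hm : 1 ≤ m) :
    ‖PS M (fun _ => 1) m‖ ≤ qR k ^ m := by
  have h := sum_deg_eq_le hm ((goodLe M m).filter fun p => p.natDegree = m) fun p hp => by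
    obtain ⟨h1, h2⟩ := Finset.mem_filter.1 hp
    exact ⟨h2, (mem_goodLe.1 h1).2.1, (mem_goodLe.1 h1).2.2.1⟩
  rw [Finset.sum_congr rfl fun p hp => (Finset.mem_filter.1 hp).2, Finset.sum_const,
    smul_eq_mul] at h
  rw [PS_eq M _ le_rfl, Finset.sum_const, nsmul_eq_mul, mul_one, ← Nat.cast_mul,
    Complex.norm_natCast, mul_comm, qR]
  exact_mod_cast h

theorem sum_progression {M b : k[X]} {d K len : ℕ} (hM : M ≠ 0) (hK : M.natDegree + len + K = d + 1)
    (hK1 : 1 ≤ K) (hb : b ∈ Bd M d) (a : k[X] → ℝ) :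
    ∑ t ∈ Pn k len, a (b + M * t) =
      ∑ y ∈ (Bd M d).filter (fun y => clM M K y = clM M K b), a y := by
  obtain ⟨h1, h2⟩ := mem_Bd.1 hb
  refine Finset.sum_nbij (fun t => b + M * t) (fun t ht => ?_) (fun t _ t' _ h => ?_)
    (fun y hy => ?_) fun _ _ => rfl
  · have h3 : MD d (b + M * t) := h1.add (degree_mul_lt (mem_Pn.1 ht) (by omega))
    refine Finset.mem_filter.2 ⟨mem_Bd.2 ⟨h3, h2.add_mul_left_left t⟩, ?_⟩
    rw [clM_eq_iff h3.2 h1.2, add_sub_cancel_left]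
    exact ⟨dvd_mul_right _ _, degree_mul_lt (mem_Pn.1 ht) (by omega)⟩
  · exact mul_left_cancel₀ hM (add_left_cancel h)
  · obtain ⟨h3, h4⟩ := Finset.mem_filter.1 (Finset.mem_coe.1 hy)
    obtain ⟨⟨t, ht⟩, h5⟩ := (clM_eq_iff (mem_Bd.1 h3).1.2 h1.2).1 h4
    refine ⟨t, Finset.mem_coe.2 (mem_Pn.2 ?_), by linear_combination -ht⟩
    by_cases h0 : t = 0
    · rw [h0, degree_zero]
      exact WithBot.bot_lt_coe _
    · rw [ht, degree_eq_natDegree (mul_ne_zero hM h0), natDegree_mul hM h0, Nat.cast_lt] at h5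
      rw [degree_eq_natDegree h0, Nat.cast_lt]
      omega

theorem avm_sq_eq {M : k[X]} {d K len : ℕ} (hM : M ≠ 0) (hK : M.natDegree + len + K = d + 1)
    (hK1 : 1 ≤ K) (a : k[X] → ℝ) :
    avm d (fun b => if IsCoprime b M then avg len (fun t => a (b + M * t)) ^ 2 else 0) =
      (∑ b ∈ Bd M d, a b * ∑ y ∈ (Bd M d).filter (fun y => clM M K y = clM M K b), a y) /
        qR k ^ len / qR k ^ d := by
  have h1 : avm d (fun b => if IsCoprime b M then a b * avg len (fun t => a (b + M * t)) else 0) =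
      avm d (fun b => if IsCoprime b M then avg len (fun t => a (b + M * t)) ^ 2 else 0) := by
    rw [avm_avg_shift len (fun t => M * t) fun t ht => degree_mul_lt ht (by omega)]
    refine avm_congr fun b _ => ?_
    simp only [IsCoprime.add_mul_left_left_iff]
    split_ifs
    · rw [sq, ← avg_mul_right]
      refine avg_congr fun t ht => ?_
      rw [← avg_shift (F := fun t => a (b + M * t)) ht]
      congr 2
      funext v
      congr 1
      ring
    · exact avg_const _ _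
  rw [← h1, avm_eq_sum, ← Finset.sum_filter]
  refine congrArg (· / qR k ^ d) ?_
  rw [Finset.sum_div]
  refine Finset.sum_congr rfl fun b hb => ?_
  rw [avg, sum_progression hM hK hK1 hb, mul_div_assoc]

end Var

open Pool.Agent.Lib.MP_a3f657_nt.Two Var

theorem stVar : StVar := by
  intro k _ _ _
  obtain ⟨c₀, hc₀⟩ := primeP euler rhP k
  have hq := two_le_qR (k := k)
  refine ⟨|c₀| + 2 * qR k, by linarith [abs_nonneg c₀], fun r I M len s hs hI hM hd => ?_⟩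
  set d := ∑ i, I i with hdd
  set c := |c₀| + 2 * qR k with hc
  have hI1 : ∀ i, 1 ≤ I i := fun i => by have := hI i; omega
  have hd0 : (0 : ℝ) ≤ d := Nat.cast_nonneg _
  have hMd : (M.natDegree : ℝ) ≤ d := by exact_mod_cast (by omega)
  have hsq : √(Fintype.card k : ℝ) ^ 2 = qR k := Real.sq_sqrt (Nat.cast_nonneg _)
  have hsq1 := (one_lt_sqrt (k := k)).le
  obtain ⟨K, hK, hK1⟩ : ∃ K, M.natDegree + len + K = d + 1 ∧ 1 ≤ K :=
    ⟨d + 1 - M.natDegree - len, by omega, by omega⟩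
  let ρ : Fin r → ℝ := fun i => ‖PS M (fun _ => 1) (I i)‖ / qR k ^ I i
  have hρ0 : ∀ i, 0 ≤ ρ i := fun i => div_nonneg (norm_nonneg _) (pow_pos qR_pos _).le
  have hρ1 : ∀ i, ρ i ≤ 1 := fun i =>
    (div_le_one (pow_pos qR_pos _)).2 (norm_PS_one_le M (hI1 i))
  have hρ2 : ∀ i, 1 - (d + qR k) / qR k ^ s ≤ ρ i := fun i => by
    have h1 := PS_one hM (hI1 i)
    have h2 : qR k ^ s * √(Fintype.card k : ℝ) ^ I i ≤ qR k ^ I i := by
      rw [← hsq, ← pow_mul, ← pow_mul, ← pow_add]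
      exact pow_le_pow_right₀ hsq1 (by have := hI i; omega)
    have h3 : (M.natDegree + Fintype.card k : ℝ) * √(Fintype.card k : ℝ) ^ I i ≤
        (d + qR k) / qR k ^ s * qR k ^ I i := by
      rw [div_mul_eq_mul_div, le_div_iff₀ (pow_pos qR_pos _), mul_assoc, mul_comm (_ ^ I i)]
      exact mul_le_mul (add_le_add hMd le_rfl) h2 (by positivity) (by linarith)
    rw [le_div_iff₀ (pow_pos qR_pos _), sub_mul, one_mul]
    change qR k ^ I i ≤ _ at h1
    linarith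
  have hcd : 2 * (d + qR k) ≤ c * (d + 2 : ℕ) := by
    push_cast
    nlinarith [abs_nonneg c₀, mul_nonneg (abs_nonneg c₀) hd0]
  refine ⟨∏ i, ρ i, ?_, ?_⟩
  · have h1 := one_sub_le_prod Finset.univ ρ _ hρ0 hρ1 hρ2
    have h2 : ∏ i, ρ i ≤ 1 := Finset.prod_le_one (fun i _ => hρ0 i) fun i _ => hρ1 i
    rw [Finset.card_univ, Fintype.card_fin, ← mul_div_assoc] at h1
    have h3 : r * (d + qR k) / qR k ^ s ≤ (c * (d + 2 : ℕ)) ^ r / qR k ^ s :=
      div_le_div_of_nonneg_right ((mul_le_pow_two_mul r (by linarith)).trans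
        (pow_le_pow_left₀ (by linarith) hcd r)) (pow_pos qR_pos _).le
    rw [abs_sub_comm, abs_of_nonneg (by linarith)]
    linarith
  have := finite_RM hM K
  let u : k[X] → (RM M K)ˣ := fun f => if hf : IsUnit (clM M K f) then hf.unit else 1
  have hu : ∀ f ∈ Bd M d, (u f : RM M K) = clM M K f := fun f hf => by
    simp [u, isUnit_clM K (mem_Bd.1 hf).1.1 (mem_Bd.1 hf).2]
  have hmass : ∑ b ∈ Bd M d, ((Wt I b - (∏ i, ρ i) * cM M : ℝ) : ℂ) = 0 := by
    have h1 := sum_Wt I M (1 : k[X] →* ℂ)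
    simp only [MonoidHom.one_apply, mul_one] at h1
    have h2 : ∏ i, PS M (⇑(1 : k[X] →* ℂ)) (I i) = (((∏ i, ρ i) * qR k ^ d : ℝ) : ℂ) := by
      rw [hdd, ← Finset.prod_pow_eq_pow_sum, ← Finset.prod_mul_distrib, Complex.ofReal_prod]
      refine Finset.prod_congr rfl fun i _ => ?_
      rw [div_mul_cancel₀ _ (pow_pos qR_pos _).ne']
      exact PS_one_eq M _
    rw [h2, ← card_Bd hM (by omega : M.natDegree ≤ d)] at h1
    simp only [Complex.ofReal_sub]
    rw [Finset.sum_sub_distrib, h1, Finset.sum_const, nsmul_eq_mul]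
    push_cast
    ring
  have hB0 : 0 ≤ c * (d + 2 : ℕ) := by linarith
  have hpar := parseval (Bd M d) u (fun b => Wt I b - (∏ i, ρ i) * cM M)
    ((c * (d + 2 : ℕ)) ^ r * √(Fintype.card k : ℝ) ^ d) fun ψ => by
    let χ := MulChar.ofUnitHom ψ
    have h1 : ∀ f ∈ Bd M d, (ψ (u f) : ℂ) = χ (clM M K f) := fun f hf => by
      rw [← hu f hf, MulChar.ofUnitHom_coe]
    rw [Finset.sum_congr rfl fun f hf => by rw [h1 f hf]]
    by_cases h2 : ∀ f₁ ∈ Bd M d, ∀ f₂ ∈ Bd M d, χ (clM M K f₁) = χ (clM M K f₂)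
    · rcases (Bd M d).eq_empty_or_nonempty with h3 | ⟨f₀, h3⟩
      · rw [h3, Finset.sum_empty, norm_zero]
        positivity
      · rw [Finset.sum_congr rfl fun f hf => by rw [h2 f hf f₀ h3], ← Finset.sum_mul, hmass,
          zero_mul, norm_zero]
        positivity
    · push Not at h2
      obtain ⟨f₁, h₁, f₂, h₂, hne⟩ := h2
      have h3 := sum_eq_zero hM (by omega) (by omega) χ.toMonoidHom h₁ h₂ hne
      have h4 := sum_Wt I M (χ.toMonoidHom.comp (clH M K))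
      change ∑ f ∈ Bd M d, χ (clM M K f) = 0 at h3
      change ∑ f ∈ Bd M d, (Wt I f : ℂ) * χ (clM M K f) =
        ∏ i, PS M (fun p => χ (clM M K p)) (I i) at h4
      simp only [Complex.ofReal_sub, sub_mul]
      rw [Finset.sum_sub_distrib, ← Finset.mul_sum, h3, mul_zero, sub_zero, h4, norm_prod]
      have h5 := hc₀ M 0 K χ hM
      simp only [sgP_zero, mul_one] at h5
      rcases h5 with ⟨z, -, h5⟩ | h5
      · have h6 := deg_char (χ.toMonoidHom.comp (clH M K)) h5 d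
        exact absurd ((h6 f₁ (mem_Bd.1 h₁).1.1 (mem_Bd.1 h₁).1.2 (mem_Bd.1 h₁).2).trans
          (h6 f₂ (mem_Bd.1 h₂).1.1 (mem_Bd.1 h₂).1.2 (mem_Bd.1 h₂).2).symm) hne
      · have h6 : (c * (d + 2 : ℕ)) ^ r * √(Fintype.card k : ℝ) ^ d =
            ∏ i, (c * (d + 2 : ℕ) * √(Fintype.card k : ℝ) ^ I i) := by
          rw [Finset.prod_mul_distrib, Finset.prod_const, Finset.card_univ, Fintype.card_fin,
            Finset.prod_pow_eq_pow_sum]
        rw [h6]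
        refine Finset.prod_le_prod (fun i _ => norm_nonneg _) fun i _ => (h5 _ (hI1 i)).trans ?_
        refine mul_le_mul_of_nonneg_right ?_ (by positivity)
        have h7 : (M.natDegree + K + (0 : k[X]).natDegree + 1 : ℝ) ≤ (d + 2 : ℕ) := by
          rw [natDegree_zero]
          exact_mod_cast (by omega)
        have h8 := abs_nonneg c₀
        exact mul_le_mul ((le_abs_self _).trans (by linarith)) h7 (by positivity) (by linarith)
  have h1 : ∀ b, avg len (fun t => Wt I (b + M * t)) - (∏ i, ρ i) * cM M =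
      avg len (fun t => Wt I (b + M * t) - (∏ i, ρ i) * cM M) := fun b => by
    rw [avg_sub, avg_const]
  simp only [h1]
  rw [avm_sq_eq hM hK hK1 fun b => Wt I b - (∏ i, ρ i) * cM M, div_right_comm]
  refine div_le_div_of_nonneg_right ?_ (pow_pos qR_pos _).le
  rw [div_le_iff₀ (pow_pos qR_pos _)]
  refine le_of_eq_of_le (Finset.sum_congr rfl fun b hb => ?_) (hpar.trans_eq ?_)
  · congr 1
    refine Finset.sum_congr (Finset.ext fun y => ?_) fun _ _ => rfl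
    simp only [Finset.mem_filter]
    refine and_congr_right fun hy => ?_
    rw [← hu y hy, ← hu b hb, Units.val_inj]
  · rw [mul_pow, ← pow_mul, ← pow_mul, mul_comm d 2, pow_mul _ 2 d, hsq, mul_comm r 2]

end Pool.Agent.Lib.MP_9227d9_nt.Mob
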