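import Pool.Agent.Lib.MP_9227d9_nt.TwA
import Pool.Agent.Lib.MP_9227d9_nt.MobM4

/-!
Exceptional primes on the lines are rare.
-/

namespace Pool.Agent.Lib.MP_9227d9_nt.Mob

open Polynomial

open scoped Classical

namespace TwEX

variable {k : Type} [Field k] [Fintype k] [CharP k 2]

theorem split {H A u p : k[X]} (hH : Squarefree H) (hA : A ∣ H) (hp : IsP p) (h1 : p ∣ A * u)
    (h2 : p ∣ od (H * u)) : p ∣ u ∧ (p ^ 2 ∣ u ∨ p ∣ H) := by
  have h3 : p ^ 2 ∣ H * u := sq_dvd_of_dvd_od hp (h1.trans (mul_dvd_mul_right hA u)) h2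
  constructor
  · by_contra hu
    exact M4.not_sq_dvd hp hH
      ((hp.isCoprime_iff.2 hu).symm.pow_left.dvd_of_dvd_mul_right h3)
  · by_cases hd : p ∣ H
    · exact Or.inr hd
    · exact Or.inl ((hp.isCoprime_iff.2 hd).symm.pow_left.dvd_of_dvd_mul_left h3)

omit [Fintype k] [CharP k 2] in
theorem ind_periodic (p v t : k[X]) :
    (if p ∣ v + p * t then (1 : ℝ) else 0) = if p ∣ v then 1 else 0 := by
  simp only [dvd_add_left (dvd_mul_right p t)]

theorem avg_one {p G : k[X]} (hp : IsP p) (hG : Squarefree G) :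
    avg (p ^ 2).natDegree (fun u => if p ∣ od (G * u) then (1 : ℝ) else 0) = 1 / Nm p := by
  rw [M4.avg_od (Φ := fun l => if p ∣ l then (1 : ℝ) else 0) hp (M4.not_sq_dvd hp hG)
    (ind_periodic p), Pr.avg_dvd_self hp]

theorem avg_two {p G H : k[X]} (hp : IsP p) (hG : Squarefree G) (hZ : ¬ p ∣ od (G * H)) :
    avg (p ^ 2).natDegree (fun u => (if p ∣ od (G * u) then (1 : ℝ) else 0) *
      if p ∣ od (H * u) then (1 : ℝ) else 0) = 1 / Nm p * (1 / Nm p) := by
  have hp0 : p ≠ 0 := hp.prime.ne_zero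
  have hper : ∀ v t, (fun u => (if p ∣ od (G * u) then (1 : ℝ) else 0) *
      if p ∣ od (H * u) then (1 : ℝ) else 0) (v + p ^ 2 * t) =
      (fun u => (if p ∣ od (G * u) then (1 : ℝ) else 0) *
        if p ∣ od (H * u) then (1 : ℝ) else 0) v := by
    intro v t
    simp only [M4.od_shift, ind_periodic]
  rw [M4.avg_shift_periodic (pow_ne_zero 2 hp0) hper p.natDegree fun t => G * t ^ 2]
  have h : ∀ v : k[X], v.degree < (p ^ 2).natDegree →
      avg p.natDegree (fun t => (if p ∣ od (G * (v + G * t ^ 2)) then (1 : ℝ) else 0) *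
        if p ∣ od (H * (v + G * t ^ 2)) then (1 : ℝ) else 0) =
      (if p ∣ od (G * v) then (1 : ℝ) else 0) * (1 / Nm p) := by
    intro v _
    rw [← avg_dvd (n := p.natDegree) hp0 le_rfl (hp.isCoprime_iff.2 hZ) (od (H * v)),
      ← avg_mul_left]
    refine avg_congr fun t _ => ?_
    have h3 : G * (v + G * t ^ 2) = G * v + (G * t) ^ 2 := by ring
    have h4 : H * (v + G * t ^ 2) = H * v + G * H * t ^ 2 := by ring
    rw [h3, h4, od_add, od_add, od_sq, od_mul_sq, add_zero, mul_comm t]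
  rw [avg_congr h, avg_mul_right, avg_one hp hG]

theorem avm_term {p G H : k[X]} {nu : ℕ} (hp : IsP p) (hG : Squarefree G)
    (hn : 2 * p.natDegree ≤ nu) :
    avm nu (fun u => (if p ∣ od (G * u) then (1 : ℝ) else 0) *
      if p ∣ od (H * u) then (1 : ℝ) else 0) ≤
      1 / Nm p * (1 / Nm p) + if p ∣ od (G * H) then 1 / Nm p else 0 := by
  have hp0 : p ≠ 0 := hp.prime.ne_zero
  have hN : 0 < 1 / Nm p := one_div_pos.2 (Nm_pos p)
  have hper : ∀ v t, (fun u => (if p ∣ od (G * u) then (1 : ℝ) else 0) *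
      if p ∣ od (H * u) then (1 : ℝ) else 0) (v + p ^ 2 * t) =
      (fun u => (if p ∣ od (G * u) then (1 : ℝ) else 0) *
        if p ∣ od (H * u) then (1 : ℝ) else 0) v := by
    intro v t
    simp only [M4.od_shift, ind_periodic]
  have e := avg_periodic (n := nu) (F := fun u => (if p ∣ od (G * u) then (1 : ℝ) else 0) *
      if p ∣ od (H * u) then (1 : ℝ) else 0) (pow_ne_zero 2 hp0)
    (by rw [natDegree_pow]; exact hn) hper (X ^ nu)
  refine le_trans (le_of_eq e) ?_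
  by_cases hZ : p ∣ od (G * H)
  · rw [if_pos hZ]
    have h1 : avg (p ^ 2).natDegree (fun u => (if p ∣ od (G * u) then (1 : ℝ) else 0) *
        if p ∣ od (H * u) then (1 : ℝ) else 0) ≤
        avg (p ^ 2).natDegree (fun u => if p ∣ od (G * u) then (1 : ℝ) else 0) :=
      avg_mono fun v _ => by split_ifs <;> norm_num
    rw [avg_one hp hG] at h1
    have := mul_pos hN hN
    linarith
  · rw [if_neg hZ, avg_two hp hG hZ, add_zero]

end TwEX

theorem stEX1 (hSQ : StSQ) (hEX : StEX) : StEX1 := by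
  intro k _ _ _ H A m nu hH hA hm hnu
  have hH0 : H ≠ 0 := hH.ne_zero
  have h1 := hSQ k nu (m - 1)
  have h2 := hEX k H (X ^ nu) 1 m nu hH0 hm hnu
    fun p hp _ hd => (isP_of_mem_pf hp).prime.not_isUnit (isUnit_of_dvd_one hd)
  simp only [one_mul] at h2
  have h2' : avm nu (fun u => if ∃ p ∈ pf H, m ≤ p.natDegree ∧ p ∣ u then (1 : ℝ) else 0) ≤
      H.natDegree / qR k ^ m := h2
  have h3 : avm nu (fun u => if ∃ p, IsP p ∧ m ≤ p.natDegree ∧ p ∣ A * u ∧ p ∣ od (H * u)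
      then (1 : ℝ) else 0) ≤ avm nu fun u =>
        (((Mo k nu).filter fun g => m - 1 < g.natDegree ∧ g ^ 2 ∣ u).card : ℝ) +
        if ∃ p ∈ pf H, m ≤ p.natDegree ∧ p ∣ u then (1 : ℝ) else 0 := by
    refine avm_mono fun u hu => ?_
    have c0 : (0 : ℝ) ≤ ((Mo k nu).filter fun g => m - 1 < g.natDegree ∧ g ^ 2 ∣ u).card :=
      Nat.cast_nonneg _
    by_cases he : ∃ p, IsP p ∧ m ≤ p.natDegree ∧ p ∣ A * u ∧ p ∣ od (H * u)
    · rw [if_pos he]
      obtain ⟨p, hp, hd, a1, a2⟩ := he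
      obtain ⟨b1, b2 | b2⟩ := TwEX.split hH hA hp a1 a2
      · have c1 : 1 ≤ ((Mo k nu).filter fun g => m - 1 < g.natDegree ∧ g ^ 2 ∣ u).card :=
          Finset.card_pos.2 ⟨p, Finset.mem_filter.2
            ⟨mem_Mo.2 ⟨hp.1, hu.2 ▸ natDegree_le_of_dvd b1 hu.ne_zero⟩, by omega, b2⟩⟩
        have c2 : (1 : ℝ) ≤ ((Mo k nu).filter fun g => m - 1 < g.natDegree ∧ g ^ 2 ∣ u).card := by
          exact_mod_cast c1
        split_ifs <;> linarith
      · rw [if_pos ⟨p, (mem_pf hH0).2 ⟨hp, b2⟩, hd, b1⟩]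
        linarith
    · rw [if_neg he]
      split_ifs <;> linarith
  rw [avm_add] at h3
  have h4 : 1 / qR k ^ (m - 1) = qR k / qR k ^ m := by
    obtain ⟨j, rfl⟩ : ∃ j, m = j + 1 := ⟨m - 1, by omega⟩
    have := (qR_pos (k := k)).ne'
    rw [Nat.add_sub_cancel, pow_succ]
    field_simp
  rw [add_div]
  linarith

theorem stEX2 : StEX2 := by
  intro k _ _ _ H H' m nu hH _ hZ hm hnu
  have hq : (0 : ℝ) < qR k ^ m := qR_pow_pos m
  have h1 : avm nu (fun u => if ∃ p, IsP p ∧ p.natDegree = m ∧ p ∣ od (H * u) ∧ p ∣ od (H' * u)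
      then (1 : ℝ) else 0) ≤ avm nu fun u => ∑ p ∈ PrD k m,
        (if p ∣ od (H * u) then (1 : ℝ) else 0) * if p ∣ od (H' * u) then (1 : ℝ) else 0 := by
    refine avm_mono fun u _ => ?_
    have h0 : ∀ p ∈ PrD k m, (0 : ℝ) ≤
        (if p ∣ od (H * u) then (1 : ℝ) else 0) * if p ∣ od (H' * u) then (1 : ℝ) else 0 :=
      fun p _ => by split_ifs <;> norm_num
    by_cases he : ∃ p, IsP p ∧ p.natDegree = m ∧ p ∣ od (H * u) ∧ p ∣ od (H' * u)
    · rw [if_pos he]
      obtain ⟨p, hp, hd, a1, a2⟩ := he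
      refine le_trans ?_ (Finset.single_le_sum h0 (mem_PrD.2 ⟨hp, hd⟩))
      rw [if_pos a1, if_pos a2, one_mul]
    · rw [if_neg he]
      exact Finset.sum_nonneg h0
  rw [avm_sum] at h1
  have h2 : ∀ p ∈ PrD k m, avm nu (fun u => (if p ∣ od (H * u) then (1 : ℝ) else 0) *
      if p ∣ od (H' * u) then (1 : ℝ) else 0) ≤
      1 / qR k ^ m * (1 / qR k ^ m) + (if p ∣ od (H * H') then 1 else 0) * (1 / qR k ^ m) := by
    intro p hp
    obtain ⟨hp, hd⟩ := mem_PrD.1 hp
    have := TwEX.avm_term (H := H') (nu := nu) hp hH (by rw [hd]; exact hnu)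
    rw [Nm, hd] at this
    simpa only [ite_mul, one_mul, zero_mul] using this
  refine h1.trans ((Finset.sum_le_sum h2).trans ?_)
  rw [Finset.sum_add_distrib, Finset.sum_const, nsmul_eq_mul, ← Finset.sum_mul, Finset.sum_boole]
  have h3 : ((PrD k m).card : ℝ) ≤ qR k ^ m := by
    have a := card_PrD_le (k := k) m
    have b : (1 : ℝ) ≤ m := by exact_mod_cast hm
    have c : (0 : ℝ) ≤ (PrD k m).card := Nat.cast_nonneg _
    nlinarith
  have h4 : (((PrD k m).filter fun p => p ∣ od (H * H')).card : ℝ) ≤ (od (H * H')).natDegree := by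
    have a : ((PrD k m).filter fun p => p ∣ od (H * H')) ⊆ pf (od (H * H')) := fun p hp =>
      (mem_pf hZ).2 ⟨(mem_PrD.1 (Finset.mem_filter.1 hp).1).1, (Finset.mem_filter.1 hp).2⟩
    exact_mod_cast (Finset.card_le_card a).trans (card_pf_le hZ)
  have h5 : ((PrD k m).card : ℝ) * (1 / qR k ^ m * (1 / qR k ^ m)) ≤ 1 / qR k ^ m := by
    refine (mul_le_mul_of_nonneg_right h3 (by positivity)).trans (le_of_eq ?_)
    field_simp
  have h6 := mul_le_mul_of_nonneg_right h4 (one_div_pos.2 hq).le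
  rw [add_div, div_eq_mul_one_div ((od (H * H')).natDegree : ℝ)]
  linarith

end Pool.Agent.Lib.MP_9227d9_nt.Mob
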