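import Pool.Agent.Lib.MP_9227d9_nt.TwA
import Pool.Agent.Lib.MP_9227d9_nt.MobK

/-!
The subexponential constant for prime pairs.
-/

namespace Pool.Agent.Lib.MP_9227d9_nt.Mob

open Polynomial

open scoped Classical

namespace TwK2

variable {k : Type} [Field k] [Fintype k]

theorem abs_prod_ps2_le {η C : ℝ} (hη : 1 ≤ η) (hC0 : 0 ≤ C)
    (hC : ∀ M : k[X], M ≠ 0 → (4 : ℝ) ^ (pf M).card ≤ C * η ^ M.natDegree) {y z : ℕ}
    {S : Finset k[X]} (hS : S ∈ SS k y z) {h : k[X]} (ha : Adm h) (F : k[X]) :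
    |∏ p ∈ S, ps2 h p F| ≤
      C * η ^ y * ∏ p ∈ S.filter (fun p => ¬ p ∣ F * (F + h)), 1 / Nm p := by
  obtain ⟨h1, h2⟩ := mem_SS.1 hS
  set S' := S.filter (fun p => ¬ p ∣ F * (F + h)) with hS'
  have h3 : ∀ p ∈ S', IsP p := fun p hp => (h1 p (Finset.mem_filter.1 hp).1).1
  have h4 : (4 : ℝ) ^ S'.card ≤ C * η ^ y := by
    have := hC _ (monic_prod h3).ne_zero
    rw [pf_prod h3, natDegree_prod_isP h3] at this
    refine this.trans (mul_le_mul_of_nonneg_left (pow_le_pow_right₀ hη (le_trans ?_ h2)) hC0)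
    exact Finset.sum_le_sum_of_subset (Finset.filter_subset _ _)
  have h5 : |∏ p ∈ S, ps2 h p F| ≤ ∏ p ∈ S', 4 * (1 / Nm p) := by
    rw [Finset.abs_prod, hS', Finset.prod_filter]
    refine Finset.prod_le_prod (fun _ _ => abs_nonneg _) fun p hp' => ?_
    split_ifs with hd
    · exact ha.abs_ps2_le (h1 p hp').1 F
    · rw [ps2, if_neg hd, abs_of_pos (ha.hp_pos (h1 p hp').1), mul_one_div]
      exact ha.hp_le (h1 p hp').1
  rw [Finset.prod_mul_distrib, Finset.prod_const] at h5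
  exact h5.trans (mul_le_mul_of_nonneg_right h4
    (Finset.prod_nonneg fun p _ => (one_div_pos.2 (Nm_pos p)).le))

theorem w2a_le (hM5 : StM5) {η C : ℝ} (hη : 1 ≤ η) (hC0 : 0 ≤ C)
    (hC : ∀ M : k[X], M ≠ 0 → (4 : ℝ) ^ (pf M).card ≤ C * η ^ M.natDegree) (y z : ℕ)
    {h F : k[X]} (ha : Adm h) (hl : F * (F + h) ≠ 0) :
    w2a h y z F ≤ C * η ^ y * (C * η ^ (F * (F + h)).natDegree * (y + 1)) := by
  have h0 : ∀ S : Finset k[X], 0 ≤ ∏ p ∈ S, 1 / Nm p := fun S =>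
    Finset.prod_nonneg fun p _ => (one_div_pos.2 (Nm_pos p)).le
  have h1 : (2 : ℝ) ^ (pf (F * (F + h))).card ≤ C * η ^ (F * (F + h)).natDegree :=
    (pow_le_pow_left₀ (by norm_num) (by norm_num) _).trans (hC _ hl)
  refine (Finset.sum_le_sum fun S hS => abs_prod_ps2_le hη hC0 hC hS ha F).trans ?_
  rw [← Finset.mul_sum]
  refine mul_le_mul_of_nonneg_left ?_ (by positivity)
  refine (K.sum_split hl (fun S => ∏ p ∈ S, 1 / Nm p) h0).trans ?_
  exact mul_le_mul h1 (hM5 k y y z 0 le_rfl).1 (Finset.sum_nonneg fun S _ => h0 S)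
    (by positivity)

theorem sum_le {r U τ : ℕ} {I : Fin r → ℕ} (hr : r ≤ U) (hI : ∀ i, I i ≤ 32 * τ) :
    ((∑ i, I i : ℕ) : ℝ) ≤ 32 * U * τ := by
  have h1 := Finset.sum_le_card_nsmul Finset.univ I (32 * τ) fun i _ => hI i
  rw [Finset.card_univ, Fintype.card_fin, smul_eq_mul] at h1
  have h2 : ∑ i, I i ≤ 32 * U * τ := by nlinarith
  exact_mod_cast h2

theorem Ph_sq {r : ℕ} (I : Fin r → ℕ) (len : ℕ) (θ : ℝ) (M b : k[X]) :
    Ph I len θ M b ^ 2 = if IsCoprime b M then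
      (avg len (fun t => Wt I (b + M * t)) - θ * cM M) ^ 2 else 0 := by
  rw [Ph]
  split_ifs
  · exact sq_abs _
  · exact zero_pow two_ne_zero

theorem mid {C η x : ℝ} {U τ y d : ℕ} (hη : 1 ≤ η) (hy : y ≤ U * τ)
    (hx : x ≤ C * η ^ y * (C * η ^ d * (y + 1))) :
    x ≤ (U + 1) * C ^ 2 * ((τ : ℝ) + 1) ^ 1 * η ^ (y + d) := by
  have h1 : (y : ℝ) + 1 ≤ (U + 1) * (τ + 1) := by
    have h2 : (y : ℝ) ≤ U * τ := by exact_mod_cast hy
    have h3 : (0 : ℝ) ≤ U := by positivity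
    have h4 : (0 : ℝ) ≤ τ := by positivity
    nlinarith
  have h2 : 0 ≤ C ^ 2 * η ^ (y + d) := by positivity
  calc x ≤ C * η ^ y * (C * η ^ d * (y + 1)) := hx
    _ = C ^ 2 * η ^ (y + d) * (y + 1) := by ring
    _ ≤ C ^ 2 * η ^ (y + d) * ((U + 1) * (τ + 1)) := mul_le_mul_of_nonneg_left h1 h2
    _ = _ := by ring

end TwK2

theorem stK2 (hVar : StVar) (hM5 : StM5) (hOm : StOm) : StK2 := by
  intro k _ _ _ U θ hθ
  obtain ⟨η, hη, hηθ⟩ : ∃ η : ℝ, 1 < η ∧ η ^ (8 * U + 1) = θ :=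
    ⟨θ ^ ((8 * U + 1 : ℕ) : ℝ)⁻¹, Real.one_lt_rpow hθ (by positivity),
      Real.rpow_inv_natCast_pow (by linarith) (by omega)⟩
  obtain ⟨C₀, hC₀⟩ := hOm k η hη
  obtain ⟨C, hC0, hC⟩ : ∃ C : ℝ, 0 ≤ C ∧
      ∀ M : k[X], M ≠ 0 → (4 : ℝ) ^ (pf M).card ≤ C * η ^ M.natDegree :=
    ⟨|C₀|, abs_nonneg _, fun M hM => (hC₀ M hM).trans
      (mul_le_mul_of_nonneg_right (le_abs_self _) (by positivity))⟩
  obtain ⟨c, hc, hV⟩ := hVar k
  obtain ⟨B, hB0, hB⟩ := K.poly_le hη (2 * U + 1)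
  have hU : (0 : ℝ) ≤ U := by positivity
  obtain ⟨A, hA1, hA2, hA3, hA4, hA5⟩ : ∃ A : ℝ, 4 * U + 10 ≤ A ∧ C ^ 2 ≤ A ∧
      (U + 1) * C ^ 2 ≤ A ∧ ((32 * U + 2) * c) ^ (2 * U + 1) ≤ A ∧ 2 ^ U ≤ A := by
    have h1 : 0 ≤ ((32 * (U : ℝ) + 2) * c) ^ (2 * U + 1) := by positivity
    have h2 : 0 ≤ ((U : ℝ) + 1) * C ^ 2 := by positivity
    have h3 : 0 ≤ C ^ 2 := by positivity
    have h4 : (0 : ℝ) ≤ 2 ^ U := by positivity
    generalize ((32 * (U : ℝ) + 2) * c) ^ (2 * U + 1) = y at h1 ⊢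
    generalize ((U : ℝ) + 1) * C ^ 2 = y' at h2 ⊢
    exact ⟨4 * U + 10 + C ^ 2 + y' + y + 2 ^ U, by linarith, by linarith, by linarith,
      by linarith, by linarith⟩
  have hc' : 1 ≤ (32 * (U : ℝ) + 2) * c := by nlinarith
  refine ⟨A * B, fun τ hτ => ⟨A * ((τ : ℝ) + 1) ^ (2 * U + 1) * η ^ (8 * U * τ), ?_, ?_⟩⟩
  · have h1 : θ ^ τ = η ^ τ * η ^ (8 * U * τ) := by
      rw [← hηθ, ← pow_mul, ← pow_add]
      congr 1
      ring
    have h2 : 0 ≤ A := by linarith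
    rw [h1, ← mul_assoc, mul_assoc A B]
    exact mul_le_mul_of_nonneg_right (mul_le_mul_of_nonneg_left (hB τ) h2) (by positivity)
  have hτ0 : (0 : ℝ) ≤ τ := by positivity
  have ht : (1 : ℝ) ≤ τ + 1 := by linarith
  have e4 : 4 * U * τ = 4 * (U * τ) := mul_assoc _ _ _
  have e8 : 8 * U * τ = 8 * (U * τ) := mul_assoc _ _ _
  refine ⟨?_, ?_, fun M hM hd => ?_, fun y z l hl hd hy => ?_, fun h y z F ha hl hd hy => ?_,
    fun r I l hr hI => ?_, fun r I M len hr hI hI' hM hlen => ?_⟩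
  · refine K.le_K (i := 1) (j := 0) ?_ (by positivity) hA1 ht hη.le (by omega) (Nat.zero_le _)
    rw [pow_one, pow_zero, mul_one]
    nlinarith
  · refine K.le_K (i := 0) (j := 0) ?_ (by positivity) hA5 ht hη.le (by omega) (Nat.zero_le _)
    rw [pow_zero, pow_zero, mul_one, mul_one]
  · refine K.le_K (i := 0) (j := 2 * M.natDegree) ?_ (by positivity) hA2 ht hη.le (by omega)
      (by omega)
    rw [pow_zero, mul_one, pow_mul', ← mul_pow]
    calc (8 : ℝ) ^ (pf M).card ≤ (4 ^ 2) ^ (pf M).card :=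
          pow_le_pow_left₀ (by norm_num) (by norm_num) _
      _ = (4 ^ (pf M).card) ^ 2 := by rw [← pow_mul, ← pow_mul, mul_comm]
      _ ≤ _ := pow_le_pow_left₀ (by positivity) (hC M hM) 2
  · exact K.le_K (TwK2.mid hη.le hy (K.wa_le hM5 hη.le hC0 hC y z hl)) (by positivity) hA3 ht
      hη.le (by omega) (by omega)
  · exact K.le_K (TwK2.mid hη.le hy (TwK2.w2a_le hM5 hη.le hC0 hC y z ha hl)) (by positivity) hA3
      ht hη.le (by omega) (by omega)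
  · refine (K.Wt_le I l le_rfl).trans
      (K.pow_le_K (by positivity) ?_ hc' hA4 ht hη.le (by omega))
    have h1 := TwK2.sum_le hr hI
    have h2 : 32 * (U : ℝ) * τ ≤ (32 * U + 2) * (τ + 1) := by nlinarith
    have h3 : 0 ≤ (32 * (U : ℝ) + 2) * (τ + 1) := by positivity
    nlinarith
  · obtain ⟨θ', h1, h2⟩ := hV r I M len (6 * τ) (by omega) (fun i => by have := hI i; omega) hM
      hlen
    have h3 : c * ((∑ i, I i + 2 : ℕ) : ℝ) ≤ (32 * U + 2) * c * (τ + 1) := by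
      have h4 := TwK2.sum_le hr hI'
      have h5 : 32 * (U : ℝ) * τ + 2 ≤ (32 * U + 2) * (τ + 1) := by nlinarith
      rw [Nat.cast_add, Nat.cast_ofNat, mul_comm _ c, mul_assoc]
      exact mul_le_mul_of_nonneg_left (by linarith) (by linarith)
    have h4 : 0 ≤ c * ((∑ i, I i + 2 : ℕ) : ℝ) := by positivity
    have h5 : (0 : ℝ) < qR k := qR_pos
    simp only [TwK2.Ph_sq]
    refine ⟨θ', h1.trans (div_le_div_of_nonneg_right ?_ (by positivity)),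
      h2.trans (div_le_div_of_nonneg_right ?_ (by positivity))⟩
    · exact K.pow_le_K h4 h3 hc' hA4 ht hη.le (by omega)
    · exact K.pow_le_K h4 h3 hc' hA4 ht hη.le (by omega)

end Pool.Agent.Lib.MP_9227d9_nt.Mob
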