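import Pool.Agent.Lib.MP_9227d9_nt.TwA

/-!
Cancellation on good lines.
-/

namespace Pool.Agent.Lib.MP_9227d9_nt.Mob

open Polynomial

open scoped Classical

namespace TwLine

variable {k : Type} [Field k] [Fintype k] [CharP k 2]

theorem line (hA : StA) {ι : Type} [Fintype ι] {p : ι → k[X]} (hp : ∀ i, IsP (p i))
    (hi : Function.Injective p) {H v : k[X]} {d L : ℕ} (hl : ∏ i, p i = od H)
    (hH : MD (2 * d + 1) H) (hv : v.natDegree + L ≤ d + 1) : ∃ ε : ℝ, |ε| ≤ 1 ∧ ∀ σ : k[X],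
      σ.degree < L → mu (H + (v * σ) ^ 2) = ε * ∏ i, chi (p i) (od H) (ev H + v * σ) := by
  have hS : ∀ x ∈ Finset.univ.image p, IsP x := fun x hx => by
    obtain ⟨i, -, rfl⟩ := Finset.mem_image.1 hx
    exact hp i
  obtain ⟨ε, h1, h2⟩ := hA k (Finset.univ.image p) hS
  have e : ∏ x ∈ Finset.univ.image p, x = od H := by
    rw [Finset.prod_image fun a _ b _ h => hi h, hl]
  rw [e] at h2
  refine ⟨ε, h1, fun σ hσ => ?_⟩
  have e2 : od (H + (v * σ) ^ 2) = od H := by rw [od_add, od_sq, add_zero]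
  have e3 : ev (H + (v * σ) ^ 2) = ev H + v * σ := by rw [ev_add, ev_sq]
  have h3 := natDegree_ev_le H
  have h4 : (v * σ).natDegree ≤ d := natDegree_le_of_degree_le
    (Order.le_of_lt_succ (by exact_mod_cast degree_mul_lt hσ hv))
  rw [hH.2] at h3
  rw [ev_od (H + (v * σ) ^ 2), e2, e3,
    h2 _ ((natDegree_add_le _ _).trans (by rw [hH.od.2]; omega)),
    Finset.prod_image fun a _ b _ h => hi h]

omit [Fintype k] [CharP k 2] in
theorem inj {ι : Type} {p : ι → k[X]} {I : ι → ℕ} (h : ∀ i, IsP (p i) ∧ (p i).natDegree = I i)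
    (hI : Function.Injective I) : Function.Injective p :=
  fun a b e => hI (by rw [← (h a).2, ← (h b).2, e])

theorem per (p b a w σ t : k[X]) :
    chi p b (a + w * (σ + p ^ 2 * t)) = chi p b (a + w * σ) := by
  rw [← chi_periodic p b (a + w * σ) (w * t)]
  congr 1
  ring

theorem root_le {x C Q : ℝ} {N : ℕ} (hN : 1 ≤ N) (hx : 0 ≤ x) (hQ : 1 ≤ Q)
    (h : x ^ N ≤ C / Q ^ 12) : x ≤ (|C| + 1) / Q ^ ((N : ℝ)⁻¹) := by
  have hQ0 : 0 < Q := by linarith
  have hC : 1 ≤ |C| + 1 := by linarith [abs_nonneg C]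
  have h1 : x ^ N ≤ (|C| + 1) / Q :=
    h.trans (div_le_div₀ (by linarith) (by linarith [le_abs_self C]) hQ0
      (le_self_pow₀ hQ (by norm_num)))
  have hN' : (1 : ℝ) ≤ N := by exact_mod_cast hN
  have h2 : x ≤ ((|C| + 1) / Q) ^ ((N : ℝ)⁻¹) := by
    rw [← Real.pow_rpow_inv_natCast hx (show N ≠ 0 by omega)]
    exact Real.rpow_le_rpow (pow_nonneg hx _) h1 (by positivity)
  refine h2.trans ?_
  rw [Real.div_rpow (by linarith) hQ0.le]
  refine div_le_div_of_nonneg_right ?_ (Real.rpow_nonneg hQ0.le _)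
  exact Real.rpow_le_self_of_one_le hC (inv_le_one_of_one_le₀ hN')

theorem gen (hA : StA) {m N : ℕ} {C : ℝ}
    (hC : ∀ (p b a w : k[X]) (ι : Type) [Fintype ι] (φ : ι → k[X] → ℝ) (M : ι → k[X]) (L : ℕ),
      Fintype.card ι ≤ m → IsP p → ¬ p ∣ derivative b → ¬ p ∣ w → (∀ i σ, |φ i σ| ≤ 1) →
      (∀ i σ t, φ i (σ + M i * t) = φ i σ) → (∀ i, ¬ p ∣ M i) →
      (∀ i, (M i).natDegree + p.natDegree ≤ L) → 2 * p.natDegree ≤ L →
      |avg L fun σ => chi p b (a + w * σ) * ∏ i, φ i σ| ^ N ≤ C / Nm p)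
    {τ r d : ℕ} {I : Fin (r + 1) → ℕ} {H v : k[X]} (hI : Function.Injective I)
    (h0 : I 0 = 12 * τ) (hle : ∀ i, I i ≤ 32 * τ) (hH : MD (2 * d + 1) H) (hW : Wt I (od H) ≠ 0)
    (hv : v.natDegree + 76 * τ ≤ d + 1)
    (hp : ∀ p, IsP p → p.natDegree = 12 * τ → p ∣ od H → ¬ p ∣ v)
    {κ : Type} [Fintype κ] (ψ : κ → k[X] → ℝ) (M' : κ → k[X])
    (hκ : r + 1 + Fintype.card κ ≤ m) (h1 : ∀ i σ, |ψ i σ| ≤ 1)
    (h2 : ∀ i σ t, ψ i (σ + M' i * t) = ψ i σ)
    (h3 : ∀ p, IsP p → p.natDegree = 12 * τ → p ∣ od H → ∀ i, ¬ p ∣ M' i)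
    (h4 : ∀ i, (M' i).natDegree ≤ 64 * τ) :
    |avg (76 * τ) fun σ => mu (H + (v * σ) ^ 2) * ∏ i, ψ i σ| ^ N ≤ C / (qR k ^ τ) ^ 12 := by
  obtain ⟨p, hp', ep⟩ := exists_of_Wt_ne_zero hW
  have ip := inj hp' hI
  obtain ⟨ε, a1, b1⟩ := line hA (fun i => (hp' i).1) ip ep hH hv
  have r0 : (p 0).natDegree = 12 * τ := (hp' 0).2.trans h0
  have hd : p 0 ∣ od H := ep ▸ Finset.dvd_prod_of_mem _ (Finset.mem_univ 0)
  have hsq : Squarefree (od H) := by
    have := squarefree_prod (S := Finset.univ.image p) fun x hx => by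
      obtain ⟨i, -, rfl⟩ := Finset.mem_image.1 hx
      exact (hp' i).1
    rwa [Finset.prod_image fun a _ b _ h => ip h, ep] at this
  let φ : Option (Fin r ⊕ κ) → k[X] → ℝ := fun o σ => o.elim ε (Sum.elim
    (fun i => chi (p i.succ) (od H) (ev H + v * σ)) fun i => ψ i σ)
  let M : Option (Fin r ⊕ κ) → k[X] := fun o => o.elim 1 (Sum.elim (fun i => p i.succ ^ 2) M')
  have key := hC (p 0) (od H) (ev H) v _ φ M (76 * τ) (by simp; omega)
    (hp' 0).1
    (fun h => (hp' 0).1.2.not_isUnit ((isCoprime_derivative hsq).isUnit_of_dvd' hd h))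
    (hp _ (hp' 0).1 r0 hd) (by
      rintro (_ | i | i) σ
      · simp only [φ, Option.elim]
        exact a1
      · simp only [φ, Option.elim, Sum.elim_inl]
        exact abs_chi_le _ _ _
      · simp only [φ, Option.elim, Sum.elim_inr]
        exact h1 i σ) (by
      rintro (_ | i | i) σ t
      · simp only [φ, Option.elim]
      · simp only [φ, M, Option.elim, Sum.elim_inl, per]
      · simp only [φ, M, Option.elim, Sum.elim_inr, h2]) (by
      rintro (_ | i | i) h
      · exact (hp' 0).1.prime.not_dvd_one h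
      · exact (Fin.succ_ne_zero i).symm
          (ip ((hp' 0).1.eq_of_dvd (hp' _).1 ((hp' 0).1.prime.dvd_of_dvd_pow h)))
      · exact h3 _ (hp' 0).1 r0 hd i h) (by
      rintro (_ | i | i)
      · change (1 : k[X]).natDegree + _ ≤ _
        rw [natDegree_one]
        omega
      · change (p i.succ ^ 2).natDegree + _ ≤ _
        have := hle i.succ
        rw [natDegree_pow, (hp' _).2]
        omega
      · change (M' i).natDegree + _ ≤ _
        have := h4 i
        omega) (by omega)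
  have eN : Nm (p 0) = (qR k ^ τ) ^ 12 := by rw [Nm, r0, ← pow_mul, mul_comm]
  rw [eN] at key
  refine le_of_eq_of_le (congrArg (fun x => |x| ^ N) (avg_congr fun σ hσ => ?_)) key
  rw [b1 σ hσ, Fin.prod_univ_succ, Fintype.prod_option, Fintype.prod_sum_type]
  simp only [φ, Option.elim, Sum.elim_inl, Sum.elim_inr]
  ring

end TwLine

theorem stLine (hA : StA) (hB : StB) : StLine := by
  intro U
  obtain ⟨C, hC⟩ := hB (2 * U + 1)
  have hN : 1 ≤ 2 ^ (2 * U + 1 + 1) := Nat.one_le_two_pow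
  generalize 2 ^ (2 * U + 1 + 1) = N at hC hN
  have hN' : (0 : ℝ) < N := by exact_mod_cast hN
  refine ⟨|C| + 1, (N : ℝ)⁻¹, by positivity, by positivity,
    fun k _ _ _ τ _ r I d H v hr hI h0 hle hH hW hv hp => ?_⟩
  have hQ : (1 : ℝ) ≤ qR k ^ τ := one_le_pow₀ one_le_qR
  have e : qR k ^ ((N : ℝ)⁻¹ * τ) = (qR k ^ τ) ^ ((N : ℝ)⁻¹) := by
    rw [mul_comm, Real.rpow_mul qR_pos.le, Real.rpow_natCast]
  rw [e]
  refine ⟨TwLine.root_le hN (abs_nonneg _) hQ ?_, fun H' v' hH' hW' hv' hp' =>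
    TwLine.root_le hN (abs_nonneg _) hQ ?_⟩
  · have := TwLine.gen hA (hC k) hI h0 hle hH hW hv hp (κ := Fin 0) (fun _ _ => 1) (fun _ => 1)
      (by simp; omega) (fun i => i.elim0) (fun i => i.elim0) (fun _ _ _ _ i => i.elim0)
      fun i => i.elim0
    simpa using this
  · obtain ⟨p, h1, ep⟩ := exists_of_Wt_ne_zero hW'
    obtain ⟨ε, a1, b1⟩ := TwLine.line hA (fun i => (h1 i).1) (TwLine.inj h1 hI) ep hH' hv'
    have := TwLine.gen hA (hC k) hI h0 hle hH hW hv hp (κ := Option (Fin (r + 1)))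
      (fun o σ => o.elim ε fun i => chi (p i) (od H') (ev H' + v' * σ))
      (fun o => o.elim 1 fun i => p i ^ 2) (by simp; omega) (by
        rintro (_ | i) σ
        · simp only [Option.elim]
          exact a1
        · simp only [Option.elim]
          exact abs_chi_le _ _ _) (by
        rintro (_ | i) σ t
        · simp only [Option.elim]
        · simp only [Option.elim, TwLine.per]) (by
        rintro q hq hq' hd (_ | i) h
        · exact hq.prime.not_dvd_one h
        · exact hp' q hq hq' hd ((hq.prime.dvd_of_dvd_pow h).trans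
            (ep ▸ Finset.dvd_prod_of_mem _ (Finset.mem_univ i)))) (by
        rintro (_ | i)
        · change (1 : k[X]).natDegree ≤ _
          simp
        · change (p i ^ 2).natDegree ≤ _
          have := hle i
          rw [natDegree_pow, (h1 i).2]
          omega)
    refine le_of_eq_of_le (congrArg (fun x => |x| ^ N) (avg_congr fun σ hσ => ?_)) this
    rw [b1 σ hσ, Fintype.prod_option]
    simp only [Option.elim]

end Pool.Agent.Lib.MP_9227d9_nt.Mob
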