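import Pool.Agent.Lib.MP_9227d9_nt.MobOd

/-!
The von Mangoldt function as a regrouped convolution of the Moebius function and the degree.
-/

namespace Pool.Agent.Lib.MP_9227d9_nt.Mob

open Polynomial

open scoped Classical

namespace Lam

variable {k : Type} [Field k] [Fintype k]

theorem sum_sq_mul (n : ℕ) (ψ : k[X] → ℝ) (h : ∀ H : k[X], n < H.natDegree → ψ H = 0) :
    ∑ g ∈ Mo k n, ∑ u ∈ Mo k n, mu u ^ 2 * ψ (g ^ 2 * u) = ∑ H ∈ Mo k n, ψ H := by
  have h1 : ∀ g ∈ Mo k n, ∀ u ∈ Mo k n, mu u ^ 2 * ψ (g ^ 2 * u) =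
      ∑ H ∈ Mo k n, if g ^ 2 * u = H then mu u ^ 2 * ψ H else 0 := by
    intro g hg u hu
    rw [Finset.sum_ite_eq]
    split_ifs with hm
    · rfl
    · have : n < (g ^ 2 * u).natDegree := by
        by_contra hc
        exact hm (mem_Mo.2 ⟨((mem_Mo.1 hg).1.pow 2).mul (mem_Mo.1 hu).1, not_lt.1 hc⟩)
      rw [h _ this, mul_zero]
  rw [Finset.sum_congr rfl fun g hg => Finset.sum_congr rfl fun u hu => h1 g hg u hu]
  rw [Finset.sum_congr rfl fun g _ => Finset.sum_comm, Finset.sum_comm]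
  refine Finset.sum_congr rfl fun H hH => ?_
  obtain ⟨hm, hd⟩ := mem_Mo.1 hH
  obtain ⟨g, u, hg, hu, hs, hF⟩ := exists_sq_mul hm
  have hdeg : H.natDegree = 2 * g.natDegree + u.natDegree := by
    rw [hF, (hg.pow 2).natDegree_mul hu, hg.natDegree_pow]
  rw [Finset.sum_eq_single_of_mem g (mem_Mo.2 ⟨hg, by omega⟩)]
  · rw [Finset.sum_eq_single_of_mem u (mem_Mo.2 ⟨hu, by omega⟩)]
    · rw [if_pos hF.symm, mu_sq, if_pos hs, one_mul]
    · intro u' hu' hne
      rw [if_neg]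
      intro he
      exact hne (mul_left_cancel₀ (hg.pow 2).ne_zero (he.trans hF))
  · intro g' hg' hne
    refine Finset.sum_eq_zero fun u' hu' => ?_
    split_ifs with he
    · rw [mu_sq, if_neg, zero_mul]
      intro hs'
      exact hne (sq_mul_unique (mem_Mo.1 hg').1 (mem_Mo.1 hu').1 hs' hg hu hs (he.trans hF)).1
    · rfl

theorem sum_mul (n : ℕ) (ψ : k[X] → k[X] → ℝ)
    (h : ∀ D H : k[X], n < H.natDegree → ψ D H = 0) :
    ∑ D ∈ Mo k n, ∑ H ∈ Mo k n, ψ D (D * H) =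
      ∑ F ∈ Mo k n, ∑ D ∈ (Mo k n).filter (fun D => D ∣ F), ψ D F := by
  have h1 : ∀ D ∈ Mo k n, ∀ u ∈ Mo k n, ψ D (D * u) =
      ∑ F ∈ Mo k n, if D * u = F then ψ D F else 0 := by
    intro D hD u hu
    rw [Finset.sum_ite_eq]
    split_ifs with hm
    · rfl
    · have : n < (D * u).natDegree := by
        by_contra hc
        exact hm (mem_Mo.2 ⟨(mem_Mo.1 hD).1.mul (mem_Mo.1 hu).1, not_lt.1 hc⟩)
      exact h _ _ this
  rw [Finset.sum_congr rfl fun D hD => Finset.sum_congr rfl fun u hu => h1 D hD u hu]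
  rw [Finset.sum_congr rfl fun D _ => Finset.sum_comm, Finset.sum_comm]
  refine Finset.sum_congr rfl fun F hF => ?_
  obtain ⟨hm, hd⟩ := mem_Mo.1 hF
  rw [Finset.sum_filter]
  refine Finset.sum_congr rfl fun D hD => ?_
  have hD1 := (mem_Mo.1 hD).1
  split_ifs with hdv
  · obtain ⟨u, hu⟩ := hdv
    have hum : u.Monic := hD1.of_mul_monic_left (hu ▸ hm)
    have hdeg : F.natDegree = D.natDegree + u.natDegree := by
      rw [hu, hD1.natDegree_mul hum]
    rw [Finset.sum_eq_single_of_mem u (mem_Mo.2 ⟨hum, by omega⟩), if_pos hu.symm]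
    intro u' _ hne
    rw [if_neg]
    intro he
    exact hne (mul_left_cancel₀ hD1.ne_zero (he.trans hu))
  · refine Finset.sum_eq_zero fun u _ => if_neg fun he => hdv ⟨u, he.symm⟩

/-- The von Mangoldt function on monic polynomials of degree `n`. -/
noncomputable def vm (n : ℕ) (F : k[X]) : ℝ :=
  ∑ D ∈ (Mo k n).filter (fun D => D ∣ F), mu D * ((n : ℝ) - D.natDegree)

theorem vm_eq {n : ℕ} {F p : k[X]} (hF : F ≠ 0) (hd : F.natDegree ≤ n) (hp : p ∈ pf F) :
    vm n F = if pf F = {p} then (p.natDegree : ℝ) else 0 := by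
  rw [vm, sum_mu_dvd hF hd fun D => (n : ℝ) - D.natDegree]
  have h1 : ∀ S ∈ (pf F).powerset, (-1 : ℝ) ^ S.card * ((n : ℝ) - (∏ p ∈ S, p).natDegree) =
      (-1 : ℝ) ^ S.card * ((n : ℝ) - ∑ p ∈ S, (p.natDegree : ℝ)) := by
    intro S hS
    rw [natDegree_prod_isP fun p hp => isP_of_mem_pf (Finset.mem_powerset.1 hS hp)]
    push_cast
    rfl
  rw [Finset.sum_congr rfl h1, ← Finset.insert_erase hp,
    Finset.sum_powerset_insert (Finset.notMem_erase p _), ← Finset.sum_add_distrib]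
  have h2 : ∀ S ∈ ((pf F).erase p).powerset,
      (-1 : ℝ) ^ S.card * ((n : ℝ) - ∑ p ∈ S, (p.natDegree : ℝ)) +
        (-1 : ℝ) ^ (insert p S).card * ((n : ℝ) - ∑ p ∈ insert p S, (p.natDegree : ℝ)) =
      (p.natDegree : ℝ) * (((-1 : ℤ) ^ S.card : ℤ) : ℝ) := by
    intro S hS
    have hn : p ∉ S := fun h => Finset.notMem_erase p _ (Finset.mem_powerset.1 hS h)
    rw [Finset.card_insert_of_notMem hn, Finset.sum_insert hn]
    push_cast
    ring
  rw [Finset.sum_congr rfl h2, ← Finset.mul_sum, ← Int.cast_sum,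
    Finset.sum_powerset_neg_one_pow_card]
  by_cases he : (pf F).erase p = ∅
  · rw [if_pos he, he, if_pos (by simp)]
    simp
  · rw [if_neg he, if_neg]
    · simp
    · intro h
      apply he
      rw [Finset.insert_erase hp] at h
      rw [h]
      simp

theorem exists_mem_pf {F : k[X]} (hF : F ≠ 0) (hu : ¬ IsUnit F) : ∃ p, p ∈ pf F := by
  obtain ⟨p, hp, hd, -⟩ := exists_isP_of_not_isCoprime (G := 0) hF
    fun h => hu (isCoprime_zero_right.1 h)
  exact ⟨p, (mem_pf hF).2 ⟨hp, hd⟩⟩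

theorem eq_pow_of_pf {F p : k[X]} (hF : F.Monic) (h : pf F = {p}) : ∃ j, F = p ^ j := by
  have hp : IsP p := isP_of_mem_pf (h ▸ Finset.mem_singleton_self p : p ∈ pf F)
  obtain ⟨j, a, ha, he⟩ := WfDvdMonoid.max_power_factor hF.ne_zero hp.2
  have ham : a.Monic := (hp.1.pow j).of_mul_monic_left (he ▸ hF)
  by_cases hu : IsUnit a
  · exact ⟨j, by rw [he, ham.isUnit_iff.1 hu, mul_one]⟩
  · obtain ⟨p', hp'⟩ := exists_mem_pf ham.ne_zero hu
    obtain ⟨h1, h2⟩ := (mem_pf ham.ne_zero).1 hp'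
    have h3 : p' ∈ pf F := (mem_pf hF.ne_zero).2 ⟨h1, he ▸ h2.mul_left _⟩
    rw [h, Finset.mem_singleton] at h3
    exact absurd (h3 ▸ h2) ha

theorem vm_prime {n : ℕ} {P : k[X]} (hP : P ∈ PrD k n) : vm n P = n := by
  obtain ⟨h1, h2⟩ := mem_PrD.1 hP
  have h3 : pf P = {P} := by
    have := pf_prod (S := {P}) (by simpa using h1)
    simpa using this
  rw [vm_eq (p := P) h1.1.ne_zero h2.le (by simp [h3]), if_pos h3, h2]

theorem vm_other {n : ℕ} (hn : 1 ≤ n) {F : k[X]} (hF : MD n F) (hP : F ∉ PrD k n) :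
    |vm n F| ≤ if F ∈ (Mo k (n / 2)).image (fun p => p ^ (n / p.natDegree)) then (n : ℝ) else 0 := by
  obtain ⟨hm, hd⟩ := hF
  have hu : ¬ IsUnit F := fun h => by
    rw [hm.isUnit_iff.1 h, natDegree_one] at hd
    omega
  obtain ⟨p, hp⟩ := exists_mem_pf hm.ne_zero hu
  rw [vm_eq hm.ne_zero hd.le hp]
  by_cases h : pf F = {p}
  · obtain ⟨j, hj⟩ := eq_pow_of_pf hm h
    have hp1 := isP_of_mem_pf hp
    have hpos := hp1.natDegree_pos
    have hdeg : n = j * p.natDegree := by rw [← hd, hj, hp1.1.natDegree_pow]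
    have hj0 : j ≠ 0 := by
      rintro rfl
      omega
    have hj1 : j ≠ 1 := by
      rintro rfl
      exact hP (mem_PrD.2 ⟨by rwa [hj, pow_one], hd⟩)
    have hj2 : 2 * p.natDegree ≤ n := by
      rw [hdeg]
      exact Nat.mul_le_mul_right _ (by omega)
    rw [if_pos h, if_pos, abs_of_nonneg (by positivity)]
    · exact_mod_cast (by omega : p.natDegree ≤ n)
    · refine Finset.mem_image.2 ⟨p, mem_Mo.2 ⟨hp1.1, by omega⟩, ?_⟩
      rw [hj, hdeg, Nat.mul_div_cancel _ hpos]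
  · rw [if_neg h, abs_zero]
    split_ifs <;> positivity

theorem regroup (n : ℕ) (φ : k[X] → ℝ) :
    ∑ D₁ ∈ Mo k n, ∑ D₂ ∈ Mo k n,
      ∑ G ∈ (Mo k n).filter (fun G => D₁.natDegree + 2 * D₂.natDegree + G.natDegree = n),
        coef n D₁ D₂ G * φ (D₁ * D₂ ^ 2 * G) =
      ∑ F ∈ (Mo k n).filter (fun F => F.natDegree = n), vm n F * φ F := by
  set c : k[X] → k[X] → ℝ := fun D F =>
    if F.natDegree = n then mu D * ((n : ℝ) - D.natDegree) * φ F else 0 with hc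
  have hc0 : ∀ D H : k[X], n < H.natDegree → c D H = 0 := fun D H h => if_neg h.ne'
  have hc1 : ∀ D ∈ Mo k n, ∀ H : k[X], n < H.natDegree → c D (D * H) = 0 := by
    intro D hD H h
    have hH : H ≠ 0 := by
      rintro rfl
      simp at h
    refine hc0 _ _ ?_
    rw [natDegree_mul (mem_Mo.1 hD).1.ne_zero hH]
    omega
  have h1 : ∀ D₁ ∈ Mo k n, ∀ D₂ ∈ Mo k n,
      ∑ G ∈ (Mo k n).filter (fun G => D₁.natDegree + 2 * D₂.natDegree + G.natDegree = n),
        coef n D₁ D₂ G * φ (D₁ * D₂ ^ 2 * G) =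
      ∑ G ∈ Mo k n, ((if 2 * D₁.natDegree ≤ n then mu G ^ 2 * c D₁ (D₁ * (D₂ ^ 2 * G)) else 0) +
        (if 2 * G.natDegree ≤ n then 0 else mu D₁ ^ 2 * c G (G * (D₂ ^ 2 * D₁)))) := by
    intro D₁ hD₁ D₂ hD₂
    rw [Finset.sum_filter]
    refine Finset.sum_congr rfl fun G hG => ?_
    have m1 := (mem_Mo.1 hD₁).1
    have m2 := (mem_Mo.1 hD₂).1
    have m3 := (mem_Mo.1 hG).1
    have e1 : D₁ * (D₂ ^ 2 * G) = D₁ * D₂ ^ 2 * G := by ring
    have e2 : G * (D₂ ^ 2 * D₁) = D₁ * D₂ ^ 2 * G := by ring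
    have e3 : (D₁ * D₂ ^ 2 * G).natDegree = D₁.natDegree + 2 * D₂.natDegree + G.natDegree := by
      rw [(m1.mul (m2.pow 2)).natDegree_mul m3, m1.natDegree_mul (m2.pow 2), m2.natDegree_pow]
    rw [e1, e2]
    simp only [hc, e3]
    by_cases h : D₁.natDegree + 2 * D₂.natDegree + G.natDegree = n
    · have hr : (D₁.natDegree : ℝ) + 2 * D₂.natDegree = n - G.natDegree := by
        rw [← h]
        push_cast
        ring
      simp only [if_pos h, coef, hr]
      by_cases ha : 2 * D₁.natDegree ≤ n <;> by_cases hb : 2 * G.natDegree ≤ n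
      · rw [if_pos ha, if_pos ha, if_pos hb, if_neg (by omega)]
        ring
      · rw [if_pos ha, if_pos ha, if_neg hb, if_pos (by omega)]
        ring
      · rw [if_neg ha, if_neg ha, if_pos hb, if_neg (by omega)]
        ring
      · rw [if_neg ha, if_neg ha, if_neg hb, if_pos (by omega)]
        ring
    · simp [h]
  rw [Finset.sum_congr rfl fun D₁ hD₁ => Finset.sum_congr rfl fun D₂ hD₂ => h1 D₁ hD₁ D₂ hD₂]
  simp only [Finset.sum_add_distrib]
  have h2 : ∀ D ∈ Mo k n, ∑ D₂ ∈ Mo k n, ∑ G ∈ Mo k n,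
      (if 2 * D.natDegree ≤ n then mu G ^ 2 * c D (D * (D₂ ^ 2 * G)) else 0) =
      if 2 * D.natDegree ≤ n then ∑ H ∈ Mo k n, c D (D * H) else 0 := by
    intro D hD
    split_ifs with h
    · exact sum_sq_mul n (fun H => c D (D * H)) (hc1 D hD)
    · simp
  have h3 : ∑ D₁ ∈ Mo k n, ∑ D₂ ∈ Mo k n, ∑ G ∈ Mo k n,
      (if 2 * G.natDegree ≤ n then 0 else mu D₁ ^ 2 * c G (G * (D₂ ^ 2 * D₁))) =
      ∑ G ∈ Mo k n, if 2 * G.natDegree ≤ n then 0 else ∑ H ∈ Mo k n, c G (G * H) := by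
    rw [Finset.sum_comm, Finset.sum_congr rfl fun D _ => Finset.sum_comm, Finset.sum_comm]
    refine Finset.sum_congr rfl fun G hG => ?_
    split_ifs with h
    · simp
    · exact sum_sq_mul n (fun H => c G (G * H)) (hc1 G hG)
  rw [Finset.sum_congr rfl h2, h3, ← Finset.sum_add_distrib]
  have h4 : ∀ D ∈ Mo k n, ((if 2 * D.natDegree ≤ n then ∑ H ∈ Mo k n, c D (D * H) else 0) +
      if 2 * D.natDegree ≤ n then 0 else ∑ H ∈ Mo k n, c D (D * H)) =
      ∑ H ∈ Mo k n, c D (D * H) := by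
    intro D _
    split_ifs <;> simp
  rw [Finset.sum_congr rfl h4, sum_mul n c hc0, Finset.sum_filter]
  refine Finset.sum_congr rfl fun F _ => ?_
  simp only [hc]
  split_ifs with h
  · rw [vm, Finset.sum_mul]
  · simp

end Lam

theorem stLam : StLam := by
  intro k _ _ _ n φ hn hφ
  rw [Lam.regroup]
  have hsub : PrD k n ⊆ (Mo k n).filter (fun F => F.natDegree = n) := fun P hP => by
    obtain ⟨h1, h2⟩ := mem_PrD.1 hP
    exact Finset.mem_filter.2 ⟨mem_Mo.2 ⟨h1.1, h2.le⟩, h2⟩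
  rw [← Finset.sum_sdiff hsub, Finset.mul_sum,
    Finset.sum_congr rfl fun P (hP : P ∈ PrD k n) => show Lam.vm n P * φ P = n * φ P by
      rw [Lam.vm_prime hP], sub_add_cancel_right, abs_neg]
  set E := (Mo k (n / 2)).image (fun p => p ^ (n / p.natDegree)) with hE
  have h1 : ∀ F ∈ (Mo k n).filter (fun F => F.natDegree = n) \ PrD k n,
      |Lam.vm n F * φ F| ≤ if F ∈ E then (n : ℝ) else 0 := by
    intro F hF
    obtain ⟨h1, h2⟩ := Finset.mem_sdiff.1 hF
    obtain ⟨h3, h4⟩ := Finset.mem_filter.1 h1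
    rw [abs_mul]
    exact (mul_le_of_le_one_right (abs_nonneg _) (hφ F)).trans
      (Lam.vm_other hn ⟨(mem_Mo.1 h3).1, h4⟩ h2)
  refine (Finset.abs_sum_le_sum_abs _ _).trans ((Finset.sum_le_sum h1).trans ?_)
  rw [← Finset.sum_filter, Finset.sum_const, nsmul_eq_mul]
  have h2 : ((((Mo k n).filter (fun F => F.natDegree = n) \ PrD k n).filter
      (fun F => F ∈ E)).card : ℝ) ≤ (Mo k (n / 2)).card := by
    exact_mod_cast (Finset.card_le_card fun F hF => (Finset.mem_filter.1 hF).2).trans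
      Finset.card_image_le
  have h3 : qR k ^ (n / 2) ≤ √(qR k) ^ n := by
    have h4 : (1 : ℝ) ≤ √(qR k) := Real.one_le_sqrt.2 one_le_qR
    calc qR k ^ (n / 2) = √(qR k) ^ (2 * (n / 2)) := by
          rw [pow_mul, Real.sq_sqrt qR_pos.le]
      _ ≤ √(qR k) ^ n := pow_le_pow_right₀ h4 (by omega)
  have h5 := card_Mo_le (k := k) (n / 2)
  calc _ ≤ 2 * √(qR k) ^ n * n := by
        gcongr
        linarith
    _ = 2 * n * √(qR k) ^ n := by ring

end Pool.Agent.Lib.MP_9227d9_nt.Mob
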