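import Pool.Agent.Lib.MP_9227d9_nt.TwB

/-! Fourier expansion of the discrepancy. -/

namespace Pool.Agent.Lib.MP_9227d9_nt.Mob

open Polynomial

open scoped Classical

namespace TwKF

variable {k : Type} [Field k] [Fintype k]

/-- Splitting a monic polynomial by its class modulo `r`. -/
theorem avm_split {r : k[X]} (hr : r.Monic) (m : ℕ) (F : k[X] → ℝ) :
    avm (r.natDegree + m) F = avg r.natDegree fun a => avm m fun t => F (a + r * t) := by
  have h1 : MD (r.natDegree + m) (r * X ^ m) :=
    MD.mul ⟨hr, rfl⟩ ⟨monic_X_pow m, natDegree_X_pow m⟩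
  unfold avm
  rw [← avg_shift (F := fun v => F (X ^ (r.natDegree + m) + v)) h1.degree_sub,
    avg_split hr.ne_zero]
  refine avg_congr fun a _ => avg_congr fun t _ => ?_
  congr 1
  ring

variable [CharP k 2]

omit [Fintype k] in
theorem dvd_iff_mod {E v x : k[X]} (hE : E.Monic) (hv : v.degree < E.degree) :
    E ∣ v + x ↔ v = x %ₘ E := by
  have h1 := modByMonic_add_div x E
  have h2 : x %ₘ E + x %ₘ E = 0 := CharTwo.add_self_eq_zero _
  refine ⟨fun h => ?_, fun h => ⟨x /ₘ E, by rw [h]; linear_combination h2 - h1⟩⟩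
  obtain ⟨c, hc⟩ := h
  have h3 : E ∣ v - x %ₘ E := ⟨c - x /ₘ E, by linear_combination hc - h2 + h1⟩
  exact sub_eq_zero.1 (eq_zero_of_dvd_of_degree_lt h3
    ((degree_sub_le _ _).trans_lt (max_lt hv (degree_modByMonic_lt x hE))))

/-- The number of solutions of a congruence as a character sum. -/
theorem count {E w : k[X]} {e : ℕ} (hE : MD e E) (hw : IsCoprime w E) (g : k[X]) (m : ℕ) :
    qR k ^ e * avm m (fun t => if E ∣ w * t + g then 1 else 0) =
      ∑ f ∈ Pn k (e - m), eM E (f * (g * invM E w + X ^ m)) := by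
  obtain ⟨hm, rfl⟩ := hE
  rcases le_total E.natDegree m with h | h
  · have h1 : Pn k (E.natDegree - m) = {0} := by
      ext f
      simp [mem_Pn, Nat.sub_eq_zero_of_le h]
    have h2 := avg_dvd hm.ne_zero h hw (w * X ^ m + g)
    rw [h1, Finset.sum_singleton, zero_mul, eM_zero, avm,
      avg_congr (G := fun t => if E ∣ w * X ^ m + g + w * t then 1 else 0) fun t _ => by
        rw [show w * (X ^ m + t) + g = w * X ^ m + g + w * t by ring], h2, Nm]
    exact mul_one_div_cancel (qR_pow_pos _).ne'
  · obtain ⟨x, hx⟩ : ∃ x, x = g * invM E w + X ^ m := ⟨_, rfl⟩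
    have h1 := avg_eM hm h x
    have h2 : ∀ v ∈ Pn k m, (if E ∣ w * (X ^ m + v) + g then (1 : ℝ) else 0) =
        if v = x %ₘ E then 1 else 0 := by
      intro v hv
      have hv' : v.degree < E.degree := by
        rw [degree_eq_natDegree hm.ne_zero]
        exact (mem_Pn.1 hv).trans_le (by exact_mod_cast h)
      have h3 := invM_spec hw
      have h4 : E ∣ w * (X ^ m + v) + g ↔ E ∣ v + x := by
        refine ⟨fun h5 => ?_, fun h5 => ?_⟩
        · have := dvd_sub (h5.mul_left (invM E w)) (h3.mul_right (X ^ m + v))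
          convert this using 1
          rw [hx]; ring
        · have := dvd_sub (h5.mul_left w) (h3.mul_left g)
          convert this using 1
          rw [hx]; ring
      simp only [h4, dvd_iff_mod hm hv']
    have h5 : (qR k) ^ E.natDegree = qR k ^ (E.natDegree - m) * qR k ^ m := by
      rw [← pow_add, Nat.sub_add_cancel h]
    have h6 := (qR_pow_pos (k := k) m).ne'
    have h7 := (qR_pow_pos (k := k) (E.natDegree - m)).ne'
    unfold avg at h1
    rw [div_eq_iff h7] at h1
    rw [← hx, h1, avm, avg, Finset.sum_congr rfl h2, Finset.sum_ite_eq', h5]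
    simp only [mem_Pn]
    field_simp

theorem point {h r D E : k[X]} {e : ℕ} (m : ℕ) (α β φ : k[X] → ℝ) (hr : r.Monic)
    (hφ : ∀ F t, φ (F + r * t) = φ F) (hE : MD e E) (hβ : β E ≠ 0 → IsCoprime r E) :
    (if IsCoprime D E then α D * β E * (qR k ^ e * avm (r.natDegree + m)
      (fun Y => if E ∣ D * Y + h then φ (D * Y) else 0) -
        avm (r.natDegree + m) fun Y => φ (D * Y)) else 0) =
      avg r.natDegree fun a => ∑ f ∈ (Pn k (e - m)).erase 0,
        α D * φ (D * a) * (β E * eM E (f * (a * invM E r + X ^ m))) * kl E (f * h) (D * r) := by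
  by_cases h0 : β E = 0
  · simp [h0, avg_const]
  have hrE := hβ h0
  by_cases hDE : IsCoprime D E
  swap
  · have : ¬ IsCoprime (D * r) E := fun h1 => hDE h1.of_mul_left_left
    simp [hDE, kl_of_not this, avg_const]
  have hw : IsCoprime (D * r) E := hDE.mul_left hrE
  have hφ' : ∀ a t, φ (D * (a + r * t)) = φ (D * a) := fun a t => by
    rw [← hφ (D * a) (D * t)]
    congr 1
    ring
  rw [if_pos hDE, avm_split hr, avm_split hr, ← avg_mul_left, ← avg_sub, ← avg_mul_left]
  refine avg_congr fun a _ => ?_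
  have e1 : avm m (fun t => if E ∣ D * (a + r * t) + h then φ (D * (a + r * t)) else 0) =
      φ (D * a) * avm m fun t => if E ∣ D * r * t + (D * a + h) then 1 else 0 := by
    rw [← avm_mul_left]
    refine avm_congr fun t _ => ?_
    rw [hφ', show D * (a + r * t) + h = D * r * t + (D * a + h) by ring]
    split_ifs <;> simp
  have e2 : avm m (fun t => φ (D * (a + r * t))) = φ (D * a) := by
    simp only [hφ', avm_const]
  have e3 := count hE hw (D * a + h) m
  rw [← Finset.add_sum_erase _ _ (mem_Pn.2 (show (0 : k[X]).degree < (e - m : ℕ) by simp)),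
    zero_mul, eM_zero] at e3
  rw [e1, e2, mul_left_comm (qR k ^ e), e3, mul_add, mul_one, add_sub_cancel_left, Finset.mul_sum,
    Finset.mul_sum]
  refine Finset.sum_congr rfl fun f _ => ?_
  have e4 : eM E (f * ((D * a + h) * invM E (D * r) + X ^ m)) =
      eM E (f * (a * invM E r + X ^ m)) * kl E (f * h) (D * r) := by
    rw [kl, if_pos hw, ← eM_add]
    refine eM_congr hE.1 ?_
    have := (dvd_sub ((invM_spec hw).mul_left (invM E r))
      ((invM_spec hrE).mul_left (D * invM E (D * r)))).mul_left (f * a)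
    convert this using 1
    ring
  rw [e4]
  ring

end TwKF

theorem stKF : StKF := by
  intro k _ _ _ h r d e y α β φ B hr hy hφ hβ hB H
  obtain ⟨m, rfl⟩ := Nat.exists_eq_add_of_le hy
  have e1 : disc h d e (r.natDegree + m) α β φ = avg r.natDegree fun a =>
      ∑ f ∈ (Pn k (e - m)).erase 0, KBi d e (fun D => α D * φ (D * a))
        (fun E => β E * eM E (f * (a * invM E r + X ^ m))) (f * h) r := by
    unfold disc KBi
    rw [avm_congr fun D _ => (avm_congr fun E hE =>
      TwKF.point (D := D) m α β φ hr hφ hE (hβ E hE)).trans (avm_avg_comm _ _ _), avm_avg_comm]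
    refine avg_congr fun a _ => ?_
    rw [← avm_sum]
    exact avm_congr fun D _ => avm_sum _ _
  rw [e1]
  refine abs_avg_le_of_le fun a _ => (Finset.abs_sum_le_sum_abs _ _).trans ?_
  refine (Finset.sum_le_card_nsmul _ _ B fun f hf => ?_).trans ?_
  · obtain ⟨h0, h1⟩ := Finset.mem_erase.1 hf
    have h2 := natDegree_lt_of_degree h0 (mem_Pn.1 h1)
    refine H a f _ h0 (by omega) fun E => ?_
    rw [abs_mul, abs_eM, mul_one]
  · rw [nsmul_eq_mul, show e + r.natDegree - (r.natDegree + m) = e - m by omega, ← card_Pn]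
    exact mul_le_mul_of_nonneg_right (by exact_mod_cast Finset.card_erase_le) hB

end Pool.Agent.Lib.MP_9227d9_nt.Mob
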