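import Pool.Agent.Lib.MP_9227d9_nt.TwA

/-! The generating function of smooth polynomials. -/

namespace Pool.Agent.Lib.MP_9227d9_nt.Mob

open Polynomial

open scoped Classical

namespace TwSm1

/-- A renewal equation. -/
theorem hasSum_rec {a b : ℕ → ℝ} {B r : ℝ} {d : ℕ} (ha : ∀ j, 0 ≤ a j) (hb : ∀ j, 0 ≤ b j)
    (hB : HasSum b B) (h0 : 0 ≤ r) (h1 : r < 1)
    (h : ∀ j, a j = b j + r * if d ≤ j then a (j - d) else 0) : HasSum a (B / (1 - r)) := by
  set c : ℕ → ℝ := fun j => if d ≤ j then a (j - d) else 0 with hc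
  have hc0 : ∀ j, 0 ≤ c j := fun j => by
    simp only [hc]
    split_ifs
    exacts [ha _, le_rfl]
  have hd : ∑ i ∈ Finset.range d, c i = 0 :=
    Finset.sum_eq_zero fun i hi => if_neg (not_le.2 (Finset.mem_range.1 hi))
  have hs : ∀ i, c (d + i) = a i := fun i => by simp [hc]
  have h2 : ∀ n, ∑ j ∈ Finset.range n, c j ≤ ∑ j ∈ Finset.range n, a j := fun n => by
    calc ∑ j ∈ Finset.range n, c j ≤ ∑ j ∈ Finset.range (d + n), c j :=
          Finset.sum_le_sum_of_subset_of_nonneg (Finset.range_subset_range.2 (Nat.le_add_left _ _))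
            fun i _ _ => hc0 i
      _ = ∑ j ∈ Finset.range n, a j := by
          rw [Finset.sum_range_add, hd, zero_add]
          exact Finset.sum_congr rfl fun i _ => hs i
  have h3 : ∀ n, ∑ j ∈ Finset.range n, a j ≤ B / (1 - r) := fun n => by
    have e : ∑ j ∈ Finset.range n, a j =
        ∑ j ∈ Finset.range n, b j + r * ∑ j ∈ Finset.range n, c j := by
      rw [Finset.mul_sum, ← Finset.sum_add_distrib]
      exact Finset.sum_congr rfl fun j _ => h j
    have e1 := sum_le_hasSum (Finset.range n) (fun i _ => hb i) hB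
    have e2 := mul_le_mul_of_nonneg_left (h2 n) h0
    rw [le_div_iff₀ (by linarith)]
    linarith
  obtain ⟨A, hA⟩ := summable_of_sum_range_le ha h3
  have h4 : HasSum c A := by
    have := (hasSum_nat_add_iff (f := c) d (g := A)).1 (by
      simpa only [add_comm _ d, hs] using hA)
    rwa [hd, add_zero] at this
  have h5 : HasSum a (B + r * A) := by
    have := hB.add (h4.mul_left r)
    rwa [show (fun j => b j + r * c j) = a from funext fun j => (h j).symm] at this
  have h6 := hA.unique h5
  rw [show B / (1 - r) = A by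
    rw [div_eq_iff (by linarith)]
    linarith]
  exact hA

variable {k : Type} [Field k] [Fintype k]

/-- Indicator of the polynomials with all prime factors in `T`. -/
noncomputable def ind (T : Finset k[X]) (f : k[X]) : ℝ :=
  if ∀ p, IsP p → p ∣ f → p ∈ T then 1 else 0

omit [Fintype k] in
theorem ind_nonneg (T : Finset k[X]) (f : k[X]) : 0 ≤ ind T f := by
  unfold ind
  split_ifs <;> norm_num

omit [Fintype k] in
theorem ind_insert {T : Finset k[X]} {p : k[X]} (hp : IsP p) (hT : p ∉ T) (f : k[X]) :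
    ind (insert p T) f = ind T f + if p ∣ f then ind (insert p T) f else 0 := by
  by_cases h : p ∣ f
  · have : ind T f = 0 := if_neg fun h1 => hT (h1 p hp h)
    rw [if_pos h, this, zero_add]
  · rw [if_neg h, add_zero]
    unfold ind
    refine if_congr ⟨fun h1 r hr hd => ?_, fun h1 r hr hd => Finset.mem_insert_of_mem (h1 r hr hd)⟩
      rfl rfl
    rcases Finset.mem_insert.1 (h1 r hr hd) with rfl | h2
    exacts [absurd hd h, h2]

omit [Fintype k] in
theorem ind_mul {T : Finset k[X]} {p : k[X]} (hp : IsP p) (m : k[X]) :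
    ind (insert p T) (p * m) = ind (insert p T) m := by
  unfold ind
  refine if_congr ⟨fun h1 r hr hd => h1 r hr (hd.mul_left _), fun h1 r hr hd => ?_⟩ rfl rfl
  rcases hr.prime.dvd_or_dvd hd with h2 | h2
  · rw [hr.eq_of_dvd hp h2]
    exact Finset.mem_insert_self _ _
  · exact h1 r hr h2

theorem avm_dvd (hP : StPar1) {p : k[X]} (hp : IsP p) (Ψ : k[X] → ℝ) (j : ℕ) :
    avm j (fun f => if p ∣ f then Ψ f else 0) =
      1 / Nm p * if p.natDegree ≤ j then avm (j - p.natDegree) fun m => Ψ (p * m) else 0 := by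
  have hm : p ∈ MoD k p.natDegree := mem_MoD.2 ⟨hp.1, rfl⟩
  split_ifs with h
  · have h1 := hP k j p.natDegree (fun A F => if A = p then Ψ F else 0) h
    have h2 : ∀ F : k[X], ∑ A ∈ (MoD k p.natDegree).filter (fun A => A ∣ F),
        (if A = p then Ψ F else 0) = if p ∣ F then Ψ F else 0 := fun F => by
      rw [Finset.sum_ite_eq']
      simp [hm]
    simp only [h2] at h1
    rw [h1, avm_eq_MoD, Finset.sum_eq_single_of_mem p hm fun A _ hA => by
      simp only [if_neg hA, avm_const]]
    simp only [if_true, Nm]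
    ring
  · rw [mul_zero, avm_congr (G := fun _ => 0) fun f hf =>
      if_neg (hp.not_dvd_of_lt hf.ne_zero (by rw [hf.2]; omega)), avm_const]

theorem avm_ind_empty (j : ℕ) : avm j (ind (∅ : Finset k[X])) = if j = 0 then 1 else 0 := by
  rw [← avm_const (k := k) j (if j = 0 then 1 else 0)]
  refine avm_congr fun f hf => ?_
  unfold ind
  refine if_congr ⟨fun h => ?_, fun h p hp hd => ?_⟩ rfl rfl
  · by_contra hj
    have hu : ¬ IsUnit f := fun hu => hj (by rw [← hf.2, natDegree_eq_zero_of_isUnit hu])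
    obtain ⟨r, hr, hd⟩ := WfDvdMonoid.exists_irreducible_factor hu hf.ne_zero
    obtain ⟨p, hp, ha⟩ := Pr.exists_isP_associated hr
    exact absurd (h p hp (ha.dvd.trans hd)) (Finset.notMem_empty _)
  · exact absurd hd (hp.not_dvd_of_lt hf.ne_zero (by rw [hf.2, h]; exact hp.natDegree_pos))

theorem hasSum_ind (hP : StPar1) (T : Finset k[X]) (hT : ∀ p ∈ T, IsP p) :
    HasSum (fun j => avm j (ind T)) (∏ p ∈ T, Nm p / (Nm p - 1)) := by
  induction T using Finset.induction_on with
  | empty =>
    simp only [avm_ind_empty, Finset.prod_empty]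
    exact hasSum_ite_eq 0 1
  | insert p T hp ih =>
    have hp' : IsP p := hT p (Finset.mem_insert_self _ _)
    have h2 := hp'.two_le_Nm
    have h1 := hasSum_rec (a := fun j => avm j (ind (insert p T))) (r := 1 / Nm p)
      (d := p.natDegree) (fun j => avm_nonneg fun f _ => ind_nonneg _ f)
      (fun j => avm_nonneg fun f _ => ind_nonneg _ f)
      (ih fun r hr => hT r (Finset.mem_insert_of_mem hr)) (by positivity)
      (by rw [div_lt_one (by linarith)]; linarith) fun j => by
        have h3 := avm_dvd hP hp' (ind (insert p T)) j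
        simp only [ind_mul hp'] at h3
        rw [← h3, ← avm_add]
        exact avm_congr fun f _ => ind_insert hp' hp f
    rw [Finset.prod_insert hp]
    convert h1 using 1
    have : Nm p - 1 ≠ 0 := by linarith
    have : Nm p ≠ 0 := by linarith
    field_simp

omit [Fintype k] in
theorem rI_prod (z : ℕ) (S : Finset k[X]) : rI z (∏ p ∈ S, p) = ∏ p ∈ S, rI z p := by
  induction S using Finset.induction_on with
  | empty => simp [rI, rough_one]
  | insert p S hp ih =>
    rw [Finset.prod_insert hp, Finset.prod_insert hp, ← ih]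
    unfold rI
    rw [rough_mul]
    by_cases h1 : Rough z p <;> by_cases h2 : Rough z (∏ p ∈ S, p) <;> simp [h1, h2]

theorem sum_div (z j : ℕ) {F : k[X]} (hF : MD j F) :
    ∑ i ∈ Finset.range (j + 1), ∑ A ∈ (MoD k i).filter (fun A => A ∣ F), mu A * rI z A =
      if Smth z F then 1 else 0 := by
  have h1 : ∑ i ∈ Finset.range (j + 1), ∑ A ∈ (MoD k i).filter (fun A => A ∣ F), mu A * rI z A =
      ∑ A ∈ (Mo k j).filter (fun A => A ∣ F), mu A * rI z A := by
    rw [← Finset.sum_fiberwise_of_maps_to (s := (Mo k j).filter fun A => A ∣ F)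
      (t := Finset.range (j + 1)) (g := natDegree) fun A hA =>
        Finset.mem_range.2 (Nat.lt_succ_of_le (mem_Mo.1 (Finset.mem_filter.1 hA).1).2)]
    refine Finset.sum_congr rfl fun i hi => Finset.sum_congr ?_ fun _ _ => rfl
    have := Finset.mem_range.1 hi
    ext A
    simp only [Finset.mem_filter, mem_MoD, mem_Mo, MD]
    exact ⟨fun h => ⟨⟨⟨h.1.1, by omega⟩, h.2⟩, h.1.2⟩, fun h => ⟨⟨h.1.1.1, h.2⟩, h.1.2⟩⟩
  have h2 : ∀ S : Finset k[X], (-1) ^ S.card * rI z (∏ p ∈ S, p) = ∏ p ∈ S, -rI z p := fun S => by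
    rw [rI_prod, Finset.prod_neg]
  rw [h1, sum_mu_dvd hF.ne_zero hF.2.le]
  simp only [h2]
  rw [← Finset.prod_one_add]
  split_ifs with h
  · refine Finset.prod_eq_one fun p hp => ?_
    obtain ⟨h3, h4⟩ := (mem_pf hF.ne_zero).1 hp
    have : rI z p = 0 := if_neg fun h5 => absurd (h3.rough_iff.1 h5) (not_le.2 (h p h3 h4))
    rw [this]
    ring
  · unfold Smth at h
    push Not at h
    obtain ⟨p, h3, h4, h5⟩ := h
    refine Finset.prod_eq_zero ((mem_pf hF.ne_zero).2 ⟨h3, h4⟩) ?_
    have : rI z p = 1 := if_pos (h3.rough_iff.2 h5)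
    rw [this]
    ring

end TwSm1

theorem stSm1 (hP : StPar1) : StSm1 := by
  intro k _ _ z
  refine ⟨?_, fun j => ?_⟩
  · have h1 := TwSm1.hasSum_ind hP (PrL k z) fun p hp => (mem_PrL.1 hp).1
    have h2 : smD k z = fun j => avm j (TwSm1.ind (PrL k z)) := funext fun j =>
      avm_congr fun f _ => if_congr ⟨fun h p hp hd => mem_PrL.2 ⟨hp, h p hp hd⟩,
        fun h p hp hd => (mem_PrL.1 (h p hp hd)).2⟩ rfl rfl
    rw [h2]
    exact h1
  · have h1 : ∀ i ∈ Finset.range (j + 1), mm k z i =
        avm j fun F : k[X] => ∑ A ∈ (MoD k i).filter (fun A => A ∣ F), mu A * rI z A :=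
      fun i hi => by
        rw [hP k j i (fun A _ => mu A * rI z A) (Nat.le_of_lt_succ (Finset.mem_range.1 hi))]
        simp only [avm_const]
        rfl
    rw [Finset.sum_congr rfl h1, ← avm_sum]
    exact avm_congr fun F hF => TwSm1.sum_div z j hF

end Pool.Agent.Lib.MP_9227d9_nt.Mob
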