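import Pool.Agent.Lib.MP_9227d9_nt.TwB

/-! Complete Kloosterman sums. -/

namespace Pool.Agent.Lib.MP_9227d9_nt.Mob

open Polynomial

open scoped Classical

namespace TwKp

theorem char_eq {F : Type} [Field F] [Fintype F] [CharP F 2] {χ : F → ℝ}
    (hadd : ∀ x y, χ (x + y) = χ x * χ y) (h0 : χ 0 = 1) (hne : ∃ x, χ x = -1) :
    ∃ g : F, g ≠ 0 ∧ ∀ x, χ x = B0.ps (g * x) := by
  have h1 : ∑ g : F, ∑ x : F, χ x * B0.ps (g * x) = Fintype.card F := by
    rw [Finset.sum_comm, Finset.sum_eq_single 0]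
    · simp [h0, B0.ps_zero]
    · intro x _ hx
      have e : ∑ g : F, B0.ps (g * x) = ∑ g : F, B0.ps g :=
        Equiv.sum_comp (Equiv.mulRight₀ x hx) B0.ps
      rw [← Finset.mul_sum, e, B0.sum_ps, mul_zero]
    · simp
  have h2 : (Fintype.card F : ℝ) ≠ 0 := Nat.cast_ne_zero.2 Fintype.card_ne_zero
  rw [← h1] at h2
  obtain ⟨g, -, hg⟩ := Finset.exists_ne_zero_of_sum_ne_zero h2
  have key : ∀ y, χ y = B0.ps (g * y) := by
    intro y
    have e1 := Equiv.sum_comp (Equiv.addRight y) fun x => χ x * B0.ps (g * x)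
    have e2 : ∑ x : F, χ (x + y) * B0.ps (g * (x + y)) =
        (χ y * B0.ps (g * y)) * ∑ x : F, χ x * B0.ps (g * x) := by
      rw [Finset.mul_sum]
      refine Finset.sum_congr rfl fun x _ => ?_
      rw [hadd, mul_add, B0.ps_add]
      ring
    have e3 : χ y * B0.ps (g * y) = 1 := by
      refine mul_right_cancel₀ hg ?_
      rw [← e2, one_mul]
      exact e1
    have e4 : B0.ps (g * y) * B0.ps (g * y) = 1 := by
      rw [← abs_mul_abs_self, B0.abs_ps, one_mul]
    linear_combination B0.ps (g * y) * e3 - χ y * e4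
  refine ⟨g, fun hg0 => ?_, key⟩
  obtain ⟨x, hx⟩ := hne
  rw [key, hg0, zero_mul, B0.ps_zero] at hx
  norm_num at hx

variable {k : Type} [Field k] [Fintype k]

theorem avg_mk {p : k[X]} (hp : IsP p) [Fintype (AdjoinRoot p)]
    (hN : (Fintype.card (AdjoinRoot p) : ℝ) = Nm p) (Φ : AdjoinRoot p → ℝ) :
    avg p.natDegree (fun x => Φ (AdjoinRoot.mk p x)) = (∑ t, Φ t) / Nm p := by
  have hi : Set.InjOn (AdjoinRoot.mk p) (Pn k p.natDegree) := by
    intro τ hτ τ' hτ' h
    refine sub_eq_zero.1 (eq_zero_of_dvd_of_degree_lt (AdjoinRoot.mk_eq_mk.1 h) ?_)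
    rw [degree_eq_natDegree hp.1.ne_zero]
    exact (degree_sub_le _ _).trans_lt (max_lt (mem_Pn.1 hτ) (mem_Pn.1 hτ'))
  have hu : (Pn k p.natDegree).image (AdjoinRoot.mk p) = Finset.univ := by
    refine Finset.eq_univ_of_card _ ?_
    rw [Finset.card_image_of_injOn hi]
    have := card_Pn (k := k) p.natDegree
    rw [← Nm, ← hN] at this
    exact_mod_cast this
  rw [avg, Nm, ← hu, Finset.sum_image hi]

theorem avg_mul_two {M A : k[X]} (hM : M ≠ 0) (hA : A ≠ 0) (h : IsCoprime M A) {F G : k[X] → ℝ}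
    (hF : ∀ v t, F (v + M * t) = F v) (hG : ∀ v t, G (v + A * t) = G v) :
    avg (M * A).natDegree (fun x => F x * G x) = avg M.natDegree F * avg A.natDegree G := by
  rw [natDegree_mul hM hA, avg_split hM, ← avg_mul_right]
  refine avg_congr fun r _ => ?_
  simp only [hF]
  rw [avg_mul_left, avg_affine hA le_rfl hG h]

omit [Fintype k] in
theorem periodic {M : k[X]} (hM : M.Monic) (b c d v t : k[X]) :
    kl M b (v + M * t) * eM M (c * (v + M * t) * d) = kl M b v * eM M (c * v * d) := by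
  rw [kl_congr (y := v) hM ⟨t, by ring⟩, eM_congr (y := c * v * d) hM ⟨c * t * d, by ring⟩]

end TwKp

theorem stKp (hW : StWeil) : StKp := by
  intro k _ _ _ p b c hp hb
  have : Fact (Irreducible p) := ⟨hp.2⟩
  have : Module.Finite k (AdjoinRoot p) := (AdjoinRoot.powerBasis hp.1.ne_zero).finite
  have : Finite (AdjoinRoot p) := Module.finite_of_finite k
  let _ : Fintype (AdjoinRoot p) := Fintype.ofFinite _
  have : CharP (AdjoinRoot p) 2 :=
    charP_of_injective_algebraMap (algebraMap k (AdjoinRoot p)).injective 2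
  have hN : (Fintype.card (AdjoinRoot p) : ℝ) = Nm p := by
    rw [Module.card_eq_pow_finrank (K := k), (AdjoinRoot.powerBasis hp.1.ne_zero).finrank,
      AdjoinRoot.powerBasis_dim, Nat.cast_pow]
    rfl
  let χ : AdjoinRoot p → ℝ := fun t => eM p (Function.surjInv AdjoinRoot.mk_surjective t)
  have hχ : ∀ x, χ (AdjoinRoot.mk p x) = eM p x := fun x =>
    eM_congr hp.1 (AdjoinRoot.mk_eq_mk.1 (Function.surjInv_eq AdjoinRoot.mk_surjective _))
  obtain ⟨g, hg, key⟩ := TwKp.char_eq (χ := χ) (fun s t => by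
      obtain ⟨x, rfl⟩ := AdjoinRoot.mk_surjective s
      obtain ⟨y, rfl⟩ := AdjoinRoot.mk_surjective t
      rw [← map_add, hχ, hχ, hχ, eM_add])
    (by rw [← map_zero (AdjoinRoot.mk p), hχ, eM_zero])
    (by
      obtain ⟨x, hx⟩ := exists_eM_ne_one hp.1 hp.natDegree_pos
      exact ⟨AdjoinRoot.mk p x, by rw [hχ, hx]⟩)
  have h1 := hW (AdjoinRoot p) (g * AdjoinRoot.mk p b) (g * AdjoinRoot.mk p c)
    (mul_ne_zero hg fun h => hb (AdjoinRoot.mk_eq_zero.1 h))
  rw [Finset.sum_filter, hN] at h1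
  have h2 := TwKp.avg_mk hp hN fun t =>
    if t ≠ 0 then ps0 (g * AdjoinRoot.mk p b / t + g * AdjoinRoot.mk p c * t) else 0
  have h3 : ∀ x : k[X], kl p b x * eM p (c * x) = if AdjoinRoot.mk p x ≠ 0 then
      ps0 (g * AdjoinRoot.mk p b / AdjoinRoot.mk p x + g * AdjoinRoot.mk p c * AdjoinRoot.mk p x)
      else 0 := by
    intro x
    by_cases hx : AdjoinRoot.mk p x = 0
    · rw [if_neg (not_not.2 hx), kl_of_not fun h =>
        hp.isCoprime_iff.1 h (AdjoinRoot.mk_eq_zero.1 hx), zero_mul]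
    · have hc : IsCoprime x p := hp.isCoprime_iff.2 fun h => hx (AdjoinRoot.mk_eq_zero.2 h)
      have hi : AdjoinRoot.mk p x * AdjoinRoot.mk p (invM p x) = 1 := by
        rw [← map_mul, ← map_one (AdjoinRoot.mk p), AdjoinRoot.mk_eq_mk]
        exact invM_spec hc
      rw [if_pos hx, kl, if_pos hc, ← eM_add, ← hχ, key, ps0_eq, map_add, map_mul, map_mul,
        eq_inv_of_mul_eq_one_right hi]
      congr 1
      ring
  have hpos := Nm_pos p
  have hs : 0 < √(Nm p) := Real.sqrt_pos.2 hpos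
  simp only [h3]
  rw [h2, abs_div, abs_of_pos hpos, div_le_div_iff₀ hpos hs]
  calc _ ≤ 5 * √(Nm p) * √(Nm p) := mul_le_mul_of_nonneg_right h1 hs.le
    _ = 5 * Nm p := by rw [mul_assoc, Real.mul_self_sqrt hpos.le]

theorem stKS (hp : StKp) : StKS := by
  intro k _ _ _ S
  induction S using Finset.induction_on with
  | empty =>
    intro M b c _ _
    simp only [Finset.card_empty, Finset.sum_empty, pow_zero, Real.sqrt_one, div_one]
    refine abs_avg_le_of_le fun v _ => ?_
    rw [abs_mul, abs_eM, mul_one]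
    exact abs_kl_le _ _ _
  | insert p S hpS ih =>
    intro M b c hM hS
    obtain ⟨h1, ⟨A, rfl⟩, h3, h4⟩ := hS p (Finset.mem_insert_self p S)
    have hA : A.Monic := h1.1.of_mul_monic_left hM
    have hc : IsCoprime A p := h1.isCoprime_iff.2 fun h => h3 (by
      rw [sq]
      exact mul_dvd_mul_left p h)
    have e1 : ∀ x, kl (p * A) b x * eM (p * A) (c * x) =
        (kl p (b * invM p A) x * eM p (c * x * invM p A)) *
          (kl A (b * invM A p) x * eM A (c * x * invM A p)) := fun x => by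
      rw [kl_crt h1.1 hA hc.symm, eM_crt h1.1 hA hc.symm]
      ring
    have e2 := TwKp.avg_mul_two h1.1.ne_zero hA.ne_zero hc.symm
      (F := fun x => kl p (b * invM p A) x * eM p (c * x * invM p A))
      (G := fun x => kl A (b * invM A p) x * eM A (c * x * invM A p))
      (TwKp.periodic h1.1 _ _ _) (TwKp.periodic hA _ _ _)
    have b1 := hp k p (b * invM p A) (c * invM p A) h1 fun h =>
      (h1.prime.dvd_or_dvd h).elim h4 (h1.isCoprime_iff.1 (isCoprime_invM hc))
    have b2 := ih A (b * invM A p) (c * invM A p) hA fun r hr => by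
      obtain ⟨g1, g2, g3, g4⟩ := hS r (Finset.mem_insert_of_mem hr)
      have g5 : r ∣ A := (g1.prime.dvd_or_dvd g2).resolve_left fun h =>
        hpS (g1.eq_of_dvd h1 h ▸ hr)
      refine ⟨g1, g5, fun h => g3 (h.mul_left p), fun h => ?_⟩
      exact (g1.prime.dvd_or_dvd h).elim g4
        (g1.isCoprime_iff.1 ((isCoprime_invM hc.symm).of_isCoprime_of_dvd_right g5))
    simp only [mul_right_comm c (invM p A)] at b1
    simp only [mul_right_comm c (invM A p)] at b2
    simp only [e1]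
    rw [e2, abs_mul, Finset.card_insert_of_notMem hpS, Finset.sum_insert hpS, pow_succ',
      pow_add (qR k), Real.sqrt_mul (qR_pow_pos _).le, mul_div_mul_comm]
    exact mul_le_mul b1 b2 (abs_nonneg _) (by positivity)

end Pool.Agent.Lib.MP_9227d9_nt.Mob
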