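import Pool.Agent.Lib.MP_9227d9_nt.TwA

/-!
The weighted means of one and of two Moebius functions.
-/

namespace Pool.Agent.Lib.MP_9227d9_nt.Mob

open Polynomial

open scoped Classical

namespace TwOff

variable {k : Type} [Field k] [Fintype k]

/-- Splitting a weighted mean into good lines and bad pairs. -/
theorem gen (c : Tw k) {K' B₁ B₂ : ℝ} {φ : k[X] → ℝ} (hφ : PerS c.z (2 * c.κ) c.n1 K' φ)
    (g : k[X] → k[X] → ℝ) (Good : k[X] → k[X] → Prop) (hB₁ : 0 ≤ B₁)
    (hG : ∀ u m σ, Good u (m + u * σ ^ 2) ↔ Good u m)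
    (hline : ∀ u m r, MD c.nu u → MD c.n1 m → r ≠ 0 → r.natDegree ≤ 2 * c.κ → Smth c.z r →
      Good u m → |avg (76 * c.τ) fun σ => g u (m + u * (r * σ) ^ 2)| ≤ B₁)
    (hbad : ∀ m, MD c.n1 m → avm c.nu (fun u => if Good u m then 0 else |g u m|) ≤ B₂) :
    |avm c.nu fun u => avm c.n1 fun m => φ m * g u m| ≤ K' * (B₁ + B₂) := by
  have hK' := hφ.nonneg
  obtain ⟨ι, T, f, r, hsum, hr, hK⟩ := hφ
  have hφK : ∀ m, MD c.n1 m → |φ m| ≤ K' := fun m hm => by
    rw [hsum]
    exact (Finset.abs_sum_le_sum_abs _ _).trans (hK m hm)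
  have key : ∀ u, MD c.nu u → |avm c.n1 fun m => φ m * g u m| ≤
      K' * B₁ + avm c.n1 fun m => K' * if Good u m then 0 else |g u m| := by
    intro u hu
    have h1 : (avm c.n1 fun m => φ m * g u m) =
        (∑ i ∈ T, avm c.n1 fun m => f i m * if Good u m then g u m else 0) +
          avm c.n1 fun m => φ m * if Good u m then 0 else g u m := by
      rw [← avm_sum, ← avm_add]
      refine avm_congr fun m _ => ?_
      rw [← Finset.sum_mul, ← hsum]
      split_ifs <;> ring
    have h2 : ∀ i ∈ T, |avm c.n1 fun m => f i m * if Good u m then g u m else 0| ≤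
        avm c.n1 fun m => |f i m| * B₁ := by
      intro i hi
      obtain ⟨hr0, hrd, hrs, hper⟩ := hr i hi
      rw [avm_avg_shift (76 * c.τ) (fun σ => u * (r i * σ) ^ 2) (fun σ hσ => by
        have h3 : u * (r i * σ) ^ 2 = (u * r i ^ 2) * σ ^ 2 := by ring
        rw [h3]
        refine degree_mul_sq_lt hσ ?_
        rw [natDegree_mul hu.ne_zero (pow_ne_zero 2 hr0), natDegree_pow, hu.2]
        have h4 := c.L_eq
        have h5 := c.nu_add
        omega)]
      refine abs_avm_le.trans (avm_mono fun m hm => ?_)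
      have e1 : ∀ σ, f i (m + u * (r i * σ) ^ 2) = f i m := fun σ => by
        have : u * (r i * σ) ^ 2 = r i * (u * r i * σ ^ 2) := by ring
        rw [this, hper]
      by_cases hg : Good u m
      · have h3 : avg (76 * c.τ) (fun σ => f i (m + u * (r i * σ) ^ 2) *
            if Good u (m + u * (r i * σ) ^ 2) then g u (m + u * (r i * σ) ^ 2) else 0) =
            f i m * avg (76 * c.τ) fun σ => g u (m + u * (r i * σ) ^ 2) := by
          rw [← avg_mul_left]
          refine avg_congr fun σ _ => ?_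
          rw [e1, if_pos ((hG u m _).2 hg)]
        rw [h3, abs_mul]
        exact mul_le_mul_of_nonneg_left (hline u m _ hu hm hr0 hrd hrs hg) (abs_nonneg _)
      · refine abs_avg_le_of_le fun σ _ => ?_
        rw [if_neg fun h => hg ((hG u m _).1 h), mul_zero, abs_zero]
        exact mul_nonneg (abs_nonneg _) hB₁
    have h3 : |∑ i ∈ T, avm c.n1 fun m => f i m * if Good u m then g u m else 0| ≤ K' * B₁ := by
      refine (Finset.abs_sum_le_sum_abs _ _).trans ((Finset.sum_le_sum h2).trans ?_)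
      rw [← avm_sum]
      refine avm_le_of_le fun m hm => ?_
      rw [← Finset.sum_mul]
      exact mul_le_mul_of_nonneg_right (hK m hm) hB₁
    have h4 : |avm c.n1 fun m => φ m * if Good u m then 0 else g u m| ≤
        avm c.n1 fun m => K' * if Good u m then 0 else |g u m| := by
      refine abs_avm_le.trans (avm_mono fun m hm => ?_)
      rw [abs_mul]
      split_ifs
      · simp
      · exact mul_le_mul_of_nonneg_right (hφK m hm) (abs_nonneg _)
    rw [h1]
    exact (abs_add_le _ _).trans (add_le_add h3 h4)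
  refine (abs_avm_le.trans (avm_mono key)).trans ?_
  rw [avm_add, avm_const, avm_comm, mul_add]
  refine add_le_add le_rfl (avm_le_of_le fun m hm => ?_)
  rw [avm_mul_left]
  exact mul_le_mul_of_nonneg_left (hbad m hm) hK'

variable [CharP k 2]

/-- The value of one factor on a good line. -/
theorem line_eq {A c₀ m u : k[X]} (h : IsCoprime (A * u) (od ((A * m + c₀) * A * u)))
    (r σ : k[X]) :
    mu (A * (m + u * (r * σ) ^ 2) + c₀) =
      mu (A * u) * mu ((A * m + c₀) * A * u + (A * u * r * σ) ^ 2) := by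
  obtain ⟨h1, h2, -⟩ := Tw.od_line A c₀ m u (r * σ)
  have h3 : IsCoprime (A * u) (od ((A * (m + u * (r * σ) ^ 2) + c₀) * (A * u))) := by
    rw [← mul_assoc, h1]
    exact h
  rw [mu_eq_of_isCoprime_od h3, ← mul_assoc (A * (m + u * (r * σ) ^ 2) + c₀), h2,
    ← mul_assoc (A * u)]

omit [CharP k 2] in
theorem dir_deg (c : Tw k) {A u r : k[X]} (hA : MD c.a A) (hu : MD c.nu u) (hr : r ≠ 0)
    (hd : r.natDegree ≤ 2 * c.κ) : (A * u * r).natDegree + 76 * c.τ ≤ c.dl + 1 := by
  rw [natDegree_mul (hA.mul hu).ne_zero hr, (hA.mul hu).2]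
  have h1 := c.L_eq
  have h2 := c.dl_add
  omega

omit [CharP k 2] in
theorem dir_cop (c : Tw k) {Y l r : k[X]} (h : IsCoprime Y l) (hr : Smth c.z r) :
    ∀ p, IsP p → p.natDegree = 12 * c.τ → p ∣ l → ¬ p ∣ Y * r := by
  intro p hp hd hl hY
  rcases hp.prime.dvd_or_dvd hY with h1 | h1
  · exact hp.prime.not_isUnit (h.isUnit_of_dvd' h1 hl)
  · have h2 := hr p hp h1
    have h3 : c.z = 12 * c.τ := rfl
    omega

omit [Fintype k] [CharP k 2] in
theorem sqf {A c₀ m : k[X]} (hA : Squarefree A) (hc : IsCoprime c₀ A)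
    (h : mu (A * m + c₀) ≠ 0) : Squarefree ((A * m + c₀) * A) := by
  have h1 : IsCoprime (A * m + c₀) A := by
    rw [add_comm]
    exact hc.add_mul_left_left m
  exact squarefree_mul_iff.2 ⟨h1.isRelPrime, mu_ne_zero_iff.1 h, hA⟩

omit [CharP k 2] in
theorem small (c : Tw k) {K x : ℝ} (hK : KB2 k c.U c.τ K) (hx : x ≤ c.Q + 2 * c.n) :
    x / qR k ^ (12 * c.τ) ≤ K / c.Q := by
  have h1 := c.two_le_Q
  have h2 := c.n_le_K hK
  have h3 := hK.ten_le
  have h4 : (0 : ℝ) ≤ c.n := Nat.cast_nonneg _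
  have hQ : (0 : ℝ) < c.Q := by linarith
  rw [← c.Q_pow, div_le_div_iff₀ (pow_pos hQ _) hQ]
  have h5 : c.Q ^ 2 ≤ c.Q ^ 12 := pow_le_pow_right₀ (by linarith) (by norm_num)
  have h6 : x ≤ K * c.Q := by nlinarith
  calc x * c.Q ≤ K * c.Q * c.Q := mul_le_mul_of_nonneg_right h6 hQ.le
    _ = K * c.Q ^ 2 := by ring
    _ ≤ K * c.Q ^ 12 := mul_le_mul_of_nonneg_left h5 (by linarith)

/-- The event of the first exceptional set. -/
def Ev (c : Tw k) (A c₀ m u : k[X]) : Prop :=
  ∃ p, IsP p ∧ 12 * c.τ ≤ p.natDegree ∧ p ∣ A * u ∧ p ∣ od ((A * m + c₀) * A * u)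

theorem ev_of (c : Tw k) {A c₀ m u : k[X]} (hA : MD c.a A) (hu : MD c.nu u)
    (hW : c.W (od ((A * m + c₀) * A * u)) ≠ 0)
    (h : ¬ IsCoprime (A * u) (od ((A * m + c₀) * A * u))) : Ev c A c₀ m u := by
  obtain ⟨p, hp, h1, h2⟩ := exists_isP_of_not_isCoprime (hA.mul hu).ne_zero h
  obtain ⟨i, hi⟩ := natDegree_of_Wt_ne_zero hW hp h2
  exact ⟨p, hp, hi ▸ c.I_ge i, h1, h2⟩

theorem MD_H (c : Tw k) {A c₀ m : k[X]} (hA : MD c.a A) (hc : c₀.natDegree ≤ c.a + c.τ)
    (hm : MD c.n1 m) : MD (c.a + c.n1 + c.a) ((A * m + c₀) * A) :=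
  (c.MD_line hA hc hm (u := X ^ c.nu) ⟨monic_X_pow _, natDegree_X_pow _⟩).1.mul hA

theorem avm_ev (h1 : StEX1) (c : Tw k) {K : ℝ} (hK : KB2 k c.U c.τ K) {A c₀ m : k[X]}
    (hA : MD c.a A) (hs : Squarefree A) (hc : IsCoprime c₀ A) (hd : c₀.natDegree ≤ c.a + c.τ)
    (hm : MD c.n1 m) (h : mu (A * m + c₀) ≠ 0) :
    avm c.nu (fun u => if Ev c A c₀ m u then 1 else 0) ≤ K / c.Q := by
  have h2 := c.τ_pos
  have h3 := c.nu_ge
  have h4 := c.τ_le
  refine (h1 k ((A * m + c₀) * A) A (12 * c.τ) c.nu (sqf hs hc h) (dvd_mul_left _ _)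
    (by omega) (by omega)).trans (small c hK ?_)
  have h5 := c.qR_le_Q
  have h6 : ((A * m + c₀) * A).natDegree ≤ 2 * c.n := by
    rw [(MD_H c hA hd hm).2]
    have h7 := c.n1_add
    omega
  have h7 : (((A * m + c₀) * A).natDegree : ℝ) ≤ 2 * c.n := by exact_mod_cast h6
  linarith

omit [CharP k 2] in
theorem abs_le (c : Tw k) {K : ℝ} (hK : KB2 k c.U c.τ K) (F l : k[X]) : |mu F * c.W l| ≤ K := by
  rw [abs_mul]
  exact (mul_le_of_le_one_left (abs_nonneg _) (abs_mu_le F)).trans (c.abs_W_le hK l)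

end TwOff

theorem stOn (h1 : StEX1) : StOn := by
  intro k _ _ _ c K K' sv A c₀ φ hK hL hsv hA hs hc hd hφ
  have hK10 := hK.ten_le
  have hQ : (0 : ℝ) < c.Q := lt_of_lt_of_le two_pos c.two_le_Q
  have key := TwOff.gen c hφ (B₁ := K * sv) (B₂ := K * (K / c.Q))
    (fun u m => mu (A * m + c₀) * c.W (od ((A * m + c₀) * A * u)))
    (fun u m => IsCoprime (A * u) (od ((A * m + c₀) * A * u))) (by positivity)
    (fun u m σ => by rw [(Tw.od_line A c₀ m u σ).1]) ?_ ?_
  · simp only [← mul_assoc] at key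
    refine key.trans (le_of_eq ?_)
    ring
  · intro u m r hu hm hr hrd hrs hg
    have h2 : avg (76 * c.τ) (fun σ => mu (A * (m + u * (r * σ) ^ 2) + c₀) *
        c.W (od ((A * (m + u * (r * σ) ^ 2) + c₀) * A * u))) =
        (mu (A * u) * c.W (od ((A * m + c₀) * A * u))) *
          avg (76 * c.τ) fun σ => mu ((A * m + c₀) * A * u + (A * u * r * σ) ^ 2) := by
      rw [← avg_mul_left]
      refine avg_congr fun σ _ => ?_
      rw [(Tw.od_line A c₀ m u (r * σ)).1, TwOff.line_eq hg]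
      ring
    rw [h2, abs_mul]
    by_cases hW : c.W (od ((A * m + c₀) * A * u)) = 0
    · rw [hW, mul_zero, abs_zero, zero_mul]
      positivity
    · exact mul_le_mul (TwOff.abs_le c hK _ _)
        (hL c.r c.I c.dl _ _ c.r_le c.I_inj c.I_zero c.I_le (c.MD_line hA hd hm hu).2.1 hW
          (TwOff.dir_deg c hA hu hr hrd) (TwOff.dir_cop c hg hrs)).1 (abs_nonneg _) (by linarith)
  · intro m hm
    by_cases hmu : mu (A * m + c₀) = 0
    · refine avm_le_of_le fun u _ => ?_
      rw [hmu, zero_mul, abs_zero, ite_self]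
      positivity
    · refine le_trans (avm_mono (G := fun u => K * if TwOff.Ev c A c₀ m u then 1 else 0)
        fun u hu => ?_) ?_
      · have hi : (0 : ℝ) ≤ K * if TwOff.Ev c A c₀ m u then 1 else 0 := by
          split_ifs <;> linarith
        by_cases hg : IsCoprime (A * u) (od ((A * m + c₀) * A * u))
        · rw [if_pos hg]
          exact hi
        · rw [if_neg hg]
          by_cases hW : c.W (od ((A * m + c₀) * A * u)) = 0
          · rw [hW, mul_zero, abs_zero]
            exact hi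
          · rw [if_pos (TwOff.ev_of c hA hu hW hg), mul_one]
            exact TwOff.abs_le c hK _ _
      · rw [avm_mul_left]
        exact mul_le_mul_of_nonneg_left (TwOff.avm_ev h1 c hK hA hs hc hd hm hmu) (by linarith)

theorem stOff (h1 : StEX1) (h2 : StEX2) : StOff := by
  intro k _ _ _ c K K' sv A c₀ A' c₀' φ hK hL hsv hA hs hc hd hA' hs' hc' hd' hne hφ
  have hK10 := hK.ten_le
  have hQ : (0 : ℝ) < c.Q := lt_of_lt_of_le two_pos c.two_le_Q
  have hab : ∀ F l F' l' : k[X], |mu F * c.W l * (mu F' * c.W l')| ≤ K ^ 2 := fun F l F' l' => by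
    rw [abs_mul, sq]
    exact mul_le_mul (TwOff.abs_le c hK _ _) (TwOff.abs_le c hK _ _) (abs_nonneg _) (by linarith)
  have key := TwOff.gen c hφ (B₁ := K ^ 2 * sv) (B₂ := K ^ 2 * (3 * K / c.Q))
    (fun u m => mu (A * m + c₀) * c.W (od ((A * m + c₀) * A * u)) *
      (mu (A' * m + c₀') * c.W (od ((A' * m + c₀') * A' * u))))
    (fun u m => IsCoprime (A * u) (od ((A * m + c₀) * A * u)) ∧
      IsCoprime (A' * u) (od ((A' * m + c₀') * A' * u)) ∧
      ∀ p, IsP p → p.natDegree = 12 * c.τ → p ∣ od ((A * m + c₀) * A * u) →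
        ¬ p ∣ od ((A' * m + c₀') * A' * u)) (by positivity)
    (fun u m σ => by rw [(Tw.od_line A c₀ m u σ).1, (Tw.od_line A' c₀' m u σ).1]) ?_ ?_
  · simp only [mul_assoc (φ _)]
    refine key.trans (le_of_eq ?_)
    ring
  · rintro u m r hu hm hr hrd hrs ⟨hg, hg', hp⟩
    have h3 : avg (76 * c.τ) (fun σ => mu (A * (m + u * (r * σ) ^ 2) + c₀) *
        c.W (od ((A * (m + u * (r * σ) ^ 2) + c₀) * A * u)) *
        (mu (A' * (m + u * (r * σ) ^ 2) + c₀') *
          c.W (od ((A' * (m + u * (r * σ) ^ 2) + c₀') * A' * u)))) =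
        (mu (A * u) * c.W (od ((A * m + c₀) * A * u)) *
          (mu (A' * u) * c.W (od ((A' * m + c₀') * A' * u)))) *
          avg (76 * c.τ) fun σ => mu ((A * m + c₀) * A * u + (A * u * r * σ) ^ 2) *
            mu ((A' * m + c₀') * A' * u + (A' * u * r * σ) ^ 2) := by
      rw [← avg_mul_left]
      refine avg_congr fun σ _ => ?_
      rw [(Tw.od_line A c₀ m u (r * σ)).1, (Tw.od_line A' c₀' m u (r * σ)).1, TwOff.line_eq hg,
        TwOff.line_eq hg']
      ring
    rw [h3, abs_mul]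
    by_cases hW : c.W (od ((A * m + c₀) * A * u)) = 0
    · rw [hW, mul_zero, zero_mul, abs_zero, zero_mul]
      positivity
    by_cases hW' : c.W (od ((A' * m + c₀') * A' * u)) = 0
    · rw [hW', mul_zero, mul_zero, abs_zero, zero_mul]
      positivity
    exact mul_le_mul (hab _ _ _ _)
      ((hL c.r c.I c.dl _ _ c.r_le c.I_inj c.I_zero c.I_le (c.MD_line hA hd hm hu).2.1 hW
        (TwOff.dir_deg c hA hu hr hrd) (TwOff.dir_cop c hg hrs)).2 _ _
        (c.MD_line hA' hd' hm hu).2.1 hW' (TwOff.dir_deg c hA' hu hr hrd) hp)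
      (abs_nonneg _) (by positivity)
  · intro m hm
    by_cases hmu : mu (A * m + c₀) = 0
    · refine avm_le_of_le fun u _ => ?_
      rw [hmu, zero_mul, zero_mul, abs_zero, ite_self]
      positivity
    by_cases hmu' : mu (A' * m + c₀') = 0
    · refine avm_le_of_le fun u _ => ?_
      rw [hmu', zero_mul, mul_zero, abs_zero, ite_self]
      positivity
    have hH := TwOff.MD_H c hA hd hm
    have hH' := TwOff.MD_H c hA' hd' hm
    have hsq := TwOff.sqf hs hc hmu
    have hsq' := TwOff.sqf hs' hc' hmu'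
    have hod : od ((A * m + c₀) * A * ((A' * m + c₀') * A')) ≠ 0 := fun h0 =>
      hne m hm (eq_of_monic_of_dvd_of_natDegree_le hH.1 hH'.1 (dvd_of_od_eq_zero hsq h0)
        (by rw [hH.2, hH'.2])).symm
    have hτ := c.τ_pos
    have hnu := c.nu_ge
    have hκ := c.τ_le
    have e1 := TwOff.avm_ev h1 c hK hA hs hc hd hm hmu
    have e2 := TwOff.avm_ev h1 c hK hA' hs' hc' hd' hm hmu'
    have e3 := (h2 k _ _ (12 * c.τ) c.nu hsq hsq' hod (by omega) (by omega)).trans
      (TwOff.small c hK (by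
        have h3 := natDegree_od_le ((A * m + c₀) * A * ((A' * m + c₀') * A'))
        rw [(hH.mul hH').2] at h3
        have h4 := c.n1_add
        have h5 : (od ((A * m + c₀) * A * ((A' * m + c₀') * A'))).natDegree ≤ 2 * c.n := by omega
        have h6 : ((od ((A * m + c₀) * A * ((A' * m + c₀') * A'))).natDegree : ℝ) ≤ 2 * c.n := by
          exact_mod_cast h5
        have h7 := c.two_le_Q
        linarith))
    refine le_trans (avm_mono (G := fun u => K ^ 2 * (((if TwOff.Ev c A c₀ m u then 1 else 0) +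
      if TwOff.Ev c A' c₀' m u then 1 else 0) +
      if ∃ p, IsP p ∧ p.natDegree = 12 * c.τ ∧ p ∣ od ((A * m + c₀) * A * u) ∧
        p ∣ od ((A' * m + c₀') * A' * u) then 1 else 0)) fun u hu => ?_) ?_
    · have i1 : (0 : ℝ) ≤ if TwOff.Ev c A c₀ m u then 1 else 0 := by split_ifs <;> norm_num
      have i2 : (0 : ℝ) ≤ if TwOff.Ev c A' c₀' m u then 1 else 0 := by split_ifs <;> norm_num
      have i3 : (0 : ℝ) ≤ if ∃ p, IsP p ∧ p.natDegree = 12 * c.τ ∧ p ∣ od ((A * m + c₀) * A * u) ∧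
          p ∣ od ((A' * m + c₀') * A' * u) then 1 else 0 := by split_ifs <;> norm_num
      by_cases hg : IsCoprime (A * u) (od ((A * m + c₀) * A * u)) ∧
          IsCoprime (A' * u) (od ((A' * m + c₀') * A' * u)) ∧
          ∀ p, IsP p → p.natDegree = 12 * c.τ → p ∣ od ((A * m + c₀) * A * u) →
            ¬ p ∣ od ((A' * m + c₀') * A' * u)
      · rw [if_pos hg]
        positivity
      rw [if_neg hg]
      by_cases hW : c.W (od ((A * m + c₀) * A * u)) = 0
      · rw [hW, mul_zero, zero_mul, abs_zero]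
        positivity
      by_cases hW' : c.W (od ((A' * m + c₀') * A' * u)) = 0
      · rw [hW', mul_zero, mul_zero, abs_zero]
        positivity
      refine (hab _ _ _ _).trans (le_mul_of_one_le_right (by positivity) ?_)
      by_cases g1 : IsCoprime (A * u) (od ((A * m + c₀) * A * u))
      · by_cases g2 : IsCoprime (A' * u) (od ((A' * m + c₀') * A' * u))
        · have g3 : ∃ p, IsP p ∧ p.natDegree = 12 * c.τ ∧ p ∣ od ((A * m + c₀) * A * u) ∧
              p ∣ od ((A' * m + c₀') * A' * u) := by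
            by_contra g4
            exact hg ⟨g1, g2, fun p hp q1 q2 q3 => g4 ⟨p, hp, q1, q2, q3⟩⟩
          rw [if_pos g3]
          linarith
        · rw [if_pos (TwOff.ev_of c hA' hu hW' g2)]
          linarith
      · rw [if_pos (TwOff.ev_of c hA hu hW g1)]
        linarith
    · rw [avm_mul_left, avm_add, avm_add]
      refine mul_le_mul_of_nonneg_left ?_ (by positivity)
      have e4 : 3 * K / c.Q = K / c.Q + K / c.Q + K / c.Q := by ring
      rw [e4]
      exact add_le_add (add_le_add e1 e2) e3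

end Pool.Agent.Lib.MP_9227d9_nt.Mob
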