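import Pool.Agent.Lib.MP_9227d9_nt.TwA
import Pool.Agent.Lib.MP_9227d9_nt.MobLam

/-! The indicator of prime pairs and the sieve weight. -/

namespace Pool.Agent.Lib.MP_9227d9_nt.Mob

open Polynomial

open scoped Classical

namespace TwRep

variable {k : Type} [Field k] [Fintype k] {z n d : ℕ} {F h : k[X]}

/-- The Moebius function on the divisors of degree `d`. -/
noncomputable def cS (d : ℕ) (F : k[X]) : ℝ := ∑ A ∈ (MoD k d).filter (fun A => A ∣ F), mu A

/-- The number of large square divisors. -/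
noncomputable def cnt (n y : ℕ) (u : k[X]) : ℝ :=
  (((Mo k n).filter fun g => y < g.natDegree ∧ g ^ 2 ∣ u).card : ℝ)

theorem cnt_nonneg (n y : ℕ) (u : k[X]) : 0 ≤ cnt n y u := Nat.cast_nonneg _

theorem aS_eq (hr : Rough z F) (d : ℕ) : aS z d F = cS d F := by
  refine Finset.sum_congr rfl fun A hA => ?_
  rw [rI, if_pos (hr.of_dvd (Finset.mem_filter.1 hA).2), mul_one]

theorem div_mem {a b : ℕ} {A : k[X]} (hF : MD n F) (hab : a + b = n)
    (hA : A ∈ (MoD k a).filter (fun A => A ∣ F)) :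
    F / A ∈ (MoD k b).filter (fun A => A ∣ F) ∧ F / (F / A) = A := by
  obtain ⟨h1, u, rfl⟩ := Finset.mem_filter.1 hA
  obtain ⟨h2, h3⟩ := mem_MoD.1 h1
  have hu : u.Monic := h2.of_mul_monic_left hF.1
  have h4 := hF.2
  rw [h2.natDegree_mul hu] at h4
  rw [mul_div_cancel_left₀ _ h2.ne_zero, mul_div_cancel_right₀ _ hu.ne_zero]
  exact ⟨Finset.mem_filter.2 ⟨mem_MoD.2 ⟨hu, by omega⟩, dvd_mul_left _ _⟩, rfl⟩

theorem bS_eq (hF : MD n F) (hs : Squarefree F) (hr : Rough z F) (hd : d ≤ n) :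
    bS z (n - d) F = cS d F := by
  refine Finset.sum_nbij' (fun A => F / A) (fun A => F / A)
    (fun A hA => (div_mem hF (by omega) hA).1) (fun A hA => (div_mem hF (by omega) hA).1)
    (fun A hA => (div_mem (b := d) hF (by omega) hA).2)
    (fun A hA => (div_mem (b := n - d) hF (by omega) hA).2) fun A hA => ?_
  have h1 := (Finset.mem_filter.1 hA).2
  rw [sr_eq, if_pos ⟨hs.squarefree_of_dvd h1, hr.of_dvd h1⟩, one_mul]

theorem sum_cS (n : ℕ) (F : k[X]) :
    ∑ d ∈ Finset.range (n + 1), ((n : ℝ) - d) * cS d F = Lam.vm n F := by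
  rw [Lam.vm, ← Finset.sum_fiberwise_of_maps_to (g := natDegree) (t := Finset.range (n + 1))
    fun D hD => Finset.mem_range.2 (Nat.lt_succ_of_le (mem_Mo.1 (Finset.mem_filter.1 hD).1).2)]
  refine Finset.sum_congr rfl fun d hd => ?_
  have hd' := Finset.mem_range.1 hd
  rw [cS, Finset.mul_sum]
  refine Finset.sum_congr ?_ fun A hA => ?_
  · ext A
    simp only [Finset.mem_filter, mem_MoD, mem_Mo, MD]
    exact ⟨fun h => ⟨⟨⟨h.1.1, by omega⟩, h.2⟩, h.1.2⟩, fun h => ⟨⟨h.1.1.1, h.2⟩, h.1.2⟩⟩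
  · rw [(Finset.mem_filter.1 hA).2, mul_comm]

theorem vm_sqf (hn : 1 ≤ n) (hF : MD n F) (hs : Squarefree F) :
    Lam.vm n F = if Irreducible F then (n : ℝ) else 0 := by
  split_ifs with hi
  · exact Lam.vm_prime (mem_PrD.2 ⟨⟨hF.1, hi⟩, hF.2⟩)
  have hu : ¬ IsUnit F := fun h => by
    have h1 := hF.2
    rw [hF.1.isUnit_iff.1 h, natDegree_one] at h1
    omega
  obtain ⟨p, hp⟩ := Lam.exists_mem_pf hF.ne_zero hu
  rw [Lam.vm_eq hF.ne_zero hF.2.le hp, if_neg]
  intro h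
  have h1 := prod_pf hF.1 hs
  rw [h, Finset.prod_singleton] at h1
  exact hi (h1 ▸ (isP_of_mem_pf hp).2)

theorem one_le_cnt (hz : 1 ≤ z) (hF : MD n F) (hs : ¬ Squarefree F) (hr : Rough z F) :
    1 ≤ cnt n (z - 1) F := by
  obtain ⟨p, hp, hd⟩ := exists_isP_of_not_squarefree hF.ne_zero hs
  have h1 : p ∣ F := (dvd_pow_self p two_ne_zero).trans hd
  have h2 := hr p hp h1
  have h3 := natDegree_le_of_dvd h1 hF.ne_zero
  have h4 := hF.2
  exact Nat.one_le_cast.2 (Finset.card_pos.2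
    ⟨p, Finset.mem_filter.2 ⟨mem_Mo.2 ⟨hp.1, by omega⟩, by omega, hd⟩⟩)

theorem abs_le_tS {f : k[X] → ℝ} (hf : f = aS z d ∨ f = bS z (n - d)) (F : k[X]) :
    |f F| ≤ tS z d F + tS z (n - d) F := by
  have h1 := tS_nonneg z d F
  have h2 := tS_nonneg z (n - d) F
  rcases hf with rfl | rfl
  · linarith [abs_aS_le z d F]
  · linarith [abs_bS_le z (n - d) F]

theorem sum_tS (hz : 1 ≤ z) (hF : MD n F) :
    ∑ d ∈ Finset.range (n + 1), (tS z d F + tS z (n - d) F) ≤ 2 * 2 ^ (n / z) := by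
  have h1 := sum_tS_le hF.ne_zero hz (n + 1)
  have h2 := Finset.sum_range_reflect (fun d => tS z d F) (n + 1)
  simp only [Nat.add_sub_cancel] at h2
  rw [hF.2] at h1
  rw [Finset.sum_add_distrib, h2]
  linarith

variable {f₁ f₂ : ℕ → ℕ → k[X] → ℝ} {G : k[X]}

theorem abs_sum_le (hz : 1 ≤ z) (hF : MD n F) (hG : MD n G) {ν : ℝ} (hν : 0 ≤ ν)
    (h1 : ∀ d e, f₁ d e = aS z d ∨ f₁ d e = bS z (n - d))
    (h2 : ∀ d e, f₂ d e = aS z e ∨ f₂ d e = bS z (n - e)) :
    |∑ d ∈ Finset.range (n + 1), ∑ e ∈ Finset.range (n + 1),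
      ((n : ℝ) - d) * ((n : ℝ) - e) * (ν * f₁ d e F * f₂ d e G)| ≤
      (n : ℝ) ^ 2 * 4 ^ (n / z + 1) * ν := by
  have h3 : ∀ d ∈ Finset.range (n + 1), |(n : ℝ) - d| ≤ n := fun d hd => by
    have : (d : ℝ) ≤ n := by exact_mod_cast Nat.le_of_lt_succ (Finset.mem_range.1 hd)
    rw [abs_of_nonneg (by linarith)]
    linarith [(Nat.cast_nonneg d : (0 : ℝ) ≤ d)]
  have h4 : ∀ (H : k[X]) (d : ℕ), 0 ≤ tS z d H + tS z (n - d) H := fun H d =>
    add_nonneg (tS_nonneg _ _ _) (tS_nonneg _ _ _)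
  calc _ ≤ ∑ d ∈ Finset.range (n + 1), ∑ e ∈ Finset.range (n + 1),
        (n : ℝ) ^ 2 * ν * ((tS z d F + tS z (n - d) F) * (tS z e G + tS z (n - e) G)) := by
        refine (Finset.abs_sum_le_sum_abs _ _).trans (Finset.sum_le_sum fun d hd => ?_)
        refine (Finset.abs_sum_le_sum_abs _ _).trans (Finset.sum_le_sum fun e he => ?_)
        rw [abs_mul, abs_mul, abs_mul, abs_mul, abs_of_nonneg hν]
        have h5 := h4 F d
        calc _ ≤ (n : ℝ) * n * (ν * (tS z d F + tS z (n - d) F) * (tS z e G + tS z (n - e) G)) := by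
              gcongr
              · exact h3 d hd
              · exact h3 e he
              · exact abs_le_tS (h1 d e) F
              · exact abs_le_tS (h2 d e) G
          _ = _ := by ring
    _ = (n : ℝ) ^ 2 * ν * ((∑ d ∈ Finset.range (n + 1), (tS z d F + tS z (n - d) F)) *
        ∑ e ∈ Finset.range (n + 1), (tS z e G + tS z (n - e) G)) := by
        rw [Finset.sum_mul_sum, Finset.mul_sum]
        exact Finset.sum_congr rfl fun d _ => (Finset.mul_sum _ _ _).symm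
    _ ≤ (n : ℝ) ^ 2 * ν * ((2 * 2 ^ (n / z)) * (2 * 2 ^ (n / z))) := by
        have h5 : 0 ≤ ∑ e ∈ Finset.range (n + 1), (tS z e G + tS z (n - e) G) :=
          Finset.sum_nonneg fun e _ => h4 G e
        gcongr
        · exact sum_tS hz hF
        · exact sum_tS hz hG
    _ = _ := by
        rw [show (4 : ℝ) = 2 * 2 by norm_num, mul_pow]
        ring

theorem sum_eq (hn : 1 ≤ n) (hF : MD n F) (hG : MD n G) (sF : Squarefree F) (sG : Squarefree G)
    (rF : Rough z F) (rG : Rough z G)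
    (h1 : ∀ d e, f₁ d e = aS z d ∨ f₁ d e = bS z (n - d))
    (h2 : ∀ d e, f₂ d e = aS z e ∨ f₂ d e = bS z (n - e)) :
    ∑ d ∈ Finset.range (n + 1), ∑ e ∈ Finset.range (n + 1),
      ((n : ℝ) - d) * ((n : ℝ) - e) * (1 * f₁ d e F * f₂ d e G) =
      (n : ℝ) ^ 2 * if Irreducible F ∧ Irreducible G then 1 else 0 := by
  have h3 : ∀ {H : k[X]} {f : k[X] → ℝ} {d : ℕ}, MD n H → Squarefree H → Rough z H →
      d ∈ Finset.range (n + 1) → (f = aS z d ∨ f = bS z (n - d)) → f H = cS d H := by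
    rintro H f d a1 a2 a3 a4 (rfl | rfl)
    · exact aS_eq a3 d
    · exact bS_eq a1 a2 a3 (Nat.le_of_lt_succ (Finset.mem_range.1 a4))
  calc _ = ∑ d ∈ Finset.range (n + 1), ∑ e ∈ Finset.range (n + 1),
        (((n : ℝ) - d) * cS d F) * (((n : ℝ) - e) * cS e G) := by
        refine Finset.sum_congr rfl fun d hd => Finset.sum_congr rfl fun e he => ?_
        rw [h3 hF sF rF hd (h1 d e), h3 hG sG rG he (h2 d e)]
        ring
    _ = _ := by
        rw [← Finset.sum_mul_sum, sum_cS, sum_cS, vm_sqf hn hF sF, vm_sqf hn hG sG]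
        by_cases a : Irreducible F <;> by_cases b : Irreducible G <;> simp [a, b, sq]

theorem point {y : ℕ} (ha : Adm h) (hz : 1 ≤ z) (hn : z ≤ n) (hh : h.natDegree < n) (hF : MD n F)
    (h1 : ∀ d e, f₁ d e = aS z d ∨ f₁ d e = bS z (n - d))
    (h2 : ∀ d e, f₂ d e = aS z e ∨ f₂ d e = bS z (n - e)) :
    |(n : ℝ) ^ 2 * tw h F - ∑ d ∈ Finset.range (n + 1), ∑ e ∈ Finset.range (n + 1),
      ((n : ℝ) - d) * ((n : ℝ) - e) * (nu2 h y z F * f₁ d e F * f₂ d e (F + h))| ≤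
      (n : ℝ) ^ 2 * 4 ^ (n / z + 1) *
        (De h y z F + (cnt n (z - 1) F + cnt n (z - 1) (F + h))) := by
  have hG := hF.add_of_lt hh
  have h3 := abs_sum_le hz hF hG (nu2_nonneg h y z F) h1 h2
  have h4 := De_nonneg h y z F
  have h5 := cnt_nonneg n (z - 1) F
  have h6 := cnt_nonneg n (z - 1) (F + h)
  have key : ¬ (Irreducible F ∧ Irreducible (F + h)) →
      nu2 h y z F ≤ De h y z F + (cnt n (z - 1) F + cnt n (z - 1) (F + h)) →
      |(n : ℝ) ^ 2 * tw h F - ∑ d ∈ Finset.range (n + 1), ∑ e ∈ Finset.range (n + 1),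
        ((n : ℝ) - d) * ((n : ℝ) - e) * (nu2 h y z F * f₁ d e F * f₂ d e (F + h))| ≤
      (n : ℝ) ^ 2 * 4 ^ (n / z + 1) *
        (De h y z F + (cnt n (z - 1) F + cnt n (z - 1) (F + h))) := fun a b => by
    rw [tw, if_neg a, mul_zero, zero_sub, abs_neg]
    exact h3.trans (mul_le_mul_of_nonneg_left b (by positivity))
  by_cases hr : Rough z (F * (F + h))
  · obtain ⟨r1, r2⟩ := rough_mul.1 hr
    have h7 := ha.nu2_eq_one y hr
    by_cases s1 : Squarefree F
    · by_cases s2 : Squarefree (F + h)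
      · rw [h7, sum_eq (by omega) hF hG s1 s2 r1 r2 h1 h2, tw, sub_self, abs_zero]
        positivity
      · refine key (fun a => s2 a.2.squarefree) ?_
        linarith [one_le_cnt hz hG s2 r2]
    · refine key (fun a => s1 a.1.squarefree) ?_
      linarith [one_le_cnt hz hF s1 r1]
  · refine key (fun a => hr (rough_mul.2 ⟨(IsP.rough_iff ⟨hF.1, a.1⟩).2 (hF.2 ▸ hn),
      (IsP.rough_iff ⟨hG.1, a.2⟩).2 (hG.2 ▸ hn)⟩)) ?_
    linarith [nu2_le_De y hr]

end TwRep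

theorem stRep (hSQ : StSQ) : StRep := by
  intro k _ _ _ h y z n f₁ f₂ ha hz hn hh h1 h2
  have e : (n : ℝ) ^ 2 * avm n (tw h) - ∑ d ∈ Finset.range (n + 1), ∑ e ∈ Finset.range (n + 1),
      ((n : ℝ) - d) * ((n : ℝ) - e) * avm n (fun F => nu2 h y z F * f₁ d e F * f₂ d e (F + h)) =
      avm n fun F => (n : ℝ) ^ 2 * tw h F - ∑ d ∈ Finset.range (n + 1),
        ∑ e ∈ Finset.range (n + 1),
          ((n : ℝ) - d) * ((n : ℝ) - e) * (nu2 h y z F * f₁ d e F * f₂ d e (F + h)) := by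
    simp only [avm_sub, avm_sum, avm_mul_left]
  have h3 : avm n (TwRep.cnt n (z - 1) : k[X] → ℝ) ≤ 1 / qR k ^ (z - 1) := hSQ k n (z - 1)
  have h4 : avm n (fun F => TwRep.cnt n (z - 1) (F + h)) = avm n (TwRep.cnt n (z - 1)) :=
    avm_shift (degree_lt_of_natDegree fun _ => hh)
  rw [e]
  refine abs_avm_le.trans ((avm_mono fun F hF => TwRep.point ha hz hn hh hF h1 h2).trans ?_)
  rw [avm_mul_left, avm_add, avm_add, h4]
  refine mul_le_mul_of_nonneg_left ?_ (by positivity)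
  have h5 : 2 / qR k ^ (z - 1) = 1 / qR k ^ (z - 1) + 1 / qR k ^ (z - 1) := by ring
  rw [h5]
  exact add_le_add_right (add_le_add h3 h3) _

end Pool.Agent.Lib.MP_9227d9_nt.Mob
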