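import Pool.Agent.Lib.MP_9227d9_nt.TwA

/-! Decay of sequences of Dickman type and the choice of the degrees. -/

namespace Pool.Agent.Lib.MP_9227d9_nt.Mob

open Polynomial

open scoped Classical

namespace TwSeq

open Finset

/-- The comparison sequence. -/
noncomputable def uu (J : ℕ) : ℝ := 8 ^ J / (J.factorial : ℝ)

lemma uu_pos (J : ℕ) : 0 < uu J := by
  unfold uu
  positivity

lemma uu_succ (J : ℕ) : ((J : ℝ) + 1) * uu (J + 1) = 8 * uu J := by
  unfold uu
  rw [Nat.factorial_succ]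
  push_cast
  field_simp
  ring

lemma uu_one : ∀ J ≤ 7, 1 ≤ uu J := by
  intro J
  induction J with
  | zero => simp [uu]
  | succ J ih =>
    intro h
    have h1 := ih (by omega)
    have h2 := uu_succ J
    have h3 : (J : ℝ) + 1 ≤ 7 := by exact_mod_cast h
    have h4 := uu_pos (J + 1)
    nlinarith

lemma uu_half {J : ℕ} (h : 15 ≤ J) : 2 * uu (J + 1) ≤ uu J := by
  have h2 := uu_succ J
  have h3 : (15 : ℝ) ≤ J := by exact_mod_cast h
  have h4 := uu_pos (J + 1)
  nlinarith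

lemma uu_anti {s : ℕ} (h : 7 ≤ s) (M : ℕ) : uu (s + M) ≤ uu s := by
  induction M with
  | zero => exact le_rfl
  | succ M ih =>
    have h2 := uu_succ (s + M)
    have h3 : (7 : ℝ) ≤ (s + M : ℕ) := by exact_mod_cast (by omega : 7 ≤ s + M)
    have h4 := uu_pos (s + M + 1)
    rw [← add_assoc]
    nlinarith

section

variable {a : ℕ → ℝ} {z : ℕ} (hz : 1 ≤ z) (h0 : ∀ j, 0 ≤ a j)
  (h : ∀ j : ℕ, (j : ℝ) * a j ≤ 4 * ∑ i ∈ Ico (j - z) j, a i)

include h0 h in
lemma step (J j : ℕ) (h1 : (J + 1) * z ≤ j) (h2 : j < (J + 2) * z) :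
    (j : ℝ) * a j ≤ 4 * (∑ i ∈ Ico (J * z) ((J + 1) * z), a i +
      ∑ i ∈ Ico ((J + 1) * z) ((J + 2) * z), a i) := by
  rw [sum_Ico_consecutive _ (Nat.mul_le_mul_right _ (by omega)) (Nat.mul_le_mul_right _ (by omega))]
  refine (h j).trans (mul_le_mul_of_nonneg_left (sum_le_sum_of_subset_of_nonneg
    (Ico_subset_Ico ?_ h2.le) fun i _ _ => h0 i) (by norm_num))
  rw [add_mul, one_mul] at h1
  omega

include hz h0 h in
lemma block (J : ℕ) : ∑ i ∈ Ico (J * z) ((J + 1) * z), a i ≤ uu J * ∑ i ∈ range (8 * z), a i := by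
  have hT : 0 ≤ ∑ i ∈ range (8 * z), a i := sum_nonneg fun i _ => h0 i
  induction J with
  | zero =>
    refine le_trans (sum_le_sum_of_subset_of_nonneg (fun i hi => ?_) fun i _ _ => h0 i)
      (le_mul_of_one_le_left hT (uu_one 0 (by omega)))
    have := (mem_Ico.1 hi).2
    exact mem_range.2 (by omega)
  | succ J ih =>
    by_cases hJ : J + 1 ≤ 7
    · refine le_trans (sum_le_sum_of_subset_of_nonneg (fun i hi => ?_) fun i _ _ => h0 i)
        (le_mul_of_one_le_left hT (uu_one _ hJ))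
      exact mem_range.2 ((mem_Ico.1 hi).2.trans_le (Nat.mul_le_mul_right _ (by omega)))
    obtain ⟨B, hB⟩ : ∃ B, B = ∑ i ∈ Ico (J * z) ((J + 1) * z), a i := ⟨_, rfl⟩
    obtain ⟨C, hC⟩ : ∃ C, C = ∑ i ∈ Ico ((J + 1) * z) ((J + 2) * z), a i := ⟨_, rfl⟩
    have hC0 : 0 ≤ C := hC ▸ sum_nonneg fun i _ => h0 i
    have h1 : ((J + 1) * z : ℕ) * C ≤ z * (4 * (B + C)) := by
      have := sum_le_card_nsmul (Ico ((J + 1) * z) ((J + 2) * z))
        (fun i => (((J + 1) * z : ℕ) : ℝ) * a i) (4 * (B + C)) fun i hi => by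
          rw [hB, hC]
          exact (mul_le_mul_of_nonneg_right (Nat.cast_le.2 (mem_Ico.1 hi).1) (h0 i)).trans
            (step h0 h J i (mem_Ico.1 hi).1 (mem_Ico.1 hi).2)
      rwa [← mul_sum, ← hC, Nat.card_Ico, nsmul_eq_mul,
        show (J + 2) * z - (J + 1) * z = z by rw [← Nat.sub_mul]; simp] at this
    have hz0 : (0 : ℝ) < z := by exact_mod_cast hz
    have h2 : ((J : ℝ) + 1) * C ≤ 4 * (B + C) := by
      refine le_of_mul_le_mul_left (le_of_eq_of_le ?_ h1) hz0
      push_cast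
      ring
    have h3 : (7 : ℝ) ≤ J := by exact_mod_cast (by omega : 7 ≤ J)
    rw [← hB] at ih
    rw [add_assoc J, one_add_one_eq_two, ← hC]
    refine le_of_mul_le_mul_left ?_ (by positivity : (0 : ℝ) < J + 1)
    rw [← mul_assoc, uu_succ]
    nlinarith

end

end TwSeq

open TwSeq Finset in
theorem stSeq : StSeq := by
  intro a z s hz hs h0 h
  have hT : 0 ≤ ∑ i ∈ range (8 * z), a i := sum_nonneg fun i _ => h0 i
  obtain ⟨t, rfl⟩ : ∃ t, s = t + 2 := ⟨s - 2, by omega⟩
  have he : eps (t + 2) = 64 * uu t := by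
    rw [eps, uu, Nat.add_sub_cancel]
    ring
  have hu := uu_pos t
  refine ⟨fun j hj => ?_, fun N => ?_⟩
  · have h1 : t + 1 ≤ j / z := (Nat.le_div_iff_mul_le hz).2 hj
    obtain ⟨M, hM⟩ : ∃ M, j / z = t + M + 1 := ⟨j / z - t - 1, by omega⟩
    have h2 := Nat.div_mul_le_self j z
    have h3 := Nat.lt_div_mul_add (a := j) hz
    rw [hM] at h2 h3
    have h4 := step h0 h (t + M) j h2 (by nlinarith)
    have h5 := (block hz h0 h (t + M)).trans
      (mul_le_mul_of_nonneg_right (uu_anti (by omega) M) hT)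
    have h6 := (block hz h0 h (t + M + 1)).trans
      (mul_le_mul_of_nonneg_right (uu_anti (s := t) (by omega) (M + 1)) hT)
    have h7 := mul_nonneg hu.le hT
    rw [he]
    linarith
  · have h1 : ∀ M : ℕ, ∑ i ∈ Ico ((t + 2) * z) ((t + 2 + M) * z), a i ≤
        (2 * uu (t + 2) - 2 * uu (t + 2 + M)) * ∑ i ∈ range (8 * z), a i := by
      intro M
      induction M with
      | zero => simp
      | succ M ih =>
        rw [← add_assoc, ← sum_Ico_consecutive _ (Nat.mul_le_mul_right z (Nat.le_add_right _ M))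
          (Nat.mul_le_mul_right z (Nat.le_succ _))]
        have h2 := block hz h0 h (t + 2 + M)
        have h3 := mul_le_mul_of_nonneg_right (uu_half (J := t + 2 + M) (by omega)) hT
        linarith
    have h2 : N ≤ (t + 2 + N) * z := (Nat.le_add_left _ _).trans (Nat.le_mul_of_pos_right _ hz)
    refine (sum_le_sum_of_subset_of_nonneg (Ico_subset_Ico le_rfl h2) fun i _ _ => h0 i).trans
      ((h1 N).trans (mul_le_mul_of_nonneg_right ?_ hT))
    have h3 := uu_anti (s := t) (by omega) 2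
    have h4 := uu_pos (t + 2 + N)
    rw [he]
    linarith

open Finset in
theorem stIex : StIex := by
  intro k _ _ P a b ha hb
  have h1 := P.τ_pos
  have h2 := P.n_ge
  have h3 := P.n_le
  have h4 := P.U_sq
  have h5 : 16 * P.τ ≤ P.s * P.τ := Nat.mul_le_mul_right _ P.s_ge
  obtain ⟨D, hD⟩ : ∃ D, D + 12 * P.τ + b + (48 * (P.s * P.τ) + 76 * P.τ) = P.n :=
    ⟨P.n - (12 * P.τ + b + (48 * (P.s * P.τ) + 76 * P.τ)), by omega⟩
  obtain ⟨r, hr⟩ : ∃ r, r = D / (20 * P.τ) := ⟨_, rfl⟩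
  have r1 : r * (20 * P.τ) ≤ D := hr ▸ Nat.div_mul_le_self _ _
  have r2 : D < r * (20 * P.τ) + 20 * P.τ := hr ▸ Nat.lt_div_mul_add (by omega)
  have r3 : 20 ≤ r := by
    rw [hr, Nat.le_div_iff_mul_le (by omega)]
    omega
  have r4 : 20 * r ≤ P.U := by
    refine Nat.le_of_mul_le_mul_right (c := P.τ) ?_ (by omega)
    nlinarith
  have r5 : r * r ≤ P.τ := by nlinarith
  have r6 : r ≤ P.τ := by nlinarith
  obtain ⟨q, hq⟩ : ∃ q, q = D / r := ⟨_, rfl⟩
  have q1 : q * r ≤ D := hq ▸ Nat.div_mul_le_self _ _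
  have q2 : D < q * r + r := hq ▸ Nat.lt_div_mul_add (by omega)
  have q3 : 20 * P.τ ≤ q := by
    rw [hq, Nat.le_div_iff_mul_le (by omega), mul_comm]
    exact r1
  have q4 : q ≤ 21 * P.τ := by
    refine Nat.le_of_mul_le_mul_right (c := r) ?_ (by omega)
    nlinarith
  obtain ⟨S, hS⟩ : ∃ S, S = ∑ i ∈ Ico 1 r, (q - i) := ⟨_, rfl⟩
  obtain ⟨r', hr'⟩ : ∃ r', r = r' + 1 := ⟨r - 1, by omega⟩
  have s1 : S ≤ r' * q := by
    have := sum_le_card_nsmul (Ico 1 r) (fun i => q - i) q fun i _ => Nat.sub_le _ _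
    rwa [← hS, Nat.card_Ico, hr', Nat.add_sub_cancel, smul_eq_mul] at this
  have s2 : r' * (q - r) ≤ S := by
    have := card_nsmul_le_sum (Ico 1 r) (fun i => q - i) (q - r) fun i hi =>
      Nat.sub_le_sub_left (mem_Ico.1 hi).2.le _
    rwa [← hS, Nat.card_Ico, smul_eq_mul, show r - 1 = r' by omega] at this
  have s3 : S + q ≤ D := by
    rw [hr'] at q1
    nlinarith
  have s4 : D ≤ S + 23 * P.τ := by
    obtain ⟨c, hc⟩ : ∃ c, q = c + r := ⟨q - r, by omega⟩
    rw [hc, Nat.add_sub_cancel] at s2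
    rw [hc] at q2 q4
    subst hr'
    nlinarith
  let g : ℕ → ℕ := fun i => if i = 0 then 12 * P.τ else if i = r then D - S else q - i
  refine ⟨⟨P, a, b, r, fun i => g i, ha, hb, by omega, fun i j hij => ?_, rfl, fun i => ?_,
    fun i => ?_, ?_⟩, rfl, rfl, rfl⟩
  · have hi := i.2
    have hj := j.2
    simp only [g] at hij
    refine Fin.ext ?_
    split_ifs at hij <;> omega
  · have hi := i.2
    simp only [g]
    split_ifs <;> omega
  · have hi := i.2
    simp only [g]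
    split_ifs <;> omega
  · rw [Fin.sum_univ_eq_sum_range g, sum_range_succ, range_eq_Ico,
      sum_eq_sum_Ico_succ_bot (by omega), zero_add,
      sum_congr rfl (g := fun i => q - i) fun i hi => by
        have := mem_Ico.1 hi
        simp only [g]
        rw [if_neg (by omega), if_neg (by omega)], ← hS]
    simp only [g, if_true]
    rw [if_neg (by omega)]
    omega

end Pool.Agent.Lib.MP_9227d9_nt.Mob
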