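import Pool.Agent.Lib.MP_9227d9_nt.TwA

/-! The singular series, and the main theorem from the asymptotic formula. -/

namespace Pool.Agent.Lib.MP_9227d9_nt.Mob

open Polynomial

open scoped Classical

namespace TwSing

open Filter

variable {k : Type} [Field k] [Fintype k] {h p : k[X]}

/-- The primes of degree less than `z`, as a finite set in the subtype. -/
noncomputable def TT (k : Type) [Field k] [Fintype k] (z : ℕ) :
    Finset {p : k[X] // p.Monic ∧ Irreducible p} := (PrL k z).subtype _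

theorem tendsto_TT : Tendsto (TT k) atTop atTop := by
  refine tendsto_atTop_finset_of_monotone (fun a b hab p hp' => ?_) fun p => ⟨p.1.natDegree + 1, ?_⟩
  · rw [TT, Finset.mem_subtype, mem_PrL] at hp' ⊢
    exact ⟨hp'.1, hp'.2.trans_le hab⟩
  · rw [TT, Finset.mem_subtype, mem_PrL]
    exact ⟨p.2, Nat.lt_succ_self _⟩

theorem sum_PrL_le (z : ℕ) : ∑ p ∈ PrL k z, 1 / Nm p ^ 2 ≤ 2 := by
  rw [← Finset.sum_fiberwise_of_maps_to (g := natDegree) (t := Finset.range z)
    fun p hp' => Finset.mem_range.2 (mem_PrL.1 hp').2]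
  refine le_trans (Finset.sum_le_sum fun m _ => ?_) (sum_geometric_two_le z)
  have hq := qR_pow_pos (k := k) m
  calc ∑ p ∈ PrL k z with p.natDegree = m, 1 / Nm p ^ 2
      ≤ ∑ p ∈ MoD k m, 1 / Nm p ^ 2 := by
        refine Finset.sum_le_sum_of_subset_of_nonneg (fun p hp' => ?_) fun _ _ _ => by positivity
        rw [Finset.mem_filter, mem_PrL] at hp'
        exact mem_MoD.2 ⟨hp'.1.1.1, hp'.2⟩
    _ = ∑ p ∈ MoD k m, 1 / (qR k ^ m) ^ 2 :=
        Finset.sum_congr rfl fun p hp' => by rw [Nm, (mem_MoD.1 hp').2]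
    _ = 1 / qR k ^ m := by
        rw [Finset.sum_const, nsmul_eq_mul, card_MoD]
        field_simp
    _ ≤ (1 / 2) ^ m := by
        rw [one_div_pow]
        exact one_div_le_one_div_of_le (by positivity) (pow_le_pow_left₀ two_pos.le two_le_qR m)

theorem summable_Nm :
    Summable fun p : {p : k[X] // p.Monic ∧ Irreducible p} => 1 / Nm p.1 ^ 2 := by
  refine summable_of_sum_le (c := 2) (fun p => by positivity) fun u => ?_
  obtain ⟨z, hz⟩ := (tendsto_TT.eventually (eventually_ge_atTop u)).exists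
  refine (Finset.sum_le_sum_of_subset_of_nonneg hz fun _ _ _ => by positivity).trans ?_
  rw [TT, Finset.sum_subtype_of_mem (p := fun p : k[X] => p.Monic ∧ Irreducible p)
    (fun p : k[X] => 1 / Nm p ^ 2) fun p hp' => (mem_PrL.1 hp').1]
  exact sum_PrL_le z

theorem abs_fac_le (hp' : IsP p) (hd : ¬ p ∣ h) : ‖fac h p - 1‖ ≤ 4 * (1 / Nm p ^ 2) := by
  have h2 := hp'.two_le_Nm
  have h1 : Nm p - 1 ≠ 0 := by linarith
  have h0 : Nm p ≠ 0 := by linarith
  have e : fac h p - 1 = -(1 / (Nm p - 1)) ^ 2 := by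
    rw [fac, om, if_neg hd]
    field_simp
    ring
  have h3 := one_div_Nm_sub_le hp'
  rw [e, norm_neg, Real.norm_of_nonneg (sq_nonneg _)]
  calc (1 / (Nm p - 1)) ^ 2 ≤ (2 / Nm p) ^ 2 := pow_le_pow_left₀ h3.1.le h3.2 2
    _ = 4 * (1 / Nm p ^ 2) := by
      field_simp
      norm_num

theorem summable_fac (hh : h ≠ 0) :
    Summable fun p : {p : k[X] // p.Monic ∧ Irreducible p} => fac h p.1 - 1 := by
  refine (summable_Nm.mul_left 4).of_norm_bounded_eventually ?_
  have hf : {p : {p : k[X] // p.Monic ∧ Irreducible p} | p.1 ∣ h}.Finite :=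
    ((pf h).finite_toSet.preimage Subtype.val_injective.injOn).subset fun p hp' =>
      (mem_pf hh).2 ⟨p.2, hp'⟩
  filter_upwards [hf.compl_mem_cofinite] with p hp' using abs_fac_le p.2 hp'

theorem fac_eq (ha : Adm h) (hp' : IsP p) :
    fac h p = (Nm p / (Nm p - 1)) ^ 2 / (1 + hp h p) := by
  have h2 := hp'.two_le_Nm
  have h1 : Nm p - 1 ≠ 0 := by linarith
  have h0 : Nm p ≠ 0 := by linarith
  have h3 := ha.hp_pos hp'
  rw [fac, eq_one_div_of_mul_eq_one_right (ha.one_add_hp hp')]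
  field_simp

theorem fac_pos (ha : Adm h) (hp' : IsP p) : 0 < fac h p := by
  have h2 := hp'.two_le_Nm
  have h1 : 0 < Nm p - 1 := by linarith
  have h0 := Nm_pos p
  have h3 := ha.hp_pos hp'
  rw [fac_eq ha hp']
  positivity

theorem prod_TT (ha : Adm h) (z : ℕ) : ∏ p ∈ TT k z, fac h p.1 = Pi1 k z ^ 2 / Pi2 h z := by
  rw [TT, Finset.prod_subtype_of_mem (p := fun p : k[X] => p.Monic ∧ Irreducible p) (fac h)
    fun p hp' => (mem_PrL.1 hp').1, Pi1, Pi2, ← Finset.prod_pow, ← Finset.prod_div_distrib]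
  exact Finset.prod_congr rfl fun p hp' => fac_eq ha (mem_PrL.1 hp').1

theorem of_not_adm [CharP k 2] (ha : ¬ Adm h) :
    Fintype.card k = 2 ∧ ∃ a : k, ¬ X - C a ∣ h := by
  unfold Adm at ha
  push Not at ha
  obtain ⟨p, hp', h1⟩ := ha
  have h2 := hp'.two_le_Nm
  have hd : ¬ p ∣ h := fun e => by
    rw [om, if_pos e] at h1
    linarith
  rw [om, if_neg hd] at h1
  have h3 : Fintype.card k ^ p.natDegree < 4 := by
    have : ((Fintype.card k ^ p.natDegree : ℕ) : ℝ) < 4 := by
      push_cast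
      exact h1.trans_le (by norm_num)
    exact_mod_cast this
  have h4 := hp'.natDegree_pos
  have h5 : Fintype.card k ≤ Fintype.card k ^ p.natDegree := Nat.le_self_pow h4.ne' _
  have h6 : 1 < Fintype.card k := Fintype.one_lt_card
  obtain ⟨n, -, hn⟩ := FiniteField.card k 2
  have h7 : 2 ∣ Fintype.card k := hn ▸ dvd_pow_self 2 n.pos.ne'
  have h8 : Fintype.card k = 2 := by omega
  have h9 : p.natDegree = 1 := by
    rw [h8] at h3
    have := (Nat.pow_lt_pow_iff_right (a := 2) (n := p.natDegree) (m := 2) (by norm_num)).1 h3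
    omega
  refine ⟨h8, -p.coeff 0, ?_⟩
  rw [map_neg, sub_neg_eq_add, ← hp'.1.eq_X_add_C h9]
  exact hd

theorem two_cases (hq : Fintype.card k = 2) (x : k) : x = 0 ∨ x = 1 := by
  have h1 := FiniteField.pow_card x
  rw [hq] at h1
  have h2 : x * (x - 1) = 0 := by linear_combination h1
  exact (mul_eq_zero.1 h2).imp id sub_eq_zero.1

omit [Fintype k] in
theorem not_irr {F : k[X]} {a : k} (hF : 2 ≤ F.natDegree) (h0 : F.eval a = 0) :
    ¬ Irreducible F := fun hi => by
  have h1 := degree_eq_one_of_irreducible_of_root hi h0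
  have h2 : F.natDegree = 1 := natDegree_eq_of_degree_eq_some h1
  omega

theorem tw_eq_zero [CharP k 2] (ha : ¬ Adm h) (F : k[X]) (h2 : 2 ≤ F.natDegree)
    (hd : h.natDegree < F.natDegree) : tw h F = 0 := by
  obtain ⟨hq, a, h1⟩ := of_not_adm ha
  rw [dvd_iff_isRoot, IsRoot] at h1
  refine if_neg fun hi => ?_
  rcases two_cases hq (F.eval a) with e | e
  · exact not_irr h2 e hi.1
  · refine not_irr (a := a) (by rwa [natDegree_add_eq_left_of_natDegree_lt hd]) ?_ hi.2
    rw [eval_add, e, (two_cases hq _).resolve_left h1]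
    exact CharTwo.add_self_eq_zero 1

theorem avm_tw (h : k[X]) (n : ℕ) : avm n (tw h) =
    (Set.ncard {P : k[X] | P.Monic ∧ P.natDegree = n ∧ Irreducible P ∧ Irreducible (P + h)} : ℝ) /
      (Fintype.card k : ℝ) ^ n := by
  have e : {P : k[X] | P.Monic ∧ P.natDegree = n ∧ Irreducible P ∧ Irreducible (P + h)} =
      ↑((MoD k n).filter fun P => Irreducible P ∧ Irreducible (P + h)) := by
    ext P
    simp only [Set.mem_ofPred_eq, Finset.coe_filter, mem_MoD, MD, and_assoc]
  rw [avm_eq_MoD, e, Set.ncard_coe_finset, qR]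
  simp only [tw, Finset.sum_boole]

end TwSing

theorem stSing : StSing := by
  intro k _ _ _ h hh
  have hs := TwSing.summable_fac hh
  have hm : Multipliable fun p : {p : k[X] // p.Monic ∧ Irreducible p} => fac h p.1 := by
    simpa only [add_sub_cancel] using Real.multipliable_one_add_of_summable hs
  refine ⟨_, hm.hasProd, fun ha => ⟨?_, ?_⟩, fun ha => ⟨?_, TwSing.tw_eq_zero ha⟩, fun hx => ?_⟩
  · have h1 := Real.summable_log_one_add_of_summable hs
    simp only [add_sub_cancel] at h1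
    rw [← Real.rexp_tsum_eq_tprod (fun p => TwSing.fac_pos ha p.2) h1]
    exact Real.exp_pos _
  · have h1 := Filter.Tendsto.comp hm.hasProd TwSing.tendsto_TT
    exact h1.congr fun z => TwSing.prod_TT ha z
  · obtain ⟨hq, a, h1⟩ := TwSing.of_not_adm ha
    refine tprod_of_exists_eq_zero ⟨⟨X - C a, monic_X_sub_C a, irreducible_X_sub_C a⟩, ?_⟩
    simp only [fac, om, if_neg h1, Nm, natDegree_X_sub_C, qR, hq]
    norm_num
  · by_contra ha
    obtain ⟨hq, a, h1⟩ := TwSing.of_not_adm ha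
    refine h1 (Dvd.dvd.trans ?_ (hx hq))
    rcases TwSing.two_cases hq a with rfl | rfl
    · simp
    · rw [map_one, CharTwo.sub_eq_add]
      exact Dvd.intro_left _ rfl

theorem stTwin (hS : StSing) (hL : StLim) : StTwin := by
  intro k _ _ _ h hh
  obtain ⟨S, h1, h2, h3, h4⟩ := hS k h hh
  have h5 : Filter.Tendsto (fun n : ℕ => (n : ℝ) ^ 2 * avm n (tw h)) Filter.atTop (nhds S) := by
    by_cases ha : Adm h
    · exact hL k h S hh ha (h2 ha).2
    · rw [(h3 ha).1]
      refine tendsto_const_nhds.congr' ?_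
      filter_upwards [Filter.eventually_ge_atTop 2, Filter.eventually_gt_atTop h.natDegree]
        with n h6 h7
      rw [avm_congr (G := fun _ => 0) fun F hF => (h3 ha).2 F (hF.2 ▸ h6) (hF.2 ▸ h7), avm_const,
        mul_zero]
  refine ⟨S, h1, by simpa only [TwSing.avm_tw, mul_div_assoc] using h5, fun hx => ?_⟩
  have h6 := (h2 (h4 hx)).1
  refine ⟨h6, Set.Infinite.of_image natDegree (Set.infinite_of_forall_exists_gt fun a => ?_)⟩
  obtain ⟨n, h7, h8⟩ :=
    ((h5.eventually (lt_mem_nhds h6)).and (Filter.eventually_gt_atTop a)).exists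
  rw [TwSing.avm_tw] at h7
  obtain ⟨P, hP⟩ := Set.nonempty_of_ncard_ne_zero
    (s := {P : k[X] | P.Monic ∧ P.natDegree = n ∧ Irreducible P ∧ Irreducible (P + h)})
    fun e => by simp [e] at h7
  exact ⟨n, ⟨P, ⟨hP.1, hP.2.2⟩, hP.2.1⟩, h8⟩

end Pool.Agent.Lib.MP_9227d9_nt.Mob
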