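import Mathlib

/-! Basic facts on the gcd recursion. -/

namespace Pool.Agent.Lib.MP_9227d9_nt

variable {m : ℕ} {a : ℕ → ℕ}

theorem step (hrec : ∀ n : ℕ, 2 ≤ n →
      a n = Int.natAbs ((a (n - 1) : ℤ) - ((Nat.gcd (a (n - 1)) (n * (n + 2 * m)) : ℕ) : ℤ)))
    {n : ℕ} (hn : 1 ≤ n) (h : 0 < a n) :
    a (n + 1) + Nat.gcd (a n) ((n + 1) * (n + 1 + 2 * m)) = a n := by
  have h1 := hrec (n + 1) (by omega)
  rw [Nat.add_sub_cancel] at h1
  have h2 : Nat.gcd (a n) ((n + 1) * (n + 1 + 2 * m)) ≤ a n :=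
    Nat.le_of_dvd h (Nat.gcd_dvd_left _ _)
  omega

theorem step_zero (hrec : ∀ n : ℕ, 2 ≤ n →
      a n = Int.natAbs ((a (n - 1) : ℤ) - ((Nat.gcd (a (n - 1)) (n * (n + 2 * m)) : ℕ) : ℤ)))
    {n : ℕ} (hn : 1 ≤ n) (h : a n = 0) : a (n + 1) = (n + 1) * (n + 1 + 2 * m) := by
  have h1 := hrec (n + 1) (by omega)
  rw [Nat.add_sub_cancel, h, Nat.gcd_zero_left] at h1
  omega

theorem exists_zero (hrec : ∀ n : ℕ, 2 ≤ n →
      a n = Int.natAbs ((a (n - 1) : ℤ) - ((Nat.gcd (a (n - 1)) (n * (n + 2 * m)) : ℕ) : ℤ)))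
    (k : ℕ) : ∀ n : ℕ, 1 ≤ n → a n ≤ k → ∃ z, n ≤ z ∧ z ≤ n + k ∧ a z = 0 := by
  induction k with
  | zero => intro n _ h; exact ⟨n, le_rfl, le_rfl, by omega⟩
  | succ k ih =>
    intro n hn h
    rcases Nat.eq_zero_or_pos (a n) with h0 | h0
    · exact ⟨n, le_rfl, by omega, h0⟩
    · have h1 := step hrec hn h0
      have h2 : 0 < Nat.gcd (a n) ((n + 1) * (n + 1 + 2 * m)) := Nat.gcd_pos_of_pos_left _ h0
      obtain ⟨z, hz1, hz2, hz3⟩ := ih (n + 1) (by omega) (by omega)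
      exact ⟨z, by omega, by omega, hz3⟩

theorem run_of_prime (hrec : ∀ n : ℕ, 2 ≤ n →
      a n = Int.natAbs ((a (n - 1) : ℤ) - ((Nat.gcd (a (n - 1)) (n * (n + 2 * m)) : ℕ) : ℤ)))
    {t : ℕ} (ht : 1 ≤ t) (h1 : (a t + t + 1).Prime) (h2 : (a t + t + 1 + 2 * m).Prime) :
    ∀ j, j ≤ a t → a (t + j) + j = a t := by
  intro j
  induction j with
  | zero => intro _; rfl
  | succ j ih =>
    intro hj
    have h3 := ih (by omega)
    have h4 := step hrec (n := t + j) (by omega) (by omega)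
    have c1 : Nat.Coprime (a (t + j)) (t + j + 1) := by
      have : Nat.Coprime (a (t + j) + (t + j + 1)) (t + j + 1) := by
        have e : a (t + j) + (t + j + 1) = a t + t + 1 := by omega
        rw [e]
        exact Nat.coprime_of_lt_prime (by omega) (by omega) h1
      simpa using this
    have c2 : Nat.Coprime (a (t + j)) (t + j + 1 + 2 * m) := by
      have : Nat.Coprime (a (t + j) + (t + j + 1 + 2 * m)) (t + j + 1 + 2 * m) := by
        have e : a (t + j) + (t + j + 1 + 2 * m) = a t + t + 1 + 2 * m := by omega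
        rw [e]
        exact Nat.coprime_of_lt_prime (by omega) (by omega) h2
      simpa using this
    have c3 : Nat.gcd (a (t + j)) ((t + j + 1) * (t + j + 1 + 2 * m)) = 1 := c1.mul_right c2
    rw [c3] at h4
    have e : t + (j + 1) = t + j + 1 := by omega
    rw [e]
    omega

theorem prime_of_run (hrec : ∀ n : ℕ, 2 ≤ n →
      a n = Int.natAbs ((a (n - 1) : ℤ) - ((Nat.gcd (a (n - 1)) (n * (n + 2 * m)) : ℕ) : ℤ)))
    {t J : ℕ} (ht : 1 ≤ t) (hrun : ∀ j, j ≤ J → a (t + j) + j = a t) {c : ℕ}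
    (hc : c = 0 ∨ c = 2 * m) (hJ : a t + t + 1 + c < (J + 1) ^ 2) : (a t + t + 1 + c).Prime := by
  by_contra hp
  set L := a t + t + 1 + c with hL
  have hp1 : L.minFac.Prime := Nat.minFac_prime (by omega)
  have hp2 : L.minFac ^ 2 ≤ L := Nat.minFac_sq_le_self (by omega) hp
  have hp3 : L.minFac ≤ J := by
    by_contra h
    have : (J + 1) ^ 2 ≤ L.minFac ^ 2 := Nat.pow_le_pow_left (by omega) 2
    omega
  set p := L.minFac with hpdef
  have hp0 : 0 < p := hp1.pos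
  obtain ⟨j, hj1, hj2⟩ : ∃ j, j < p ∧ p ∣ t + j + 1 + c := by
    refine ⟨(p - (t + 1 + c) % p) % p, Nat.mod_lt _ hp0, ?_⟩
    have e : t + (p - (t + 1 + c) % p) % p + 1 + c = (t + 1 + c) + (p - (t + 1 + c) % p) % p := by
      omega
    rw [e, Nat.dvd_iff_mod_eq_zero, Nat.add_mod_mod, ← Nat.mod_add_mod,
      Nat.add_sub_cancel' (Nat.mod_lt _ hp0).le, Nat.mod_self]
  have r1 := hrun j (by omega)
  have r2 := hrun (j + 1) (by omega)
  have r3 := hrun J le_rfl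
  have h4 := step hrec (n := t + j) (by omega) (by omega)
  have d1 : p ∣ a (t + j) := by
    have e : L = a (t + j) + (t + j + 1 + c) := by omega
    exact (Nat.dvd_add_iff_left hj2).2 (e ▸ Nat.minFac_dvd L)
  have d2 : p ∣ (t + j + 1) * (t + j + 1 + 2 * m) := by
    rcases hc with rfl | rfl
    · exact Dvd.dvd.mul_right hj2 _
    · exact Dvd.dvd.mul_left hj2 _
  have d3 : p ≤ Nat.gcd (a (t + j)) ((t + j + 1) * (t + j + 1 + 2 * m)) :=
    Nat.le_of_dvd (Nat.gcd_pos_of_pos_left _ (by omega)) (Nat.dvd_gcd d1 d2)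
  have e : t + (j + 1) = t + j + 1 := by omega
  rw [e] at r2
  have := hp1.two_le
  omega

end Pool.Agent.Lib.MP_9227d9_nt
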