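import Mathlib

/-! A Farey tree bound for sequences of denominators. -/

namespace Pool.Agent.Lib.MP_9227d9_nt

open Finset

/-- The potential; it solves `f x y = 1 + f x (x + y) + f (x + y) y`. -/
noncomputable def pot (L x y : ℝ) : ℝ := (L ^ 2 - (x + y) ^ 2) / (5 * x * y)

theorem pot_comm (L x y : ℝ) : pot L x y = pot L y x := by
  unfold pot; ring

theorem pot_mono {L x y w D : ℝ} (hx : 0 < x) (hy : 0 < y) (hw : y ≤ w) (hD : 0 ≤ D)
    (h : pot L x y ≤ D) : pot L x w ≤ D := by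
  unfold pot at *
  have : 0 < w := by linarith
  rw [div_le_iff₀ (by positivity)] at *
  nlinarith [mul_le_mul_of_nonneg_left hw (mul_nonneg hD hx.le)]

theorem pot_key {L x y τ N : ℝ} (hx : 2 ≤ x) (hy : 2 ≤ y) (hτ : 0 ≤ τ) (hN : 1 + τ * (1 + τ) ≤ N) :
    pot L x y ≤ N + pot L x (x + y + τ) + pot L (x + y + τ) y
      + (N - 1) * pot L (x + y + τ) (x + y + τ) := by
  have h1 : x + y ≤ x * y := by nlinarith
  have hw : 0 < x + y + τ := by linarith
  have hxy : 0 < x * y := by linarith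
  have e : N + pot L x (x + y + τ) + pot L (x + y + τ) y
      + (N - 1) * pot L (x + y + τ) (x + y + τ) - pot L x y
      = L ^ 2 * (((N - 1) * (x * y) - τ * (x + y + τ)) / (5 * (x * y) * (x + y + τ) ^ 2))
        + (N - (x + y) / (x + y + τ) - τ * ((x + y) / (x * y))) / 5 := by
    unfold pot
    have : x ≠ 0 := by linarith
    have : y ≠ 0 := by linarith
    field_simp
    ring
  have h2 : 0 ≤ (N - 1) * (x * y) - τ * (x + y + τ) := by
    have := mul_le_mul_of_nonneg_right (by linarith : τ * (1 + τ) ≤ N - 1) hxy.le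
    nlinarith [mul_le_mul_of_nonneg_left h1 hτ, mul_nonneg (mul_nonneg hτ hτ)
      (by linarith : 0 ≤ x * y - 1)]
  have h3 : (x + y) / (x + y + τ) ≤ 1 := div_le_one_of_le₀ (by linarith) hw.le
  have h4 : τ * ((x + y) / (x * y)) ≤ τ * 1 :=
    mul_le_mul_of_nonneg_left (div_le_one_of_le₀ h1 hxy.le) hτ
  have h5 : 0 ≤ L ^ 2 * (((N - 1) * (x * y) - τ * (x + y + τ))
      / (5 * (x * y) * (x + y + τ) ^ 2)) := by positivity
  nlinarith [mul_nonneg hτ hτ]

theorem pigeon (I : Finset ℕ) (h : ℕ → ℝ) {K : ℝ} (hK : 0 < K)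
    (hs : 16 / K < ∑ r ∈ I, 1 / h r) :
    ∃ τ : ℕ, 1 + τ * (1 + τ) ≤ (I.filter fun r => h r ≤ 2 ^ τ * K).card := by
  by_contra hn
  push Not at hn
  have key : ∀ T : ℕ, ∑ r ∈ I.filter (fun r => h r ≤ 2 ^ T * K), 1 / h r
      ≤ (16 - 2 * ((T : ℝ) ^ 2 + 5 * T + 8) / 2 ^ T) / K := by
    intro T
    induction T with
    | zero =>
      have h0 := hn 0
      have : (I.filter fun r => h r ≤ 2 ^ 0 * K) = ∅ := Finset.card_eq_zero.1 (by omega)
      rw [this]; norm_num
    | succ T ih =>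
      have h2 : (0 : ℝ) < 2 ^ T := by positivity
      rw [← Finset.sum_filter_add_sum_filter_not _ fun r => h r ≤ 2 ^ T * K]
      have e1 : (I.filter fun r => h r ≤ 2 ^ (T + 1) * K).filter (fun r => h r ≤ 2 ^ T * K)
          = I.filter fun r => h r ≤ 2 ^ T * K := by
        ext r
        simp only [mem_filter, and_assoc, and_congr_right_iff, and_iff_right_iff_imp]
        intro _ h1
        rw [pow_succ]
        nlinarith [mul_pos h2 hK]
      have e2 : ∑ r ∈ (I.filter fun r => h r ≤ 2 ^ (T + 1) * K).filter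
          (fun r => ¬ h r ≤ 2 ^ T * K), 1 / h r ≤ ((T + 1) * (T + 2)) * (1 / (2 ^ T * K)) := by
        refine (Finset.sum_le_card_nsmul _ _ (1 / (2 ^ T * K)) fun r hr => ?_).trans ?_
        · exact one_div_le_one_div_of_le (by positivity) (not_le.1 (mem_filter.1 hr).2).le
        · rw [nsmul_eq_mul]
          refine mul_le_mul_of_nonneg_right ?_ (by positivity)
          have h3 := (Finset.card_filter_le (I.filter fun r => h r ≤ 2 ^ (T + 1) * K)
            fun r => ¬ h r ≤ 2 ^ T * K).trans_lt (hn (T + 1))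
          have h4 : ((I.filter fun r => h r ≤ 2 ^ (T + 1) * K).filter
            fun r => ¬ h r ≤ 2 ^ T * K).card ≤ (T + 1) * (T + 2) := by
            rw [show T + 2 = 1 + (T + 1) by ring]; omega
          exact_mod_cast h4
      rw [e1]
      refine (add_le_add ih e2).trans (le_of_eq ?_)
      push_cast
      rw [pow_succ (2 : ℝ) T]
      field_simp
      ring
  obtain ⟨T, hT⟩ := pow_unbounded_of_one_lt ((∑ r ∈ I, |h r|) / K) (one_lt_two (α := ℝ))
  have h1 := key T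
  rw [Finset.filter_true_of_mem fun r hr => ?_] at h1
  · have : (16 - 2 * ((T : ℝ) ^ 2 + 5 * T + 8) / 2 ^ T) / K ≤ 16 / K :=
      div_le_div_of_nonneg_right (sub_le_self _ (by positivity)) hK.le
    linarith
  · rw [div_lt_iff₀ hK] at hT
    have := Finset.single_le_sum (f := fun r => |h r|) (fun _ _ => abs_nonneg _) hr
    linarith [le_abs_self (h r)]

theorem spaced {A B : ℝ} (i : ℕ) (S : Finset ℕ) : (∀ r ∈ S, A + 1 ≤ (r : ℝ) - i) →
    (∀ r ∈ S, ∀ r' ∈ S, r < r' → B + 1 ≤ (r' : ℝ) - r) → S.Nonempty →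
    ∃ r ∈ S, ((S.card : ℝ) - 1) * (B + 1) + A + 1 ≤ (r : ℝ) - i := by
  induction S using Finset.induction_on_max with
  | empty => intro _ _ h; exact absurd h (by simp)
  | insert a S ha ih =>
    intro h1 h2 _
    refine ⟨a, mem_insert_self _ _, ?_⟩
    rw [Finset.card_insert_of_notMem fun h => lt_irrefl _ (ha a h)]
    rcases S.eq_empty_or_nonempty with rfl | hne
    · simpa using h1 a (mem_insert_self _ _)
    · obtain ⟨r, hr, h3⟩ := ih (fun r hr => h1 r (mem_insert_of_mem hr))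
        (fun r hr r' hr' => h2 r (mem_insert_of_mem hr) r' (mem_insert_of_mem hr')) hne
      have := h2 r (mem_insert_of_mem hr) a (mem_insert_self _ _) (ha r hr)
      push_cast
      linarith

/-- The level of a denominator. -/
noncomputable def lev (x : ℝ) : ℝ := Real.logb 2 x + 7

theorem lev_ge {x : ℝ} (h : 1 ≤ x) : 7 ≤ lev x := by
  have := Real.logb_nonneg one_lt_two h
  unfold lev; linarith

theorem farey_split {L : ℝ} {h : ℕ → ℝ} (h1 : ∀ r, 1 ≤ h r) {i j : ℕ} {y : ℝ} (hy : 1 ≤ y)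
    (ih : ∀ r r', i ≤ r → r < r' → r' < j → pot L (lev (h r)) (lev (h r')) ≤ (r' : ℝ) - r - 1)
    (hs : 1 / (4 * (h i * y)) ≤ ∑ r ∈ Ioo i j, 1 / h r) :
    ∃ r ∈ Ioo i j, ∃ w, lev (h r) ≤ w ∧ pot L (lev (h i)) (lev y) ≤ pot L w (lev y) + (r - i) ∧
      pot L (lev (h i)) w ≤ (r : ℝ) - i - 1 := by
  have hi : 0 < h i := by linarith [h1 i]
  have hy0 : 0 < y := by linarith
  obtain ⟨τ, hτ⟩ := pigeon (Ioo i j) h (K := 128 * (h i * y)) (by positivity) (lt_of_lt_of_le (by
    rw [div_lt_div_iff₀ (by positivity) (by positivity)]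
    nlinarith [mul_pos hi hy0]) hs)
  set S := (Ioo i j).filter fun r => h r ≤ 2 ^ τ * (128 * (h i * y)) with hS
  set w := lev (h i) + lev y + τ with hw
  have hl : ∀ r ∈ S, lev (h r) ≤ w := fun r hr => by
    have h2 := Real.logb_le_logb_of_le one_lt_two (by linarith [h1 r]) (mem_filter.1 hr).2
    rw [Real.logb_mul (by positivity) (by positivity), Real.logb_mul (by positivity) (by positivity),
      Real.logb_mul hi.ne' hy0.ne', show (128 : ℝ) = 2 ^ 7 by norm_num, Real.logb_pow,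
      Real.logb_pow, Real.logb_self_eq_one one_lt_two] at h2
    simp only [hw, lev]
    push_cast at h2
    linarith
  have hm : ∀ r ∈ S, i < r ∧ r < j := fun r hr => mem_Ioo.1 (mem_filter.1 hr).1
  have hp : ∀ r, 0 < lev (h r) := fun r => by linarith [lev_ge (h1 r)]
  have hd : ∀ {r r' : ℕ}, r < r' → (0 : ℝ) ≤ (r' : ℝ) - r - 1 := fun {r r'} h => by
    have : (r : ℝ) + 1 ≤ r' := by exact_mod_cast h
    linarith
  have hA : ∀ r ∈ S, pot L (lev (h i)) w ≤ (r : ℝ) - i - 1 := fun r hr =>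
    pot_mono (hp i) (hp r) (hl r hr) (hd (hm r hr).1) (ih i r le_rfl (hm r hr).1 (hm r hr).2)
  obtain ⟨r, hr, h3⟩ := spaced (A := pot L (lev (h i)) w) (B := pot L w w) i S
    (fun r hr => by linarith [hA r hr])
    (fun r hr r' hr' hlt => by
      have h4 := pot_mono (hp r) (hp r') (hl r' hr') (hd hlt)
        (ih r r' (hm r hr).1.le hlt (hm r' hr').2)
      rw [pot_comm] at h4
      have := pot_mono (by linarith [hp r, hl r hr]) (hp r) (hl r hr) (hd hlt) h4
      linarith)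
    (Finset.card_pos.1 (by omega))
  refine ⟨r, (mem_filter.1 hr).1, w, hl r hr, ?_, hA r hr⟩
  have h5 := pot_key (L := L) (N := S.card) (by linarith [lev_ge (h1 i)] : 2 ≤ lev (h i))
    (by linarith [lev_ge hy] : 2 ≤ lev y) (Nat.cast_nonneg τ) (by exact_mod_cast hτ)
  rw [← hw] at h5
  linarith

theorem farey {Q : ℝ} (hQ : 1 ≤ Q) {h : ℕ → ℝ} (h1 : ∀ r, 1 ≤ h r) {lo hi : ℕ}
    (H : ∀ i j, lo ≤ i → i < j → j ≤ hi → h i * h j ≤ Q →
      1 / (4 * (h i * h j)) ≤ ∑ r ∈ Ioo i j, 1 / h r) (d : ℕ) :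
    ∀ i j, lo ≤ i → i < j → j ≤ hi → j - i ≤ d →
      pot (Real.logb 2 Q + 14) (lev (h i)) (lev (h j)) ≤ (j : ℝ) - i - 1 := by
  have hp : ∀ r, 0 < lev (h r) := fun r => by linarith [lev_ge (h1 r)]
  have hd : ∀ {r r' : ℕ}, r < r' → (0 : ℝ) ≤ (r' : ℝ) - r - 1 := fun {r r'} h => by
    have : (r : ℝ) + 1 ≤ r' := by exact_mod_cast h
    linarith
  induction d with
  | zero => intro i j _ h2 _ h3; omega
  | succ d ih =>
    intro i j hi1 hij hj hdd
    by_cases hq : h i * h j ≤ Q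
    · obtain ⟨r, hr, w, b1, b2, -⟩ := farey_split h1 (h1 j)
        (fun r r' c1 c2 c3 => ih r r' (by omega) c2 (by omega) (by omega)) (H i j hi1 hij hj hq)
      obtain ⟨c1, c2⟩ := mem_Ioo.1 hr
      have c3 := ih r j (by omega) c2 hj (by omega)
      rw [pot_comm] at c3
      have c4 := pot_mono (hp j) (hp r) b1 (hd c2) c3
      rw [pot_comm] at c4
      linarith
    · refine le_trans (div_nonpos_of_nonpos_of_nonneg ?_ (by have := hp i; have := hp j; positivity))
        (hd hij)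
      have c1 := Real.logb_le_logb_of_le one_lt_two (by linarith) (not_le.1 hq).le
      rw [Real.logb_mul (by linarith [h1 i]) (by linarith [h1 j])] at c1
      have c2 := Real.logb_nonneg one_lt_two hQ
      have c3 : Real.logb 2 Q + 14 ≤ lev (h i) + lev (h j) := by unfold lev; linarith
      nlinarith

theorem farey_total {Q : ℝ} (hQ : 1 ≤ Q) {h : ℕ → ℝ} (h1 : ∀ r, 1 ≤ h r) {lo hi : ℕ}
    (H : ∀ i j, lo ≤ i → i < j → j ≤ hi → h i * h j ≤ Q →
      1 / (4 * (h i * h j)) ≤ ∑ r ∈ Ioo i j, 1 / h r) (h0 : h lo = 1)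
    (hs : 1 / 4 ≤ ∑ r ∈ Ioo lo (hi + 1), 1 / h r) : Real.logb 2 Q ^ 2 ≤ 490 * ((hi : ℝ) - lo) := by
  obtain ⟨r, hr, w, -, b2, b3⟩ := farey_split (j := hi + 1) h1 le_rfl
    (fun r r' c1 c2 c3 => farey hQ h1 H _ r r' c1 c2 (by omega) le_rfl) (by simpa [h0] using hs)
  have c1 : (r : ℝ) ≤ hi := by exact_mod_cast Nat.lt_succ_iff.1 (mem_Ioo.1 hr).2
  have c2 : lev 1 = 7 := by simp [lev]
  rw [h0] at b2 b3
  rw [pot_comm _ w] at b2
  have c3 : pot (Real.logb 2 Q + 14) 7 7 ≤ 2 * ((hi : ℝ) - lo) := by rw [← c2]; linarith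
  have c4 := Real.logb_nonneg one_lt_two hQ
  unfold pot at c3
  rw [div_le_iff₀ (by norm_num)] at c3
  nlinarith

end Pool.Agent.Lib.MP_9227d9_nt
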