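import Mathlib
import Pool.Agent.Lib.MP_9227d9_nt.Basic
import Pool.Agent.Lib.MP_9227d9_nt.Farey

/-! Consecutive zeros are far apart. -/

namespace Pool.Agent.Lib.MP_9227d9_nt

open Finset

theorem pair_bound {hi hj gi gj u k s : ℕ} (hk : 0 < k) (hh : 0 < hi) (hlt : hi * gi < hj * gj)
    (hs : u * gi = k * gj + s) (hkj : k ≤ hj) :
    (hi * gi : ℤ) ≤ hi * hj * (s + (hj * gj - hi * gi)) := by
  have e : ((hj : ℤ) * u - hi * k) * (hi * gi) = hi * hj * s + hi * k * (hj * gj - hi * gi) := by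
    have : (u * gi : ℤ) = k * gj + s := by exact_mod_cast hs
    linear_combination (hi * hj : ℤ) * this
  have h1 : (0 : ℤ) < hj * gj - hi * gi := by
    have : (hi * gi : ℤ) < hj * gj := by exact_mod_cast hlt
    linarith
  have h2 : (0 : ℤ) < hi * k * (hj * gj - hi * gi) := by positivity
  have h3 : (0 : ℤ) ≤ hi * hj * s := by positivity
  have h4 : (0 : ℤ) ≤ hi * gi := by positivity
  have h5 : (1 : ℤ) ≤ hj * u - hi * k := by
    by_contra h
    nlinarith
  have h6 : (hi : ℤ) * k * (hj * gj - hi * gi) ≤ hi * hj * (hj * gj - hi * gi) := by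
    have : (k : ℤ) ≤ hj := by exact_mod_cast hkj
    gcongr
  nlinarith

theorem gap {m : ℕ} {a : ℕ → ℕ} (hrec : ∀ n : ℕ, 2 ≤ n →
      a n = Int.natAbs ((a (n - 1) : ℤ) - ((Nat.gcd (a (n - 1)) (n * (n + 2 * m)) : ℕ) : ℤ)))
    {n z : ℕ} (hn : 1 ≤ n) (h0 : a n = 0) (hz : a z = 0) (hnz : n < z)
    (hpos : ∀ t, n < t → t < z → 0 < a t) {Q : ℝ} (hQ : 1 ≤ Q)
    (hD : Q * (6 * ((z : ℝ) - n)) ≤ n + 1) : Real.logb 2 Q ^ 2 ≤ 490 * ((z : ℝ) - n) := by
  let P : ℕ → ℕ := fun t => t * (t + 2 * m)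
  let g : ℕ → ℕ := fun t => Nat.gcd (a (t - 1)) (P t)
  let H : ℕ → ℕ := fun t => P t / g t
  have hP : ∀ t, 1 ≤ t → 0 < P t := fun t ht => Nat.mul_pos ht (by omega)
  have hg : ∀ t, 1 ≤ t → 0 < g t := fun t ht => Nat.gcd_pos_of_pos_right _ (hP t ht)
  have hH : ∀ t, H t * g t = P t := fun t => Nat.div_mul_cancel (Nat.gcd_dvd_right _ _)
  have hH0 : ∀ t, 1 ≤ t → 0 < H t := fun t ht => Nat.pos_of_mul_pos_right (hH t ▸ hP t ht)
  have hstart : a (n + 1) = P (n + 1) := step_zero hrec hn h0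
  have hg1 : g (n + 1) = P (n + 1) := by simp [g, h0]
  have hst : ∀ t, n < t → t < z → a (t + 1) + g (t + 1) = a t := fun t h1 h2 =>
    step hrec (by omega) (hpos t h1 h2)
  have hsum : ∀ i, n < i → ∀ j, i ≤ j → j ≤ z → a i = a j + ∑ r ∈ Ioo i (j + 1), g r := by
    intro i hi j hij
    induction j, hij using Nat.le_induction with
    | base => intro _; simp
    | succ j hij ih =>
      intro hj
      have e : Ioo i (j + 1 + 1) = insert (j + 1) (Ioo i (j + 1)) := by
        ext r; simp only [mem_Ioo, mem_insert]; omega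
      rw [e, Finset.sum_insert (by simp), ih (by omega), ← hst j (by omega) (by omega), add_assoc]
  have hdv : ∀ i, n < i → i ≤ z → g i ∣ a i := by
    intro i h1 h2
    rcases Nat.eq_or_lt_of_le h1 with h | h
    · rw [← h, hg1, hstart]
    · obtain ⟨t, rfl⟩ : ∃ t, i = t + 1 := ⟨i - 1, by omega⟩
      have h3 := hst t (by omega) (by omega)
      exact (Nat.dvd_add_iff_left dvd_rfl).2 (h3 ▸ Nat.gcd_dvd_left _ _)
  have hPm : ∀ t t', t < t' → P t < P t' := fun t t' h =>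
    Nat.mul_lt_mul_of_lt_of_le h (by omega) (by omega)
  have hn0 : (0 : ℝ) < n + 1 := by positivity
  have hzn : (1 : ℝ) ≤ z - n := by
    have : (n : ℝ) + 1 ≤ z := by exact_mod_cast hnz
    linarith
  set e : ℝ := ((z : ℝ) - n) / (n + 1) with he
  have he0 : 0 < e := by positivity
  have he1 : Q * e ≤ 1 / 6 := by
    rw [he, ← mul_div_assoc, div_le_iff₀ hn0]; linarith
  have he2 : e ≤ 1 / 6 := by nlinarith
  have hrat : ∀ t t', n < t → t' ≤ z → (P t' : ℝ) ≤ (1 + 3 * e) * P t := by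
    intro t t' h1 h2
    have h3 : (n : ℝ) + 1 ≤ t := by exact_mod_cast h1
    have h4 : (t' : ℝ) ≤ z := by exact_mod_cast h2
    have h5 : e * (n + 1) = z - n := div_mul_cancel₀ _ hn0.ne'
    have h6 : (t' : ℝ) ≤ (1 + e) * t := by nlinarith
    have h7 : (t' : ℝ) + 2 * m ≤ (1 + e) * (t + 2 * m) := by
      nlinarith [mul_nonneg he0.le (Nat.cast_nonneg m : (0 : ℝ) ≤ m)]
    have h8 := mul_le_mul h6 h7 (by positivity) (by positivity)
    have h9 : (0 : ℝ) ≤ t * (t + 2 * m) := by positivity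
    simp only [P]
    push_cast
    nlinarith [mul_nonneg h9 (mul_nonneg he0.le (by linarith : 0 ≤ 1 - e))]
  let h : ℕ → ℝ := fun t => max (H t) 1
  have hh : ∀ t, 1 ≤ t → h t = H t := fun t ht => max_eq_left (by exact_mod_cast hH0 t ht)
  have hgs : ∀ i j, n < i → j ≤ z + 1 →
      ((∑ r ∈ Ioo i j, g r : ℕ) : ℝ) ≤ 2 * P i * ∑ r ∈ Ioo i j, 1 / h r := by
    intro i j h1 h2
    rw [Nat.cast_sum, Finset.mul_sum]
    refine Finset.sum_le_sum fun r hr => ?_
    obtain ⟨c1, c2⟩ := mem_Ioo.1 hr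
    have c3 : (0 : ℝ) < H r := by exact_mod_cast hH0 r (by omega)
    have c4 : (H r : ℝ) * g r = P r := by exact_mod_cast hH r
    have c5 := hrat i r h1 (by omega)
    rw [hh r (by omega), mul_one_div, le_div_iff₀ c3]
    nlinarith [(Nat.cast_nonneg (P i) : (0 : ℝ) ≤ _)]
  have key := farey_total hQ (h := h) (fun r => le_max_right _ _) (lo := n + 1) (hi := z)
    (fun i j h1 h2 h3 h4 => ?_) ?_ ?_
  · push_cast at key
    linarith
  · obtain ⟨j, rfl⟩ : ∃ t, j = t + 1 := ⟨j - 1, by omega⟩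
    obtain ⟨u, hu⟩ := hdv i h1 (by omega)
    obtain ⟨k, hk⟩ : g (j + 1) ∣ a j := Nat.gcd_dvd_left _ _
    have c0 := hpos j (by omega) (by omega)
    have c1 := hsum i h1 j (by omega) (by omega)
    have c2 := hsum (n + 1) (by omega) j (by omega) (by omega)
    have c3 := hPm (n + 1) (j + 1) (by omega)
    have c4 := pair_bound (hi := H i) (hj := H (j + 1)) (gi := g i) (gj := g (j + 1)) (u := u)
      (k := k) (s := ∑ r ∈ Ioo i (j + 1), g r) (Nat.pos_of_mul_pos_left (hk ▸ c0))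
      (hH0 i (by omega)) (by rw [hH, hH]; exact hPm _ _ h2)
      (by rw [mul_comm u, mul_comm k, ← hu, ← hk]; exact c1)
      (Nat.le_of_mul_le_mul_left (c := g (j + 1))
        (by rw [← hk, mul_comm, hH]; omega) (hg _ (by omega)))
    have c5 : ((H i : ℝ) * g i) ≤ H i * H (j + 1) * ((∑ r ∈ Ioo i (j + 1), g r : ℕ)
        + (H (j + 1) * g (j + 1) - H i * g i)) := by exact_mod_cast c4
    have c6 : (H i : ℝ) * g i = P i := by exact_mod_cast hH i
    have c7 : (H (j + 1) : ℝ) * g (j + 1) = P (j + 1) := by exact_mod_cast hH (j + 1)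
    rw [c6, c7, ← hh i (by omega), ← hh (j + 1) (by omega)] at c5
    have c8 := hgs i (j + 1) h1 (by omega)
    have c9 := hrat i (j + 1) h1 h3
    have d1 : (0 : ℝ) < P i := by exact_mod_cast hP i (by omega)
    have d2 : 0 < h i * h (j + 1) := mul_pos (lt_max_of_lt_right one_pos)
      (lt_max_of_lt_right one_pos)
    generalize h i * h (j + 1) = y at *
    generalize ∑ r ∈ Ioo i (j + 1), 1 / h r = σ at *
    have d3 : y * e ≤ 1 / 6 := (mul_le_mul_of_nonneg_right h4 he0.le).trans he1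
    have d4 := mul_le_mul_of_nonneg_left (add_le_add c8 (sub_le_sub_right c9 (P i : ℝ))) d2.le
    have d5 := mul_le_mul_of_nonneg_left d3 d1.le
    rw [div_le_iff₀ (by positivity)]
    by_contra d6
    nlinarith [mul_lt_mul_of_pos_left (not_le.1 d6) d1]
  · rw [hh _ (by omega)]
    simp only [H, hg1]
    rw [Nat.div_self (hP _ (by omega)), Nat.cast_one]
  · have hz1 : n + 1 ≤ z := hnz
    have c1 := hsum (n + 1) (by omega) z hz1 le_rfl
    have c2 := hgs (n + 1) (z + 1) (by omega) le_rfl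
    rw [hz, zero_add, hstart] at c1
    rw [← c1] at c2
    have d1 : (0 : ℝ) < P (n + 1) := by exact_mod_cast hP _ (by omega)
    by_contra d2
    nlinarith [mul_lt_mul_of_pos_left (not_le.1 d2) d1]

end Pool.Agent.Lib.MP_9227d9_nt
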