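import Pool.Agent.Lib.MP_9227d9_nt.GbDefs

/-! Basic facts on the data of a shift. -/

namespace Pool.Agent.Lib.MP_9227d9_nt.Mob

open Polynomial

open scoped Classical

variable {k : Type} [Field k] [Fintype k]

section Units

variable {c : k} {F h p : k[X]}

omit [Fintype k] in
theorem isUnit_C' (hc : c ≠ 0) : IsUnit (C c : k[X]) := isUnit_C.2 (IsUnit.mk0 c hc)

omit [Fintype k] in
theorem C_inv_mul (hc : c ≠ 0) : (C c⁻¹ : k[X]) * C c = 1 := by
  rw [← C_mul, inv_mul_cancel₀ hc, C_1]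

omit [Fintype k] in
theorem dvd_C_mul' (hc : c ≠ 0) : p ∣ C c * F ↔ p ∣ F := (isUnit_C' hc).dvd_mul_left

omit [Fintype k] in
theorem mu_C_mul (hc : c ≠ 0) (F : k[X]) : mu (C c * F) = mu F := by
  have h1 : IsCoprime (C c) F := ⟨C c⁻¹, 0, by rw [C_inv_mul hc, zero_mul, add_zero]⟩
  have h2 : mu (C c : k[X]) = 1 := by
    unfold mu
    rw [(isUnit_C' hc).moebius_eq]
    simp
  rw [mu_mul h1, h2, one_mul]

omit [Fintype k] in
theorem rough_C_mul (hc : c ≠ 0) {z : ℕ} : Rough z (C c * F) ↔ Rough z F := by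
  simp only [Rough, dvd_C_mul' hc]

omit [Fintype k] in
theorem C_mul_div {A : k[X]} (hA : A ≠ 0) (hd : A ∣ F) (c : k) : C c * F / A = C c * (F / A) := by
  obtain ⟨u, rfl⟩ := hd
  rw [mul_left_comm, mul_div_cancel_left₀ _ hA, mul_div_cancel_left₀ _ hA]

theorem aS_C_mul (hc : c ≠ 0) (z j : ℕ) (F : k[X]) : aS z j (C c * F) = aS z j F := by
  simp only [aS, dvd_C_mul' hc]

theorem tS_C_mul (hc : c ≠ 0) (z j : ℕ) (F : k[X]) : tS z j (C c * F) = tS z j F := by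
  simp only [tS, dvd_C_mul' hc]

theorem bS_C_mul (hc : c ≠ 0) (z j : ℕ) (F : k[X]) : bS z j (C c * F) = bS z j F := by
  simp only [bS, dvd_C_mul' hc]
  refine Finset.sum_congr rfl fun A hA => ?_
  obtain ⟨h1, h2⟩ := Finset.mem_filter.1 hA
  rw [C_mul_div (mem_MoD.1 h1).ne_zero h2, mu_C_mul hc]

omit [Fintype k] in
theorem om_C_mul (hc : c ≠ 0) (h p : k[X]) : om (C c * h) p = om h p := by
  simp only [om, dvd_C_mul' hc]

theorem hp_C_mul (hc : c ≠ 0) (h p : k[X]) : hp (C c * h) p = hp h p := by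
  simp only [hp, om_C_mul hc]

theorem Adm.C_mul (ha : Adm h) (hc : c ≠ 0) : Adm (C c * h) := fun p hp' => by
  rw [om_C_mul hc]
  exact ha p hp'

theorem G2_C_mul (hc : c ≠ 0) (h : k[X]) (y z : ℕ) : G2 (C c * h) y z = G2 h y z := by
  simp only [G2, hp_C_mul hc]

theorem nu2_C_mul (hc : c ≠ 0) (h : k[X]) (y z : ℕ) (F : k[X]) :
    nu2 (C c * h) y z (C c * F) = nu2 h y z F := by
  have e : C c * F * (C c * F + C c * h) = C c * (C c * (F * (F + h))) := by ring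
  simp only [nu2, w2, ps2, G2_C_mul hc, hp_C_mul hc, e, dvd_C_mul' hc]

theorem avg_C_mul (hc : c ≠ 0) (n : ℕ) (Φ : k[X] → ℝ) :
    avg n (fun v => Φ (C c * v)) = avg n Φ := by
  unfold avg
  congr 1
  have key : ∀ (d : k) (v : k[X]), v ∈ Pn k n → C d * v ∈ Pn k n := fun d v hv =>
    mem_Pn.2 (degree_mul_lt (mem_Pn.1 hv) (by rw [natDegree_C, zero_add]))
  refine Finset.sum_bij' (fun v _ => C c * v) (fun v _ => C c⁻¹ * v) (fun v hv => key c v hv)
    (fun v hv => key _ v hv) ?_ ?_ fun _ _ => rfl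
  · intro v _
    rw [← mul_assoc, C_inv_mul hc, one_mul]
  · intro v _
    rw [← mul_assoc, mul_comm (C c), C_inv_mul hc, one_mul]

end Units

theorem KB2.mono {U τ : ℕ} {K K' : ℝ} (H : KB2 k U τ K) (h : K ≤ K') : KB2 k U τ K' where
  lin := H.lin.trans h
  two := H.two.trans h
  om := fun M h1 h2 => (H.om M h1 h2).trans h
  wa := fun y z l h1 h2 h3 => (H.wa y z l h1 h2 h3).trans h
  w2a := fun g y z F h1 h2 h3 h4 => (H.w2a g y z F h1 h2 h3 h4).trans h
  wt := fun r I l h1 h2 => (H.wt r I l h1 h2).trans h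
  var := fun r I M len h1 h2 h3 h4 h5 => by
    obtain ⟨θ, a, b⟩ := H.var r I M len h1 h2 h3 h4 h5
    exact ⟨θ, a.trans (div_le_div_of_nonneg_right h (qR_pow_pos _).le),
      b.trans (div_le_div_of_nonneg_right h (qR_pow_pos _).le)⟩

omit [Fintype k] in
theorem MD.of_mul_left {a n : ℕ} {A m : k[X]} (hA : MD a A) (h : MD n (A * m)) : MD (n - a) m := by
  have h1 : m.Monic := hA.1.of_mul_monic_left h.1
  have h2 := h.2
  rw [hA.1.natDegree_mul h1, hA.2] at h2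
  exact ⟨h1, by omega⟩

namespace Sh

variable {P : Par k} (S : Sh P) {K : ℝ} {F : k[X]}

theorem n₀_add : S.n₀ + S.Δ = P.n := by
  have := S.Δ_le
  have := P.τ_le
  have := P.κ_le
  rw [n₀]
  omega

theorem n₀_le₁ : S.n₀ ≤ S.n₁ := by
  have := S.n₁_ge
  have := S.n₀_add
  omega

theorem n₀_le₂ : S.n₀ ≤ S.n₂ := by
  have := S.n₂_ge
  have := S.n₀_add
  omega

include S in
/-- The periods of the sieve weight are short. -/
theorem two_y : 2 * ((P.s - 1) * P.z) + 24 * P.τ = P.κ := by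
  obtain ⟨t, ht⟩ : ∃ t, P.s = t + 1 := ⟨P.s - 1, by have := S.s_ge; omega⟩
  rw [Par.κ, Par.z, ht, Nat.add_sub_cancel]
  ring

include S in
theorem one_le_z : 1 ≤ P.z := by
  have := P.τ_pos
  have _ := S
  rw [Par.z]
  omega

theorem In_add {v : k[X]} (hv : v.degree < S.n₀) : S.In (S.F₀ + v) := by
  rwa [In, add_sub_cancel_left]

theorem In.add (hF : S.In F) {v : k[X]} (hv : v.degree < S.n₀) : S.In (F + v) := by
  rw [In, add_sub_right_comm]
  exact (degree_add_le _ _).trans_lt (max_lt hF hv)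

theorem In.degree_sub {F' : k[X]} (hF : S.In F) (hF' : S.In F') : (F - F').degree < S.n₀ := by
  rw [show F - F' = (F - S.F₀) - (F' - S.F₀) by ring]
  exact (Polynomial.degree_sub_le _ _).trans_lt (max_lt hF hF')

theorem In.MD₁ (hF : S.In F) : MD S.n₁ F := by
  have h1 := S.hF.add (v := F - S.F₀) (lt_of_lt_of_le hF (by exact_mod_cast S.n₀_le₁))
  rwa [add_sub_cancel] at h1

theorem In.MD₂ (hF : S.In F) : MD S.n₂ (C S.c * (F + S.g)) := by
  have h1 := S.hG.add (v := C S.c * (F - S.F₀))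
    (degree_mul_lt hF (by rw [natDegree_C, zero_add]; exact S.n₀_le₂))
  rwa [show C S.c * (S.F₀ + S.g) + C S.c * (F - S.F₀) = C S.c * (F + S.g) by ring] at h1

theorem In.add_ne (hF : S.In F) : F + S.g ≠ 0 := right_ne_zero_of_mul hF.MD₂.ne_zero

theorem In.natDegree_add (hF : S.In F) : (F + S.g).natDegree = S.n₂ := by
  rw [← hF.MD₂.2, natDegree_C_mul S.c_ne]

theorem In_of_MD (h : S.n₁ = S.n₀) (hF : MD S.n₀ F) : S.In F := by
  rw [In, show F - S.F₀ = (F - X ^ S.n₀) - (S.F₀ - X ^ S.n₀) by ring]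
  exact (Polynomial.degree_sub_le _ _).trans_lt (max_lt hF.degree_sub (h ▸ S.hF).degree_sub)

theorem g_deg : S.g.natDegree ≤ P.n := by
  have h0 : S.In S.F₀ := by
    rw [In, sub_self, degree_zero]
    exact WithBot.bot_lt_coe _
  have h1 := natDegree_sub_le (S.F₀ + S.g) S.F₀
  rw [add_sub_cancel_left, h0.natDegree_add, S.hF.2] at h1
  exact h1.trans (max_le S.n₂_le S.n₁_le)

theorem χ_nonneg (F : k[X]) : 0 ≤ S.χ F := by
  unfold χ
  split_ifs
  exacts [(qR_pow_pos _).le, le_rfl]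

theorem χ_le (F : k[X]) : S.χ F ≤ qR k ^ S.Δ := by
  unfold χ
  split_ifs
  · refine pow_le_pow_right₀ one_le_qR ?_
    have := S.n₀_add
    have := S.n₁_le
    omega
  · exact (qR_pow_pos _).le

theorem In_of_χ (h : S.χ F ≠ 0) : S.In F := by
  by_contra hc
  exact h (if_neg hc)

theorem cop_nonneg (A B : k[X]) : 0 ≤ S.cop A B := by
  unfold cop
  split_ifs <;> norm_num

theorem cop_le_one (A B : k[X]) : S.cop A B ≤ 1 := by
  unfold cop
  split_ifs <;> norm_num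

theorem of_cop {A B : k[X]} (h : S.cop A B ≠ 0) : IsCoprime A S.g ∧ IsCoprime B S.g := by
  by_contra hc
  exact h (if_neg hc)

/-! The calculus of the mean over the coset. -/

variable {Φ Ψ : k[X] → ℝ}

theorem av_congr (h : ∀ F, S.In F → Φ F = Ψ F) : S.av Φ = S.av Ψ :=
  avg_congr fun _ hv => h _ (S.In_add hv)

theorem av_mono (h : ∀ F, S.In F → Φ F ≤ Ψ F) : S.av Φ ≤ S.av Ψ :=
  avg_mono fun _ hv => h _ (S.In_add hv)

theorem av_const (x : ℝ) : S.av (fun _ => x) = x := avg_const _ _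

theorem av_add : S.av (fun F => Φ F + Ψ F) = S.av Φ + S.av Ψ := avg_add

theorem av_sub : S.av (fun F => Φ F - Ψ F) = S.av Φ - S.av Ψ := avg_sub

theorem av_mul_left (x : ℝ) : S.av (fun F => x * Φ F) = x * S.av Φ := avg_mul_left x

theorem av_sum {ι : Type} (s : Finset ι) (f : ι → k[X] → ℝ) :
    S.av (fun F => ∑ i ∈ s, f i F) = ∑ i ∈ s, S.av (f i) := avg_sum s _

theorem abs_av_le : |S.av Φ| ≤ S.av fun F => |Φ F| := abs_avg_le

/-- The mean over the coset as a mean over the monic polynomials of degree `n₁`. -/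
theorem av_eq_avm (Φ : k[X] → ℝ) : S.av Φ = avm S.n₁ fun F => S.χ F * Φ F := by
  have hs : ∑ F ∈ MoD k S.n₁, S.χ F * Φ F =
      qR k ^ (S.n₁ - S.n₀) * ∑ v ∈ Pn k S.n₀, Φ (S.F₀ + v) := by
    have h1 : ∀ F, S.χ F * Φ F = if S.In F then qR k ^ (S.n₁ - S.n₀) * Φ F else 0 := fun F => by
      unfold χ
      split_ifs <;> simp
    simp only [h1]
    rw [← Finset.sum_filter, ← Finset.mul_sum]
    congr 1
    symm
    refine Finset.sum_bij' (fun v _ => S.F₀ + v) (fun F _ => F - S.F₀) ?_ ?_ ?_ ?_ fun _ _ => rfl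
    · intro v hv
      have := S.In_add (mem_Pn.1 hv)
      exact Finset.mem_filter.2 ⟨mem_MoD.2 this.MD₁, this⟩
    · intro F hF
      exact mem_Pn.2 (Finset.mem_filter.1 hF).2
    · intro v _
      simp
    · intro F _
      simp
  rw [avm_eq_MoD, hs, av, avg]
  obtain ⟨e, he⟩ := Nat.exists_eq_add_of_le S.n₀_le₁
  rw [he, Nat.add_sub_cancel_left, pow_add]
  have h1 := qR_pow_pos (k := k) S.n₀
  have h2 := qR_pow_pos (k := k) e
  field_simp

theorem av_eq_of_eq (h : S.n₁ = S.n₀) (Φ : k[X] → ℝ) : S.av Φ = avm S.n₀ Φ := by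
  rw [av_eq_avm, h]
  refine avm_congr fun F hF => ?_
  rw [χ, if_pos (S.In_of_MD h hF), h, Nat.sub_self, pow_zero, one_mul]

theorem av_le₁ (h0 : ∀ F, MD S.n₁ F → 0 ≤ Φ F) : S.av Φ ≤ qR k ^ S.Δ * avm S.n₁ Φ := by
  rw [av_eq_avm, ← avm_mul_left]
  exact avm_mono fun F hF => mul_le_mul_of_nonneg_right (S.χ_le F) (h0 F hF)

/-! The bounds by `K`. -/

theorem one_le_G : 1 ≤ S.G := S.adm.one_le_G2 _ _

theorem ν_nonneg (F : k[X]) : 0 ≤ S.ν F := nu2_nonneg _ _ _ _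

theorem w2a_le (H : KB2 k P.U P.τ K) (hF : S.In F) :
    w2a S.g ((P.s - 1) * P.z) P.z F ≤ K := by
  have h1 := P.κ_le
  have h2 := S.two_y
  have h3 := P.n_le
  have h4 := S.n₁_le
  have h5 := S.n₂_le
  refine H.w2a _ _ _ _ S.adm (mul_ne_zero hF.MD₁.ne_zero hF.add_ne) ?_ (by omega)
  rw [natDegree_mul hF.MD₁.ne_zero hF.add_ne, hF.MD₁.2, hF.natDegree_add, mul_assoc]
  omega

theorem sum_abs_pc_le (H : KB2 k P.U P.τ K) (hF : S.In F) :
    ∑ x ∈ SS k ((P.s - 1) * P.z) P.z ×ˢ SS k ((P.s - 1) * P.z) P.z,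
      |pc S.g ((P.s - 1) * P.z) P.z x F| ≤ K ^ 2 :=
  (S.adm.sum_abs_pc_le _ _ _).trans (pow_le_pow_left₀
    (Finset.sum_nonneg fun _ _ => abs_nonneg _) (S.w2a_le H hF) 2)

theorem ν_le (H : KB2 k P.U P.τ K) (hF : S.In F) : S.ν F ≤ K ^ 2 := by
  rw [ν, nu2_eq_sum]
  exact (Finset.sum_le_sum fun _ _ => le_abs_self _).trans (S.sum_abs_pc_le H hF)

theorem tS_le₁ (H : KB2 k P.U P.τ K) (hF : S.In F) (j : ℕ) : tS P.z j F ≤ K :=
  (tS_le hF.MD₁.ne_zero S.one_le_z j).trans (P.two_pow_le_K H (hF.MD₁.2.le.trans S.n₁_le))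

theorem tS_le₂ (H : KB2 k P.U P.τ K) (hF : S.In F) (j : ℕ) : tS P.z j (F + S.g) ≤ K :=
  (tS_le hF.add_ne S.one_le_z j).trans (P.two_pow_le_K H (hF.natDegree_add.le.trans S.n₂_le))

/-- The sieve weight along a progression. -/
theorem perS (H : KB2 k P.U P.τ K) (α β : k[X]) {j : ℕ} (hF : ∀ m, MD j m → S.In (α + β * m)) :
    PerS P.z (P.κ - P.τ) j (K ^ 2) fun m => S.ν (α + β * m) := by
  refine ⟨_, SS k ((P.s - 1) * P.z) P.z ×ˢ SS k ((P.s - 1) * P.z) P.z,
    fun x m => pc S.g ((P.s - 1) * P.z) P.z x (α + β * m), rr,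
    fun m => nu2_eq_sum _ _ _ _, fun x hx => ?_, fun m hm => S.sum_abs_pc_le H (hF m hm)⟩
  obtain ⟨h1, h2, h3⟩ := rr_spec hx
  have h4 := S.two_y
  refine ⟨h1.ne_zero, by omega, h3, fun m t => ?_⟩
  have e : α + β * (m + rr x * t) = α + β * m + rr x * (β * t) := by ring
  beta_reduce
  rw [e, pc_periodic]

/-! The cofactor. -/

theorem mul_Xc {A B m : k[X]} (hB : B ≠ 0) (hd : B ∣ A * m + S.g) :
    B * S.Xc A B m = C S.c * (A * m + S.g) := by
  rw [Xc, mul_left_comm, EuclideanDomain.mul_div_cancel' hB hd]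

theorem mu_Xc (A B m : k[X]) : mu (S.Xc A B m) = mu ((A * m + S.g) / B) := mu_C_mul S.c_ne _

theorem isCoprime_of_eq {A B m c₀ : k[X]} (hA : IsCoprime A S.g)
    (h : B * c₀ = C S.c * (A * m + S.g)) : IsCoprime c₀ A ∧ IsCoprime A B := by
  have h1 : IsCoprime A (A * m + S.g) := by
    rw [add_comm]
    exact hA.add_mul_left_right m
  have h2 : IsCoprime A (C S.c) := ⟨0, C S.c⁻¹, by rw [C_inv_mul S.c_ne, zero_mul, zero_add]⟩
  have h3 := h2.mul_right h1
  rw [← h] at h3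
  exact ⟨h3.of_mul_right_right.symm, h3.of_mul_right_left⟩

theorem isCoprime_of_dvd {A B m : k[X]} (hA : IsCoprime A S.g) (hd : B ∣ A * m + S.g) :
    IsCoprime A B := by
  obtain ⟨t, ht⟩ := hd
  exact (S.isCoprime_of_eq (m := m) (c₀ := C S.c * t) hA (by rw [ht]; ring)).2

/-! The calculus of the mean over triples. -/

section E

variable {a b : ℕ} {f f' : k[X] → k[X] → k[X] → ℝ}

theorem E_mono (H : ∀ A B m, MD a A → MD b B → S.In (A * m) → B ∣ A * m + S.g → sr P.z A ≠ 0 →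
    sr P.z B ≠ 0 → IsCoprime A S.g → IsCoprime B S.g → f A B m ≤ f' A B m) :
    S.E a b f ≤ S.E a b f' := by
  refine E3_mono fun A B m hA hB _ hd h1 h2 => ?_
  by_cases h3 : S.χ (A * m) = 0
  · simp [h3]
  by_cases h4 : S.cop A B = 0
  · simp [h4]
  exact mul_le_mul_of_nonneg_left
    (H A B m hA hB (S.In_of_χ h3) hd h1 h2 (S.of_cop h4).1 (S.of_cop h4).2)
    (mul_nonneg (S.χ_nonneg _) (S.cop_nonneg _ _))

theorem E_congr (H : ∀ A B m, MD a A → MD b B → S.In (A * m) → B ∣ A * m + S.g → sr P.z A ≠ 0 →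
    sr P.z B ≠ 0 → IsCoprime A S.g → IsCoprime B S.g → f A B m = f' A B m) :
    S.E a b f = S.E a b f' :=
  le_antisymm (S.E_mono fun A B m h1 h2 h3 h4 h5 h6 h7 h8 => (H A B m h1 h2 h3 h4 h5 h6 h7 h8).le)
    (S.E_mono fun A B m h1 h2 h3 h4 h5 h6 h7 h8 => (H A B m h1 h2 h3 h4 h5 h6 h7 h8).ge)

theorem E_sub : S.E a b (fun A B m => f A B m - f' A B m) = S.E a b f - S.E a b f' := by
  unfold E
  rw [← E3_sub]
  exact E3_congr fun _ _ _ _ _ _ _ _ _ => by ring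

theorem E_mul_left (x : ℝ) : S.E a b (fun A B m => x * f A B m) = x * S.E a b f := by
  unfold E
  rw [← E3_mul_left]
  exact E3_congr fun _ _ _ _ _ _ _ _ _ => by ring

theorem abs_E_le : |S.E a b f| ≤ S.E a b fun A B m => |f A B m| := by
  refine abs_le.2 ⟨?_, S.E_mono fun A B m _ _ _ _ _ _ _ _ => le_abs_self _⟩
  rw [neg_eq_neg_one_mul, ← E_mul_left]
  exact S.E_mono fun A B m _ _ _ _ _ _ _ _ => by linarith [neg_abs_le (f A B m)]

/-- The mean over triples, pair by pair. -/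
theorem E_eq : S.E a b f = avm a fun A => avm b fun B => sr P.z A * sr P.z B * S.cop A B *
    (qR k ^ b * avm (S.n₁ - a) fun m =>
      if B ∣ A * m + S.g then S.χ (A * m) * f A B m else 0) := by
  unfold E E3
  rw [← avm_mul_left]
  refine avm_congr fun A _ => ?_
  rw [← avm_mul_left]
  refine avm_congr fun B _ => ?_
  rw [mul_left_comm, ← avm_mul_left (sr P.z A * sr P.z B * S.cop A B)]
  congr 1
  refine avm_congr fun m _ => ?_
  split_ifs <;> ring

/-- A bound for every good pair gives a bound for the mean over triples. -/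
theorem abs_E_le_of_pairs {β : k[X] → k[X] → ℝ} (h0 : ∀ A B, 0 ≤ β A B)
    (H : ∀ A B, MD a A → MD b B → sr P.z A ≠ 0 → sr P.z B ≠ 0 → IsCoprime A S.g →
      IsCoprime B S.g → IsCoprime A B → |qR k ^ b * avm (S.n₁ - a) fun m =>
        if B ∣ A * m + S.g then S.χ (A * m) * f A B m else 0| ≤ β A B) :
    |S.E a b f| ≤ avm a fun A => avm b fun B =>
      if IsCoprime A B ∧ IsCoprime A S.g then sr P.z A * sr P.z B * β A B else 0 := by
  rw [E_eq]
  refine abs_avm_le.trans (avm_mono fun A hA => abs_avm_le.trans (avm_mono fun B hB => ?_))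
  have h1 := sr_nonneg P.z A
  have h2 := sr_nonneg P.z B
  have h5 : (0 : ℝ) ≤ if IsCoprime A B ∧ IsCoprime A S.g then sr P.z A * sr P.z B * β A B
      else 0 := by
    split_ifs
    · exact mul_nonneg (mul_nonneg h1 h2) (h0 A B)
    · exact le_rfl
  by_cases h3 : sr P.z A = 0
  · simp [h3]
  by_cases h4 : sr P.z B = 0
  · simp [h4]
  by_cases h6 : S.cop A B = 0
  · rw [h6, mul_zero, zero_mul, abs_zero]
    exact h5
  obtain ⟨h7, h8⟩ := S.of_cop h6
  by_cases h9 : IsCoprime A B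
  · rw [if_pos ⟨h9, h7⟩, cop, if_pos ⟨h7, h8⟩, mul_one, abs_mul, abs_of_nonneg (mul_nonneg h1 h2)]
    exact mul_le_mul_of_nonneg_left (H A B hA hB h3 h4 h7 h8 h9) (mul_nonneg h1 h2)
  · rw [avm_congr (G := fun _ => 0) fun m _ => if_neg fun hd => h9 (S.isCoprime_of_dvd h7 hd),
      avm_const, mul_zero, mul_zero, abs_zero]
    exact h5

theorem abs_E_le_of_le {β : ℝ} (h0 : 0 ≤ β)
    (H : ∀ A B, MD a A → MD b B → sr P.z A ≠ 0 → sr P.z B ≠ 0 → IsCoprime A S.g →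
      IsCoprime B S.g → IsCoprime A B → |qR k ^ b * avm (S.n₁ - a) fun m =>
        if B ∣ A * m + S.g then S.χ (A * m) * f A B m else 0| ≤ β) : |S.E a b f| ≤ β := by
  refine (S.abs_E_le_of_pairs (β := fun _ _ => β) (fun _ _ => h0) H).trans
    (avm_le_of_le fun A _ => avm_le_of_le fun B _ => ?_)
  split_ifs
  · exact mul_le_of_le_one_left h0 (mul_le_one₀ (sr_le_one _ _) (sr_nonneg _ _) (sr_le_one _ _))
  · exact h0

theorem E_one_le (hP : StPar3) (hab : a + b ≤ S.n₀) : S.E a b (fun _ _ _ => 1) ≤ 1 := by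
  refine (le_abs_self _).trans (S.abs_E_le_of_le zero_le_one fun A B hA hB _ _ _ _ hc => ?_)
  obtain ⟨m₀, c₀, -, -, -, h4⟩ := hP k P S A B a b hA hB hc hab
  rw [h4 fun _ => 1, avm_const, abs_one]

theorem sq_E_le (hP : StPar3) (hab : a + b ≤ S.n₀) :
    S.E a b f ^ 2 ≤ S.E a b fun A B m => f A B m ^ 2 := by
  have h1 := S.E_one_le hP hab
  have h2 : S.E a b (fun A B m => 2 * S.E a b f * f A B m - S.E a b f ^ 2 * 1) ≤
      S.E a b fun A B m => f A B m ^ 2 :=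
    S.E_mono fun A B m _ _ _ _ _ _ _ _ => by nlinarith [sq_nonneg (f A B m - S.E a b f)]
  rw [S.E_sub (f := fun A B m => 2 * S.E a b f * f A B m), E_mul_left,
    S.E_mul_left (f := fun _ _ _ => 1)] at h2
  nlinarith [sq_nonneg (S.E a b f)]

end E

/-! Exchange of the two polynomials. -/

variable [CharP k 2]

/-- The data with the roles of `F` and `F + g` exchanged. -/
noncomputable def swap : Sh P where
  g := C S.c * S.g
  c := S.c⁻¹
  F₀ := C S.c * (S.F₀ + S.g)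
  Δ := S.Δ
  n₁ := S.n₂
  n₂ := S.n₁
  g_ne := mul_ne_zero (C_ne_zero.2 S.c_ne) S.g_ne
  adm := S.adm.C_mul S.c_ne
  c_ne := inv_ne_zero S.c_ne
  s_ge := S.s_ge
  Δ_le := S.Δ_le
  n₁_ge := S.n₂_ge
  n₁_le := S.n₂_le
  n₂_ge := S.n₁_ge
  n₂_le := S.n₁_le
  hF := S.hG
  hG := by
    rw [← mul_add, ← mul_assoc, C_inv_mul S.c_ne, one_mul, add_assoc, CharTwo.add_self_eq_zero,
      add_zero]
    exact S.hF

theorem swap_Δ : S.swap.Δ = S.Δ := rfl

theorem swap_n₀ : S.swap.n₀ = S.n₀ := rfl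

theorem swap_n₁ : S.swap.n₁ = S.n₂ := rfl

theorem swap_n₂ : S.swap.n₂ = S.n₁ := rfl

theorem swap_G : S.swap.G = S.G := G2_C_mul S.c_ne _ _ _

theorem swap_av (Φ : k[X] → ℝ) : S.swap.av Φ = S.av fun F => Φ (C S.c * (F + S.g)) := by
  unfold av
  rw [swap_n₀, ← avg_C_mul S.c_ne]
  refine avg_congr fun v _ => ?_
  congr 1
  show C S.c * (S.F₀ + S.g) + C S.c * v = _
  ring

theorem av_le₂ (h0 : ∀ F, MD S.n₂ F → 0 ≤ Φ F) :
    S.av (fun F => Φ (C S.c * (F + S.g))) ≤ qR k ^ S.Δ * avm S.n₂ Φ := by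
  rw [← swap_av]
  exact S.swap.av_le₁ h0

/-- Means of products of two unit invariant functions. -/
theorem swap_mean {f f' : k[X] → ℝ} (hf : ∀ F, f (C S.c * F) = f F)
    (hf' : ∀ F, f' (C S.c * F) = f' F) :
    (S.av fun F => S.ν F * f F * f' (F + S.g)) =
      S.swap.av fun F => S.swap.ν F * f' F * f (F + S.swap.g) := by
  rw [swap_av]
  refine S.av_congr fun F _ => ?_
  have e1 : S.swap.ν (C S.c * (F + S.g)) = S.ν F :=
    (nu2_C_mul S.c_ne _ _ _ _).trans (nu2_shift _ _ _ _)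
  have e2 : C S.c * (F + S.g) + S.swap.g = C S.c * F := by
    show C S.c * (F + S.g) + C S.c * S.g = _
    rw [← mul_add, add_assoc, CharTwo.add_self_eq_zero, add_zero]
  rw [e1, e2, hf, hf']
  ring

theorem T3_swap (a b : ℕ) : S.T3 a b = S.swap.T3 b a :=
  S.swap_mean (bS_C_mul S.c_ne _ _) (bS_C_mul S.c_ne _ _)

theorem T2_swap (a b : ℕ) :
    (S.av fun F => S.ν F * bS P.z b F * aS P.z a (F + S.g)) = S.swap.T2 a b :=
  S.swap_mean (bS_C_mul S.c_ne _ _) (aS_C_mul S.c_ne _ _)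

end Sh

namespace Gt

variable (c : Gt k)

theorem ab_le' : c.a + c.b₀ + 9 * c.κ ≤ c.S.n₀ := by
  have := c.ab_le
  have := c.b₀_add
  have := c.S.n₂_le
  have := c.S.n₀_add
  have := c.S.Δ_le
  have := c.τ_le
  omega

theorem j_add : c.a + c.b₀ + c.j = c.S.n₀ := by
  have := c.ab_le'
  rw [j]
  omega

theorem n₂_sub : c.S.n₂ - c.b₀ = c.a + c.n1 := by
  have := c.b₀_add
  have := c.n1_add
  omega

theorem j_le : c.j ≤ c.n1 := by
  have := c.b₀_add
  have := c.n1_add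
  have := c.j_add
  have := c.S.n₀_le₂
  omega

theorem n1_le : c.n1 ≤ c.j + c.S.Δ := by
  have := c.b₀_add
  have := c.n1_add
  have := c.j_add
  have := c.S.n₀_add
  have := c.S.n₂_le
  omega

theorem n1_le' : c.n1 ≤ c.j + c.τ := c.n1_le.trans (Nat.add_le_add_left c.S.Δ_le _)

theorem len_ge' : c.a + 24 * c.τ ≤ c.len + c.b₀ + c.nu := by
  have := c.a_le
  have h2 : 2 * c.b + 20 * c.κ ≤ c.n := by
    have := c.b_le
    rw [Par.κ]
    omega
  have := c.n1_add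
  have := c.L_eq
  have := c.τ_le
  have := c.nu_add
  have := c.len_add
  have := c.b₀_add
  have := c.S.n₂_ge
  have := c.S.Δ_le
  omega

end Gt

end Pool.Agent.Lib.MP_9227d9_nt.Mob
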