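import Pool.Agent.Lib.MP_9227d9_nt.TwDefs

/-!
The twisted mean of type II.
-/

namespace Pool.Agent.Lib.MP_9227d9_nt.Mob

open Polynomial

open scoped Classical

namespace TwA3

variable {k : Type} [Field k] [Fintype k]

omit [Fintype k] in
theorem sr_cases (z : ℕ) (f : k[X]) : sr z f = 0 ∨ (sr z f = 1 ∧ Squarefree f ∧ Rough z f) := by
  unfold sr rI
  rw [mu_sq]
  by_cases h1 : Squarefree f <;> by_cases h2 : Rough z f <;> simp [h1, h2]

theorem hp_nonneg {h p : k[X]} (ha : Adm h) (hp' : IsP p) : 0 ≤ hp h p := by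
  have h1 := ha p hp'
  have h2 : (1 : ℝ) ≤ om h p := by
    unfold om
    split_ifs <;> norm_num
  exact div_nonneg (by linarith) (by linarith)

theorem one_le_G2 {h : k[X]} (ha : Adm h) (y z : ℕ) : 1 ≤ G2 h y z := by
  have h0 : (∅ : Finset k[X]) ∈ SS k y z := mem_SS.2 ⟨by simp, by simp⟩
  have h1 := Finset.single_le_sum (f := fun S : Finset k[X] => ∏ p ∈ S, hp h p)
    (fun S hS => Finset.prod_nonneg fun p hp' => hp_nonneg ha ((mem_SS.1 hS).1 p hp').1) h0
  simpa [G2] using h1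

theorem nu2_eq (h : k[X]) (y z : ℕ) (F : k[X]) :
    nu2 h y z F = ∑ x ∈ SS k y z ×ˢ SS k y z, pc h y z x F := by
  unfold nu2 pc w2
  rw [div_pow, sq, Finset.sum_mul_sum, ← Finset.sum_product', Finset.sum_div]

theorem sum_abs_pc {h : k[X]} (ha : Adm h) (y z : ℕ) (F : k[X]) :
    ∑ x ∈ SS k y z ×ˢ SS k y z, |pc h y z x F| ≤ w2a h y z F ^ 2 := by
  have h1 := one_le_G2 ha y z
  unfold w2a
  rw [sq, Finset.sum_mul_sum, ← Finset.sum_product']
  refine Finset.sum_le_sum fun x _ => ?_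
  unfold pc
  rw [abs_div, abs_mul]
  refine div_le_self (by positivity) ?_
  rw [abs_of_nonneg (by positivity)]
  exact one_le_pow₀ h1

theorem ps2_congr {h p F F' : k[X]} (hd : p ∣ F' - F) : ps2 h p F' = ps2 h p F := by
  unfold ps2
  have : p ∣ F' * (F' + h) ↔ p ∣ F * (F + h) := by
    have e : F' * (F' + h) = F * (F + h) + (F' - F) * (F' + F + h) := by ring
    rw [e]
    exact dvd_add_left (hd.mul_right _)
  simp only [this]

theorem pc_congr {h : k[X]} {y z : ℕ} {x : Finset k[X] × Finset k[X]} {F F' : k[X]}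
    (hd : rr x ∣ F' - F) : pc h y z x F' = pc h y z x F := by
  unfold pc
  have h1 : ∀ p ∈ x.1, ps2 h p F' = ps2 h p F := fun p hp' =>
    ps2_congr (((Finset.dvd_prod_of_mem _ hp').mul_right _).trans hd)
  have h2 : ∀ p ∈ x.2, ps2 h p F' = ps2 h p F := fun p hp' =>
    ps2_congr (((Finset.dvd_prod_of_mem _ hp').mul_left _).trans hd)
  rw [Finset.prod_congr rfl h1, Finset.prod_congr rfl h2]

theorem rr_spec {y z : ℕ} {x : Finset k[X] × Finset k[X]} (hx : x ∈ SS k y z ×ˢ SS k y z) :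
    (rr x).Monic ∧ (rr x).natDegree ≤ 2 * y ∧ Smth z (rr x) := by
  obtain ⟨h1, h2⟩ := Finset.mem_product.1 hx
  obtain ⟨a1, b1⟩ := mem_SS.1 h1
  obtain ⟨a2, b2⟩ := mem_SS.1 h2
  have m1 := monic_prod fun p hp' => (a1 p hp').1
  have m2 := monic_prod fun p hp' => (a2 p hp').1
  refine ⟨m1.mul m2, ?_, fun p hp' hd => ?_⟩
  · unfold rr
    rw [m1.natDegree_mul m2, natDegree_prod_isP fun p hp' => (a1 p hp').1,
      natDegree_prod_isP fun p hp' => (a2 p hp').1]
    omega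
  · rcases hp'.prime.dvd_or_dvd hd with h | h
    · exact (a1 p ((dvd_prod_iff_mem (fun p hp' => (a1 p hp').1) hp').1 h)).2
    · exact (a2 p ((dvd_prod_iff_mem (fun p hp' => (a2 p hp').1) hp').1 h)).2

theorem w2a_le (P : Par k) {K : ℝ} (hK : KB2 k P.U P.τ K) {F : k[X]} (hF : MD P.n F) :
    w2a P.h P.y P.z F ≤ K := by
  have h1 := P.h_deg
  have h2 := P.n_ge
  have h3 := P.n_le
  have h4 := P.s_ge
  have h5 := P.τ_pos
  have h6 : 16 * P.τ ≤ P.s * P.τ := Nat.mul_le_mul_right _ h4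
  have hF' : MD P.n (F + P.h) := hF.add (degree_lt_of_natDegree fun _ => by omega)
  have h7 := hF.mul hF'
  refine hK.w2a P.h P.y P.z F P.adm h7.ne_zero ?_ ?_
  · rw [h7.2]
    nlinarith
  · unfold Par.y
    nlinarith

theorem w2a_nonneg (h : k[X]) (y z : ℕ) (F : k[X]) : 0 ≤ w2a h y z F :=
  Finset.sum_nonneg fun _ _ => abs_nonneg _

theorem sum_abs_le (P : Par k) {K : ℝ} (hK : KB2 k P.U P.τ K) {F : k[X]} (hF : MD P.n F) :
    ∑ x ∈ SS k P.y P.z ×ˢ SS k P.y P.z, |pc P.h P.y P.z x F| ≤ K ^ 2 :=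
  (sum_abs_pc P.adm _ _ F).trans (pow_le_pow_left₀ (w2a_nonneg _ _ _ _) (w2a_le P hK hF) 2)

theorem abs_nu_le (P : Par k) {K : ℝ} (hK : KB2 k P.U P.τ K) {F : k[X]} (hF : MD P.n F) :
    |P.ν F| ≤ K ^ 2 := by
  unfold Par.ν
  rw [nu2_eq]
  exact (Finset.abs_sum_le_sum_abs _ _).trans (sum_abs_le P hK hF)

theorem perS (P : Par k) {K : ℝ} (hK : KB2 k P.U P.τ K) (j : ℕ) (α β α' β' : k[X])
    (h1 : ∀ m, MD j m → MD P.n (α + β * m)) (h2 : ∀ m, MD j m → MD P.n (α' + β' * m)) :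
    PerS P.z (2 * P.κ) j (K ^ 4) fun m => P.ν (α + β * m) * P.ν (α' + β' * m) := by
  refine ⟨_, (SS k P.y P.z ×ˢ SS k P.y P.z) ×ˢ (SS k P.y P.z ×ˢ SS k P.y P.z),
    fun x m => pc P.h P.y P.z x.1 (α + β * m) * pc P.h P.y P.z x.2 (α' + β' * m),
    fun x => rr x.1 * rr x.2, fun m => ?_, fun x hx => ?_, fun m hm => ?_⟩
  · simp only [Par.ν]
    rw [nu2_eq, nu2_eq, Finset.sum_mul_sum, ← Finset.sum_product']
  · obtain ⟨hx1, hx2⟩ := Finset.mem_product.1 hx
    obtain ⟨a1, b1, c1⟩ := rr_spec hx1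
    obtain ⟨a2, b2, c2⟩ := rr_spec hx2
    refine ⟨(a1.mul a2).ne_zero, ?_, fun p hp' hd => ?_, fun m t => ?_⟩
    · rw [a1.natDegree_mul a2]
      have : 2 * P.y = P.κ := by
        unfold Par.y Par.κ
        ring
      omega
    · exact (hp'.prime.dvd_or_dvd hd).elim (c1 p hp') (c2 p hp')
    · exact congrArg₂ (· * ·) (pc_congr ⟨β * rr x.2 * t, by ring⟩)
        (pc_congr ⟨β' * rr x.1 * t, by ring⟩)
  · have e : ∑ x ∈ (SS k P.y P.z ×ˢ SS k P.y P.z) ×ˢ (SS k P.y P.z ×ˢ SS k P.y P.z),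
        |pc P.h P.y P.z x.1 (α + β * m) * pc P.h P.y P.z x.2 (α' + β' * m)| =
        (∑ x ∈ SS k P.y P.z ×ˢ SS k P.y P.z, |pc P.h P.y P.z x (α + β * m)|) *
          ∑ x ∈ SS k P.y P.z ×ˢ SS k P.y P.z, |pc P.h P.y P.z x (α' + β' * m)| := by
      rw [Finset.sum_mul_sum, ← Finset.sum_product']
      exact Finset.sum_congr rfl fun x _ => abs_mul _ _
    rw [e, show K ^ 4 = K ^ 2 * K ^ 2 by ring]
    exact mul_le_mul (sum_abs_le P hK (h1 m hm)) (sum_abs_le P hK (h2 m hm))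
      (Finset.sum_nonneg fun _ _ => abs_nonneg _) (by positivity)

theorem avm_eq_one {a : ℕ} {A : k[X]} (hA : MD a A) (x : ℝ) :
    avm a (fun A' => if A = A' then x else 0) = x / qR k ^ a := by
  rw [avm_eq_sum, Finset.sum_ite_eq, if_pos]
  exact Finset.mem_filter.2 ⟨mem_Mo.2 ⟨hA.1, hA.2.le⟩, hA.2⟩

theorem avm_dvd_sub {a b : ℕ} {A B : k[X]} (hB : MD b B) (hab : b ≤ a) :
    avm a (fun A' => if B ∣ A - A' then (1 : ℝ) else 0) = 1 / qR k ^ b := by
  have h1 := avg_dvd (n := a) (M := B) (β := -1) hB.ne_zero (hB.2.le.trans hab)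
    isCoprime_one_left.neg_left (A - X ^ a)
  rw [Nm, hB.2] at h1
  rw [← h1]
  refine avg_congr fun v _ => ?_
  simp only [show A - (X ^ a + v) = A - X ^ a + -1 * v by ring]

variable [CharP k 2]

/-- The term of the inner sum. -/
noncomputable def Y (c : Tw k) (A B m u : k[X]) : ℝ :=
  if B ∣ A * m + c.h then sr c.z A * (c.ν (A * m) * (mu (c.Xc A B m) * c.W (c.l A B m u))) else 0

omit [CharP k 2] in
theorem nums (c : Tw k) : c.a + c.b + c.τ < c.n ∧ c.τ < c.z ∧ c.n1 = c.n - c.a - c.b ∧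
    c.a + c.τ < c.n := by
  have h1 := c.a_le
  have h2 := c.b_le
  have h4 := c.s_ge
  have h5 := c.τ_pos
  have h6 : 16 * c.τ ≤ c.s * c.τ := Nat.mul_le_mul_right _ h4
  refine ⟨by omega, ?_, rfl, by omega⟩
  unfold Par.z
  omega

omit [CharP k 2] in
theorem not_dvd_h (c : Tw k) {p B : k[X]} (hB : Rough c.z B) (hp' : IsP p) (hd : p ∣ B) :
    ¬ p ∣ c.h := by
  have h1 := hB p hp' hd
  have h2 := (nums c).2.1
  have h3 := c.h_deg
  exact hp'.not_dvd_of_lt c.h_ne (by omega)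

omit [CharP k 2] in
theorem abs_W_le (c : Tw k) {K : ℝ} (hK : KB2 k c.U c.τ K) (l : k[X]) : |c.W l| ≤ K := by
  rw [Tw.W, abs_of_nonneg (Wt_nonneg _ _)]
  exact hK.wt _ c.I l c.r_le c.I_le

theorem abs_Y_le (c : Tw k) {K : ℝ} (hK : KB2 k c.U c.τ K) (hK0 : 0 ≤ K) {A m : k[X]}
    (hA : MD c.a A) (hm : MD (c.n - c.a) m) (B u : k[X]) : |Y c A B m u| ≤ K ^ 3 := by
  unfold Y
  split_ifs
  · have h1 : MD c.n (A * m) := by
      have := hA.mul hm
      have h2 := (nums c).1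
      rwa [show c.a + (c.n - c.a) = c.n by omega] at this
    have h2 := abs_nu_le c.toPar hK h1
    have h3 := abs_W_le c hK (c.l A B m u)
    have h4 := abs_mu_le (c.Xc A B m)
    have h5 : |sr c.z A| ≤ 1 := by
      rcases sr_cases c.z A with h | h
      · rw [h]
        simp
      · rw [h.1]
        simp
    rw [abs_mul, abs_mul, abs_mul]
    calc _ ≤ 1 * (K ^ 2 * (1 * K)) := by gcongr
      _ = _ := by ring
  · rw [abs_zero]
    positivity

theorem pair_le (hP : StPar2) (hO : StOff) (c : Tw k) {K sv : ℝ} (hK : KB2 k c.U c.τ K)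
    (hK0 : 0 ≤ K) (hL : LineOK k c.U c.τ sv) (hsv : 0 ≤ sv) {A A' B : k[X]} (hA : MD c.a A)
    (hA' : MD c.a A') (hB : MD c.b B) :
    sr c.z B * (qR k ^ c.b * avm (c.n - c.a) fun m => avm c.nu fun u =>
      Y c A B m u * Y c A' B m u) ≤ (if A = A' then K ^ 6 else 0) +
      (if B ∣ A - A' then 1 else 0) * (K ^ 6 * (sv + 3 * K / c.Q)) := by
  have hQ : 0 < c.Q := qR_pow_pos _
  have hO0 : 0 ≤ K ^ 6 * (sv + 3 * K / c.Q) := by positivity
  have hR0 : 0 ≤ (if A = A' then K ^ 6 else 0) +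
      (if B ∣ A - A' then 1 else 0) * (K ^ 6 * (sv + 3 * K / c.Q)) := by
    split_ifs <;> positivity
  have zero : (∀ m u, MD (c.n - c.a) m → Y c A B m u * Y c A' B m u = 0) →
      sr c.z B * (qR k ^ c.b * avm (c.n - c.a) fun m => avm c.nu fun u =>
        Y c A B m u * Y c A' B m u) ≤ (if A = A' then K ^ 6 else 0) +
      (if B ∣ A - A' then 1 else 0) * (K ^ 6 * (sv + 3 * K / c.Q)) := fun h => by
    rw [avm_congr (G := fun _ => 0) fun m hm => by
      rw [avm_congr (G := fun _ => 0) fun u _ => h m u hm, avm_const], avm_const]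
    simpa using hR0
  obtain ⟨n1, n2, n3, n4⟩ := nums c
  rcases sr_cases c.z B with h | ⟨eB, -, rB⟩
  · rw [h, zero_mul]
    exact hR0
  rcases sr_cases c.z A with h | ⟨eA, sA, rA⟩
  · exact zero fun m u _ => by simp [Y, h]
  rcases sr_cases c.z A' with h | ⟨eA', sA', rA'⟩
  · exact zero fun m u _ => by simp [Y, h]
  have cop : ∀ {A m : k[X]}, B ∣ A * m + c.h → IsCoprime B A ∧ IsCoprime B m := by
    intro A m hd
    constructor <;> by_contra hc
    · obtain ⟨p, hp', h1, h2⟩ := exists_isP_of_not_isCoprime hB.ne_zero hc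
      exact not_dvd_h c rB hp' h1 ((dvd_add_right (h2.mul_right _)).1 (h1.trans hd))
    · obtain ⟨p, hp', h1, h2⟩ := exists_isP_of_not_isCoprime hB.ne_zero hc
      exact not_dvd_h c rB hp' h1 ((dvd_add_right (h2.mul_left _)).1 (h1.trans hd))
  by_cases hc : IsCoprime A B
  swap
  · exact zero fun m u _ => by
      rw [Y, if_neg fun hd => hc (cop hd).1.symm, zero_mul]
  obtain ⟨m₀, c₀, d0, e0, eX, eP⟩ := hP k A B c.h c.b hB hc
  have e1 : (avm (c.n - c.a) fun m => avm c.nu fun u => Y c A B m u * Y c A' B m u) =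
      avm (c.n - c.a) fun m => if B ∣ A * m + c.h then
        avm c.nu fun u => Y c A B m u * Y c A' B m u else 0 := by
    refine avm_congr fun m _ => ?_
    split_ifs with hd
    · rfl
    · simp only [Y, if_neg hd, zero_mul, avm_const]
  rw [eB, one_mul, e1, eP _ _ (by omega), ← n3]
  have hm : ∀ m₁, MD c.n1 m₁ → MD (c.n - c.a) (m₀ + B * m₁) := fun m₁ h1 => by
    have h2 := hB.mul h1
    rw [show c.b + c.n1 = c.n - c.a by omega] at h2
    rw [add_comm]
    exact h2.add (d0.trans_le (by exact_mod_cast (by omega : c.b ≤ c.n - c.a)))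
  have hd : ∀ m₁, B ∣ A * (m₀ + B * m₁) + c.h := fun m₁ => ⟨A * m₁ + c₀, by
    rw [mul_add B, e0]
    ring⟩
  by_cases hAA : A = A'
  · rw [if_pos hAA]
    refine le_trans ?_ (le_add_of_nonneg_right (by split_ifs <;> positivity))
    refine avm_le_of_le fun m₁ h1 => avm_le_of_le fun u _ => (le_abs_self _).trans ?_
    rw [abs_mul, show K ^ 6 = K ^ 3 * K ^ 3 by ring]
    exact mul_le_mul (abs_Y_le c hK hK0 hA (hm m₁ h1) B u) (abs_Y_le c hK hK0 hA' (hm m₁ h1) B u)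
      (abs_nonneg _) (by positivity)
  rw [if_neg hAA, zero_add]
  by_cases hBA : B ∣ A - A'
  swap
  · rw [if_neg hBA, zero_mul]
    refine avm_le_of_le fun m₁ _ => avm_le_of_le fun u _ => le_of_eq ?_
    rw [Y.eq_1 c A', if_neg, mul_zero]
    intro hd'
    refine hBA ((cop hd').2.dvd_of_dvd_mul_right ?_)
    have := dvd_sub (hd m₁) hd'
    rwa [show A * (m₀ + B * m₁) + c.h - (A' * (m₀ + B * m₁) + c.h) =
      (A - A') * (m₀ + B * m₁) by ring] at this
  rw [if_pos hBA, one_mul]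
  obtain ⟨g, hg⟩ := hBA
  have e0' : B * (c₀ - g * m₀) = A' * m₀ + c.h := by
    rw [mul_sub, e0, ← mul_assoc, ← hg]
    ring
  have hd' : ∀ m₁, A' * (m₀ + B * m₁) + c.h = B * (A' * m₁ + (c₀ - g * m₀)) := fun m₁ => by
    rw [mul_add B, e0']
    ring
  have hd2 : ∀ m₁, A * (m₀ + B * m₁) + c.h = B * (A * m₁ + c₀) := fun m₁ => by
    rw [mul_add B, e0]
    ring
  have eX' : ∀ m₁, (A' * (m₀ + B * m₁) + c.h) / B = A' * m₁ + (c₀ - g * m₀) := fun m₁ => by
    rw [hd', mul_div_cancel_left₀ _ hB.ne_zero]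
  have key : ∀ {A c₀ : k[X]}, MD c.a A → Rough c.z A → B * c₀ = A * m₀ + c.h →
      IsCoprime c₀ A ∧ c₀.natDegree ≤ c.a + c.τ := by
    intro A c₀ hA rA e0
    constructor
    · by_contra hc
      obtain ⟨p, hp', h1, h2⟩ := exists_isP_of_not_isCoprime hA.ne_zero fun h => hc h.symm
      exact not_dvd_h c rA hp' h1 ((dvd_add_right (h1.mul_right _)).1 (e0 ▸ h2.mul_left B))
    · by_cases h0 : c₀ = 0
      · rw [h0, natDegree_zero]
        omega
      have h1 : m₀.natDegree ≤ c.b := natDegree_le_of_degree_le d0.le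
      have h2 := natDegree_add_le (A * m₀) c.h
      have h3 := natDegree_mul_le (p := A) (q := m₀)
      have h4 := c.h_deg
      rw [← e0, natDegree_mul hB.ne_zero h0, hB.2] at h2
      rw [hA.2] at h3
      omega
  obtain ⟨k1, k2⟩ := key hA rA e0
  obtain ⟨k1', k2'⟩ := key hA' rA' e0'
  have hn : ∀ {A : k[X]}, MD c.a A → ∀ m₁, MD c.n1 m₁ → MD c.n (A * m₀ + A * B * m₁) := by
    intro A hA m₁ h1
    have := hA.mul (hm m₁ h1)
    rwa [show c.a + (c.n - c.a) = c.n by omega, mul_add, ← mul_assoc] at this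
  have main := hO k c K (K ^ 4) sv A c₀ A' (c₀ - g * m₀) _ hK hL hsv hA sA k1 k2 hA' sA' k1' k2'
    (fun m₁ h1 he => by
      have h2 : (A * (m₀ + B * m₁) + c.h) * A = (A' * (m₀ + B * m₁) + c.h) * A' := by
        rw [hd2, hd', mul_assoc, mul_assoc, he]
      have h3 : (A - A') * ((A + A') * (m₀ + B * m₁) + c.h) = 0 := by
        linear_combination h2
      have h4 := (mul_eq_zero.1 h3).resolve_left (sub_ne_zero.2 hAA)
      have h5 : m₀ + B * m₁ ∣ c.h := ⟨-(A + A'), by linear_combination h4⟩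
      have h6 := natDegree_le_of_dvd h5 c.h_ne
      have h7 := c.h_deg
      rw [(hm m₁ h1).2] at h6
      omega)
    (perS c.toPar hK c.n1 (A * m₀) (A * B) (A' * m₀) (A' * B) (hn hA) (hn hA'))
  rw [avm_comm]
  refine le_trans (le_of_eq ?_) ((le_abs_self _).trans (main.trans (le_of_eq (by ring))))
  refine avm_congr fun u _ => avm_congr fun m₁ _ => ?_
  rw [Y, Y, if_pos (hd m₁), if_pos ⟨_, hd' m₁⟩, eA, eA', Tw.l, Tw.l, Tw.Xc, Tw.Xc, eX, eX',
    mul_add A m₀, mul_add A' m₀, ← mul_assoc A B, ← mul_assoc A' B]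
  ring

theorem sq_le (hP : StPar2) (hO : StOff) (c : Tw k) {K sv : ℝ} (hK : KB2 k c.U c.τ K)
    (hK0 : 0 ≤ K) (hL : LineOK k c.U c.τ sv) (hsv : 0 ≤ sv) {w : ℕ} (hw : c.b + w ≤ c.a) :
    c.E (fun A B m => c.ν (A * m) * mu m * mu (c.Xc A B m) *
      avm c.nu fun u => c.W (c.l A B m u)) ^ 2 ≤
      K ^ 6 / qR k ^ w + K ^ 6 * (sv + 3 * K / c.Q) := by
  have hq := qR_pow_pos (k := k) c.b
  have e1 : c.E (fun A B m => c.ν (A * m) * mu m * mu (c.Xc A B m) *
      avm c.nu fun u => c.W (c.l A B m u)) = avm c.b fun B => avm (c.n - c.a) fun m =>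
        avm c.nu fun u => mu m * sr c.z B * (qR k ^ c.b * avm c.a fun A => Y c A B m u) := by
    unfold Tw.E E3
    rw [avm_comm, ← avm_mul_left]
    refine avm_congr fun B _ => ?_
    rw [avm_comm, ← avm_mul_left]
    refine avm_congr fun m _ => ?_
    rw [avm_mul_left, avm_mul_left, ← avm_comm, ← mul_assoc, mul_comm _ (qR k ^ c.b), mul_assoc,
      ← avm_mul_left (c := mu m * sr c.z B)]
    congr 1
    refine avm_congr fun A _ => ?_
    unfold Y
    split_ifs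
    · rw [avm_mul_left, avm_mul_left, avm_mul_left]
      ring
    · rw [avm_const, mul_zero]
  have e2 : ∀ B m u : k[X], (mu m * sr c.z B * (qR k ^ c.b * avm c.a fun A => Y c A B m u)) ^ 2 ≤
      avm c.a fun A => avm c.a fun A' =>
        qR k ^ c.b * (sr c.z B * (qR k ^ c.b * (Y c A B m u * Y c A' B m u))) := by
    intro B m u
    simp only [avm_mul_left, avm_mul_right]
    have h1 : mu m ^ 2 ≤ 1 := by
      rw [mu_sq]
      split_ifs <;> norm_num
    rcases sr_cases c.z B with h | h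
    · simp [h]
    · rw [h.1, mul_one, one_mul, mul_pow]
      refine (mul_le_of_le_one_left (sq_nonneg _) h1).trans (le_of_eq ?_)
      ring
  have e3 : c.E (fun A B m => c.ν (A * m) * mu m * mu (c.Xc A B m) *
      avm c.nu fun u => c.W (c.l A B m u)) ^ 2 ≤ avm c.a fun A => avm c.a fun A' =>
        avm c.b fun B => qR k ^ c.b * (sr c.z B * (qR k ^ c.b * avm (c.n - c.a) fun m =>
          avm c.nu fun u => Y c A B m u * Y c A' B m u)) := by
    rw [e1]
    refine (sq_avm_le.trans (avm_mono fun B _ => sq_avm_le.trans (avm_mono fun m _ =>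
      sq_avm_le.trans (avm_mono fun u _ => e2 B m u)))).trans (le_of_eq ?_)
    simp only [← avm_mul_left]
    simp only [avm_comm c.nu c.a]
    simp only [avm_comm (c.n - c.a) c.a]
    simp only [avm_comm c.b c.a]
  refine e3.trans (avm_le_of_le fun A hA => ?_)
  refine (avm_mono fun A' hA' => avm_mono fun B hB => mul_le_mul_of_nonneg_left
    (pair_le hP hO c hK hK0 hL hsv hA hA' hB) hq.le).trans ?_
  generalize K ^ 6 * (sv + 3 * K / c.Q) = O
  simp only [mul_add, avm_add, avm_const, avm_mul_left]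
  refine add_le_add ?_ (le_of_eq ?_)
  · rw [avm_eq_one hA, ← mul_div_assoc, div_le_div_iff₀ (qR_pow_pos _) (qR_pow_pos _),
      mul_comm _ (K ^ 6), mul_assoc, ← pow_add]
    exact mul_le_mul_of_nonneg_left (pow_le_pow_right₀ one_le_qR hw) (by positivity)
  · rw [avm_comm, avm_congr (G := fun _ => 1 / qR k ^ c.b * O)
      fun B hB => by rw [avm_mul_right, avm_dvd_sub hB (by omega)], avm_const]
    field_simp

end TwA3

theorem stA3' (hR : StRed) (hP : StPar2) (hU : StUse) (hO : StOff) : StA3' := by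
  intro k _ _ _ c K sv w hK hL hsv hw
  have hK1 : 10 ≤ K := le_trans (le_add_of_nonneg_left (by positivity)) hK.lin
  have hK0 : 0 ≤ K := by linarith
  have hQ : 0 < c.Q := qR_pow_pos _
  have hq := qR_pow_pos (k := k) w
  obtain ⟨n1, -, -, -⟩ := TwA3.nums c
  have e1 : c.T3 c.a c.b = c.E fun A B m => c.ν (A * m) * mu m * mu (c.Xc A B m) :=
    (hR k c.h c.z c.n c.a c.b c.ν (by omega)).2.2.1
  have h1 := hU k c K (K ^ 2) (fun A _ m => c.ν (A * m) * mu m) hK (by positivity)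
    fun A B m hA _ hm => by
      have h2 := hA.mul hm
      rw [show c.a + (c.n - c.a) = c.n by omega] at h2
      rw [abs_mul]
      exact (mul_le_of_le_one_right (abs_nonneg _) (abs_mu_le m)).trans (TwA3.abs_nu_le c.toPar hK h2)
  have h2 := TwA3.sq_le hP hO c hK hK0 hL hsv hw
  rw [e1]
  generalize c.E (fun A B m => c.ν (A * m) * mu m * mu (c.Xc A B m) *
      avm c.nu fun u => c.W (c.l A B m u)) = y at h1 h2
  generalize c.E (fun A B m => c.ν (A * m) * mu m * mu (c.Xc A B m)) = x at h1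
  have s1 : 0 < √c.Q := Real.sqrt_pos.2 hQ
  have s2 : 0 < √(qR k ^ w) := Real.sqrt_pos.2 hq
  have s3 : 0 ≤ √sv := Real.sqrt_nonneg _
  have h3 : |y| ≤ K ^ 4 * (1 / √c.Q + √sv + 1 / √(qR k ^ w)) := by
    refine abs_le_of_sq_le_sq' (h2.trans ?_) (by positivity) |> abs_le.2
    have t1 : (1 / √c.Q) ^ 2 = 1 / c.Q := by rw [div_pow, Real.sq_sqrt hQ.le, one_pow]
    have t2 : (1 / √(qR k ^ w)) ^ 2 = 1 / qR k ^ w := by rw [div_pow, Real.sq_sqrt hq.le, one_pow]
    have t3 : √sv ^ 2 = sv := Real.sq_sqrt hsv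
    have t4 : 1 / c.Q + sv + 1 / qR k ^ w ≤ (1 / √c.Q + √sv + 1 / √(qR k ^ w)) ^ 2 := by
      rw [← t1, ← t2]
      nth_rewrite 1 [← t3]
      have u1 : 0 ≤ 1 / √c.Q := by positivity
      have u2 : 0 ≤ 1 / √(qR k ^ w) := by positivity
      nlinarith [mul_nonneg u1 u2, mul_nonneg u1 s3, mul_nonneg u2 s3]
    rw [mul_pow, ← pow_mul]
    refine le_trans ?_ (mul_le_mul_of_nonneg_left t4 (by positivity))
    have v1 : K ^ 6 ≤ K ^ (4 * 2) := pow_le_pow_right₀ (by linarith) (by norm_num)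
    have v2 : K ^ 6 * (3 * K) ≤ K ^ (4 * 2) := by
      rw [show K ^ (4 * 2) = K ^ 6 * (K * K) by ring]
      exact mul_le_mul_of_nonneg_left (by nlinarith) (by positivity)
    have v3 := mul_le_mul_of_nonneg_right v1 hsv
    have v4 := mul_le_mul_of_nonneg_right v1 (one_div_pos.2 hq).le
    have v5 := mul_le_mul_of_nonneg_right v2 (one_div_pos.2 hQ).le
    calc _ = K ^ 6 * (3 * K) * (1 / c.Q) + K ^ 6 * sv + K ^ 6 * (1 / qR k ^ w) := by ring
      _ ≤ _ := by
        rw [mul_add, mul_add]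
        exact add_le_add (add_le_add v5 v3) v4
  have h4 : 4 * K ^ 2 * K ^ 2 / √c.Q ≤ 4 * (K ^ 4 * (1 / √c.Q + √sv + 1 / √(qR k ^ w))) := by
    have : 0 ≤ K ^ 4 * (√sv + 1 / √(qR k ^ w)) := by positivity
    calc _ = 4 * (K ^ 4 * (1 / √c.Q)) := by ring
      _ ≤ _ := by nlinarith
  have h5 : 0 ≤ K ^ 4 * (1 / √c.Q + √sv + 1 / √(qR k ^ w)) := by positivity
  have h6 := abs_sub_abs_le_abs_sub x y
  linarith

end Pool.Agent.Lib.MP_9227d9_nt.Mob
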