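import Pool.Agent.Lib.MP_9227d9_nt.GbA
import Pool.Agent.Lib.MP_9227d9_nt.TwA3

/-!
The twisted mean of type II, uniformly in the shift.
-/

namespace Pool.Agent.Lib.MP_9227d9_nt.Mob

open Polynomial

open scoped Classical

namespace GbA3

variable {k : Type} [Field k] [Fintype k]

/-- The weight of the outer divisor. -/
noncomputable def sB (c : Gt k) (B : k[X]) : ℝ := if IsCoprime B c.S.g then sr c.z B else 0

theorem sB_cases (c : Gt k) (B : k[X]) : sB c B = 0 ∨ (sB c B = 1 ∧ IsCoprime B c.S.g) := by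
  unfold sB
  split_ifs with h
  · exact (TwA3.sr_cases c.z B).imp id fun h' => ⟨h'.1, h⟩
  · exact .inl rfl

omit [Fintype k] in
theorem cop_m {A B m g : k[X]} (hB : IsCoprime B g) (hd : B ∣ A * m + g) : IsCoprime B m := by
  obtain ⟨t, ht⟩ := hd
  have h1 := hB.add_mul_left_right (-t)
  rw [show g + B * -t = -A * m by linear_combination ht] at h1
  exact h1.of_mul_right_right

variable [CharP k 2]

/-- The term of the inner sum without the conditions. -/
noncomputable def Y₀ (c : Gt k) (A B m u : k[X]) : ℝ :=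
  sr c.z A * (c.S.ν (A * m) * (mu (c.S.Xc A B m) * c.W (c.l A B m u)))

/-- The term of the inner sum. -/
noncomputable def Y (c : Gt k) (A B m u : k[X]) : ℝ :=
  if B ∣ A * m + c.S.g then c.S.χ (A * m) * (if IsCoprime A c.S.g then Y₀ c A B m u else 0) else 0

theorem abs_Y₀_le (c : Gt k) {K : ℝ} (hK : KB2 k c.U c.τ K) {A m : k[X]} (hm : c.S.In (A * m))
    (B u : k[X]) : |Y₀ c A B m u| ≤ K ^ 3 := by
  have hK0 : 0 ≤ K := by linarith [hK.ten_le]
  have h2 : |c.S.ν (A * m)| ≤ K ^ 2 := by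
    rw [abs_of_nonneg (c.S.ν_nonneg _)]
    exact c.S.ν_le hK hm
  have h3 := c.toTw.abs_W_le hK (c.l A B m u)
  have h4 := abs_mu_le (c.S.Xc A B m)
  have h5 : |sr c.z A| ≤ 1 := by
    rw [abs_of_nonneg (sr_nonneg _ _)]
    exact sr_le_one _ _
  rw [Y₀, abs_mul, abs_mul, abs_mul]
  calc _ ≤ 1 * (K ^ 2 * (1 * K)) := by gcongr
    _ = _ := by ring

theorem abs_Y_le (c : Gt k) {K : ℝ} (hK : KB2 k c.U c.τ K) (hΔ : qR k ^ c.S.Δ ≤ K)
    (A B m u : k[X]) : |Y c A B m u| ≤ K ^ 4 := by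
  have hK0 : 0 ≤ K := by linarith [hK.ten_le]
  have h0 : |(0 : ℝ)| ≤ K ^ 4 := by
    rw [abs_zero]
    positivity
  unfold Y
  split_ifs
  · by_cases h : c.S.χ (A * m) = 0
    · rwa [h, zero_mul]
    rw [abs_mul, abs_of_nonneg (c.S.χ_nonneg _), show K ^ 4 = K * K ^ 3 by ring]
    exact mul_le_mul ((c.S.χ_le _).trans hΔ) (abs_Y₀_le c hK (c.S.In_of_χ h) B u) (abs_nonneg _) hK0
  · rwa [mul_zero]
  · exact h0

theorem pair_le (hP : StPar3) (hO : StOffg) (c : Gt k) {K sv : ℝ} (hK : KB2 k c.U c.τ K)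
    (hΔ : qR k ^ c.S.Δ ≤ K) (hL : LineOK k c.U c.τ sv) (hsv : 0 ≤ sv) {A A' B : k[X]}
    (hA : MD c.a A) (hA' : MD c.a A') (hB : MD c.b₀ B) :
    sB c B * (qR k ^ c.b₀ * avm (c.S.n₁ - c.a) fun m => avm c.nu fun u =>
      Y c A B m u * Y c A' B m u) ≤ (if A = A' then K ^ 7 else 0) +
      (if B ∣ A - A' then 1 else 0) * (K ^ 7 * (sv + 4 * K / c.Q)) := by
  have hK0 : 0 ≤ K := by linarith [hK.ten_le]
  have hQ : 0 < c.Q := qR_pow_pos _
  have hO0 : 0 ≤ K ^ 7 * (sv + 4 * K / c.Q) := by positivity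
  have hR0 : 0 ≤ (if A = A' then K ^ 7 else 0) +
      (if B ∣ A - A' then 1 else 0) * (K ^ 7 * (sv + 4 * K / c.Q)) := by
    split_ifs <;> positivity
  have zero : (∀ m u, Y c A B m u * Y c A' B m u = 0) →
      sB c B * (qR k ^ c.b₀ * avm (c.S.n₁ - c.a) fun m => avm c.nu fun u =>
        Y c A B m u * Y c A' B m u) ≤ (if A = A' then K ^ 7 else 0) +
      (if B ∣ A - A' then 1 else 0) * (K ^ 7 * (sv + 4 * K / c.Q)) := fun h => by
    simp only [h, avm_const, mul_zero]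
    exact hR0
  rcases sB_cases c B with h | ⟨eB, gB⟩
  · rw [h, zero_mul]
    exact hR0
  rcases TwA3.sr_cases c.z A with h | ⟨eA, sA, -⟩
  · exact zero fun m u => by simp [Y, Y₀, h]
  rcases TwA3.sr_cases c.z A' with h | ⟨eA', sA', -⟩
  · exact zero fun m u => by simp [Y, Y₀, h]
  by_cases gA : IsCoprime A c.S.g
  swap
  · exact zero fun m u => by simp [Y, gA]
  by_cases gA' : IsCoprime A' c.S.g
  swap
  · exact zero fun m u => by simp [Y, gA']
  by_cases hc : IsCoprime A B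
  swap
  · exact zero fun m u => by
      rw [Y, if_neg fun hd => hc (c.S.isCoprime_of_dvd gA hd), zero_mul]
  obtain ⟨m₀, c₀, e0, eX, hm, eP⟩ := hP k _ c.S A B c.a c.b₀ hA hB hc
    (le_trans (Nat.le_add_right _ _) c.ab_le')
  have e1 : (avm (c.S.n₁ - c.a) fun m => avm c.nu fun u => Y c A B m u * Y c A' B m u) =
      avm (c.S.n₁ - c.a) fun m => if B ∣ A * m + c.S.g then c.S.χ (A * m) *
        avm c.nu fun u => Y₀ c A B m u * Y c A' B m u else 0 := by
    refine avm_congr fun m _ => ?_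
    split_ifs with hd
    · rw [← avm_mul_left]
      refine avm_congr fun u _ => ?_
      rw [Y, if_pos hd, if_pos gA, mul_assoc]
    · simp only [Y.eq_1 c A, if_neg hd, zero_mul, avm_const]
  rw [eB, one_mul, e1, eP fun m => avm c.nu fun u => Y₀ c A B m u * Y c A' B m u]
  rw [← Gt.j] at hm ⊢
  have hi := C_inv_mul c.S.c_ne
  have lin : ∀ {A c₀ : k[X]}, B * c₀ = C c.S.c * (A * m₀ + c.S.g) → ∀ t,
      C c.S.c * (A * (m₀ + C c.S.c⁻¹ * B * t) + c.S.g) = B * (A * t + c₀) := fun {A c₀} e t => by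
    linear_combination (A * B * t) * hi - e
  have dv : ∀ {A c₀ : k[X]}, B * c₀ = C c.S.c * (A * m₀ + c.S.g) → ∀ t,
      B ∣ A * (m₀ + C c.S.c⁻¹ * B * t) + c.S.g := fun e t =>
    (dvd_C_mul' c.S.c_ne).1 ⟨_, lin e t⟩
  by_cases hAA : A = A'
  · rw [if_pos hAA]
    refine le_trans ?_ (le_add_of_nonneg_right (by split_ifs <;> positivity))
    refine avm_le_of_le fun t h1 => avm_le_of_le fun u _ => (le_abs_self _).trans ?_
    rw [abs_mul, show K ^ 7 = K ^ 3 * K ^ 4 by ring]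
    exact mul_le_mul (abs_Y₀_le c hK (hm t h1).2.1 B u) (abs_Y_le c hK hΔ _ _ _ _)
      (abs_nonneg _) (by positivity)
  rw [if_neg hAA, zero_add]
  by_cases hBA : B ∣ A - A'
  swap
  · rw [if_neg hBA, zero_mul]
    refine avm_le_of_le fun t _ => avm_le_of_le fun u _ => le_of_eq ?_
    rw [Y, if_neg, mul_zero]
    intro hd'
    refine hBA ((cop_m gB hd').dvd_of_dvd_mul_right ?_)
    have := dvd_sub (dv e0 t) hd'
    rwa [add_sub_add_right_eq_sub, ← sub_mul] at this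
  rw [if_pos hBA, one_mul]
  by_cases hI : ∃ t, MD c.j t ∧ c.S.In (A' * (m₀ + C c.S.c⁻¹ * B * t))
  swap
  · refine avm_le_of_le fun t ht => avm_le_of_le fun u _ => le_trans (le_of_eq ?_) hO0
    rw [Y, Sh.χ, if_neg fun h => hI ⟨t, ht, h⟩, zero_mul, ite_self, mul_zero]
  obtain ⟨t₀, ht₀, hI₀⟩ := hI
  have hI : ∀ t, MD c.j t → c.S.In (A' * (m₀ + C c.S.c⁻¹ * B * t)) := fun t ht => by
    have h1 := hI₀.degree_sub _ (hm t₀ ht₀).2.1
    rw [← sub_mul, degree_mul, degree_eq_natDegree (hm t₀ ht₀).1.ne_zero, (hm t₀ ht₀).1.2,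
      ← (hm t ht).1.2, ← degree_eq_natDegree (hm t ht).1.ne_zero, ← degree_mul] at h1
    have h2 := (hm t ht).2.1.add _ h1
    rwa [← add_mul, add_sub_cancel] at h2
  obtain ⟨g', hg⟩ := hBA
  have e0' : B * (c₀ - C c.S.c * g' * m₀) = C c.S.c * (A' * m₀ + c.S.g) := by
    linear_combination e0 + (C c.S.c * m₀) * hg
  have eX' : ∀ t, c.S.Xc A' B (m₀ + C c.S.c⁻¹ * B * t) = A' * t + (c₀ - C c.S.c * g' * m₀) :=
    fun t => mul_left_cancel₀ hB.ne_zero (by rw [c.S.mul_Xc hB.ne_zero (dv e0' t), lin e0'])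
  obtain ⟨m₁, hm₁⟩ : ∃ m₁, ∀ t, (A + A') * (m₀ + C c.S.c⁻¹ * B * t) + c.S.g = 0 → t = m₁ := by
    by_cases h : ∃ t, (A + A') * (m₀ + C c.S.c⁻¹ * B * t) + c.S.g = 0
    · obtain ⟨t, ht⟩ := h
      refine ⟨t, fun t' ht' => ?_⟩
      have h1 : A + A' ≠ 0 := fun h => c.S.g_ne (by rwa [h, zero_mul, zero_add] at ht)
      have h2 : (A + A') * (B * (t' - t)) = 0 := by
        linear_combination C c.S.c * (ht' - ht) - ((A + A') * (B * (t' - t))) * hi
      exact sub_eq_zero.1 ((mul_eq_zero.1 ((mul_eq_zero.1 h2).resolve_left h1)).resolve_left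
        hB.ne_zero)
    · exact ⟨0, fun t ht => absurd ⟨t, ht⟩ h⟩
  have ex : ∀ (A t : k[X]), A * m₀ + A * C c.S.c⁻¹ * B * t = A * (m₀ + C c.S.c⁻¹ * B * t) :=
    fun A t => by ring
  have main := hO k c.toTw K (K ^ 2 * K ^ 2) sv c.j A c₀ A' (c₀ - C c.S.c * g' * m₀) m₁ _ hK hL hsv
    c.n1_le' hA sA (c.S.isCoprime_of_eq gA e0).1 (fun t ht => c.n₂_sub ▸ (hm t ht).2.2)
    hA' sA' (c.S.isCoprime_of_eq gA' e0').1
    (fun t ht => by
      have h1 := (hI t ht).MD₂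
      rw [lin e0'] at h1
      exact c.n₂_sub ▸ hB.of_mul_left h1)
    (fun t _ hne he => by
      refine hne (hm₁ t ?_)
      have h2 : C c.S.c * ((A - A') * ((A + A') * (m₀ + C c.S.c⁻¹ * B * t) + c.S.g)) = 0 := by
        linear_combination A * lin e0 t - A' * lin e0' t + B * he
      exact (mul_eq_zero.1 ((mul_eq_zero.1 h2).resolve_left (C_ne_zero.2 c.S.c_ne))).resolve_left
        (sub_ne_zero.2 hAA))
    (((c.S.perS hK (A * m₀) (A * C c.S.c⁻¹ * B) fun t ht => ex A t ▸ (hm t ht).2.1).mul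
      (c.S.perS hK (A' * m₀) (A' * C c.S.c⁻¹ * B) fun t ht => ex A' t ▸ hI t ht)).mono
      (by omega))
  have hx : qR k ^ (c.S.n₁ - c.S.n₀) ≤ K := by
    have := c.S.χ_le (A' * (m₀ + C c.S.c⁻¹ * B * t₀))
    rw [Sh.χ, if_pos hI₀] at this
    exact this.trans hΔ
  have fin := mul_le_mul hx main (abs_nonneg _) hK0
  rw [avm_comm]
  refine le_trans (le_trans (le_of_eq ?_) (mul_le_mul_of_nonneg_left (le_abs_self _)
    (qR_pow_pos _).le)) (fin.trans (le_of_eq (by ring)))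
  rw [← avm_mul_left]
  refine avm_congr fun u _ => ?_
  rw [← avm_mul_left]
  refine avm_congr fun t ht => ?_
  rw [Y, if_pos (dv e0' t), if_pos gA', Sh.χ, if_pos (hI t ht), Y₀, Y₀, eA, eA', Gt.l, Gt.l, eX,
    eX', ex, ex]
  ring

theorem sq_le (hP : StPar3) (hO : StOffg) (c : Gt k) {K sv : ℝ} (hK : KB2 k c.U c.τ K)
    (hΔ : qR k ^ c.S.Δ ≤ K) (hL : LineOK k c.U c.τ sv) (hsv : 0 ≤ sv) {w : ℕ}
    (hw : c.b₀ + w ≤ c.a) :
    c.E (fun A B m => c.S.ν (A * m) * mu m * mu (c.S.Xc A B m) *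
      avm c.nu fun u => c.W (c.l A B m u)) ^ 2 ≤
      K ^ 7 / qR k ^ w + K ^ 7 * (sv + 4 * K / c.Q) := by
  have hK0 : 0 ≤ K := by linarith [hK.ten_le]
  have hq := qR_pow_pos (k := k) c.b₀
  have e1 : c.E (fun A B m => c.S.ν (A * m) * mu m * mu (c.S.Xc A B m) *
      avm c.nu fun u => c.W (c.l A B m u)) = avm c.b₀ fun B => avm (c.S.n₁ - c.a) fun m =>
        avm c.nu fun u => mu m * sB c B * (qR k ^ c.b₀ * avm c.a fun A => Y c A B m u) := by
    unfold Gt.E Sh.E E3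
    rw [avm_comm, ← avm_mul_left]
    refine avm_congr fun B _ => ?_
    rw [avm_comm, ← avm_mul_left]
    refine avm_congr fun m _ => ?_
    rw [avm_mul_left, avm_mul_left, ← avm_comm, ← mul_assoc, mul_comm _ (qR k ^ c.b₀), mul_assoc,
      ← avm_mul_left (c := mu m * sB c B)]
    congr 1
    refine avm_congr fun A _ => ?_
    unfold Y Y₀ sB Sh.cop
    by_cases h1 : B ∣ A * m + c.S.g <;> by_cases h2 : IsCoprime A c.S.g <;>
      by_cases h3 : IsCoprime B c.S.g <;>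
      simp only [h1, h2, h3, if_true, if_false, and_true, and_false, avm_mul_left, avm_const,
        mul_zero, zero_mul]
    ring
  have e2 : ∀ B m u : k[X], (mu m * sB c B * (qR k ^ c.b₀ * avm c.a fun A => Y c A B m u)) ^ 2 ≤
      avm c.a fun A => avm c.a fun A' =>
        qR k ^ c.b₀ * (sB c B * (qR k ^ c.b₀ * (Y c A B m u * Y c A' B m u))) := by
    intro B m u
    simp only [avm_mul_left, avm_mul_right]
    have h1 : mu m ^ 2 ≤ 1 := by
      rw [mu_sq]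
      split_ifs <;> norm_num
    rcases sB_cases c B with h | h
    · simp [h]
    · rw [h.1, mul_one, one_mul, mul_pow]
      refine (mul_le_of_le_one_left (sq_nonneg _) h1).trans (le_of_eq ?_)
      ring
  have e3 : c.E (fun A B m => c.S.ν (A * m) * mu m * mu (c.S.Xc A B m) *
      avm c.nu fun u => c.W (c.l A B m u)) ^ 2 ≤ avm c.a fun A => avm c.a fun A' =>
        avm c.b₀ fun B => qR k ^ c.b₀ * (sB c B * (qR k ^ c.b₀ * avm (c.S.n₁ - c.a) fun m =>
          avm c.nu fun u => Y c A B m u * Y c A' B m u)) := by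
    rw [e1]
    refine (sq_avm_le.trans (avm_mono fun B _ => sq_avm_le.trans (avm_mono fun m _ =>
      sq_avm_le.trans (avm_mono fun u _ => e2 B m u)))).trans (le_of_eq ?_)
    simp only [← avm_mul_left]
    simp only [avm_comm c.nu c.a]
    simp only [avm_comm (c.S.n₁ - c.a) c.a]
    simp only [avm_comm c.b₀ c.a]
  refine e3.trans (avm_le_of_le fun A hA => ?_)
  refine (avm_mono fun A' hA' => avm_mono fun B hB => mul_le_mul_of_nonneg_left
    (pair_le hP hO c hK hΔ hL hsv hA hA' hB) hq.le).trans ?_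
  generalize K ^ 7 * (sv + 4 * K / c.Q) = O
  simp only [mul_add, avm_add, avm_const, avm_mul_left]
  refine add_le_add ?_ (le_of_eq ?_)
  · rw [TwA3.avm_eq_one hA, ← mul_div_assoc, div_le_div_iff₀ (qR_pow_pos _) (qR_pow_pos _),
      mul_comm _ (K ^ 7), mul_assoc, ← pow_add]
    exact mul_le_mul_of_nonneg_left (pow_le_pow_right₀ one_le_qR hw) (by positivity)
  · rw [avm_comm, avm_congr (G := fun _ => 1 / qR k ^ c.b₀ * O)
      fun B hB => by rw [avm_mul_right, TwA3.avm_dvd_sub hB (by omega)], avm_const]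
    field_simp

end GbA3

theorem stA3g (hR : StRedg) (hP : StPar3) (hU : StUseg) (hO : StOffg) : StA3g := by
  intro k _ _ _ c K sv w hK hΔ hL hsv hw
  have hK1 : 10 ≤ K := hK.ten_le
  have hK0 : 0 ≤ K := by linarith
  have hQ : 0 < c.Q := qR_pow_pos _
  have hq := qR_pow_pos (k := k) w
  have h0 : |c.S.T3 c.a c.b₀ - c.E fun A B m => c.S.ν (A * m) * mu m * mu (c.S.Xc A B m)| ≤
      K ^ 5 / c.Q := (hR k _ c.S K c.a c.b₀ hK (by have := c.ab_le'; omega)).2.2.1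
  have h1 := hU k c K (K ^ 2) (fun A _ m => c.S.ν (A * m) * mu m) hK hΔ (by positivity)
    fun A B m hm => by
      rw [abs_mul, abs_of_nonneg (c.S.ν_nonneg _)]
      exact (mul_le_of_le_one_right (c.S.ν_nonneg _) (abs_mu_le m)).trans (c.S.ν_le hK hm)
  have h2 := GbA3.sq_le hP hO c hK hΔ hL hsv hw
  generalize c.E (fun A B m => c.S.ν (A * m) * mu m * mu (c.S.Xc A B m) *
      avm c.nu fun u => c.W (c.l A B m u)) = y at h1 h2
  generalize c.E (fun A B m => c.S.ν (A * m) * mu m * mu (c.S.Xc A B m)) = x at h0 h1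
  have s1 : 0 < √c.Q := Real.sqrt_pos.2 hQ
  have s2 : 0 < √(qR k ^ w) := Real.sqrt_pos.2 hq
  have s3 : 0 ≤ √sv := Real.sqrt_nonneg _
  have h3 : |y| ≤ K ^ 5 * (1 / √c.Q + √sv + 1 / √(qR k ^ w)) := by
    refine abs_le_of_sq_le_sq' (h2.trans ?_) (by positivity) |> abs_le.2
    have t1 : (1 / √c.Q) ^ 2 = 1 / c.Q := by rw [div_pow, Real.sq_sqrt hQ.le, one_pow]
    have t2 : (1 / √(qR k ^ w)) ^ 2 = 1 / qR k ^ w := by rw [div_pow, Real.sq_sqrt hq.le, one_pow]
    have t3 : √sv ^ 2 = sv := Real.sq_sqrt hsv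
    have t4 : 1 / c.Q + sv + 1 / qR k ^ w ≤ (1 / √c.Q + √sv + 1 / √(qR k ^ w)) ^ 2 := by
      rw [← t1, ← t2]
      nth_rewrite 1 [← t3]
      have u1 : 0 ≤ 1 / √c.Q := by positivity
      have u2 : 0 ≤ 1 / √(qR k ^ w) := by positivity
      nlinarith [mul_nonneg u1 u2, mul_nonneg u1 s3, mul_nonneg u2 s3]
    rw [mul_pow, ← pow_mul]
    refine le_trans ?_ (mul_le_mul_of_nonneg_left t4 (by positivity))
    have v1 : K ^ 7 ≤ K ^ (5 * 2) := pow_le_pow_right₀ (by linarith) (by norm_num)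
    have v0 : K ^ 9 ≤ K ^ (5 * 2) := pow_le_pow_right₀ (by linarith) (by norm_num)
    have v2 : K ^ 7 * (4 * K) ≤ K ^ (5 * 2) := by
      refine le_trans ?_ v0
      rw [show K ^ 9 = K ^ 7 * (K * K) by ring]
      exact mul_le_mul_of_nonneg_left (by nlinarith) (by positivity)
    have v3 := mul_le_mul_of_nonneg_right v1 hsv
    have v4 := mul_le_mul_of_nonneg_right v1 (one_div_pos.2 hq).le
    have v5 := mul_le_mul_of_nonneg_right v2 (one_div_pos.2 hQ).le
    calc _ = K ^ 7 * (4 * K) * (1 / c.Q) + K ^ 7 * sv + K ^ 7 * (1 / qR k ^ w) := by ring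
      _ ≤ _ := by
        rw [mul_add, mul_add]
        exact add_le_add (add_le_add v5 v3) v4
  have h7 : K ^ 5 / c.Q ≤ K ^ 5 * (1 / √c.Q) := by
    rw [mul_one_div]
    refine div_le_div_of_nonneg_left (by positivity) s1 ?_
    have := c.two_le_Q
    exact Real.sqrt_le_iff.2 ⟨hQ.le, by nlinarith⟩
  have h4 : 4 * K ^ 2 * K ^ 3 / √c.Q = 4 * (K ^ 5 * (1 / √c.Q)) := by ring
  have h5 : 0 ≤ K ^ 5 * (√sv + 1 / √(qR k ^ w)) := by positivity
  have h8 : 0 ≤ K ^ 5 * (1 / √c.Q) := by positivity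
  have h6 := abs_sub_abs_le_abs_sub x y
  have h9 := abs_sub_abs_le_abs_sub (c.S.T3 c.a c.b₀) x
  linarith

end Pool.Agent.Lib.MP_9227d9_nt.Mob
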