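import Pool.Agent.Lib.MP_9227d9_nt.TwA

/-! The estimate for fixed parameters: splitting into zones. -/

namespace Pool.Agent.Lib.MP_9227d9_nt.Mob

open Polynomial

open scoped Classical

namespace TwCore

variable {k : Type} [Field k] [Fintype k] [CharP k 2]

/-- The cut between the zones. -/
def y0 (P : Par k) : ℕ := P.n / 2 + 10 * P.κ

/-- The first factor. -/
noncomputable def f1 (P : Par k) (d e : ℕ) : k[X] → ℝ :=
  if (d ≤ y0 P ∧ e ≤ y0 P) ∨ (y0 P < e ∧ 2 * d ≤ P.n) then aS P.z d else bS P.z (P.n - d)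

/-- The second factor. -/
noncomputable def f2 (P : Par k) (d e : ℕ) : k[X] → ℝ :=
  if (d ≤ y0 P ∧ e ≤ y0 P) ∨ (y0 P < d ∧ 2 * e ≤ P.n) then aS P.z e else bS P.z (P.n - e)

/-- One term. -/
noncomputable def tm (P : Par k) (d e : ℕ) : ℝ :=
  avm P.n fun F => nu2 P.h P.y P.z F * f1 P d e F * f2 P d e (F + P.h)

/-- The main part of one variable. -/
noncomputable def gm (P : Par k) (d : ℕ) : ℝ := if d ≤ y0 P then mm k P.z d else 0

/-- The indicator of the diagonal. -/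
noncomputable def dg (w d e : ℕ) : ℝ := if d < e + w ∧ e < d + w then 1 else 0

omit [CharP k 2] in
theorem kappa_eq (P : Par k) : 480 * (P.s * P.τ) = 20 * P.κ := by
  rw [Par.κ]; ring

omit [CharP k 2] in
theorem h_lt (P : Par k) : P.h.natDegree < P.n := by
  have h1 := P.h_deg
  have h2 := P.τ_le
  have h3 := P.κ_le
  have h4 := P.τ_pos
  omega

theorem swap (P : Par k) (f g : k[X] → ℝ) :
    (avm P.n fun F => P.ν F * f F * g (F + P.h)) =
      avm P.n fun F => P.ν F * g F * f (F + P.h) := by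
  have hd : P.h.degree < P.n := degree_lt_of_natDegree fun _ => h_lt P
  rw [← avm_shift (F := fun F => P.ν F * g F * f (F + P.h)) hd]
  refine avm_congr fun F _ => ?_
  have e : F + P.h + P.h = F := by
    rw [add_assoc, CharTwo.add_self_eq_zero, add_zero]
  simp only [Par.ν]
  rw [nu2_shift, e]
  ring

theorem T3_symm (P : Par k) (a b : ℕ) : P.T3 a b = P.T3 b a := swap P _ _

theorem dg_nonneg (w d e : ℕ) : 0 ≤ dg w d e := by
  unfold dg
  split_ifs <;> norm_num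

theorem sum_dg (w d N : ℕ) : ∑ e ∈ Finset.range N, dg w d e ≤ 2 * w + 1 := by
  have h1 : ∑ e ∈ Finset.range N, dg w d e =
      (((Finset.range N).filter fun e => d < e + w ∧ e < d + w).card : ℝ) := by
    rw [Finset.card_filter]
    push_cast
    rfl
  have h2 : ((Finset.range N).filter fun e => d < e + w ∧ e < d + w) ⊆
      Finset.Ico (d - w) (d + w) := by
    intro e he
    have := (Finset.mem_filter.1 he).2
    rw [Finset.mem_Ico]
    omega
  have h3 := Finset.card_le_card h2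
  rw [Nat.card_Ico] at h3
  have h4 : ((Finset.range N).filter fun e => d < e + w ∧ e < d + w).card ≤ 2 * w + 1 := by
    omega
  rw [h1]
  exact_mod_cast h4

omit [CharP k 2] in
theorem MM_eq (P : Par k) : MM k P.z (y0 P) P.n =
    ∑ d ∈ Finset.range (P.n + 1), ((P.n : ℝ) - d) * gm P d := by
  have h3 := P.κ_le
  have hs : Finset.range (y0 P + 1) ⊆ Finset.range (P.n + 1) := by
    intro d hd
    rw [Finset.mem_range] at hd ⊢
    unfold y0 at hd
    omega
  rw [MM, ← Finset.sum_subset hs]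
  · refine Finset.sum_congr rfl fun d hd => ?_
    rw [Finset.mem_range] at hd
    rw [gm, if_pos (by omega)]
  · intro d _ hd
    rw [Finset.mem_range] at hd
    rw [gm, if_neg (by omega), mul_zero]

section Zones

variable (hTK : StTK) (hI : StIex) (h2 : StA2') (h3 : StA3') (hD : StDiag)
  {P : Par k} {K sv : ℝ} {w : ℕ} (hK : KB2 k P.U P.τ K) (hL : LineOK k P.U P.τ sv)
  (h0 : 0 ≤ sv) (h1 : sv ≤ 1)

include hI h2 hK hL h0 h1 in
theorem zone2 {a b : ℕ} (ha : 2 * a ≤ P.n) (hb : 2 * b + 20 * P.κ ≤ P.n) :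
    |P.T2 a b| ≤ 11 * K ^ 4 * (1 / √P.Q + √sv + 1 / √(qR k ^ w)) := by
  obtain ⟨c, hc, hca, hcb⟩ := hI k P a b ha (by rw [kappa_eq]; exact hb)
  subst hc
  have h := h2 k c K sv hK hL h0
  rw [hca, hcb] at h
  refine h.trans ?_
  have e1 : sv ≤ √sv := by
    refine Real.le_sqrt_of_sq_le ?_
    nlinarith
  have e2 : 0 ≤ 1 / √(qR k ^ w) := by positivity
  have e3 : 0 ≤ 1 / √c.Q := by positivity
  have e4 : 0 ≤ K ^ 4 := by positivity
  have e5 : 0 ≤ √sv := Real.sqrt_nonneg _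
  have e6 : 5 * (1 / √c.Q + sv) ≤ 11 * (1 / √c.Q + √sv + 1 / √(qR k ^ w)) := by linarith
  calc 5 * K ^ 4 * (1 / √c.Q + sv) = K ^ 4 * (5 * (1 / √c.Q + sv)) := by ring
    _ ≤ K ^ 4 * (11 * (1 / √c.Q + √sv + 1 / √(qR k ^ w))) := mul_le_mul_of_nonneg_left e6 e4
    _ = _ := by ring

include hI h3 hK hL h0 in
theorem zone3 {a b : ℕ} (ha : 2 * a ≤ P.n) (hb : 2 * b + 20 * P.κ ≤ P.n) (hw : b + w ≤ a) :
    |P.T3 a b| ≤ 11 * K ^ 4 * (1 / √P.Q + √sv + 1 / √(qR k ^ w)) := by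
  obtain ⟨c, hc, hca, hcb⟩ := hI k P a b ha (by rw [kappa_eq]; exact hb)
  subst hc
  have h := h3 k c K sv w hK hL h0 (by rw [hca, hcb]; exact hw)
  rw [hca, hcb] at h
  refine h.trans ?_
  have e2 : 0 ≤ K ^ 4 * (1 / √c.Q + √sv + 1 / √(qR k ^ w)) := by positivity
  nlinarith

include hTK hK in
theorem zone1 {d e : ℕ} (hd : d ≤ y0 P) (he : e ≤ y0 P) :
    |P.TK d e - mm k P.z d * mm k P.z e / P.G| ≤
      11 * K ^ 4 * (1 / √P.Q + √sv + 1 / √(qR k ^ w)) := by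
  unfold y0 at hd he
  refine (hTK k P K d e hK (by omega) (by omega)).trans ?_
  have hQ := P.two_le_Q
  have e1 : √P.Q ≤ P.Q := by
    rw [Real.sqrt_le_left (by linarith)]
    nlinarith
  have e0 : 0 < √P.Q := Real.sqrt_pos.2 (by linarith)
  have e2 : 1 / P.Q ≤ 1 / √P.Q := one_div_le_one_div_of_le e0 e1
  have e3 : 0 ≤ 1 / √(qR k ^ w) := by positivity
  have e5 : 0 ≤ √sv := Real.sqrt_nonneg _
  have e4 : 0 ≤ 11 * K ^ 4 := by positivity
  rw [div_eq_mul_one_div]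
  exact mul_le_mul_of_nonneg_left (by linarith) e4

include hTK hI h2 h3 hD hK hL h0 h1 in
theorem zone {d e : ℕ} (hd : d < P.n) (he : e < P.n) :
    |tm P d e - gm P d * gm P e / P.G| ≤
      11 * K ^ 4 * (1 / √P.Q + √sv + 1 / √(qR k ^ w)) + dg w d e / ((P.z : ℝ) ^ 2 * P.G) := by
  have hG := P.one_le_G
  have hκ := P.κ_le
  have hdg : 0 ≤ dg w d e / ((P.z : ℝ) ^ 2 * P.G) :=
    div_nonneg (dg_nonneg _ _ _) (by positivity)
  have hy : y0 P = P.n / 2 + 10 * P.κ := rfl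
  by_cases c1 : d ≤ y0 P ∧ e ≤ y0 P
  · have e1 : tm P d e = P.TK d e := by
      rw [tm, f1, f2, if_pos (Or.inl c1), if_pos (Or.inl c1)]
      rfl
    rw [e1, gm, gm, if_pos c1.1, if_pos c1.2]
    exact (zone1 hTK hK c1.1 c1.2).trans (le_add_of_nonneg_right hdg)
  · have e0 : gm P d * gm P e / P.G = 0 := by
      by_cases c : d ≤ y0 P
      · rw [gm, gm, if_neg (c := e ≤ y0 P) fun c' => c1 ⟨c, c'⟩, mul_zero, zero_div]
      · rw [gm, if_neg c, zero_mul, zero_div]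
    rw [e0, sub_zero]
    by_cases c2 : y0 P < e ∧ 2 * d ≤ P.n
    · have e1 : tm P d e = P.T2 d (P.n - e) := by
        rw [tm, f1, f2, if_pos (Or.inr c2), if_neg (by omega)]
        rfl
      rw [e1]
      exact (zone2 hI h2 hK hL h0 h1 c2.2 (by omega)).trans (le_add_of_nonneg_right hdg)
    · by_cases c3 : y0 P < d ∧ 2 * e ≤ P.n
      · have e1 : tm P d e = P.T2 e (P.n - d) := by
          rw [tm, f1, f2, if_neg (by omega), if_pos (Or.inr c3)]
          exact swap P _ _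
        rw [e1]
        exact (zone2 hI h2 hK hL h0 h1 c3.2 (by omega)).trans (le_add_of_nonneg_right hdg)
      · have e1 : tm P d e = P.T3 (P.n - d) (P.n - e) := by
          rw [tm, f1, f2, if_neg (by omega), if_neg (by omega)]
          rfl
        rw [e1]
        by_cases c4 : d + w ≤ e
        · exact (zone3 hI h3 hK hL h0 (by omega) (by omega) (by omega)).trans
            (le_add_of_nonneg_right hdg)
        · by_cases c5 : e + w ≤ d
          · rw [T3_symm]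
            exact (zone3 hI h3 hK hL h0 (by omega) (by omega) (by omega)).trans
              (le_add_of_nonneg_right hdg)
          · rw [dg, if_pos ⟨by omega, by omega⟩]
            refine (hD k P _ _ (by omega) (by omega) (by omega)).trans ?_
            refine le_add_of_nonneg_left ?_
            positivity

include hTK hI h2 h3 hD hK hL h0 h1 in
theorem zone_w {d e : ℕ} (hd : d < P.n + 1) (he : e < P.n + 1) :
    |((P.n : ℝ) - d) * ((P.n : ℝ) - e) * tm P d e -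
        ((P.n : ℝ) - d) * gm P d * (((P.n : ℝ) - e) * gm P e) / P.G| ≤
      (P.n : ℝ) ^ 2 * (11 * K ^ 4 * (1 / √P.Q + √sv + 1 / √(qR k ^ w)) +
        dg w d e / ((P.z : ℝ) ^ 2 * P.G)) := by
  have hG := P.one_le_G
  have hdg : 0 ≤ dg w d e / ((P.z : ℝ) ^ 2 * P.G) :=
    div_nonneg (dg_nonneg _ _ _) (by positivity)
  have hB : 0 ≤ 11 * K ^ 4 * (1 / √P.Q + √sv + 1 / √(qR k ^ w)) +
      dg w d e / ((P.z : ℝ) ^ 2 * P.G) := by positivity
  have e1 : ((P.n : ℝ) - d) * ((P.n : ℝ) - e) * tm P d e -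
      ((P.n : ℝ) - d) * gm P d * (((P.n : ℝ) - e) * gm P e) / P.G =
      ((P.n : ℝ) - d) * ((P.n : ℝ) - e) * (tm P d e - gm P d * gm P e / P.G) := by ring
  rw [e1]
  by_cases c1 : d = P.n
  · rw [c1, sub_self, zero_mul, zero_mul, abs_zero]
    rw [c1] at hB
    positivity
  by_cases c2 : e = P.n
  · rw [c2, sub_self, mul_zero, zero_mul, abs_zero]
    rw [c2] at hB
    positivity
  have a1 : (d : ℝ) ≤ P.n := by exact_mod_cast Nat.lt_succ_iff.1 hd
  have a2 : (e : ℝ) ≤ P.n := by exact_mod_cast Nat.lt_succ_iff.1 he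
  have a3 : (0 : ℝ) ≤ d := Nat.cast_nonneg _
  have a4 : (0 : ℝ) ≤ e := Nat.cast_nonneg _
  have a5 : 0 ≤ ((P.n : ℝ) - d) * ((P.n : ℝ) - e) := mul_nonneg (by linarith) (by linarith)
  have a6 : ((P.n : ℝ) - d) * ((P.n : ℝ) - e) ≤ (P.n : ℝ) ^ 2 := by
    rw [sq]
    exact mul_le_mul (by linarith) (by linarith) (by linarith) (by linarith)
  rw [abs_mul, abs_of_nonneg a5]
  exact mul_le_mul a6 (zone hTK hI h2 h3 hD hK hL h0 h1 (by omega) (by omega)) (abs_nonneg _)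
    (by positivity)

include hTK hI h2 h3 hD hK hL h0 h1 in
theorem zone_sum :
    |∑ d ∈ Finset.range (P.n + 1), ∑ e ∈ Finset.range (P.n + 1),
        ((P.n : ℝ) - d) * ((P.n : ℝ) - e) * tm P d e - MM k P.z (y0 P) P.n ^ 2 / P.G| ≤
      (P.n : ℝ) ^ 2 * (P.n + 1) * (2 * w + 1) / ((P.z : ℝ) ^ 2 * P.G) +
        11 * K ^ 8 * (1 / √P.Q + √sv + 1 / √(qR k ^ w)) := by
  have hG := P.one_le_G
  set E : ℝ := 1 / √P.Q + √sv + 1 / √(qR k ^ w) with hE
  have hE0 : 0 ≤ E := by positivity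
  set Z : ℝ := (P.z : ℝ) ^ 2 * P.G with hZ
  have hZ0 : 0 ≤ Z := by positivity
  have hn0 : (0 : ℝ) ≤ P.n := Nat.cast_nonneg _
  have hnK := P.n_le_K hK
  rw [MM_eq, sq, Finset.sum_mul_sum, Finset.sum_div, ← Finset.sum_sub_distrib]
  have hrow : ∀ d ∈ Finset.range (P.n + 1),
      |∑ e ∈ Finset.range (P.n + 1), ((P.n : ℝ) - d) * ((P.n : ℝ) - e) * tm P d e -
        (∑ e ∈ Finset.range (P.n + 1),
          ((P.n : ℝ) - d) * gm P d * (((P.n : ℝ) - e) * gm P e)) / P.G| ≤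
      (P.n : ℝ) ^ 2 * ((P.n + 1) * (11 * K ^ 4 * E) + (2 * w + 1) / Z) := by
    intro d hd
    rw [Finset.sum_div, ← Finset.sum_sub_distrib]
    refine (Finset.abs_sum_le_sum_abs _ _).trans ?_
    refine (Finset.sum_le_sum fun e he => zone_w (w := w) hTK hI h2 h3 hD hK hL h0 h1
      (Finset.mem_range.1 hd) (Finset.mem_range.1 he)).trans ?_
    rw [← Finset.mul_sum, Finset.sum_add_distrib, Finset.sum_const, Finset.card_range,
      ← Finset.sum_div, nsmul_eq_mul]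
    push_cast
    refine mul_le_mul_of_nonneg_left ?_ (by positivity)
    exact add_le_add le_rfl (div_le_div_of_nonneg_right (sum_dg _ _ _) hZ0)
  refine (Finset.abs_sum_le_sum_abs _ _).trans ?_
  refine (Finset.sum_le_sum hrow).trans ?_
  rw [Finset.sum_const, Finset.card_range, nsmul_eq_mul]
  push_cast
  have b1 : (P.n : ℝ) + 1 ≤ K := by linarith
  have b2 : (P.n : ℝ) ≤ K := by linarith
  have b3 : ((P.n : ℝ) + 1) ^ 2 * (P.n : ℝ) ^ 2 ≤ K ^ 2 * K ^ 2 :=
    mul_le_mul (pow_le_pow_left₀ (by linarith) b1 2) (pow_le_pow_left₀ hn0 b2 2)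
      (by positivity) (by positivity)
  have b4 : 0 ≤ 11 * K ^ 4 * E := by positivity
  have b5 := mul_le_mul_of_nonneg_right b3 b4
  calc ((P.n : ℝ) + 1) * ((P.n : ℝ) ^ 2 * ((P.n + 1) * (11 * K ^ 4 * E) + (2 * w + 1) / Z))
      = (P.n : ℝ) ^ 2 * (P.n + 1) * (2 * w + 1) / Z +
        ((P.n : ℝ) + 1) ^ 2 * (P.n : ℝ) ^ 2 * (11 * K ^ 4 * E) := by ring
    _ ≤ (P.n : ℝ) ^ 2 * (P.n + 1) * (2 * w + 1) / Z + K ^ 2 * K ^ 2 * (11 * K ^ 4 * E) := by
        linarith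
    _ = _ := by ring

end Zones

omit [CharP k 2] in
theorem tail {P : Par k} {K : ℝ} (hK : KB2 k P.U P.τ K) :
    (P.n : ℝ) ^ 2 * 4 ^ (P.n / P.z + 1) * (2 / qR k ^ (P.z - 1)) ≤ K ^ 8 * (1 / √P.Q) := by
  have hn0 : (0 : ℝ) ≤ P.n := Nat.cast_nonneg _
  have hnK := P.n_le_K hK
  have h10 := hK.ten_le
  have hQ := P.two_le_Q
  have a1 : (4 : ℝ) ^ (P.n / P.z + 1) ≤ 4 * K ^ 2 := by
    have := P.two_pow_le_K hK (le_refl P.n)
    have e : (4 : ℝ) ^ (P.n / P.z + 1) = 4 * (2 ^ (P.n / P.z)) ^ 2 := by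
      rw [pow_succ, ← pow_mul, mul_comm (P.n / P.z) 2, pow_mul]
      norm_num [mul_comm]
    rw [e]
    exact mul_le_mul_of_nonneg_left (pow_le_pow_left₀ (by positivity) this 2) (by norm_num)
  have a2 : (P.n : ℝ) ^ 2 ≤ K ^ 2 := pow_le_pow_left₀ hn0 (by linarith) 2
  have e1 : √P.Q ≤ P.Q := by
    rw [Real.sqrt_le_left (by linarith)]
    nlinarith
  have e0 : 0 < √P.Q := Real.sqrt_pos.2 (by linarith)
  have e2 : P.Q ≤ qR k ^ (P.z - 1) := by
    have := P.τ_pos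
    refine pow_le_pow_right₀ one_le_qR ?_
    rw [Par.z]
    omega
  have a3 : 2 / qR k ^ (P.z - 1) ≤ 2 * (1 / √P.Q) := by
    rw [div_eq_mul_one_div]
    exact mul_le_mul_of_nonneg_left (one_div_le_one_div_of_le e0 (e1.trans e2)) (by norm_num)
  have hq : (0 : ℝ) < qR k ^ (P.z - 1) := qR_pow_pos _
  have a4 : (P.n : ℝ) ^ 2 * 4 ^ (P.n / P.z + 1) ≤ K ^ 2 * (4 * K ^ 2) :=
    mul_le_mul a2 a1 (by positivity) (by positivity)
  have a5 : 8 * K ^ 4 ≤ K ^ 8 := by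
    have b1 : (8 : ℝ) ≤ K ^ 4 := by
      have : (10 : ℝ) ^ 4 ≤ K ^ 4 := pow_le_pow_left₀ (by norm_num) h10 4
      linarith
    have b2 : 0 ≤ K ^ 4 := by positivity
    calc 8 * K ^ 4 ≤ K ^ 4 * K ^ 4 := mul_le_mul_of_nonneg_right b1 b2
      _ = K ^ 8 := by ring
  calc (P.n : ℝ) ^ 2 * 4 ^ (P.n / P.z + 1) * (2 / qR k ^ (P.z - 1))
      ≤ K ^ 2 * (4 * K ^ 2) * (2 * (1 / √P.Q)) :=
        mul_le_mul a4 a3 (by positivity) (by positivity)
    _ = 8 * K ^ 4 * (1 / √P.Q) := by ring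
    _ ≤ K ^ 8 * (1 / √P.Q) := mul_le_mul_of_nonneg_right a5 (by positivity)

end TwCore

open TwCore in
theorem stCore2 (hR : StRep) (hDe : StDe) (hTK : StTK) (hI : StIex) (h2 : StA2') (h3 : StA3')
    (hD : StDiag) : StCore2 := by
  intro k _ _ _ P K sv w hK hL h0 h1
  have hτ := P.τ_pos
  have hs := P.s_ge
  have hn := P.n_ge
  have hz : P.z = 12 * P.τ := rfl
  have hsτ : P.τ ≤ P.s * P.τ := Nat.le_mul_of_pos_left _ (by omega)
  have r1 := hR k P.h P.y P.z P.n (f1 P) (f2 P) P.adm (by omega) (by omega) (h_lt P)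
    (fun d e => by
      unfold f1
      split_ifs
      · exact Or.inl rfl
      · exact Or.inr rfl)
    (fun d e => by
      unfold f2
      split_ifs
      · exact Or.inl rfl
      · exact Or.inr rfl)
  have r2 : avm P.n (De P.h P.y P.z) ≤ eps P.s / P.G := by
    refine (hDe k P.h P.s P.z P.n P.adm (by omega) hs ?_).1
    have e : (2 * P.s + 1) * P.z = 24 * (P.s * P.τ) + 12 * P.τ := by rw [hz]; ring
    omega
  have r3 := zone_sum (w := w) hTK hI h2 h3 hD hK hL h0 h1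
  have r4 := tail hK
  have r5 : (P.n : ℝ) ^ 2 * 4 ^ (P.n / P.z + 1) * avm P.n (De P.h P.y P.z) ≤
      (P.n : ℝ) ^ 2 * 4 ^ (P.n / P.z + 1) * eps P.s / P.G := by
    rw [mul_div_assoc]
    exact mul_le_mul_of_nonneg_left r2 (by positivity)
  have a1 : 0 ≤ K ^ 8 * (1 / √P.Q) := by positivity
  have a2 : 0 ≤ K ^ 8 * √sv := by positivity
  have a3 : 0 ≤ K ^ 8 * (1 / √(qR k ^ w)) := by positivity
  refine (abs_sub_le _ (∑ d ∈ Finset.range (P.n + 1), ∑ e ∈ Finset.range (P.n + 1),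
    ((P.n : ℝ) - d) * ((P.n : ℝ) - e) * tm P d e) _).trans ?_
  have r6 := add_le_add r1 r3
  refine r6.trans ?_
  rw [mul_add]
  nlinarith

end Pool.Agent.Lib.MP_9227d9_nt.Mob
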