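import Pool.Agent.Lib.MP_9227d9_nt.GbA
import Pool.Agent.Lib.MP_9227d9_nt.TwCore

/-! The estimate for fixed parameters, uniformly in the shift: splitting into zones. -/

namespace Pool.Agent.Lib.MP_9227d9_nt.Mob

open Polynomial

open scoped Classical

namespace GbCore

open TwCore

variable {k : Type} [Field k] [Fintype k] [CharP k 2] {P : Par k}

/-- The first factor. -/
noncomputable def g1 (S : Sh P) (d e : ℕ) : k[X] → ℝ :=
  if (d ≤ y0 P ∧ e ≤ y0 P) ∨ (y0 P < e ∧ 2 * d ≤ P.n) then aS P.z d else bS P.z (S.n₁ - d)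

/-- The second factor. -/
noncomputable def g2 (S : Sh P) (d e : ℕ) : k[X] → ℝ :=
  if (d ≤ y0 P ∧ e ≤ y0 P) ∨ (y0 P < d ∧ 2 * e ≤ P.n) then aS P.z e else bS P.z (S.n₂ - e)

/-- One term. -/
noncomputable def tg (S : Sh P) (d e : ℕ) : ℝ :=
  S.av fun F => S.ν F * g1 S d e F * g2 S d e (F + S.g)

omit [CharP k 2] in
theorem MM_eq' (P : Par k) {m : ℕ} (hm : y0 P ≤ m) : MM k P.z (y0 P) m =
    ∑ d ∈ Finset.range (m + 1), ((m : ℝ) - d) * gm P d := by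
  have hs : Finset.range (y0 P + 1) ⊆ Finset.range (m + 1) := by
    intro d hd
    rw [Finset.mem_range] at hd ⊢
    omega
  rw [MM, ← Finset.sum_subset hs]
  · refine Finset.sum_congr rfl fun d hd => ?_
    rw [Finset.mem_range] at hd
    rw [gm, if_pos (by omega)]
  · intro d _ hd
    rw [Finset.mem_range] at hd
    rw [gm, if_neg (by omega), mul_zero]

omit [CharP k 2] in
theorem inv_Q_le (P : Par k) : 1 / P.Q ≤ 1 / √P.Q := by
  have hQ := P.two_le_Q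
  have e1 : √P.Q ≤ P.Q := by
    rw [Real.sqrt_le_left (by linarith)]
    nlinarith
  exact one_div_le_one_div_of_le (Real.sqrt_pos.2 (by linarith)) e1

section Zones

variable (hTK : StTKg) (hI : StIex) (h2 : StA2g) (h3 : StA3g) (hD : StDiagg)
  {S : Sh P} {K sv : ℝ} {w : ℕ} (hK : KB2 k P.U P.τ K) (hΔ : qR k ^ S.Δ ≤ K)
  (hL : LineOK k P.U P.τ sv) (h0 : 0 ≤ sv) (h1 : sv ≤ 1) (hn : S.n₁ = S.n₀)

include hI h2 hK hΔ hL h0 h1 in
theorem zone2 {a b b₀ : ℕ} (ha : 2 * a ≤ P.n) (hb : 2 * b + 20 * P.κ ≤ P.n)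
    (hb₀ : b₀ + P.n = b + S.n₂) :
    |S.T2 a b₀| ≤ 7 * K ^ 5 * (1 / √P.Q + √sv + 1 / √(qR k ^ w)) := by
  obtain ⟨c, hc, hca, hcb⟩ := hI k P a b ha (by rw [kappa_eq]; exact hb)
  subst hc hca hcb
  refine (h2 k ⟨c, S, b₀, hb₀⟩ K sv hK hΔ hL h0).trans ?_
  have e1 : sv ≤ √sv := by
    refine Real.le_sqrt_of_sq_le ?_
    nlinarith
  have e2 : 0 ≤ 1 / √(qR k ^ w) := by positivity
  have e4 : 0 ≤ K := le_trans (by norm_num) hK.ten_le
  exact mul_le_mul_of_nonneg_left (by linarith) (by positivity)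

include hI h3 hK hΔ hL h0 in
theorem zone3 {a b b₀ : ℕ} (ha : 2 * a ≤ P.n) (hb : 2 * b + 20 * P.κ ≤ P.n)
    (hb₀ : b₀ + P.n = b + S.n₂) (hw : b₀ + w ≤ a) :
    |S.T3 a b₀| ≤ 7 * K ^ 5 * (1 / √P.Q + √sv + 1 / √(qR k ^ w)) := by
  obtain ⟨c, hc, hca, hcb⟩ := hI k P a b ha (by rw [kappa_eq]; exact hb)
  subst hc hca hcb
  exact h3 k ⟨c, S, b₀, hb₀⟩ K sv w hK hΔ hL h0 hw

omit [CharP k 2] in
include hK in
theorem small : 7 * K ^ 5 / P.Q ≤ 7 * K ^ 5 * (1 / √P.Q + √sv + 1 / √(qR k ^ w)) := by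
  have e2 := inv_Q_le P
  have e3 : 0 ≤ 1 / √(qR k ^ w) := by positivity
  have e5 : 0 ≤ √sv := Real.sqrt_nonneg _
  have e4 : 0 ≤ K := le_trans (by norm_num) hK.ten_le
  rw [div_eq_mul_one_div]
  exact mul_le_mul_of_nonneg_left (by linarith) (by positivity)

include hTK hI h2 h3 hD hK hΔ hL h0 h1 hn in
theorem zone {d e : ℕ} (hd : d < S.n₁) (he : e < S.n₂) :
    |tg S d e - gm P d * gm P e / S.G| ≤
      7 * K ^ 5 * (1 / √P.Q + √sv + 1 / √(qR k ^ w)) +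
        dg (w + S.Δ) d e / ((P.z : ℝ) ^ 2 * S.G) := by
  have hG := S.one_le_G
  have hκ := P.κ_le
  have hτ := P.τ_le
  have a1 := S.Δ_le
  have a2 := S.n₁_ge
  have a3 := S.n₁_le
  have a4 := S.n₂_ge
  have a5 := S.n₂_le
  have a6 := S.n₀_add
  have hdg : 0 ≤ dg (w + S.Δ) d e / ((P.z : ℝ) ^ 2 * S.G) :=
    div_nonneg (dg_nonneg _ _ _) (by positivity)
  have hy : y0 P = P.n / 2 + 10 * P.κ := rfl
  by_cases c1 : d ≤ y0 P ∧ e ≤ y0 P
  · have e1 : tg S d e = S.TK d e := by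
      rw [tg, g1, g2, if_pos (Or.inl c1), if_pos (Or.inl c1)]
      rfl
    rw [e1, gm, gm, if_pos c1.1, if_pos c1.2]
    exact ((hTK k P S K d e hK hn (by omega) (by omega)).trans (small hK)).trans
      (le_add_of_nonneg_right hdg)
  · have e0 : gm P d * gm P e / S.G = 0 := by
      by_cases c : d ≤ y0 P
      · rw [gm, gm, if_neg (c := e ≤ y0 P) fun c' => c1 ⟨c, c'⟩, mul_zero, zero_div]
      · rw [gm, if_neg c, zero_mul, zero_div]
    rw [e0, sub_zero]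
    by_cases c2 : y0 P < e ∧ 2 * d ≤ P.n
    · have e1 : tg S d e = S.T2 d (S.n₂ - e) := by
        rw [tg, g1, g2, if_pos (Or.inr c2), if_neg (by omega)]
        rfl
      rw [e1]
      exact (zone2 hI h2 hK hΔ hL h0 h1 (b := P.n - e) c2.2 (by omega) (by omega)).trans
        (le_add_of_nonneg_right hdg)
    · by_cases c3 : y0 P < d ∧ 2 * e ≤ P.n
      · have e1 : tg S d e = S.swap.T2 e (S.n₁ - d) := by
          rw [tg, g1, g2, if_neg (by omega), if_pos (Or.inr c3)]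
          exact S.T2_swap _ _
        rw [e1]
        exact (zone2 hI h2 (S := S.swap) hK hΔ hL h0 h1 (b := P.n - d) c3.2 (by omega)
          (by rw [Sh.swap_n₂]; omega)).trans (le_add_of_nonneg_right hdg)
      · have e1 : tg S d e = S.T3 (S.n₁ - d) (S.n₂ - e) := by
          rw [tg, g1, g2, if_neg (by omega), if_neg (by omega)]
          rfl
        rw [e1]
        by_cases c4 : d + w + S.Δ ≤ e
        · exact (zone3 hI h3 hK hΔ hL h0 (b := P.n - e) (by omega) (by omega) (by omega)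
            (by omega)).trans (le_add_of_nonneg_right hdg)
        · by_cases c5 : e + w + S.Δ ≤ d
          · rw [Sh.T3_swap]
            exact (zone3 hI h3 (S := S.swap) hK hΔ hL h0 (b := P.n - d) (by omega) (by omega)
              (by rw [Sh.swap_n₂]; omega) (by omega)).trans (le_add_of_nonneg_right hdg)
          · rw [dg, if_pos ⟨by omega, by omega⟩]
            refine (hD k P S K _ _ hK (by omega) (by omega) (by omega)).trans ?_
            have b1 := small (sv := sv) (w := w) hK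
            have b2 : 0 ≤ K ^ 5 / P.Q := by
              have := hK.ten_le
              have := P.two_le_Q
              positivity
            rw [mul_div_assoc] at b1
            linarith

include hTK hI h2 h3 hD hK hΔ hL h0 h1 hn in
theorem zone_w {d e : ℕ} (hd : d < S.n₁ + 1) (he : e < S.n₂ + 1) :
    |((S.n₁ : ℝ) - d) * ((S.n₂ : ℝ) - e) * tg S d e -
        ((S.n₁ : ℝ) - d) * gm P d * (((S.n₂ : ℝ) - e) * gm P e) / S.G| ≤
      (P.n : ℝ) ^ 2 * (7 * K ^ 5 * (1 / √P.Q + √sv + 1 / √(qR k ^ w)) +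
        dg (w + S.Δ) d e / ((P.z : ℝ) ^ 2 * S.G)) := by
  have hG := S.one_le_G
  have hK0 : 0 ≤ K := le_trans (by norm_num) hK.ten_le
  have hdg : 0 ≤ dg (w + S.Δ) d e / ((P.z : ℝ) ^ 2 * S.G) :=
    div_nonneg (dg_nonneg _ _ _) (by positivity)
  have hB : 0 ≤ (P.n : ℝ) ^ 2 * (7 * K ^ 5 * (1 / √P.Q + √sv + 1 / √(qR k ^ w)) +
      dg (w + S.Δ) d e / ((P.z : ℝ) ^ 2 * S.G)) := by positivity
  have e1 : ((S.n₁ : ℝ) - d) * ((S.n₂ : ℝ) - e) * tg S d e -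
      ((S.n₁ : ℝ) - d) * gm P d * (((S.n₂ : ℝ) - e) * gm P e) / S.G =
      ((S.n₁ : ℝ) - d) * ((S.n₂ : ℝ) - e) * (tg S d e - gm P d * gm P e / S.G) := by ring
  rw [e1]
  by_cases c1 : (S.n₁ : ℝ) - d = 0
  · rw [c1, zero_mul, zero_mul, abs_zero]
    exact hB
  by_cases c2 : (S.n₂ : ℝ) - e = 0
  · rw [c2, mul_zero, zero_mul, abs_zero]
    exact hB
  have c1' : d ≠ S.n₁ := fun h => c1 (by rw [h, sub_self])
  have c2' : e ≠ S.n₂ := fun h => c2 (by rw [h, sub_self])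
  have a1 : (d : ℝ) ≤ S.n₁ := by exact_mod_cast Nat.lt_succ_iff.1 hd
  have a2 : (e : ℝ) ≤ S.n₂ := by exact_mod_cast Nat.lt_succ_iff.1 he
  have a3 : (0 : ℝ) ≤ d := Nat.cast_nonneg _
  have a4 : (0 : ℝ) ≤ e := Nat.cast_nonneg _
  have b1 : (S.n₁ : ℝ) ≤ P.n := by exact_mod_cast S.n₁_le
  have b2 : (S.n₂ : ℝ) ≤ P.n := by exact_mod_cast S.n₂_le
  have a5 : 0 ≤ ((S.n₁ : ℝ) - d) * ((S.n₂ : ℝ) - e) := mul_nonneg (by linarith) (by linarith)
  have a6 : ((S.n₁ : ℝ) - d) * ((S.n₂ : ℝ) - e) ≤ (P.n : ℝ) ^ 2 := by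
    rw [sq]
    exact mul_le_mul (by linarith) (by linarith) (by linarith) (by linarith)
  rw [abs_mul, abs_of_nonneg a5]
  exact mul_le_mul a6 (zone hTK hI h2 h3 hD hK hΔ hL h0 h1 hn (by omega) (by omega))
    (abs_nonneg _) (by positivity)

include hTK hI h2 h3 hD hK hΔ hL h0 h1 hn in
theorem zone_sum (hw : S.Δ ≤ w) :
    |∑ d ∈ Finset.range (S.n₁ + 1), ∑ e ∈ Finset.range (S.n₂ + 1),
        ((S.n₁ : ℝ) - d) * ((S.n₂ : ℝ) - e) * tg S d e -
        MM k P.z (y0 P) S.n₁ * MM k P.z (y0 P) S.n₂ / S.G| ≤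
      (P.n : ℝ) ^ 2 * (P.n + 1) * (4 * w + 1) / ((P.z : ℝ) ^ 2 * S.G) +
        7 * K ^ 9 * (1 / √P.Q + √sv + 1 / √(qR k ^ w)) := by
  have hG := S.one_le_G
  have hK0 : 0 ≤ K := le_trans (by norm_num) hK.ten_le
  have hy : y0 P ≤ S.n₁ ∧ y0 P ≤ S.n₂ := by
    have := P.κ_le
    have := P.τ_le
    have := S.Δ_le
    have := S.n₁_ge
    have := S.n₂_ge
    unfold y0
    omega
  set E : ℝ := 1 / √P.Q + √sv + 1 / √(qR k ^ w) with hE
  have hE0 : 0 ≤ E := by positivity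
  set Z : ℝ := (P.z : ℝ) ^ 2 * S.G with hZ
  have hZ0 : 0 ≤ Z := by positivity
  have hn0 : (0 : ℝ) ≤ P.n := Nat.cast_nonneg _
  have hnK := P.n_le_K hK
  have n1 : (S.n₁ : ℝ) ≤ P.n := by exact_mod_cast S.n₁_le
  have n2 : (S.n₂ : ℝ) ≤ P.n := by exact_mod_cast S.n₂_le
  have hw' : (S.Δ : ℝ) ≤ w := by exact_mod_cast hw
  have b4 : 0 ≤ 7 * K ^ 5 * E := by positivity
  rw [MM_eq' P hy.1, MM_eq' P hy.2, Finset.sum_mul_sum, Finset.sum_div, ← Finset.sum_sub_distrib]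
  have hrow : ∀ d ∈ Finset.range (S.n₁ + 1),
      |∑ e ∈ Finset.range (S.n₂ + 1), ((S.n₁ : ℝ) - d) * ((S.n₂ : ℝ) - e) * tg S d e -
        (∑ e ∈ Finset.range (S.n₂ + 1),
          ((S.n₁ : ℝ) - d) * gm P d * (((S.n₂ : ℝ) - e) * gm P e)) / S.G| ≤
      (P.n : ℝ) ^ 2 * ((P.n + 1) * (7 * K ^ 5 * E) + (4 * w + 1) / Z) := by
    intro d hd
    rw [Finset.sum_div, ← Finset.sum_sub_distrib]
    refine (Finset.abs_sum_le_sum_abs _ _).trans ?_
    refine (Finset.sum_le_sum fun e he => zone_w (w := w) hTK hI h2 h3 hD hK hΔ hL h0 h1 hn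
      (Finset.mem_range.1 hd) (Finset.mem_range.1 he)).trans ?_
    rw [← Finset.mul_sum, Finset.sum_add_distrib, Finset.sum_const, Finset.card_range,
      ← Finset.sum_div, nsmul_eq_mul]
    push_cast
    refine mul_le_mul_of_nonneg_left ?_ (by positivity)
    refine add_le_add (mul_le_mul_of_nonneg_right (by linarith) b4)
      (div_le_div_of_nonneg_right ((sum_dg _ _ _).trans ?_) hZ0)
    push_cast
    linarith
  refine (Finset.abs_sum_le_sum_abs _ _).trans ?_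
  refine (Finset.sum_le_sum hrow).trans ?_
  rw [Finset.sum_const, Finset.card_range, nsmul_eq_mul]
  push_cast
  have b1 : (P.n : ℝ) + 1 ≤ K := by linarith
  have b2 : (P.n : ℝ) ≤ K := by linarith
  have b3 : ((P.n : ℝ) + 1) ^ 2 * (P.n : ℝ) ^ 2 ≤ K ^ 2 * K ^ 2 :=
    mul_le_mul (pow_le_pow_left₀ (by linarith) b1 2) (pow_le_pow_left₀ hn0 b2 2)
      (by positivity) (by positivity)
  have b5 := mul_le_mul_of_nonneg_right b3 b4
  calc ((S.n₁ : ℝ) + 1) * ((P.n : ℝ) ^ 2 * ((P.n + 1) * (7 * K ^ 5 * E) + (4 * w + 1) / Z))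
      ≤ ((P.n : ℝ) + 1) * ((P.n : ℝ) ^ 2 * ((P.n + 1) * (7 * K ^ 5 * E) + (4 * w + 1) / Z)) :=
        mul_le_mul_of_nonneg_right (by linarith) (by positivity)
    _ = (P.n : ℝ) ^ 2 * (P.n + 1) * (4 * w + 1) / Z +
        ((P.n : ℝ) + 1) ^ 2 * (P.n : ℝ) ^ 2 * (7 * K ^ 5 * E) := by ring
    _ ≤ (P.n : ℝ) ^ 2 * (P.n + 1) * (4 * w + 1) / Z + K ^ 2 * K ^ 2 * (7 * K ^ 5 * E) := by
        linarith
    _ = _ := by ring

end Zones

end GbCore

open TwCore GbCore in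
theorem stCoreg (hR : StRepg) (hDe : StDe) (hTK : StTKg) (hI : StIex) (h2 : StA2g) (h3 : StA3g)
    (hD : StDiagg) : StCoreg := by
  intro k _ _ _ P S K sv w hK hΔ hL h0 h1 hn hw
  have hG := S.one_le_G
  have hK0 : 0 ≤ K := le_trans (by norm_num) hK.ten_le
  have r1 := hR k P S (g1 S) (g2 S)
    (fun d e => by
      unfold g1
      split_ifs
      · exact Or.inl rfl
      · exact Or.inr rfl)
    (fun d e => by
      unfold g2
      split_ifs
      · exact Or.inl rfl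
      · exact Or.inr rfl)
  have r2 : S.av (De S.g ((P.s - 1) * P.z) P.z) ≤ eps (P.s - 1) / S.G := by
    rw [S.av_eq_of_eq hn]
    refine (hDe k S.g (P.s - 1) P.z S.n₀ S.adm S.one_le_z (by have := S.s_ge; omega) ?_).1
    have e : (2 * (P.s - 1) + 1) * P.z = 2 * ((P.s - 1) * P.z) + P.z := by ring
    have hz : P.z = 12 * P.τ := rfl
    have := S.two_y
    have := P.κ_le
    have := P.τ_le
    have := S.Δ_le
    have := S.n₀_add
    omega
  have r3 := GbCore.zone_sum (w := w) hTK hI h2 h3 hD hK hΔ hL h0 h1 hn hw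
  have r4 : (P.n : ℝ) ^ 2 * 4 ^ (P.n / P.z + 1) * (2 * qR k ^ S.Δ / qR k ^ (P.z - 1)) ≤
      K ^ 9 * (1 / √P.Q) := by
    have hq : (0 : ℝ) < qR k ^ (P.z - 1) := qR_pow_pos _
    calc _ = qR k ^ S.Δ * ((P.n : ℝ) ^ 2 * 4 ^ (P.n / P.z + 1) * (2 / qR k ^ (P.z - 1))) := by
          ring
      _ ≤ K * (K ^ 8 * (1 / √P.Q)) := mul_le_mul hΔ (tail hK) (by positivity) hK0
      _ = _ := by ring
  have r5 : (P.n : ℝ) ^ 2 * 4 ^ (P.n / P.z + 1) * S.av (De S.g ((P.s - 1) * P.z) P.z) ≤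
      (P.n : ℝ) ^ 2 * 4 ^ (P.n / P.z + 1) * eps (P.s - 1) / S.G := by
    rw [mul_div_assoc]
    exact mul_le_mul_of_nonneg_left r2 (by positivity)
  have a1 : 0 ≤ K ^ 9 * (1 / √P.Q) := by positivity
  have a2 : 0 ≤ K ^ 9 * √sv := by positivity
  have a3 : 0 ≤ K ^ 9 * (1 / √(qR k ^ w)) := by positivity
  refine (abs_sub_le _ (∑ d ∈ Finset.range (S.n₁ + 1), ∑ e ∈ Finset.range (S.n₂ + 1),
    ((S.n₁ : ℝ) - d) * ((S.n₂ : ℝ) - e) * tg S d e) _).trans ?_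
  have r6 := add_le_add r1 r3
  refine r6.trans ?_
  rw [mul_add]
  linarith

end Pool.Agent.Lib.MP_9227d9_nt.Mob
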