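import Pool.Agent.Lib.MP_9227d9_nt.GbA
import Pool.Agent.Lib.MP_9227d9_nt.TwColl
import Pool.Agent.Lib.MP_9227d9_nt.TwIns

/-! Concentration of the mean weight over the triples, uniformly in the shift. -/

namespace Pool.Agent.Lib.MP_9227d9_nt.Mob

open Polynomial

open scoped Classical

open TwColl in
theorem stCollg : StCollg := by
  intro k _ _ _ h z a b nu dl K B₀ c₀ Ψ hz1 had hK hB₀ _ hΨ hc
  have hq := qR_pow_pos (k := k) a
  -- the bound for a fixed modulus
  have h1 : ∀ A : k[X], MD a A → (avm b fun B =>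
      if IsCoprime A B ∧ IsCoprime A h then sr z A * sr z B *
      avm nu (fun u => avm (dl - a) fun x => Ψ A (A * x + od (c₀ A B * A * u))) else 0) ^ 2 ≤
      (avm b fun B => avm nu fun u => avm b fun B' => avm nu fun u' =>
        if A ∣ B' * u - B * u' then sr z A * sr z B else 0) * (qR k ^ a * B₀) := by
    intro A hA
    set w : k[X] → ℝ := fun B => if IsCoprime A B ∧ IsCoprime A h then sr z A * sr z B else 0
      with hw
    set ρ : k[X] → k[X] → k[X] := fun B u => od (c₀ A B * A * u) %ₘ A with hρ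
    set f : k[X] → ℝ := fun r => avm (dl - a) fun x => Ψ A (A * x + r) with hf
    have hdeg : ∀ B u, (ρ B u).degree < a := fun B u => by
      have := degree_modByMonic_lt (od (c₀ A B * A * u)) hA.1
      rwa [degree_eq_natDegree hA.ne_zero, hA.2] at this
    have hw0 : ∀ B, 0 ≤ w B := fun B => by
      simp only [hw]
      split_ifs
      · exact mul_nonneg (sr_nonneg z A) (sr_nonneg z B)
      · exact le_rfl
    have e1 : (avm b fun B => if IsCoprime A B ∧ IsCoprime A h then sr z A * sr z B *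
        avm nu (fun u => avm (dl - a) fun x => Ψ A (A * x + od (c₀ A B * A * u))) else 0) =
        avm b fun B => avm nu fun u => w B * f (ρ B u) := by
      refine avm_congr fun B hB => ?_
      rw [avm_mul_left]
      simp only [hw]
      split_ifs with hco
      · congr 1
        exact avm_congr fun u hu => avm_mod hA had ((hc A B hA hB hco.1).2 u hu) (Ψ A)
      · rw [zero_mul]
    have e2 : avg a (fun r => f r ^ 2) ≤ B₀ := by
      refine le_trans ?_ (hΨ A hA)
      rw [avm_split hA had]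
      exact avg_mono fun r _ => sq_avm_le
    have e3 : (avm b fun B => avm nu fun u => w B * (qR k ^ a * Pd b nu w ρ (ρ B u))) ≤
        (avm b fun B => avm nu fun u => avm b fun B' => avm nu fun u' =>
          if A ∣ B' * u - B * u' then sr z A * sr z B else 0) * qR k ^ a := by
      rw [← avm_mul_right]
      refine avm_mono fun B hB => ?_
      rw [← avm_mul_right]
      refine avm_mono fun u _ => ?_
      rw [mul_left_comm, mul_comm (qR k ^ a)]
      refine mul_le_mul_of_nonneg_right ?_ hq.le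
      unfold Pd
      rw [← avm_mul_left]
      refine avm_mono fun B' hB' => ?_
      rw [← avm_mul_left]
      refine avm_mono fun u' _ => ?_
      have h0 : 0 ≤ if A ∣ B' * u - B * u' then sr z A * sr z B else 0 := by
        split_ifs
        · exact mul_nonneg (sr_nonneg z A) (sr_nonneg z B)
        · exact le_rfl
      by_cases he : ρ B' u' = ρ B u
      swap
      · rwa [if_neg he, mul_zero]
      rw [if_pos he]
      by_cases hco : IsCoprime A B ∧ IsCoprime A h
      swap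
      · simp only [hw, if_neg hco, zero_mul]
        exact h0
      by_cases hco' : IsCoprime A B' ∧ IsCoprime A h
      swap
      · simp only [hw, if_neg hco', mul_zero]
        exact h0
      by_cases hs : sr z A = 0
      · simp only [hw, hs, zero_mul, ite_self, le_refl]
      have hd := dvd_of_class hA.1 (sr_ne_zero_iff.1 hs).1 hco.2 (hc A B hA hB hco.1).1
        (hc A B' hA hB' hco'.1).1 he
      simp only [hw, if_pos hco, if_pos hco', if_pos hd]
      exact mul_le_of_le_one_right (mul_nonneg (sr_nonneg z A) (sr_nonneg z B))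
        (mul_le_one₀ (sr_le_one z A) (sr_nonneg z B') (sr_le_one z B'))
    have e4 : 0 ≤ avm b fun B => avm nu fun u => avm b fun B' => avm nu fun u' =>
        if A ∣ B' * u - B * u' then sr z A * sr z B else 0 := by
      refine avm_nonneg fun B _ => avm_nonneg fun u _ => avm_nonneg fun B' _ =>
        avm_nonneg fun u' _ => ?_
      split_ifs
      · exact mul_nonneg (sr_nonneg z A) (sr_nonneg z B)
      · exact le_rfl
    rw [e1, ← mul_assoc]
    exact (cs b nu w hdeg f).trans (mul_le_mul e3 e2 (avg_nonneg fun r _ => sq_nonneg _)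
      (mul_nonneg e4 hq.le))
  refine sq_avm_le.trans ((avm_mono h1).trans ?_)
  rw [avm_mul_right]
  refine (mul_le_mul_of_nonneg_right (quad hz1 hK) (mul_nonneg hq.le hB₀)).trans (le_of_eq ?_)
  have hq' := qR_pow_pos (k := k) (b + nu)
  field_simp
  ring

namespace GbIns

variable {k : Type} [Field k] [Fintype k]

/-- The choice of the parametrisation. -/
theorem exists_par (hP : StPar3) (c : Gt k) {K : ℝ} (hΔ : qR k ^ c.S.Δ ≤ K) :
    ∃ c₁ : k[X] → k[X] → k[X], ∀ A B, MD c.a A → MD c.b₀ B → IsCoprime A B →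
      A ∣ B * c₁ A B - C c.S.c * c.S.g ∧ (c₁ A B).natDegree ≤ c.a + c.τ ∧
      (IsCoprime A c.S.g → IsCoprime (c₁ A B) A) ∧ ∀ f : k[X] → ℝ, (∀ Y, 0 ≤ f Y) →
        |qR k ^ c.b₀ * avm (c.S.n₁ - c.a) fun m =>
          if B ∣ A * m + c.S.g then c.S.χ (A * m) * f (c.S.Xc A B m) else 0| ≤
          K * avm c.n1 fun G => f (A * G + c₁ A B) := by
  have key : ∀ A B : k[X], ∃ c₁ : k[X], MD c.a A → MD c.b₀ B → IsCoprime A B →
      A ∣ B * c₁ - C c.S.c * c.S.g ∧ c₁.natDegree ≤ c.a + c.τ ∧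
      (IsCoprime A c.S.g → IsCoprime c₁ A) ∧ ∀ f : k[X] → ℝ, (∀ Y, 0 ≤ f Y) →
        |qR k ^ c.b₀ * avm (c.S.n₁ - c.a) fun m =>
          if B ∣ A * m + c.S.g then c.S.χ (A * m) * f (c.S.Xc A B m) else 0| ≤
          K * avm c.n1 fun G => f (A * G + c₁) := by
    intro A B
    by_cases h : MD c.a A ∧ MD c.b₀ B ∧ IsCoprime A B
    swap
    · exact ⟨0, fun h1 h2 h3 => absurd ⟨h1, h2, h3⟩ h⟩
    obtain ⟨hA, hB, hAB⟩ := h
    have hab := c.ab_le'
    obtain ⟨m₀, c₀, h1, h2, h3, h4⟩ := hP k c.toPar c.S A B c.a c.b₀ hA hB hAB (by omega)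
    have e : c₀ %ₘ A + A * (c₀ /ₘ A) = c₀ := modByMonic_add_div c₀ A
    have hdeg : (c₀ %ₘ A).degree < c.a := by
      have := degree_modByMonic_lt c₀ hA.1
      rwa [degree_eq_natDegree hA.ne_zero, hA.2] at this
    refine ⟨c₀ %ₘ A, fun _ _ _ => ⟨⟨C c.S.c * m₀ - B * (c₀ /ₘ A), ?_⟩, ?_, fun hg => ?_,
      fun f hf => ?_⟩⟩
    · linear_combination h1 + B * e
    · exact (natDegree_le_of_degree_le hdeg.le).trans (Nat.le_add_right _ _)
    · have h5 := (c.S.isCoprime_of_eq hg h1).1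
      rw [← e] at h5
      exact h5.of_add_mul_left_left
    · have hX : MD c.j (X ^ c.j : k[X]) := ⟨monic_X_pow _, natDegree_X_pow _⟩
      have h5 : MD (c.a + c.n1) (A * X ^ c.j + c₀) := c.n₂_sub ▸ (h3 _ hX).2.2
      have h6 : MD (c.a + c.n1) (A * (X ^ c.j + c₀ /ₘ A)) := by
        have h7 := h5.add (v := -(c₀ %ₘ A)) (by
          rw [degree_neg]
          exact hdeg.trans_le (by exact_mod_cast Nat.le_add_right _ _))
        rwa [show A * X ^ c.j + c₀ + -(c₀ %ₘ A) = A * (X ^ c.j + c₀ /ₘ A) by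
          linear_combination -e] at h7
      have h7 := hA.of_mul_left h6
      rw [Nat.add_sub_cancel_left] at h7
      have h8 := avg_le_avm (M := 1) (len := c.j) (Φ := fun G => f (A * G + c₀ %ₘ A)) one_ne_zero
        h7 (by rw [natDegree_one, zero_add]; exact c.j_le) fun _ _ => hf _
      have h9 : qR k ^ (c.n1 - c.j) ≤ K :=
        (pow_le_pow_right₀ one_le_qR (by have := c.n1_le; omega)).trans hΔ
      rw [h4 fun m => f (c.S.Xc A B m), abs_of_nonneg (avm_nonneg fun _ _ => hf _)]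
      refine le_trans (le_of_eq ?_) (h8.trans (mul_le_mul_of_nonneg_right h9
        (avm_nonneg fun _ _ => hf _)))
      refine avg_congr fun v _ => ?_
      beta_reduce
      rw [h2]
      congr 1
      show A * (X ^ c.j + v) + c₀ = _
      linear_combination -e
  choose c₁ hs using key
  exact ⟨c₁, hs⟩

variable [CharP k 2]

/-- One cell type, all pairs. -/
theorem cell_le (hCo : StCollg) (c : Gt k) {K : ℝ} (H : KB2 k c.U c.τ K) {θ : k[X] → ℝ}
    (hθ : ∀ M : k[X], M ≠ 0 → M.natDegree + c.len ≤ c.dl →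
      avm c.dl (fun x => Ph c.I c.len (θ M) M x ^ 2) ≤ K / qR k ^ c.len)
    {c₀ : k[X] → k[X] → k[X]} (hc : ∀ A B, MD c.a A → MD c.b₀ B → IsCoprime A B →
      A ∣ B * c₀ A B - C c.S.c * c.S.g ∧ (c₀ A B).natDegree ≤ c.a + c.τ)
    {R g : k[X]} (hR : R ∈ Mo k c.τ) (hg : g ∈ Mo k (3 * c.τ)) :
    (avm c.a fun A => avm c.b₀ fun B => if IsCoprime A B ∧ IsCoprime A c.S.g then
      sr c.z A * sr c.z B * TwIns.T c.toTw θ A (c₀ A B) R g else 0) ≤ 2 * K / c.Q ^ 12 := by
  have hK := H.ten_le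
  have hQ := c.two_le_Q
  have h1 := c.nu_add
  have h2 := c.nu_ge
  have h3 := c.L_eq
  have h4 := c.τ_le
  have h5 := c.τ_pos
  have h6 := c.dl_add
  have h7 := c.len_add
  have h8 := c.len_ge'
  have h9 := c.n1_add
  have h10 := c.b₀_add
  have h11 := c.S.n₂_le
  have hq := qR_pos (k := k)
  have hq1 := one_le_qR (k := k)
  obtain ⟨hR1, hR2⟩ := mem_Mo.1 hR
  obtain ⟨hg1, hg2⟩ := mem_Mo.1 hg
  have hX : MD c.n1 (X ^ c.n1 : k[X]) := ⟨monic_X_pow _, natDegree_X_pow _⟩
  have key := hCo k (C c.S.c * c.S.g) c.z c.a c.b₀ c.nu c.dl K (K / qR k ^ c.len) c₀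
    (fun A x => Ph c.I c.len (θ (A * R * g)) (A * R * g) x) c.S.one_le_z (by omega)
    (c.two_pow_le_K H (by omega)) (by positivity) (fun _ _ => Ph_nonneg _ _ _ _ _)
    (fun A hA => by
      refine hθ _ ((hA.1.mul hR1).mul hg1).ne_zero ?_
      rw [(hA.1.mul hR1).natDegree_mul hg1, hA.1.natDegree_mul hR1, hA.2]
      omega)
    (fun A B hA hB hAB => ⟨(hc A B hA hB hAB).1,
      fun u hu => (c.MD_line hA (hc A B hA hB hAB).2 hX hu).2.2.2⟩)
  simp only [isCoprime_mul_unit_left_right (isUnit_C' c.S.c_ne)] at key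
  refine (le_abs_self _).trans (abs_le_of_sq_le_sq (key.trans ?_) (by positivity))
  have e1 : 1 / qR k ^ c.len ≤ 1 / c.Q ^ 24 := by
    rw [c.Q_pow]
    exact one_div_le_one_div_of_le (by positivity) (pow_le_pow_right₀ hq1 (by omega))
  have e2 : qR k ^ c.a / qR k ^ (c.b₀ + c.nu) * (1 / qR k ^ c.len) ≤ 1 / c.Q ^ 24 := by
    rw [c.Q_pow, div_mul_div_comm, mul_one, div_le_div_iff₀ (by positivity) (by positivity),
      one_mul, ← pow_add, ← pow_add]
    exact pow_le_pow_right₀ hq1 (by omega)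
  calc K * (1 + qR k ^ c.a / qR k ^ (c.b₀ + c.nu)) * (K / qR k ^ c.len)
      = K ^ 2 * (1 / qR k ^ c.len +
        qR k ^ c.a / qR k ^ (c.b₀ + c.nu) * (1 / qR k ^ c.len)) := by ring
    _ ≤ K ^ 2 * (1 / c.Q ^ 24 + 1 / c.Q ^ 24) :=
        mul_le_mul_of_nonneg_left (add_le_add e1 e2) (by positivity)
    _ = 2 * (K ^ 2 / c.Q ^ 24) := by ring
    _ ≤ 4 * (K ^ 2 / c.Q ^ 24) := mul_le_mul_of_nonneg_right (by norm_num) (by positivity)
    _ = (2 * K / c.Q ^ 12) ^ 2 := by ring

/-- All pairs. -/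
theorem pairs_le (hD : StD) (hC : StCell) (hCo : StCollg) (c : Gt k) {K : ℝ}
    (H : KB2 k c.U c.τ K) {c₀ : k[X] → k[X] → k[X]}
    (hc : ∀ A B, MD c.a A → MD c.b₀ B → IsCoprime A B →
      A ∣ B * c₀ A B - C c.S.c * c.S.g ∧ (c₀ A B).natDegree ≤ c.a + c.τ ∧
        (IsCoprime A c.S.g → IsCoprime (c₀ A B) A)) :
    (avm c.a fun A => avm c.b₀ fun B => if IsCoprime A B ∧ IsCoprime A c.S.g then
      sr c.z A * sr c.z B *
        avm c.n1 (fun G => (avm c.nu fun u => c.Wm (od ((A * G + c₀ A B) * A * u))) ^ 2)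
      else 0) ≤ 15 * K ^ 4 / c.Q := by
  have hK := H.ten_le
  have hQ := c.two_le_Q
  obtain ⟨θ, hθ1, hθ2⟩ := TwIns.exists_theta c.toTw H
  have hs : √c.Q ≤ c.Q := by
    rw [Real.sqrt_le_left (by linarith)]
    nlinarith
  have hstep : (avm c.a fun A => avm c.b₀ fun B => if IsCoprime A B ∧ IsCoprime A c.S.g then
      sr c.z A * sr c.z B *
        avm c.n1 (fun G => (avm c.nu fun u => c.Wm (od ((A * G + c₀ A B) * A * u))) ^ 2)
      else 0) ≤
      avm c.a fun A => avm c.b₀ fun B =>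
        ((2 * K) ^ 2 / c.Q + 2 * K * √c.Q * (6 * K ^ 3 / c.Q ^ 3)) + 2 * K * √c.Q * c.Q ^ 5 *
          ∑ R ∈ Mo k c.τ, ∑ g ∈ Mo k (3 * c.τ), if IsCoprime A B ∧ IsCoprime A c.S.g then
            sr c.z A * sr c.z B * TwIns.T c.toTw θ A (c₀ A B) R g else 0 := by
    refine avm_mono fun A hA => avm_mono fun B hB => ?_
    have hC0 : 0 ≤ (2 * K) ^ 2 / c.Q + 2 * K * √c.Q * (6 * K ^ 3 / c.Q ^ 3) := by positivity
    by_cases hAB : IsCoprime A B ∧ IsCoprime A c.S.g
    · simp only [if_pos hAB]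
      by_cases hsA : sr c.z A = 0
      · simp only [hsA, zero_mul, Finset.sum_const_zero, mul_zero, add_zero]
        exact hC0
      obtain ⟨-, h2, h3⟩ := hc A B hA hB hAB.1
      have h4 := TwIns.pair_le hD hC c.toTw H hθ1 hA hsA (h3 hAB.2) h2
      have h5 : 0 ≤ sr c.z A * sr c.z B := mul_nonneg (sr_nonneg _ _) (sr_nonneg _ _)
      have h6 : sr c.z A * sr c.z B ≤ 1 :=
        mul_le_one₀ (sr_le_one _ _) (sr_nonneg _ _) (sr_le_one _ _)
      simp only [← Finset.mul_sum]
      refine (mul_le_mul_of_nonneg_left h4 h5).trans ?_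
      have h7 := mul_le_of_le_one_left hC0 h6
      nlinarith
    · simp only [if_neg hAB, Finset.sum_const_zero, mul_zero, add_zero]
      exact hC0
  refine hstep.trans ?_
  simp only [avm_add, avm_const, avm_mul_left, avm_sum]
  refine le_trans ?_ (TwIns.final hK hQ hs)
  refine add_le_add le_rfl (mul_le_mul_of_nonneg_left ?_ (by positivity))
  have hM1 : ((Mo k c.τ).card : ℝ) ≤ 2 * c.Q := card_Mo_le _
  have hM3 : ((Mo k (3 * c.τ)).card : ℝ) ≤ 2 * c.Q ^ 3 := by
    rw [c.Q_pow]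
    exact card_Mo_le _
  calc _ ≤ ∑ _R ∈ Mo k c.τ, ∑ _g ∈ Mo k (3 * c.τ), 2 * K / c.Q ^ 12 :=
        Finset.sum_le_sum fun R hR => Finset.sum_le_sum fun g hg =>
          cell_le hCo c H hθ2
            (fun A B hA hB hAB => ⟨(hc A B hA hB hAB).1, (hc A B hA hB hAB).2.1⟩) hR hg
    _ = (Mo k c.τ).card * ((Mo k (3 * c.τ)).card * (2 * K / c.Q ^ 12)) := by
        simp only [Finset.sum_const, nsmul_eq_mul]
    _ ≤ _ := by gcongr

end GbIns

theorem stInsg (hD : StD) (hC : StCell) (hCo : StCollg) (hP : StPar3) : StInsg := by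
  intro k _ _ _ c K H hΔ
  have hK := H.ten_le
  obtain ⟨c₁, hc⟩ := GbIns.exists_par hP c hΔ
  have h1 := GbIns.pairs_le hD hC hCo c H fun A B hA hB hAB =>
    ⟨(hc A B hA hB hAB).1, (hc A B hA hB hAB).2.1, (hc A B hA hB hAB).2.2.1⟩
  have h2 := c.S.abs_E_le_of_pairs (a := c.a) (b := c.b₀)
    (f := fun A B m => (avm c.nu fun u => c.Wm (c.l A B m u)) ^ 2)
    (β := fun A B => K * avm c.n1 fun G =>
      (avm c.nu fun u => c.Wm (od ((A * G + c₁ A B) * A * u))) ^ 2)
    (fun _ _ => mul_nonneg (by linarith) (avm_nonneg fun _ _ => sq_nonneg _))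
    fun A B hA hB _ _ _ _ hAB => (hc A B hA hB hAB).2.2.2
      (fun Y => (avm c.nu fun u => c.Wm (od (Y * A * u))) ^ 2) fun _ => sq_nonneg _
  refine ((le_abs_self _).trans h2).trans ?_
  refine le_trans (le_of_eq ?_) ((mul_le_mul_of_nonneg_left h1 (by linarith : 0 ≤ K)).trans
    (le_of_eq (by ring)))
  rw [← avm_mul_left]
  refine avm_congr fun A _ => ?_
  rw [← avm_mul_left]
  refine avm_congr fun B _ => ?_
  split_ifs
  · ring
  · rw [mul_zero]

end Pool.Agent.Lib.MP_9227d9_nt.Mob
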