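import Pool.Agent.Lib.MP_9227d9_nt.TwB

/-! Kloosterman fractions: moduli with a convenient divisor. -/

namespace Pool.Agent.Lib.MP_9227d9_nt.Mob

open Polynomial

open scoped Classical

namespace TwK1

variable {k : Type} [Field k] [Fintype k]

theorem sum_pf {F : k[X]} (hm : F.Monic) (h : Squarefree F) :
    ∑ p ∈ pf F, p.natDegree = F.natDegree := by
  rw [← natDegree_prod_isP fun p hp => isP_of_mem_pf hp, prod_pf hm h]

omit [Fintype k] in
theorem sum_le_of_subset {S T₁ T₂ T₃ : Finset k[X]} (h : S ⊆ T₁ ∪ T₂ ∪ T₃) :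
    ∑ p ∈ S, p.natDegree ≤
      ∑ p ∈ T₁, p.natDegree + ∑ p ∈ T₂, p.natDegree + ∑ p ∈ T₃, p.natDegree := by
  have h1 := Finset.sum_le_sum_of_subset (f := fun p : k[X] => p.natDegree) h
  have h2 := Finset.sum_union_inter (s₁ := T₁ ∪ T₂) (s₂ := T₃) (f := fun p : k[X] => p.natDegree)
  have h3 := Finset.sum_union_inter (s₁ := T₁) (s₂ := T₂) (f := fun p : k[X] => p.natDegree)
  omega

omit [Fintype k] in
theorem not_dvd_both {p A m : k[X]} (hp : IsP p) (h : Squarefree (A * m)) (h1 : p ∣ A)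
    (h2 : p ∣ m) : False :=
  hp.2.not_isUnit (h p (mul_dvd_mul h1 h2))

omit [Fintype k] in
theorem not_sq_dvd {p F G : k[X]} (hp : IsP p) (h : Squarefree F) (hG : ¬ p ∣ G) :
    ¬ p ^ 2 ∣ F * G := fun h1 =>
  hp.2.not_isUnit (h p (by
    rw [← sq]
    exact (hp.isCoprime_iff.2 hG).symm.pow_left.dvd_of_dvd_mul_right h1))

/-- The set of good primes. -/
theorem exists_good {A A' m r b : k[X]} (hA : A.Monic) (hA' : A'.Monic) (hm : m.Monic)
    (hrb : r * b ≠ 0) (hne : A + A' ≠ 0) (hs : Squarefree (A * m)) (hs' : Squarefree (A' * m)) :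
    ∃ S : Finset k[X], (∀ p ∈ S, IsP p ∧ p ∣ A * A' * (m * r) ∧ ¬ p ^ 2 ∣ A * A' * (m * r) ∧
      ¬ p ∣ b * (A + A')) ∧
      A.natDegree + m.natDegree + A'.natDegree ≤ ∑ p ∈ S, p.natDegree +
        2 * cd A A' + 2 * (r * b).natDegree + cd (A + A') m := by
  have hAm := hA.mul hm
  set S₁ := (pf (A * m)).filter fun p => ¬ p ∣ A' * (r * b) * (A + A') with hS₁
  set S₂ := (pf A').filter fun p => ¬ p ∣ A * m * (r * b) with hS₂
  have hd : Disjoint S₁ S₂ := Finset.disjoint_left.2 fun p h1 h2 =>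
    (Finset.mem_filter.1 h2).2 (((mem_pf hAm.ne_zero).1 (Finset.mem_filter.1 h1).1).2.mul_right _)
  refine ⟨S₁ ∪ S₂, fun p hp => ?_, ?_⟩
  · rcases Finset.mem_union.1 hp with h | h
    · obtain ⟨h1, h2⟩ := Finset.mem_filter.1 h
      obtain ⟨h3, h4⟩ := (mem_pf hAm.ne_zero).1 h1
      have e : A * A' * (m * r) = A * m * (A' * r) := by ring
      rw [e]
      refine ⟨h3, h4.mul_right _, not_sq_dvd h3 hs fun h5 => h2 (h5.trans ⟨b * (A + A'), by ring⟩),
        fun h5 => h2 (h5.trans ⟨A' * r, by ring⟩)⟩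
    · obtain ⟨h1, h2⟩ := Finset.mem_filter.1 h
      obtain ⟨h3, h4⟩ := (mem_pf hA'.ne_zero).1 h1
      have e : A * A' * (m * r) = A' * (A * m * r) := by ring
      rw [e]
      refine ⟨h3, h4.mul_right _, not_sq_dvd h3 hs'.of_mul_left
        fun h5 => h2 (h5.trans ⟨b, by ring⟩), fun h5 => h2 ?_⟩
      rcases h3.prime.dvd_or_dvd h5 with h6 | h6
      · exact h6.trans ⟨A * m * r, by ring⟩
      · exact ((dvd_add_left h4).1 h6).trans ⟨m * (r * b), by ring⟩
  · rw [Finset.sum_union hd]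
    have e1 := Finset.sum_filter_add_sum_filter_not (pf (A * m))
      (fun p => p ∣ A' * (r * b) * (A + A')) fun p : k[X] => p.natDegree
    have e2 := Finset.sum_filter_add_sum_filter_not (pf A')
      (fun p => p ∣ A * m * (r * b)) fun p : k[X] => p.natDegree
    rw [sum_pf hAm hs, hA.natDegree_mul hm] at e1
    rw [sum_pf hA' hs'.of_mul_left] at e2
    have e3 := sum_natDegree_pf_le hrb
    have b1 : (pf (A * m)).filter (fun p => p ∣ A' * (r * b) * (A + A')) ⊆
        (pf A).filter (fun p => p ∣ A') ∪ pf (r * b) ∪ (pf (A + A')).filter (fun p => p ∣ m) := by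
      intro p hp
      obtain ⟨h1, h2⟩ := Finset.mem_filter.1 hp
      obtain ⟨h3, h4⟩ := (mem_pf hAm.ne_zero).1 h1
      simp only [Finset.mem_union, Finset.mem_filter, mem_pf hA.ne_zero, mem_pf hrb, mem_pf hne]
      rcases h3.prime.dvd_or_dvd h2 with h5 | h5
      · rcases h3.prime.dvd_or_dvd h5 with h6 | h6
        · rcases h3.prime.dvd_or_dvd h4 with h7 | h7
          · exact Or.inl (Or.inl ⟨⟨h3, h7⟩, h6⟩)
          · exact (not_dvd_both h3 hs' h6 h7).elim
        · exact Or.inl (Or.inr ⟨h3, h6⟩)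
      · rcases h3.prime.dvd_or_dvd h4 with h7 | h7
        · exact Or.inl (Or.inl ⟨⟨h3, h7⟩, (dvd_add_right h7).1 h5⟩)
        · exact Or.inr ⟨⟨h3, h5⟩, h7⟩
    have b2 : (pf A').filter (fun p => p ∣ A * m * (r * b)) ⊆
        (pf A).filter (fun p => p ∣ A') ∪ pf (r * b) ∪ ∅ := by
      intro p hp
      obtain ⟨h1, h2⟩ := Finset.mem_filter.1 hp
      obtain ⟨h3, h4⟩ := (mem_pf hA'.ne_zero).1 h1
      simp only [Finset.union_empty, Finset.mem_union, Finset.mem_filter, mem_pf hA.ne_zero,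
        mem_pf hrb]
      rcases h3.prime.dvd_or_dvd h2 with h5 | h5
      · rcases h3.prime.dvd_or_dvd h5 with h7 | h7
        · exact Or.inl ⟨⟨h3, h7⟩, h4⟩
        · exact (not_dvd_both h3 hs' h4 h7).elim
      · exact Or.inr ⟨h3, h5⟩
    have c1 := sum_le_of_subset b1
    have c2 := sum_le_of_subset b2
    rw [Finset.sum_empty] at c2
    rw [← hS₁] at e1
    rw [← hS₂] at e2
    unfold cd
    omega

theorem sq_avm (j : ℕ) (f : k[X] → ℝ) :
    avm j f ^ 2 = avm j fun A => avm j fun A' => f A * f A' := by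
  simp only [avm_mul_left]
  rw [avm_mul_right, sq]

variable [CharP k 2] (P : Par k) {K : ℝ} {d e j : ℕ} {b r : k[X]}

/-- The off-diagonal terms. -/
theorem off (hI : StKI) (H : KB2 k P.U P.τ K) (hd : P.n ≤ 2 * d + 22 * P.κ)
    (hd' : 2 * d ≤ P.n + 20 * P.κ) (he : P.n ≤ 2 * e + 22 * P.κ) (hb : b ≠ 0)
    (hb' : b.natDegree ≤ 23 * P.κ) (hr : r.Monic) (hr' : r.natDegree ≤ P.κ) (hj : 2 * j ≤ d)
    {A A' m : k[X]} (hA : MD j A) (hA' : MD j A') (hm : MD (d - j) m) (hne : A ≠ A')
    (hs : Squarefree (A * m)) (hs' : Squarefree (A' * m)) (h1 : cd A A' ≤ 50 * P.κ)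
    (h2 : cd (A + A') m ≤ 50 * P.κ) :
    |avm e fun E => kl E b (A * m * r) * kl E b (A' * m * r)| ≤ K / qR k ^ (50 * P.κ) := by
  have hκ := P.κ_le
  have hτ := P.τ_le
  have hτ2 := P.τ_pos
  have hne' : A + A' ≠ 0 := fun h => hne (CharTwo.add_eq_zero.1 h)
  have hmr := hm.1.mul hr
  have hM := (hA.1.mul hA'.1).mul hmr
  have hMd : (A * A' * (m * r)).natDegree = d + j + r.natDegree := by
    rw [(hA.1.mul hA'.1).natDegree_mul hmr, hA.1.natDegree_mul hA'.1, hm.1.natDegree_mul hr,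
      hA.2, hA'.2, hm.2]
    omega
  have e1 : avm e (fun E => kl E b (A * m * r) * kl E b (A' * m * r)) =
      avg e fun v => kl (A * A' * (m * r)) (b * (A + A')) (X ^ e + 1 * v) := by
    simp only [one_mul]
    refine avm_congr (G := fun E => kl (A * A' * (m * r)) (b * (A + A')) E) fun E hE => ?_
    have key : ∀ B : k[X], MD j B → kl E b (B * m * r) = kl (B * (m * r)) b E := fun B hB => by
      rw [mul_assoc]
      refine kl_recip hE.1 (hB.1.mul hmr) ?_
      rw [hE.2]
      omega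
    rw [key A hA, key A' hA', kl_mul_kl hA.1 hA'.1 hmr]
  obtain ⟨S, hS, hS'⟩ := exists_good hA.1 hA'.1 hm.1 (mul_ne_zero hr.ne_zero hb) hne' hs hs'
  rw [e1]
  refine (hI k S _ _ _ 1 e hM hS isCoprime_one_left).trans ?_
  have h3 : (5 : ℝ) ^ S.card ≤ K := by
    refine le_trans ?_ (P.om_le_K H hM.ne_zero (by omega))
    refine (pow_le_pow_left₀ (by norm_num) (by norm_num : (5 : ℝ) ≤ 8) _).trans ?_
    exact pow_le_pow_right₀ (by norm_num) (Finset.card_le_card fun p hp =>
      (mem_pf hM.ne_zero).2 ⟨(hS p hp).1, (hS p hp).2.1⟩)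
  rw [natDegree_mul hr.ne_zero hb, hA.2, hA'.2, hm.2] at hS'
  have h4 : qR k ^ ((A * A' * (m * r)).natDegree - e) * qR k ^ (50 * P.κ) ≤
      √(qR k ^ ∑ p ∈ S, p.natDegree) := by
    refine Real.le_sqrt_of_sq_le ?_
    rw [← pow_add, ← pow_mul]
    exact pow_le_pow_right₀ one_le_qR (by omega)
  have h5 := qR_pow_pos (k := k) ((A * A' * (m * r)).natDegree - e)
  have h6 := qR_pow_pos (k := k) (50 * P.κ)
  have h7 : (0 : ℝ) < √(qR k ^ ∑ p ∈ S, p.natDegree) := (mul_pos h5 h6).trans_le h4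
  rw [← mul_div_assoc, div_le_div_iff₀ h7 h6]
  have h8 : (0 : ℝ) ≤ K := le_trans (by positivity) h3
  calc _ = 5 ^ S.card * (qR k ^ ((A * A' * (m * r)).natDegree - e) * qR k ^ (50 * P.κ)) := by ring
    _ ≤ _ := mul_le_mul h3 h4 (mul_pos h5 h6).le h8

/-- The estimate for a fixed degree of the divisor. -/
theorem core (hI : StKI) (hG : StGX) (H : KB2 k P.U P.τ K) (hd : P.n ≤ 2 * d + 22 * P.κ)
    (hd' : 2 * d ≤ P.n + 20 * P.κ) (he : P.n ≤ 2 * e + 22 * P.κ) (hb : b ≠ 0)
    (hb' : b.natDegree ≤ 23 * P.κ) (hr : r.Monic) (hr' : r.natDegree ≤ P.κ) (hj : 2 * j ≤ d)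
    (hj' : 50 * P.κ ≤ j) (a : k[X] → k[X] → ℝ) (β : k[X] → ℝ) (ha : ∀ A m, |a A m| ≤ 1)
    (hβ : ∀ E, |β E| ≤ 1)
    (hs : ∀ A m, MD j A → MD (d - j) m → a A m ≠ 0 → Squarefree (A * m)) :
    |avm j fun A => avm (d - j) fun m => a A m * avm e fun E => β E * kl E b (A * m * r)| ≤
      2 * K / qR k ^ (25 * P.κ) := by
  have hκ := P.κ_le
  have hK := H.ten_le
  have hq := qR_pow_pos (k := k) (50 * P.κ)
  have e1 : avm j (fun A => avm (d - j) fun m => a A m * avm e fun E => β E * kl E b (A * m * r)) =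
      avm (d - j) fun m => avm e fun E => β E * avm j fun A => a A m * kl E b (A * m * r) := by
    rw [avm_comm]
    refine avm_congr fun m _ => ?_
    simp only [← avm_mul_left]
    rw [avm_comm]
    exact avm_congr fun E _ => avm_congr fun A _ => by ring
  have e2 : avm (d - j) (fun m => avm e fun E => avm j (fun A => a A m * kl E b (A * m * r)) ^ 2) =
      avm j fun A => avm j fun A' => avm (d - j) fun m =>
        a A m * a A' m * avm e fun E => kl E b (A * m * r) * kl E b (A' * m * r) := by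
    simp only [sq_avm, ← avm_mul_left]
    calc _ = avm (d - j) fun m => avm j fun A => avm j fun A' => avm e fun E =>
          a A m * a A' m * (kl E b (A * m * r) * kl E b (A' * m * r)) := by
          refine avm_congr fun m _ => ?_
          rw [avm_comm]
          refine avm_congr fun A _ => ?_
          rw [avm_comm]
          exact avm_congr fun A' _ => avm_congr fun E _ => by ring
      _ = _ := by
          rw [avm_comm]
          exact avm_congr fun A _ => avm_comm _ _ _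
  have two_le : ∀ N : k[X], N ≠ 0 → N.natDegree ≤ j → (2 : ℝ) ^ (pf N).card ≤ K := fun N h0 h1 =>
    (pow_le_pow_left₀ (by norm_num) (by norm_num : (2 : ℝ) ≤ 8) _).trans
      (P.om_le_K H h0 (by omega))
  have h3 : ∀ A A', MD j A → MD j A' → avm (d - j) (fun m =>
        a A m * a A' m * avm e fun E => kl E b (A * m * r) * kl E b (A' * m * r)) ≤
      (if A' = A then 1 else 0) + (if 50 * P.κ < cd A A' then 1 else 0) +
        2 * K / qR k ^ (50 * P.κ) := by
    intro A A' hA hA'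
    have t1 : ∀ m, |a A m * a A' m| ≤ 1 := fun m => by
      rw [abs_mul]
      exact mul_le_one₀ (ha _ _) (abs_nonneg _) (ha _ _)
    have t2 : ∀ m, |avm e fun E => kl E b (A * m * r) * kl E b (A' * m * r)| ≤ 1 := fun m =>
      abs_avm_le_of_le fun E _ => by
        rw [abs_mul]
        exact mul_le_one₀ (abs_kl_le _ _ _) (abs_nonneg _) (abs_kl_le _ _ _)
    have t3 : ∀ m, a A m * a A' m * avm e (fun E => kl E b (A * m * r) * kl E b (A' * m * r)) ≤
        1 := fun m => (le_abs_self _).trans (by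
      rw [abs_mul]
      exact mul_le_one₀ (t1 m) (abs_nonneg _) (t2 m))
    have t4 : 0 ≤ 2 * K / qR k ^ (50 * P.κ) := by positivity
    by_cases c1 : A' = A
    · refine (avm_le_of_le fun m _ => t3 m).trans ?_
      rw [if_pos c1]
      split_ifs <;> linarith
    by_cases c2 : 50 * P.κ < cd A A'
    · refine (avm_le_of_le fun m _ => t3 m).trans ?_
      rw [if_neg c1, if_pos c2]
      linarith
    rw [if_neg c1, if_neg c2]
    have hne' : A + A' ≠ 0 := fun h => c1 (CharTwo.add_eq_zero.1 h).symm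
    have t5 : (A + A').natDegree ≤ j := (natDegree_add_le _ _).trans (max_le hA.2.le hA'.2.le)
    have t6 := hG k (A + A') (50 * P.κ) (d - j) hne' (by omega)
    have t7 := div_le_div_of_nonneg_right (two_le _ hne' t5) hq.le
    refine (avm_mono (G := fun m => (if 50 * P.κ < cd (A + A') m then 1 else 0) +
      K / qR k ^ (50 * P.κ)) fun m hm => ?_).trans ?_
    · have t8 : 0 ≤ K / qR k ^ (50 * P.κ) := by positivity
      split_ifs with c3
      · linarith [t3 m]
      by_cases c4 : a A m = 0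
      · rw [c4]
        simpa using t8
      by_cases c5 : a A' m = 0
      · rw [c5]
        simpa using t8
      have t9 := off P hI H hd hd' he hb hb' hr hr' hj hA hA' hm (Ne.symm c1) (hs A m hA hm c4)
        (hs A' m hA' hm c5) (not_lt.1 c2) (not_lt.1 c3)
      refine (le_abs_self _).trans ?_
      rw [abs_mul, zero_add]
      exact (mul_le_of_le_one_left (abs_nonneg _) (t1 m)).trans t9
    · rw [avm_add, avm_const, mul_div_assoc]
      linarith
  have h4 : avm j (fun A => avm j fun A' => avm (d - j) fun m =>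
        a A m * a A' m * avm e fun E => kl E b (A * m * r) * kl E b (A' * m * r)) ≤
      4 * K / qR k ^ (50 * P.κ) := by
    refine avm_le_of_le fun A hA => (avm_mono fun A' hA' => h3 A A' hA hA').trans ?_
    rw [avm_add, avm_add, avm_const]
    have t1 := avm_eq_one_le (j := j) A
    have t2 := hG k A (50 * P.κ) j hA.ne_zero hj'
    have t3 := div_le_div_of_nonneg_right (two_le _ hA.ne_zero hA.2.le) hq.le
    have t4 : 1 / qR k ^ j ≤ K / qR k ^ (50 * P.κ) :=
      div_le_div₀ (by linarith) (by linarith) hq (pow_le_pow_right₀ one_le_qR hj')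
    rw [mul_div_assoc, mul_div_assoc]
    linarith
  rw [e1]
  refine abs_le_of_sq_le_sq' ?_ (by have := qR_pow_pos (k := k) (25 * P.κ); positivity) |> abs_le.2
  calc _ ≤ avm (d - j) fun m => avm e fun E => avm j (fun A => a A m * kl E b (A * m * r)) ^ 2 := by
        refine sq_avm_le.trans (avm_mono fun m _ => sq_avm_le.trans (avm_mono fun E _ => ?_))
        rw [mul_pow]
        exact mul_le_of_le_one_left (sq_nonneg _) ((sq_le_one_iff_abs_le_one _).2 (hβ E))
    _ ≤ 4 * K / qR k ^ (50 * P.κ) := e2 ▸ h4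
    _ ≤ _ := by
        rw [div_pow, ← pow_mul, show 25 * P.κ * 2 = 50 * P.κ by ring]
        exact div_le_div_of_nonneg_right (by nlinarith) hq.le

end TwK1

open TwK1

theorem stK1 (hI : StKI) (hG : StGX) (hP : StPar1) : StK1 := by
  intro k _ _ _ P K d e α β b r H hd hd' he _ hb hb' hr hr' hα hβ hD
  have hκ := P.κ_le
  have h1 : ∀ D, MD d D → α D ≠ 0 → ∃ D₁ : k[X], D₁.Monic ∧ D₁ ∣ D ∧
      50 * P.κ ≤ D₁.natDegree ∧ 2 * D₁.natDegree ≤ d := by
    intro D h h0
    obtain ⟨-, D₁, m1, ⟨D₂, rfl⟩, l1, l2⟩ := hD D h h0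
    have m2 := m1.of_mul_monic_left h.1
    have h2 := h.2
    rw [m1.natDegree_mul m2] at h2
    by_cases h3 : 2 * D₁.natDegree ≤ d
    · exact ⟨D₁, m1, dvd_mul_right _ _, l1, h3⟩
    · exact ⟨D₂, m2, dvd_mul_left _ _, by omega, by omega⟩
  choose! c hc using h1
  set Ψ : k[X] → ℝ := fun D => avm e fun E => β E * kl E b (D * r) with hΨ
  have e1 : KBi d e α β b r = ∑ j ∈ Finset.Icc (50 * P.κ) (d / 2), avm d fun D =>
      ∑ A ∈ (MoD k j).filter (fun A => A ∣ D), (if c D = A then α D else 0) * Ψ D := by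
    rw [← avm_sum, KBi]
    refine avm_congr fun D h => ?_
    have e2 : avm e (fun E => α D * β E * kl E b (D * r)) = α D * Ψ D := by
      rw [hΨ, ← avm_mul_left]
      exact avm_congr fun E _ => by ring
    rw [e2]
    by_cases h0 : α D = 0
    · simp [h0]
    obtain ⟨m1, m2, m3, m4⟩ := hc D h h0
    simp only [ite_mul, zero_mul, Finset.sum_ite_eq, Finset.mem_filter, mem_MoD, MD]
    rw [Finset.sum_eq_single (c D).natDegree (fun j _ hj => if_neg fun h => hj h.1.2.symm)
      fun hj => absurd (Finset.mem_Icc.2 ⟨m3, by omega⟩) hj, if_pos ⟨⟨m1, rfl⟩, m2⟩]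
  rw [e1]
  refine (Finset.abs_sum_le_sum_abs _ _).trans ((Finset.sum_le_card_nsmul _ _
    (2 * K / qR k ^ (25 * P.κ)) fun j hj => ?_).trans ?_)
  · obtain ⟨j1, j2⟩ := Finset.mem_Icc.1 hj
    rw [hP k d j (fun A D => (if c D = A then α D else 0) * Ψ D) (by omega)]
    refine core P hI hG H hd hd' he hb hb' hr hr' (by omega) j1
      (fun A m => if c (A * m) = A then α (A * m) else 0) β (fun A m => ?_) hβ
      fun A m hA hm h0 => ?_
    · split_ifs
      · exact hα _
      · simp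
    · have h2 : MD d (A * m) := by
        have := hA.mul hm
        rwa [show j + (d - j) = d by omega] at this
      exact (hD _ h2 fun h3 => h0 (by simp [h3])).1
  · have h2 := P.n_le_K H
    have h3 : ((Finset.Icc (50 * P.κ) (d / 2)).card : ℝ) ≤ K := by
      have h4 : (Finset.Icc (50 * P.κ) (d / 2)).card ≤ 4 * P.n + 10 := by
        rw [Nat.card_Icc]
        omega
      exact le_trans (by exact_mod_cast h4) h2
    have h5 := qR_pow_pos (k := k) (25 * P.κ)
    have h6 := H.ten_le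
    rw [nsmul_eq_mul]
    calc _ ≤ K * (2 * K / qR k ^ (25 * P.κ)) := mul_le_mul_of_nonneg_right h3 (by positivity)
      _ = _ := by ring

end Pool.Agent.Lib.MP_9227d9_nt.Mob
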