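import Pool.Agent.Lib.MP_9227d9_nt.TwB

/-! Kloosterman fractions of type I, and the decomposition of the Moebius function. -/

namespace Pool.Agent.Lib.MP_9227d9_nt.Mob

open Polynomial

open scoped Classical

namespace TwKt

variable {k : Type} [Field k] [Fintype k]

omit [Fintype k] in
theorem rI_mul (z : ℕ) (f g : k[X]) : rI z (f * g) = rI z f * rI z g := by
  unfold rI
  by_cases hf : Rough z f <;> by_cases hg : Rough z g <;> simp [rough_mul, hf, hg]

omit [Fintype k] in
theorem rI_prod (z : ℕ) (S : Finset k[X]) : rI z (∏ p ∈ S, p) = ∏ p ∈ S, rI z p := by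
  induction S using Finset.induction_on with
  | empty => simp [rI, rough_one]
  | insert a S ha ih => rw [Finset.prod_insert ha, Finset.prod_insert ha, rI_mul, ih]

/-- A weighted finite set without subsets of medium weight has a very heavy element. -/
theorem exists_heavy {ι : Type} (T : Finset ι) (w : ι → ℕ) (γ : ℕ) (hγ : 1 ≤ γ)
    (h3 : 3 * γ ≤ ∑ p ∈ T, w p)
    (H : ∀ S ⊆ T, γ ≤ ∑ p ∈ S, w p → ∑ p ∈ T, w p < ∑ p ∈ S, w p + γ) :
    ∃ p ∈ T, ∑ p ∈ T, w p < w p + γ := by
  obtain ⟨S, hS, hmax⟩ := Finset.exists_max_image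
    (T.powerset.filter fun S => ∑ p ∈ S, w p < γ) Finset.card
    ⟨∅, by
      rw [Finset.mem_filter]
      exact ⟨Finset.empty_mem_powerset T, by rw [Finset.sum_empty]; omega⟩⟩
  rw [Finset.mem_filter, Finset.mem_powerset] at hS
  have hne : ¬ T ⊆ S := fun h => by
    have h1 : S = T := Finset.Subset.antisymm hS.1 h
    have h2 := hS.2
    rw [h1] at h2
    omega
  obtain ⟨p, hpT, hpS⟩ := Finset.not_subset.1 hne
  have hsub : insert p S ⊆ T := Finset.insert_subset hpT hS.1
  have hge : γ ≤ ∑ p ∈ insert p S, w p := by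
    by_contra hc
    have := hmax (insert p S) (by
      rw [Finset.mem_filter, Finset.mem_powerset]
      exact ⟨hsub, not_le.1 hc⟩)
    rw [Finset.card_insert_of_notMem hpS] at this
    omega
  have h1 := H _ hsub hge
  rw [Finset.sum_insert hpS] at h1
  have h2 := hS.2
  have h4 := H {p} (Finset.singleton_subset_iff.2 hpT) (by rw [Finset.sum_singleton]; omega)
  rw [Finset.sum_singleton] at h4
  exact ⟨p, hpT, h4⟩

theorem sum_filter_ge {E b : k[X]} (hE : E.Monic) (hs : Squarefree E) (hb : b ≠ 0) :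
    E.natDegree ≤ ∑ p ∈ (pf E).filter (fun p => ¬ p ∣ b), p.natDegree + b.natDegree := by
  have hP : ∀ p ∈ pf E, IsP p := fun p hp => isP_of_mem_pf hp
  have h1 : E.natDegree = ∑ p ∈ pf E, p.natDegree := by
    rw [← natDegree_prod_isP hP, prod_pf hE hs]
  have h2 := Finset.sum_filter_add_sum_filter_not (pf E) (fun p => p ∣ b) fun p => p.natDegree
  have h3 : ∑ p ∈ (pf E).filter (fun p => p ∣ b), p.natDegree ≤ ∑ p ∈ pf b, p.natDegree := by
    refine Finset.sum_le_sum_of_subset fun p hp => ?_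
    rw [Finset.mem_filter] at hp
    exact (mem_pf hb).2 ⟨hP p hp.1, hp.2⟩
  have h4 := sum_natDegree_pf_le hb
  omega

theorem num_le {a c s t : ℕ} {K : ℝ} (hK : (5 : ℝ) ^ c ≤ K) (h : 2 * (a + t) ≤ s) :
    qR k ^ a * (5 ^ c / √(qR k ^ s)) ≤ K / qR k ^ t := by
  have h0 : (0 : ℝ) ≤ 5 ^ c := by positivity
  have ha := qR_pow_pos (k := k) a
  have ht := qR_pow_pos (k := k) t
  have h1 : qR k ^ a * qR k ^ t ≤ √(qR k ^ s) := by
    refine Real.le_sqrt_of_sq_le ?_
    rw [← pow_add, ← pow_mul]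
    exact pow_le_pow_right₀ one_le_qR (by omega)
  calc qR k ^ a * (5 ^ c / √(qR k ^ s)) ≤ qR k ^ a * (K / (qR k ^ a * qR k ^ t)) :=
        mul_le_mul_of_nonneg_left (div_le_div₀ (h0.trans hK) hK (mul_pos ha ht) h1) ha.le
    _ = K / qR k ^ t := by field_simp

end TwKt

theorem stDec : StDec := by
  intro k _ _ z γ d D hγ h3 hz hD hs hno
  have hP : ∀ p ∈ pf D, IsP p := fun p hp => isP_of_mem_pf hp
  have hprod := prod_pf hD.1 hs
  have hd : ∑ p ∈ pf D, p.natDegree = d := by rw [← natDegree_prod_isP hP, hprod, hD.2]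
  obtain ⟨p, hp, hbig⟩ := TwKt.exists_heavy (pf D) (fun p => p.natDegree) γ hγ (by omega) (by
    intro S hS hge
    by_contra hc
    have hPS : ∀ p ∈ S, IsP p := fun p hp => hP p (hS hp)
    refine hno ⟨∏ p ∈ S, p, monic_prod hPS, ?_, ?_, ?_⟩
    · exact (prod_dvd_iff hPS).2 fun p hp => ((mem_pf hD.ne_zero).1 (hS hp)).2
    · rwa [natDegree_prod_isP hPS]
    · rw [natDegree_prod_isP hPS]
      omega)
  rw [hd] at hbig
  have hsum := Finset.add_sum_erase (pf D) (fun p => p.natDegree) hp
  rw [hd] at hsum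
  have hset : (pf D).powerset.filter (fun S => ∑ p ∈ S, p.natDegree < γ) =
      ((pf D).erase p).powerset := by
    ext S
    rw [Finset.mem_filter, Finset.mem_powerset, Finset.mem_powerset, Finset.subset_erase]
    constructor
    · rintro ⟨h1, h2⟩
      refine ⟨h1, fun hpS => ?_⟩
      have := Finset.single_le_sum (f := fun p : k[X] => p.natDegree)
        (fun _ _ => Nat.zero_le _) hpS
      omega
    · rintro ⟨h1, h2⟩
      refine ⟨h1, ?_⟩
      have : ∑ p ∈ S, p.natDegree ≤ ∑ p ∈ (pf D).erase p, p.natDegree :=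
        Finset.sum_le_sum_of_subset (Finset.subset_erase.2 ⟨h1, h2⟩)
      omega
  have hr : rI z p = 1 := if_pos ((hP p hp).rough_iff.2 (by omega))
  have h1 : mu D = (-1) ^ (pf D).card := by
    rw [← mu_prod hP, hprod]
  have h2 : rI z D = ∏ p ∈ (pf D).erase p, rI z p := by
    have := TwKt.rI_prod z (pf D)
    rw [hprod, ← Finset.mul_prod_erase _ _ hp, hr, one_mul] at this
    exact this
  unfold gS
  rw [hset, ← Finset.prod_one_add, h1, h2, ← Finset.card_erase_add_one hp, pow_succ]
  have h4 : ∏ p ∈ (pf D).erase p, (1 + (-1 - rI z p)) =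
      (-1) ^ ((pf D).erase p).card * ∏ p ∈ (pf D).erase p, rI z p := by
    rw [← Finset.prod_const, ← Finset.prod_mul_distrib]
    exact Finset.prod_congr rfl fun p _ => by ring
  rw [h4]
  ring

theorem stKt (hI : StKI) : StKt := by
  intro k _ _ _ P K d e α β b r m₀ hK hd1 hd2 he1 he2 hb hbd hm hmd hα hβ hper hsup hsq
  have hκ := P.κ_le
  have hK0 : 0 ≤ K := le_trans (by norm_num) hK.ten_le
  have hB : 0 ≤ K / qR k ^ (150 * P.κ) := div_nonneg hK0 (qR_pow_pos _).le
  unfold KBi
  rw [avm_comm]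
  refine abs_avm_le_of_le fun E hE => ?_
  by_cases h0 : β E = 0
  · simp only [h0, mul_zero, zero_mul, avm_const, abs_zero]
    exact hB
  have hs := hsq E hE h0
  by_cases hc : IsCoprime (m₀ * r) E
  · rw [avm_avg_shift (d - m₀.natDegree) (fun t => m₀ * t)
      fun t ht => degree_mul_lt ht (by omega)]
    refine abs_avm_le_of_le fun D _ => ?_
    have h1 : (avg (d - m₀.natDegree) fun t =>
        α (D + m₀ * t) * β E * kl E b ((D + m₀ * t) * r)) =
        α D * β E * avg (d - m₀.natDegree) fun t => kl E b (D * r + m₀ * r * t) := by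
      rw [← avg_mul_left]
      refine avg_congr fun t _ => ?_
      rw [hper, show (D + m₀ * t) * r = D * r + m₀ * r * t by ring]
    have h2 := hI k ((pf E).filter fun p => ¬ p ∣ b) E b (D * r) (m₀ * r) (d - m₀.natDegree) hE.1
      (by
        intro p hp
        rw [Finset.mem_filter, mem_pf hE.ne_zero] at hp
        refine ⟨hp.1.1, hp.1.2, fun h => ?_, hp.2⟩
        rw [sq] at h
        exact hp.1.1.2.not_isUnit (hs p h)) hc
    have h3 : (5 : ℝ) ^ ((pf E).filter fun p => ¬ p ∣ b).card ≤ K := by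
      refine le_trans ?_ (P.om_le_K hK hE.ne_zero (by rw [hE.2]; omega))
      exact (pow_le_pow_right₀ (by norm_num) (Finset.card_filter_le _ _)).trans
        (pow_le_pow_left₀ (by norm_num) (by norm_num) _)
    have h4 := TwKt.sum_filter_ge hE.1 hs hb
    have h5 := h2.trans (TwKt.num_le (k := k) (t := 150 * P.κ) h3 (by
      rw [hE.2] at h4 ⊢
      omega))
    rw [h1, abs_mul, abs_mul]
    calc _ ≤ 1 * 1 * (K / qR k ^ (150 * P.κ)) :=
          mul_le_mul (mul_le_mul (hα D) (hβ E) (abs_nonneg _) zero_le_one) h5 (abs_nonneg _)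
            (by norm_num)
      _ = _ := by ring
  · obtain ⟨p, hp, hpE, hpm⟩ := exists_isP_of_not_isCoprime hE.ne_zero fun h => hc h.symm
    refine abs_avm_le_of_le fun D _ => ?_
    by_cases ha : α D = 0
    · simp only [ha, zero_mul, abs_zero]
      exact hB
    have h1 : p ∣ D * r := by
      rcases hp.prime.dvd_or_dvd hpm with h | h
      · exact hsup D p ha hp h
      · exact h.mul_left D
    rw [kl_of_not (fun h => hp.2.not_isUnit (h.isUnit_of_dvd' h1 hpE)), mul_zero, abs_zero]
    exact hB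

end Pool.Agent.Lib.MP_9227d9_nt.Mob
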