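import Pool.Agent.Lib.MP_9227d9_nt.GbA
import Pool.Agent.Lib.MP_9227d9_nt.TwK1
import Pool.Agent.Lib.MP_9227d9_nt.TwKt

/-! Kloosterman fractions with a large numerator. -/

namespace Pool.Agent.Lib.MP_9227d9_nt.Mob

open Polynomial

open scoped Classical

namespace GbK1

open TwK1 (sum_pf not_dvd_both not_sq_dvd sq_avm)

variable {k : Type} [Field k] [Fintype k]

omit [Fintype k] in
theorem sum_union_le (T₁ T₂ : Finset k[X]) :
    ∑ p ∈ T₁ ∪ T₂, p.natDegree ≤ ∑ p ∈ T₁, p.natDegree + ∑ p ∈ T₂, p.natDegree := by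
  have h3 := Finset.sum_union_inter (s₁ := T₁) (s₂ := T₂) (f := fun p : k[X] => p.natDegree)
  omega

omit [Fintype k] in
theorem sum_le_five {S T₁ T₂ T₃ T₄ T₅ : Finset k[X]} (h : S ⊆ T₁ ∪ T₂ ∪ T₃ ∪ T₄ ∪ T₅) :
    ∑ p ∈ S, p.natDegree ≤ ∑ p ∈ T₁, p.natDegree + ∑ p ∈ T₂, p.natDegree +
      ∑ p ∈ T₃, p.natDegree + ∑ p ∈ T₄, p.natDegree + ∑ p ∈ T₅, p.natDegree := by
  have h1 := Finset.sum_le_sum_of_subset (f := fun p : k[X] => p.natDegree) h
  have h2 := sum_union_le (T₁ ∪ T₂ ∪ T₃ ∪ T₄) T₅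
  have h3 := sum_union_le (T₁ ∪ T₂ ∪ T₃) T₄
  have h4 := sum_union_le (T₁ ∪ T₂) T₃
  have h5 := sum_union_le T₁ T₂
  omega

/-- The set of good primes. -/
theorem exists_good {A A' m r b : k[X]} (hA : A.Monic) (hA' : A'.Monic) (hm : m.Monic)
    (hr : r ≠ 0) (hb : b ≠ 0) (hne : A + A' ≠ 0) (hs : Squarefree (A * m)) (hs' : Squarefree (A' * m)) :
    ∃ S : Finset k[X], (∀ p ∈ S, IsP p ∧ p ∣ A * A' * (m * r) ∧ ¬ p ^ 2 ∣ A * A' * (m * r) ∧
      ¬ p ∣ b * (A + A')) ∧
      A.natDegree + m.natDegree + A'.natDegree ≤ ∑ p ∈ S, p.natDegree +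
        2 * cd A A' + 2 * r.natDegree + cd (A + A') m + cd b A + cd b A' + cd b m := by
  have hAm := hA.mul hm
  set S₁ := (pf (A * m)).filter fun p => ¬ p ∣ A' * (r * b) * (A + A') with hS₁
  set S₂ := (pf A').filter fun p => ¬ p ∣ A * m * (r * b) with hS₂
  have hd : Disjoint S₁ S₂ := Finset.disjoint_left.2 fun p h1 h2 =>
    (Finset.mem_filter.1 h2).2 (((mem_pf hAm.ne_zero).1 (Finset.mem_filter.1 h1).1).2.mul_right _)
  refine ⟨S₁ ∪ S₂, fun p hp => ?_, ?_⟩
  · rcases Finset.mem_union.1 hp with h | h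
    · obtain ⟨h1, h2⟩ := Finset.mem_filter.1 h
      obtain ⟨h3, h4⟩ := (mem_pf hAm.ne_zero).1 h1
      have e : A * A' * (m * r) = A * m * (A' * r) := by ring
      rw [e]
      refine ⟨h3, h4.mul_right _, not_sq_dvd h3 hs fun h5 => h2 (h5.trans ⟨b * (A + A'), by ring⟩),
        fun h5 => h2 (h5.trans ⟨A' * r, by ring⟩)⟩
    · obtain ⟨h1, h2⟩ := Finset.mem_filter.1 h
      obtain ⟨h3, h4⟩ := (mem_pf hA'.ne_zero).1 h1
      have e : A * A' * (m * r) = A' * (A * m * r) := by ring
      rw [e]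
      refine ⟨h3, h4.mul_right _, not_sq_dvd h3 hs'.of_mul_left
        fun h5 => h2 (h5.trans ⟨b, by ring⟩), fun h5 => h2 ?_⟩
      rcases h3.prime.dvd_or_dvd h5 with h6 | h6
      · exact h6.trans ⟨A * m * r, by ring⟩
      · exact ((dvd_add_left h4).1 h6).trans ⟨m * (r * b), by ring⟩
  · rw [Finset.sum_union hd]
    have e1 := Finset.sum_filter_add_sum_filter_not (pf (A * m))
      (fun p => p ∣ A' * (r * b) * (A + A')) fun p : k[X] => p.natDegree
    have e2 := Finset.sum_filter_add_sum_filter_not (pf A')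
      (fun p => p ∣ A * m * (r * b)) fun p : k[X] => p.natDegree
    rw [sum_pf hAm hs, hA.natDegree_mul hm] at e1
    rw [sum_pf hA' hs'.of_mul_left] at e2
    have e3 := sum_natDegree_pf_le hr
    have b1 : (pf (A * m)).filter (fun p => p ∣ A' * (r * b) * (A + A')) ⊆
        (pf A).filter (fun p => p ∣ A') ∪ pf r ∪ (pf (A + A')).filter (fun p => p ∣ m) ∪
          (pf b).filter (fun p => p ∣ A) ∪ (pf b).filter (fun p => p ∣ m) := by
      intro p hp
      obtain ⟨h1, h2⟩ := Finset.mem_filter.1 hp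
      obtain ⟨h3, h4⟩ := (mem_pf hAm.ne_zero).1 h1
      simp only [Finset.mem_union, Finset.mem_filter, mem_pf hA.ne_zero, mem_pf hr, mem_pf hb,
        mem_pf hne]
      rcases h3.prime.dvd_or_dvd h2 with h5 | h5
      · rcases h3.prime.dvd_or_dvd h5 with h6 | h6
        · rcases h3.prime.dvd_or_dvd h4 with h7 | h7
          · exact Or.inl (Or.inl (Or.inl (Or.inl ⟨⟨h3, h7⟩, h6⟩)))
          · exact (not_dvd_both h3 hs' h6 h7).elim
        · rcases h3.prime.dvd_or_dvd h6 with h8 | h8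
          · exact Or.inl (Or.inl (Or.inl (Or.inr ⟨h3, h8⟩)))
          · rcases h3.prime.dvd_or_dvd h4 with h7 | h7
            · exact Or.inl (Or.inr ⟨⟨h3, h8⟩, h7⟩)
            · exact Or.inr ⟨⟨h3, h8⟩, h7⟩
      · rcases h3.prime.dvd_or_dvd h4 with h7 | h7
        · exact Or.inl (Or.inl (Or.inl (Or.inl ⟨⟨h3, h7⟩, (dvd_add_right h7).1 h5⟩)))
        · exact Or.inl (Or.inl (Or.inr ⟨⟨h3, h5⟩, h7⟩))
    have b2 : (pf A').filter (fun p => p ∣ A * m * (r * b)) ⊆
        (pf A).filter (fun p => p ∣ A') ∪ pf r ∪ (pf b).filter (fun p => p ∣ A') ∪ ∅ ∪ ∅ := by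
      intro p hp
      obtain ⟨h1, h2⟩ := Finset.mem_filter.1 hp
      obtain ⟨h3, h4⟩ := (mem_pf hA'.ne_zero).1 h1
      simp only [Finset.union_empty, Finset.mem_union, Finset.mem_filter, mem_pf hA.ne_zero,
        mem_pf hr, mem_pf hb]
      rcases h3.prime.dvd_or_dvd h2 with h5 | h5
      · rcases h3.prime.dvd_or_dvd h5 with h7 | h7
        · exact Or.inl (Or.inl ⟨⟨h3, h7⟩, h4⟩)
        · exact (not_dvd_both h3 hs' h4 h7).elim
      · rcases h3.prime.dvd_or_dvd h5 with h7 | h7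
        · exact Or.inl (Or.inr ⟨h3, h7⟩)
        · exact Or.inr ⟨⟨h3, h7⟩, h4⟩
    have c1 := sum_le_five b1
    have c2 := sum_le_five b2
    rw [Finset.sum_empty] at c2
    rw [← hS₁] at e1
    rw [← hS₂] at e2
    unfold cd
    omega

theorem sum_filter_ge {E b : k[X]} (hE : E.Monic) (hs : Squarefree E) (hb : b ≠ 0) :
    E.natDegree ≤ ∑ p ∈ (pf E).filter (fun p => ¬ p ∣ b), p.natDegree + cd b E := by
  have h1 := sum_pf hE hs
  have h2 := Finset.sum_filter_add_sum_filter_not (pf E) (fun p => p ∣ b) fun p => p.natDegree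
  have h3 : ∑ p ∈ (pf E).filter (fun p => p ∣ b), p.natDegree ≤ cd b E := by
    refine Finset.sum_le_sum_of_subset fun p hp => ?_
    rw [Finset.mem_filter, mem_pf hE.ne_zero] at hp
    exact Finset.mem_filter.2 ⟨(mem_pf hb).2 ⟨hp.1.1, hp.2⟩, hp.1.2⟩
  omega

variable [CharP k 2]

/-- Reciprocity for an arbitrary numerator. -/
theorem kl_recip' {M A : k[X]} (hM : M.Monic) (hA : A.Monic) (b : k[X]) :
    kl M b A = kl A b M * eM (M * A) b := by
  by_cases hc : IsCoprime M A
  · rw [eM_crt hM hA hc b]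
    unfold kl
    rw [if_pos hc.symm, if_pos hc]
    have h2 := abs_eM A (b * invM A M)
    generalize eM A (b * invM A M) = v at h2
    rcases (abs_eq zero_le_one).1 h2 with rfl | rfl <;> ring
  · rw [kl_of_not hc, kl_of_not fun h1 => hc h1.symm, zero_mul]

/-- The correction factor is constant on short intervals. -/
theorem eM_shift {E v M b : k[X]} {e τ : ℕ} (hE : MD e E) (he : τ + 1 ≤ e)
    (hv : v.degree < (e - τ - 1 : ℕ)) (hM : M.Monic) (hb : b.natDegree ≤ e + M.natDegree + τ) :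
    eM ((E + v) * M) b = eM (E * M) b := by
  have h1 : MD e (E + v) := hE.add (hv.trans_le (by exact_mod_cast (by omega)))
  have hN := (hE.1.mul hM).mul h1.1
  have h2 : eM (E * M * (E + v)) (b * v) = 1 := by
    refine eM_small hN ?_
    rw [(hE.1.mul hM).natDegree_mul h1.1, hE.1.natDegree_mul hM, hE.2, h1.2]
    by_cases h0 : v = 0
    · rw [h0, mul_zero, natDegree_zero]
      omega
    · have h3 := (natDegree_lt_iff_degree_lt h0).2 hv
      have h4 := natDegree_mul_le (p := b) (q := v)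
      omega
  rw [← eM_mul (h1.1.mul hM) hE.1, ← eM_mul (hE.1.mul hM) h1.1 b, mul_add b, eM_add, h2, mul_one,
    show (E + v) * M * E = E * M * (E + v) by ring]

variable (P : Par k) {K : ℝ} {d e j : ℕ} {b r : k[X]}

/-- The off-diagonal terms. -/
theorem off (hI : StKI) (H : KB2 k P.U P.τ K) (hd : P.n ≤ 2 * d + 23 * P.κ)
    (hd' : 2 * d ≤ P.n + 20 * P.κ) (he : P.n ≤ 2 * e + 23 * P.κ) (hb : b ≠ 0)
    (hb' : b.natDegree ≤ d + e + r.natDegree + P.τ) (hr : r.Monic) (hr' : r.natDegree ≤ P.κ) (hj : 2 * j ≤ d)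
    {A A' m : k[X]} (hA : MD j A) (hA' : MD j A') (hm : MD (d - j) m) (hne : A ≠ A')
    (hs : Squarefree (A * m)) (hs' : Squarefree (A' * m)) (h1 : cd A A' ≤ 50 * P.κ)
    (h2 : cd (A + A') m ≤ 50 * P.κ) (g1 : cd b A ≤ 50 * P.κ) (g2 : cd b A' ≤ 50 * P.κ)
    (g3 : cd b m ≤ 50 * P.κ) :
    |avm e fun E => kl E b (A * m * r) * kl E b (A' * m * r)| ≤ K / qR k ^ (50 * P.κ) := by
  have hκ := P.κ_le
  have hτ := P.τ_le
  have hτ2 := P.τ_pos
  have hne' : A + A' ≠ 0 := fun h => hne (CharTwo.add_eq_zero.1 h)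
  have hmr := hm.1.mul hr
  have hM := (hA.1.mul hA'.1).mul hmr
  have hMd : (A * A' * (m * r)).natDegree = d + j + r.natDegree := by
    rw [(hA.1.mul hA'.1).natDegree_mul hmr, hA.1.natDegree_mul hA'.1, hm.1.natDegree_mul hr,
      hA.2, hA'.2, hm.2]
    omega
  obtain ⟨S, hS, hS'⟩ := exists_good hA.1 hA'.1 hm.1 hr.ne_zero hb hne' hs hs'
  rw [avm_avg_shift (e - P.τ - 1) (fun t => t)
    fun t ht => ht.trans_le (by exact_mod_cast (by omega))]
  refine abs_avm_le_of_le fun E hE => ?_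
  have e1 : avg (e - P.τ - 1) (fun v => kl (E + v) b (A * m * r) * kl (E + v) b (A' * m * r)) =
      eM (E * (A * (m * r))) b * eM (E * (A' * (m * r))) b *
        avg (e - P.τ - 1) fun v => kl (A * A' * (m * r)) (b * (A + A')) (E + 1 * v) := by
    rw [← avg_mul_left]
    refine avg_congr fun v hv => ?_
    have hEv : MD e (E + v) := hE.add (hv.trans_le (by exact_mod_cast (by omega)))
    have key : ∀ B : k[X], MD j B → kl (E + v) b (B * m * r) =
        kl (B * (m * r)) b (E + v) * eM (E * (B * (m * r))) b := fun B hB => by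
      rw [mul_assoc, kl_recip' hEv.1 (hB.1.mul hmr), eM_shift hE (by omega) hv (hB.1.mul hmr)]
      rw [hB.1.natDegree_mul hmr, hm.1.natDegree_mul hr, hB.2, hm.2]
      omega
    rw [key A hA, key A' hA', one_mul, ← kl_mul_kl hA.1 hA'.1 hmr]
    ring
  rw [e1, abs_mul, abs_mul, abs_eM, abs_eM, one_mul, one_mul]
  refine (hI k S _ _ _ 1 (e - P.τ - 1) hM hS isCoprime_one_left).trans ?_
  have h3 : (5 : ℝ) ^ S.card ≤ K := by
    refine le_trans ?_ (P.om_le_K H hM.ne_zero (by omega))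
    refine (pow_le_pow_left₀ (by norm_num) (by norm_num : (5 : ℝ) ≤ 8) _).trans ?_
    exact pow_le_pow_right₀ (by norm_num) (Finset.card_le_card fun p hp =>
      (mem_pf hM.ne_zero).2 ⟨(hS p hp).1, (hS p hp).2.1⟩)
  rw [hA.2, hA'.2, hm.2] at hS'
  have h4 : qR k ^ ((A * A' * (m * r)).natDegree - (e - P.τ - 1)) * qR k ^ (50 * P.κ) ≤
      √(qR k ^ ∑ p ∈ S, p.natDegree) := by
    refine Real.le_sqrt_of_sq_le ?_
    rw [← pow_add, ← pow_mul]
    exact pow_le_pow_right₀ one_le_qR (by omega)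
  have h5 := qR_pow_pos (k := k) ((A * A' * (m * r)).natDegree - (e - P.τ - 1))
  have h6 := qR_pow_pos (k := k) (50 * P.κ)
  have h7 : (0 : ℝ) < √(qR k ^ ∑ p ∈ S, p.natDegree) := (mul_pos h5 h6).trans_le h4
  rw [← mul_div_assoc, div_le_div_iff₀ h7 h6]
  have h8 : (0 : ℝ) ≤ K := le_trans (by positivity) h3
  calc _ = 5 ^ S.card * (qR k ^ ((A * A' * (m * r)).natDegree - (e - P.τ - 1)) *
        qR k ^ (50 * P.κ)) := by ring
    _ ≤ _ := mul_le_mul h3 h4 (mul_pos h5 h6).le h8

/-- The estimate for a fixed degree of the divisor. -/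
theorem core (hI : StKI) (hG : StGX) (H : KB2 k P.U P.τ K) (hd : P.n ≤ 2 * d + 23 * P.κ)
    (hd' : 2 * d ≤ P.n + 20 * P.κ) (he : P.n ≤ 2 * e + 23 * P.κ)
    (he' : 2 * e ≤ P.n + 20 * P.κ) (hb : b ≠ 0)
    (hb' : b.natDegree ≤ d + e + r.natDegree + P.τ) (hr : r.Monic) (hr' : r.natDegree ≤ P.κ) (hj : 2 * j ≤ d)
    (hj' : 50 * P.κ ≤ j) (a : k[X] → k[X] → ℝ) (β : k[X] → ℝ) (ha : ∀ A m, |a A m| ≤ 1)
    (hβ : ∀ E, |β E| ≤ 1)
    (hs : ∀ A m, MD j A → MD (d - j) m → a A m ≠ 0 → Squarefree (A * m)) :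
    |avm j fun A => avm (d - j) fun m => a A m * avm e fun E => β E * kl E b (A * m * r)| ≤
      2 * K / qR k ^ (25 * P.κ) := by
  have hκ := P.κ_le
  have hτ := P.τ_le
  have hK := H.ten_le
  have hq := qR_pow_pos (k := k) (50 * P.κ)
  have e1 : avm j (fun A => avm (d - j) fun m => a A m * avm e fun E => β E * kl E b (A * m * r)) =
      avm (d - j) fun m => avm e fun E => β E * avm j fun A => a A m * kl E b (A * m * r) := by
    rw [avm_comm]
    refine avm_congr fun m _ => ?_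
    simp only [← avm_mul_left]
    rw [avm_comm]
    exact avm_congr fun E _ => avm_congr fun A _ => by ring
  have e2 : avm (d - j) (fun m => avm e fun E => avm j (fun A => a A m * kl E b (A * m * r)) ^ 2) =
      avm j fun A => avm j fun A' => avm (d - j) fun m =>
        a A m * a A' m * avm e fun E => kl E b (A * m * r) * kl E b (A' * m * r) := by
    simp only [sq_avm, ← avm_mul_left]
    calc _ = avm (d - j) fun m => avm j fun A => avm j fun A' => avm e fun E =>
          a A m * a A' m * (kl E b (A * m * r) * kl E b (A' * m * r)) := by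
          refine avm_congr fun m _ => ?_
          rw [avm_comm]
          refine avm_congr fun A _ => ?_
          rw [avm_comm]
          exact avm_congr fun A' _ => avm_congr fun E _ => by ring
      _ = _ := by
          rw [avm_comm]
          exact avm_congr fun A _ => avm_comm _ _ _
  have two_le : ∀ N : k[X], N ≠ 0 → N.natDegree ≤ j → (2 : ℝ) ^ (pf N).card ≤ K := fun N h0 h1 =>
    (pow_le_pow_left₀ (by norm_num) (by norm_num : (2 : ℝ) ≤ 8) _).trans
      (P.om_le_K H h0 (by omega))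
  have gb : ∀ i, 50 * P.κ ≤ i → avm i (fun x => if 50 * P.κ < cd b x then 1 else 0) ≤
      K / qR k ^ (50 * P.κ) := fun i hi => (hG k b (50 * P.κ) i hb hi).trans
    (div_le_div_of_nonneg_right ((pow_le_pow_left₀ (by norm_num) (by norm_num : (2 : ℝ) ≤ 8)
      _).trans (P.om_le_K H hb (by omega))) hq.le)
  have h3 : ∀ A A', MD j A → MD j A' → avm (d - j) (fun m =>
        a A m * a A' m * avm e fun E => kl E b (A * m * r) * kl E b (A' * m * r)) ≤
      (if A' = A then 1 else 0) + (if 50 * P.κ < cd A A' then 1 else 0) +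
        (if 50 * P.κ < cd b A' then 1 else 0) +
        ((if 50 * P.κ < cd b A then 1 else 0) + 3 * K / qR k ^ (50 * P.κ)) := by
    intro A A' hA hA'
    have t1 : ∀ m, |a A m * a A' m| ≤ 1 := fun m => by
      rw [abs_mul]
      exact mul_le_one₀ (ha _ _) (abs_nonneg _) (ha _ _)
    have t2 : ∀ m, |avm e fun E => kl E b (A * m * r) * kl E b (A' * m * r)| ≤ 1 := fun m =>
      abs_avm_le_of_le fun E _ => by
        rw [abs_mul]
        exact mul_le_one₀ (abs_kl_le _ _ _) (abs_nonneg _) (abs_kl_le _ _ _)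
    have t3 : ∀ m, a A m * a A' m * avm e (fun E => kl E b (A * m * r) * kl E b (A' * m * r)) ≤
        1 := fun m => (le_abs_self _).trans (by
      rw [abs_mul]
      exact mul_le_one₀ (t1 m) (abs_nonneg _) (t2 m))
    have t4 : 0 ≤ 3 * K / qR k ^ (50 * P.κ) := by positivity
    by_cases c1 : A' = A
    · refine (avm_le_of_le fun m _ => t3 m).trans ?_
      rw [if_pos c1]
      split_ifs <;> linarith
    by_cases c2 : 50 * P.κ < cd A A'
    · refine (avm_le_of_le fun m _ => t3 m).trans ?_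
      rw [if_neg c1, if_pos c2]
      split_ifs <;> linarith
    by_cases c6 : 50 * P.κ < cd b A'
    · refine (avm_le_of_le fun m _ => t3 m).trans ?_
      rw [if_neg c1, if_neg c2, if_pos c6]
      split_ifs <;> linarith
    by_cases c7 : 50 * P.κ < cd b A
    · refine (avm_le_of_le fun m _ => t3 m).trans ?_
      rw [if_neg c1, if_neg c2, if_neg c6, if_pos c7]
      linarith
    rw [if_neg c1, if_neg c2, if_neg c6, if_neg c7]
    have hne' : A + A' ≠ 0 := fun h => c1 (CharTwo.add_eq_zero.1 h).symm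
    have t5 : (A + A').natDegree ≤ j := (natDegree_add_le _ _).trans (max_le hA.2.le hA'.2.le)
    have t6 := hG k (A + A') (50 * P.κ) (d - j) hne' (by omega)
    have t7 := div_le_div_of_nonneg_right (two_le _ hne' t5) hq.le
    have t10 := gb (d - j) (by omega)
    refine (avm_mono (G := fun m => (if 50 * P.κ < cd (A + A') m then 1 else 0) +
      (if 50 * P.κ < cd b m then 1 else 0) + K / qR k ^ (50 * P.κ)) fun m hm => ?_).trans ?_
    · have t8 : 0 ≤ K / qR k ^ (50 * P.κ) := by positivity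
      split_ifs with c3 c8 c8
      · linarith [t3 m]
      · linarith [t3 m]
      · linarith [t3 m]
      by_cases c4 : a A m = 0
      · rw [c4]
        simpa using t8
      by_cases c5 : a A' m = 0
      · rw [c5]
        simpa using t8
      have t9 := off P hI H hd hd' he hb hb' hr hr' hj hA hA' hm (Ne.symm c1) (hs A m hA hm c4)
        (hs A' m hA' hm c5) (not_lt.1 c2) (not_lt.1 c3) (not_lt.1 c7) (not_lt.1 c6) (not_lt.1 c8)
      refine (le_abs_self _).trans ?_
      rw [abs_mul, zero_add, zero_add]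
      exact (mul_le_of_le_one_left (abs_nonneg _) (t1 m)).trans t9
    · rw [avm_add, avm_add, avm_const, mul_div_assoc]
      linarith
  have h4 : avm j (fun A => avm j fun A' => avm (d - j) fun m =>
        a A m * a A' m * avm e fun E => kl E b (A * m * r) * kl E b (A' * m * r)) ≤
      7 * K / qR k ^ (50 * P.κ) := by
    have t5 := gb j hj'
    refine (avm_mono (G := fun A => (if 50 * P.κ < cd b A then 1 else 0) +
      6 * K / qR k ^ (50 * P.κ)) fun A hA =>
        (avm_mono fun A' hA' => h3 A A' hA hA').trans ?_).trans ?_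
    · rw [avm_add, avm_add, avm_add, avm_const]
      have t1 := avm_eq_one_le (j := j) A
      have t2 := hG k A (50 * P.κ) j hA.ne_zero hj'
      have t3 := div_le_div_of_nonneg_right (two_le _ hA.ne_zero hA.2.le) hq.le
      have t4 : 1 / qR k ^ j ≤ K / qR k ^ (50 * P.κ) :=
        div_le_div₀ (by linarith) (by linarith) hq (pow_le_pow_right₀ one_le_qR hj')
      rw [mul_div_assoc, mul_div_assoc]
      linarith
    · rw [avm_add, avm_const, mul_div_assoc, mul_div_assoc]
      linarith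
  rw [e1]
  refine abs_le_of_sq_le_sq' ?_ (by have := qR_pow_pos (k := k) (25 * P.κ); positivity) |> abs_le.2
  calc _ ≤ avm (d - j) fun m => avm e fun E => avm j (fun A => a A m * kl E b (A * m * r)) ^ 2 := by
        refine sq_avm_le.trans (avm_mono fun m _ => sq_avm_le.trans (avm_mono fun E _ => ?_))
        rw [mul_pow]
        exact mul_le_of_le_one_left (sq_nonneg _) ((sq_le_one_iff_abs_le_one _).2 (hβ E))
    _ ≤ 7 * K / qR k ^ (50 * P.κ) := e2 ▸ h4
    _ ≤ _ := by
        rw [div_pow, ← pow_mul, show 25 * P.κ * 2 = 50 * P.κ by ring]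
        exact div_le_div_of_nonneg_right (by nlinarith) hq.le

end GbK1

theorem stK1g (hI : StKI) (hG : StGX) (hP : StPar1) : StK1g := by
  intro k _ _ _ P K d e α β b r H hd hd' he he' hb hb' hr hr' hα hβ hD
  have hκ := P.κ_le
  have h1 : ∀ D, MD d D → α D ≠ 0 → ∃ D₁ : k[X], D₁.Monic ∧ D₁ ∣ D ∧
      50 * P.κ ≤ D₁.natDegree ∧ 2 * D₁.natDegree ≤ d := by
    intro D h h0
    obtain ⟨-, D₁, m1, ⟨D₂, rfl⟩, l1, l2⟩ := hD D h h0
    have m2 := m1.of_mul_monic_left h.1
    have h2 := h.2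
    rw [m1.natDegree_mul m2] at h2
    by_cases h3 : 2 * D₁.natDegree ≤ d
    · exact ⟨D₁, m1, dvd_mul_right _ _, l1, h3⟩
    · exact ⟨D₂, m2, dvd_mul_left _ _, by omega, by omega⟩
  choose! c hc using h1
  set Ψ : k[X] → ℝ := fun D => avm e fun E => β E * kl E b (D * r) with hΨ
  have e1 : KBi d e α β b r = ∑ j ∈ Finset.Icc (50 * P.κ) (d / 2), avm d fun D =>
      ∑ A ∈ (MoD k j).filter (fun A => A ∣ D), (if c D = A then α D else 0) * Ψ D := by
    rw [← avm_sum, KBi]
    refine avm_congr fun D h => ?_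
    have e2 : avm e (fun E => α D * β E * kl E b (D * r)) = α D * Ψ D := by
      rw [hΨ, ← avm_mul_left]
      exact avm_congr fun E _ => by ring
    rw [e2]
    by_cases h0 : α D = 0
    · simp [h0]
    obtain ⟨m1, m2, m3, m4⟩ := hc D h h0
    simp only [ite_mul, zero_mul, Finset.sum_ite_eq, Finset.mem_filter, mem_MoD, MD]
    rw [Finset.sum_eq_single (c D).natDegree (fun j _ hj => if_neg fun h => hj h.1.2.symm)
      fun hj => absurd (Finset.mem_Icc.2 ⟨m3, by omega⟩) hj, if_pos ⟨⟨m1, rfl⟩, m2⟩]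
  rw [e1]
  refine (Finset.abs_sum_le_sum_abs _ _).trans ((Finset.sum_le_card_nsmul _ _
    (2 * K / qR k ^ (25 * P.κ)) fun j hj => ?_).trans ?_)
  · obtain ⟨j1, j2⟩ := Finset.mem_Icc.1 hj
    rw [hP k d j (fun A D => (if c D = A then α D else 0) * Ψ D) (by omega)]
    refine GbK1.core P hI hG H hd hd' he he' hb hb' hr hr' (by omega) j1
      (fun A m => if c (A * m) = A then α (A * m) else 0) β (fun A m => ?_) hβ
      fun A m hA hm h0 => ?_
    · split_ifs
      · exact hα _
      · simp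
    · have h2 : MD d (A * m) := by
        have := hA.mul hm
        rwa [show j + (d - j) = d by omega] at this
      exact (hD _ h2 fun h3 => h0 (by simp [h3])).1
  · have h2 := P.n_le_K H
    have h3 : ((Finset.Icc (50 * P.κ) (d / 2)).card : ℝ) ≤ K := by
      have h4 : (Finset.Icc (50 * P.κ) (d / 2)).card ≤ 4 * P.n + 10 := by
        rw [Nat.card_Icc]
        omega
      exact le_trans (by exact_mod_cast h4) h2
    have h5 := qR_pow_pos (k := k) (25 * P.κ)
    have h6 := H.ten_le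
    rw [nsmul_eq_mul]
    calc _ ≤ K * (2 * K / qR k ^ (25 * P.κ)) := mul_le_mul_of_nonneg_right h3 (by positivity)
      _ = _ := by ring

theorem stKtg (hI : StKI) (hG : StGX) : StKtg := by
  intro k _ _ _ P K d e α β b r m₀ hK hd1 hd2 he1 he2 hb hbd hm hmd hα hβ hper hsup hsq
  have hκ := P.κ_le
  have hK0 : 0 ≤ K := le_trans (by norm_num) hK.ten_le
  have hB : 0 ≤ K / qR k ^ (150 * P.κ) := div_nonneg hK0 (qR_pow_pos _).le
  unfold KBi
  rw [avm_comm]
  have hbad := (hG k b (150 * P.κ) e hb (by omega)).trans (div_le_div_of_nonneg_right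
    ((pow_le_pow_left₀ (by norm_num) (by norm_num : (2 : ℝ) ≤ 8) _).trans (P.om_le_K hK hb hbd))
    (qR_pow_pos _).le)
  refine abs_avm_le.trans ((avm_mono (G := fun E => (if 150 * P.κ < cd b E then 1 else 0) +
    K / qR k ^ (150 * P.κ)) fun E hE => ?_).trans ?_)
  swap
  · rw [avm_add, avm_const, mul_div_assoc]
    linarith
  split_ifs with hcd
  · refine le_trans (abs_avm_le_of_le fun D _ => ?_) (le_add_of_nonneg_right hB)
    rw [abs_mul, abs_mul]
    exact mul_le_one₀ (mul_le_one₀ (hα D) (abs_nonneg _) (hβ E)) (abs_nonneg _) (abs_kl_le _ _ _)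
  rw [zero_add]
  by_cases h0 : β E = 0
  · simp only [h0, mul_zero, zero_mul, avm_const, abs_zero]
    exact hB
  have hs := hsq E hE h0
  by_cases hc : IsCoprime (m₀ * r) E
  · rw [avm_avg_shift (d - m₀.natDegree) (fun t => m₀ * t)
      fun t ht => degree_mul_lt ht (by omega)]
    refine abs_avm_le_of_le fun D _ => ?_
    have h1 : (avg (d - m₀.natDegree) fun t =>
        α (D + m₀ * t) * β E * kl E b ((D + m₀ * t) * r)) =
        α D * β E * avg (d - m₀.natDegree) fun t => kl E b (D * r + m₀ * r * t) := by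
      rw [← avg_mul_left]
      refine avg_congr fun t _ => ?_
      rw [hper, show (D + m₀ * t) * r = D * r + m₀ * r * t by ring]
    have h2 := hI k ((pf E).filter fun p => ¬ p ∣ b) E b (D * r) (m₀ * r) (d - m₀.natDegree) hE.1
      (by
        intro p hp
        rw [Finset.mem_filter, mem_pf hE.ne_zero] at hp
        refine ⟨hp.1.1, hp.1.2, fun h => ?_, hp.2⟩
        rw [sq] at h
        exact hp.1.1.2.not_isUnit (hs p h)) hc
    have h3 : (5 : ℝ) ^ ((pf E).filter fun p => ¬ p ∣ b).card ≤ K := by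
      refine le_trans ?_ (P.om_le_K hK hE.ne_zero (by rw [hE.2]; omega))
      exact (pow_le_pow_right₀ (by norm_num) (Finset.card_filter_le _ _)).trans
        (pow_le_pow_left₀ (by norm_num) (by norm_num) _)
    have h4 := GbK1.sum_filter_ge hE.1 hs hb
    have h5 := h2.trans (TwKt.num_le (k := k) (t := 150 * P.κ) h3 (by
      rw [hE.2] at h4 ⊢
      omega))
    rw [h1, abs_mul, abs_mul]
    calc _ ≤ 1 * 1 * (K / qR k ^ (150 * P.κ)) :=
          mul_le_mul (mul_le_mul (hα D) (hβ E) (abs_nonneg _) zero_le_one) h5 (abs_nonneg _)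
            (by norm_num)
      _ = _ := by ring
  · obtain ⟨p, hp, hpE, hpm⟩ := exists_isP_of_not_isCoprime hE.ne_zero fun h => hc h.symm
    refine abs_avm_le_of_le fun D _ => ?_
    by_cases ha : α D = 0
    · simp only [ha, zero_mul, abs_zero]
      exact hB
    have h1 : p ∣ D * r := by
      rcases hp.prime.dvd_or_dvd hpm with h | h
      · exact hsup D p ha hp h
      · exact h.mul_left D
    rw [kl_of_not (fun h => hp.2.not_isUnit (h.isUnit_of_dvd' h1 hpE)), mul_zero, abs_zero]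
    exact hB

end Pool.Agent.Lib.MP_9227d9_nt.Mob
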