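import Pool.Agent.Lib.MP_9227d9_nt.TwA

/-! The discrepancy of the untwisted mean. -/

namespace Pool.Agent.Lib.MP_9227d9_nt.Mob

open Polynomial

open scoped Classical

namespace TwKD

variable {k : Type} [Field k] [Fintype k] {h D : k[X]} {d e y : ℕ} {α β φ : k[X] → ℝ}

/-- The inner mean of the discrepancy. -/
noncomputable def J (h : k[X]) (e y : ℕ) (β φ : k[X] → ℝ) (D : k[X]) : ℝ :=
  avm e fun E => if IsCoprime D E then β E *
    (qR k ^ e * avm y (fun Y => if E ∣ D * Y + h then φ (D * Y) else 0) -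
      avm y fun Y => φ (D * Y)) else 0

theorem disc_eq : disc h d e y α β φ = avm d fun D => α D * J h e y β φ D := by
  unfold disc J
  refine avm_congr fun D _ => ?_
  rw [← avm_mul_left]
  exact avm_congr fun E _ => by split_ifs <;> ring

theorem J_sum {ι : Type} (s : Finset ι) (f : ι → k[X] → ℝ) :
    J h e y β (fun F => ∑ i ∈ s, f i F) D = ∑ i ∈ s, J h e y β (f i) D := by
  unfold J
  rw [← avm_sum]
  refine avm_congr fun E _ => ?_
  split_ifs
  · rw [← Finset.mul_sum, Finset.sum_sub_distrib, ← Finset.mul_sum, ← avm_sum, ← avm_sum,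
      avm_congr (n := y) (G := fun Y => ∑ i ∈ s, if E ∣ D * Y + h then f i (D * Y) else 0)
        fun Y _ => by split_ifs <;> simp]
  · simp

theorem disc_sum {ι : Type} (s : Finset ι) (f : ι → k[X] → ℝ) :
    disc h d e y α β (fun F => ∑ i ∈ s, f i F) = ∑ i ∈ s, disc h d e y α β (f i) := by
  simp only [disc_eq, J_sum, Finset.mul_sum]
  exact avm_sum s _

variable [CharP k 2] (P : Par k) {K : ℝ}

/-- The Moebius function on rough polynomials. -/
noncomputable abbrev mr (z : ℕ) (E : k[X]) : ℝ := mu E * rI z E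

theorem pieces (hF : StKF) {B : ℝ} (h0 : 0 ≤ B) {m : ℕ} (hy : P.κ ≤ y) (hm : e + P.κ ≤ y + m)
    (H : ∀ x ∈ SS k P.y P.z ×ˢ SS k P.y P.z, ∀ (a f : k[X]) (β' : k[X] → ℝ), f ≠ 0 →
      f.natDegree < m → (∀ E, |β' E| ≤ sr P.z E) →
      |KBi d e (fun D => α D * pc P.h P.y P.z x (D * a)) β' (f * P.h) (rr x)| ≤ B) :
    |disc P.h d e y α (mr P.z) P.ν| ≤ 4 * qR k ^ P.κ * (qR k ^ m * B) := by
  rw [show P.ν = fun F => ∑ x ∈ SS k P.y P.z ×ˢ SS k P.y P.z, pc P.h P.y P.z x F from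
    funext (nu2_eq_sum _ _ _), disc_sum]
  refine (Finset.abs_sum_le_sum_abs _ _).trans ((Finset.sum_le_card_nsmul _ _ (qR k ^ m * B)
    fun x hx => ?_).trans ?_)
  · obtain ⟨h1, h2, h3⟩ := rr_spec hx
    rw [← P.κ_eq] at h2
    refine (hF k P.h (rr x) d e y α _ _ B h1 (h2.trans hy) (pc_periodic _ _ _ x) (fun E _ hE =>
      (sr_ne_zero_iff.1 (abs_mu_mul_rI P.z E ▸ abs_ne_zero.2 hE)).2.isCoprime_smth h3 h1.ne_zero)
      h0 fun a f β' hf h4 h5 => H x hx a f β' hf (by omega) fun E =>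
        abs_mu_mul_rI P.z E ▸ h5 E).trans ?_
    exact mul_le_mul_of_nonneg_right (pow_le_pow_right₀ one_le_qR (by omega)) h0
  · rw [nsmul_eq_mul, Finset.card_product, Nat.cast_mul, P.κ_eq, pow_mul']
    refine mul_le_mul_of_nonneg_right ?_ (mul_nonneg (qR_pow_pos _).le h0)
    nlinarith [card_SS_le (k := k) P.y P.z, (Nat.cast_nonneg (SS k P.y P.z).card : (0 : ℝ) ≤ _)]

omit [CharP k 2] in
theorem abs_J_le (H : KB2 k P.U P.τ K) (hd : d ≤ P.n) (hD : MD d D) :
    |J P.h e (P.n - d) (mr P.z) P.ν D| ≤ K ^ 3 + K ^ 2 := by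
  have h1 : ∀ Y, MD (P.n - d) Y → MD P.n (D * Y) := fun Y hY => by
    simpa only [Nat.add_sub_cancel' hd] using hD.mul hY
  have h2 : ∀ F, 0 ≤ P.ν F := nu2_nonneg _ _ _
  have hK := H.ten_le
  refine abs_avm_le.trans ((avm_mono (G := fun E => avm (P.n - d) (fun Y => qR k ^ e *
    ((if E ∣ D * Y + P.h then sr P.z E else 0) * K ^ 2)) + K ^ 2) fun E _ => ?_).trans ?_)
  · have h3 : 0 ≤ avm (P.n - d) fun Y => if E ∣ D * Y + P.h then P.ν (D * Y) else 0 :=
      avm_nonneg fun Y _ => by split_ifs; exacts [h2 _, le_rfl]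
    have h4 : 0 ≤ avm (P.n - d) fun Y => P.ν (D * Y) := avm_nonneg fun Y _ => h2 _
    have h5 : avm (P.n - d) (fun Y => P.ν (D * Y)) ≤ K ^ 2 :=
      avm_le_of_le fun Y hY => P.ν_le H (h1 Y hY)
    have h6 : sr P.z E * (qR k ^ e * avm (P.n - d) fun Y =>
        if E ∣ D * Y + P.h then P.ν (D * Y) else 0) ≤ avm (P.n - d) (fun Y => qR k ^ e *
        ((if E ∣ D * Y + P.h then sr P.z E else 0) * K ^ 2)) := by
      rw [mul_left_comm, ← avm_mul_left, ← avm_mul_left]
      refine avm_mono fun Y hY => mul_le_mul_of_nonneg_left ?_ (qR_pow_pos _).le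
      split_ifs
      · exact mul_le_mul_of_nonneg_left (P.ν_le H (h1 Y hY)) (sr_nonneg _ _)
      · simp
    have h7 := mul_nonneg (qR_pow_pos (k := k) e).le h3
    have h8 := sr_nonneg P.z E
    have h9 := sr_le_one P.z E
    split_ifs
    · rw [abs_mul, abs_mu_mul_rI]
      refine (mul_le_mul_of_nonneg_left (abs_sub _ _) h8).trans ?_
      rw [abs_of_nonneg h7, abs_of_nonneg h4]
      nlinarith
    · rw [abs_zero]
      nlinarith [mul_nonneg h8 h7]
  · rw [avm_add, avm_const, avm_comm]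
    refine add_le_add_left (avm_le_of_le fun Y hY => ?_) _
    rw [avm_mul_left, avm_mul_right, ← mul_assoc, ← sum_MoD, ← Finset.sum_filter, pow_succ' K 2]
    refine mul_le_mul_of_nonneg_right (P.tS_le_K H ((h1 Y hY).add_of_lt ?_) e) (by positivity)
    have := P.h_deg
    have := P.n_ge
    have := P.s_ge
    have := P.τ_pos
    nlinarith

omit [CharP k 2] in
theorem abs_gS_le_K (H : KB2 k P.U P.τ K) (hd : d ≤ P.n) (hD : MD d D) (z γ : ℕ) :
    |gS z γ D| ≤ K :=
  (abs_gS_le z γ D).trans ((pow_le_pow_left₀ (by norm_num) (by norm_num) _).trans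
    (P.om_le_K H hD.ne_zero (by rw [hD.2]; omega)))

/-- The truncated indicator of squarefree polynomials. -/
noncomputable def tr (τ : ℕ) (D : k[X]) : ℝ := ∑ f ∈ Mo k τ, if f ^ 2 ∣ D then mu f else 0

omit [CharP k 2] in
theorem abs_sub_tr {τ : ℕ} (hτ : τ ≤ d) (hD : MD d D) : |mu D ^ 2 - tr τ D| ≤
    (((Mo k d).filter fun g => τ < g.natDegree ∧ g ^ 2 ∣ D).card : ℝ) := by
  have h1 : ((Mo k d).filter fun g => g ^ 2 ∣ D).filter (fun g => ¬τ < g.natDegree) =
      (Mo k τ).filter fun g => g ^ 2 ∣ D := by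
    ext g
    simp only [Finset.mem_filter, mem_Mo, not_lt]
    exact ⟨fun h => ⟨⟨h.1.1.1, h.2⟩, h.1.2⟩, fun h => ⟨⟨⟨h.1.1, h.1.2.trans hτ⟩, h.2⟩, h.1.2⟩⟩
  rw [← sum_mu_sq_dvd hD.1 hD.2.le, ← Finset.sum_filter_add_sum_filter_not _
    (fun g => τ < g.natDegree), h1, tr, ← Finset.sum_filter, add_sub_cancel_right,
    Finset.filter_comm, Finset.filter_filter]
  refine (Finset.abs_sum_le_sum_abs _ _).trans ?_
  simpa using Finset.sum_le_card_nsmul _ _ 1 fun g _ => abs_mu_le g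

omit [CharP k 2] in
theorem gS_eq (hD : D ≠ 0) (z γ : ℕ) : gS z γ D =
    ∑ S ∈ (SS k γ γ).filter (fun S => ∑ p ∈ S, p.natDegree < γ),
      if ∏ p ∈ S, p ∣ D then -∏ p ∈ S, (-1 - rI z p) else 0 := by
  rw [← Finset.sum_filter, Finset.sum_neg_distrib, gS]
  refine congrArg _ (Finset.sum_congr (Finset.ext fun S => ?_) fun _ _ => rfl)
  simp only [Finset.mem_filter, Finset.mem_powerset, mem_SS]
  refine ⟨fun h => ?_, fun h => ⟨fun p hp => (mem_pf hD).2 ⟨(h.1.1.1 p hp).1,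
    (Finset.dvd_prod_of_mem _ hp).trans h.2⟩, h.1.2⟩⟩
  have h1 : ∀ p ∈ S, IsP p := fun p hp => isP_of_mem_pf (h.1 hp)
  exact ⟨⟨⟨fun p hp => ⟨h1 p hp, (Finset.single_le_sum (fun _ _ => Nat.zero_le _) hp).trans_lt h.2⟩,
    h.2.le⟩, h.2⟩, (prod_dvd_iff h1).2 fun p hp => ((mem_pf hD).1 (h.1 hp)).2⟩

theorem first (h1 : StK1) (hF : StKF) (hD : StDec) (H : KB2 k P.U P.τ K)
    (hd : 2 * d ≤ P.n + 20 * P.κ) (he : 2 * e ≤ P.n + 20 * P.κ) (hn : P.n < d + e + P.κ) :
    |avm d fun D => mu D ^ 2 * (mr P.z D - gS P.z (50 * P.κ) D) *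
      J P.h e (P.n - d) (mr P.z) P.ν D| ≤
      2 * K * (4 * qR k ^ P.κ * (qR k ^ (21 * P.κ) * (2 * K ^ 2 / qR k ^ (25 * P.κ)))) := by
  have hK := H.ten_le
  have h2 := P.κ_le
  have h3 := P.τ_le
  have h4 := P.τ_pos
  have h5 := P.h_deg
  let α : k[X] → ℝ := fun D =>
    if MD d D then mu D ^ 2 * (mr P.z D - gS P.z (50 * P.κ) D) / (2 * K) else 0
  have hα : ∀ D, |α D| ≤ 1 := fun D => by
    simp only [α]
    split_ifs with h6
    · have h7 := abs_gS_le_K P H (by omega) h6 P.z (50 * P.κ)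
      have h8 : |mu D ^ 2| ≤ 1 := by rw [abs_pow]; exact pow_le_one₀ (abs_nonneg _) (abs_mu_le D)
      have h9 := (abs_sub (mr P.z D) (gS P.z (50 * P.κ) D)).trans
        (add_le_add ((abs_mu_mul_rI _ _).trans_le (sr_le_one _ _)) h7)
      rw [abs_div, abs_mul, abs_of_pos (by positivity : 0 < 2 * K), div_le_one (by positivity)]
      nlinarith [abs_nonneg (mr P.z D - gS P.z (50 * P.κ) D)]
    · simp
  rw [avm_congr (G := fun D => 2 * K * (α D * J P.h e (P.n - d) (mr P.z) P.ν D)) fun D h6 => by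
    simp only [α, if_pos h6]; field_simp, avm_mul_left, ← disc_eq, abs_mul,
    abs_of_pos (by positivity : 0 < 2 * K)]
  refine mul_le_mul_of_nonneg_left (pieces P hF (div_nonneg (by positivity) (qR_pow_pos _).le)
    (by omega) (by omega) fun x hx a f β' hf h6 h7 => ?_) (by positivity)
  refine h1 k P K d e _ β' _ _ H (by omega) hd (by omega) he (mul_ne_zero hf P.h_ne)
    (natDegree_mul_le.trans (by omega)) (rr_spec hx).1 (P.κ_eq ▸ (rr_spec hx).2.1) (fun D => ?_)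
    (fun E => (h7 E).trans (sr_le_one _ _)) fun D h8 h9 => ?_
  · rw [abs_mul]
    exact mul_le_one₀ (hα D) (abs_nonneg _) (P.adm.abs_pc_le hx _)
  · have h10 := left_ne_zero_of_mul h9
    simp only [α, if_pos h8, div_ne_zero_iff, mul_ne_zero_iff] at h10
    have h11 := mu_ne_zero_iff.1 (ne_zero_pow two_ne_zero h10.1.1)
    exact ⟨h11, by_contra fun h12 => h10.1.2 (sub_eq_zero.2 (hD k P.z _ d D (by omega) (by omega)
      (by unfold Par.z; omega) h8 h11 h12))⟩

theorem third (ht : StKt) (hF : StKF) (H : KB2 k P.U P.τ K)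
    (hd : 2 * d ≤ P.n + 20 * P.κ) (he : 2 * e ≤ P.n + 20 * P.κ) (hn : P.n < d + e + P.κ) :
    |avm d fun D => gS P.z (50 * P.κ) D * tr P.τ D * J P.h e (P.n - d) (mr P.z) P.ν D| ≤
      2 * qR k ^ (50 * P.κ) * (2 * qR k ^ P.τ) *
        (K * (4 * qR k ^ P.κ * (qR k ^ (21 * P.κ) * (K / qR k ^ (150 * P.κ))))) := by
  have hK := H.ten_le
  have h2 := P.κ_le
  have h3 := P.τ_le
  have h5 := P.h_deg
  have hB : 0 ≤ K / qR k ^ (150 * P.κ) := div_nonneg (by positivity) (qR_pow_pos _).le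
  rw [avm_congr (G := fun D => ∑ i ∈ (SS k (50 * P.κ) (50 * P.κ)).filter
      (fun S => ∑ p ∈ S, p.natDegree < 50 * P.κ) ×ˢ Mo k P.τ,
      (-∏ p ∈ i.1, (-1 - rI P.z p)) * mu i.2 * ((if ∏ p ∈ i.1, p ∣ D ∧ i.2 ^ 2 ∣ D then 1 else 0) *
        J P.h e (P.n - d) (mr P.z) P.ν D)) fun D h6 => by
    rw [gS_eq h6.ne_zero, tr, Finset.sum_mul_sum, ← Finset.sum_product', Finset.sum_mul]
    refine Finset.sum_congr rfl fun i _ => ?_
    by_cases h7 : ∏ p ∈ i.1, p ∣ D <;> by_cases h8 : i.2 ^ 2 ∣ D <;> simp [h7, h8], avm_sum]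
  refine (Finset.abs_sum_le_sum_abs _ _).trans ((Finset.sum_le_card_nsmul _ _
    (K * (4 * qR k ^ P.κ * (qR k ^ (21 * P.κ) * (K / qR k ^ (150 * P.κ)))))
    fun i hi => ?_).trans ?_)
  on_goal 2 =>
    rw [nsmul_eq_mul, Finset.card_product, Nat.cast_mul]
    exact mul_le_mul_of_nonneg_right (mul_le_mul ((Nat.cast_le.2 (Finset.card_filter_le _ _)).trans
      (card_SS_le _ _)) (card_Mo_le _) (Nat.cast_nonneg _) (mul_pos two_pos (qR_pow_pos _)).le)
      (mul_nonneg (by positivity) (mul_nonneg (mul_pos four_pos (qR_pow_pos _)).le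
        (mul_nonneg (qR_pow_pos _).le hB)))
  obtain ⟨S, g⟩ := i
  simp only [Finset.mem_product, Finset.mem_filter, mem_SS, mem_Mo] at hi
  have hS : ∀ p ∈ S, IsP p := fun p hp => (hi.1.1.1 p hp).1
  have h6 := natDegree_prod_isP hS
  rw [avm_mul_left, ← disc_eq, abs_mul]
  refine mul_le_mul ?_ (pieces P hF hB (by omega) (by omega) fun x hx a f β' hf h7 h8 => ?_)
    (abs_nonneg _) (by positivity)
  · have h7 := P.om_le_K H (monic_prod hS).ne_zero (by omega)
    rw [pf_prod hS, ← Finset.prod_const] at h7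
    rw [abs_mul, abs_neg, Finset.abs_prod]
    refine (mul_le_of_le_one_right (Finset.prod_nonneg fun _ _ => abs_nonneg _)
      (abs_mu_le _)).trans ((Finset.prod_le_prod (fun _ _ => abs_nonneg _) fun p _ => ?_).trans h7)
    rw [abs_le]
    constructor <;> linarith [rI_nonneg P.z p, rI_le_one P.z p]
  obtain ⟨h9, h10, -⟩ := rr_spec hx
  rw [← P.κ_eq] at h10
  refine ht k P K d e _ β' _ _ ((∏ p ∈ S, p) * g ^ 2 * rr x) H (by omega) hd (by omega) he
    (mul_ne_zero hf P.h_ne) (natDegree_mul_le.trans (by omega))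
    (((monic_prod hS).mul (hi.2.1.pow 2)).mul h9).ne_zero ?_ (fun D => ?_)
    (fun E => (h8 E).trans (sr_le_one _ _)) (fun D t => ?_) (fun D p h11 hp h12 => ?_)
    fun E _ h11 => (sr_ne_zero_iff.1 ((abs_pos.2 h11).trans_le (h8 E)).ne').1
  · have := natDegree_mul_le (p := (∏ p ∈ S, p) * g ^ 2) (q := rr x)
    have := natDegree_mul_le (p := ∏ p ∈ S, p) (q := g ^ 2)
    have := natDegree_pow_le (p := g) (n := 2)
    omega
  · rw [abs_mul]
    exact mul_le_one₀ (by split_ifs <;> simp) (abs_nonneg _) (P.adm.abs_pc_le hx _)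
  · rw [show (D + (∏ p ∈ S, p) * g ^ 2 * rr x * t) * a =
      D * a + rr x * ((∏ p ∈ S, p) * g ^ 2 * t * a) by ring, pc_periodic]
    exact congrArg (· * _) (if_congr (and_congr
      (dvd_add_left (((dvd_mul_right _ _).mul_right _).mul_right _))
      (dvd_add_left (((dvd_mul_left _ _).mul_right _).mul_right _))) rfl rfl)
  · have h13 : ∏ p ∈ S, p ∣ D ∧ g ^ 2 ∣ D := by_contra fun h => left_ne_zero_of_mul h11 (if_neg h)
    rcases hp.prime.dvd_or_dvd h12 with h14 | h14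
    · exact ((hp.prime.dvd_or_dvd h14).elim (·.trans h13.1) (·.trans h13.2)).mul_right _
    · exact h14.mul_left _

end TwKD

open TwKD in
theorem stKD (h1 : StK1) (ht : StKt) (hF : StKF) (hD : StDec) (hSQ : StSQ) : StKD := by
  intro k _ _ _ P K d e H hd he
  have hK := H.ten_le
  have h2 := P.κ_le
  have h3 := P.τ_le
  have hQ := P.two_le_Q
  by_cases hn : d + e + P.κ ≤ P.n
  · refine (pieces P hF (m := 0) le_rfl (by omega) (by omega)
      fun _ _ _ _ _ _ h => absurd h (Nat.not_lt_zero _)).trans ?_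
    rw [mul_zero, mul_zero]
    positivity
  rw [not_le] at hn
  have h4 := first P h1 hF hD H hd he hn
  have h5 := third P ht hF H hd he hn
  have h6 : |avm d fun D => gS P.z (50 * P.κ) D * (mu D ^ 2 - tr P.τ D) *
      J P.h e (P.n - d) (mr P.z) P.ν D| ≤ K * (1 / P.Q) * (K ^ 3 + K ^ 2) := by
    refine abs_avm_le.trans ((avm_mono fun D h7 => ?_).trans ((avm_mul_right _).trans_le
      (mul_le_mul_of_nonneg_right ((avm_mul_left _).trans_le
        (mul_le_mul_of_nonneg_left (hSQ k d P.τ) (by positivity))) (by positivity))))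
    rw [abs_mul, abs_mul]
    exact mul_le_mul (mul_le_mul (abs_gS_le_K P H (by omega) h7 _ _) (abs_sub_tr (by omega) h7)
      (abs_nonneg _) (by positivity)) (abs_J_le P H (by omega) h7) (abs_nonneg _) (by positivity)
  rw [disc_eq, avm_congr (G := fun D => mu D ^ 2 * (mr P.z D - gS P.z (50 * P.κ) D) *
    J P.h e (P.n - d) (mr P.z) P.ν D + gS P.z (50 * P.κ) D * (mu D ^ 2 - tr P.τ D) *
      J P.h e (P.n - d) (mr P.z) P.ν D + gS P.z (50 * P.κ) D * tr P.τ D *
        J P.h e (P.n - d) (mr P.z) P.ν D) fun D _ => by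
    have : mu D ^ 2 * mu D = mu D := by
      rw [mu_sq]
      split_ifs with h
      · rw [one_mul]
      · rw [zero_mul, not_not.1 (mt mu_ne_zero_iff.1 h)]
    linear_combination -(rI P.z D * J P.h e (P.n - d) (mr P.z) P.ν D) * this, avm_add, avm_add]
  refine (abs_add_three _ _ _).trans ((add_le_add_three h4 h6 h5).trans ?_)
  have h7 : P.Q ≤ qR k ^ P.κ := pow_le_pow_right₀ one_le_qR (by omega)
  rw [show qR k ^ P.τ = P.Q from rfl]
  simp only [pow_mul']
  generalize qR k ^ P.κ = W at h7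
  generalize P.Q = Q at h7 hQ
  have hW : 1 ≤ W := by linarith
  have h8 : 2 * K * (4 * W * (W ^ 21 * (2 * K ^ 2 / W ^ 25))) ≤ 16 * K ^ 3 / Q := by
    rw [show 2 * K * (4 * W * (W ^ 21 * (2 * K ^ 2 / W ^ 25))) = 16 * K ^ 3 / W ^ 3 by
      field_simp; ring]
    exact div_le_div_of_nonneg_left (by positivity) (by positivity)
      (h7.trans (le_self_pow₀ hW (by norm_num)))
  have h9 : 2 * W ^ 50 * (2 * Q) * (K * (4 * W * (W ^ 21 * (K / W ^ 150)))) ≤ 16 * K ^ 2 / Q := by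
    rw [show 2 * W ^ 50 * (2 * Q) * (K * (4 * W * (W ^ 21 * (K / W ^ 150)))) =
      16 * K ^ 2 / (W ^ 78 / Q) by field_simp; ring]
    refine div_le_div_of_nonneg_left (by positivity) (by positivity) ?_
    rw [le_div_iff₀ (by positivity), ← sq]
    exact (pow_le_pow_left₀ (by positivity) h7 2).trans (pow_le_pow_right₀ hW (by norm_num))
  refine (add_le_add_three h8 le_rfl h9).trans ?_
  rw [mul_one_div, div_mul_eq_mul_div, ← add_div, ← add_div]
  refine div_le_div_of_nonneg_right ?_ (by positivity)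
  have h10 : 0 < K ^ 2 := by positivity
  nlinarith [mul_le_mul_of_nonneg_left hK h10.le, mul_le_mul_of_nonneg_left hK
    (show 0 ≤ K ^ 3 by positivity)]

end Pool.Agent.Lib.MP_9227d9_nt.Mob
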