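import Pool.Agent.Lib.MP_9227d9_nt.TwA

/-! The choice of the parameters and the limit. -/

namespace Pool.Agent.Lib.MP_9227d9_nt.Mob

open Polynomial Filter Topology

open scoped Classical

namespace TwLim

theorem eps_nonneg (s : ℕ) : 0 ≤ eps s := by unfold eps; positivity

theorem tendsto_eps (a : ℝ) : Tendsto (fun s : ℕ => a ^ s * eps s) atTop (𝓝 0) := by
  rw [← tendsto_add_atTop_iff_nat 2]
  have h := (FloorSemiring.tendsto_pow_div_factorial_atTop (a * 8)).const_mul ((a * 8) ^ 2)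
  rw [mul_zero] at h
  refine h.congr fun m => ?_
  rw [eps, Nat.add_sub_cancel, ← mul_div_assoc, ← mul_div_assoc, ← mul_pow, ← pow_add, add_comm]

theorem exists_s {ε : ℝ} (hε : 0 < ε) :
    ∃ s : ℕ, 16 ≤ s ∧ (64 : ℝ) ^ (8000 * s) * eps s ≤ ε := by
  obtain ⟨a, ha⟩ : ∃ a : ℝ, ∀ s : ℕ, (64 : ℝ) ^ (8000 * s) = a ^ s := ⟨_, pow_mul _ _⟩
  obtain ⟨s, h1, h2⟩ :=
    ((eventually_ge_atTop 16).and ((tendsto_eps a).eventually (ge_mem_nhds hε))).exists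
  exact ⟨s, h1, by rwa [ha]⟩

theorem pow_bound {c m : ℕ} (hc : 1 ≤ c) (hm : m ≤ c) :
    (c : ℝ) ^ 2 * 4 ^ (m + 1) ≤ 64 ^ c := by
  have h1 : (c : ℝ) ≤ 2 ^ c := by exact_mod_cast Nat.lt_two_pow_self.le
  have h2 : (4 : ℝ) ^ (m + 1) ≤ 4 ^ (2 * c) := pow_le_pow_right₀ (by norm_num) (by omega)
  calc (c : ℝ) ^ 2 * 4 ^ (m + 1) ≤ (2 ^ c) ^ 2 * 4 ^ (2 * c) := by gcongr
    _ = 64 ^ c := by
      rw [← pow_mul, mul_comm c 2, pow_mul, pow_mul, ← mul_pow]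
      norm_num

theorem small_lin {q ε : ℝ} (hq : 2 ≤ q) (hε : 0 < ε) :
    ∀ᶠ y : ℕ in atTop, ((y : ℝ) + 1) / q ^ (y / 4) ≤ ε := by
  have h1 := ((tendsto_pow_const_div_const_pow_of_one_lt 1 (r := q) (by linarith)).add
    (tendsto_pow_const_div_const_pow_of_one_lt 0 (r := q) (by linarith))).const_mul 4
  rw [add_zero, mul_zero] at h1
  filter_upwards [(h1.comp (Nat.tendsto_div_const_atTop (n := 4) (by norm_num))).eventually
    (ge_mem_nhds hε)] with y hy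
  refine le_trans ?_ hy
  have h2 : (y : ℝ) + 1 ≤ 4 * ((y / 4 : ℕ) + 1) := by
    exact_mod_cast (by omega : y + 1 ≤ 4 * (y / 4 + 1))
  simp only [Function.comp, pow_one, pow_zero]
  rw [← add_div, ← mul_div_assoc]
  exact div_le_div_of_nonneg_right h2 (by positivity)

theorem third_aux {t a b c C C' K ε : ℝ} (ht : 1 ≤ t) (hC' : 0 < C') (hε : 0 < ε)
    (hb : t ^ 32 ≤ b) (hc : t ^ 32 ≤ 4 * c) (ha : c ≤ a) (h0 : 0 ≤ K) (hK : K ≤ C * t)
    (h1 : 20 * C ^ 8 * (4 + √C') / ε ≤ t) :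
    20 * K ^ 8 * (1 / √a + √(C' / b) + 1 / √c) ≤ ε := by
  have ht0 : 0 < t := by linarith
  have h2 : 0 < t ^ 32 := by positivity
  have h3 : 0 < c := by linarith
  have h4 : t ^ 16 / 2 ≤ √c := Real.le_sqrt_of_sq_le (by
    rw [div_pow, ← pow_mul]; linarith)
  have h5 : 1 / √c ≤ 2 / t ^ 16 := by
    rw [← one_div_div (t ^ 16)]
    exact one_div_le_one_div_of_le (by positivity) h4
  have h6 : 1 / √a ≤ 1 / √c :=
    one_div_le_one_div_of_le (Real.sqrt_pos.2 h3) (Real.sqrt_le_sqrt ha)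
  have h7 : √(C' / b) ≤ √C' / t ^ 16 := by
    rw [Real.sqrt_div hC'.le]
    refine div_le_div_of_nonneg_left (Real.sqrt_nonneg _) (by positivity)
      (Real.le_sqrt_of_sq_le ?_)
    rwa [← pow_mul]
  have h8 : 1 / √a + √(C' / b) + 1 / √c ≤ (4 + √C') / t ^ 16 := by
    have : (4 + √C') / t ^ 16 = 2 / t ^ 16 + √C' / t ^ 16 + 2 / t ^ 16 := by ring
    linarith
  have h9 : t ≤ t ^ 8 := le_self_pow₀ ht (by norm_num)
  calc 20 * K ^ 8 * (1 / √a + √(C' / b) + 1 / √c)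
      ≤ 20 * (C * t) ^ 8 * ((4 + √C') / t ^ 16) := by gcongr
    _ = 20 * C ^ 8 * (4 + √C') / t ^ 8 := by field_simp
    _ ≤ ε := by
      rw [div_le_iff₀ (by positivity)]
      rw [div_le_iff₀ hε] at h1
      nlinarith

theorem third {q C' δ ε : ℝ} {W : ℕ} (hq : 2 ≤ q) (hC' : 0 < C') (hδ : 0 < δ) (hW : 1 ≤ W)
    (hε : 0 < ε) : ∃ θ : ℝ, 1 < θ ∧ ∀ C : ℝ, ∀ᶠ τ : ℕ in atTop, C' / q ^ (δ * τ) ≤ 1 ∧
      ∀ K : ℝ, 0 ≤ K → K ≤ C * θ ^ τ →
        20 * K ^ 8 * (1 / √(q ^ τ) + √(C' / q ^ (δ * τ)) + 1 / √(q ^ (τ / W))) ≤ ε := by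
  have hW' : (0 : ℝ) < W := by exact_mod_cast hW
  obtain ⟨c, hc, hc1, hc2⟩ : ∃ c : ℝ, 0 < c ∧ c ≤ δ ∧ c ≤ 1 / W :=
    ⟨min δ (1 / W), lt_min hδ (by positivity), min_le_left _ _, min_le_right _ _⟩
  have hθ : (1 : ℝ) < 2 ^ (c / 32) := Real.one_lt_rpow (by norm_num) (by positivity)
  refine ⟨_, hθ, fun C => ?_⟩
  have ht := tendsto_pow_atTop_atTop_of_one_lt hθ
  filter_upwards [ht.eventually_ge_atTop 1, ht.eventually_ge_atTop C',
    ht.eventually_ge_atTop (20 * C ^ 8 * (4 + √C') / ε)] with τ h1 h2 h3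
  have e : (((2 : ℝ) ^ (c / 32)) ^ τ) ^ 32 = 2 ^ (c * τ) := by
    rw [← pow_mul, ← Real.rpow_mul_natCast (by norm_num)]
    congr 1
    push_cast
    ring
  have hτ : (0 : ℝ) ≤ τ := Nat.cast_nonneg τ
  have hb : (((2 : ℝ) ^ (c / 32)) ^ τ) ^ 32 ≤ q ^ (δ * τ) := by
    rw [e]
    exact (Real.rpow_le_rpow_of_exponent_le (by norm_num)
      (mul_le_mul_of_nonneg_right hc1 hτ)).trans
      (Real.rpow_le_rpow (by norm_num) hq (by positivity))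
  have hc' : (((2 : ℝ) ^ (c / 32)) ^ τ) ^ 32 ≤ 4 * q ^ (τ / W) := by
    have h4 : (τ : ℝ) ≤ W * ((τ / W + 1 : ℕ) : ℝ) := by
      exact_mod_cast (Nat.lt_mul_div_succ τ hW).le
    have h5 : c * τ ≤ ((τ / W + 1 : ℕ) : ℝ) := by
      refine (mul_le_mul_of_nonneg_right hc2 hτ).trans ?_
      rwa [one_div_mul_eq_div, div_le_iff₀' hW']
    have h6 : (2 : ℝ) ^ (τ / W) ≤ q ^ (τ / W) := pow_le_pow_left₀ (by norm_num) hq _
    have h7 : (0 : ℝ) < 2 ^ (τ / W) := by positivity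
    rw [e]
    refine (Real.rpow_le_rpow_of_exponent_le (by norm_num) h5).trans ?_
    rw [Real.rpow_natCast, pow_succ]
    linarith
  refine ⟨?_, fun K h0 hK => third_aux h1 hC' hε hb hc'
    (pow_le_pow_right₀ (by linarith) (Nat.div_le_self _ _)) h0 hK h3⟩
  refine div_le_one_of_le₀ (h2.trans ((le_self_pow₀ h1 (by norm_num)).trans hb)) ?_
  exact Real.rpow_nonneg (by linarith) _

theorem arith {x M G P₁ P₂ z n v e η c B E T ε : ℝ} (hG : 1 ≤ G) (h1 : G ≤ P₂)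
    (h2 : P₂ ≤ (1 + e) * G) (hz : 0 < z) (h3 : z ≤ P₁) (h4 : |M - P₁| ≤ η * P₁) (he : 0 ≤ e)
    (he' : e ≤ ε) (hη : η ≤ 49 * ε) (hε : ε ≤ 1 / 100) (hn : 0 ≤ n) (h5 : n ≤ c * z)
    (h6 : n + 1 ≤ 2 * (c * z)) (hv : 0 ≤ v) (h7 : c ^ 3 * v ≤ ε * z) (hB : 0 ≤ B)
    (h8 : c ^ 2 * B * e ≤ ε) (hT : P₁ ^ 2 / P₂ ≤ T)
    (H : |x - M ^ 2 / G| ≤ n ^ 2 * B * e / G + n ^ 2 * (n + 1) * v / (z ^ 2 * G) + E) :
    |x - P₁ ^ 2 / P₂| ≤ 301 * T * ε + E := by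
  have hG0 : 0 < G := by linarith
  have hP₁ : 0 < P₁ := by linarith
  have hP₂ : 0 < P₂ := by linarith
  have hε0 : 0 ≤ ε := he.trans he'
  have hc : 0 ≤ c := by
    by_contra hc
    have := mul_neg_of_neg_of_pos (not_le.1 hc) hz
    linarith
  obtain ⟨R, hR⟩ : ∃ R, R = P₁ ^ 2 / P₂ := ⟨_, rfl⟩
  obtain ⟨V, hV⟩ : ∃ V, V = P₁ ^ 2 / G := ⟨_, rfl⟩
  rw [← hR] at hT ⊢
  have hR0 : 0 ≤ R := by rw [hR]; positivity
  have a1 : R ≤ V := by rw [hR, hV]; gcongr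
  have a2 : V ≤ (1 + e) * R := by
    rw [hR, hV, ← mul_div_assoc, div_le_div_iff₀ hG0 hP₂]
    nlinarith [mul_le_mul_of_nonneg_left h2 (sq_nonneg P₁)]
  have a3 : V ≤ 2 * T := by nlinarith
  have a4 : z ^ 2 / G ≤ V := by rw [hV]; gcongr
  have b1 : n ^ 2 * B * e / G ≤ ε * V := by
    calc n ^ 2 * B * e / G ≤ (c * z) ^ 2 * B * e / G := by gcongr
      _ = c ^ 2 * B * e * (z ^ 2 / G) := by ring
      _ ≤ ε * V := by gcongr
  have b2 : n ^ 2 * (n + 1) * v / (z ^ 2 * G) ≤ 2 * ε * V := by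
    calc n ^ 2 * (n + 1) * v / (z ^ 2 * G)
        ≤ (c * z) ^ 2 * (2 * (c * z)) * v / (z ^ 2 * G) := by gcongr
      _ = 2 * (c ^ 3 * v) * z / G := by field_simp
      _ ≤ 2 * (ε * z) * z / G := by gcongr
      _ = 2 * ε * (z ^ 2 / G) := by ring
      _ ≤ 2 * ε * V := by gcongr
  have b3 : |M ^ 2 / G - V| ≤ 147 * ε * V := by
    have h9 : |M - P₁| ≤ 49 * ε * P₁ := h4.trans (by gcongr)
    have h10 : |M + P₁| ≤ 3 * P₁ := by
      have := abs_le.1 h9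
      rw [abs_le]
      constructor <;> nlinarith
    rw [hV, ← sub_div, abs_div, abs_of_pos hG0, sq_sub_sq, abs_mul, ← mul_div_assoc]
    refine div_le_div_of_nonneg_right ?_ hG0.le
    calc |M + P₁| * |M - P₁| ≤ 3 * P₁ * (49 * ε * P₁) := by gcongr
      _ = 147 * ε * P₁ ^ 2 := by ring
  have b4 : |V - R| ≤ ε * T := by
    rw [abs_of_nonneg (by linarith)]
    nlinarith [mul_le_mul he' hT hR0 hε0]
  have b5 := mul_le_mul_of_nonneg_left a3 hε0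
  have b6 := abs_sub_le x (M ^ 2 / G) V
  have b7 := abs_sub_le x V R
  linarith

theorem key (hC : StCore2) (hK : StK2) (hL : StLine) (hM : StMM) (hDe : StDe)
    {k : Type} [Field k] [Fintype k] [CharP k 2] {h : k[X]} {S : ℝ} (h0 : h ≠ 0) (ha : Adm h)
    (hS : Tendsto (fun z => Pi1 k z ^ 2 / Pi2 h z) atTop (𝓝 S)) {ε : ℝ} (hε : 0 < ε)
    (hε' : ε ≤ 1 / 100) : ∃ s : ℕ, 16 ≤ s ∧ ∀ᶠ τ : ℕ in atTop, ∀ n : ℕ, 48000 * (s * τ) ≤ n →
      n ≤ 96000 * s * τ → |(n : ℝ) ^ 2 * avm n (tw h) - S| ≤ (301 * (|S| + 1) + 2) * ε := by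
  obtain ⟨s, hs, hs'⟩ := exists_s hε
  refine ⟨s, hs, ?_⟩
  obtain ⟨W, hW⟩ := exists_nat_ge (((8000 * s : ℕ) : ℝ) ^ 3 / ε + 1)
  have hW0 : (0 : ℝ) ≤ ((8000 * s : ℕ) : ℝ) ^ 3 / ε := by positivity
  have hW1 : 1 ≤ W := by exact_mod_cast (by linarith : (1 : ℝ) ≤ W)
  obtain ⟨C', δ, hC', hδ, hL'⟩ := hL (96000 * s)
  obtain ⟨θ, hθ, H3⟩ := third (two_le_qR (k := k)) hC' hδ hW1 hε
  obtain ⟨C, hK'⟩ := hK k (96000 * s) θ hθ
  obtain ⟨N, hN⟩ := eventually_atTop.1 (small_lin (two_le_qR (k := k)) hε)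
  have hS' : Tendsto (fun τ : ℕ => Pi1 k (12 * τ) ^ 2 / Pi2 h (12 * τ)) atTop (𝓝 S) :=
    hS.comp (tendsto_id.const_mul_atTop' (by norm_num))
  filter_upwards [H3 C, eventually_ge_atTop N, eventually_ge_atTop W, eventually_ge_atTop 2,
    eventually_ge_atTop h.natDegree, eventually_ge_atTop ((96000 * s) ^ 2),
    Metric.tendsto_nhds.1 hS' ε hε] with τ ⟨t1, t2⟩ t3 t4 t5 t6 t7 t8 n hn hn'
  obtain ⟨K, hK1, hK2⟩ := hK' τ (by omega)
  let P : Par k := ⟨h, τ, s, 96000 * s, n, h0, ha, t6, t5, hs, hn, hn', t7⟩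
  have hq := qR_pos (k := k)
  have core := hC k P K _ (τ / W) hK2 (hL' k τ (by omega)) (by positivity) t1
  have hst : 16 * τ ≤ s * τ := Nat.mul_le_mul_right τ hs
  have e1 : s * (12 * τ) = 12 * (s * τ) := by ring
  have e2 : (2 * s + 1) * (12 * τ) = 24 * (s * τ) + 12 * τ := by ring
  have e3 : 96000 * s * τ = 96000 * (s * τ) := by ring
  obtain ⟨-, d1, d2⟩ := hDe k h s (12 * τ) n ha (by omega) hs (by omega)
  obtain ⟨m1, m2⟩ := hM k (12 * τ) s (n / 2 + 10 * (24 * (s * τ))) n (by omega) hs (by omega)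
    (by omega) (by omega)
  have he := eps_nonneg s
  have he' : eps s ≤ ε :=
    (le_mul_of_one_le_left he (one_le_pow₀ (by norm_num))).trans hs'
  have hn1 : n ≤ 8000 * s * (12 * τ) := hn'.trans_eq (by ring)
  have hn2 : n + 1 ≤ 2 * (8000 * s * (12 * τ)) := by omega
  have hn3 : n / (12 * τ) ≤ 8000 * s := Nat.div_le_of_le_mul (by rwa [mul_comm])
  have hw : (W : ℝ) * (2 * ((τ / W : ℕ) : ℝ) + 1) ≤ ((12 * τ : ℕ) : ℝ) := by
    have := Nat.mul_div_le τ W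
    exact_mod_cast (by rw [mul_add, mul_left_comm]; omega : W * (2 * (τ / W) + 1) ≤ 12 * τ)
  rw [Real.dist_eq] at t8
  have t9 := abs_lt.1 t8
  have t10 := le_abs_self S
  have main := arith (c := ((8000 * s : ℕ) : ℝ)) (T := |S| + 1) (ε := ε) P.one_le_G d1 d2
    (by exact_mod_cast (by omega : 0 < 12 * τ)) m1 m2 he he'
    (by have := hN (n / 2 + 10 * (24 * (s * τ))) (by omega); linarith) hε' (Nat.cast_nonneg n)
    (by exact_mod_cast hn1) (by exact_mod_cast hn2) (by positivity)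
    (by
      have h1 : ((8000 * s : ℕ) : ℝ) ^ 3 ≤ ε * W := by
        rw [← div_le_iff₀' hε]; linarith
      calc _ ≤ ε * W * (2 * ((τ / W : ℕ) : ℝ) + 1) := by gcongr
        _ ≤ _ := by rw [mul_assoc]; gcongr)
    (by positivity)
    ((mul_le_mul_of_nonneg_right (pow_bound (by omega) hn3) he).trans hs') (by linarith) core
  have t11 := t2 K (by linarith [hK2.ten_le]) hK1
  have t12 := abs_sub_le ((n : ℝ) ^ 2 * avm n (tw h)) (Pi1 k (12 * τ) ^ 2 / Pi2 h (12 * τ)) S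
  have main' : |(n : ℝ) ^ 2 * avm n (tw h) - Pi1 k (12 * τ) ^ 2 / Pi2 h (12 * τ)| ≤
      301 * (|S| + 1) * ε + ε := main.trans (add_le_add le_rfl t11)
  linarith

end TwLim

theorem stLim (hC : StCore2) (hK : StK2) (hL : StLine) (hM : StMM) (hDe : StDe) : StLim := by
  intro k _ _ _ h S h0 ha hS
  rw [Metric.tendsto_nhds]
  intro e he
  have hT : 0 < 301 * (|S| + 1) + 2 := by positivity
  obtain ⟨ε, hε, h1, h2⟩ : ∃ ε : ℝ, 0 < ε ∧ ε ≤ 1 / 100 ∧ (301 * (|S| + 1) + 2) * ε < e := by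
    refine ⟨min (1 / 100) (e / 2 / (301 * (|S| + 1) + 2)), by positivity, min_le_left _ _, ?_⟩
    refine (mul_le_mul_of_nonneg_left (min_le_right _ _) hT.le).trans_lt ?_
    rw [mul_div_cancel₀ _ hT.ne']
    linarith
  obtain ⟨s, hs, H⟩ := TwLim.key hC hK hL hM hDe h0 ha hS hε h1
  have ht := Nat.tendsto_div_const_atTop (n := 48000 * s) (by omega)
  filter_upwards [ht.eventually H, ht.eventually_ge_atTop 1] with n hn hn'
  rw [Real.dist_eq]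
  refine (hn n ?_ ?_).trans_lt h2
  · rw [← mul_assoc]
    exact Nat.mul_div_le n _
  · have h3 := Nat.lt_mul_div_succ n (show 0 < 48000 * s by omega)
    have h4 := Nat.mul_le_mul_left (48000 * s) hn'
    rw [show 96000 * s * (n / (48000 * s)) = 2 * (48000 * s * (n / (48000 * s))) by ring]
    rw [mul_add] at h3
    omega

end Pool.Agent.Lib.MP_9227d9_nt.Mob
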