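import Pool.Agent.Lib.MP_9227d9_nt.GbA
import Pool.Agent.Lib.MP_9227d9_nt.TwLim

/-! The choice of the parameters and the limit, uniformly in the shift. -/

namespace Pool.Agent.Lib.MP_9227d9_nt.Mob

open Polynomial Filter Topology

open scoped Classical

namespace GbLim

theorem exists_s {ε : ℝ} (hε : 0 < ε) :
    ∃ s : ℕ, 16 ≤ s ∧ (64 : ℝ) ^ (8000 * (s + 1)) * eps s ≤ ε := by
  obtain ⟨a, ha⟩ : ∃ a : ℝ, ∀ s : ℕ, (64 : ℝ) ^ (8000 * s) = a ^ s := ⟨_, pow_mul _ _⟩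
  have h := (TwLim.tendsto_eps a).const_mul a
  rw [mul_zero] at h
  obtain ⟨s, h1, h2⟩ := ((eventually_ge_atTop 16).and (h.eventually (ge_mem_nhds hε))).exists
  exact ⟨s, h1, by rwa [ha, pow_succ', mul_assoc]⟩

theorem two_terms {M₁ M₂ P G P₂ e ε : ℝ} (hG : 1 ≤ G) (h1 : G ≤ P₂) (h2 : P₂ ≤ (1 + e) * G)
    (hP : 0 < P) (he : e ≤ ε) (hε0 : 0 ≤ ε) (hε : ε ≤ 1 / 100) (h3 : |M₁ - P| ≤ 49 * ε * P)
    (h4 : |M₂ - P| ≤ 49 * ε * P) : |M₁ * M₂ / G - P ^ 2 / G| ≤ 294 * (P ^ 2 / P₂) * ε := by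
  have hG0 : 0 < G := by linarith
  have hP₂ : 0 < P₂ := by linarith
  have h5 : |M₂| ≤ 2 * P := by
    have := abs_le.1 h4
    rw [abs_le]
    constructor <;> nlinarith
  have h6 : |M₁ * M₂ - P ^ 2| ≤ 147 * ε * P ^ 2 := by
    rw [show M₁ * M₂ - P ^ 2 = (M₁ - P) * M₂ + P * (M₂ - P) by ring]
    refine (abs_add_le _ _).trans ?_
    rw [abs_mul, abs_mul, abs_of_pos hP]
    calc |M₁ - P| * |M₂| + P * |M₂ - P| ≤ 49 * ε * P * (2 * P) + P * (49 * ε * P) := by gcongr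
      _ = _ := by ring
  have h7 : P ^ 2 / G ≤ 2 * (P ^ 2 / P₂) := by
    rw [← mul_div_assoc, div_le_div_iff₀ hG0 hP₂]
    have h8 : P₂ ≤ 2 * G := by nlinarith
    nlinarith [mul_le_mul_of_nonneg_left h8 (sq_nonneg P)]
  rw [← sub_div, abs_div, abs_of_pos hG0]
  calc |M₁ * M₂ - P ^ 2| / G ≤ 147 * ε * P ^ 2 / G := by gcongr
    _ = 147 * ε * (P ^ 2 / G) := by ring
    _ ≤ 147 * ε * (2 * (P ^ 2 / P₂)) := by gcongr
    _ = _ := by ring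

theorem last {n m x T S ε : ℝ} (hn : 0 ≤ n) (hx : 0 ≤ x) (h1 : n ≤ m) (h2 : m - n ≤ ε * m)
    (hT : 0 ≤ T) (hε0 : 0 ≤ ε) (hε : ε ≤ 1 / 100) (h3 : |n * m * x - T| ≤ 596 * T * ε)
    (h4 : |S - T| ≤ ε * T) : |n ^ 2 * x - S| ≤ 1208 * ε * S := by
  have a1 := abs_le.1 h3
  have a2 := abs_le.1 h4
  have a3 : 0 ≤ n * x := mul_nonneg hn hx
  have a4 : T * ε ≤ T * (1 / 100) := mul_le_mul_of_nonneg_left hε hT
  have a5 : n * m * x ≤ 7 * T := by linarith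
  have a6 : n * x * (m - n) ≤ n * x * (ε * m) := mul_le_mul_of_nonneg_left h2 a3
  have a7 : ε * (n * m * x) ≤ ε * (7 * T) := mul_le_mul_of_nonneg_left a5 hε0
  have a8 : 0 ≤ n * x * (m - n) := mul_nonneg a3 (by linarith)
  have a9 : ε * T ≤ ε * (2 * S) := mul_le_mul_of_nonneg_left (by linarith) hε0
  have a10 : 0 ≤ ε * T := mul_nonneg hε0 hT
  rw [abs_le]
  constructor <;> nlinarith

theorem exists_sh {k : Type} [Field k] [Fintype k] (P : Par k) {h F : k[X]} {n Δ m : ℕ}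
    (hn : P.n = n + Δ) (h0 : h ≠ 0) (ha : Adm h) (hs : 17 ≤ P.s) (hΔ : Δ ≤ P.τ) (h1 : 1 ≤ n)
    (hF : MD n F) (hm : (F + h).natDegree = m) (h2 : n ≤ m) (h3 : m ≤ n + Δ) :
    ∃ S : Sh P, S.g = h ∧ S.Δ = Δ ∧ S.n₁ = n ∧ S.n₂ = m ∧ S.n₀ = n := by
  have hne : F + h ≠ 0 := fun e => by
    rw [e, natDegree_zero] at hm
    omega
  have hlc := inv_ne_zero (leadingCoeff_ne_zero.2 hne)
  have hG : MD m (C (F + h).leadingCoeff⁻¹ * (F + h)) := by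
    refine ⟨?_, (natDegree_C_mul hlc).trans hm⟩
    rw [mul_comm]
    exact monic_mul_leadingCoeff_inv hne
  refine ⟨⟨h, (F + h).leadingCoeff⁻¹, F, Δ, n, m, h0, ha, hlc, hs, hΔ,
    hn.le, by omega, by omega, by omega, hF, hG⟩, rfl, rfl, rfl, rfl, ?_⟩
  show P.n - Δ = n
  omega

theorem key (hC : StCoreg) (hK : StK2) (hL : StLine) (hM : StMM) (hDe : StDe) (hS : StSingg)
    (hS0 : StSing) (k : Type) [Field k] [Fintype k] [CharP k 2] {ε : ℝ} (hε : 0 < ε)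
    (hε' : ε ≤ 1 / 100) : ∃ s V : ℕ, 17 ≤ s ∧ 1 ≤ V ∧ ∀ᶠ τ : ℕ in atTop, ∀ n Δ : ℕ, Δ * V ≤ τ →
      48000 * (s * τ) ≤ n + Δ → n + Δ ≤ 96000 * s * τ → ∀ (h : k[X]) (S : ℝ), h ≠ 0 → Adm h →
      n ≤ (X ^ n + h).natDegree → (X ^ n + h).natDegree ≤ n + Δ →
      HasProd (fun p : {p : k[X] // p.Monic ∧ Irreducible p} => fac h p.1) S →
      |(n : ℝ) ^ 2 * avm n (tw h) - S| ≤ 1208 * ε * S := by
  obtain ⟨s₀, hs₀, hs'⟩ := exists_s hε
  obtain ⟨s, hs⟩ : ∃ s, s = s₀ + 1 := ⟨_, rfl⟩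
  rw [← hs] at hs'
  obtain ⟨c₀, hc₀, hS1⟩ := hS k
  have hd0 : (X * (X + 1) : k[X]) ≠ 0 :=
    mul_ne_zero X_ne_zero (by simpa using X_add_C_ne_zero (1 : k))
  have hd1 : Adm (X * (X + 1) : k[X]) := by
    obtain ⟨_, -, -, -, h⟩ := hS0 k _ hd0
    exact h fun _ => dvd_rfl
  have hd2 : (X * (X + 1) : k[X]).natDegree ≤ 2 := by compute_degree
  obtain ⟨W, hW⟩ := exists_nat_ge (((8000 * s : ℕ) : ℝ) ^ 3 / ε + 1)
  have hW0 : (0 : ℝ) ≤ ((8000 * s : ℕ) : ℝ) ^ 3 / ε := by positivity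
  have hW1 : 1 ≤ W := by exact_mod_cast (by linarith : (1 : ℝ) ≤ W)
  obtain ⟨C', δ, hC', hδ, hL'⟩ := hL (96000 * s)
  obtain ⟨θ, hθ, H3⟩ := TwLim.third (two_le_qR (k := k)) hC' hδ hW1 (mul_pos hε hc₀)
  have hθ1 : 1 < √θ := Real.lt_sqrt_of_sq_lt (by simpa using hθ)
  have hθ2 : 1 < √√θ := Real.lt_sqrt_of_sq_lt (by simpa using hθ1)
  obtain ⟨C, hK'⟩ := hK k (96000 * s) √√θ hθ2
  obtain ⟨V₁, hV₁⟩ := pow_unbounded_of_one_lt (qR k) hθ2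
  obtain ⟨N, hN⟩ := eventually_atTop.1 (TwLim.small_lin (two_le_qR (k := k)) hε)
  obtain ⟨Z, hZ⟩ := eventually_atTop.1 (hS1 ε (8000 * s) hε)
  obtain ⟨D, hD⟩ := exists_nat_ge (1 / ε)
  refine ⟨s, W + V₁ + D, by omega, by omega, ?_⟩
  filter_upwards [H3 (C ^ 2), eventually_ge_atTop N, eventually_ge_atTop W,
    eventually_ge_atTop 2, eventually_ge_atTop ((96000 * s) ^ 2), eventually_ge_atTop Z]
    with τ ⟨t1, t2⟩ t3 t4 t5 t7 t8 n Δ hΔ hn hn' h S h0 ha hn1 hn2 hp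
  rw [mul_add, mul_add] at hΔ
  have t6 : Δ * W ≤ τ := by omega
  obtain ⟨K, hK1, hK2⟩ := hK' τ (by omega)
  have hΔw : Δ ≤ τ / W := (Nat.le_div_iff_mul_le hW1).2 t6
  have hΔτ : Δ ≤ τ := hΔw.trans (Nat.div_le_self _ _)
  have hst : 16 * τ ≤ s₀ * τ := Nat.mul_le_mul_right τ hs₀
  have e0 : s * τ = s₀ * τ + τ := by rw [hs]; ring
  have e1 : s₀ * (12 * τ) = 12 * (s₀ * τ) := by ring
  have e2 : (2 * s₀ + 1) * (12 * τ) = 24 * (s₀ * τ) + 12 * τ := by ring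
  have e3 : 96000 * s * τ = 96000 * (s * τ) := by ring
  obtain ⟨P, p1, p2, p3, p4⟩ : ∃ P : Par k, P.τ = τ ∧ P.s = s ∧ P.U = 96000 * s ∧ P.n = n + Δ :=
    ⟨⟨X * (X + 1), τ, s, 96000 * s, n + Δ, hd0, hd1, hd2.trans t5, t5, by omega, hn, hn', t7⟩,
      rfl, rfl, rfl, rfl⟩
  obtain ⟨Sf, s1, s2, s3, s4, s5⟩ := exists_sh P p4 h0 ha (by omega) (by omega) (by omega)
    (F := X ^ n) ⟨monic_X_pow n, natDegree_X_pow n⟩ rfl hn1 hn2
  have hq := qR_pos (k := k)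
  have hK0 := hK2.ten_le
  have hq1 : 1 ≤ qR k ^ Δ := one_le_pow₀ one_le_qR
  have core := hC k P Sf (qR k ^ Δ * K) (C' / qR k ^ (δ * τ)) (τ / W)
    (by rw [p1, p3]; exact hK2.mono (le_mul_of_one_le_left (by linarith) hq1))
    (by rw [s2]; exact le_mul_of_one_le_right (by linarith) (by linarith))
    (by rw [p1, p3]; exact hL' k τ (by omega)) (by positivity) t1 (s3.trans s5.symm)
    (by rw [s2]; exact hΔw)
  have hG1 := Sf.one_le_G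
  have hdeg := Sf.g_deg
  have es : s - 1 = s₀ := by omega
  rw [Sf.av_eq_of_eq (s3.trans s5.symm)] at core
  simp only [Sh.G, Par.z, Par.κ, Par.Q, p1, p2, p4, s1, s3, s4, s5, es] at core hG1 hdeg
  obtain ⟨-, d1, d2⟩ := hDe k h s₀ (12 * τ) n ha (by omega) hs₀ (by omega)
  obtain ⟨m1, m2⟩ := hM k (12 * τ) s₀ ((n + Δ) / 2 + 10 * (24 * (s * τ))) n (by omega) hs₀
    (by omega) (by omega) (by omega)
  obtain ⟨-, m3⟩ := hM k (12 * τ) s₀ ((n + Δ) / 2 + 10 * (24 * (s * τ))) (X ^ n + h).natDegree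
    (by omega) hs₀ (by omega) (by omega) (by omega)
  have he := TwLim.eps_nonneg s₀
  have he' : eps s₀ ≤ ε :=
    (le_mul_of_one_le_left he (one_le_pow₀ (by norm_num))).trans hs'
  have hz : (0 : ℝ) < ((12 * τ : ℕ) : ℝ) := by exact_mod_cast (by omega : 0 < 12 * τ)
  have hP1 : 0 < Pi1 k (12 * τ) := hz.trans_le m1
  have hy := hN ((n + Δ) / 2 + 10 * (24 * (s * τ))) (by omega)
  have hn3 : n + Δ ≤ 8000 * s * (12 * τ) := hn'.trans_eq (by ring)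
  have hn4 : n + Δ + 1 ≤ 2 * (8000 * s * (12 * τ)) := by omega
  have hn5 : (n + Δ) / (12 * τ) ≤ 8000 * s := Nat.div_le_of_le_mul (by rwa [mul_comm])
  have hw : (W : ℝ) * (4 * ((τ / W : ℕ) : ℝ) + 1) ≤ ((12 * τ : ℕ) : ℝ) := by
    have := Nat.mul_div_le τ W
    exact_mod_cast (by rw [mul_add, mul_left_comm]; omega : W * (4 * (τ / W) + 1) ≤ 12 * τ)
  obtain ⟨z1, z2⟩ := hZ (12 * τ) (by omega) h S h0 ha (hdeg.trans hn3) hp
  have tt := two_terms hG1 d1 d2 hP1 he' hε.le hε'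
    (m2.trans (mul_le_mul_of_nonneg_right (by linarith) hP1.le))
    (m3.trans (mul_le_mul_of_nonneg_right (by linarith) hP1.le))
  have t11 : 20 * (qR k ^ Δ * K) ^ 9 * (1 / √(qR k ^ τ) + √(C' / qR k ^ (δ * τ)) +
      1 / √(qR k ^ (τ / W))) ≤ ε * c₀ := by
    have b1 : 1 ≤ qR k ^ Δ * K := one_le_mul_of_one_le_of_one_le hq1 (by linarith)
    refine le_trans ?_ (t2 ((qR k ^ Δ * K) ^ 2) (sq_nonneg _) ?_)
    · rw [← pow_mul]
      gcongr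
      norm_num
    · have b2 : qR k ^ Δ ≤ √√θ ^ τ := by
        refine (pow_le_pow_left₀ hq.le hV₁.le Δ).trans ?_
        rw [← pow_mul]
        exact pow_le_pow_right₀ hθ2.le (by rw [mul_comm]; omega)
      calc (qR k ^ Δ * K) ^ 2 ≤ (√√θ ^ τ * (C * √√θ ^ τ)) ^ 2 := by gcongr
        _ = C ^ 2 * ((√√θ ^ 2) ^ 2) ^ τ := by
          generalize √√θ = t
          ring
        _ = _ := by rw [Real.sq_sqrt (by linarith), Real.sq_sqrt (by linarith)]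
  have core' : |(n : ℝ) * ((X ^ n + h).natDegree : ℝ) * avm n (tw h) -
      Pi1 k (12 * τ) ^ 2 / G2 h (s₀ * (12 * τ)) (12 * τ)| ≤
      ((n + Δ : ℕ) : ℝ) ^ 2 * 4 ^ ((n + Δ) / (12 * τ) + 1) * eps s₀ /
        G2 h (s₀ * (12 * τ)) (12 * τ) +
      ((n + Δ : ℕ) : ℝ) ^ 2 * (((n + Δ : ℕ) : ℝ) + 1) * (4 * ((τ / W : ℕ) : ℝ) + 1) /
        (((12 * τ : ℕ) : ℝ) ^ 2 * G2 h (s₀ * (12 * τ)) (12 * τ)) +
      (ε * c₀ + 294 * (Pi1 k (12 * τ) ^ 2 / Pi2 h (12 * τ)) * ε) := by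
    refine (abs_sub_le _ _ _).trans ((add_le_add core tt).trans ?_)
    linarith only [t11]
  have main := TwLim.arith (c := ((8000 * s : ℕ) : ℝ)) (M := Pi1 k (12 * τ)) (η := 0) (ε := ε)
    hG1 d1 d2 hz m1 (by simp) he he' (by positivity) hε' (Nat.cast_nonneg (n + Δ))
    (by exact_mod_cast hn3) (by exact_mod_cast hn4) (by positivity)
    (by
      have h1 : ((8000 * s : ℕ) : ℝ) ^ 3 ≤ ε * W := by
        rw [← div_le_iff₀' hε]; linarith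
      calc _ ≤ ε * W * (4 * ((τ / W : ℕ) : ℝ) + 1) := by gcongr
        _ ≤ _ := by rw [mul_assoc]; gcongr)
    (by positivity)
    ((mul_le_mul_of_nonneg_right (TwLim.pow_bound (by omega) hn5) he).trans hs') le_rfl core'
  have z3 := mul_le_mul_of_nonneg_left z1 hε.le
  have b0 : 0 ≤ avm n (tw h) := avm_nonneg fun F _ => by
    unfold tw
    split_ifs <;> norm_num
  have b1 : ((X ^ n + h).natDegree : ℝ) ≤ n + Δ := by exact_mod_cast hn2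
  have b2 : (Δ : ℝ) * D ≤ ((X ^ n + h).natDegree : ℝ) := by exact_mod_cast (by omega)
  have b3 : (Δ : ℝ) ≤ ε * ((X ^ n + h).natDegree : ℝ) := by
    have b4 := (mul_le_mul_of_nonneg_left hD (Nat.cast_nonneg Δ)).trans b2
    rwa [mul_one_div, div_le_iff₀' hε] at b4
  exact last (Nat.cast_nonneg n) b0 (Nat.cast_le.2 hn1) (by linarith only [b1, b3])
    (hc₀.le.trans z1) hε.le hε' (main.trans (by linarith only [z3])) z2

end GbLim

theorem stLimg (hC : StCoreg) (hK : StK2) (hL : StLine) (hM : StMM) (hDe : StDe) (hS : StSingg)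
    (hS0 : StSing) : StLimg := by
  intro k _ _ _ e he
  obtain ⟨ε, hε, h1, h2⟩ : ∃ ε : ℝ, 0 < ε ∧ ε ≤ 1 / 100 ∧ 1208 * ε ≤ e :=
    ⟨min (1 / 100) (e / 1208), by positivity, min_le_left _ _, by
      have := min_le_right (1 / 100) (e / 1208)
      linarith⟩
  obtain ⟨s, V, hs, hV, H⟩ := GbLim.key hC hK hL hM hDe hS hS0 k hε h1
  obtain ⟨τ₀, H⟩ := eventually_atTop.1 (H.and (eventually_ge_atTop 1))
  refine ⟨48000 * s * V, Nat.mul_pos (by omega) hV, ?_⟩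
  filter_upwards [eventually_ge_atTop (τ₀ * (48000 * s))] with n hn h S h0 ha a1 a2 a3
  obtain ⟨Δ, hΔ⟩ := Nat.exists_eq_add_of_le a1
  rw [hΔ, Nat.add_sub_cancel_left] at a2
  have hs0 : 0 < 48000 * s := by omega
  obtain ⟨H1, hn1⟩ := H ((n + Δ) / (48000 * s)) ((Nat.le_div_iff_mul_le hs0).2 (by omega))
  have b := H1 n Δ ((Nat.le_div_iff_mul_le hs0).2 (by
    rw [show Δ * V * (48000 * s) = 48000 * s * V * Δ by ring]
    omega)) (by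
    rw [← mul_assoc]
    exact Nat.mul_div_le _ _) (by
    have h3 := Nat.lt_mul_div_succ (n + Δ) hs0
    have h4 := Nat.mul_le_mul_left (48000 * s) hn1
    rw [show 96000 * s * ((n + Δ) / (48000 * s)) = 2 * (48000 * s * ((n + Δ) / (48000 * s))) by
      ring]
    rw [mul_add] at h3
    omega) h S h0 ha a1 hΔ.le a3
  have hS1 : 0 ≤ S := by
    by_contra hc
    have := (abs_nonneg _).trans b
    nlinarith [not_le.1 hc]
  exact b.trans (mul_le_mul_of_nonneg_right h2 hS1)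

end Pool.Agent.Lib.MP_9227d9_nt.Mob
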