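import Pool.Agent.Lib.MP_9227d9_nt.GbA
import Pool.Agent.Lib.MP_9227d9_nt.TwOff

/-!
The weighted means of one and of two Moebius functions, uniformly in the shift.
-/

namespace Pool.Agent.Lib.MP_9227d9_nt.Mob

open Polynomial

open scoped Classical

namespace GbOff

variable {k : Type} [Field k] [Fintype k]

/-- Splitting a weighted mean into good lines and bad pairs. -/
theorem gen (c : Tw k) {K' B₁ B₂ : ℝ} {φ : k[X] → ℝ} {j : ℕ} (hj : c.n1 ≤ j + c.τ)
    (hφ : PerS c.z (2 * c.κ - c.τ) j K' φ)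
    (g : k[X] → k[X] → ℝ) (Good : k[X] → k[X] → Prop) (hB₁ : 0 ≤ B₁)
    (hG : ∀ u m σ, Good u (m + u * σ ^ 2) ↔ Good u m)
    (hline : ∀ u m r, MD c.nu u → MD j m → r ≠ 0 → r.natDegree ≤ 2 * c.κ → Smth c.z r →
      Good u m → |avg (76 * c.τ) fun σ => g u (m + u * (r * σ) ^ 2)| ≤ B₁)
    (hbad : (avm j fun m => avm c.nu fun u => if Good u m then 0 else |g u m|) ≤ B₂) :
    |avm c.nu fun u => avm j fun m => φ m * g u m| ≤ K' * (B₁ + B₂) := by
  have hK' := hφ.nonneg
  obtain ⟨ι, T, f, r, hsum, hr, hK⟩ := hφ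
  have hφK : ∀ m, MD j m → |φ m| ≤ K' := fun m hm => by
    rw [hsum]
    exact (Finset.abs_sum_le_sum_abs _ _).trans (hK m hm)
  have key : ∀ u, MD c.nu u → |avm j fun m => φ m * g u m| ≤
      K' * B₁ + avm j fun m => K' * if Good u m then 0 else |g u m| := by
    intro u hu
    have h1 : (avm j fun m => φ m * g u m) =
        (∑ i ∈ T, avm j fun m => f i m * if Good u m then g u m else 0) +
          avm j fun m => φ m * if Good u m then 0 else g u m := by
      rw [← avm_sum, ← avm_add]
      refine avm_congr fun m _ => ?_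
      rw [← Finset.sum_mul, ← hsum]
      split_ifs <;> ring
    have h2 : ∀ i ∈ T, |avm j fun m => f i m * if Good u m then g u m else 0| ≤
        avm j fun m => |f i m| * B₁ := by
      intro i hi
      obtain ⟨hr0, hrd, hrs, hper⟩ := hr i hi
      rw [avm_avg_shift (76 * c.τ) (fun σ => u * (r i * σ) ^ 2) (fun σ hσ => by
        have h3 : u * (r i * σ) ^ 2 = (u * r i ^ 2) * σ ^ 2 := by ring
        rw [h3]
        refine degree_mul_sq_lt hσ ?_
        rw [natDegree_mul hu.ne_zero (pow_ne_zero 2 hr0), natDegree_pow, hu.2]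
        have h4 := c.L_eq
        have h5 := c.nu_add
        have h6 := c.τ_le
        omega)]
      refine abs_avm_le.trans (avm_mono fun m hm => ?_)
      have e1 : ∀ σ, f i (m + u * (r i * σ) ^ 2) = f i m := fun σ => by
        have : u * (r i * σ) ^ 2 = r i * (u * r i * σ ^ 2) := by ring
        rw [this, hper]
      by_cases hg : Good u m
      · have h3 : avg (76 * c.τ) (fun σ => f i (m + u * (r i * σ) ^ 2) *
            if Good u (m + u * (r i * σ) ^ 2) then g u (m + u * (r i * σ) ^ 2) else 0) =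
            f i m * avg (76 * c.τ) fun σ => g u (m + u * (r i * σ) ^ 2) := by
          rw [← avg_mul_left]
          refine avg_congr fun σ _ => ?_
          rw [e1, if_pos ((hG u m _).2 hg)]
        rw [h3, abs_mul]
        exact mul_le_mul_of_nonneg_left (hline u m _ hu hm hr0 (hrd.trans (Nat.sub_le _ _)) hrs hg) (abs_nonneg _)
      · refine abs_avg_le_of_le fun σ _ => ?_
        rw [if_neg fun h => hg ((hG u m _).1 h), mul_zero, abs_zero]
        exact mul_nonneg (abs_nonneg _) hB₁
    have h3 : |∑ i ∈ T, avm j fun m => f i m * if Good u m then g u m else 0| ≤ K' * B₁ := by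
      refine (Finset.abs_sum_le_sum_abs _ _).trans ((Finset.sum_le_sum h2).trans ?_)
      rw [← avm_sum]
      refine avm_le_of_le fun m hm => ?_
      rw [← Finset.sum_mul]
      exact mul_le_mul_of_nonneg_right (hK m hm) hB₁
    have h4 : |avm j fun m => φ m * if Good u m then 0 else g u m| ≤
        avm j fun m => K' * if Good u m then 0 else |g u m| := by
      refine abs_avm_le.trans (avm_mono fun m hm => ?_)
      rw [abs_mul]
      split_ifs
      · simp
      · exact mul_le_mul_of_nonneg_right (hφK m hm) (abs_nonneg _)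
    rw [h1]
    exact (abs_add_le _ _).trans (add_le_add h3 h4)
  refine (abs_avm_le.trans (avm_mono key)).trans ?_
  rw [avm_add, avm_const, avm_comm, mul_add]
  refine add_le_add le_rfl ?_
  simp only [avm_mul_left]
  exact mul_le_mul_of_nonneg_left hbad hK'

theorem MD_line (c : Tw k) {A F u : k[X]} (hA : MD c.a A) (hF : MD (c.a + c.n1) F)
    (hu : MD c.nu u) : MD (2 * c.dl + 1) (F * A * u) := by
  have h1 := c.nu_add
  have h2 := c.dl_add
  have h3 : 2 * c.dl + 1 = c.a + c.n1 + c.a + c.nu := by omega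
  rw [h3]
  exact (hF.mul hA).mul hu

variable [CharP k 2]

theorem avm_ev (h1 : StEX1) (c : Tw k) {K : ℝ} (hK : KB2 k c.U c.τ K) {A c₀ m : k[X]}
    (hA : MD c.a A) (hs : Squarefree A) (hc : IsCoprime c₀ A) (hd : MD (c.a + c.n1) (A * m + c₀))
    (h : mu (A * m + c₀) ≠ 0) :
    avm c.nu (fun u => if TwOff.Ev c A c₀ m u then 1 else 0) ≤ K / c.Q := by
  have h2 := c.τ_pos
  have h3 := c.nu_ge
  have h4 := c.τ_le
  refine (h1 k ((A * m + c₀) * A) A (12 * c.τ) c.nu (TwOff.sqf hs hc h) (dvd_mul_left _ _)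
    (by omega) (by omega)).trans (TwOff.small c hK ?_)
  have h5 := c.qR_le_Q
  have h6 : ((A * m + c₀) * A).natDegree ≤ 2 * c.n := by
    rw [(hd.mul hA).2]
    have h7 := c.n1_add
    omega
  have h7 : (((A * m + c₀) * A).natDegree : ℝ) ≤ 2 * c.n := by exact_mod_cast h6
  linarith

omit [CharP k 2] in
theorem point (c : Tw k) {K : ℝ} (hK : KB2 k c.U c.τ K) {j : ℕ} (hj : c.n1 ≤ j + c.τ)
    (m₁ : k[X]) : avm j (fun m => if m = m₁ then (1 : ℝ) else 0) ≤ K / c.Q := by
  have h1 := c.nu_add
  have h2 := c.nu_ge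
  have h3 := c.τ_le
  have h4 := c.τ_pos
  have h5 := hK.ten_le
  have h6 : c.Q ≤ qR k ^ j := pow_le_pow_right₀ one_le_qR (by omega)
  have hQ : (0 : ℝ) < c.Q := lt_of_lt_of_le two_pos c.two_le_Q
  exact (avm_eq_one_le m₁).trans (div_le_div₀ (by linarith) (by linarith) hQ h6)

end GbOff

theorem stOng (h1 : StEX1) : StOng := by
  intro k _ _ _ c K K' sv j A c₀ φ hK hL hsv hj hA hs hc hd hφ
  have hK10 := hK.ten_le
  have hQ : (0 : ℝ) < c.Q := lt_of_lt_of_le two_pos c.two_le_Q
  have key := GbOff.gen c hj hφ (B₁ := K * sv) (B₂ := K * (K / c.Q))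
    (fun u m => mu (A * m + c₀) * c.W (od ((A * m + c₀) * A * u)))
    (fun u m => IsCoprime (A * u) (od ((A * m + c₀) * A * u))) (by positivity)
    (fun u m σ => by rw [(Tw.od_line A c₀ m u σ).1]) ?_ ?_
  · simp only [← mul_assoc] at key
    refine key.trans (le_of_eq ?_)
    ring
  · intro u m r hu hm hr hrd hrs hg
    have h2 : avg (76 * c.τ) (fun σ => mu (A * (m + u * (r * σ) ^ 2) + c₀) *
        c.W (od ((A * (m + u * (r * σ) ^ 2) + c₀) * A * u))) =
        (mu (A * u) * c.W (od ((A * m + c₀) * A * u))) *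
          avg (76 * c.τ) fun σ => mu ((A * m + c₀) * A * u + (A * u * r * σ) ^ 2) := by
      rw [← avg_mul_left]
      refine avg_congr fun σ _ => ?_
      rw [(Tw.od_line A c₀ m u (r * σ)).1, TwOff.line_eq hg]
      ring
    rw [h2, abs_mul]
    by_cases hW : c.W (od ((A * m + c₀) * A * u)) = 0
    · rw [hW, mul_zero, abs_zero, zero_mul]
      positivity
    · exact mul_le_mul (TwOff.abs_le c hK _ _)
        (hL c.r c.I c.dl _ _ c.r_le c.I_inj c.I_zero c.I_le (GbOff.MD_line c hA (hd m hm) hu) hW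
          (TwOff.dir_deg c hA hu hr hrd) (TwOff.dir_cop c hg hrs)).1 (abs_nonneg _) (by linarith)
  · refine avm_le_of_le fun m hm => ?_
    by_cases hmu : mu (A * m + c₀) = 0
    · refine avm_le_of_le fun u _ => ?_
      rw [hmu, zero_mul, abs_zero, ite_self]
      positivity
    · refine le_trans (avm_mono (G := fun u => K * if TwOff.Ev c A c₀ m u then 1 else 0)
        fun u hu => ?_) ?_
      · have hi : (0 : ℝ) ≤ K * if TwOff.Ev c A c₀ m u then 1 else 0 := by
          split_ifs <;> linarith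
        by_cases hg : IsCoprime (A * u) (od ((A * m + c₀) * A * u))
        · rw [if_pos hg]
          exact hi
        · rw [if_neg hg]
          by_cases hW : c.W (od ((A * m + c₀) * A * u)) = 0
          · rw [hW, mul_zero, abs_zero]
            exact hi
          · rw [if_pos (TwOff.ev_of c hA hu hW hg), mul_one]
            exact TwOff.abs_le c hK _ _
      · rw [avm_mul_left]
        exact mul_le_mul_of_nonneg_left (GbOff.avm_ev h1 c hK hA hs hc (hd m hm) hmu) (by linarith)

theorem stOffg (h1 : StEX1) (h2 : StEX2) : StOffg := by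
  intro k _ _ _ c K K' sv j A c₀ A' c₀' m₁ φ hK hL hsv hj hA hs hc hd hA' hs' hc' hd' hne hφ
  have hK10 := hK.ten_le
  have hQ : (0 : ℝ) < c.Q := lt_of_lt_of_le two_pos c.two_le_Q
  have hab : ∀ F l F' l' : k[X], |mu F * c.W l * (mu F' * c.W l')| ≤ K ^ 2 := fun F l F' l' => by
    rw [abs_mul, sq]
    exact mul_le_mul (TwOff.abs_le c hK _ _) (TwOff.abs_le c hK _ _) (abs_nonneg _) (by linarith)
  have key := GbOff.gen c hj hφ (B₁ := K ^ 2 * sv) (B₂ := K ^ 2 * (4 * K / c.Q))
    (fun u m => mu (A * m + c₀) * c.W (od ((A * m + c₀) * A * u)) *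
      (mu (A' * m + c₀') * c.W (od ((A' * m + c₀') * A' * u))))
    (fun u m => IsCoprime (A * u) (od ((A * m + c₀) * A * u)) ∧
      IsCoprime (A' * u) (od ((A' * m + c₀') * A' * u)) ∧
      ∀ p, IsP p → p.natDegree = 12 * c.τ → p ∣ od ((A * m + c₀) * A * u) →
        ¬ p ∣ od ((A' * m + c₀') * A' * u)) (by positivity)
    (fun u m σ => by rw [(Tw.od_line A c₀ m u σ).1, (Tw.od_line A' c₀' m u σ).1]) ?_ ?_
  · simp only [mul_assoc (φ _)]
    refine key.trans (le_of_eq ?_)
    ring
  · rintro u m r hu hm hr hrd hrs ⟨hg, hg', hp⟩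
    have h3 : avg (76 * c.τ) (fun σ => mu (A * (m + u * (r * σ) ^ 2) + c₀) *
        c.W (od ((A * (m + u * (r * σ) ^ 2) + c₀) * A * u)) *
        (mu (A' * (m + u * (r * σ) ^ 2) + c₀') *
          c.W (od ((A' * (m + u * (r * σ) ^ 2) + c₀') * A' * u)))) =
        (mu (A * u) * c.W (od ((A * m + c₀) * A * u)) *
          (mu (A' * u) * c.W (od ((A' * m + c₀') * A' * u)))) *
          avg (76 * c.τ) fun σ => mu ((A * m + c₀) * A * u + (A * u * r * σ) ^ 2) *
            mu ((A' * m + c₀') * A' * u + (A' * u * r * σ) ^ 2) := by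
      rw [← avg_mul_left]
      refine avg_congr fun σ _ => ?_
      rw [(Tw.od_line A c₀ m u (r * σ)).1, (Tw.od_line A' c₀' m u (r * σ)).1, TwOff.line_eq hg,
        TwOff.line_eq hg']
      ring
    rw [h3, abs_mul]
    by_cases hW : c.W (od ((A * m + c₀) * A * u)) = 0
    · rw [hW, mul_zero, zero_mul, abs_zero, zero_mul]
      positivity
    by_cases hW' : c.W (od ((A' * m + c₀') * A' * u)) = 0
    · rw [hW', mul_zero, mul_zero, abs_zero, zero_mul]
      positivity
    exact mul_le_mul (hab _ _ _ _)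
      ((hL c.r c.I c.dl _ _ c.r_le c.I_inj c.I_zero c.I_le (GbOff.MD_line c hA (hd m hm) hu) hW
        (TwOff.dir_deg c hA hu hr hrd) (TwOff.dir_cop c hg hrs)).2 _ _
        (GbOff.MD_line c hA' (hd' m hm) hu) hW' (TwOff.dir_deg c hA' hu hr hrd) hp)
      (abs_nonneg _) (by positivity)
  · refine le_trans (avm_mono (G := fun m => K ^ 2 * (3 * K / c.Q) +
      K ^ 2 * if m = m₁ then 1 else 0) fun m hm => ?_) ?_
    swap
    · rw [avm_add, avm_const, avm_mul_left, ← mul_add]
      refine mul_le_mul_of_nonneg_left ?_ (by positivity)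
      have e4 : 4 * K / c.Q = 3 * K / c.Q + K / c.Q := by ring
      rw [e4]
      exact add_le_add le_rfl (GbOff.point c hK hj m₁)
    by_cases hm₁ : m = m₁
    · rw [if_pos hm₁, mul_one]
      refine avm_le_of_le fun u _ => le_add_of_nonneg_of_le (by positivity) ?_
      split_ifs
      · positivity
      · exact hab _ _ _ _
    rw [if_neg hm₁, mul_zero, add_zero]
    by_cases hmu : mu (A * m + c₀) = 0
    · refine avm_le_of_le fun u _ => ?_
      rw [hmu, zero_mul, zero_mul, abs_zero, ite_self]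
      positivity
    by_cases hmu' : mu (A' * m + c₀') = 0
    · refine avm_le_of_le fun u _ => ?_
      rw [hmu', zero_mul, mul_zero, abs_zero, ite_self]
      positivity
    have hH := (hd m hm).mul hA
    have hH' := (hd' m hm).mul hA'
    have hsq := TwOff.sqf hs hc hmu
    have hsq' := TwOff.sqf hs' hc' hmu'
    have hod : od ((A * m + c₀) * A * ((A' * m + c₀') * A')) ≠ 0 := fun h0 =>
      hne m hm hm₁ (eq_of_monic_of_dvd_of_natDegree_le hH.1 hH'.1 (dvd_of_od_eq_zero hsq h0)
        (by rw [hH.2, hH'.2])).symm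
    have hτ := c.τ_pos
    have hnu := c.nu_ge
    have hκ := c.τ_le
    have e1 := GbOff.avm_ev h1 c hK hA hs hc (hd m hm) hmu
    have e2 := GbOff.avm_ev h1 c hK hA' hs' hc' (hd' m hm) hmu'
    have e3 := (h2 k _ _ (12 * c.τ) c.nu hsq hsq' hod (by omega) (by omega)).trans
      (TwOff.small c hK (by
        have h3 := natDegree_od_le ((A * m + c₀) * A * ((A' * m + c₀') * A'))
        rw [(hH.mul hH').2] at h3
        have h4 := c.n1_add
        have h5 : (od ((A * m + c₀) * A * ((A' * m + c₀') * A'))).natDegree ≤ 2 * c.n := by omega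
        have h6 : ((od ((A * m + c₀) * A * ((A' * m + c₀') * A'))).natDegree : ℝ) ≤ 2 * c.n := by
          exact_mod_cast h5
        have h7 := c.two_le_Q
        linarith))
    refine le_trans (avm_mono (G := fun u => K ^ 2 * (((if TwOff.Ev c A c₀ m u then 1 else 0) +
      if TwOff.Ev c A' c₀' m u then 1 else 0) +
      if ∃ p, IsP p ∧ p.natDegree = 12 * c.τ ∧ p ∣ od ((A * m + c₀) * A * u) ∧
        p ∣ od ((A' * m + c₀') * A' * u) then 1 else 0)) fun u hu => ?_) ?_
    · have i1 : (0 : ℝ) ≤ if TwOff.Ev c A c₀ m u then 1 else 0 := by split_ifs <;> norm_num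
      have i2 : (0 : ℝ) ≤ if TwOff.Ev c A' c₀' m u then 1 else 0 := by split_ifs <;> norm_num
      have i3 : (0 : ℝ) ≤ if ∃ p, IsP p ∧ p.natDegree = 12 * c.τ ∧ p ∣ od ((A * m + c₀) * A * u) ∧
          p ∣ od ((A' * m + c₀') * A' * u) then 1 else 0 := by split_ifs <;> norm_num
      by_cases hg : IsCoprime (A * u) (od ((A * m + c₀) * A * u)) ∧
          IsCoprime (A' * u) (od ((A' * m + c₀') * A' * u)) ∧
          ∀ p, IsP p → p.natDegree = 12 * c.τ → p ∣ od ((A * m + c₀) * A * u) →
            ¬ p ∣ od ((A' * m + c₀') * A' * u)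
      · rw [if_pos hg]
        positivity
      rw [if_neg hg]
      by_cases hW : c.W (od ((A * m + c₀) * A * u)) = 0
      · rw [hW, mul_zero, zero_mul, abs_zero]
        positivity
      by_cases hW' : c.W (od ((A' * m + c₀') * A' * u)) = 0
      · rw [hW', mul_zero, mul_zero, abs_zero]
        positivity
      refine (hab _ _ _ _).trans (le_mul_of_one_le_right (by positivity) ?_)
      by_cases g1 : IsCoprime (A * u) (od ((A * m + c₀) * A * u))
      · by_cases g2 : IsCoprime (A' * u) (od ((A' * m + c₀') * A' * u))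
        · have g3 : ∃ p, IsP p ∧ p.natDegree = 12 * c.τ ∧ p ∣ od ((A * m + c₀) * A * u) ∧
              p ∣ od ((A' * m + c₀') * A' * u) := by
            by_contra g4
            exact hg ⟨g1, g2, fun p hp q1 q2 q3 => g4 ⟨p, hp, q1, q2, q3⟩⟩
          rw [if_pos g3]
          linarith
        · rw [if_pos (TwOff.ev_of c hA' hu hW' g2)]
          linarith
      · rw [if_pos (TwOff.ev_of c hA hu hW g1)]
        linarith
    · rw [avm_mul_left, avm_add, avm_add]
      refine mul_le_mul_of_nonneg_left ?_ (by positivity)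
      have e4 : 3 * K / c.Q = K / c.Q + K / c.Q + K / c.Q := by ring
      rw [e4]
      exact add_le_add (add_le_add e1 e2) e3

end Pool.Agent.Lib.MP_9227d9_nt.Mob
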