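import Pool.Agent.Lib.MP_9227d9_nt.GbA
import Pool.Agent.Lib.MP_9227d9_nt.TwPar

/-! Parametrisation of the triples and reduction to means over triples. -/

namespace Pool.Agent.Lib.MP_9227d9_nt.Mob

open Polynomial

open scoped Classical

theorem stPar3 : StPar3 := by
  intro k _ _ P S A B a b hA hB hc hab
  have hdA : A.degree = a := by rw [degree_eq_natDegree hA.ne_zero, hA.2]
  have h0 := modByMonic_add_div S.F₀ A
  have hr : (S.F₀ %ₘ A).degree < a := hdA ▸ degree_modByMonic_lt _ hA.1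
  obtain ⟨w, c', hw, hc', -, -⟩ := stPar2 k A B (A * (S.F₀ /ₘ A) + S.g) b hB hc
  set ms := S.F₀ /ₘ A + w with hms
  set j := S.n₀ - a - b with hj
  have hu : (C S.c⁻¹ : k[X]) * C S.c = 1 := C_inv_mul S.c_ne
  have hIn : S.In (A * ms) := by
    rw [Sh.In, show A * ms - S.F₀ = A * w - S.F₀ %ₘ A by rw [hms]; linear_combination h0]
    refine (degree_sub_le _ _).trans_lt (max_lt (degree_mul_lt hw (by rw [hA.2]; exact hab))
      (hr.trans_le (by exact_mod_cast (by omega : a ≤ S.n₀))))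
  have hB' : B * c' = A * ms + S.g := by rw [hc', hms]; ring
  have e0 : B * (C S.c * c' - A * X ^ j) = C S.c * (A * (ms - C S.c⁻¹ * B * X ^ j) + S.g) := by
    linear_combination C S.c * hB' + A * B * X ^ j * hu
  have e1 : ∀ t, A * (ms - C S.c⁻¹ * B * X ^ j + C S.c⁻¹ * B * t) + S.g =
      B * (C S.c⁻¹ * (A * t + (C S.c * c' - A * X ^ j))) := fun t => by
    linear_combination -hB' - B * c' * hu
  have e2 : ∀ t, S.Xc A B (ms - C S.c⁻¹ * B * X ^ j + C S.c⁻¹ * B * t) =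
      A * t + (C S.c * c' - A * X ^ j) := fun t => by
    rw [Sh.Xc, e1, mul_div_cancel_left₀ _ hB.ne_zero, ← mul_assoc, mul_comm (C S.c), hu, one_mul]
  have e3 : ∀ t, MD j t → S.In (A * (ms - C S.c⁻¹ * B * X ^ j + C S.c⁻¹ * B * t)) := fun t ht => by
    rw [show A * (ms - C S.c⁻¹ * B * X ^ j + C S.c⁻¹ * B * t) =
      A * ms + C S.c⁻¹ * (A * B) * (t - X ^ j) by ring]
    refine Sh.In.add S hIn (degree_mul_lt ht.degree_sub ?_)
    rw [natDegree_C_mul (inv_ne_zero S.c_ne), (hA.mul hB).2]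
    omega
  refine ⟨ms - C S.c⁻¹ * B * X ^ j, C S.c * c' - A * X ^ j, e0, e2, fun t ht =>
    ⟨hA.of_mul_left (e3 t ht).MD₁, e3 t ht, ?_⟩, fun Φ => ?_⟩
  · have h1 := (e3 t ht).MD₂
    rw [e1, mul_left_comm, ← mul_assoc (C S.c), mul_comm (C S.c), hu, one_mul] at h1
    exact hB.of_mul_left h1
  · have hs : ∑ m ∈ MoD k (S.n₁ - a), (if B ∣ A * m + S.g then S.χ (A * m) * Φ m else 0) =
        qR k ^ (S.n₁ - S.n₀) *
          ∑ t ∈ MoD k j, Φ (ms - C S.c⁻¹ * B * X ^ j + C S.c⁻¹ * B * t) := by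
      have h1 : ∀ m, (if B ∣ A * m + S.g then S.χ (A * m) * Φ m else 0) =
          if B ∣ A * m + S.g ∧ S.In (A * m) then qR k ^ (S.n₁ - S.n₀) * Φ m else 0 := fun m => by
        unfold Sh.χ
        by_cases h2 : B ∣ A * m + S.g <;> by_cases h3 : S.In (A * m) <;> simp [h2, h3]
      simp only [h1]
      rw [← Finset.sum_filter, ← Finset.mul_sum]
      congr 1
      symm
      refine Finset.sum_bij (fun t _ => ms - C S.c⁻¹ * B * X ^ j + C S.c⁻¹ * B * t) ?_ ?_ ?_
        fun _ _ => rfl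
      · intro t ht
        have h2 := e3 t (mem_MoD.1 ht)
        exact Finset.mem_filter.2 ⟨mem_MoD.2 (hA.of_mul_left h2.MD₁), ⟨_, e1 t⟩, h2⟩
      · intro t _ t' _ h
        exact mul_left_cancel₀ (mul_ne_zero (C_ne_zero.2 (inv_ne_zero S.c_ne)) hB.ne_zero)
          (add_left_cancel h)
      · intro m hm
        obtain ⟨-, h2, h3⟩ := Finset.mem_filter.1 hm
        have h4 : B ∣ A * (m - ms) := by
          rw [show A * (m - ms) = A * m + S.g - B * c' by rw [hB']; ring]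
          exact dvd_sub h2 (dvd_mul_right _ _)
        obtain ⟨v, hv⟩ := hc.symm.dvd_of_dvd_mul_left h4
        have h5 := Sh.In.degree_sub S h3 hIn
        rw [← mul_sub, hv, ← mul_assoc] at h5
        have h6 : (C S.c * v).degree < j := by
          refine degree_lt_of_natDegree fun h7 => ?_
          have h8 : v ≠ 0 := right_ne_zero_of_mul h7
          have h9 := natDegree_lt_of_degree (mul_ne_zero (hA.mul hB).ne_zero h8) h5
          rw [natDegree_mul (hA.mul hB).ne_zero h8, (hA.mul hB).2] at h9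
          rw [natDegree_C_mul S.c_ne]
          omega
        refine ⟨X ^ j + C S.c * v, mem_MoD.2 (MD_add h6), ?_⟩
        linear_combination -hv + B * v * hu
    rw [avm_eq_MoD, avm_eq_MoD, hs]
    obtain ⟨e, he⟩ := Nat.exists_eq_add_of_le S.n₀_le₁
    have h1 : S.n₁ - a = b + j + e := by omega
    rw [h1, he, Nat.add_sub_cancel_left, pow_add, pow_add]
    have h2 := qR_pow_pos (k := k) b
    have h3 := qR_pow_pos (k := k) j
    have h4 := qR_pow_pos (k := k) e
    field_simp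

namespace GbPar

variable {k : Type} [Field k] [Fintype k] {P : Par k} (S : Sh P)

/-- A large prime divides both `F` and the shift. -/
noncomputable def bad (F : k[X]) : ℝ := if ∃ p ∈ pf S.g, P.z ≤ p.natDegree ∧ p ∣ F then 1 else 0

theorem bad_nonneg (F : k[X]) : 0 ≤ bad S F := by
  unfold bad
  split_ifs <;> norm_num

theorem bad_eq {A B m : k[X]} (hd : B ∣ A * m + S.g) (hA : sr P.z A ≠ 0) (hB : sr P.z B ≠ 0)
    (h : ¬ (IsCoprime A S.g ∧ IsCoprime B S.g)) : bad S (A * m) = 1 := by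
  refine if_pos ?_
  rcases not_and_or.1 h with h1 | h1
  · obtain ⟨p, hp, h2, h3⟩ := exists_isP_of_not_isCoprime S.g_ne fun h4 => h1 h4.symm
    exact ⟨p, (mem_pf S.g_ne).2 ⟨hp, h2⟩, (sr_ne_zero_iff.1 hA).2 p hp h3, h3.mul_right _⟩
  · obtain ⟨p, hp, h2, h3⟩ := exists_isP_of_not_isCoprime S.g_ne fun h4 => h1 h4.symm
    exact ⟨p, (mem_pf S.g_ne).2 ⟨hp, h2⟩, (sr_ne_zero_iff.1 hB).2 p hp h3,
      (dvd_add_left h2).1 (h3.trans hd)⟩

theorem E3_bad (hR : StRed) (hEX : StEX) {K : ℝ} (H : KB2 k P.U P.τ K) {a : ℕ} (b : ℕ)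
    (ha : a ≤ S.n₀) :
    E3 S.g P.z S.n₁ a b (fun A _ m => S.χ (A * m) * bad S (A * m)) ≤ K ^ 3 / P.Q := by
  have hK := H.ten_le
  have hQ := P.two_le_Q
  rw [← (hR k S.g P.z S.n₁ a b (fun F => S.χ F * bad S F) (ha.trans S.n₀_le₁)).2.2.2]
  have e : (avm S.n₁ fun F => S.χ F * bad S F * tS P.z a F * tS P.z b (F + S.g)) =
      S.av fun F => bad S F * tS P.z a F * tS P.z b (F + S.g) := by
    rw [S.av_eq_avm]
    exact avm_congr fun F _ => by ring
  have h1 : S.av (bad S) ≤ K / P.Q := by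
    have h2 := S.n₀_add
    have h3 := S.Δ_le
    have h4 := P.κ_le
    have h5 := P.τ_le
    have h6 := hEX k S.g S.F₀ 1 P.z S.n₀ S.g_ne S.one_le_z (by rw [Par.z]; omega)
      fun p hp _ hd => (isP_of_mem_pf hp).2.not_isUnit (isUnit_of_dvd_one hd)
    simp only [one_mul] at h6
    refine le_trans h6 (div_le_div₀ (by linarith) ?_ (by linarith) ?_)
    · have h7 : (S.g.natDegree : ℝ) ≤ P.n := by exact_mod_cast S.g_deg
      have h8 := P.n_le_K H
      have h9 : (0 : ℝ) ≤ P.n := Nat.cast_nonneg _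
      linarith
    · exact pow_le_pow_right₀ one_le_qR (by rw [Par.z]; omega)
  rw [e]
  refine (S.av_mono (Ψ := fun F => K ^ 2 * bad S F) fun F hF => ?_).trans ?_
  · have h2 := mul_le_mul (S.tS_le₁ H hF a) (S.tS_le₂ H hF b) (tS_nonneg _ _ _) (by linarith)
    have h3 := mul_le_mul_of_nonneg_left h2 (bad_nonneg S F)
    nlinarith
  · rw [S.av_mul_left, pow_succ K 2, mul_div_assoc]
    exact mul_le_mul_of_nonneg_left h1 (by positivity)

/-- The coprimality conditions may be inserted. -/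
theorem insert_cop (hR : StRed) (hEX : StEX) {K : ℝ} (H : KB2 k P.U P.τ K) {a : ℕ} (b : ℕ)
    (ha : a ≤ S.n₀) {f : k[X] → k[X] → k[X] → ℝ}
    (hf : ∀ A B m, S.In (A * m) → |f A B m| ≤ K ^ 2) :
    |E3 S.g P.z S.n₁ a b (fun A B m => S.χ (A * m) * f A B m) - S.E a b f| ≤ K ^ 5 / P.Q := by
  have hK := H.ten_le
  unfold Sh.E
  rw [← E3_sub]
  refine abs_E3_le.trans ((E3_mono (Ψ := fun A _ m => K ^ 2 * (S.χ (A * m) * bad S (A * m)))
    fun A B m _ _ _ hd hA hB => ?_).trans ?_)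
  · have h0 := mul_nonneg (S.χ_nonneg (A * m)) (bad_nonneg S (A * m))
    by_cases h1 : S.χ (A * m) = 0
    · simp [h1]
    unfold Sh.cop
    split_ifs with h2
    · rw [mul_one, sub_self, abs_zero]
      positivity
    · rw [mul_zero, zero_mul, sub_zero, bad_eq S hd hA hB h2, mul_one, abs_mul,
        abs_of_nonneg (S.χ_nonneg _), mul_comm]
      exact mul_le_mul_of_nonneg_right (hf A B m (S.In_of_χ h1)) (S.χ_nonneg _)
  · rw [E3_mul_left, show K ^ 5 = K ^ 2 * K ^ 3 by ring, mul_div_assoc]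
    exact mul_le_mul_of_nonneg_left (E3_bad S hR hEX H b ha) (by positivity)

end GbPar

theorem stRedg (hR : StRed) (hEX : StEX) : StRedg := by
  intro k _ _ _ P S K a b H ha
  obtain ⟨-, r2, r3, r4⟩ := hR k S.g P.z S.n₁ a b (fun F => S.χ F * S.ν F) (ha.trans S.n₀_le₁)
  have hb : ∀ (F x y : k[X]), S.In F → |S.ν F * mu x * mu y| ≤ K ^ 2 := fun F x y hF => by
    rw [abs_mul, abs_mul, abs_of_nonneg (S.ν_nonneg F), mul_assoc]
    exact (mul_le_of_le_one_right (S.ν_nonneg F)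
      (mul_le_one₀ (abs_mu_le _) (abs_nonneg _) (abs_mu_le _))).trans (S.ν_le H hF)
  refine ⟨GbPar.E3_bad S hR hEX H b ha, ?_, ?_, ?_⟩
  · have e : S.T2 a b = E3 S.g P.z S.n₁ a b fun A B m =>
        S.χ (A * m) * (S.ν (A * m) * mu A * mu (S.Xc A B m)) := by
      rw [Sh.T2, S.av_eq_avm, avm_congr (G := fun F => S.χ F * S.ν F * aS P.z a F *
        bS P.z b (F + S.g)) fun F _ => by ring, r2]
      exact E3_congr fun A B m _ _ _ _ _ _ => by rw [S.mu_Xc]; ring
    rw [e]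
    exact GbPar.insert_cop S hR hEX H b ha fun A B m h => hb _ _ _ h
  · have e : S.T3 a b = E3 S.g P.z S.n₁ a b fun A B m =>
        S.χ (A * m) * (S.ν (A * m) * mu m * mu (S.Xc A B m)) := by
      rw [Sh.T3, S.av_eq_avm, avm_congr (G := fun F => S.χ F * S.ν F * bS P.z a F *
        bS P.z b (F + S.g)) fun F _ => by ring, r3]
      exact E3_congr fun A B m _ _ _ _ _ _ => by rw [S.mu_Xc]; ring
    rw [e]
    exact GbPar.insert_cop S hR hEX H b ha fun A B m h => hb _ _ _ h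
  · have h1 : |S.T3 a b| ≤ S.av fun F => S.ν F * tS P.z a F * tS P.z b (F + S.g) := by
      refine S.abs_av_le.trans (S.av_mono fun F _ => ?_)
      have h2 := S.ν_nonneg F
      rw [abs_mul, abs_mul, abs_of_nonneg h2]
      exact mul_le_mul (mul_le_mul_of_nonneg_left (abs_bS_le _ _ _) h2) (abs_bS_le _ _ _)
        (abs_nonneg _) (mul_nonneg h2 (tS_nonneg _ _ _))
    rw [S.av_eq_avm, avm_congr (G := fun F => S.χ F * S.ν F * tS P.z a F *
      tS P.z b (F + S.g)) fun F _ => by ring, r4] at h1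
    have h2 := GbPar.insert_cop S hR hEX H b ha (f := fun A _ m => S.ν (A * m)) fun A B m h => by
      rw [abs_of_nonneg (S.ν_nonneg _)]
      exact S.ν_le H h
    linarith [(abs_le.1 h2).2]

end Pool.Agent.Lib.MP_9227d9_nt.Mob
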