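import Pool.Agent.Lib.MP_9227d9_nt.GbA
import Pool.Agent.Lib.MP_9227d9_nt.TwRep

/-! The indicator of prime pairs and the sieve weight, for two degrees. -/

namespace Pool.Agent.Lib.MP_9227d9_nt.Mob

open Polynomial

open scoped Classical

namespace GbRep

open TwRep

variable {k : Type} [Field k] [Fintype k] {z n n' N : ℕ} {F G : k[X]}
  {f₁ f₂ : ℕ → ℕ → k[X] → ℝ}

theorem abs_sum_le (hz : 1 ≤ z) (hF : MD n F) (hG : MD n' G) (hn : n ≤ N) (hn' : n' ≤ N) {ν : ℝ}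
    (hν : 0 ≤ ν) (h1 : ∀ d e, f₁ d e = aS z d ∨ f₁ d e = bS z (n - d))
    (h2 : ∀ d e, f₂ d e = aS z e ∨ f₂ d e = bS z (n' - e)) :
    |∑ d ∈ Finset.range (n + 1), ∑ e ∈ Finset.range (n' + 1),
      ((n : ℝ) - d) * ((n' : ℝ) - e) * (ν * f₁ d e F * f₂ d e G)| ≤
      (N : ℝ) ^ 2 * 4 ^ (N / z + 1) * ν := by
  have h3 : ∀ {m : ℕ}, m ≤ N → ∀ d ∈ Finset.range (m + 1), |(m : ℝ) - d| ≤ N := fun {m} hm d hd => by
    have a1 : (d : ℝ) ≤ m := by exact_mod_cast Nat.le_of_lt_succ (Finset.mem_range.1 hd)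
    have a2 : (m : ℝ) ≤ N := by exact_mod_cast hm
    rw [abs_of_nonneg (by linarith)]
    linarith [(Nat.cast_nonneg d : (0 : ℝ) ≤ d)]
  have h4 : ∀ (H : k[X]) (m d : ℕ), 0 ≤ tS z d H + tS z (m - d) H := fun H m d =>
    add_nonneg (tS_nonneg _ _ _) (tS_nonneg _ _ _)
  have h6 : ∀ {m : ℕ} {H : k[X]}, m ≤ N → MD m H →
      ∑ d ∈ Finset.range (m + 1), (tS z d H + tS z (m - d) H) ≤ 2 * 2 ^ (N / z) :=
    fun hm hH => (sum_tS hz hH).trans (mul_le_mul_of_nonneg_left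
      (pow_le_pow_right₀ one_le_two (Nat.div_le_div_right hm)) two_pos.le)
  calc _ ≤ ∑ d ∈ Finset.range (n + 1), ∑ e ∈ Finset.range (n' + 1),
        (N : ℝ) ^ 2 * ν * ((tS z d F + tS z (n - d) F) * (tS z e G + tS z (n' - e) G)) := by
        refine (Finset.abs_sum_le_sum_abs _ _).trans (Finset.sum_le_sum fun d hd => ?_)
        refine (Finset.abs_sum_le_sum_abs _ _).trans (Finset.sum_le_sum fun e he => ?_)
        rw [abs_mul, abs_mul, abs_mul, abs_mul, abs_of_nonneg hν]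
        have h5 := h4 F n d
        calc _ ≤ (N : ℝ) * N *
              (ν * (tS z d F + tS z (n - d) F) * (tS z e G + tS z (n' - e) G)) := by
              gcongr
              · exact h3 hn d hd
              · exact h3 hn' e he
              · exact abs_le_tS (h1 d e) F
              · exact abs_le_tS (h2 d e) G
          _ = _ := by ring
    _ = (N : ℝ) ^ 2 * ν * ((∑ d ∈ Finset.range (n + 1), (tS z d F + tS z (n - d) F)) *
        ∑ e ∈ Finset.range (n' + 1), (tS z e G + tS z (n' - e) G)) := by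
        rw [Finset.sum_mul_sum, Finset.mul_sum]
        exact Finset.sum_congr rfl fun d _ => (Finset.mul_sum _ _ _).symm
    _ ≤ (N : ℝ) ^ 2 * ν * ((2 * 2 ^ (N / z)) * (2 * 2 ^ (N / z))) := by
        have h5 : 0 ≤ ∑ e ∈ Finset.range (n' + 1), (tS z e G + tS z (n' - e) G) :=
          Finset.sum_nonneg fun e _ => h4 G n' e
        gcongr
        · exact h6 hn hF
        · exact h6 hn' hG
    _ = _ := by
        rw [show (4 : ℝ) = 2 * 2 by norm_num, mul_pow]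
        ring

theorem sum_eq (hn : 1 ≤ n) (hn' : 1 ≤ n') (hF : MD n F) (hG : MD n' G) (sF : Squarefree F)
    (sG : Squarefree G) (rF : Rough z F) (rG : Rough z G)
    (h1 : ∀ d e, f₁ d e = aS z d ∨ f₁ d e = bS z (n - d))
    (h2 : ∀ d e, f₂ d e = aS z e ∨ f₂ d e = bS z (n' - e)) :
    ∑ d ∈ Finset.range (n + 1), ∑ e ∈ Finset.range (n' + 1),
      ((n : ℝ) - d) * ((n' : ℝ) - e) * (1 * f₁ d e F * f₂ d e G) =
      (n : ℝ) * n' * if Irreducible F ∧ Irreducible G then 1 else 0 := by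
  have h3 : ∀ {m : ℕ} {H : k[X]} {f : k[X] → ℝ} {d : ℕ}, MD m H → Squarefree H → Rough z H →
      d ∈ Finset.range (m + 1) → (f = aS z d ∨ f = bS z (m - d)) → f H = cS d H := by
    rintro m H f d a1 a2 a3 a4 (rfl | rfl)
    · exact aS_eq a3 d
    · exact bS_eq a1 a2 a3 (Nat.le_of_lt_succ (Finset.mem_range.1 a4))
  calc _ = ∑ d ∈ Finset.range (n + 1), ∑ e ∈ Finset.range (n' + 1),
        (((n : ℝ) - d) * cS d F) * (((n' : ℝ) - e) * cS e G) := by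
        refine Finset.sum_congr rfl fun d hd => Finset.sum_congr rfl fun e he => ?_
        rw [h3 hF sF rF hd (h1 d e), h3 hG sG rG he (h2 d e)]
        ring
    _ = _ := by
        rw [← Finset.sum_mul_sum, sum_cS, sum_cS, vm_sqf hn hF sF, vm_sqf hn' hG sG]
        by_cases a : Irreducible F <;> by_cases b : Irreducible G <;> simp [a, b]

theorem point {P : Par k} (S : Sh P) (hF : S.In F)
    (h1 : ∀ d e, f₁ d e = aS P.z d ∨ f₁ d e = bS P.z (S.n₁ - d))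
    (h2 : ∀ d e, f₂ d e = aS P.z e ∨ f₂ d e = bS P.z (S.n₂ - e)) :
    |(S.n₁ : ℝ) * S.n₂ * tw S.g F - ∑ d ∈ Finset.range (S.n₁ + 1),
      ∑ e ∈ Finset.range (S.n₂ + 1),
        ((S.n₁ : ℝ) - d) * ((S.n₂ : ℝ) - e) * (S.ν F * f₁ d e F * f₂ d e (F + S.g))| ≤
      (P.n : ℝ) ^ 2 * 4 ^ (P.n / P.z + 1) * (De S.g ((P.s - 1) * P.z) P.z F +
        (cnt S.n₁ (P.z - 1) F + cnt S.n₂ (P.z - 1) (C S.c * (F + S.g)))) := by
  have hz := S.one_le_z
  have hz0 : P.z ≤ S.n₀ := by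
    have := S.n₀_add
    have := S.Δ_le
    have := P.κ_le
    have := P.τ_le
    rw [Par.z]
    omega
  have hz1 := hz0.trans S.n₀_le₁
  have hz2 := hz0.trans S.n₀_le₂
  have hF1 := hF.MD₁
  have hG := hF.MD₂
  have e2 : ∀ d e, f₂ d e (F + S.g) = f₂ d e (C S.c * (F + S.g)) := fun d e => by
    rcases h2 d e with h | h <;> rw [h]
    exacts [(aS_C_mul S.c_ne _ _ _).symm, (bS_C_mul S.c_ne _ _ _).symm]
  have e3 : Irreducible (C S.c * (F + S.g)) ↔ Irreducible (F + S.g) :=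
    irreducible_isUnit_mul (isUnit_C' S.c_ne)
  simp only [e2]
  have h3 := abs_sum_le hz hF1 hG S.n₁_le S.n₂_le (S.ν_nonneg F) h1 h2
  have h4 := De_nonneg S.g ((P.s - 1) * P.z) P.z F
  have h5 := cnt_nonneg S.n₁ (P.z - 1) F
  have h6 := cnt_nonneg S.n₂ (P.z - 1) (C S.c * (F + S.g))
  have key : ¬ (Irreducible F ∧ Irreducible (F + S.g)) →
      S.ν F ≤ De S.g ((P.s - 1) * P.z) P.z F +
        (cnt S.n₁ (P.z - 1) F + cnt S.n₂ (P.z - 1) (C S.c * (F + S.g))) →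
      |(S.n₁ : ℝ) * S.n₂ * tw S.g F - ∑ d ∈ Finset.range (S.n₁ + 1),
        ∑ e ∈ Finset.range (S.n₂ + 1), ((S.n₁ : ℝ) - d) * ((S.n₂ : ℝ) - e) *
          (S.ν F * f₁ d e F * f₂ d e (C S.c * (F + S.g)))| ≤
      (P.n : ℝ) ^ 2 * 4 ^ (P.n / P.z + 1) * (De S.g ((P.s - 1) * P.z) P.z F +
        (cnt S.n₁ (P.z - 1) F + cnt S.n₂ (P.z - 1) (C S.c * (F + S.g)))) := fun a b => by
    rw [tw, if_neg a, mul_zero, zero_sub, abs_neg]
    exact h3.trans (mul_le_mul_of_nonneg_left b (by positivity))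
  by_cases hr : Rough P.z (F * (F + S.g))
  · obtain ⟨r1, r2⟩ := rough_mul.1 hr
    have r3 := (rough_C_mul S.c_ne).2 r2
    have h7 : S.ν F = 1 := S.adm.nu2_eq_one _ hr
    by_cases s1 : Squarefree F
    · by_cases s2 : Squarefree (C S.c * (F + S.g))
      · rw [h7, sum_eq (by omega) (by omega) hF1 hG s1 s2 r1 r3 h1 h2, tw, e3, sub_self, abs_zero]
        positivity
      · refine key (fun a => s2 (e3.2 a.2).squarefree) ?_
        linarith [one_le_cnt hz hG s2 r3]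
    · refine key (fun a => s1 a.1.squarefree) ?_
      linarith [one_le_cnt hz hF1 s1 r1]
  · refine key (fun a => hr (rough_mul.2 ⟨(IsP.rough_iff ⟨hF1.1, a.1⟩).2 (hF1.2 ▸ hz1),
      (rough_C_mul S.c_ne).1 ((IsP.rough_iff ⟨hG.1, e3.2 a.2⟩).2 (hG.2 ▸ hz2))⟩)) ?_
    have h8 : S.ν F ≤ De S.g ((P.s - 1) * P.z) P.z F := nu2_le_De _ hr
    linarith

end GbRep

theorem stRepg (hSQ : StSQ) : StRepg := by
  intro k _ _ _ P S f₁ f₂ h1 h2
  have e : (S.n₁ : ℝ) * S.n₂ * S.av (tw S.g) - ∑ d ∈ Finset.range (S.n₁ + 1),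
      ∑ e ∈ Finset.range (S.n₂ + 1), ((S.n₁ : ℝ) - d) * ((S.n₂ : ℝ) - e) *
        S.av (fun F => S.ν F * f₁ d e F * f₂ d e (F + S.g)) =
      S.av fun F => (S.n₁ : ℝ) * S.n₂ * tw S.g F - ∑ d ∈ Finset.range (S.n₁ + 1),
        ∑ e ∈ Finset.range (S.n₂ + 1),
          ((S.n₁ : ℝ) - d) * ((S.n₂ : ℝ) - e) * (S.ν F * f₁ d e F * f₂ d e (F + S.g)) := by
    simp only [Sh.av, avg_sub, avg_sum, avg_mul_left]
  have hq := qR_pow_pos (k := k) S.Δ
  have h3 : S.av (TwRep.cnt S.n₁ (P.z - 1)) ≤ qR k ^ S.Δ * (1 / qR k ^ (P.z - 1)) :=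
    (S.av_le₁ fun F _ => TwRep.cnt_nonneg _ _ F).trans
      (mul_le_mul_of_nonneg_left (hSQ k S.n₁ (P.z - 1)) hq.le)
  have h4 : S.av (fun F => TwRep.cnt S.n₂ (P.z - 1) (C S.c * (F + S.g))) ≤
      qR k ^ S.Δ * (1 / qR k ^ (P.z - 1)) :=
    (S.av_le₂ fun F _ => TwRep.cnt_nonneg _ _ F).trans
      (mul_le_mul_of_nonneg_left (hSQ k S.n₂ (P.z - 1)) hq.le)
  rw [e]
  refine S.abs_av_le.trans ((S.av_mono fun F hF => GbRep.point S hF h1 h2).trans ?_)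
  rw [S.av_mul_left, S.av_add, S.av_add]
  refine mul_le_mul_of_nonneg_left ?_ (by positivity)
  have h5 : 2 * qR k ^ S.Δ / qR k ^ (P.z - 1) =
      qR k ^ S.Δ * (1 / qR k ^ (P.z - 1)) + qR k ^ S.Δ * (1 / qR k ^ (P.z - 1)) := by ring
  rw [h5]
  exact add_le_add_right (add_le_add h3 h4) _

end Pool.Agent.Lib.MP_9227d9_nt.Mob
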