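import Pool.Agent.Lib.MP_9227d9_nt.TwA

/-! The untwisted mean and the trivial bound near the diagonal. -/

namespace Pool.Agent.Lib.MP_9227d9_nt.Mob

open Polynomial

open scoped Classical

namespace TwTK

variable {k : Type} [Field k] [Fintype k]

/-- The mean of the sieve weight over monic polynomials on a progression. -/
theorem avm_nu2 [CharP k 2] (hN : StNu1) {h M : k[X]} (c : k[X]) {y z j : ℕ} (ha : Adm h)
    (hM : Rough z M) (hj : 2 * y ≤ j) :
    avm j (fun Y => nu2 h y z (c + M * Y)) = 1 / G2 h y z := by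
  rw [← hN k h (c + M * X ^ j) M y z j ha hM hj]
  unfold avm
  refine avg_congr fun v _ => ?_
  show nu2 h y z (c + M * (X ^ j + v)) = nu2 h y z (c + M * X ^ j + M * v)
  rw [mul_add, add_assoc]

omit [Fintype k] in
theorem rough_of_ne {z : ℕ} {D : k[X]} (h : mu D * rI z D ≠ 0) : Rough z D := by
  by_contra hc
  exact h (by simp [rI, hc])

omit [Fintype k] in
theorem abs_al_le (z : ℕ) (D : k[X]) : |mu D * rI z D| ≤ 1 := by
  rw [abs_mu_mul_rI]
  exact sr_le_one z D

/-- The mean over triples, restricted to coprime pairs. -/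
theorem E3_eq {h : k[X]} {z : ℕ} (hh : h ≠ 0) (hd : h.natDegree < z) (n d e : ℕ)
    (φ : k[X] → ℝ) :
    E3 h z n d e (fun A B m => φ (A * m) * mu A * mu B) =
      avm d fun D => avm e fun E => if IsCoprime D E then
        mu D * rI z D * (mu E * rI z E) *
          (qR k ^ e * avm (n - d) fun Y => if E ∣ D * Y + h then φ (D * Y) else 0) else 0 := by
  unfold E3
  rw [← avm_mul_left]
  refine avm_congr fun D _ => ?_
  rw [← avm_mul_left]
  refine avm_congr fun E _ => ?_
  by_cases hc : IsCoprime D E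
  · rw [if_pos hc, mul_left_comm, ← avm_mul_left (mu D * rI z D * (mu E * rI z E))]
    congr 1
    refine avm_congr fun m _ => ?_
    by_cases hm : E ∣ D * m + h
    · simp only [if_pos hm]
      rw [← sr_mul_mu, ← sr_mul_mu]
      ring
    · simp only [if_neg hm, mul_zero]
  · rw [if_neg hc, avm_congr (G := fun _ => 0), avm_const, mul_zero]
    intro m _
    by_cases hm : E ∣ D * m + h
    · by_cases hE : sr z E = 0
      · simp only [hE, mul_zero, zero_mul, ite_self]
      · exact absurd ((sr_ne_zero_iff.1 hE).2.isCoprime_of_dvd hh hd hm).1 hc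
    · simp only [if_neg hm]

/-- The coprimality condition may be removed. -/
theorem cop_le (hEX : StEX) {z : ℕ} (hz : 1 ≤ z) (d e : ℕ) :
    |(avm d fun D : k[X] => avm e fun E : k[X] => if IsCoprime D E then
      mu D * rI z D * (mu E * rI z E) else 0) - mm k z d * mm k z e| ≤ d / qR k ^ z := by
  have h1 : mm k z d * mm k z e =
      avm d fun D : k[X] => avm e fun E : k[X] => mu D * rI z D * (mu E * rI z E) := by
    unfold mm
    rw [← avm_mul_right]
    refine avm_congr fun D _ => ?_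
    rw [avm_mul_left]
  have h0 : (0 : ℝ) ≤ d / qR k ^ z := div_nonneg (Nat.cast_nonneg d) (qR_pow_pos z).le
  rw [h1, ← avm_sub]
  refine abs_avm_le_of_le fun D hD => ?_
  rw [← avm_sub]
  by_cases hα : mu D * rI z D = 0
  · rw [avm_congr (G := fun _ => 0), avm_const, abs_zero]
    · exact h0
    · intro E _
      simp only [hα, zero_mul, ite_self, sub_zero]
  have hr : Rough z D := rough_of_ne hα
  rcases lt_or_ge e z with hez | hez
  · rw [avm_congr (G := fun _ => 0), avm_const, abs_zero]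
    · exact h0
    · intro E hE
      by_cases hβ : mu E * rI z E = 0
      · simp only [hβ, mul_zero, ite_self, sub_zero]
      · have h2 : E = 1 := (rough_of_ne hβ).eq_one hE.1 (by rw [hE.2]; exact hez)
        have h3 : IsCoprime D E := by
          rw [h2]
          exact isCoprime_one_right
        simp only [if_pos h3, sub_self]
  · have h2 := hEX k D (X ^ e) 1 z e hD.ne_zero hz hez fun p hp _ hd =>
      ((mem_pf hD.ne_zero).1 hp).1.2.not_isUnit (isUnit_of_dvd_one hd)
    rw [hD.2] at h2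
    refine abs_avm_le.trans (le_trans ?_ h2)
    unfold avm
    refine avg_mono fun v _ => ?_
    by_cases hc : IsCoprime D (X ^ e + v)
    · simp only [if_pos hc, sub_self, abs_zero]
      split_ifs
      · exact zero_le_one
      · exact le_rfl
    · obtain ⟨p, hp, hp1, hp2⟩ := exists_isP_of_not_isCoprime hD.ne_zero hc
      have h3 : ∃ p ∈ pf D, z ≤ p.natDegree ∧ p ∣ X ^ e + 1 * v :=
        ⟨p, (mem_pf hD.ne_zero).2 ⟨hp, hp1⟩, hr p hp hp1, by rwa [one_mul]⟩
      simp only [if_neg hc, if_pos h3, zero_sub, abs_neg]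
      rw [abs_mul]
      exact mul_le_one₀ (abs_al_le z D) (abs_nonneg _) (abs_al_le z _)

/-- The untwisted mean is the discrepancy plus the main term. -/
theorem TK_eq [CharP k 2] (hR : StRed) (hN : StNu1) (P : Par k) {d : ℕ} (e : ℕ)
    (hd : d + P.κ ≤ P.n) :
    P.TK d e = disc P.h d e (P.n - d) (fun D => mu D * rI P.z D) (fun E => mu E * rI P.z E) P.ν +
      (avm d fun D : k[X] => avm e fun E => if IsCoprime D E then
        mu D * rI P.z D * (mu E * rI P.z E) else 0) * (1 / P.G) := by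
  have hκ := P.κ_eq
  unfold Par.TK disc
  rw [(hR k P.h P.z P.n d e P.ν (by omega)).1, E3_eq P.h_ne P.h_lt_z, ← avm_mul_right, ← avm_add]
  refine avm_congr fun D _ => ?_
  rw [← avm_mul_right, ← avm_add]
  refine avm_congr fun E _ => ?_
  by_cases hc : IsCoprime D E
  · simp only [if_pos hc]
    by_cases hα : mu D * rI P.z D = 0
    · simp only [hα, zero_mul, add_zero]
    · have h1 : avm (P.n - d) (fun Y => P.ν (D * Y)) = 1 / P.G := by
        have h2 := avm_nu2 hN 0 (y := P.y) (j := P.n - d) P.adm (rough_of_ne hα) (by omega)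
        simp only [zero_add] at h2
        exact h2
      rw [h1]
      ring
  · simp only [if_neg hc, zero_mul, add_zero]

/-- The contribution of one pair of divisors. -/
theorem pair_le [CharP k 2] (hP : StPar2) (hN : StNu1) (P : Par k) {a b : ℕ} {A B : k[X]}
    (hB : MD b B) (hab : a + b + P.κ ≤ P.n) :
    qR k ^ b * avm (P.n - a) (fun m => if B ∣ A * m + P.h then
      sr P.z A * sr P.z B * P.ν (A * m) else 0) ≤ sr P.z A * sr P.z B * (1 / P.G) := by
  have hκ := P.κ_eq
  have hG : 0 < P.G := lt_of_lt_of_le one_pos P.one_le_G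
  have h0 : 0 ≤ sr P.z A * sr P.z B * (1 / P.G) :=
    mul_nonneg (mul_nonneg (sr_nonneg _ _) (sr_nonneg _ _)) (one_div_pos.2 hG).le
  by_cases hA0 : sr P.z A = 0
  · simp only [hA0, zero_mul, ite_self, avm_const, mul_zero, le_refl]
  by_cases hB0 : sr P.z B = 0
  · simp only [hB0, zero_mul, ite_self, avm_const, mul_zero, le_refl]
  have hA1 : Rough P.z A := (sr_ne_zero_iff.1 hA0).2
  have hB1 : Rough P.z B := (sr_ne_zero_iff.1 hB0).2
  by_cases hc : IsCoprime A B
  · obtain ⟨m₀, c, -, -, -, h4⟩ := hP k A B P.h b hB hc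
    rw [h4 (P.n - a) (fun m => sr P.z A * sr P.z B * P.ν (A * m)) (by omega), avm_mul_left]
    have h2 := avm_nu2 hN (A * m₀) (y := P.y) (j := P.n - a - b) P.adm
      (rough_mul.2 ⟨hA1, hB1⟩) (by omega)
    have h3 : avm (P.n - a - b) (fun m₁ => P.ν (A * (m₀ + B * m₁))) = 1 / P.G := by
      refine Eq.trans (avm_congr fun m₁ _ => ?_) h2
      show nu2 P.h P.y P.z (A * (m₀ + B * m₁)) = nu2 P.h P.y P.z (A * m₀ + A * B * m₁)
      rw [mul_add, mul_assoc]
    rw [h3]
  · rw [avm_congr (G := fun _ => 0), avm_const, mul_zero]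
    · exact h0
    · intro m _
      have hm : ¬ B ∣ A * m + P.h := fun hm => hc (hB1.isCoprime_of_dvd P.h_ne P.h_lt_z hm).1
      simp only [if_neg hm]

end TwTK

open TwTK in
theorem stTK (hR : StRed) (hKD : StKD) (hN : StNu1) (hEX : StEX) : StTK := by
  intro k _ _ _ P K d e H hd he
  have hκ := P.κ_le
  have hτ := P.τ_pos
  have hz : 1 ≤ P.z := by
    unfold Par.z
    omega
  have hG := P.one_le_G
  have hQ := P.two_le_Q
  have hK := H.ten_le
  have hnK := P.n_le_K H
  have h1 := hKD k P K d e H hd he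
  have h2 := cop_le (k := k) hEX hz d e
  have h3 : (d : ℝ) ≤ K ^ 4 := by
    have h4 : d ≤ P.n := by omega
    have h5 : (d : ℝ) ≤ P.n := by exact_mod_cast h4
    have h6 : K ≤ K ^ 4 := le_self_pow₀ (by linarith) (by norm_num)
    have h7 : (0 : ℝ) ≤ P.n := Nat.cast_nonneg _
    linarith
  have h4 : P.Q ≤ qR k ^ P.z := by
    have h5 : qR k ^ P.z = P.Q ^ 12 := (P.Q_pow 12).symm
    rw [h5]
    exact le_self_pow₀ (by linarith) (by norm_num)
  have h5 : (d : ℝ) / qR k ^ P.z ≤ K ^ 4 / P.Q :=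
    div_le_div₀ (by positivity) h3 (by linarith) h4
  have h6 : 0 < 1 / P.G := one_div_pos.2 (by linarith)
  have h7 : 1 / P.G ≤ 1 := (div_le_one (by linarith)).2 hG
  rw [TK_eq hR hN P e (by omega), div_eq_mul_one_div (mm k P.z d * mm k P.z e), add_sub_assoc,
    ← sub_mul]
  refine (abs_add_le _ _).trans ?_
  rw [abs_mul, abs_of_pos h6]
  have h8 := mul_le_mul (h2.trans h5) h7 h6.le (by positivity)
  have h9 : 11 * K ^ 4 / P.Q = 10 * K ^ 4 / P.Q + K ^ 4 / P.Q * 1 := by ring
  rw [h9]
  exact add_le_add h1 h8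

open TwTK in
theorem stDiag (hR : StRed) (hP : StPar2) (hN : StNu1) (hC : StC1) : StDiag := by
  intro k _ _ _ P a b ha hb hab
  have hτ := P.τ_pos
  have hz : 1 ≤ P.z := by
    unfold Par.z
    omega
  have hz1 : (0 : ℝ) < P.z := by exact_mod_cast hz
  have hG : 0 < P.G := lt_of_lt_of_le one_pos P.one_le_G
  have h1 : |P.T3 a b| ≤ avm P.n fun F => P.ν F * tS P.z a F * tS P.z b (F + P.h) := by
    unfold Par.T3
    refine abs_avm_le.trans (avm_mono fun F _ => ?_)
    have h2 : 0 ≤ P.ν F := nu2_nonneg _ _ _ _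
    rw [abs_mul, abs_mul, abs_of_nonneg h2]
    exact mul_le_mul (mul_le_mul_of_nonneg_left (abs_bS_le _ _ _) h2) (abs_bS_le _ _ _)
      (abs_nonneg _) (mul_nonneg h2 (tS_nonneg _ _ _))
  rw [(hR k P.h P.z P.n a b P.ν (by omega)).2.2.2] at h1
  have h2 : E3 P.h P.z P.n a b (fun A _ m => P.ν (A * m)) ≤
      avm a (fun A : k[X] => sr P.z A) * (avm b (fun B : k[X] => sr P.z B) * (1 / P.G)) := by
    unfold E3
    rw [← avm_mul_left, ← avm_mul_right]
    refine avm_mono fun A _ => ?_
    rw [← avm_mul_left, ← avm_mul_right, ← avm_mul_left]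
    refine avm_mono fun B hB => ?_
    rw [← mul_assoc]
    exact pair_le hP hN P hB hab
  have h3 := hC k P.z a hz ha
  have h4 := hC k P.z b hz hb
  have h5 : 0 ≤ avm b (fun B : k[X] => sr P.z B) := avm_nonneg fun B _ => sr_nonneg _ _
  have h6 : 0 < 1 / P.G := one_div_pos.2 hG
  have h7 := mul_le_mul h3 (mul_le_mul_of_nonneg_right h4 h6.le) (mul_nonneg h5 h6.le)
    (one_div_pos.2 hz1).le
  have h8 : 1 / ((P.z : ℝ) ^ 2 * P.G) = 1 / P.z * (1 / P.z * (1 / P.G)) := by
    field_simp
  rw [h8]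
  exact h1.trans (h2.trans h7)

end Pool.Agent.Lib.MP_9227d9_nt.Mob
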