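import Pool.Agent.Lib.MP_9227d9_nt.GbA
import Pool.Agent.Lib.MP_9227d9_nt.TwTK

/-! The untwisted mean and the trivial bound near the diagonal, uniformly in the shift. -/

namespace Pool.Agent.Lib.MP_9227d9_nt.Mob

open Polynomial

open scoped Classical

namespace GbTK

variable {k : Type} [Field k] [Fintype k]

/-- The mean over triples, restricted to coprime pairs. -/
theorem E3_eq (h : k[X]) (z n d e : ℕ) (φ : k[X] → ℝ) :
    E3 h z n d e (fun A B m => if IsCoprime A B then φ (A * m) * mu A * mu B else 0) =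
      avm d fun D => avm e fun E => if IsCoprime D E then
        mu D * rI z D * (mu E * rI z E) *
          (qR k ^ e * avm (n - d) fun Y => if E ∣ D * Y + h then φ (D * Y) else 0) else 0 := by
  unfold E3
  rw [← avm_mul_left]
  refine avm_congr fun D _ => ?_
  rw [← avm_mul_left]
  refine avm_congr fun E _ => ?_
  by_cases hc : IsCoprime D E
  · simp only [if_pos hc]
    rw [mul_left_comm, ← avm_mul_left (mu D * rI z D * (mu E * rI z E))]
    congr 1
    refine avm_congr fun m _ => ?_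
    by_cases hm : E ∣ D * m + h
    · simp only [if_pos hm]
      rw [← sr_mul_mu, ← sr_mul_mu]
      ring
    · simp only [if_neg hm, mul_zero]
  · simp only [if_neg hc, mul_zero, ite_self, avm_const]

variable [CharP k 2] {P : Par k} (S : Sh P) {K : ℝ}

/-- Pairs that are not coprime contribute little. -/
theorem TK_sub (hR : StRed) (hRg : StRedg) (H : KB2 k P.U P.τ K) (h1 : S.n₁ = S.n₀) {d : ℕ}
    (e : ℕ) (hd : d ≤ S.n₀) :
    |S.TK d e - E3 S.g P.z S.n₀ d e fun A B m =>
      if IsCoprime A B then S.ν (A * m) * mu A * mu B else 0| ≤ K ^ 5 / P.Q := by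
  have hK := H.ten_le
  have h2 := (hRg k P S K d e H hd).1
  rw [h1] at h2
  rw [Sh.TK, S.av_eq_of_eq h1, (hR k S.g P.z S.n₀ d e S.ν hd).1, ← E3_sub]
  refine abs_E3_le.trans ((E3_mono (Ψ := fun A _ m => K ^ 2 * (S.χ (A * m) *
    if ∃ p ∈ pf S.g, P.z ≤ p.natDegree ∧ p ∣ A * m then 1 else 0))
    fun A B m hA _ hm hdv hsA _ => ?_).trans ?_)
  · have h3 : S.In (A * m) := by
      have := hA.mul hm
      rw [Nat.add_sub_cancel' hd] at this
      exact S.In_of_MD h1 this
    have h4 : S.χ (A * m) = 1 := by rw [Sh.χ, if_pos h3, h1, Nat.sub_self, pow_zero]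
    rw [h4, one_mul]
    by_cases hc : IsCoprime A B
    · rw [if_pos hc, sub_self, abs_zero]
      split_ifs <;> positivity
    · obtain ⟨p, hp, h5, h6⟩ := exists_isP_of_not_isCoprime hA.ne_zero hc
      rw [if_neg hc, sub_zero, if_pos ⟨p, (mem_pf S.g_ne).2
        ⟨hp, (dvd_add_right (h5.mul_right m)).1 (h6.trans hdv)⟩, (sr_ne_zero_iff.1 hsA).2 p hp h5,
        h5.mul_right m⟩, mul_one, abs_mul, abs_mul, abs_of_nonneg (S.ν_nonneg _), mul_assoc]
      exact (mul_le_of_le_one_right (S.ν_nonneg _)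
        (mul_le_one₀ (abs_mu_le _) (abs_nonneg _) (abs_mu_le _))).trans (S.ν_le H h3)
  · rw [E3_mul_left, show K ^ 5 = K ^ 2 * K ^ 3 by ring, mul_div_assoc]
    exact mul_le_mul_of_nonneg_left h2 (by positivity)

/-- The coprime part is the discrepancy plus the main term. -/
theorem cop_eq (hN : StNu1) {d : ℕ} (e : ℕ) (hd : d + P.κ ≤ S.n₀) :
    E3 S.g P.z S.n₀ d e (fun A B m => if IsCoprime A B then S.ν (A * m) * mu A * mu B else 0) =
      disc S.g d e (S.n₀ - d) (fun D => mu D * rI P.z D) (fun E => mu E * rI P.z E) S.ν +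
      (avm d fun D : k[X] => avm e fun E => if IsCoprime D E then
        mu D * rI P.z D * (mu E * rI P.z E) else 0) * (1 / S.G) := by
  have hκ := S.two_y
  unfold disc
  rw [E3_eq, ← avm_mul_right, ← avm_add]
  refine avm_congr fun D _ => ?_
  rw [← avm_mul_right, ← avm_add]
  refine avm_congr fun E _ => ?_
  by_cases hc : IsCoprime D E
  · simp only [if_pos hc]
    by_cases hα : mu D * rI P.z D = 0
    · simp only [hα, zero_mul, add_zero]
    · have h1 : avm (S.n₀ - d) (fun Y => S.ν (D * Y)) = 1 / S.G := by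
        have h2 := TwTK.avm_nu2 hN 0 (y := (P.s - 1) * P.z) (j := S.n₀ - d) S.adm
          (TwTK.rough_of_ne hα) (by omega)
        simp only [zero_add] at h2
        exact h2
      rw [h1]
      ring
  · simp only [if_neg hc, zero_mul, add_zero]

end GbTK

theorem stTKg (hR : StRed) (hRg : StRedg) (hKD : StKDg) (hN : StNu1) (hEX : StEX) : StTKg := by
  intro k _ _ _ P S K d e H h0 hd he
  have hκ := P.κ_le
  have hτ := P.τ_le
  have hΔ := S.Δ_le
  have hn := S.n₀_add
  have hG := S.one_le_G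
  have hQ := P.two_le_Q
  have hK := H.ten_le
  have hnK := P.n_le_K H
  have h1 := hKD k P S K d e H h0 hd he
  have h2 := TwTK.cop_le (k := k) hEX S.one_le_z d e
  have h3 : (d : ℝ) ≤ K := by
    have h5 : (d : ℝ) ≤ P.n := by exact_mod_cast (by omega : d ≤ P.n)
    have h7 : (0 : ℝ) ≤ P.n := Nat.cast_nonneg _
    linarith
  have h4 : P.Q ≤ qR k ^ P.z := pow_le_pow_right₀ one_le_qR (by rw [Par.z]; omega)
  have h5 : (d : ℝ) / qR k ^ P.z ≤ K / P.Q := div_le_div₀ (by linarith) h3 (by linarith) h4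
  have h6 : 0 < 1 / S.G := one_div_pos.2 (by linarith)
  have h7 : 1 / S.G ≤ 1 := (div_le_one (by linarith)).2 hG
  have h8 := GbTK.TK_sub S hR hRg H h0 e (d := d) (by omega)
  rw [GbTK.cop_eq S hN e (by omega)] at h8
  have h9 := mul_le_mul (h2.trans h5) h7 h6.le (by positivity)
  rw [← abs_of_pos h6, ← abs_mul, sub_mul, mul_one] at h9
  have h10 : 10 * K ^ 4 / P.Q + K ^ 5 / P.Q + K / P.Q ≤ 7 * K ^ 5 / P.Q := by
    rw [← add_div, ← add_div]
    refine div_le_div_of_nonneg_right ?_ (by linarith)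
    have a1 : K ≤ K ^ 5 := le_self_pow₀ (by linarith) (by norm_num)
    have a2 : 0 ≤ K ^ 4 := by positivity
    nlinarith [mul_le_mul_of_nonneg_left hK a2]
  rw [div_eq_mul_one_div (mm k P.z d * mm k P.z e)]
  have b1 := abs_le.1 h1
  have b2 := abs_le.1 h8
  have b3 := abs_le.1 h9
  rw [abs_le]
  constructor <;> linarith

theorem stDiagg (hRg : StRedg) (hP : StPar3) (hN : StNu1) (hC : StC1) : StDiagg := by
  intro k _ _ _ P S K a b H ha hb hab
  have hz := S.one_le_z
  have hz1 : (0 : ℝ) < P.z := by exact_mod_cast hz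
  have hG : 0 < S.G := lt_of_lt_of_le one_pos S.one_le_G
  have h6 : 0 < 1 / S.G := one_div_pos.2 hG
  have hκ := S.two_y
  refine (hRg k P S K a b H (by omega)).2.2.2.trans (add_le_add ?_ le_rfl)
  have h2 : |S.E a b fun A _ m => S.ν (A * m)| ≤ avm a fun A : k[X] => avm b fun B =>
      if IsCoprime A B ∧ IsCoprime A S.g then sr P.z A * sr P.z B * (1 / S.G) else 0 := by
    refine S.abs_E_le_of_pairs (β := fun _ _ => 1 / S.G) (fun _ _ => h6.le)
      fun A B hA hB h1 h2 _ _ hc => ?_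
    obtain ⟨m₀, c₀, -, -, -, h4⟩ := hP k P S A B a b hA hB hc (by omega)
    have h3 := TwTK.avm_nu2 hN (A * m₀) (M := C S.c⁻¹ * (A * B)) (y := (P.s - 1) * P.z)
      (j := S.n₀ - a - b) S.adm ((rough_C_mul (inv_ne_zero S.c_ne)).2
        (rough_mul.2 ⟨(sr_ne_zero_iff.1 h1).2, (sr_ne_zero_iff.1 h2).2⟩)) (by omega)
    have h5 : (avm (S.n₀ - a - b) fun t => S.ν (A * (m₀ + C S.c⁻¹ * B * t))) = 1 / S.G :=
      Eq.trans (avm_congr fun t _ => congrArg S.ν (by ring)) h3
    rw [h4 fun m => S.ν (A * m), h5]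
    exact (abs_of_pos h6).le
  have h3 : (avm a fun A : k[X] => avm b fun B =>
      if IsCoprime A B ∧ IsCoprime A S.g then sr P.z A * sr P.z B * (1 / S.G) else 0) ≤
      avm a (fun A : k[X] => sr P.z A) * (avm b (fun B : k[X] => sr P.z B) * (1 / S.G)) := by
    rw [← avm_mul_right]
    refine avm_mono fun A _ => ?_
    rw [← avm_mul_right, ← avm_mul_left]
    refine avm_mono fun B _ => ?_
    split_ifs
    · rw [mul_assoc]
    · exact mul_nonneg (sr_nonneg _ _) (mul_nonneg (sr_nonneg _ _) h6.le)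
  have h4 := hC k P.z a hz ha
  have h5 := hC k P.z b hz hb
  have h7 : 0 ≤ avm b (fun B : k[X] => sr P.z B) := avm_nonneg fun B _ => sr_nonneg _ _
  have h8 := mul_le_mul h4 (mul_le_mul_of_nonneg_right h5 h6.le) (mul_nonneg h7 h6.le)
    (one_div_pos.2 hz1).le
  have h9 : 1 / ((P.z : ℝ) ^ 2 * S.G) = 1 / P.z * (1 / P.z * (1 / S.G)) := by
    field_simp
  rw [h9]
  exact (le_abs_self _).trans (h2.trans (h3.trans h8))

end Pool.Agent.Lib.MP_9227d9_nt.Mob
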