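import Pool.Agent.Lib.MP_9227d9_nt.GbA
import Pool.Agent.Lib.MP_9227d9_nt.TwUse

/-! Insertion of the weight and the twisted mean of type I, uniformly in the shift. -/

namespace Pool.Agent.Lib.MP_9227d9_nt.Mob

open Polynomial

open scoped Classical

namespace GbUse

variable {k : Type} [Field k] [Fintype k]

theorem sqf_Xc (c : Gt k) {A B m : k[X]} (hB : MD c.b₀ B) (hd : B ∣ A * m + c.S.g)
    (hA : sr c.z A ≠ 0) (hg : IsCoprime A c.S.g) (hX : mu (c.S.Xc A B m) ≠ 0) :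
    Squarefree (c.S.Xc A B m * A) :=
  squarefree_mul_iff.2 ⟨(c.S.isCoprime_of_eq hg (c.S.mul_Xc hB.ne_zero hd)).1.isRelPrime,
    mu_ne_zero_iff.1 hX, (sr_ne_zero_iff.1 hA).1⟩

variable [CharP k 2]

theorem avm_Wm (hM4 : StM4) (c : Gt k) {A B m : k[X]} (hs : Squarefree (c.S.Xc A B m * A)) :
    (avm c.nu fun u => c.Wm (c.l A B m u)) = (avm c.nu fun u => c.W (c.l A B m u)) - 1 := by
  have h1 := c.nu_ge
  have h2 := c.τ_le
  have h3 := hM4 k (4 * c.τ) 0 (12 * c.τ) c.nu (c.S.Xc A B m * A) 1 hs squarefree_one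
    (Nat.zero_le _) (by omega)
  rw [TwUse.f0_zero] at h3
  have h4 : (avm c.nu fun u => wm (4 * c.τ) (12 * c.τ) (c.l A B m u)) = 1 := by
    rw [← h3]
    refine avm_congr fun u _ => ?_
    rw [TwUse.wm_zero, mul_one]
    rfl
  rw [← h4, ← avm_sub]
  rfl

theorem E_abs_le (hI : StInsg) (hP : StPar3) (c : Gt k) {K : ℝ} (H : KB2 k c.U c.τ K)
    (hq : qR k ^ c.S.Δ ≤ K) :
    c.E (fun A B m => |avm c.nu fun u => c.Wm (c.l A B m u)|) ≤ 4 * K ^ 3 / √c.Q := by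
  have hQ : 0 < c.Q := lt_of_lt_of_le two_pos c.two_le_Q
  have hK := H.ten_le
  have hab : c.a + c.b₀ ≤ c.S.n₀ := le_trans (Nat.le_add_right _ _) c.ab_le'
  have h1 := c.S.sq_E_le (f := fun A B m => |avm c.nu fun u => c.Wm (c.l A B m u)|) hP hab
  have h2 := hI k c K H hq
  simp only [sq_abs] at h1
  have h3 : (4 * K ^ 3 / √c.Q) ^ 2 = 16 * K ^ 6 / c.Q := by
    rw [div_pow, Real.sq_sqrt hQ.le]
    ring
  have h4 : 15 * K ^ 5 / c.Q ≤ 16 * K ^ 6 / c.Q := by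
    refine div_le_div_of_nonneg_right ?_ hQ.le
    have a1 : K ^ 5 ≤ K ^ 6 := pow_le_pow_right₀ (by linarith) (by norm_num)
    have a2 : 0 ≤ K ^ 6 := by positivity
    linarith
  have h5 : c.E (fun A B m => |avm c.nu fun u => c.Wm (c.l A B m u)|) ^ 2 ≤
      (4 * K ^ 3 / √c.Q) ^ 2 := by
    rw [h3]
    exact h1.trans (h2.trans h4)
  exact (le_abs_self _).trans (abs_le_of_sq_le_sq h5 (by positivity))

/-- The weighted mean for one pair of moduli. -/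
theorem pair_le (hP : StPar3) (hO : StOng) (c : Gt k) {K sv : ℝ}
    (H : KB2 k c.U c.τ K) (hL : LineOK k c.U c.τ sv) (hsv : 0 ≤ sv) {A B : k[X]}
    (hA : MD c.a A) (hB : MD c.b₀ B) (hsA : sr c.z A ≠ 0) (hg : IsCoprime A c.S.g)
    (hc : IsCoprime A B) :
    |qR k ^ c.b₀ * avm (c.S.n₁ - c.a) fun m => if B ∣ A * m + c.S.g then c.S.χ (A * m) *
      (c.S.ν (A * m) * mu A * mu (c.S.Xc A B m) * avm c.nu fun u => c.W (c.l A B m u)) else 0| ≤
      K ^ 2 * K * (sv + K / c.Q) := by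
  have hab := c.ab_le'
  obtain ⟨m₀, c₀, hc₀, hX, hm, hav⟩ := hP k c.toPar c.S A B c.a c.b₀ hA hB hc (by omega)
  have e : ∀ t, A * m₀ + A * (C c.S.c⁻¹ * B) * t = A * (m₀ + C c.S.c⁻¹ * B * t) := fun t => by ring
  have hper : PerS c.z (2 * c.κ - c.τ) c.j (K ^ 2)
      fun t => c.S.ν (A * m₀ + A * (C c.S.c⁻¹ * B) * t) :=
    (c.S.perS H (A * m₀) (A * (C c.S.c⁻¹ * B)) fun t ht => e t ▸ (hm t ht).2.1).mono (by omega)
  have hon := hO k c.toTw K (K ^ 2) sv c.j A c₀ _ H hL hsv c.n1_le' hA (sr_ne_zero_iff.1 hsA).1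
    (c.S.isCoprime_of_eq hg hc₀).1 (fun t ht => c.n₂_sub ▸ (hm t ht).2.2) hper
  rw [hav fun m => c.S.ν (A * m) * mu A * mu (c.S.Xc A B m) *
    avm c.nu fun u => c.W (c.l A B m u)]
  have he : (avm (c.S.n₀ - c.a - c.b₀) fun t =>
      c.S.ν (A * (m₀ + C c.S.c⁻¹ * B * t)) * mu A * mu (c.S.Xc A B (m₀ + C c.S.c⁻¹ * B * t)) *
        avm c.nu fun u => c.W (c.l A B (m₀ + C c.S.c⁻¹ * B * t) u)) =
      mu A * avm c.nu fun u => avm c.j fun t => c.S.ν (A * m₀ + A * (C c.S.c⁻¹ * B) * t) *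
        mu (A * t + c₀) * c.W (od ((A * t + c₀) * A * u)) := by
    rw [avm_comm, ← avm_mul_left]
    refine avm_congr fun t _ => ?_
    unfold Gt.l
    rw [avm_mul_left, hX t, e t]
    ring
  rw [he, abs_mul]
  exact (mul_le_of_le_one_left (abs_nonneg _) (abs_mu_le _)).trans hon

end GbUse

theorem stUseg (hI : StInsg) (hM4 : StM4) (hP : StPar3) : StUseg := by
  intro k _ _ _ c K C₀ γ H hq hC hγ
  have h1 := GbUse.E_abs_le hI hP c H hq
  unfold Gt.E at h1 ⊢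
  rw [← Sh.E_sub]
  refine c.S.abs_E_le.trans ((c.S.E_mono (f' := fun A B m =>
    C₀ * |avm c.nu fun u => c.Wm (c.l A B m u)|) ?_).trans ?_)
  · intro A B m _ hB hm hd hsA _ hg _
    by_cases hX : mu (c.S.Xc A B m) = 0
    · rw [hX, mul_zero, zero_mul, sub_zero, abs_zero]
      positivity
    rw [GbUse.avm_Wm hM4 c (GbUse.sqf_Xc c hB hd hsA hg hX), ← mul_one_sub, abs_mul, abs_mul,
      abs_sub_comm]
    refine mul_le_mul_of_nonneg_right ?_ (abs_nonneg _)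
    exact (mul_le_of_le_one_right (abs_nonneg _) (abs_mu_le _)).trans (hγ A B m hm)
  · rw [Sh.E_mul_left]
    refine (mul_le_mul_of_nonneg_left h1 hC).trans (le_of_eq ?_)
    ring

theorem stA2g (hR : StRedg) (hP : StPar3) (hU : StUseg) (hO : StOng) : StA2g := by
  intro k _ _ _ c K sv H hq hL hsv
  have hQ2 : 2 ≤ c.Q := c.two_le_Q
  have hQ : 0 < c.Q := lt_of_lt_of_le two_pos hQ2
  have hK : 10 ≤ K := H.ten_le
  have hab := c.ab_le'
  have h1 := (hR k c.toPar c.S K c.a c.b₀ H (by omega)).2.1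
  have h2 := hU k c K (K ^ 2) (fun A _ m => c.S.ν (A * m) * mu A) H hq (by positivity) (by
    intro A B m hm
    rw [abs_mul, abs_of_nonneg (c.S.ν_nonneg _)]
    exact (mul_le_of_le_one_right (c.S.ν_nonneg _) (abs_mu_le _)).trans (c.S.ν_le H hm))
  have h3 : |c.E fun A B m => c.S.ν (A * m) * mu A * mu (c.S.Xc A B m) *
      avm c.nu fun u => c.W (c.l A B m u)| ≤ K ^ 2 * K * (sv + K / c.Q) :=
    c.S.abs_E_le_of_le (by positivity) fun A B hA hB hsA _ hg _ hc =>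
      GbUse.pair_le hP hO c H hL hsv hA hB hsA hg hc
  have h4 : 1 / c.Q ≤ 1 / √c.Q := by
    refine one_div_le_one_div_of_le (Real.sqrt_pos.2 hQ) ?_
    rw [Real.sqrt_le_left hQ.le]
    nlinarith
  have h6 : 4 * K ^ 2 * K ^ 3 / √c.Q = 4 * (K ^ 5 * (1 / √c.Q)) := by ring
  have h7 : K ^ 2 * K * (sv + K / c.Q) = K ^ 3 * sv + K ^ 4 * (1 / c.Q) := by ring
  have a1 : K ^ 4 ≤ K ^ 5 := pow_le_pow_right₀ (by linarith) (by norm_num)
  have a2 : K ^ 3 ≤ K ^ 5 := pow_le_pow_right₀ (by linarith) (by norm_num)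
  have h8 : K ^ 4 * (1 / c.Q) ≤ K ^ 5 * (1 / √c.Q) :=
    mul_le_mul a1 h4 (by positivity) (by positivity)
  have h9 : K ^ 3 * sv ≤ K ^ 5 * sv := mul_le_mul_of_nonneg_right a2 hsv
  have h10 : K ^ 5 / c.Q ≤ K ^ 5 * (1 / √c.Q) := by
    rw [div_eq_mul_one_div]
    exact mul_le_mul_of_nonneg_left h4 (by positivity)
  have h11 : 0 ≤ K ^ 5 * sv := by positivity
  have h12 : 0 ≤ K ^ 5 * (1 / √c.Q) := by positivity
  rw [h6] at h2
  rw [h7] at h3
  unfold Gt.E at h2 h3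
  have b1 := abs_le.1 h1
  have b2 := abs_le.1 h2
  have b3 := abs_le.1 h3
  rw [abs_le]
  constructor <;> linarith

end Pool.Agent.Lib.MP_9227d9_nt.Mob
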