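import Pool.Agent.Lib.MP_9227d9_nt.TwAll
import Pool.Agent.Lib.MP_9227d9_nt.GbPar
import Pool.Agent.Lib.MP_9227d9_nt.GbK1
import Pool.Agent.Lib.MP_9227d9_nt.GbKD
import Pool.Agent.Lib.MP_9227d9_nt.GbTK
import Pool.Agent.Lib.MP_9227d9_nt.GbOff
import Pool.Agent.Lib.MP_9227d9_nt.GbIns
import Pool.Agent.Lib.MP_9227d9_nt.GbUse
import Pool.Agent.Lib.MP_9227d9_nt.GbA3
import Pool.Agent.Lib.MP_9227d9_nt.GbRep
import Pool.Agent.Lib.MP_9227d9_nt.GbCore
import Pool.Agent.Lib.MP_9227d9_nt.GbSing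
import Pool.Agent.Lib.MP_9227d9_nt.GbLim

/-! Assembly of the modules of the uniform theorem. -/

namespace Pool.Agent.Lib.MP_9227d9_nt.Mob

theorem gbRed : StRedg := stRedg twRed stEX

theorem gbTK : StTKg :=
  stTKg twRed gbRed (stKDg (stK1g twKI stGX stPar1) (stKtg twKI stGX) stKF stDec stSQ) stNu1 stEX

theorem gbUse : StUseg :=
  stUseg (stInsg (stD stDa) (stCell stS stSQ stEX stM1) stCollg stPar3) stM4 stPar3

theorem gbCore : StCoreg :=
  stCoreg (stRepg stSQ) twDe gbTK stIex (stA2g gbRed stPar3 gbUse (stOng twEX1))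
    (stA3g gbRed stPar3 gbUse (stOffg twEX1 stEX2)) (stDiagg gbRed stPar3 stNu1 stC1)

theorem gbMM : StMM := stMM stSeq (stSm1 stPar1)

theorem gbLim : StLimg :=
  stLimg gbCore (stK2 stVar stM5 stOm) (stLine (stA stA1 (stA2 stA2n)) (stB stB0)) gbMM twDe
    stSingg stSing

end Pool.Agent.Lib.MP_9227d9_nt.Mob
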