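import Pool.Agent.Lib.MP_9227d9_nt.GbA

/-! The asymptotic formula for all shifts, monic shifts of degree `n` included. -/

namespace Pool.Agent.Lib.MP_9227d9_nt.Mob

open Polynomial Filter Topology

open scoped Classical

/-- The asymptotic formula for all shifts of degree at most `n + n / V`. -/
def StAny : Prop :=
  ∀ (k : Type) [Field k] [Fintype k] [CharP k 2] (ε : ℝ), 0 < ε → ∃ V : ℕ, 0 < V ∧
    ∀ᶠ n : ℕ in Filter.atTop, ∀ (h : k[X]) (S : ℝ), h ≠ 0 → Adm h →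
      V * (h.natDegree - n) ≤ n →
      HasProd (fun p : {p : k[X] // p.Monic ∧ Irreducible p} => fac h p.1) S →
      |(n : ℝ) ^ 2 * avm n (tw h) - S| ≤ ε * S

namespace GbAny

variable {k : Type} [Field k] [Fintype k]

theorem avg_one (Φ : k[X] → ℝ) : avg 1 Φ = (∑ c : k, Φ (C c)) / qR k := by
  unfold avg
  rw [pow_one]
  congr 1
  symm
  refine Finset.sum_bij (fun c _ => C c) (fun c _ => mem_Pn.2 ?_) (fun _ _ _ _ h => C_injective h)
    (fun f hf => ⟨f.coeff 0, Finset.mem_univ _, ?_⟩) fun _ _ => rfl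
  · exact degree_C_le.trans_lt (by norm_num)
  · exact (eq_C_of_degree_le_zero (Nat.WithBot.lt_one_iff_le_zero.1 (mem_Pn.1 hf))).symm

theorem avg_succ (j : ℕ) (Φ : k[X] → ℝ) : avg (j + 1) Φ =
    (avg j Φ + ∑ c ∈ Finset.univ.erase (0 : k), avm j fun Q => Φ (C c * Q)) / qR k := by
  have h1 := avg_split (M := (X ^ j : k[X])) (pow_ne_zero _ X_ne_zero) 1 Φ
  rw [natDegree_X_pow] at h1
  rw [h1]
  simp only [avg_one, div_eq_mul_inv]
  rw [avg_mul_right, avg_sum, ← Finset.add_sum_erase _ _ (Finset.mem_univ (0 : k))]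
  congr 2
  · simp
  · refine Finset.sum_congr rfl fun c hc => ?_
    rw [← avg_C_mul (Finset.ne_of_mem_erase hc)]
    exact avg_congr fun v _ => congrArg Φ (by ring)

omit [Fintype k] in
theorem tw_C_mul {c : k} (hc : c ≠ 0) (h Q : k[X]) : tw h (C c * Q) = tw (C c⁻¹ * h) Q := by
  have e : C c * Q + h = C c * (Q + C c⁻¹ * h) := by
    rw [mul_add, ← mul_assoc, mul_comm (C c) (C c⁻¹), C_inv_mul hc, one_mul]
  unfold tw
  rw [e, irreducible_isUnit_mul (isUnit_C' hc), irreducible_isUnit_mul (isUnit_C' hc)]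

omit [Fintype k] in
theorem tw_nonneg (h F : k[X]) : 0 ≤ tw h F := by
  unfold tw
  split_ifs <;> norm_num

omit [Fintype k] in
theorem tw_le_one (h F : k[X]) : tw h F ≤ 1 := by
  unfold tw
  split_ifs <;> norm_num

theorem avm_eq_avg [CharP k 2] {n : ℕ} {h : k[X]} (hh : MD n h) : avm n (tw h) = avg n (tw h) := by
  have h1 := hh.degree_sub
  rw [← avg_shift (F := tw h) h1, avm]
  refine avg_congr fun v _ => ?_
  have e1 : v + (h - X ^ n) = X ^ n + v + h := by rw [CharTwo.sub_eq_add]; ring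
  unfold tw
  rw [e1, add_assoc (X ^ n + v), CharTwo.add_self_eq_zero, add_zero]
  exact if_congr and_comm rfl rfl

/-- The recursion over the degree of the smaller polynomial. -/
theorem recur {Φ : k[X] → ℝ} {j₀ d : ℕ} {lo hi : ℝ} (h0 : ∀ F, 0 ≤ Φ F) (h1 : ∀ F, Φ F ≤ 1)
    (hlo : 0 ≤ lo) (hhi : 0 ≤ hi)
    (H : ∀ j, j₀ ≤ j → j < j₀ + d → ∀ c : k, c ≠ 0 →
      lo ≤ avm j (fun Q => Φ (C c * Q)) ∧ avm j (fun Q => Φ (C c * Q)) ≤ hi) :
    lo - avg (j₀ + d) Φ ≤ lo * (1 / 2) ^ d ∧ avg (j₀ + d) Φ - hi ≤ (1 / 2) ^ d := by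
  induction d with
  | zero =>
    have a1 : 0 ≤ avg j₀ Φ := avg_nonneg fun v _ => h0 v
    have a2 : avg j₀ Φ ≤ 1 := avg_le_of_le fun v _ => h1 v
    simp only [add_zero, pow_zero, mul_one]
    constructor <;> linarith
  | succ d ih =>
    obtain ⟨a1, a2⟩ := ih fun j b1 b2 => H j b1 (by omega)
    have hq := two_le_qR (k := k)
    have hc : ((Finset.univ.erase (0 : k)).card : ℝ) = qR k - 1 := by
      rw [Finset.card_erase_of_mem (Finset.mem_univ _), Finset.card_univ,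
        Nat.cast_sub Fintype.card_pos, Nat.cast_one, qR]
    have b1 := Finset.card_nsmul_le_sum (Finset.univ.erase (0 : k))
      (fun c => avm (j₀ + d) fun Q => Φ (C c * Q)) lo fun c hc' =>
        (H _ (by omega) (by omega) c (Finset.ne_of_mem_erase hc')).1
    have b2 := Finset.sum_le_card_nsmul (Finset.univ.erase (0 : k))
      (fun c => avm (j₀ + d) fun Q => Φ (C c * Q)) hi fun c hc' =>
        (H _ (by omega) (by omega) c (Finset.ne_of_mem_erase hc')).2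
    rw [nsmul_eq_mul, hc] at b1 b2
    have b3 : (0 : ℝ) < (1 / 2) ^ d := by positivity
    have b4 := mul_nonneg hlo b3.le
    rw [← add_assoc, avg_succ, pow_succ, sub_le_comm, le_div_iff₀ (by linarith), sub_le_iff_le_add,
      div_le_iff₀ (by linarith)]
    constructor <;> nlinarith

theorem small {V : ℕ} (hV : 0 < V) {ε : ℝ} (hε : 0 < ε) :
    ∀ᶠ n : ℕ in atTop, (n : ℝ) ^ 2 * (1 / 2) ^ (n / V) ≤ ε := by
  have h1 := (tendsto_pow_const_div_const_pow_of_one_lt 2 (r := 2) (by norm_num)).const_mul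
    (2 * (V : ℝ) ^ 2)
  rw [mul_zero] at h1
  have h2 := (h1.comp (tendsto_add_atTop_nat 1)).comp (Nat.tendsto_div_const_atTop hV.ne')
  filter_upwards [h2.eventually (ge_mem_nhds hε)] with n hn
  refine le_trans ?_ hn
  have h3 : (n : ℝ) ≤ V * ((n / V + 1 : ℕ) : ℝ) := by
    exact_mod_cast (Nat.lt_mul_div_succ n hV).le
  have h4 := pow_le_pow_left₀ (Nat.cast_nonneg n) h3 2
  simp only [Function.comp]
  rw [pow_succ (2 : ℝ), one_div_pow]
  calc _ ≤ (V * ((n / V + 1 : ℕ) : ℝ)) ^ 2 * (1 / 2 ^ (n / V)) := by gcongr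
    _ = _ := by field_simp

end GbAny

/-- A uniform lower bound for the singular series. -/
theorem sing_ge (hS : StSingg) (k : Type) [Field k] [Fintype k] [CharP k 2] : ∃ c : ℝ, 0 < c ∧
    ∀ (h : k[X]) (S : ℝ), h ≠ 0 → Adm h →
      HasProd (fun p : {p : k[X] // p.Monic ∧ Irreducible p} => fac h p.1) S → c ≤ S := by
  obtain ⟨c₀, h0, H⟩ := hS k
  refine ⟨c₀ / 2, by positivity, fun h S h1 h2 h3 => ?_⟩
  obtain ⟨z, a1, a2⟩ := ((H (1 / 2) 1 (by norm_num)).and (eventually_ge_atTop h.natDegree)).exists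
  obtain ⟨b1, b2⟩ := a1 h S h1 h2 (by omega) h3
  linarith [(abs_le.1 b2).1]

theorem stAny (hL : StLimg) (hS : StSingg) : StAny := by
  intro k _ _ _ e he
  obtain ⟨c₁, hc₁, hS1⟩ := sing_ge hS k
  obtain ⟨ε, hε, h1, h2⟩ : ∃ ε : ℝ, 0 < ε ∧ ε ≤ 1 / 10 ∧ 6 * ε ≤ e :=
    ⟨min (1 / 10) (e / 6), by positivity, min_le_left _ _, by
      have := min_le_right (1 / 10) (e / 6)
      linarith⟩
  obtain ⟨V, hV, H⟩ := hL k ε hε
  obtain ⟨N, H⟩ := eventually_atTop.1 H
  obtain ⟨D, hD⟩ := exists_nat_ge (1 / ε)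
  refine ⟨V, hV, ?_⟩
  filter_upwards [eventually_ge_atTop (2 * N + 2), GbAny.small (V := V + D + 2) (by omega)
    (mul_pos hε hc₁), GbAny.small (V := V + D + 2) (by omega) hε] with n hn hs hs' h S h0 ha hd hp
  have hS2 := hS1 h S h0 ha hp
  have hS0 : 0 < S := hc₁.trans_le hS2
  by_cases hc : n ≤ (X ^ n + h).natDegree
  · refine (H n (by omega) h S h0 ha hc (le_trans (Nat.mul_le_mul_left V ?_) hd) hp).trans
      (mul_le_mul_of_nonneg_right (by linarith) hS0.le)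
    have := natDegree_add_le (X ^ n : k[X]) h
    rw [natDegree_X_pow] at this
    omega
  have hh : MD n h := by
    have := MD.add_of_lt (n := n) (F := (X ^ n : k[X])) ⟨monic_X_pow n, natDegree_X_pow n⟩
      (not_le.1 hc)
    rwa [← add_assoc, CharTwo.add_self_eq_zero, zero_add] at this
  obtain ⟨d, hd1⟩ : ∃ d, d = n / (V + D + 2) := ⟨_, rfl⟩
  have hd2 : (V + D + 2) * d ≤ n := hd1 ▸ Nat.mul_div_le _ _
  rw [add_mul, add_mul] at hd2
  obtain ⟨j₀, hj⟩ : ∃ j₀, n = j₀ + d := ⟨n - d, by omega⟩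
  have hn0 : (0 : ℝ) < n := by exact_mod_cast (by omega : 0 < n)
  have hj0 : (0 : ℝ) < j₀ := by exact_mod_cast (by omega : 0 < j₀)
  have key := GbAny.recur (Φ := tw h) (j₀ := j₀) (d := d) (lo := (1 - ε) * S / (n : ℝ) ^ 2)
    (hi := (1 + ε) * S / (j₀ : ℝ) ^ 2) (GbAny.tw_nonneg h) (GbAny.tw_le_one h)
    (div_nonneg (mul_nonneg (by linarith) hS0.le) (by positivity)) (by positivity)
    fun j a1 a2 c hc0 => by
      have hc1 := inv_ne_zero hc0
      have a3 : (C c⁻¹ * h).natDegree = n := by rw [natDegree_C_mul hc1, hh.2]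
      have a4 : (X ^ j + C c⁻¹ * h).natDegree = n := by
        rw [natDegree_add_eq_right_of_natDegree_lt (by rw [natDegree_X_pow, a3]; omega), a3]
      have a5 : V * (n - j) ≤ V * d := Nat.mul_le_mul_left V (by omega)
      have a6 := abs_le.1 (H j (by omega) (C c⁻¹ * h) S (mul_ne_zero (C_ne_zero.2 hc1) h0)
        (ha.C_mul hc1) (by omega) (by rw [a4]; omega) (by simpa only [fac, om_C_mul hc1] using hp))
      have a7 : (avm j fun Q => tw h (C c * Q)) = avm j (tw (C c⁻¹ * h)) :=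
        avm_congr fun Q _ => GbAny.tw_C_mul hc0 h Q
      have a8 : 0 ≤ avm j (tw (C c⁻¹ * h)) := avm_nonneg fun F _ => GbAny.tw_nonneg _ F
      have a9 : (j : ℝ) ^ 2 ≤ (n : ℝ) ^ 2 :=
        pow_le_pow_left₀ (Nat.cast_nonneg j) (by exact_mod_cast (by omega : j ≤ n)) 2
      have a10 : (j₀ : ℝ) ^ 2 ≤ (j : ℝ) ^ 2 := pow_le_pow_left₀ hj0.le (by exact_mod_cast a1) 2
      rw [a7, div_le_iff₀ (by positivity), le_div_iff₀ (by positivity)]
      constructor <;> nlinarith [mul_le_mul_of_nonneg_left a9 a8, mul_le_mul_of_nonneg_left a10 a8]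
  rw [← hj, ← GbAny.avm_eq_avg hh] at key
  rw [← hd1] at hs hs'
  obtain ⟨k1, k2⟩ := key
  have b1 : (d : ℝ) ≤ ε * n := by
    have b2 : (D : ℝ) * d ≤ n := by exact_mod_cast (by omega : D * d ≤ n)
    have b3 := (mul_le_mul_of_nonneg_right hD (Nat.cast_nonneg d)).trans b2
    rwa [one_div_mul_eq_div, div_le_iff₀' hε] at b3
  have b2 : (1 - ε) * n ≤ j₀ := by
    have : (n : ℝ) = j₀ + d := by exact_mod_cast hj
    linarith
  have b3 : (n : ℝ) ^ 2 * ((1 + ε) * S / (j₀ : ℝ) ^ 2) ≤ (1 + 5 * ε) * S := by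
    rw [← mul_div_assoc, div_le_iff₀ (by positivity)]
    have b4 := pow_le_pow_left₀ (mul_nonneg (by linarith) hn0.le) b2 2
    have b5 : 1 + ε ≤ (1 + 5 * ε) * (1 - ε) ^ 2 := by nlinarith [mul_pos hε hε]
    have b6 : 0 ≤ S * (n : ℝ) ^ 2 := by positivity
    have b7 : 0 ≤ (1 + 5 * ε) * S := by positivity
    nlinarith [mul_le_mul_of_nonneg_left b4 b7, mul_le_mul_of_nonneg_right b5 b6]
  have b4 : ε * c₁ ≤ ε * S := mul_le_mul_of_nonneg_left hS2 hε.le
  have b5 : (0 : ℝ) < (1 / 2) ^ d := by positivity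
  have b6 : (1 : ℝ) ≤ (n : ℝ) ^ 2 := one_le_pow₀ (by exact_mod_cast (by omega : 1 ≤ n))
  have b7 : (n : ℝ) ^ 2 * ((1 - ε) * S / (n : ℝ) ^ 2) = (1 - ε) * S := by field_simp
  have c1 := mul_le_mul_of_nonneg_left k1 (sq_nonneg (n : ℝ))
  have c2 := mul_le_mul_of_nonneg_left k2 (sq_nonneg (n : ℝ))
  rw [mul_sub, ← mul_assoc, b7] at c1
  rw [mul_sub] at c2
  have c3 : (1 / 2 : ℝ) ^ d ≤ ε := (le_mul_of_one_le_left b5.le b6).trans hs'
  have c4 : (1 - ε) * S * (1 / 2) ^ d ≤ ε * S := by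
    nlinarith [mul_le_mul_of_nonneg_left c3 hS0.le, mul_pos (mul_pos hε hS0) b5]
  have c5 := mul_le_mul_of_nonneg_right h2 hS0.le
  rw [abs_le]
  constructor <;> nlinarith [mul_pos hε hS0]

end Pool.Agent.Lib.MP_9227d9_nt.Mob
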