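import Pool.Agent.Lib.MP_9227d9_nt.TwB

/-!
Prime pairs over finite fields of characteristic two, uniformly in the shift
(definitions and statements of the modules).
-/

namespace Pool.Agent.Lib.MP_9227d9_nt.Mob

open Polynomial

open scoped Classical

section Defs

variable {k : Type} [Field k] [Fintype k]

/-- The data of a shift `g`. The polynomial `F` runs over the coset `F₀ + P_(n - Δ)`; there `F` is
monic of degree `n₁` and `c (F + g)` is monic of degree `n₂`. The parameters `P` only carry the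
numbers (the field `P.h` plays no role). -/
structure Sh (P : Par k) where
  g : k[X]
  c : k
  F₀ : k[X]
  Δ : ℕ
  n₁ : ℕ
  n₂ : ℕ
  g_ne : g ≠ 0
  adm : Adm g
  c_ne : c ≠ 0
  s_ge : 17 ≤ P.s
  Δ_le : Δ ≤ P.τ
  n₁_ge : P.n ≤ n₁ + Δ
  n₁_le : n₁ ≤ P.n
  n₂_ge : P.n ≤ n₂ + Δ
  n₂_le : n₂ ≤ P.n
  hF : MD n₁ F₀
  hG : MD n₂ (C c * (F₀ + g))

namespace Sh

variable {P : Par k} (S : Sh P)

/-- The length of the coset. -/
def n₀ : ℕ := P.n - S.Δ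

/-- Membership in the coset. -/
def In (F : k[X]) : Prop := (F - S.F₀).degree < S.n₀

/-- The density of the coset in the monic polynomials of degree `n₁`. -/
noncomputable def χ (F : k[X]) : ℝ := if S.In F then qR k ^ (S.n₁ - S.n₀) else 0

/-- The mean over the coset. -/
noncomputable def av (Φ : k[X] → ℝ) : ℝ := avg S.n₀ fun v => Φ (S.F₀ + v)

/-- The sieve weight. -/
noncomputable def ν (F : k[X]) : ℝ := nu2 S.g ((P.s - 1) * P.z) P.z F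

/-- The normalisation. -/
noncomputable def G : ℝ := G2 S.g ((P.s - 1) * P.z) P.z

/-- Untwisted mean. -/
noncomputable def TK (d e : ℕ) : ℝ := S.av fun F => S.ν F * aS P.z d F * aS P.z e (F + S.g)

/-- Twisted mean of type I. -/
noncomputable def T2 (a b : ℕ) : ℝ := S.av fun F => S.ν F * aS P.z a F * bS P.z b (F + S.g)

/-- Twisted mean of type II. -/
noncomputable def T3 (a b : ℕ) : ℝ := S.av fun F => S.ν F * bS P.z a F * bS P.z b (F + S.g)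

/-- Both divisors are coprime to the shift. -/
noncomputable def cop (A B : k[X]) : ℝ := if IsCoprime A S.g ∧ IsCoprime B S.g then 1 else 0

/-- Mean over the triples `(A, B, m)` with `A m` in the coset, `B ∣ A m + g` and `A`, `B` coprime
to `g`. -/
noncomputable def E (a b : ℕ) (Φ : k[X] → k[X] → k[X] → ℝ) : ℝ :=
  E3 S.g P.z S.n₁ a b fun A B m => S.χ (A * m) * S.cop A B * Φ A B m

/-- The monic cofactor. -/
noncomputable def Xc (A B m : k[X]) : k[X] := C S.c * ((A * m + S.g) / B)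

end Sh

/-- The parameters of the twisted estimates. -/
structure Gt (k : Type) [Field k] [Fintype k] extends Tw k where
  S : Sh toTw.toPar
  b₀ : ℕ
  b₀_add : b₀ + n = b + S.n₂

namespace Gt

variable (c : Gt k)

/-- The degree of the free variable. -/
def j : ℕ := c.S.n₀ - c.a - c.b₀

/-- Mean over triples. -/
noncomputable def E (Φ : k[X] → k[X] → k[X] → ℝ) : ℝ := c.S.E c.a c.b₀ Φ

/-- The modulus. -/
noncomputable def l [CharP k 2] (A B m u : k[X]) : k[X] := od (c.S.Xc A B m * A * u)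

end Gt

end Defs

/-- Par3: parametrisation of the solutions of `B ∣ A m + g` with `A m` in the coset. -/
def StPar3 : Prop :=
  ∀ (k : Type) [Field k] [Fintype k] (P : Par k) (S : Sh P) (A B : k[X]) (a b : ℕ), MD a A →
    MD b B → IsCoprime A B → a + b ≤ S.n₀ →
    ∃ m₀ c₀ : k[X], B * c₀ = C S.c * (A * m₀ + S.g) ∧
      (∀ t, S.Xc A B (m₀ + C S.c⁻¹ * B * t) = A * t + c₀) ∧
      (∀ t, MD (S.n₀ - a - b) t → MD (S.n₁ - a) (m₀ + C S.c⁻¹ * B * t) ∧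
        S.In (A * (m₀ + C S.c⁻¹ * B * t)) ∧ MD (S.n₂ - b) (A * t + c₀)) ∧
      ∀ Φ : k[X] → ℝ,
        qR k ^ b * avm (S.n₁ - a) (fun m => if B ∣ A * m + S.g then S.χ (A * m) * Φ m else 0) =
          avm (S.n₀ - a - b) fun t => Φ (m₀ + C S.c⁻¹ * B * t)

/-- Redg: reduction to means over triples. -/
def StRedg : Prop :=
  ∀ (k : Type) [Field k] [Fintype k] [CharP k 2] (P : Par k) (S : Sh P) (K : ℝ) (a b : ℕ),
    KB2 k P.U P.τ K → a ≤ S.n₀ →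
    E3 S.g P.z S.n₁ a b (fun A _ m => S.χ (A * m) *
      if ∃ p ∈ pf S.g, P.z ≤ p.natDegree ∧ p ∣ A * m then 1 else 0) ≤ K ^ 3 / P.Q ∧
    |S.T2 a b - S.E a b fun A B m => S.ν (A * m) * mu A * mu (S.Xc A B m)| ≤ K ^ 5 / P.Q ∧
    |S.T3 a b - S.E a b fun A B m => S.ν (A * m) * mu m * mu (S.Xc A B m)| ≤ K ^ 5 / P.Q ∧
    |S.T3 a b| ≤ S.E a b (fun A _ m => S.ν (A * m)) + K ^ 5 / P.Q

/-- K1g: Kloosterman fractions with a large numerator, moduli with a convenient divisor. -/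
def StK1g : Prop :=
  ∀ (k : Type) [Field k] [Fintype k] [CharP k 2] (P : Par k) (K : ℝ) (d e : ℕ) (α β : k[X] → ℝ)
    (b r : k[X]), KB2 k P.U P.τ K → P.n ≤ 2 * d + 23 * P.κ → 2 * d ≤ P.n + 20 * P.κ →
    P.n ≤ 2 * e + 23 * P.κ → 2 * e ≤ P.n + 20 * P.κ → b ≠ 0 →
    b.natDegree ≤ d + e + r.natDegree + P.τ → r.Monic →
    r.natDegree ≤ P.κ → (∀ D, |α D| ≤ 1) → (∀ E, |β E| ≤ 1) →
    (∀ D, MD d D → α D ≠ 0 → Squarefree D ∧ ∃ D₁ : k[X], D₁.Monic ∧ D₁ ∣ D ∧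
      50 * P.κ ≤ D₁.natDegree ∧ D₁.natDegree + 50 * P.κ ≤ d) →
    |KBi d e α β b r| ≤ 2 * K ^ 2 / qR k ^ (25 * P.κ)

/-- Ktg: Kloosterman fractions with a large numerator, type I. -/
def StKtg : Prop :=
  ∀ (k : Type) [Field k] [Fintype k] [CharP k 2] (P : Par k) (K : ℝ) (d e : ℕ) (α β : k[X] → ℝ)
    (b r m₀ : k[X]), KB2 k P.U P.τ K → P.n ≤ 2 * d + 23 * P.κ → 2 * d ≤ P.n + 20 * P.κ →
    P.n ≤ 2 * e + 23 * P.κ → 2 * e ≤ P.n + 20 * P.κ → b ≠ 0 → b.natDegree ≤ 4 * P.n →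
    m₀ ≠ 0 → m₀.natDegree ≤ 52 * P.κ → (∀ D, |α D| ≤ 1) → (∀ E, |β E| ≤ 1) →
    (∀ D t, α (D + m₀ * t) = α D) → (∀ D p, α D ≠ 0 → IsP p → p ∣ m₀ → p ∣ D * r) →
    (∀ E, MD e E → β E ≠ 0 → Squarefree E) →
    |KBi d e α β b r| ≤ 2 * K / qR k ^ (150 * P.κ)

/-- KDg: the discrepancy of the untwisted mean. -/
def StKDg : Prop :=
  ∀ (k : Type) [Field k] [Fintype k] [CharP k 2] (P : Par k) (S : Sh P) (K : ℝ) (d e : ℕ),
    KB2 k P.U P.τ K → S.n₁ = S.n₀ → 2 * d ≤ P.n + 20 * P.κ → 2 * e ≤ P.n + 20 * P.κ →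
    |disc S.g d e (S.n₀ - d) (fun D => mu D * rI P.z D) (fun E => mu E * rI P.z E) S.ν| ≤
      10 * K ^ 4 / P.Q

/-- TKg: the untwisted mean. -/
def StTKg : Prop :=
  ∀ (k : Type) [Field k] [Fintype k] [CharP k 2] (P : Par k) (S : Sh P) (K : ℝ) (d e : ℕ),
    KB2 k P.U P.τ K → S.n₁ = S.n₀ → 2 * d ≤ P.n + 20 * P.κ → 2 * e ≤ P.n + 20 * P.κ →
    |S.TK d e - mm k P.z d * mm k P.z e / S.G| ≤ 7 * K ^ 5 / P.Q

/-- Diagg: the trivial bound near the diagonal. -/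
def StDiagg : Prop :=
  ∀ (k : Type) [Field k] [Fintype k] [CharP k 2] (P : Par k) (S : Sh P) (K : ℝ) (a b : ℕ),
    KB2 k P.U P.τ K → 1 ≤ a → 1 ≤ b → a + b + P.κ ≤ S.n₀ →
    |S.T3 a b| ≤ 1 / ((P.z : ℝ) ^ 2 * S.G) + K ^ 5 / P.Q

/-- Ong: the weighted mean of one Moebius function. -/
def StOng : Prop :=
  ∀ (k : Type) [Field k] [Fintype k] [CharP k 2] (c : Tw k) (K K' sv : ℝ) (j : ℕ) (A c₀ : k[X])
    (φ : k[X] → ℝ), KB2 k c.U c.τ K → LineOK k c.U c.τ sv → 0 ≤ sv → c.n1 ≤ j + c.τ →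
    MD c.a A → Squarefree A → IsCoprime c₀ A → (∀ m, MD j m → MD (c.a + c.n1) (A * m + c₀)) →
    PerS c.z (2 * c.κ - c.τ) j K' φ →
    |avm c.nu fun u => avm j fun m => φ m * mu (A * m + c₀) * c.W (od ((A * m + c₀) * A * u))| ≤
      K' * K * (sv + K / c.Q)

/-- Offg: the weighted mean of two Moebius functions. -/
def StOffg : Prop :=
  ∀ (k : Type) [Field k] [Fintype k] [CharP k 2] (c : Tw k) (K K' sv : ℝ) (j : ℕ)
    (A c₀ A' c₀' m₁ : k[X]) (φ : k[X] → ℝ), KB2 k c.U c.τ K → LineOK k c.U c.τ sv → 0 ≤ sv →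
    c.n1 ≤ j + c.τ →
    MD c.a A → Squarefree A → IsCoprime c₀ A → (∀ m, MD j m → MD (c.a + c.n1) (A * m + c₀)) →
    MD c.a A' → Squarefree A' → IsCoprime c₀' A' →
    (∀ m, MD j m → MD (c.a + c.n1) (A' * m + c₀')) →
    (∀ m, MD j m → m ≠ m₁ → (A * m + c₀) * A ≠ (A' * m + c₀') * A') →
    PerS c.z (2 * c.κ - c.τ) j K' φ →
    |avm c.nu fun u => avm j fun m => φ m *
      (mu (A * m + c₀) * c.W (od ((A * m + c₀) * A * u))) *
      (mu (A' * m + c₀') * c.W (od ((A' * m + c₀') * A' * u)))| ≤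
      K' * K ^ 2 * (sv + 4 * K / c.Q)

/-- Collg: the residue classes are well distributed in mean square. -/
def StCollg : Prop :=
  ∀ (k : Type) [Field k] [Fintype k] [CharP k 2] (h : k[X]) (z a b nu dl : ℕ) (K B₀ : ℝ)
    (c₀ : k[X] → k[X] → k[X]) (Ψ : k[X] → k[X] → ℝ), 1 ≤ z → a ≤ dl →
    (2 : ℝ) ^ ((b + nu) / z) ≤ K → 0 ≤ B₀ → (∀ A x, 0 ≤ Ψ A x) →
    (∀ A, MD a A → avm dl (fun x => Ψ A x ^ 2) ≤ B₀) →
    (∀ A B, MD a A → MD b B → IsCoprime A B → A ∣ B * c₀ A B - h ∧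
      ∀ u, MD nu u → (od (c₀ A B * A * u)).degree < dl) →
    (avm a fun A => avm b fun B => if IsCoprime A B ∧ IsCoprime A h then sr z A * sr z B *
      avm nu (fun u => avm (dl - a) fun x => Ψ A (A * x + od (c₀ A B * A * u))) else 0) ^ 2 ≤
      K * (1 + qR k ^ a / qR k ^ (b + nu)) * B₀

/-- Insg: concentration of the mean weight. -/
def StInsg : Prop :=
  ∀ (k : Type) [Field k] [Fintype k] [CharP k 2] (c : Gt k) (K : ℝ), KB2 k c.U c.τ K →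
    qR k ^ c.S.Δ ≤ K →
    c.E (fun A B m => (avm c.nu fun u => c.Wm (c.l A B m u)) ^ 2) ≤ 15 * K ^ 5 / c.Q

/-- Useg: the weight may be inserted. -/
def StUseg : Prop :=
  ∀ (k : Type) [Field k] [Fintype k] [CharP k 2] (c : Gt k) (K C₀ : ℝ)
    (γ : k[X] → k[X] → k[X] → ℝ), KB2 k c.U c.τ K → qR k ^ c.S.Δ ≤ K → 0 ≤ C₀ →
    (∀ A B m, c.S.In (A * m) → |γ A B m| ≤ C₀) →
    |c.E (fun A B m => γ A B m * mu (c.S.Xc A B m)) -
      c.E fun A B m => γ A B m * mu (c.S.Xc A B m) * avm c.nu fun u => c.W (c.l A B m u)| ≤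
      4 * C₀ * K ^ 3 / √c.Q

/-- A2g: the twisted mean of type I. -/
def StA2g : Prop :=
  ∀ (k : Type) [Field k] [Fintype k] [CharP k 2] (c : Gt k) (K sv : ℝ), KB2 k c.U c.τ K →
    qR k ^ c.S.Δ ≤ K → LineOK k c.U c.τ sv → 0 ≤ sv →
    |c.S.T2 c.a c.b₀| ≤ 7 * K ^ 5 * (1 / √c.Q + sv)

/-- A3g: the twisted mean of type II. -/
def StA3g : Prop :=
  ∀ (k : Type) [Field k] [Fintype k] [CharP k 2] (c : Gt k) (K sv : ℝ) (w : ℕ), KB2 k c.U c.τ K →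
    qR k ^ c.S.Δ ≤ K → LineOK k c.U c.τ sv → 0 ≤ sv → c.b₀ + w ≤ c.a →
    |c.S.T3 c.a c.b₀| ≤ 7 * K ^ 5 * (1 / √c.Q + √sv + 1 / √(qR k ^ w))

/-- Repg: the indicator of prime pairs and the sieve weight. -/
def StRepg : Prop :=
  ∀ (k : Type) [Field k] [Fintype k] [CharP k 2] (P : Par k) (S : Sh P)
    (f₁ f₂ : ℕ → ℕ → k[X] → ℝ),
    (∀ d e, f₁ d e = aS P.z d ∨ f₁ d e = bS P.z (S.n₁ - d)) →
    (∀ d e, f₂ d e = aS P.z e ∨ f₂ d e = bS P.z (S.n₂ - e)) →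
    |(S.n₁ : ℝ) * S.n₂ * S.av (tw S.g) - ∑ d ∈ Finset.range (S.n₁ + 1),
      ∑ e ∈ Finset.range (S.n₂ + 1), ((S.n₁ : ℝ) - d) * ((S.n₂ : ℝ) - e) *
        S.av fun F => S.ν F * f₁ d e F * f₂ d e (F + S.g)| ≤
      (P.n : ℝ) ^ 2 * 4 ^ (P.n / P.z + 1) *
        (S.av (De S.g ((P.s - 1) * P.z) P.z) + 2 * qR k ^ S.Δ / qR k ^ (P.z - 1))

/-- Coreg: the estimate for fixed parameters. -/
def StCoreg : Prop :=
  ∀ (k : Type) [Field k] [Fintype k] [CharP k 2] (P : Par k) (S : Sh P) (K sv : ℝ) (w : ℕ),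
    KB2 k P.U P.τ K → qR k ^ S.Δ ≤ K → LineOK k P.U P.τ sv → 0 ≤ sv → sv ≤ 1 → S.n₁ = S.n₀ →
    S.Δ ≤ w →
    |(S.n₁ : ℝ) * S.n₂ * S.av (tw S.g) -
      MM k P.z (P.n / 2 + 10 * P.κ) S.n₁ * MM k P.z (P.n / 2 + 10 * P.κ) S.n₂ / S.G| ≤
      (P.n : ℝ) ^ 2 * 4 ^ (P.n / P.z + 1) * eps (P.s - 1) / S.G +
      (P.n : ℝ) ^ 2 * (P.n + 1) * (4 * w + 1) / ((P.z : ℝ) ^ 2 * S.G) +
      20 * K ^ 9 * (1 / √P.Q + √sv + 1 / √(qR k ^ w))

/-- Singg: the singular series, uniformly in the shift. -/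
def StSingg : Prop :=
  ∀ (k : Type) [Field k] [Fintype k] [CharP k 2], ∃ c₀ : ℝ, 0 < c₀ ∧ ∀ (ε : ℝ) (D : ℕ), 0 < ε →
    ∀ᶠ z : ℕ in Filter.atTop, ∀ (h : k[X]) (S : ℝ), h ≠ 0 → Adm h → h.natDegree ≤ D * z →
      HasProd (fun p : {p : k[X] // p.Monic ∧ Irreducible p} => fac h p.1) S →
      c₀ ≤ Pi1 k z ^ 2 / Pi2 h z ∧ |S - Pi1 k z ^ 2 / Pi2 h z| ≤ ε * (Pi1 k z ^ 2 / Pi2 h z)

/-- Limg: the asymptotic formula, uniformly in the shift. -/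
def StLimg : Prop :=
  ∀ (k : Type) [Field k] [Fintype k] [CharP k 2] (ε : ℝ), 0 < ε → ∃ V : ℕ, 0 < V ∧
    ∀ᶠ n : ℕ in Filter.atTop, ∀ (h : k[X]) (S : ℝ), h ≠ 0 → Adm h →
      n ≤ (X ^ n + h).natDegree → V * ((X ^ n + h).natDegree - n) ≤ n →
      HasProd (fun p : {p : k[X] // p.Monic ∧ Irreducible p} => fac h p.1) S →
      |(n : ℝ) ^ 2 * avm n (tw h) - S| ≤ ε * S

end Pool.Agent.Lib.MP_9227d9_nt.Mob
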