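import Pool.Agent.Lib.MP_9227d9_nt.TwDefs2

/-! Prime triples are rare, and isolated prime pairs. -/

namespace Pool.Agent.Lib.MP_9227d9_nt.Mob

open Polynomial Filter

open scoped Classical

namespace TwTri

variable {k : Type} [Field k] [Fintype k]

theorem avg_three [CharP k 2] {p h h' : k[X]} (hp : IsP p) (hd : ¬ p ∣ h * h' * (h + h')) :
    avg p.natDegree (fun F => if p ∣ F * (F + h) * (F + h') then (1 : ℝ) else 0) = 3 / Nm p := by
  have h1 : ¬ p ∣ h := fun e => hd ((e.mul_right _).mul_right _)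
  have h2 : ¬ p ∣ h' := fun e => hd ((e.mul_left _).mul_right _)
  have h3 : ¬ p ∣ h + h' := fun e => hd (e.mul_left _)
  have e : ∀ c : k[X], avg p.natDegree (fun F => if p ∣ c + 1 * F then (1 : ℝ) else 0) = 1 / Nm p :=
    fun c => avg_dvd hp.1.ne_zero le_rfl isCoprime_one_left c
  have h4 : ∀ F : k[X], (if p ∣ F * (F + h) * (F + h') then (1 : ℝ) else 0) =
      (if p ∣ 0 + 1 * F then (1 : ℝ) else 0) + (if p ∣ h + 1 * F then (1 : ℝ) else 0) +
        if p ∣ h' + 1 * F then (1 : ℝ) else 0 := fun F => by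
    simp only [hp.prime.dvd_mul, zero_add, one_mul, add_comm h F, add_comm h' F]
    have a1 : p ∣ F → ¬ p ∣ F + h := fun a b => h1 ((dvd_add_right a).1 b)
    have a2 : p ∣ F → ¬ p ∣ F + h' := fun a b => h2 ((dvd_add_right a).1 b)
    have a3 : p ∣ F + h → ¬ p ∣ F + h' := fun a b => h3 (by
      have := dvd_add a b
      rwa [show F + h + (F + h') = h + h' by linear_combination F * (CharTwo.two_eq_zero : (2 : k[X]) = 0)] at this)
    by_cases b1 : p ∣ F <;> by_cases b2 : p ∣ F + h <;> by_cases b3 : p ∣ F + h' <;> simp_all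
  simp only [h4]
  rw [avg_add, avg_add, e, e, e]
  ring

theorem avm_ind (c : k[X] → Prop) [DecidablePred c] (n : ℕ) : avm n (fun F => if c F then (1 : ℝ) else 0) =
    (Set.ncard {P : k[X] | P.Monic ∧ P.natDegree = n ∧ c P} : ℝ) / (Fintype.card k : ℝ) ^ n := by
  rw [avm_eq_MoD, Finset.sum_boole, ← Set.ncard_coe_finset]
  congr 3
  ext P
  simp only [Finset.coe_filter, mem_MoD, MD, Set.mem_ofPred_eq, and_assoc]

theorem bound [CharP k 2] (hS : StSel) (hM : StMM) {h h' : k[X]} (h0 : h * h' * (h + h') ≠ 0) :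
    ∃ C : ℝ, ∀ n : ℕ, 32 ≤ n → h.natDegree < n → h'.natDegree < n →
      avm n (fun F : k[X] =>
        if Irreducible F ∧ Irreducible (F + h) ∧ Irreducible (F + h') then (1 : ℝ) else 0) ≤
        C / ((n / 32 : ℕ) : ℝ) ^ 3 := by
  set B := PrL k 4 ∪ pf (h * h' * (h + h')) with hB
  refine ⟨(1 + eps 16) * (2 ^ B.card) ^ 3, fun n hn hh hh' => ?_⟩
  set z := n / 32 with hz
  have hz1 : 1 ≤ z := by omega
  have hT : ∀ p ∈ PrL k z \ B, IsP p ∧ p.natDegree < z ∧ 16 ≤ Nm p ∧ ¬ p ∣ h * h' * (h + h') := by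
    intro p hp
    obtain ⟨h1, h2⟩ := Finset.mem_sdiff.1 hp
    obtain ⟨h3, h4⟩ := mem_PrL.1 h1
    rw [hB, Finset.mem_union, not_or, mem_PrL, mem_pf h0] at h2
    refine ⟨h3, h4, ?_, fun e => h2.2 ⟨h3, e⟩⟩
    have h5 : 4 ≤ p.natDegree := not_lt.1 fun e => h2.1 ⟨h3, e⟩
    calc (16 : ℝ) = 2 ^ 4 := by norm_num
      _ ≤ qR k ^ 4 := pow_le_pow_left₀ (by norm_num) two_le_qR 4
      _ ≤ Nm p := pow_le_pow_right₀ one_le_qR h5
  have h1 := hS k (PrL k z \ B) (fun p F => p ∣ F * (F + h) * (F + h')) (fun p => 3 / Nm p) 16 z n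
    hz1 le_rfl (by omega) fun p hp => by
      obtain ⟨a1, a2, a3, a4⟩ := hT p hp
      refine ⟨a1, a2, fun F t => ?_, by convert avg_three a1 a4, ?_, ?_⟩
      · simp only [a1.prime.dvd_mul, add_right_comm F (p * t), dvd_add_left (dvd_mul_right p t)]
      · rw [div_lt_one (Nm_pos p)]
        linarith
      · have : 1 - 3 / Nm p = (Nm p - 3) / Nm p := by field_simp
        rw [this, div_div_div_cancel_right₀ (Nm_pos p).ne', div_le_div_iff₀ (by linarith) (Nm_pos p)]
        linarith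
  have h2 : avm n (fun F : k[X] =>
      if Irreducible F ∧ Irreducible (F + h) ∧ Irreducible (F + h') then (1 : ℝ) else 0) ≤
      avm n fun F => if ∀ p ∈ PrL k z \ B, ¬ p ∣ F * (F + h) * (F + h') then 1 else 0 := by
    refine avm_mono fun F hF => ?_
    split_ifs with c1 c2
    · exact le_rfl
    · refine absurd (fun p hp e => ?_) c2
      obtain ⟨a1, a2, -, -⟩ := hT p hp
      have key : ∀ G : k[X], MD n G → Irreducible G → ¬ p ∣ G := fun G hG hi e => by
        have := a1.eq_of_dvd ⟨hG.1, hi⟩ e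
        rw [this, hG.2] at a2
        omega
      simp only [a1.prime.dvd_mul] at e
      rcases e with (e | e) | e
      · exact key _ hF c1.1 e
      · exact key _ (hF.add_of_lt hh) c1.2.1 e
      · exact key _ (hF.add_of_lt hh') c1.2.2 e
    · exact zero_le_one
    · exact le_rfl
  have h3 := (hM k z 16 (32 * z) (32 * z) hz1 le_rfl (by omega) le_rfl (by omega)).1
  have hpos : ∀ p ∈ PrL k z, 0 < Nm p / (Nm p - 1) ∧ Nm p / (Nm p - 1) ≤ 2 := fun p hp => by
    have := (mem_PrL.1 hp).1.two_le_Nm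
    exact ⟨div_pos (by linarith) (by linarith), by rw [div_le_iff₀ (by linarith)]; linarith⟩
  have h4 : Pi1 k z ≤ 2 ^ B.card * ∏ p ∈ PrL k z \ B, Nm p / (Nm p - 1) := by
    rw [Pi1, ← Finset.prod_inter_mul_prod_sdiff (PrL k z) B]
    refine mul_le_mul_of_nonneg_right ?_
      (Finset.prod_nonneg fun p hp => (hpos p (Finset.mem_sdiff.1 hp).1).1.le)
    refine (Finset.prod_le_prod (g := fun _ => (2 : ℝ))
      (fun p hp => (hpos p (Finset.mem_inter.1 hp).1).1.le)
      fun p hp => (hpos p (Finset.mem_inter.1 hp).1).2).trans ?_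
    rw [Finset.prod_const]
    exact pow_le_pow_right₀ one_le_two (Finset.card_le_card Finset.inter_subset_right)
  have h5 : (∏ p ∈ PrL k z \ B, (1 - 3 / Nm p)) * (∏ p ∈ PrL k z \ B, Nm p / (Nm p - 1)) ^ 3 ≤
      1 := by
    rw [← Finset.prod_pow, ← Finset.prod_mul_distrib]
    refine Finset.prod_le_one (fun p hp => ?_) fun p hp => ?_
    · have := (hT p hp).2.2.1
      refine mul_nonneg ?_ (pow_nonneg (div_nonneg (by linarith) (by linarith)) 3)
      rw [sub_nonneg, div_le_one (by linarith)]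
      linarith
    · have := (hT p hp).2.2.1
      have e : (1 - 3 / Nm p) * (Nm p / (Nm p - 1)) ^ 3 = (Nm p - 3) * Nm p ^ 2 / (Nm p - 1) ^ 3 := by
        have : Nm p - 1 ≠ 0 := by linarith
        have : Nm p ≠ 0 := by linarith
        field_simp
      rw [e, div_le_one (pow_pos (by linarith) 3)]
      nlinarith
  have h6 : 0 ≤ ∏ p ∈ PrL k z \ B, (1 - 3 / Nm p) := Finset.prod_nonneg fun p hp => by
    have := (hT p hp).2.2.1
    rw [sub_nonneg, div_le_one (by linarith)]
    linarith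
  have he : 0 ≤ 1 + eps 16 := by unfold eps; positivity
  have hz0 : (0 : ℝ) < z := by exact_mod_cast hz1
  have h7 := pow_le_pow_left₀ hz0.le (h3.trans h4) 3
  rw [mul_pow] at h7
  refine (h2.trans (by convert h1)).trans ?_
  rw [le_div_iff₀ (pow_pos hz0 3), mul_assoc]
  refine mul_le_mul_of_nonneg_left ((mul_le_mul_of_nonneg_left h7 h6).trans ?_) he
  rw [mul_left_comm]
  exact mul_le_of_le_one_right (by positivity) h5

end TwTri

theorem stTri (hS : StSel) (hM : StMM) : StTri := by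
  intro k _ _ _ h h' hh hh' hne
  have h0 : h * h' * (h + h') ≠ 0 := mul_ne_zero (mul_ne_zero hh hh') fun e =>
    hne (by linear_combination e - h' * (CharTwo.two_eq_zero : (2 : k[X]) = 0))
  obtain ⟨C, hC⟩ := TwTri.bound hS hM h0
  refine squeeze_zero' (g := fun n : ℕ => 64 ^ 3 * |C| / (n : ℝ))
    (Eventually.of_forall fun n => mul_nonneg (by positivity) (avm_nonneg fun F _ => by
      split_ifs <;> norm_num)) ?_ (tendsto_const_div_atTop_nhds_zero_nat _)
  filter_upwards [eventually_ge_atTop 32, eventually_gt_atTop h.natDegree,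
    eventually_gt_atTop h'.natDegree] with n h1 h2 h3
  have h4 : (n : ℝ) ≤ 64 * ((n / 32 : ℕ) : ℝ) := by exact_mod_cast (by omega : n ≤ 64 * (n / 32))
  have h5 : (0 : ℝ) < n := by exact_mod_cast (by omega : 0 < n)
  have h6 : (0 : ℝ) < ((n / 32 : ℕ) : ℝ) := by linarith
  refine (mul_le_mul_of_nonneg_left ((hC n h1 h2 h3).trans
    (div_le_div_of_nonneg_right (le_abs_self C) (by positivity))) (by positivity)).trans ?_
  rw [← mul_div_assoc, div_le_div_iff₀ (by positivity) h5]
  have h7 := mul_le_mul_of_nonneg_left (pow_le_pow_left₀ h5.le h4 3) (abs_nonneg C)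
  nlinarith

theorem stPol (hT : StTwin) (h3 : StTri) : StPol := by
  intro k _ _ _ h hh
  obtain ⟨S, h1, h2, h4⟩ := hT k h hh
  set c : k[X] → Prop := fun P => Irreducible P ∧ Irreducible (P + h) ∧
    ∀ g : k[X], g.degree ≤ h.degree → Irreducible (P + g) → g = 0 ∨ g = h with hc
  set J := ((Pn k (h.natDegree + 1)).erase 0).erase h with hJ
  have h5 : Tendsto (fun n : ℕ => ∑ g ∈ J, (n : ℝ) ^ 2 * avm n fun F : k[X] =>
      if Irreducible F ∧ Irreducible (F + h) ∧ Irreducible (F + g) then 1 else 0) atTop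
      (nhds 0) := by
    have := tendsto_finsetSum J fun g hg => h3 k h g hh
      (Finset.ne_of_mem_erase (Finset.mem_of_mem_erase hg)) (Finset.ne_of_mem_erase hg).symm
    simpa using this
  have h6 : Tendsto (fun n : ℕ => (n : ℝ) ^ 2 * avm n fun F : k[X] =>
      if Irreducible F ∧ Irreducible (F + h) then 1 else 0) atTop (nhds S) := by
    refine h2.congr fun n => ?_
    rw [TwTri.avm_ind (fun F => Irreducible F ∧ Irreducible (F + h)), mul_div_assoc]
  have h7 : Tendsto (fun n : ℕ => (n : ℝ) ^ 2 * avm n fun F : k[X] => if c F then 1 else 0)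
      atTop (nhds S) := by
    have h8 := h6.sub h5
    rw [sub_zero] at h8
    refine tendsto_of_tendsto_of_tendsto_of_le_of_le h8 h6 (fun n => ?_) fun n => ?_
    · beta_reduce
      rw [← Finset.mul_sum, ← mul_sub, ← avm_sum, ← avm_sub]
      refine mul_le_mul_of_nonneg_left (avm_mono fun F _ => ?_) (by positivity)
      have h9 : ∀ g ∈ J, (0 : ℝ) ≤
          if Irreducible F ∧ Irreducible (F + h) ∧ Irreducible (F + g) then 1 else 0 :=
        fun g _ => by split_ifs <;> norm_num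
      have h10 := Finset.sum_nonneg h9
      split_ifs with c1 c2
      · linarith
      · simp only [hc, not_and, not_forall, not_or] at c2
        obtain ⟨g, g1, g2, g3, g4⟩ := c2 c1.1 c1.2
        have g5 : g ∈ J := Finset.mem_erase.2 ⟨g4, Finset.mem_erase.2 ⟨g3, mem_Pn.2
          ((g1.trans degree_le_natDegree).trans_lt (by exact_mod_cast Nat.lt_succ_self _))⟩⟩
        have := Finset.single_le_sum h9 g5
        rw [if_pos ⟨c1.1, c1.2, g2⟩] at this
        linarith
      · linarith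
      · linarith
    · refine mul_le_mul_of_nonneg_left (avm_mono fun F _ => ?_) (by positivity)
      split_ifs with c1 c2
      · exact le_rfl
      · exact absurd ⟨c1.1, c1.2.1⟩ c2
      · exact zero_le_one
      · exact le_rfl
  refine ⟨S, h1, h2, h7.congr fun n => by rw [TwTri.avm_ind c, mul_div_assoc], fun hx => ?_⟩
  have h8 := (h4 hx).1
  refine ⟨h8, Set.Infinite.of_image natDegree (Set.infinite_of_forall_exists_gt fun a => ?_)⟩
  obtain ⟨n, h9, h10⟩ := ((h7.eventually (lt_mem_nhds h8)).and (eventually_gt_atTop a)).exists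
  rw [TwTri.avm_ind c] at h9
  obtain ⟨P, hP⟩ := Set.nonempty_of_ncard_ne_zero
    (s := {P : k[X] | P.Monic ∧ P.natDegree = n ∧ c P}) fun e => by simp [e] at h9
  exact ⟨n, ⟨P, ⟨hP.1, hP.2.2⟩, hP.2.1⟩, h10⟩

end Pool.Agent.Lib.MP_9227d9_nt.Mob
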