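import Pool.Agent.Lib.MP_9227d9_nt.GbAny
import Pool.Agent.Lib.MP_9227d9_nt.TwTri
import Pool.Agent.Lib.MP_9227d9_nt.TwDe
import Pool.Agent.Lib.MP_9227d9_nt.TwSing

/-! Prime triples are rare, uniformly in the shifts. -/

namespace Pool.Agent.Lib.MP_9227d9_nt.Mob

open Polynomial Filter Topology

open scoped Classical

namespace GbTri

variable {k : Type} [Field k] [Fintype k]

theorem avm_deg_lt (g : k[X]) {n z : ℕ} (hz : z ≤ n) :
    avm n (fun F : k[X] => if (F + g).natDegree < z then (1 : ℝ) else 0) ≤ (1 / 2) ^ (n - z) := by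
  rw [avm_eq_MoD, Finset.sum_boole]
  have h1 : ((MoD k n).filter fun F => (F + g).natDegree < z).card ≤ (Pn k z).card :=
    Finset.card_le_card_of_injOn (fun F => F + g) (fun F hF => Finset.mem_coe.2 (mem_Pn.2
      (degree_le_natDegree.trans_lt (by exact_mod_cast (Finset.mem_filter.1 hF).2))))
      fun _ _ _ _ e => add_right_cancel e
  have h2 : (((MoD k n).filter fun F => (F + g).natDegree < z).card : ℝ) ≤ qR k ^ z := by
    rw [← card_Pn]
    exact_mod_cast h1
  obtain ⟨d, rfl⟩ := Nat.exists_eq_add_of_le hz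
  rw [Nat.add_sub_cancel_left, div_le_iff₀ (qR_pow_pos _), pow_add, mul_left_comm, ← mul_pow]
  refine h2.trans (le_mul_of_one_le_right (qR_pow_pos z).le (one_le_pow₀ ?_))
  linarith [two_le_qR (k := k)]

theorem sum_small [CharP k 2] (t : ℕ) : ∑ p ∈ PrL k t, 1 / Nm p ≤ 12 + t / 12 := by
  have h1 := TwDe.sum_PrL_le (k := k) t (f := fun m => 1 / (m : ℝ)) fun m => by positivity
  rw [Finset.sum_congr rfl (g := fun p => 1 / Nm p) fun p hp => by
    have : (p.natDegree : ℝ) ≠ 0 := by exact_mod_cast (mem_PrL.1 hp).1.natDegree_pos.ne'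
    field_simp] at h1
  refine h1.trans ((Finset.sum_le_sum (g := fun m => (if m ∈ Finset.range 12 then 1 else 0) + 1 / 12)
    fun m hm => ?_).trans ?_)
  · have h2 : (1 : ℝ) ≤ m := by exact_mod_cast (Finset.mem_Ico.1 hm).1
    split_ifs with c
    · have : 1 / (m : ℝ) ≤ 1 := (div_le_one (by linarith)).2 h2
      linarith
    · rw [zero_add]
      exact one_div_le_one_div_of_le (by norm_num)
        (by exact_mod_cast not_lt.1 fun e => c (Finset.mem_range.2 e))
  · rw [Finset.sum_add_distrib, Finset.sum_boole, Finset.sum_const, nsmul_eq_mul, Nat.card_Ico]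
    have h2 : ((Finset.Ico 1 t).filter fun m => m ∈ Finset.range 12).card ≤ 12 :=
      (Finset.card_le_card fun m hm => (Finset.mem_filter.1 hm).2).trans (Finset.card_range 12).le
    have h3 : (((Finset.Ico 1 t).filter fun m => m ∈ Finset.range 12).card : ℝ) ≤ 12 := by
      exact_mod_cast h2
    have h4 : ((t - 1 : ℕ) : ℝ) ≤ t := by exact_mod_cast Nat.sub_le t 1
    linarith

theorem prod_le_exp [CharP k 2] {B : Finset k[X]} (hB : ∀ p ∈ B, IsP p) {t : ℕ}
    (hc : (B \ PrL k t).card ≤ 6 * 2 ^ t) :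
    ∏ p ∈ B, Nm p / (Nm p - 1) ≤ Real.exp (36 + t / 6) := by
  refine (Finset.prod_le_prod (g := fun p => Real.exp (2 * (1 / Nm p))) (fun p hp => ?_)
    fun p hp => ?_).trans ?_
  · have := (hB p hp).two_le_Nm
    exact div_nonneg (by linarith) (by linarith)
  · have := (hB p hp).two_le_Nm
    refine le_trans ?_ (Real.add_one_le_exp _)
    rw [mul_one_div, div_add_one (by linarith), div_le_div_iff₀ (by linarith) (by linarith)]
    nlinarith
  rw [← Real.exp_sum, Real.exp_le_exp, ← Finset.mul_sum,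
    ← Finset.sum_inter_add_sum_sdiff B (PrL k t)]
  have h1 := (Finset.sum_le_sum_of_subset_of_nonneg (f := fun p : k[X] => 1 / Nm p)
    (Finset.inter_subset_right (s₁ := B)) fun p _ _ => (one_div_pos.2 (Nm_pos p)).le).trans
    (sum_small t)
  have h2 := Finset.sum_le_card_nsmul (B \ PrL k t) (fun p => 1 / Nm p) (1 / 2 ^ t) fun p hp => by
    rw [Finset.mem_sdiff, mem_PrL] at hp
    exact one_div_le_one_div_of_le (by positivity)
      ((pow_le_pow_right₀ one_le_two (not_lt.1 fun e => hp.2 ⟨hB p hp.1, e⟩)).trans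
        (pow_le_pow_left₀ two_pos.le two_le_qR _))
  have h3 : ((B \ PrL k t).card : ℝ) ≤ 6 * 2 ^ t := by exact_mod_cast hc
  rw [nsmul_eq_mul, mul_one_div] at h2
  have h4 := h2.trans ((div_le_iff₀ (by positivity)).2 h3)
  linarith

theorem bound [CharP k 2] (hS : StSel) (hM : StMM) {h h' : k[X]} (h0 : h * h' * (h + h') ≠ 0)
    {n t : ℕ} (hn : 32 ≤ n) (ht : 4 ≤ t) (hd : (h * h' * (h + h')).natDegree ≤ 6 * 2 ^ t) :
    avm n (fun F : k[X] =>
      if Irreducible F ∧ Irreducible (F + h) ∧ Irreducible (F + h') then (1 : ℝ) else 0) ≤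
      (1 + eps 16) * Real.exp (36 + t / 6) ^ 3 / ((n / 32 : ℕ) : ℝ) ^ 3 +
        2 * (1 / 2) ^ (n - n / 32) := by
  set B := PrL k 4 ∪ pf (h * h' * (h + h')) with hB
  set z := n / 32 with hz
  have hz1 : 1 ≤ z := by omega
  have hT : ∀ p ∈ PrL k z \ B, IsP p ∧ p.natDegree < z ∧ 16 ≤ Nm p ∧ ¬ p ∣ h * h' * (h + h') := by
    intro p hp
    obtain ⟨h1, h2⟩ := Finset.mem_sdiff.1 hp
    obtain ⟨h3, h4⟩ := mem_PrL.1 h1
    rw [hB, Finset.mem_union, not_or, mem_PrL, mem_pf h0] at h2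
    refine ⟨h3, h4, ?_, fun e => h2.2 ⟨h3, e⟩⟩
    have h5 : 4 ≤ p.natDegree := not_lt.1 fun e => h2.1 ⟨h3, e⟩
    calc (16 : ℝ) = 2 ^ 4 := by norm_num
      _ ≤ qR k ^ 4 := pow_le_pow_left₀ (by norm_num) two_le_qR 4
      _ ≤ Nm p := pow_le_pow_right₀ one_le_qR h5
  have h1 := hS k (PrL k z \ B) (fun p F => p ∣ F * (F + h) * (F + h')) (fun p => 3 / Nm p) 16 z n
    hz1 le_rfl (by omega) fun p hp => by
      obtain ⟨a1, a2, a3, a4⟩ := hT p hp
      refine ⟨a1, a2, fun F t => ?_, by convert TwTri.avg_three a1 a4, ?_, ?_⟩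
      · simp only [a1.prime.dvd_mul, add_right_comm F (p * t), dvd_add_left (dvd_mul_right p t)]
      · rw [div_lt_one (Nm_pos p)]
        linarith
      · have : 1 - 3 / Nm p = (Nm p - 3) / Nm p := by field_simp
        rw [this, div_div_div_cancel_right₀ (Nm_pos p).ne', div_le_div_iff₀ (by linarith) (Nm_pos p)]
        linarith
  have h2 : avm n (fun F : k[X] =>
      if Irreducible F ∧ Irreducible (F + h) ∧ Irreducible (F + h') then (1 : ℝ) else 0) ≤
      avm n fun F => (if ∀ p ∈ PrL k z \ B, ¬ p ∣ F * (F + h) * (F + h') then 1 else 0) +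
        ((if (F + h).natDegree < z then 1 else 0) + if (F + h').natDegree < z then 1 else 0) := by
    refine avm_mono fun F hF => ?_
    have b0 : ∀ (c : Prop) [Decidable c], (0 : ℝ) ≤ if c then 1 else 0 := fun c _ => by
      split_ifs <;> norm_num
    have b1 := b0 (∀ p ∈ PrL k z \ B, ¬ p ∣ F * (F + h) * (F + h'))
    have b2 := b0 ((F + h).natDegree < z)
    have b3 := b0 ((F + h').natDegree < z)
    by_cases c1 : Irreducible F ∧ Irreducible (F + h) ∧ Irreducible (F + h')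
    swap
    · rw [if_neg c1]
      linarith
    rw [if_pos c1]
    by_cases c2 : (F + h).natDegree < z
    · rw [if_pos c2]
      linarith
    by_cases c3 : (F + h').natDegree < z
    · rw [if_pos c3]
      linarith
    rw [if_pos fun p hp e => ?_]
    · linarith
    obtain ⟨a1, a2, -, -⟩ := hT p hp
    have key : ∀ G : k[X], ¬ G.natDegree < z → Irreducible G → ¬ p ∣ G := fun G hG hi e =>
      hG (natDegree_eq_of_degree_eq
        (degree_eq_degree_of_associated (a1.2.associated_of_dvd hi e)) ▸ a2)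
    simp only [a1.prime.dvd_mul] at e
    rcases e with (e | e) | e
    · exact key _ (by rw [hF.2]; omega) c1.1 e
    · exact key _ c2 c1.2.1 e
    · exact key _ c3 c1.2.2 e
  rw [avm_add, avm_add] at h2
  have h3 := (hM k z 16 (32 * z) (32 * z) hz1 le_rfl (by omega) le_rfl (by omega)).1
  have hpos : ∀ p ∈ PrL k z, 0 < Nm p / (Nm p - 1) := fun p hp => by
    have := (mem_PrL.1 hp).1.two_le_Nm
    exact div_pos (by linarith) (by linarith)
  have h4 : Pi1 k z ≤ Real.exp (36 + t / 6) * ∏ p ∈ PrL k z \ B, Nm p / (Nm p - 1) := by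
    rw [Pi1, ← Finset.prod_inter_mul_prod_sdiff (PrL k z) B]
    refine mul_le_mul_of_nonneg_right (prod_le_exp
      (fun p hp => (mem_PrL.1 (Finset.mem_inter.1 hp).1).1)
      ((Finset.card_le_card fun p hp => ?_).trans ((card_pf_le h0).trans hd)))
      (Finset.prod_nonneg fun p hp => (hpos p (Finset.mem_sdiff.1 hp).1).le)
    rw [Finset.mem_sdiff, Finset.mem_inter, hB, Finset.mem_union] at hp
    exact hp.1.2.resolve_left fun e =>
      hp.2 (mem_PrL.2 ⟨(mem_PrL.1 e).1, (mem_PrL.1 e).2.trans_le ht⟩)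
  have h5 : (∏ p ∈ PrL k z \ B, (1 - 3 / Nm p)) * (∏ p ∈ PrL k z \ B, Nm p / (Nm p - 1)) ^ 3 ≤
      1 := by
    rw [← Finset.prod_pow, ← Finset.prod_mul_distrib]
    refine Finset.prod_le_one (fun p hp => ?_) fun p hp => ?_
    · have := (hT p hp).2.2.1
      refine mul_nonneg ?_ (pow_nonneg (div_nonneg (by linarith) (by linarith)) 3)
      rw [sub_nonneg, div_le_one (by linarith)]
      linarith
    · have := (hT p hp).2.2.1
      have e : (1 - 3 / Nm p) * (Nm p / (Nm p - 1)) ^ 3 = (Nm p - 3) * Nm p ^ 2 / (Nm p - 1) ^ 3 := by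
        have : Nm p - 1 ≠ 0 := by linarith
        have : Nm p ≠ 0 := by linarith
        field_simp
      rw [e, div_le_one (pow_pos (by linarith) 3)]
      nlinarith
  have h6 : 0 ≤ ∏ p ∈ PrL k z \ B, (1 - 3 / Nm p) := Finset.prod_nonneg fun p hp => by
    have := (hT p hp).2.2.1
    rw [sub_nonneg, div_le_one (by linarith)]
    linarith
  have he : 0 ≤ 1 + eps 16 := by unfold eps; positivity
  have hz0 : (0 : ℝ) < z := by exact_mod_cast hz1
  have h7 := pow_le_pow_left₀ hz0.le (h3.trans h4) 3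
  rw [mul_pow] at h7
  have h8 := avm_deg_lt h (n := n) (z := z) (by omega)
  have h9 := avm_deg_lt h' (n := n) (z := z) (by omega)
  refine h2.trans (add_le_add (le_trans (by convert h1) ?_) (by linarith))
  rw [le_div_iff₀ (pow_pos hz0 3), mul_assoc]
  refine mul_le_mul_of_nonneg_left ((mul_le_mul_of_nonneg_left h7 h6).trans ?_) he
  rw [mul_left_comm]
  exact mul_le_of_le_one_right (by positivity) h5

end GbTri

theorem triples (hS : StSel) (hM : StMM) (k : Type) [Field k] [Fintype k] [CharP k 2] {ε : ℝ}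
    (hε : 0 < ε) : ∀ᶠ n : ℕ in atTop, ∀ h g : k[X], h ≠ 0 → g ≠ 0 → h ≠ g → h.natDegree ≤ 2 * n →
      g.natDegree ≤ 2 * n → (n : ℝ) ^ 2 * avm n (fun F : k[X] =>
        if Irreducible F ∧ Irreducible (F + h) ∧ Irreducible (F + g) then (1 : ℝ) else 0) ≤ ε := by
  have he : 0 ≤ 1 + eps 16 := by unfold eps; positivity
  have r1 : Real.exp (1 / 2) / 2 < 1 := by
    have := Real.exp_bound_div_one_sub_of_interval' (x := 1 / 2) (by norm_num) (by norm_num)
    linarith
  have r2 := (tendsto_pow_atTop_nhds_zero_of_lt_one (by positivity) r1).const_mul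
    (64 ^ 3 * (1 + eps 16) * Real.exp 109)
  rw [mul_zero] at r2
  obtain ⟨L, hL⟩ := eventually_atTop.1 (r2.eventually (ge_mem_nhds (half_pos hε)))
  filter_upwards [eventually_ge_atTop 32, eventually_ge_atTop (2 ^ L),
    GbAny.small (V := 2) two_pos (ε := ε / 4) (by positivity)] with n h1 h2 h3 h g a1 a2 a3 a4 a5
  have h0 : h * g * (h + g) ≠ 0 := mul_ne_zero (mul_ne_zero a1 a2) fun e =>
    a3 (by linear_combination e - g * (CharTwo.two_eq_zero : (2 : k[X]) = 0))
  obtain ⟨l, hl⟩ : ∃ l, l = Nat.log 2 n := ⟨_, rfl⟩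
  have l1 : n < 2 ^ (l + 1) := hl ▸ Nat.lt_pow_succ_log_self one_lt_two n
  have l2 : (2 : ℝ) ^ l ≤ n := by exact_mod_cast hl ▸ Nat.pow_log_le_self 2 (by omega : n ≠ 0)
  have l3 := hL l (hl ▸ Nat.le_log_of_pow_le one_lt_two h2)
  have l4 : 3 ≤ l := hl ▸ Nat.le_log_of_pow_le one_lt_two (by omega)
  have h4 := GbTri.bound hS hM h0 h1 (t := l + 1) (by omega) (by
    have b1 := natDegree_mul_le (p := h * g) (q := h + g)
    have b2 := natDegree_mul_le (p := h) (q := g)
    have b3 := natDegree_add_le h g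
    omega)
  have h5 : (n : ℝ) ≤ 64 * ((n / 32 : ℕ) : ℝ) := by exact_mod_cast (by omega : n ≤ 64 * (n / 32))
  have h6 : (0 : ℝ) < n := by exact_mod_cast (by omega : 0 < n)
  have h7 : (0 : ℝ) < ((n / 32 : ℕ) : ℝ) := by linarith
  have h8 : (1 / 2 : ℝ) ^ (n - n / 32) ≤ (1 / 2) ^ (n / 2) :=
    pow_le_pow_of_le_one (by norm_num) (by norm_num) (by omega)
  have h9 : Real.exp (36 + ((l + 1 : ℕ) : ℝ) / 6) ^ 3 ≤ Real.exp 109 * Real.exp (1 / 2) ^ l := by
    rw [← Real.exp_nat_mul, ← Real.exp_nat_mul, ← Real.exp_add, Real.exp_le_exp]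
    push_cast
    linarith
  have h10 : (n : ℝ) ^ 2 * ((1 + eps 16) * Real.exp (36 + ((l + 1 : ℕ) : ℝ) / 6) ^ 3 /
      ((n / 32 : ℕ) : ℝ) ^ 3) ≤ ε / 2 := by
    refine le_trans ?_ l3
    rw [div_pow, ← mul_div_assoc, ← mul_div_assoc, div_le_div_iff₀ (by positivity) (by positivity)]
    calc _ ≤ (n : ℝ) ^ 2 * ((1 + eps 16) * (Real.exp 109 * Real.exp (1 / 2) ^ l)) * n := by gcongr
      _ = (n : ℝ) ^ 3 * ((1 + eps 16) * (Real.exp 109 * Real.exp (1 / 2) ^ l)) := by ring
      _ ≤ (64 * ((n / 32 : ℕ) : ℝ)) ^ 3 *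
          ((1 + eps 16) * (Real.exp 109 * Real.exp (1 / 2) ^ l)) := by gcongr
      _ = _ := by ring
  have h11 := mul_le_mul_of_nonneg_left h4 (sq_nonneg (n : ℝ))
  have h12 := mul_le_mul_of_nonneg_left h8 (sq_nonneg (n : ℝ))
  rw [mul_add] at h11
  linarith

/-- The case of a local obstruction. -/
theorem not_adm_le {k : Type} [Field k] [Fintype k] [CharP k 2] {h : k[X]} (ha : ¬ Adm h) {n : ℕ}
    (hn : 2 ≤ n) : avm n (tw h) ≤ (1 / 2) ^ (n - 2) := by
  refine le_trans (avm_mono fun F hF => ?_) (GbTri.avm_deg_lt h hn)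
  obtain ⟨hq, a, h1⟩ := TwSing.of_not_adm ha
  rw [dvd_iff_isRoot, IsRoot] at h1
  split_ifs with c
  · exact GbAny.tw_le_one h F
  refine (if_neg fun hi => ?_).le
  rcases TwSing.two_cases hq (F.eval a) with e | e
  · exact TwSing.not_irr (hF.2 ▸ hn) e hi.1
  · refine TwSing.not_irr (a := a) (not_lt.1 c) ?_ hi.2
    rw [eval_add, e, (TwSing.two_cases hq _).resolve_left h1]
    exact CharTwo.add_self_eq_zero 1

end Pool.Agent.Lib.MP_9227d9_nt.Mob
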