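import Pool.Agent.Lib.MP_9227d9_nt.GbAll
import Pool.Agent.Lib.MP_9227d9_nt.GbTri

/-! Prime pairs, uniformly in the shift, with a set of excluded further shifts. -/

namespace Pool.Agent.Lib.MP_9227d9_nt.Mob

open Polynomial Filter

open scoped Classical

theorem gbOne (k : Type) [Field k] [Fintype k] [CharP k 2] : ∃ (S : k[X] → ℝ) (c : ℝ), 0 < c ∧
    (∀ h : k[X], h ≠ 0 → HasProd (fun p : {p : k[X] // p.Monic ∧ Irreducible p} =>
      (1 - (if p.1 ∣ h then 1 else 2) / (Fintype.card k : ℝ) ^ p.1.natDegree) /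
        (1 - 1 / (Fintype.card k : ℝ) ^ p.1.natDegree) ^ 2) (S h) ∧
      ((Fintype.card k = 2 → X * (X + 1) ∣ h) → c ≤ S h)) ∧
    ∀ (ε : ℝ) (r : ℕ), 0 < ε → ∃ (η : ℝ) (N : ℕ), 0 < η ∧
      ∀ (n : ℕ) (h : k[X]) (G : Finset k[X]), N ≤ n → h ≠ 0 → (h.natDegree : ℝ) ≤ (1 + η) * n →
        G.card ≤ r → (∀ g ∈ G, g.natDegree ≤ 2 * n) →
        |(n : ℝ) ^ 2 * (Set.ncard {P : k[X] | P.Monic ∧ P.natDegree = n ∧ Irreducible P ∧
          Irreducible (P + h) ∧ ∀ g ∈ G, Irreducible (P + g) → g = 0 ∨ g = h} : ℝ) /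
          (Fintype.card k : ℝ) ^ n - S h| ≤ ε * max (S h) c := by
  obtain ⟨c₁, hc₁, hS1⟩ := sing_ge stSingg k
  have H0 : ∀ h : k[X], ∃ S : ℝ, h ≠ 0 →
      HasProd (fun p : {p : k[X] // p.Monic ∧ Irreducible p} => fac h p.1) S ∧
        (¬ Adm h → S = 0) ∧ ((Fintype.card k = 2 → X * (X + 1) ∣ h) → Adm h) := fun h => by
    by_cases hh : h = 0
    · exact ⟨0, fun e => absurd hh e⟩
    · obtain ⟨S, a1, -, a3, a4⟩ := stSing k h hh
      exact ⟨S, fun _ => ⟨a1, fun e => (a3 e).1, a4⟩⟩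
  choose S hS using H0
  refine ⟨S, c₁, hc₁, fun h hh => ⟨(hS h hh).1, fun hx =>
    hS1 h _ hh ((hS h hh).2.2 hx) (hS h hh).1⟩, fun ε r hε => ?_⟩
  obtain ⟨V, hV, H1⟩ := stAny gbLim stSingg k (ε / 2) (half_pos hε)
  have hV0 : (1 : ℝ) ≤ V := by exact_mod_cast hV
  obtain ⟨N, H⟩ := eventually_atTop.1 (H1.and ((triples twSel gbMM k
    (ε := ε * c₁ / (2 * (r + 1))) (by positivity)).and ((GbAny.small (V := 2) two_pos
      (mul_pos hε hc₁)).and (eventually_ge_atTop 4))))
  refine ⟨1 / V, N, by positivity, fun n h G hn hh hd hG hg => ?_⟩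
  obtain ⟨a1, a2, a3, a4⟩ := H n hn
  have hd1 : V * (h.natDegree - n) ≤ n := by
    rcases le_total h.natDegree n with e | e
    · rw [Nat.sub_eq_zero_of_le e]
      omega
    · have : (V : ℝ) * ((h.natDegree : ℝ) - n) ≤ n := by
        rw [← le_div_iff₀' (by linarith), div_eq_inv_mul, ← one_div]
        linarith
      exact_mod_cast this
  have hd2 : h.natDegree ≤ 2 * n := by
    have := Nat.le_mul_of_pos_left (h.natDegree - n) hV
    omega
  set c : k[X] → Prop := fun P => Irreducible P ∧ Irreducible (P + h) ∧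
    ∀ g ∈ G, Irreducible (P + g) → g = 0 ∨ g = h with hc
  set J := (G.erase 0).erase h with hJ
  rw [mul_div_assoc, ← TwTri.avm_ind c]
  have b1 : avm n (fun F => if c F then (1 : ℝ) else 0) ≤ avm n (tw h) := avm_mono fun F _ => by
    unfold tw
    split_ifs with c1 c2
    · exact le_rfl
    · exact absurd ⟨c1.1, c1.2.1⟩ c2
    · exact zero_le_one
    · exact le_rfl
  have b2 := mul_le_mul_of_nonneg_left b1 (sq_nonneg (n : ℝ))
  by_cases ha : Adm h
  swap
  · have b3 : 0 ≤ avm n (fun F => if c F then (1 : ℝ) else 0) := avm_nonneg fun F _ => by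
      split_ifs <;> norm_num
    have b4 := (not_adm_le ha (by omega : 2 ≤ n)).trans
      (pow_le_pow_of_le_one (by norm_num) (by norm_num) (by omega : n / 2 ≤ n - 2))
    rw [(hS h hh).2.1 ha, sub_zero, abs_of_nonneg (by positivity), max_eq_right hc₁.le]
    exact b2.trans ((mul_le_mul_of_nonneg_left b4 (sq_nonneg _)).trans a3)
  have b3 := hS1 h _ hh ha (hS h hh).1
  have b4 := abs_le.1 (a1 h _ hh ha hd1 (hS h hh).1)
  have b5 : avm n (tw h) - ∑ g ∈ J, avm n (fun F : k[X] =>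
      if Irreducible F ∧ Irreducible (F + h) ∧ Irreducible (F + g) then (1 : ℝ) else 0) ≤
      avm n (fun F => if c F then (1 : ℝ) else 0) := by
    rw [← avm_sum, ← avm_sub]
    refine avm_mono fun F _ => ?_
    have h9 : ∀ g ∈ J, (0 : ℝ) ≤
        if Irreducible F ∧ Irreducible (F + h) ∧ Irreducible (F + g) then 1 else 0 :=
      fun g _ => by split_ifs <;> norm_num
    have h10 := Finset.sum_nonneg h9
    unfold tw
    split_ifs with c1 c2
    · linarith
    · simp only [hc, not_and, not_forall, not_or] at c2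
      obtain ⟨g, g1, g2, g3, g4⟩ := c2 c1.1 c1.2
      have g5 : g ∈ J := Finset.mem_erase.2 ⟨g4, Finset.mem_erase.2 ⟨g3, g1⟩⟩
      have := Finset.single_le_sum h9 g5
      rw [if_pos ⟨c1.1, c1.2, g2⟩] at this
      linarith
    · linarith
    · linarith
  have b6 := mul_le_mul_of_nonneg_left b5 (sq_nonneg (n : ℝ))
  rw [mul_sub, Finset.mul_sum] at b6
  have b7 := Finset.sum_le_card_nsmul J _ _ fun g hg' => a2 h g hh
    (Finset.ne_of_mem_erase (Finset.mem_of_mem_erase hg')) (Finset.ne_of_mem_erase hg').symm hd2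
    (hg g (Finset.mem_of_mem_erase (Finset.mem_of_mem_erase hg')))
  have b8 : (J.card : ℝ) ≤ r + 1 := by
    exact_mod_cast (Finset.card_erase_le.trans (Finset.card_erase_le.trans hG)).trans r.le_succ
  rw [nsmul_eq_mul] at b7
  have b9 : ((r : ℝ) + 1) * (ε * c₁ / (2 * (r + 1))) = ε * c₁ / 2 := by field_simp
  have b10 := b7.trans ((mul_le_mul_of_nonneg_right b8 (by positivity)).trans b9.le)
  have b11 := mul_le_mul_of_nonneg_left b3 hε.le
  have b12 := mul_pos hε hc₁
  rw [max_eq_left b3, abs_le]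
  constructor <;> linarith [b4.1, b4.2]

end Pool.Agent.Lib.MP_9227d9_nt.Mob
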