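import Pool.Agent.Lib.MP_9227d9_nt.GbA
import Pool.Agent.Lib.MP_9227d9_nt.TwSing

/-! The singular series, uniformly in the shift. -/

namespace Pool.Agent.Lib.MP_9227d9_nt.Mob

open Polynomial

open scoped Classical

namespace GbSing

open Filter

variable {k : Type} [Field k] [Fintype k] {h p : k[X]}

theorem fac_dvd (hp' : IsP p) (hd : p ∣ h) : fac h p = 1 + 1 / (Nm p - 1) := by
  have h2 := hp'.two_le_Nm
  have h1 : Nm p - 1 ≠ 0 := by linarith
  have h0 : Nm p ≠ 0 := by linarith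
  rw [fac, om, if_pos hd]
  field_simp
  ring

theorem fac_ndvd (hp' : IsP p) (hd : ¬ p ∣ h) : fac h p = 1 - (1 / (Nm p - 1)) ^ 2 := by
  have h2 := hp'.two_le_Nm
  have h1 : Nm p - 1 ≠ 0 := by linarith
  have h0 : Nm p ≠ 0 := by linarith
  rw [fac, om, if_neg hd]
  field_simp
  ring

theorem exp_le {x : ℝ} (h0 : 0 ≤ x) (h1 : x ≤ 1 / 2) : Real.exp (-(2 * x)) ≤ 1 - x := by
  have h2 := Real.add_one_le_exp (2 * x)
  rw [Real.exp_neg, inv_le_iff_one_le_mul₀ (Real.exp_pos _)]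
  nlinarith [mul_le_mul_of_nonneg_left h2 (show 0 ≤ 1 - x by linarith),
    mul_nonneg h0 (show 0 ≤ 1 - 2 * x by linarith)]

theorem fac_ge (ha : Adm h) (hp' : IsP p) : Real.exp (-(8 * (1 / Nm p ^ 2))) ≤ fac h p := by
  have h0 := Nm_pos p
  have h3 := one_div_Nm_sub_le hp'
  by_cases hd : p ∣ h
  · rw [fac_dvd hp' hd]
    have : Real.exp (-(8 * (1 / Nm p ^ 2))) ≤ 1 :=
      Real.exp_le_one_iff.2 (neg_nonpos.2 (by positivity))
    linarith [h3.1]
  · have h4 := ha p hp'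
    rw [om, if_neg hd] at h4
    have h5 : 4 * (1 / Nm p ^ 2) ≤ 1 / 2 := by
      rw [mul_one_div, div_le_div_iff₀ (by positivity) two_pos]
      nlinarith
    have h6 := exp_le (x := 4 * (1 / Nm p ^ 2)) (by positivity) h5
    have h7 := TwSing.abs_fac_le hp' hd
    rw [Real.norm_eq_abs, abs_le] at h7
    rw [show 8 * (1 / Nm p ^ 2) = 2 * (4 * (1 / Nm p ^ 2)) by ring]
    linarith [h7.1]

theorem fac_le (hp' : IsP p) : fac h p ≤ Real.exp (if p ∣ h then 2 / Nm p else 0) := by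
  have h3 := one_div_Nm_sub_le hp'
  by_cases hd : p ∣ h
  · rw [fac_dvd hp' hd, if_pos hd]
    linarith [h3.2, Real.add_one_le_exp (2 / Nm p)]
  · rw [fac_ndvd hp' hd, if_neg hd, Real.exp_zero]
    linarith [sq_nonneg (1 / (Nm p - 1))]

theorem prod_ge (ha : Adm h) {t : Finset k[X]} (ht : ∀ p ∈ t, IsP p) {δ : ℝ}
    (hδ : ∑ p ∈ t, 1 / Nm p ^ 2 ≤ δ) : Real.exp (-(8 * δ)) ≤ ∏ p ∈ t, fac h p := by
  refine le_trans ?_ (Finset.prod_le_prod (fun _ _ => (Real.exp_pos _).le)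
    fun p hp' => fac_ge ha (ht p hp'))
  rw [← Real.exp_sum, Real.exp_le_exp, Finset.sum_neg_distrib, ← Finset.mul_sum]
  linarith

theorem prod_le (ha : Adm h) (hh : h ≠ 0) {t : Finset k[X]} {z D : ℕ} (hz : 0 < z)
    (ht : ∀ p ∈ t, IsP p ∧ z ≤ p.natDegree) (hD : h.natDegree ≤ D * z) :
    ∏ p ∈ t, fac h p ≤ Real.exp (2 * D * (1 / 2) ^ z) := by
  refine (Finset.prod_le_prod (fun p hp' => (TwSing.fac_pos ha (ht p hp').1).le)
    fun p hp' => fac_le (ht p hp').1).trans ?_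
  rw [← Real.exp_sum, Real.exp_le_exp, ← Finset.sum_filter]
  have hsub : t.filter (· ∣ h) ⊆ pf h := fun p hp' => by
    rw [Finset.mem_filter] at hp'
    exact (mem_pf hh).2 ⟨(ht p hp'.1).1, hp'.2⟩
  have hc : (t.filter (· ∣ h)).card ≤ D := by
    have h1 : (t.filter (· ∣ h)).card • z ≤ ∑ p ∈ t.filter (· ∣ h), p.natDegree :=
      Finset.card_nsmul_le_sum _ _ _ fun p hp' => (ht p (Finset.mem_filter.1 hp').1).2
    have h2 := (Finset.sum_le_sum_of_subset (f := natDegree) hsub).trans (sum_natDegree_pf_le hh)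
    rw [smul_eq_mul] at h1
    exact Nat.le_of_mul_le_mul_right (h1.trans (h2.trans hD)) hz
  have h3 : ∑ p ∈ t.filter (· ∣ h), 2 / Nm p ≤ (t.filter (· ∣ h)).card • (2 * (1 / 2 : ℝ) ^ z) := by
    refine Finset.sum_le_card_nsmul _ _ _ fun p hp' => ?_
    have h4 := (ht p (Finset.mem_filter.1 hp').1).2
    rw [one_div_pow, mul_one_div]
    refine div_le_div_of_nonneg_left two_pos.le (by positivity) ?_
    exact (pow_le_pow_right₀ one_le_two h4).trans (pow_le_pow_left₀ two_pos.le two_le_qR _)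
  have h5 : ((t.filter (· ∣ h)).card : ℝ) ≤ D := by exact_mod_cast hc
  rw [nsmul_eq_mul] at h3
  refine h3.trans ((mul_le_mul_of_nonneg_right h5 (by positivity)).trans (le_of_eq ?_))
  ring

theorem mem_tail {z z' : ℕ} (hp' : p ∈ PrL k z' \ PrL k z) :
    IsP p ∧ z ≤ p.natDegree ∧ p.natDegree < z' := by
  rw [Finset.mem_sdiff, mem_PrL, mem_PrL] at hp'
  exact ⟨hp'.1.1, not_lt.1 fun e => hp'.2 ⟨hp'.1.1, e⟩, hp'.1.2⟩

theorem tail_le (z z' : ℕ) : ∑ p ∈ PrL k z' \ PrL k z, 1 / Nm p ^ 2 ≤ 2 * (1 / 2) ^ z := by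
  rw [← Finset.sum_fiberwise_of_maps_to (g := natDegree) (t := Finset.Ico z z')
    fun p hp' => Finset.mem_Ico.2 (mem_tail hp').2]
  refine le_trans (Finset.sum_le_sum fun m _ => ?_)
    ((geom_sum_Ico_le_of_lt_one (x := (1 / 2 : ℝ)) (by norm_num) (by norm_num)).trans
      (le_of_eq (by ring)))
  have hq := qR_pow_pos (k := k) m
  calc ∑ p ∈ PrL k z' \ PrL k z with p.natDegree = m, 1 / Nm p ^ 2
      ≤ ∑ p ∈ MoD k m, 1 / Nm p ^ 2 := by
        refine Finset.sum_le_sum_of_subset_of_nonneg (fun p hp' => ?_) fun _ _ _ => by positivity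
        rw [Finset.mem_filter] at hp'
        exact mem_MoD.2 ⟨(mem_tail hp'.1).1.1, hp'.2⟩
    _ = ∑ p ∈ MoD k m, 1 / (qR k ^ m) ^ 2 :=
        Finset.sum_congr rfl fun p hp' => by rw [Nm, (mem_MoD.1 hp').2]
    _ = 1 / qR k ^ m := by
        rw [Finset.sum_const, nsmul_eq_mul, card_MoD]
        field_simp
    _ ≤ (1 / 2) ^ m := by
        rw [one_div_pow]
        exact one_div_le_one_div_of_le (by positivity) (pow_le_pow_left₀ two_pos.le two_le_qR m)

theorem prod_TT' (h : k[X]) (z : ℕ) :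
    ∏ p ∈ TwSing.TT k z, fac h p.1 = ∏ p ∈ PrL k z, fac h p := by
  rw [TwSing.TT, Finset.prod_subtype_of_mem (p := fun p : k[X] => p.Monic ∧ Irreducible p) (fac h)
    fun p hp' => (mem_PrL.1 hp').1]

theorem PrL_mono {z z' : ℕ} (hz : z ≤ z') : PrL k z ⊆ PrL k z' := fun _ hp' =>
  mem_PrL.2 ⟨(mem_PrL.1 hp').1, (mem_PrL.1 hp').2.trans_le hz⟩

theorem tendsto_exp (c : ℝ) :
    Tendsto (fun z : ℕ => Real.exp (c * (1 / 2) ^ z)) atTop (nhds 1) := by
  have h1 : Tendsto (fun z : ℕ => (1 / 2 : ℝ) ^ z) atTop (nhds 0) :=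
    tendsto_pow_atTop_nhds_zero_of_lt_one (by norm_num) (by norm_num)
  have h2 := (Real.continuous_exp.tendsto _).comp (h1.const_mul c)
  rw [mul_zero, Real.exp_zero] at h2
  exact h2

end GbSing

theorem stSingg : StSingg := by
  intro k _ _ _
  refine ⟨Real.exp (-(8 * 2)), Real.exp_pos _, fun ε D hε => ?_⟩
  have e1 := (GbSing.tendsto_exp (-16)).eventually (lt_mem_nhds (show 1 - ε < 1 by linarith))
  have e2 := (GbSing.tendsto_exp (2 * D)).eventually (gt_mem_nhds (show 1 < 1 + ε by linarith))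
  filter_upwards [e1, e2, Filter.eventually_gt_atTop 0] with z h1 h2 hz h S hh ha hD hS
  rw [← TwSing.prod_TT ha, GbSing.prod_TT']
  have hR := GbSing.prod_ge ha (fun p hp' => (mem_PrL.1 hp').1) (TwSing.sum_PrL_le (k := k) z)
  have hR0 := (Real.exp_pos _).trans_le hR
  have hT : Filter.Tendsto (fun z => ∏ p ∈ PrL k z, fac h p) Filter.atTop (nhds S) :=
    (Filter.Tendsto.comp hS TwSing.tendsto_TT).congr fun z => GbSing.prod_TT' h z
  have l1 : (1 - ε) * ∏ p ∈ PrL k z, fac h p ≤ S := by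
    refine ge_of_tendsto hT ?_
    filter_upwards [Filter.eventually_ge_atTop z] with z' hz'
    rw [← Finset.prod_sdiff (GbSing.PrL_mono hz')]
    refine mul_le_mul_of_nonneg_right (h1.le.trans (le_trans (le_of_eq ?_)
      (GbSing.prod_ge ha (fun p hp' => (GbSing.mem_tail hp').1) (GbSing.tail_le z z')))) hR0.le
    congr 1
    ring
  have l2 : S ≤ (1 + ε) * ∏ p ∈ PrL k z, fac h p := by
    refine le_of_tendsto hT ?_
    filter_upwards [Filter.eventually_ge_atTop z] with z' hz'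
    rw [← Finset.prod_sdiff (GbSing.PrL_mono hz')]
    exact mul_le_mul_of_nonneg_right ((GbSing.prod_le ha hh hz
      (fun p hp' => ⟨(GbSing.mem_tail hp').1, (GbSing.mem_tail hp').2.1⟩) hD).trans h2.le) hR0.le
  exact ⟨hR, abs_le.2 ⟨by linarith, by linarith⟩⟩

end Pool.Agent.Lib.MP_9227d9_nt.Mob
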