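import Pool.Agent.Lib.MP_9227d9_nt.H66Window

/-! An orbit that drops quickly has a window with many very large steps. -/

open Finset
open scoped ArithmeticFunction.Omega

namespace Pool.Agent.Lib.MP_9227d9_nt.H66

theorem exists_block (c : ℕ → ℕ) (hc : ∀ j, c j ≤ 1) {a T : ℕ} (h : a ≤ T) :
    ∀ n ≤ ∑ j ∈ Ico a T, c j, ∃ b, a ≤ b ∧ b ≤ T ∧ ∑ j ∈ Ico a b, c j = n := by
  induction T, h using Nat.le_induction with
  | base => exact fun n hn => ⟨a, le_rfl, le_rfl, by simpa [eq_comm] using hn⟩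
  | succ T h ih =>
    intro n hn
    by_cases h1 : n ≤ ∑ j ∈ Ico a T, c j
    · obtain ⟨b, h2, h3, h4⟩ := ih n h1
      exact ⟨b, h2, by omega, h4⟩
    · refine ⟨T + 1, by omega, le_rfl, ?_⟩
      rw [sum_Ico_succ_top h] at hn ⊢
      have := hc T
      omega

theorem blocks (c : ℕ → ℕ) (hc : ∀ j, c j ≤ 1) (w : ℕ → ℝ) {T n0 : ℕ} (hn0 : 1 ≤ n0)
    (h : ∀ a b, a ≤ b → b ≤ T → ∑ j ∈ Ico a b, c j ≤ n0 →
      ∑ j ∈ Ico a b, w j ≤ 16 * (∑ j ∈ Ico a b, c j : ℕ) + n0) (n : ℕ) :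
    ∀ a ≤ T, ∑ j ∈ Ico a T, c j = n → ∑ j ∈ Ico a T, w j ≤ 17 * n + n0 := by
  induction n using Nat.strong_induction_on with
  | _ n ih =>
    intro a ha hn
    by_cases h1 : n ≤ n0
    · have := h a T ha le_rfl (hn ▸ h1)
      rw [hn] at this
      have h2 : (0 : ℝ) ≤ n := Nat.cast_nonneg n
      linarith
    · obtain ⟨b, h2, h3, h4⟩ := exists_block c hc ha n0 (by omega)
      have h5 := h a b h2 h3 h4.le
      have h6 := sum_Ico_consecutive c h2 h3
      have h7 := ih _ (by omega) b h3 rfl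
      rw [← sum_Ico_consecutive w h2 h3, ← hn, ← h6, Nat.cast_add, h4]
      rw [h4] at h5
      linarith

theorem exists_window {m G K k x L S : ℕ} (hLd : (2 * m + G) ^ K = L) (hSd : S = L ^ (18 * k + 4))
    (hG : 1 ≤ G) (hL : G * (G + 1) ≤ L) (hL4 : 4 ≤ L) (hS : (G + 2 * m) ^ 2 ≤ S)
    (hk : G * (36 * k + 11) ≤ 2 ^ k) (hΩ : ∀ i < 2 * m + G, Ω (x + i + 1) ≤ K)
    (hx : S < sg m x G) :
    ∃ i ≤ k, ∃ j0 j1 c, j0 < j1 ∧ j1 ≤ G ∧ (j0 = 0 ∧ c = 1 ∨ c = 18 * k + 6) ∧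
      (∀ j < j1, sg m x j ≤ S) ∧ (big m (L ^ (18 * i)) j0 j1 x).card ≤ 36 * k + 12 ∧
      ((L : ℝ) ^ c) ^ 2 * (L : ℝ) ^ (16 * (big m (L ^ (18 * i)) j0 j1 x).card) ≤
        ∏ j ∈ big m (L ^ (18 * i)) j0 j1 x, ((gg m x j : ℝ) / ((L ^ (18 * i) : ℕ) : ℝ)) := by
  by_contra hcon
  have hex : ∃ T, S < sg m x T := ⟨G, hx⟩
  set T := Nat.find hex with hT
  have hT1 : S < sg m x T := Nat.find_spec hex
  have hT2 : T ≤ G := Nat.find_min' hex hx
  have hT3 : ∀ j < T, sg m x j ≤ S := fun j hj => not_lt.1 (Nat.find_min hex hj)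
  have hL1 : (1 : ℝ) < L := by exact_mod_cast (show 1 < L by omega)
  have hg : ∀ j, (0 : ℝ) < gg m x j := fun j => by exact_mod_cast gg_pos m x j
  let u : ℕ → ℝ := fun j => Real.logb L (gg m x j)
  have hu : ∀ j n : ℕ, L ^ n ≤ gg m x j → (n : ℝ) ≤ u j := fun j n h =>
    (Real.le_logb_iff_rpow_le hL1 (hg j)).2 (by rw [Real.rpow_natCast]; exact_mod_cast h)
  let c : ℕ → ℕ → ℕ := fun i j => if L ^ (18 * i) ≤ gg m x j then 1 else 0
  let w : ℕ → ℕ → ℝ := fun i j => if L ^ (18 * i) ≤ gg m x j then u j - (18 * i : ℕ) else 0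
  have hw0 : ∀ i j, 0 ≤ w i j := fun i j => by
    simp only [w]
    split_ifs with h
    exacts [sub_nonneg.2 (hu _ _ h), le_rfl]
  have key : ∀ i ≤ k, ∀ a b c', b ≤ T → (a = 0 ∧ c' = 1 ∨ c' = 18 * k + 6) →
      ∑ j ∈ Ico a b, c i j ≤ 36 * k + 12 →
      ∑ j ∈ Ico a b, w i j ≤ 16 * (∑ j ∈ Ico a b, c i j : ℕ) + (2 * c' : ℕ) := by
    intro i hi a b c' hb hc' hN
    have e1 : ∑ j ∈ Ico a b, c i j = (big m (L ^ (18 * i)) a b x).card := (card_filter _ _).symm
    by_contra hlt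
    refine hcon ⟨i, hi, a, b, c', ?_, hb.trans hT2, hc', fun j hj => hT3 j (by omega), e1 ▸ hN, ?_⟩
    · by_contra hab
      rw [Ico_eq_empty hab] at hlt
      exact hlt (by simp only [sum_empty]; positivity)
    · have hp : ∀ j ∈ big m (L ^ (18 * i)) a b x,
          0 < (gg m x j : ℝ) / ((L ^ (18 * i) : ℕ) : ℝ) := fun j _ => div_pos (hg j) (by positivity)
      rw [← pow_mul, ← pow_add, ← Real.rpow_natCast,
        ← Real.le_logb_iff_rpow_le hL1 (prod_pos hp), Real.logb_prod _ _ fun j hj => (hp j hj).ne']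
      have e2 : ∑ j ∈ big m (L ^ (18 * i)) a b x,
          Real.logb L ((gg m x j : ℝ) / ((L ^ (18 * i) : ℕ) : ℝ)) = ∑ j ∈ Ico a b, w i j := by
        rw [big, sum_filter]
        refine sum_congr rfl fun j _ => if_congr Iff.rfl ?_ rfl
        rw [Real.logb_div (hg j).ne' (by positivity), Nat.cast_pow, Real.logb_pow,
          Real.logb_self_eq_one hL1, mul_one]
      rw [e2, ← e1]
      push_cast at hlt ⊢
      linarith
  have key2 : ∀ i ≤ k, ∑ j ∈ Ico 0 T, w i j ≤ 18 * (∑ j ∈ Ico 0 T, c i j : ℕ) + 2 := by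
    intro i hi
    have h0 : (0 : ℝ) ≤ (∑ j ∈ Ico 0 T, c i j : ℕ) := Nat.cast_nonneg _
    by_cases hN : ∑ j ∈ Ico 0 T, c i j ≤ 36 * k + 12
    · have := key i hi 0 T 1 le_rfl (Or.inl ⟨rfl, rfl⟩) hN
      norm_num at this ⊢ h0
      linarith
    · have h1 := blocks (c i) (fun j => by simp only [c]; split_ifs <;> omega) (w i) (T := T)
        (n0 := 36 * k + 12) (by omega) (fun a b _ hb h => by
          have := key i hi a b _ hb (Or.inr rfl) h
          rwa [show 2 * (18 * k + 6) = 36 * k + 12 by ring] at this) _ 0 (Nat.zero_le _) rfl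
      have h2 : ((36 * k + 12 : ℕ) : ℝ) ≤ (∑ j ∈ Ico 0 T, c i j : ℕ) := by
        exact_mod_cast (not_le.1 hN).le
      linarith
  have step : ∀ i, ∑ j ∈ Ico 0 T, w (i + 1) j + 18 * (∑ j ∈ Ico 0 T, c (i + 1) j : ℕ) ≤
      ∑ j ∈ Ico 0 T, w i j := by
    intro i
    rw [Nat.cast_sum, mul_sum, ← sum_add_distrib]
    refine sum_le_sum fun j _ => ?_
    by_cases h : L ^ (18 * (i + 1)) ≤ gg m x j
    · have h' : L ^ (18 * i) ≤ gg m x j := (Nat.pow_le_pow_right (by omega) (by omega)).trans h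
      simp only [w, c, if_pos h, if_pos h']
      push_cast
      linarith
    · have := hw0 i j
      simpa only [w, c, if_neg h, Nat.cast_zero, mul_zero, add_zero] using this
  have top : 3 ≤ ∑ j ∈ Ico 0 T, w k j := by
    obtain ⟨j, hj, h⟩ : ∃ j ∈ Ico 0 T, L ^ (18 * k + 3) ≤ gg m x j := by
      by_contra hno
      push Not at hno
      have h1 := sum_le_card_nsmul _ _ _ fun j hj => (hno j hj).le
      have h2 := sg_eq_sum m x (Nat.zero_le T)
      have h3 : T * L ^ (18 * k + 3) ≤ S := by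
        rw [hSd, pow_succ' L (18 * k + 3)]
        exact Nat.mul_le_mul_right _ (by nlinarith)
      rw [Nat.card_Ico, smul_eq_mul, Nat.sub_zero] at h1
      rw [show sg m x 0 = 0 from rfl, zero_add] at h2
      exact absurd (h2.le.trans (h1.trans h3)) (not_le.2 hT1)
    refine le_trans ?_ (single_le_sum (fun j _ => hw0 k j) hj)
    have h' : L ^ (18 * k) ≤ gg m x j := (Nat.pow_le_pow_right (by omega) (by omega)).trans h
    have := hu _ _ h
    simp only [w, if_pos h']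
    push_cast at this ⊢
    linarith
  have down : ∀ d i, i + d = k → (2 : ℝ) ^ d + 2 ≤ ∑ j ∈ Ico 0 T, w i j := by
    intro d
    induction d with
    | zero =>
      intro i hi
      rw [show i = k from hi]
      linarith
    | succ d ih =>
      intro i hi
      have h1 := ih (i + 1) (by omega)
      have h2 := key2 (i + 1) (by omega)
      have h3 := step i
      rw [pow_succ]
      linarith
  have bot : ∑ j ∈ Ico 0 T, w 0 j ≤ ((G * (36 * k + 11) : ℕ) : ℝ) := by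
    refine (sum_le_card_nsmul _ _ ((36 * k + 11 : ℕ) : ℝ) fun j hj => ?_).trans ?_
    · have hj' := (mem_Ico.1 hj).2
      have h1 := r_le (y := 2 * m + G) (by omega) (show j < G by omega) hS (hT3 j hj')
      have h2 : gg m x j ≤ L ^ (36 * k + 11) :=
        calc gg m x j ≤ _ := gg_le (y := 2 * m + G) (by omega) (hΩ j (by omega)) (hΩ _ (by omega))
          _ ≤ 2 * S * (2 * S) * L ^ 2 := by
            rw [hLd]
            exact Nat.mul_le_mul_right _ (Nat.mul_le_mul h1.1 h1.2)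
          _ = 4 * L ^ (36 * k + 10) := by rw [hSd]; ring
          _ ≤ _ := by
            rw [pow_succ' L (36 * k + 10)]
            exact Nat.mul_le_mul_right _ hL4
      have h3 : u j ≤ ((36 * k + 11 : ℕ) : ℝ) := (Real.logb_le_iff_le_rpow hL1 (hg j)).2
        (by rw [Real.rpow_natCast]; exact_mod_cast h2)
      simp only [w]
      split_ifs
      · simpa using h3
      · positivity
    · rw [Nat.card_Ico, nsmul_eq_mul]
      exact_mod_cast Nat.mul_le_mul_right _ (by omega)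
  have h1 := down k 0 (zero_add k)
  have h2 : ((G * (36 * k + 11) : ℕ) : ℝ) ≤ 2 ^ k := by exact_mod_cast hk
  linarith

end Pool.Agent.Lib.MP_9227d9_nt.H66
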