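import Pool.Agent.Lib.MP_9227d9_nt.H66Comb

/-! Counting the starting times whose orbit drops quickly, and the zeros. -/

open Finset
open scoped ArithmeticFunction.Omega

namespace Pool.Agent.Lib.MP_9227d9_nt.H66

theorem card_biUnion_real {ι : Type*} (I : Finset ι) (f : ι → Finset ℕ) (B : ℝ)
    (h : ∀ t ∈ I, ((f t).card : ℝ) ≤ B) : ((I.biUnion f).card : ℝ) ≤ I.card * B := by
  refine (Nat.cast_le.2 card_biUnion_le).trans ?_
  rw [Nat.cast_sum, ← nsmul_eq_mul]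
  exact sum_le_card_nsmul _ _ _ h

theorem count_drop {m G κ k L S X : ℕ} (hLd : (2 * m + G) ^ (4 * κ) = L)
    (hSd : S = L ^ (18 * k + 4)) (hm : 1 ≤ m) (hG : 1 ≤ G) (hL : G * (G + 1) ≤ L) (hL4 : 4 ≤ L)
    (hS : (G + 2 * m) ^ 2 ≤ S) (hS2 : 2 * S < 2 ^ (2 * m + G)) (hk : G * (36 * k + 11) ≤ 2 ^ k)
    (hX : (2 * S * (2 * S)) ^ (36 * k + 12) ≤ X) :
    (((range (X + 1)).filter fun x => S < sg m x G).card : ℝ) ≤
      (2 * m + G : ℕ) * ((X + (2 * m + G) : ℕ) * (1 + Real.log (X + (2 * m + G) : ℕ)) / 4 ^ κ +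
        2 * (X + (2 * m + G) : ℕ) / 2 ^ κ) + ((k + 1) * (G + 1) : ℕ) * (6 * X / (L : ℝ) ^ 1) +
      ((k + 1) * ((G + 1) * ((G + 1) * (S + 1))) : ℕ) * (6 * X / (L : ℝ) ^ (18 * k + 6)) := by
  classical
  have hL0 : (0 : ℝ) < L := by exact_mod_cast (show 0 < L by omega)
  let W : ℕ → ℕ → ℕ → ℕ → ℕ → Finset ℕ := fun i j0 j1 s0 c => (range (X + 1)).filter fun x =>
    x ≤ X ∧ (∀ i < 2 * m + G, Ω (x + i + 1) ≤ 4 * κ) ∧ sg m x j0 = s0 ∧
      (∀ j < j1, sg m x j ≤ S) ∧ (big m (L ^ (18 * i)) j0 j1 x).card ≤ 36 * k + 12 ∧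
      ((L : ℝ) ^ c) ^ 2 * (L : ℝ) ^ (16 * (big m (L ^ (18 * i)) j0 j1 x).card) ≤
        ∏ j ∈ big m (L ^ (18 * i)) j0 j1 x, ((gg m x j : ℝ) / ((L ^ (18 * i) : ℕ) : ℝ))
  have hW : ∀ i j0 j1 s0 c, j1 ≤ G → ((W i j0 j1 s0 c).card : ℝ) ≤ 6 * X / (L : ℝ) ^ c :=
    fun i j0 j1 s0 c hj => window (K := 4 * κ) (Y := L ^ (18 * i)) hm hG (hLd ▸ hL)
      (Nat.one_le_pow _ _ (by omega)) hj hS hS2 hX (by positivity) _ fun x hx => by
        rw [hLd]
        exact (mem_filter.1 hx).2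
  let A := (range (2 * m + G)).biUnion fun i =>
    (range (X + 1)).filter fun x => 4 * κ < Ω (x + i + 1)
  let B := (range (k + 1) ×ˢ range (G + 1)).biUnion fun t => W t.1 0 t.2 0 1
  let C := (range (k + 1) ×ˢ range (G + 1) ×ˢ range (G + 1) ×ˢ range (S + 1)).biUnion fun t =>
    W t.1 t.2.1 t.2.2.1 t.2.2.2 (18 * k + 6)
  have hsub : ((range (X + 1)).filter fun x => S < sg m x G) ⊆ A ∪ B ∪ C := by
    intro x hx
    obtain ⟨h1, h2⟩ := mem_filter.1 hx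
    by_cases hΩ : ∀ i < 2 * m + G, Ω (x + i + 1) ≤ 4 * κ
    · obtain ⟨i, hi, j0, j1, c, a1, a2, a3, a4, a5, a6⟩ :=
        exists_window hLd hSd hG hL hL4 hS hk hΩ h2
      have h3 : x ∈ W i j0 j1 (sg m x j0) c :=
        mem_filter.2 ⟨h1, Nat.lt_succ_iff.1 (mem_range.1 h1), hΩ, rfl, a4, a5, a6⟩
      rcases a3 with ⟨rfl, rfl⟩ | rfl
      · exact mem_union_left _ (mem_union_right _ (mem_biUnion.2 ⟨(i, j1),
          by simp only [mem_product, mem_range]; omega, h3⟩))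
      · have := a4 j0 a1
        exact mem_union_right _ (mem_biUnion.2 ⟨(i, j0, j1, sg m x j0),
          by simp only [mem_product, mem_range]; omega, h3⟩)
    · push Not at hΩ
      obtain ⟨i, hi, h⟩ := hΩ
      exact mem_union_left _ (mem_union_left _
        (mem_biUnion.2 ⟨i, mem_range.2 hi, mem_filter.2 ⟨h1, h⟩⟩))
  refine (Nat.cast_le.2 ((card_le_card hsub).trans ((card_union_le _ _).trans
    (Nat.add_le_add_right (card_union_le _ _) _)))).trans ?_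
  rw [Nat.cast_add, Nat.cast_add]
  refine add_le_add (add_le_add ?_ ?_) ?_
  · refine (card_biUnion_real _ _ _ fun i hi => ?_).trans (by rw [card_range])
    refine le_trans (Nat.cast_le.2 ?_) (card_many_factors (X + (2 * m + G)) κ)
    refine card_le_card_of_injOn (fun x => x + i + 1) (fun x hx => ?_) fun x _ x' _ h => ?_
    · obtain ⟨h1, h2⟩ := mem_filter.1 hx
      have := mem_range.1 hi
      have := mem_range.1 h1
      exact mem_coe.2 (mem_filter.2 ⟨mem_Ioc.2 ⟨by simp, by simp only; omega⟩, h2⟩)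
    · simpa using h
  · refine (card_biUnion_real _ _ _ fun t ht => hW _ _ _ _ _ ?_).trans (by simp)
    exact Nat.lt_succ_iff.1 (mem_range.1 (mem_product.1 ht).2)
  · refine (card_biUnion_real _ _ _ fun t ht => hW _ _ _ _ _ ?_).trans (by simp)
    exact Nat.lt_succ_iff.1 (mem_range.1 (mem_product.1 (mem_product.1 (mem_product.1 ht).2).2).1)

theorem count_zeros {m : ℕ} {a : ℕ → ℕ} (hrec : ∀ n : ℕ, 2 ≤ n →
      a n = Int.natAbs ((a (n - 1) : ℤ) - ((Nat.gcd (a (n - 1)) (n * (n + 2 * m)) : ℕ) : ℤ)))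
    {G : ℕ} (hG : 1 ≤ G) (S X : ℕ) :
    ((range (X + 1)).filter fun n => a n = 0).card ≤ S + 1 + (X / G + 1) +
      ((range (X + 1 + 1)).filter fun x => S < sg m x G).card := by
  classical
  let B := (range (X + 1)).filter fun n => a n = 0 ∧ ∀ n', n < n' → n' ≤ n + G → a n' ≠ 0
  let C := (range (X + 1)).filter fun n => S < sg m (n + 1) G
  have hsub : ((range (X + 1)).filter fun n => a n = 0) ⊆ range (S + 1) ∪ B ∪ C := by
    intro n hn
    obtain ⟨h1, h2⟩ := mem_filter.1 hn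
    by_cases h3 : n ≤ S
    · exact mem_union_left _ (mem_union_left _ (mem_range.2 (by omega)))
    by_cases h4 : ∀ n', n < n' → n' ≤ n + G → a n' ≠ 0
    · exact mem_union_left _ (mem_union_right _ (mem_filter.2 ⟨h1, h2, h4⟩))
    push Not at h4
    obtain ⟨n', b1, b2, b3⟩ := h4
    refine mem_union_right _ (mem_filter.2 ⟨h1, ?_⟩)
    have h5 := orbit_link hrec (by omega) h2 (n' - (n + 1))
    rw [show n + 1 + (n' - (n + 1)) = n' by omega, b3] at h5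
    have h6 := sg_mono m (n + 1) (show n' - (n + 1) ≤ G by omega)
    have h7 : n + 1 ≤ PP m (n + 1) := Nat.le_mul_of_pos_right _ (by omega)
    omega
  refine (card_le_card hsub).trans ((card_union_le _ _).trans (Nat.add_le_add
    ((card_union_le _ _).trans (Nat.add_le_add (card_range _).le ?_)) ?_))
  · rw [← card_range (X / G + 1)]
    have key : ∀ n ∈ B, ∀ n' ∈ B, n < n' → n / G ≠ n' / G := by
      intro n hn n' hn' hlt h
      have b1 := Nat.div_add_mod n G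
      have b2 := Nat.div_add_mod n' G
      have b3 := Nat.mod_lt n' hG
      rw [h] at b1
      exact (mem_filter.1 hn).2.2 n' hlt (by omega) (mem_filter.1 hn').2.1
    refine card_le_card_of_injOn (fun n => n / G) (fun n hn => ?_) fun n hn n' hn' h => ?_
    · have := mem_range.1 (mem_filter.1 hn).1
      exact mem_coe.2 (mem_range.2 (Nat.lt_succ_of_le (Nat.div_le_div_right (by omega))))
    · rcases lt_trichotomy n n' with h1 | h1 | h1
      exacts [absurd h (key n hn n' hn' h1), h1, absurd h.symm (key n' hn' n hn h1)]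
  · refine card_le_card_of_injOn (fun n => n + 1) (fun n hn => ?_) fun n _ n' _ h => ?_
    · obtain ⟨h1, h2⟩ := mem_filter.1 hn
      exact mem_coe.2 (mem_filter.2 ⟨mem_range.2 (Nat.succ_lt_succ (mem_range.1 h1)), h2⟩)
    · simpa using h

theorem growth {γ : ℕ} (h : 40 ≤ γ) : 2 * (16 * (γ + 1)) ^ 4 ≤ 2 ^ γ := by
  induction γ, h using Nat.le_induction with
  | base => norm_num
  | succ γ h ih =>
    have h1 : (γ + 1 + 1) ^ 2 * 5 ≤ (γ + 1) ^ 2 * 7 := by nlinarith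
    have h2 := Nat.mul_le_mul h1 h1
    rw [pow_succ 2 γ]
    nlinarith

theorem bound_div {c L G X : ℕ} (hG : 1 ≤ G) (hX : 1 ≤ X) (hL : 1 ≤ L) (h : c * G ≤ L) :
    (c : ℝ) * (6 * (X + 1 : ℕ) / (L : ℝ)) ≤ 12 * (X / G) := by
  have hG0 : (0 : ℝ) < G := by exact_mod_cast hG
  have hL0 : (0 : ℝ) < L := by exact_mod_cast hL
  have h1 : c * (6 * (X + 1)) * G ≤ 12 * X * L :=
    calc _ = 6 * (X + 1) * (c * G) := by ring
      _ ≤ _ := Nat.mul_le_mul (by omega) h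
  rw [← mul_div_assoc, ← mul_div_assoc, div_le_div_iff₀ hL0 hG0]
  exact_mod_cast h1

theorem bound_omega {y Z G X N γ : ℕ} (hG : 2 ^ γ = G) (hy : y ≤ 2 * G) (hZ0 : 1 ≤ Z)
    (hZ : Z ≤ 2 * X) (hX : X < 2 ^ N) (hN : N + 2 ≤ G ^ 2) :
    (y : ℝ) * (Z * (1 + Real.log Z) / 4 ^ (2 * γ) + 2 * Z / 2 ^ (2 * γ)) ≤ 12 * (X / G) := by
  have hG0 : (0 : ℝ) < G := by exact_mod_cast hG ▸ Nat.two_pow_pos γ
  have h2 : (Z : ℝ) ≤ 2 * X := by exact_mod_cast hZ
  have h3 : (y : ℝ) ≤ 2 * G := by exact_mod_cast hy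
  have h4 : 1 + Real.log Z ≤ (G : ℝ) ^ 2 := by
    have c1 : (Z : ℝ) ≤ 2 ^ (N + 1) := by exact_mod_cast hZ.trans (by rw [pow_succ']; omega)
    have c2 := Real.log_le_log (by exact_mod_cast hZ0) c1
    rw [Real.log_pow] at c2
    have c3 : ((N + 1 : ℕ) : ℝ) + 1 ≤ (G : ℝ) ^ 2 := by exact_mod_cast hN
    have c4 := Real.log_two_lt_d9
    have c5 := mul_le_mul_of_nonneg_left (show Real.log 2 ≤ 1 by linarith)
      (Nat.cast_nonneg (α := ℝ) (N + 1))
    linarith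
  have e2 : (2 : ℝ) ^ γ = G := by exact_mod_cast hG
  have e3 : (2 : ℝ) ^ (2 * γ) = G ^ 2 := by rw [mul_comm, pow_mul, e2]
  have e4 : (4 : ℝ) ^ (2 * γ) = G ^ 2 * G ^ 2 := by
    rw [← e3, ← mul_pow]
    norm_num
  rw [e3, e4]
  calc _ ≤ 2 * G * (2 * X * (G : ℝ) ^ 2 / (G ^ 2 * G ^ 2) + 2 * (2 * X) / G ^ 2) := by
        have := Real.log_natCast_nonneg Z
        gcongr
    _ = _ := by
        field_simp
        ring

theorem poly1 {γ : ℕ} (h : 40 ≤ γ) :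
    ((γ + 1) * (8 * γ) * (36 * γ + 4) + 1) * (2 * (36 * (2 * γ) + 12)) ≤ (16 * γ) ^ 4 := by
  obtain ⟨t, rfl⟩ := Nat.exists_eq_add_of_le h
  ring_nf
  omega

theorem poly2 (γ : ℕ) : (γ + 1) * (8 * γ) * (36 * γ + 4) + 1 < (16 * (γ + 1)) ^ 4 := by
  ring_nf
  omega

theorem poly3 (γ : ℕ) : 100 * (γ + 1) ≤ (16 * (γ + 1)) ^ 4 := by
  ring_nf
  omega

theorem count_main {m : ℕ} {a : ℕ → ℕ} (hrec : ∀ n : ℕ, 2 ≤ n →
      a n = Int.natAbs ((a (n - 1) : ℤ) - ((Nat.gcd (a (n - 1)) (n * (n + 2 * m)) : ℕ) : ℤ)))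
    (hm : 1 ≤ m) {γ X : ℕ} (hγ : 40 ≤ γ) (hmγ : 2 * m ≤ 2 ^ γ) (hX1 : 2 ^ (16 * γ) ^ 4 ≤ X)
    (hX2 : X < 2 ^ (16 * (γ + 1)) ^ 4) :
    (((range (X + 1)).filter fun n => a n = 0).card : ℝ) ≤ 40 * (X / 2 ^ γ) := by
  have hgr := growth hγ
  have p1 := poly1 hγ
  have p2 := poly2 γ
  have p3 := poly3 γ
  generalize (16 * (γ + 1)) ^ 4 = N at hX2 hgr p2 p3
  generalize (16 * γ) ^ 4 = N' at hX1 p1
  obtain ⟨G, hGd⟩ : ∃ G, 2 ^ γ = G := ⟨_, rfl⟩
  obtain ⟨L, hLd⟩ : ∃ L, (2 * m + G) ^ (4 * (2 * γ)) = L := ⟨_, rfl⟩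
  obtain ⟨S, hSd⟩ : ∃ S, S = L ^ (18 * (2 * γ) + 4) := ⟨_, rfl⟩
  rw [hGd] at hgr hmγ
  have hy4 : (2 * m + G) ^ 4 ≤ L := hLd ▸ Nat.pow_le_pow_right (by omega) (by omega)
  have hG4 : (G + 1) ^ 4 ≤ L := (Nat.pow_le_pow_left (by omega) 4).trans hy4
  have hG2 : (G + 1) * (G + 1) ≤ L :=
    (sq (G + 1)).ge.trans ((Nat.pow_le_pow_right (by omega) (by omega)).trans hG4)
  have hG1 : G + 1 ≤ L := (Nat.le_mul_self _).trans hG2
  have hLS : L ≤ S := hSd ▸ Nat.le_self_pow (by omega) _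
  have hL2 : L ≤ 2 ^ ((γ + 1) * (8 * γ)) := by
    rw [← hLd, pow_mul 2, pow_succ 2 γ, hGd, show 4 * (2 * γ) = 8 * γ by ring]
    exact Nat.pow_le_pow_left (by omega) _
  have hS3 : 2 * S ≤ 2 ^ ((γ + 1) * (8 * γ) * (36 * γ + 4) + 1) := by
    rw [pow_succ', pow_mul, hSd, show 18 * (2 * γ) + 4 = 36 * γ + 4 by ring]
    exact Nat.mul_le_mul_left _ (Nat.pow_le_pow_left hL2 _)
  generalize (γ + 1) * (8 * γ) * (36 * γ + 4) + 1 = N'' at hS3 p1 p2
  have hX3 : (2 * S * (2 * S)) ^ (36 * (2 * γ) + 12) ≤ X := by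
    refine le_trans ?_ hX1
    rw [← sq, ← pow_mul]
    refine (Nat.pow_le_pow_left hS3 _).trans ?_
    rw [← pow_mul]
    exact Nat.pow_le_pow_right two_pos p1
  have hd := count_drop (X := X + 1) (k := 2 * γ) hLd hSd hm (by omega)
    ((Nat.mul_le_mul_right _ (Nat.le_succ G)).trans hG2) (by omega)
    (le_trans (by rw [add_comm]; exact Nat.pow_le_pow_right (by omega) (by omega)) (hy4.trans hLS))
    (hS3.trans_lt (Nat.pow_lt_pow_right one_lt_two (by omega)))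
    (by rw [two_mul γ, pow_add, hGd]; exact Nat.mul_le_mul_left _ (by omega))
    (hX3.trans (Nat.le_succ X))
  have hz := count_zeros hrec (G := G) (by omega) S X
  have hSX : 2 * S * (2 * S) ≤ X := (Nat.le_self_pow (by omega) _).trans hX3
  have hSX' : 2 * S ≤ X := (Nat.le_mul_self _).trans hSX
  have hG0 : (0 : ℝ) < G := by exact_mod_cast (show 0 < G by omega)
  have b1 : ((S + 1 + (X / G + 1) : ℕ) : ℝ) ≤ 2 * (X / G) := by
    have h0 : (S + 2) * G ≤ X := (Nat.mul_le_mul (by omega) (by omega)).trans hSX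
    have h1 : ((S : ℝ) + 2) * G ≤ X := by exact_mod_cast h0
    have h2 : ((X / G : ℕ) : ℝ) ≤ X / G := Nat.cast_div_le
    have h3 := (le_div_iff₀ hG0).2 h1
    push_cast
    linarith
  have b2 := bound_omega (y := 2 * m + G) (Z := X + 1 + (2 * m + G)) hGd (by omega) (by omega)
    (by omega) hX2 (le_trans (by omega) (Nat.le_self_pow two_ne_zero G))
  have b3 := bound_div (c := (2 * γ + 1) * (G + 1)) (L := L) (G := G) (X := X) (by omega)
    (by omega) (by omega) (by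
      calc _ ≤ (G + 1) * (G + 1) * ((G + 1) * (G + 1)) :=
            Nat.mul_le_mul (Nat.mul_le_mul_right _ (by omega))
              ((Nat.le_succ G).trans (Nat.le_mul_self _))
        _ = _ := by ring
        _ ≤ L := hG4)
  have b4 := bound_div (c := (2 * γ + 1) * ((G + 1) * ((G + 1) * (S + 1))))
    (L := L ^ (18 * (2 * γ) + 6)) (G := G) (X := X) (by omega) (by omega)
    (Nat.one_le_pow _ _ (by omega)) (by
      have h1 : S + 1 ≤ L * S := le_trans (by omega) (Nat.mul_le_mul_right S (show 2 ≤ L by omega))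
      calc _ ≤ (G + 1) * ((G + 1) * ((G + 1) * (L * S))) * (G + 1) :=
            Nat.mul_le_mul (Nat.mul_le_mul (by omega)
              (Nat.mul_le_mul_left _ (Nat.mul_le_mul_left _ h1))) (Nat.le_succ G)
        _ = (G + 1) ^ 4 * (L * S) := by ring
        _ ≤ L * (L * S) := Nat.mul_le_mul_right _ hG4
        _ = _ := by rw [hSd]; ring)
  have b5 : (0 : ℝ) ≤ X / G := by positivity
  have e2 : (2 : ℝ) ^ γ = G := by exact_mod_cast hGd
  rw [pow_one] at hd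
  rw [Nat.cast_pow L] at b4
  rw [e2]
  refine (Nat.cast_le.2 hz).trans ?_
  rw [Nat.cast_add]
  linarith

end Pool.Agent.Lib.MP_9227d9_nt.H66
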