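import Pool.Agent.Lib.MP_9227d9_nt.H66Tools

/-! The orbit that follows a zero at time `x - 1`. -/

open Finset
open scoped ArithmeticFunction.Omega

namespace Pool.Agent.Lib.MP_9227d9_nt.H66

def PP (m n : ℕ) : ℕ := n * (n + 2 * m)

/-- The sum of the first `j` gcds after the value `PP m x` at time `x`. -/
def sg (m x : ℕ) : ℕ → ℕ
  | 0 => 0
  | j + 1 => sg m x j + Nat.gcd ((PP m x : ℤ) - sg m x j).natAbs (PP m (x + j + 1))

def bb (m x j : ℕ) : ℕ := ((PP m x : ℤ) - sg m x j).natAbs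

def gg (m x j : ℕ) : ℕ := Nat.gcd (bb m x j) (PP m (x + j + 1))

theorem sg_succ (m x j : ℕ) : sg m x (j + 1) = sg m x j + gg m x j := rfl

theorem sg_eq_sum (m x : ℕ) {i j : ℕ} (h : i ≤ j) :
    sg m x j = sg m x i + ∑ k ∈ Ico i j, gg m x k := by
  induction j, h using Nat.le_induction with
  | base => simp
  | succ j h ih => rw [sg_succ, ih, sum_Ico_succ_top h, add_assoc]

theorem sg_mono (m x : ℕ) {i j : ℕ} (h : i ≤ j) : sg m x i ≤ sg m x j := by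
  rw [sg_eq_sum m x h]
  omega

theorem gg_pos (m x j : ℕ) : 0 < gg m x j :=
  Nat.gcd_pos_of_pos_right _ (Nat.mul_pos (by omega) (by omega))

theorem PP_mod (m n : ℕ) : PP m n % 2 = n % 2 := by
  rcases Nat.mod_two_eq_zero_or_one n with h | h <;>
    simp [PP, Nat.mul_mod, Nat.add_mod, h]

theorem sg_mod (m x j : ℕ) : sg m x j % 2 = j % 2 := by
  induction j with
  | zero => rfl
  | succ j ih =>
    have : ¬ 2 ∣ gg m x j := fun h => by
      have h1 : 2 ∣ bb m x j := h.trans (Nat.gcd_dvd_left _ _)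
      have h2 : 2 ∣ PP m (x + j + 1) := h.trans (Nat.gcd_dvd_right _ _)
      have h3 := PP_mod m x
      have h4 := PP_mod m (x + j + 1)
      unfold bb at h1
      omega
    rw [sg_succ]
    omega

def D1 (m j s : ℕ) : ℤ := ((j : ℤ) + 1) ^ 2 - 2 * m * (j + 1) - s

def D2 (m j s : ℕ) : ℤ := ((j : ℤ) + 1) ^ 2 + 2 * m * (j + 1) - s

theorem sq_parity (j : ℕ) : ∃ t : ℤ, ((j : ℤ) + 1) ^ 2 = 2 * t + (j + 1) := by
  obtain ⟨t, ht⟩ := Int.even_mul_succ_self (j : ℤ)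
  exact ⟨t, by linarith⟩

theorem D1_ne (m x j : ℕ) : (D1 m j (sg m x j)).natAbs ≠ 0 := by
  obtain ⟨t, ht⟩ := sq_parity j
  have := sg_mod m x j
  rw [D1, ht, mul_assoc]
  omega

theorem D2_ne (m x j : ℕ) : (D2 m j (sg m x j)).natAbs ≠ 0 := by
  obtain ⟨t, ht⟩ := sq_parity j
  have := sg_mod m x j
  rw [D2, ht, mul_assoc]
  omega

theorem D_le {m j s G S : ℕ} (hj : j < G) (hs : s ≤ S) (hS : (G + 2 * m) ^ 2 ≤ S) :
    (D1 m j s).natAbs ≤ 2 * S ∧ (D2 m j s).natAbs ≤ 2 * S := by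
  have h1 : (j + 1) ^ 2 + 2 * m * (j + 1) ≤ S := by nlinarith
  have h2 : D1 m j s = (((j + 1) ^ 2 : ℕ) : ℤ) - ((2 * m * (j + 1) : ℕ) : ℤ) - s := by
    simp [D1]
  have h3 : D2 m j s = (((j + 1) ^ 2 : ℕ) : ℤ) + ((2 * m * (j + 1) : ℕ) : ℤ) - s := by
    simp [D2]
  omega

theorem exists_rough' (y n : ℕ) : ∃ R, 1 ≤ y → n ≠ 0 →
    ∃ c, n = R * c ∧ (∀ p, p.Prime → p ∣ R → y < p) ∧ c ≤ y ^ Ω n := by
  by_cases hy : 1 ≤ y
  · obtain ⟨R, h⟩ := exists_rough y hy n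
    exact ⟨R, fun _ => h⟩
  · exact ⟨1, fun h => absurd h hy⟩

/-- The part of `n` made of primes above `y`. -/
noncomputable def rough (y n : ℕ) : ℕ := Classical.choose (exists_rough' y n)

theorem rough_spec {y n : ℕ} (hy : 1 ≤ y) (hn : n ≠ 0) :
    ∃ c, n = rough y n * c ∧ (∀ p, p.Prime → p ∣ rough y n → y < p) ∧ c ≤ y ^ Ω n :=
  Classical.choose_spec (exists_rough' y n) hy hn

theorem rough_dvd {y n : ℕ} (hy : 1 ≤ y) (hn : n ≠ 0) : rough y n ∣ n := by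
  obtain ⟨c, h, -⟩ := rough_spec hy hn
  exact ⟨c, h⟩

theorem rough_coprime {y n n' : ℕ} (hn : n ≠ 0) (h : n < n') (h' : n' ≤ n + y) :
    (rough y n).Coprime (rough y n') := by
  have hy : 1 ≤ y := by omega
  refine Nat.coprime_of_dvd fun p hp h1 h2 => ?_
  obtain ⟨c, -, h3, -⟩ := rough_spec hy hn
  have h4 := h3 p hp h1
  have h5 := Nat.le_of_dvd (by omega)
    (Nat.dvd_sub (h2.trans (rough_dvd hy (by omega))) (h1.trans (rough_dvd hy hn)))
  omega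

noncomputable def r1 (m y x j : ℕ) : ℕ := Nat.gcd (bb m x j) (rough y (x + j + 1))

noncomputable def r2 (m y x j : ℕ) : ℕ := Nat.gcd (bb m x j) (rough y (x + (j + 2 * m) + 1))

theorem r1_dvd_rough (m y x j : ℕ) : r1 m y x j ∣ rough y (x + j + 1) := Nat.gcd_dvd_right _ _

theorem r2_dvd_rough (m y x j : ℕ) : r2 m y x j ∣ rough y (x + (j + 2 * m) + 1) :=
  Nat.gcd_dvd_right _ _

theorem r1_dvd_D {y : ℕ} (hy : 1 ≤ y) (m x j : ℕ) : r1 m y x j ∣ (D1 m j (sg m x j)).natAbs := by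
  have h1 : (r1 m y x j : ℤ) ∣ (PP m x : ℤ) - sg m x j :=
    Int.natCast_dvd.2 (Nat.gcd_dvd_left _ _)
  have h2 : (r1 m y x j : ℤ) ∣ ((x + j + 1 : ℕ) : ℤ) :=
    Int.natCast_dvd_natCast.2 ((r1_dvd_rough m y x j).trans (rough_dvd hy (by omega)))
  have e : D1 m j (sg m x j) = (PP m x : ℤ) - sg m x j -
      ((x + j + 1 : ℕ) : ℤ) * (x - (j + 1) + 2 * m) := by
    simp only [D1, PP]
    push_cast
    ring
  rw [← Int.natCast_dvd, e]
  exact h1.sub (h2.mul_right _)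

theorem r2_dvd_D {y : ℕ} (hy : 1 ≤ y) (m x j : ℕ) : r2 m y x j ∣ (D2 m j (sg m x j)).natAbs := by
  have h1 : (r2 m y x j : ℤ) ∣ (PP m x : ℤ) - sg m x j :=
    Int.natCast_dvd.2 (Nat.gcd_dvd_left _ _)
  have h2 : (r2 m y x j : ℤ) ∣ ((x + (j + 2 * m) + 1 : ℕ) : ℤ) :=
    Int.natCast_dvd_natCast.2 ((r2_dvd_rough m y x j).trans (rough_dvd hy (by omega)))
  have e : D2 m j (sg m x j) = (PP m x : ℤ) - sg m x j -
      ((x + (j + 2 * m) + 1 : ℕ) : ℤ) * (x - (j + 1)) := by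
    simp only [D2, PP]
    push_cast
    ring
  rw [← Int.natCast_dvd, e]
  exact h1.sub (h2.mul_right _)

theorem r_mul_dvd {m y : ℕ} (hm : 1 ≤ m) (hy : 2 * m ≤ y) (x j : ℕ) :
    r1 m y x j * r2 m y x j ∣ gg m x j := by
  have hy1 : 1 ≤ y := by omega
  have hc : (r1 m y x j).Coprime (r2 m y x j) :=
    ((rough_coprime (y := y) (n := x + j + 1) (n' := x + (j + 2 * m) + 1) (by omega) (by omega)
      (by omega)).coprime_dvd_left (r1_dvd_rough m y x j)).coprime_dvd_right (r2_dvd_rough m y x j)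
  refine Nat.dvd_gcd (hc.mul_dvd_of_dvd_of_dvd (Nat.gcd_dvd_left _ _) (Nat.gcd_dvd_left _ _)) ?_
  rw [PP, show x + j + 1 + 2 * m = x + (j + 2 * m) + 1 by ring]
  exact Nat.mul_dvd_mul ((r1_dvd_rough m y x j).trans (rough_dvd hy1 (by omega)))
    ((r2_dvd_rough m y x j).trans (rough_dvd hy1 (by omega)))

theorem gcd_le_rough {y n K : ℕ} (hy : 1 ≤ y) (hn : n ≠ 0) (hK : Ω n ≤ K) (b : ℕ) :
    Nat.gcd b n ≤ Nat.gcd b (rough y n) * y ^ K := by
  obtain ⟨c, h1, -, h3⟩ := rough_spec hy hn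
  have hc : 0 < c := Nat.pos_of_ne_zero (by rintro rfl; exact hn h1)
  have hr : 0 < rough y n := Nat.pos_of_dvd_of_pos (rough_dvd hy hn) (Nat.pos_of_ne_zero hn)
  calc Nat.gcd b n = Nat.gcd b (rough y n * c) := by rw [← h1]
    _ ≤ Nat.gcd b (rough y n) * Nat.gcd b c := Nat.le_of_dvd
        (Nat.mul_pos (Nat.gcd_pos_of_pos_right _ hr) (Nat.gcd_pos_of_pos_right _ hc))
        (Nat.gcd_mul_right_dvd_mul_gcd _ _ _)
    _ ≤ _ := Nat.mul_le_mul_left _ ((Nat.gcd_le_right _ hc).trans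
        (h3.trans (Nat.pow_le_pow_right hy hK)))

theorem gg_le {m y x j K : ℕ} (hy : 1 ≤ y) (h1 : Ω (x + j + 1) ≤ K)
    (h2 : Ω (x + (j + 2 * m) + 1) ≤ K) :
    gg m x j ≤ r1 m y x j * r2 m y x j * (y ^ K) ^ 2 := by
  calc gg m x j ≤ Nat.gcd (bb m x j) (x + j + 1) * Nat.gcd (bb m x j) (x + (j + 2 * m) + 1) := by
        rw [gg, PP, show x + j + 1 + 2 * m = x + (j + 2 * m) + 1 by ring]
        exact Nat.le_of_dvd (Nat.mul_pos (Nat.gcd_pos_of_pos_right _ (by omega))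
          (Nat.gcd_pos_of_pos_right _ (by omega))) (Nat.gcd_mul_right_dvd_mul_gcd _ _ _)
    _ ≤ (r1 m y x j * y ^ K) * (r2 m y x j * y ^ K) :=
        Nat.mul_le_mul (gcd_le_rough hy (by omega) h1 _) (gcd_le_rough hy (by omega) h2 _)
    _ = _ := by ring

/-- The link with the actual sequence. -/
theorem orbit_link {m : ℕ} {a : ℕ → ℕ} (hrec : ∀ n : ℕ, 2 ≤ n →
      a n = Int.natAbs ((a (n - 1) : ℤ) - ((Nat.gcd (a (n - 1)) (n * (n + 2 * m)) : ℕ) : ℤ)))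
    {n : ℕ} (hn : 1 ≤ n) (h : a n = 0) (j : ℕ) :
    a (n + 1 + j) + sg m (n + 1) j = PP m (n + 1) ∨ PP m (n + 1) ≤ sg m (n + 1) j := by
  induction j with
  | zero =>
    have h1 := hrec (n + 1) (by omega)
    rw [Nat.add_sub_cancel, h, Nat.gcd_zero_left] at h1
    left
    simp only [sg, PP, add_zero]
    omega
  | succ j ih =>
    rw [sg_succ]
    rcases ih with ih | ih
    · rcases Nat.eq_zero_or_pos (a (n + 1 + j)) with h0 | h0
      · omega
      · have h1 := hrec (n + 1 + j + 1) (by omega)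
        rw [Nat.add_sub_cancel] at h1
        have h2 : bb m (n + 1) j = a (n + 1 + j) := by
          unfold bb
          omega
        have h3 : gg m (n + 1) j ≤ a (n + 1 + j) := by
          rw [gg, h2]
          exact Nat.gcd_le_left _ h0
        have h4 : gg m (n + 1) j =
            Nat.gcd (a (n + 1 + j)) ((n + 1 + j + 1) * (n + 1 + j + 1 + 2 * m)) := by
          rw [gg, h2, PP]
        rw [← h4] at h1
        rw [show n + 1 + (j + 1) = n + 1 + j + 1 from rfl]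
        omega
    · omega

end Pool.Agent.Lib.MP_9227d9_nt.H66
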