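import Mathlib

/-! Counting tools for the zero count of the gcd recursion. -/

open Finset
open scoped ArithmeticFunction.Omega ArithmeticFunction.omega ArithmeticFunction.sigma

namespace Pool.Agent.Lib.MP_9227d9_nt.H66

/-- Weights that are built step by step from sub-probabilities have bounded total mass. -/
theorem tree {E : Type*} [DecidableEq E] (e0 : E) (β : ℕ → (ℕ → E) → ℝ) (ρ : ℝ) (hρ : 0 ≤ ρ)
    (hβ0 : ∀ j e, 0 ≤ β j e)
    (hdep : ∀ j e e', (∀ i ≤ j, e i = e' i) → β j e = β j e')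
    (hsum : ∀ j e (V : Finset E), ∑ v ∈ V, β j (Function.update e j v) ≤ ρ) (n : ℕ) :
    ∀ C : Finset (ℕ → E), (∀ e ∈ C, ∀ i, n ≤ i → e i = e0) →
      ∑ e ∈ C, ∏ j ∈ range n, β j e ≤ ρ ^ n := by
  classical
  induction n with
  | zero =>
    intro C hC
    have : C.card ≤ 1 := card_le_one.2 fun a ha b hb =>
      funext fun i => by rw [hC a ha i (Nat.zero_le _), hC b hb i (Nat.zero_le _)]
    simpa using this
  | succ n ih =>
    intro C hC
    let τ : (ℕ → E) → ℕ → E := fun e => Function.update e n e0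
    have h1 := ih (C.image τ) (by
      intro e he i hi
      obtain ⟨e', he', rfl⟩ := mem_image.1 he
      rcases hi.eq_or_lt with rfl | hi
      · simp [τ]
      · simp only [τ]
        rw [Function.update_of_ne hi.ne', hC e' he' i hi])
    rw [← sum_fiberwise_of_maps_to (g := τ) (t := C.image τ) fun e he => mem_image_of_mem τ he]
    calc ∑ e' ∈ C.image τ, ∑ e ∈ C with τ e = e', ∏ j ∈ range (n + 1), β j e
        ≤ ∑ e' ∈ C.image τ, (∏ j ∈ range n, β j e') * ρ := by
          refine sum_le_sum fun e' _ => ?_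
          have hup : ∀ e ∈ C.filter (fun e => τ e = e'), Function.update e' n (e n) = e := by
            intro e he
            rw [← (mem_filter.1 he).2]
            simp [τ]
          have h2 : ∑ e ∈ C with τ e = e', ∏ j ∈ range (n + 1), β j e =
              (∏ j ∈ range n, β j e') *
                ∑ e ∈ C with τ e = e', β n (Function.update e' n (e n)) := by
            rw [mul_sum]
            refine sum_congr rfl fun e he => ?_
            rw [prod_range_succ, hup e he]
            congr 1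
            refine prod_congr rfl fun j hj => hdep _ _ _ fun i hi => ?_
            rw [← hup e he, Function.update_of_ne (by have := mem_range.1 hj; omega)]
          rw [h2]
          refine mul_le_mul_of_nonneg_left ?_ (prod_nonneg fun j _ => hβ0 _ _)
          rw [← sum_image (s := C.filter (fun e => τ e = e')) (g := fun e => e n)
            (f := fun v => β n (Function.update e' n v))]
          · exact hsum _ _ _
          · intro a ha b hb hab
            rw [← hup a ha, ← hup b hb]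
            exact congrArg _ hab
      _ ≤ ρ ^ (n + 1) := by
          rw [← sum_mul, pow_succ]
          exact mul_le_mul_of_nonneg_right h1 hρ

/-- Pairwise congruent numbers in an interval. -/
theorem card_le_of_dvd_sub (T : Finset ℕ) (B H d : ℕ) (hd : 0 < d)
    (h1 : ∀ s ∈ T, B ≤ s ∧ s ≤ B + H) (h2 : ∀ s ∈ T, ∀ s' ∈ T, (d : ℤ) ∣ (s : ℤ) - s') :
    (T.card : ℝ) ≤ H / d + 1 := by
  have h3 : T.card ≤ (range (H / d + 1)).card := by
    refine card_le_card_of_injOn (fun s => (s - B) / d) (fun s hs => ?_) fun s hs s' hs' h => ?_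
    · have := h1 s hs
      exact mem_coe.2 (mem_range.2 (Nat.lt_succ_of_le (Nat.div_le_div_right (by omega))))
    · have a1 := h1 s hs
      have a2 := h1 s' hs'
      have b1 := Nat.div_add_mod (s - B) d
      have b2 := Nat.div_add_mod (s' - B) d
      have c1 := Nat.mod_lt (s - B) hd
      have c2 := Nat.mod_lt (s' - B) hd
      simp only at h
      rw [h] at b1
      have h4 := Int.eq_zero_of_abs_lt_dvd (h2 s hs s' hs') (by rw [abs_lt]; omega)
      omega
  rw [card_range] at h3
  calc (T.card : ℝ) ≤ ((H / d + 1 : ℕ) : ℝ) := by exact_mod_cast h3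
    _ ≤ H / d + 1 := by
      push_cast
      linarith [Nat.cast_div_le (α := ℝ) (m := H) (n := d)]

theorem two_pow_omega_le {D : ℕ} (hD : D ≠ 0) : 2 ^ D.primeFactors.card ≤ D :=
  (pow_card_le_prod _ _ _ fun _ hp => (Nat.prime_of_mem_primeFactors hp).two_le).trans
    (Nat.le_of_dvd (Nat.pos_of_ne_zero hD) (Nat.prod_primeFactors_dvd D))

/-- The divisors of `D` with at most `K` prime factors. -/
def fewDiv (D K : ℕ) : Finset ℕ := D.divisors.filter fun r => Ω r ≤ K

theorem card_fewDiv_aux (D K : ℕ) : (fewDiv D K).card ≤ (D.primeFactors.card + 1) ^ K := by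
  induction K with
  | zero =>
    refine (card_le_card (t := {1}) fun r hr => ?_).trans (by simp)
    obtain ⟨h1, h2⟩ := mem_filter.1 hr
    have h3 := ArithmeticFunction.cardFactors_eq_zero_iff_eq_zero_or_one.1 (Nat.le_zero.1 h2)
    have h4 := Nat.pos_of_mem_divisors h1
    simp only [mem_singleton]
    omega
  | succ K ih =>
    have : fewDiv D (K + 1) ⊆ image₂ (· * ·) (insert 1 D.primeFactors) (fewDiv D K) := by
      intro r hr
      obtain ⟨h1, h2⟩ := mem_filter.1 hr
      have h4 := Nat.pos_of_mem_divisors h1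
      obtain ⟨h5, h6⟩ := Nat.mem_divisors.1 h1
      by_cases h : r = 1
      · exact mem_image₂.2 ⟨1, mem_insert_self _ _, 1,
          mem_filter.2 ⟨Nat.one_mem_divisors.2 h6, by simp⟩, by simp [h]⟩
      · obtain ⟨p, hp, c, rfl⟩ := Nat.exists_prime_and_dvd h
        have hc : c ≠ 0 := by rintro rfl; simp at h4
        rw [ArithmeticFunction.cardFactors_mul hp.ne_zero hc,
          ArithmeticFunction.cardFactors_apply_prime hp] at h2
        exact mem_image₂.2 ⟨p, mem_insert_of_mem (Nat.mem_primeFactors.2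
          ⟨hp, (dvd_mul_right p c).trans h5, h6⟩), c, mem_filter.2 ⟨Nat.mem_divisors.2
            ⟨(dvd_mul_left c p).trans h5, h6⟩, by omega⟩, rfl⟩
    refine (card_le_card this).trans ((card_image₂_le _ _ _).trans ?_)
    rw [pow_succ']
    exact Nat.mul_le_mul (card_insert_le _ _) ih

theorem card_fewDiv {D y : ℕ} (K : ℕ) (hD : D < 2 ^ y) (hy : 1 ≤ y) :
    (fewDiv D K).card ≤ y ^ K := by
  refine (card_fewDiv_aux D K).trans (Nat.pow_le_pow_left ?_ K)
  rcases eq_or_ne D 0 with rfl | h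
  · simpa using hy
  · exact (pow_lt_pow_iff_right₀ one_lt_two).1 ((two_pow_omega_le h).trans_lt hD)

theorem exists_rough (y : ℕ) (hy : 1 ≤ y) (n : ℕ) : ∃ R, n ≠ 0 →
    ∃ c, n = R * c ∧ (∀ p, p.Prime → p ∣ R → y < p) ∧ c ≤ y ^ Ω n := by
  induction n using induction_on_primes with
  | zero => exact ⟨1, fun h => absurd rfl h⟩
  | one => exact ⟨1, fun _ => ⟨1, rfl, fun p hp h => absurd (Nat.dvd_one.1 h) hp.ne_one, by simp⟩⟩
  | prime_mul p a hp ih =>
    rcases eq_or_ne a 0 with rfl | ha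
    · exact ⟨1, fun h => absurd (mul_zero p) h⟩
    obtain ⟨R, h⟩ := ih
    obtain ⟨c, h1, h2, h3⟩ := h ha
    have e : Ω (p * a) = Ω a + 1 := by
      rw [ArithmeticFunction.cardFactors_mul hp.ne_zero ha,
        ArithmeticFunction.cardFactors_apply_prime hp, add_comm]
    by_cases hpy : y < p
    · refine ⟨p * R, fun _ => ⟨c, by rw [mul_assoc, ← h1], fun q hq hd => ?_, ?_⟩⟩
      · rcases (Nat.Prime.dvd_mul hq).1 hd with h4 | h4
        · rwa [(Nat.prime_dvd_prime_iff_eq hq hp).1 h4]
        · exact h2 q hq h4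
      · exact h3.trans (Nat.pow_le_pow_right hy (by omega))
    · refine ⟨R, fun _ => ⟨c * p, by rw [← mul_assoc, ← h1, mul_comm], h2, ?_⟩⟩
      rw [e, pow_succ]
      exact Nat.mul_le_mul h3 (not_lt.1 hpy)

theorem omega_le_of_dvd {a b : ℕ} (h : a ∣ b) (hb : b ≠ 0) : Ω a ≤ Ω b := by
  obtain ⟨c, rfl⟩ := h
  rw [ArithmeticFunction.cardFactors_mul (left_ne_zero_of_mul hb) (right_ne_zero_of_mul hb)]
  omega

theorem two_pow_cardFactors_le {b : ℕ} (hb : b ≠ 0) : 2 ^ Ω b ≤ b := by
  conv_rhs => rw [← Nat.prod_primeFactorsList hb]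
  rw [ArithmeticFunction.cardFactors_apply]
  exact List.pow_card_le_prod _ _ fun p hp => (Nat.prime_of_mem_primeFactorsList hp).two_le

theorem two_pow_omega_le_sigma {n : ℕ} (hn : n ≠ 0) : 2 ^ n.primeFactors.card ≤ σ 0 n := by
  rw [ArithmeticFunction.sigma_zero_apply, Nat.card_divisors hn]
  refine pow_card_le_prod _ _ _ fun p hp => ?_
  obtain ⟨h1, h2, -⟩ := Nat.mem_primeFactors.1 hp
  have := h1.factorization_pos_of_dvd hn h2
  omega

/-- Few integers have many prime factors. -/
theorem card_many_factors (Z κ : ℕ) :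
    (((Ioc 0 Z).filter fun n => 4 * κ < Ω n).card : ℝ) ≤
      Z * (1 + Real.log Z) / 4 ^ κ + 2 * Z / 2 ^ κ := by
  have hsub : ((Ioc 0 Z).filter fun n => 4 * κ < Ω n) ⊆
      ((Ioc 0 Z).filter fun n => 4 ^ κ ≤ σ 0 n) ∪
        (Ioo (2 ^ κ) (Z + 1)).biUnion fun b => (Ioc 0 Z).filter fun n => b ^ 2 ∣ n := by
    intro n hn
    obtain ⟨h1, h2⟩ := mem_filter.1 hn
    have hn0 : n ≠ 0 := (mem_Ioc.1 h1).1.ne'
    obtain ⟨a, b, hab, hsq⟩ := Nat.sq_mul_squarefree n
    have ha : a ≠ 0 := hsq.ne_zero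
    have hb : b ≠ 0 := by rintro rfl; simp at hab; omega
    rw [← hab, ArithmeticFunction.cardFactors_mul (pow_ne_zero 2 hb) ha,
      ArithmeticFunction.cardFactors_pow] at h2
    by_cases h : κ < Ω b
    · refine mem_union_right _ (mem_biUnion.2 ⟨b, mem_Ioo.2 ⟨?_, ?_⟩,
        mem_filter.2 ⟨h1, hab ▸ dvd_mul_right _ _⟩⟩)
      · exact (Nat.pow_lt_pow_right one_lt_two h).trans_le (two_pow_cardFactors_le hb)
      · have : b ≤ n := Nat.le_of_dvd (Nat.pos_of_ne_zero hn0)
          (hab ▸ (dvd_pow_self b two_ne_zero).trans (dvd_mul_right _ _))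
        have := (mem_Ioc.1 h1).2
        omega
    · refine mem_union_left _ (mem_filter.2 ⟨h1, ?_⟩)
      have h3 := (ArithmeticFunction.cardDistinctFactors_eq_cardFactors_iff_squarefree ha).2 hsq
      have h4 : a.primeFactors.card ≤ n.primeFactors.card :=
        card_le_card (Nat.primeFactors_mono (hab ▸ dvd_mul_left _ _) hn0)
      have h5 : ω a = a.primeFactors.card := by
        rw [ArithmeticFunction.cardDistinctFactors_apply, ← Nat.toFinset_factors,
          List.card_toFinset]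
      calc 4 ^ κ = 2 ^ (2 * κ) := by rw [pow_mul]; norm_num
        _ ≤ 2 ^ n.primeFactors.card := Nat.pow_le_pow_right two_pos (by omega)
        _ ≤ _ := two_pow_omega_le_sigma hn0
  have h1 : (((Ioc 0 Z).filter fun n => 4 ^ κ ≤ σ 0 n).card : ℝ) ≤
      Z * (1 + Real.log Z) / 4 ^ κ := by
    rw [le_div_iff₀ (by positivity)]
    have a1 : ((Ioc 0 Z).filter fun n => 4 ^ κ ≤ σ 0 n).card * 4 ^ κ ≤ ∑ n ∈ Ioc 0 Z, σ 0 n := by
      refine le_trans ?_ (sum_le_sum_of_subset (filter_subset (fun n => 4 ^ κ ≤ σ 0 n) _))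
      exact card_nsmul_le_sum _ _ _ fun n hn => (mem_filter.1 hn).2
    rw [ArithmeticFunction.sum_Ioc_sigma0_eq_sum_div] at a1
    have a2 : ((∑ n ∈ Ioc 0 Z, Z / n : ℕ) : ℝ) ≤ Z * (harmonic Z : ℝ) := by
      rw [harmonic_eq_sum_Icc, ← Icc_succ_left_eq_Ioc]
      push_cast
      rw [mul_sum]
      exact sum_le_sum fun n _ => Nat.cast_div_le.trans (div_eq_mul_inv _ _).le
    calc _ ≤ ((∑ n ∈ Ioc 0 Z, Z / n : ℕ) : ℝ) := by exact_mod_cast a1
      _ ≤ _ := a2.trans (mul_le_mul_of_nonneg_left (harmonic_le_one_add_log Z) (by positivity))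
  have h2 : (((Ioo (2 ^ κ) (Z + 1)).biUnion
      fun b => (Ioc 0 Z).filter fun n => b ^ 2 ∣ n).card : ℝ) ≤ 2 * Z / 2 ^ κ := by
    calc _ ≤ ((∑ b ∈ Ioo (2 ^ κ) (Z + 1), ((Ioc 0 Z).filter fun n => b ^ 2 ∣ n).card : ℕ) : ℝ) := by
          exact_mod_cast card_biUnion_le
      _ ≤ ∑ b ∈ Ioo (2 ^ κ) (Z + 1), (Z : ℝ) * ((b : ℝ) ^ 2)⁻¹ := by
          push_cast
          refine sum_le_sum fun b _ => ?_
          rw [Nat.Ioc_filter_dvd_card_eq_div]
          refine Nat.cast_div_le.trans ?_
          push_cast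
          exact (div_eq_mul_inv _ _).le
      _ ≤ Z * (2 / (((2 ^ κ : ℕ) : ℝ) + 1)) := by
          rw [← mul_sum]
          exact mul_le_mul_of_nonneg_left (sum_Ioo_inv_sq_le _ _) (by positivity)
      _ ≤ 2 * Z / 2 ^ κ := by
          push_cast
          rw [← mul_div_assoc, mul_comm]
          gcongr
          linarith
  refine (Nat.cast_le.2 ((card_le_card hsub).trans (card_union_le _ _))).trans ?_
  rw [Nat.cast_add]
  exact add_le_add h1 h2

end Pool.Agent.Lib.MP_9227d9_nt.H66
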