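import Pool.Agent.Lib.MP_9227d9_nt.H66Orbit

/-! Descriptions of the large steps of an orbit and their weights. -/

open Finset
open scoped ArithmeticFunction.Omega

namespace Pool.Agent.Lib.MP_9227d9_nt.H66

abbrev EE := ℕ × ℕ × ℕ × ℕ

def e0 : EE := (0, 1, 1, 0)

def gE (v : EE) : ℕ := v.2.1 * v.2.2.1 * v.2.2.2

def prev (m : ℕ) (e : ℕ → EE) (j : ℕ) : ℕ := if 2 * m ≤ j then (e (j - 2 * m)).2.2.1 else 1

def dd (m : ℕ) (e : ℕ → EE) (j : ℕ) : ℕ := Nat.gcd (e j).2.1 (prev m e j)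

def Valid (m y K H j p B : ℕ) (v : EE) : Prop :=
  p < 2 ^ y ∧ Nat.gcd v.2.1 p ∈ fewDiv p K ∧ B ≤ v.1 ∧ v.1 ≤ B + H ∧
    (D1 m j v.1).natAbs < 2 ^ y ∧ (D2 m j v.1).natAbs < 2 ^ y ∧
    v.2.1 ∈ fewDiv (D1 m j v.1).natAbs K ∧ v.2.2.1 ∈ fewDiv (D2 m j v.1).natAbs K ∧
    v.2.2.2 ∈ Icc 1 ((y ^ K) ^ 2)

noncomputable def ww (L Y d : ℕ) : ℝ := d / ((L : ℝ) ^ 6 * max (Y : ℝ) d)

open Classical in
noncomputable def wt (m y K G Y j p B : ℕ) (v : EE) : ℝ :=
  if v = e0 then 1 else if Valid m y K (G * Y) j p B v then ww (y ^ K) Y (Nat.gcd v.2.1 p) else 0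

theorem ww_nonneg (L Y d : ℕ) : 0 ≤ ww L Y d := by
  unfold ww
  positivity

theorem wt_nonneg (m y K G Y j p B : ℕ) (v : EE) : 0 ≤ wt m y K G Y j p B v := by
  unfold wt
  split_ifs
  exacts [zero_le_one, ww_nonneg _ _ _, le_rfl]

theorem card_valid {m y K H j p B d : ℕ} (hy : 1 ≤ y) (hd : 0 < d) (V : Finset EE)
    (hV : ∀ v ∈ V, Valid m y K H j p B v ∧ d ∣ v.2.1) :
    (V.card : ℝ) ≤ (H / d + 1) * ((y ^ K : ℕ) : ℝ) ^ 4 := by
  have h1 : ((V.image Prod.fst).card : ℝ) ≤ H / d + 1 := by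
    have h : ∀ s ∈ V.image Prod.fst, (B ≤ s ∧ s ≤ B + H) ∧ (d : ℤ) ∣ D1 m j s := by
      intro s hs
      obtain ⟨v, hv, rfl⟩ := mem_image.1 hs
      obtain ⟨⟨-, -, a1, a2, -, -, a3, -⟩, a4⟩ := hV v hv
      exact ⟨⟨a1, a2⟩, Int.natCast_dvd.2
        (a4.trans (Nat.dvd_of_mem_divisors (mem_filter.1 a3).1))⟩
    refine card_le_of_dvd_sub _ B H d hd (fun s hs => (h s hs).1) fun s hs s' hs' => ?_
    have := (h s' hs').2.sub (h s hs).2
    rwa [show D1 m j s' - D1 m j s = (s : ℤ) - s' by simp [D1]] at this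
  have h2 : V.card ≤ (y ^ K) ^ 4 * (V.image Prod.fst).card := by
    refine card_le_mul_card_image _ _ fun s hs => ?_
    obtain ⟨v, hv, rfl⟩ := mem_image.1 hs
    obtain ⟨⟨-, -, -, -, a1, a2, -⟩, -⟩ := hV v hv
    have : (V.filter fun w => w.1 = v.1).card ≤ (fewDiv (D1 m j v.1).natAbs K ×ˢ
        fewDiv (D2 m j v.1).natAbs K ×ˢ Icc 1 ((y ^ K) ^ 2)).card := by
      refine card_le_card_of_injOn Prod.snd (fun w hw => ?_) fun w hw w' hw' h => ?_
      · obtain ⟨b1, b2⟩ := mem_filter.1 hw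
        obtain ⟨⟨-, -, -, -, -, -, c1, c2, c3⟩, -⟩ := hV w b1
        rw [b2] at c1 c2
        exact mem_coe.2 (mem_product.2 ⟨c1, mem_product.2 ⟨c2, c3⟩⟩)
      · exact Prod.ext ((mem_filter.1 hw).2.trans (mem_filter.1 hw').2.symm) h
    rw [card_product, card_product, Nat.card_Icc, Nat.add_sub_cancel] at this
    refine this.trans ((Nat.mul_le_mul (card_fewDiv K a1 hy)
      (Nat.mul_le_mul_right _ (card_fewDiv K a2 hy))).trans (le_of_eq (by ring)))
  calc (V.card : ℝ) ≤ ((y ^ K : ℕ) : ℝ) ^ 4 * (V.image Prod.fst).card := by exact_mod_cast h2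
    _ ≤ _ := by
      rw [mul_comm]
      exact mul_le_mul_of_nonneg_right h1 (by positivity)

theorem sum_wt {m y K G Y : ℕ} (hy : 1 ≤ y) (hG : 1 ≤ G) (hL : G * (G + 1) ≤ y ^ K)
    (j p B : ℕ) (V : Finset EE) : ∑ v ∈ V, wt m y K G Y j p B v ≤ 1 + 1 / (G : ℝ) := by
  classical
  set L := y ^ K with hLd
  have hL0 : (0 : ℝ) < L := by positivity
  have hG0 : (0 : ℝ) < G := by exact_mod_cast hG
  let V' := V.filter (Valid m y K (G * Y) j p B)
  have h1 : ∑ v ∈ V, wt m y K G Y j p B v ≤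
      (∑ v ∈ V, if v = e0 then (1 : ℝ) else 0) + ∑ v ∈ V', ww L Y (Nat.gcd v.2.1 p) := by
    rw [sum_filter, ← sum_add_distrib]
    refine sum_le_sum fun v _ => ?_
    have := ww_nonneg L Y (Nat.gcd v.2.1 p)
    unfold wt
    split_ifs <;> linarith
  have h2 : (∑ v ∈ V, if v = e0 then (1 : ℝ) else 0) ≤ 1 := by
    rw [sum_ite_eq']
    split_ifs
    exacts [le_rfl, zero_le_one]
  refine h1.trans (add_le_add h2 ?_)
  rcases V'.eq_empty_or_nonempty with h | ⟨v, hv⟩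
  · rw [h, sum_empty]
    positivity
  have hp : p < 2 ^ y := (mem_filter.1 hv).2.1
  rw [← sum_fiberwise_of_maps_to (g := fun v : EE => Nat.gcd v.2.1 p) (t := fewDiv p K)
    fun v hv => (mem_filter.1 hv).2.2.1]
  calc ∑ d ∈ fewDiv p K, ∑ v ∈ V' with Nat.gcd v.2.1 p = d, ww L Y (Nat.gcd v.2.1 p)
      ≤ ∑ d ∈ fewDiv p K, ((G : ℝ) + 1) / L ^ 2 := by
        refine sum_le_sum fun d hd => ?_
        have hd0 : 0 < d := Nat.pos_of_mem_divisors (mem_filter.1 hd).1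
        have hd1 : (0 : ℝ) < d := by exact_mod_cast hd0
        rw [sum_congr rfl fun v hv => by rw [(mem_filter.1 hv).2], sum_const, nsmul_eq_mul]
        have h3 := card_valid (m := m) (K := K) (H := G * Y) (j := j) (p := p) (B := B) hy hd0
          (V'.filter fun v => Nat.gcd v.2.1 p = d) fun v hv =>
            ⟨(mem_filter.1 (mem_filter.1 hv).1).2, (mem_filter.1 hv).2 ▸ Nat.gcd_dvd_left _ _⟩
        refine (mul_le_mul_of_nonneg_right h3 (ww_nonneg _ _ _)).trans ?_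
        have h4 := le_max_left (Y : ℝ) d
        have h5 := le_max_right (Y : ℝ) d
        have h6 : 0 < max (Y : ℝ) d := hd1.trans_le h5
        rw [ww, ← hLd, le_div_iff₀ (by positivity)]
        push_cast
        have e : ((G : ℝ) * Y / d + 1) * (L : ℝ) ^ 4 * (d / ((L : ℝ) ^ 6 * max (Y : ℝ) d)) *
            (L : ℝ) ^ 2 = (G * Y + d) / max (Y : ℝ) d := by
          field_simp
        rw [e, div_le_iff₀ h6]
        nlinarith
    _ ≤ L * (((G : ℝ) + 1) / L ^ 2) := by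
        rw [sum_const, nsmul_eq_mul]
        exact mul_le_mul_of_nonneg_right (by exact_mod_cast card_fewDiv K hp hy) (by positivity)
    _ ≤ 1 / G := by
        have : (G : ℝ) * (G + 1) ≤ L := by exact_mod_cast hL
        rw [show L * (((G : ℝ) + 1) / L ^ 2) = (G + 1) / L by field_simp,
          div_le_div_iff₀ hL0 hG0]
        linarith

noncomputable def beta (m y K G Y s0 j : ℕ) (e : ℕ → EE) : ℝ :=
  wt m y K G Y j (prev m e j) (s0 + ∑ i ∈ range j, gE (e i)) (e j)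

theorem sum_beta {m y K G Y : ℕ} (hm : 1 ≤ m) (hy : 1 ≤ y) (hG : 1 ≤ G)
    (hL : G * (G + 1) ≤ y ^ K) (s0 : ℕ) (C : Finset (ℕ → EE))
    (hC : ∀ e ∈ C, ∀ i, G ≤ i → e i = e0) :
    ∑ e ∈ C, ∏ j ∈ range G, beta m y K G Y s0 j e ≤ 3 := by
  have key : ∀ j (e e' : ℕ → EE), (∀ i < j, e i = e' i) →
      prev m e j = prev m e' j ∧ ∑ i ∈ range j, gE (e i) = ∑ i ∈ range j, gE (e' i) := by
    intro j e e' h
    refine ⟨?_, sum_congr rfl fun i hi => by rw [h i (mem_range.1 hi)]⟩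
    unfold prev
    split_ifs
    · rw [h _ (by omega)]
    · rfl
  refine (tree e0 (beta m y K G Y s0) (1 + 1 / (G : ℝ)) (by positivity)
    (fun j e => wt_nonneg _ _ _ _ _ _ _ _ _) (fun j e e' h => ?_) (fun j e V => ?_) G C hC).trans ?_
  · obtain ⟨h1, h2⟩ := key j e e' fun i hi => h i hi.le
    rw [beta, beta, h1, h2, h j le_rfl]
  · refine le_trans (le_of_eq (sum_congr rfl fun v _ => ?_))
      (sum_wt (m := m) (Y := Y) hy hG hL j (prev m e j) (s0 + ∑ i ∈ range j, gE (e i)) V)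
    obtain ⟨h1, h2⟩ := key j (Function.update e j v) e fun i hi => Function.update_of_ne hi.ne _ _
    rw [beta, h1, h2, Function.update_self]
  · rw [one_div]
    exact (Real.one_add_inv_pow_le_exp).trans (Real.exp_one_lt_d9.le.trans (by norm_num))

/-- The modulus to which a description determines the starting time. -/
def MM (m G : ℕ) (e : ℕ → EE) : ℕ := ∏ k ∈ range (2 * m + G), Nat.lcm (e k).2.1 (prev m e k)

theorem prod_prev {R : Type*} [CommMonoid R] (φ : ℕ → R) (h1 : φ 1 = 1) (m G : ℕ) (e : ℕ → EE) :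
    ∏ k ∈ range (2 * m + G), φ (prev m e k) = ∏ j ∈ range G, φ (e j).2.2.1 := by
  rw [prod_range_add, prod_eq_one, one_mul]
  · exact prod_congr rfl fun j _ => by simp [prev]
  · intro k hk
    rw [prev, if_neg (not_le.2 (mem_range.1 hk)), h1]

section Gain

variable {m G : ℕ} {e : ℕ → EE} {A : Finset ℕ}

theorem prod_on {R : Type*} [CommMonoid R] (hA : A ⊆ range G) (hoff : ∀ j ∉ A, e j = e0)
    (φ ψ : ℕ → R) (h1 : φ 1 = 1) (h2 : ψ 1 = 1) :
    ∏ k ∈ range (2 * m + G), φ (e k).2.1 * ψ (prev m e k) =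
      ∏ j ∈ A, φ (e j).2.1 * ψ (e j).2.2.1 := by
  rw [prod_mul_distrib, prod_mul_distrib, prod_prev ψ h2]
  congr 1
  · exact (prod_subset (hA.trans (range_mono (by omega))) fun j _ hj => by
      rw [hoff j hj]; exact h1).symm
  · exact (prod_subset hA fun j _ hj => by rw [hoff j hj]; exact h2).symm

theorem prod_dd {R : Type*} [CommMonoid R] (hA : A ⊆ range G) (hoff : ∀ j ∉ A, e j = e0)
    (φ : ℕ → R) (h1 : φ 1 = 1) :
    ∏ k ∈ range (2 * m + G), φ (dd m e k) = ∏ j ∈ A, φ (dd m e j) :=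
  (prod_subset (hA.trans (range_mono (by omega))) fun j _ hj => by
    rw [dd, hoff j hj]
    simpa [e0] using h1).symm

theorem MM_mul (hA : A ⊆ range G) (hoff : ∀ j ∉ A, e j = e0) :
    MM m G e * ∏ j ∈ A, dd m e j = ∏ j ∈ A, (e j).2.1 * (e j).2.2.1 := by
  have h1 := prod_dd (m := m) hA hoff id rfl
  have h2 := prod_on (m := m) hA hoff id id rfl rfl
  simp only [id] at h1 h2
  rw [← h1, ← h2, MM, ← prod_mul_distrib]
  exact prod_congr rfl fun k _ => by rw [mul_comm, dd, Nat.gcd_mul_lcm]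

theorem prev_pos (hoff : ∀ j ∉ A, e j = e0) (hpos : ∀ j ∈ A, 0 < (e j).2.1 ∧ 0 < (e j).2.2.1)
    (k : ℕ) : 0 < (e k).2.1 ∧ 0 < prev m e k := by
  have : ∀ j, 0 < (e j).2.1 ∧ 0 < (e j).2.2.1 := fun j => by
    by_cases h : j ∈ A
    · exact hpos j h
    · simp [hoff j h, e0]
  refine ⟨(this k).1, ?_⟩
  unfold prev
  split_ifs
  exacts [(this _).2, one_pos]

theorem gain (hA : A ⊆ range G) (hoff : ∀ j ∉ A, e j = e0)
    (hpos : ∀ j ∈ A, 0 < (e j).2.1 ∧ 0 < (e j).2.2.1) {Y L : ℕ} (hY : 1 ≤ Y) (hL : 1 ≤ L)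
    {g : ℕ → ℕ} (hg : ∀ j ∈ A, Y ≤ g j ∧ (e j).2.1 * (e j).2.2.1 ≤ g j ∧
      g j ≤ (e j).2.1 * (e j).2.2.1 * L ^ 2) :
    ∏ j ∈ A, ((g j : ℝ) / Y) ≤
      (MM m G e * ∏ j ∈ A, ww L Y (dd m e j)) ^ 2 * (L : ℝ) ^ (16 * A.card) := by
  have hY1 : (1 : ℝ) ≤ Y := by exact_mod_cast hY
  have hL1 : (1 : ℝ) ≤ L := by exact_mod_cast hL
  let μ : ℕ → ℝ := fun r => max (Y : ℝ) r / Y
  have hμ1 : μ 1 = 1 := by
    simp only [μ, Nat.cast_one]
    rw [max_eq_left hY1, div_self (by positivity)]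
  have hμ : ∀ r, 0 < μ r := fun r => div_pos (lt_max_of_lt_left (by linarith)) (by linarith)
  have hmono : ∀ r r' : ℕ, r ≤ r' → μ r ≤ μ r' := fun r r' h =>
    div_le_div_of_nonneg_right (max_le_max le_rfl (by exact_mod_cast h)) (by linarith)
  have h1 : (∏ j ∈ A, μ (dd m e j)) ^ 2 ≤ ∏ j ∈ A, ((g j : ℝ) / Y) := by
    rw [← prod_dd hA hoff μ hμ1, ← prod_pow]
    refine le_trans (prod_le_prod (fun k _ => by positivity) fun k _ => ?_)
      ((prod_on (m := m) hA hoff μ μ hμ1 hμ1).le.trans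
        (prod_le_prod (fun k _ => (mul_pos (hμ _) (hμ _)).le) fun j hj => ?_))
    · obtain ⟨a1, a2⟩ := prev_pos (m := m) hoff hpos k
      rw [sq]
      exact mul_le_mul (hmono _ _ (Nat.gcd_le_left _ a1)) (hmono _ _ (Nat.gcd_le_right _ a2))
        (hμ _).le (hμ _).le
    · obtain ⟨a1, a2⟩ := hpos j hj
      obtain ⟨b1, b2, -⟩ := hg j hj
      have a1' : (1 : ℝ) ≤ (e j).2.1 := by exact_mod_cast a1
      have a2' : (1 : ℝ) ≤ (e j).2.2.1 := by exact_mod_cast a2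
      have b1' : (Y : ℝ) ≤ g j := by exact_mod_cast b1
      have b2' : ((e j).2.1 : ℝ) * (e j).2.2.1 ≤ g j := by exact_mod_cast b2
      have d1 : ((e j).2.1 : ℝ) ≤ g j := by nlinarith
      have d2 : ((e j).2.2.1 : ℝ) ≤ g j := by nlinarith
      simp only [μ]
      rw [div_mul_div_comm, div_le_div_iff₀ (by positivity) (by positivity), ← mul_assoc]
      refine mul_le_mul_of_nonneg_right ?_ (by positivity)
      rcases le_total (Y : ℝ) (e j).2.1 with c1 | c1 <;>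
        rcases le_total (Y : ℝ) (e j).2.2.1 with c2 | c2 <;>
        simp only [max_eq_left, max_eq_right, c1, c2] <;> nlinarith
  have h2 : ∏ j ∈ A, ((g j : ℝ) / Y) ≤ (MM m G e * ∏ j ∈ A, ww L Y (dd m e j)) *
      (L : ℝ) ^ (8 * A.card) * ∏ j ∈ A, μ (dd m e j) := by
    have h3 : (MM m G e : ℝ) * ∏ j ∈ A, (dd m e j : ℝ) =
        ∏ j ∈ A, ((e j).2.1 : ℝ) * (e j).2.2.1 := by exact_mod_cast MM_mul (m := m) hA hoff
    have h4 : (∏ j ∈ A, ww L Y (dd m e j)) * (L : ℝ) ^ (8 * A.card) * ∏ j ∈ A, μ (dd m e j) =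
        (∏ j ∈ A, (dd m e j : ℝ)) * ∏ _j ∈ A, (L : ℝ) ^ 2 / Y := by
      rw [pow_mul, ← prod_const, ← prod_mul_distrib, ← prod_mul_distrib, ← prod_mul_distrib]
      refine prod_congr rfl fun j _ => ?_
      have : 0 < max (Y : ℝ) (dd m e j) := lt_max_of_lt_left (by linarith)
      simp only [ww, μ]
      field_simp
    rw [mul_assoc, mul_assoc, ← mul_assoc (∏ j ∈ A, ww L Y (dd m e j)), h4, ← mul_assoc, h3,
      ← prod_mul_distrib]
    refine prod_le_prod (fun k _ => by positivity) fun j hj => ?_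
    rw [← mul_div_assoc]
    exact div_le_div_of_nonneg_right (by exact_mod_cast (hg j hj).2.2) (by linarith)
  have h5 : 0 < ∏ j ∈ A, ((g j : ℝ) / Y) := prod_pos fun j hj =>
    div_pos (by exact_mod_cast hY.trans (hg j hj).1) (by linarith)
  refine le_of_mul_le_mul_right ?_ h5
  calc _ ≤ ((MM m G e * ∏ j ∈ A, ww L Y (dd m e j)) * (L : ℝ) ^ (8 * A.card) *
        ∏ j ∈ A, μ (dd m e j)) ^ 2 := by
        rw [← sq]
        exact pow_le_pow_left₀ h5.le h2 2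
    _ ≤ _ := by
        rw [mul_pow, mul_pow _ (_ ^ _), ← pow_mul, show 8 * A.card * 2 = 16 * A.card by ring]
        exact mul_le_mul_of_nonneg_left h1 (by positivity)

end Gain

end Pool.Agent.Lib.MP_9227d9_nt.H66
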