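import Pool.Agent.Lib.MP_9227d9_nt.H66Weight

/-! Few starting times have a window with many very large steps. -/

open Finset
open scoped ArithmeticFunction.Omega

namespace Pool.Agent.Lib.MP_9227d9_nt.H66

def big (m Y j0 j1 x : ℕ) : Finset ℕ := (Ico j0 j1).filter fun j => Y ≤ gg m x j

noncomputable def dat (m y Y j0 j1 x j : ℕ) : EE :=
  if j ∈ big m Y j0 j1 x then
    (sg m x j, r1 m y x j, r2 m y x j, gg m x j / (r1 m y x j * r2 m y x j)) else e0

variable {m y Y j0 j1 x : ℕ}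

theorem dat_off {j : ℕ} (h : j ∉ big m Y j0 j1 x) : dat m y Y j0 j1 x j = e0 := if_neg h

theorem dat_on {j : ℕ} (h : j ∈ big m Y j0 j1 x) : dat m y Y j0 j1 x j =
    (sg m x j, r1 m y x j, r2 m y x j, gg m x j / (r1 m y x j * r2 m y x j)) := if_pos h

theorem r_pos (hy : 1 ≤ y) (j : ℕ) : 0 < r1 m y x j ∧ 0 < r2 m y x j :=
  ⟨Nat.pos_of_dvd_of_pos (r1_dvd_D hy m x j) (Nat.pos_of_ne_zero (D1_ne m x j)),
    Nat.pos_of_dvd_of_pos (r2_dvd_D hy m x j) (Nat.pos_of_ne_zero (D2_ne m x j))⟩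

theorem gE_dat (hm : 1 ≤ m) (hy : 2 * m ≤ y) (j : ℕ) :
    gE (dat m y Y j0 j1 x j) = if j ∈ big m Y j0 j1 x then gg m x j else 0 := by
  split_ifs with h
  · rw [dat_on h]
    exact Nat.mul_div_cancel' (r_mul_dvd hm hy x j)
  · rw [dat_off h]
    rfl

theorem lcm_dvd_rough (k : ℕ) :
    Nat.lcm (dat m y Y j0 j1 x k).2.1 (prev m (dat m y Y j0 j1 x) k) ∣ rough y (x + k + 1) := by
  refine Nat.lcm_dvd ?_ ?_
  · by_cases h : k ∈ big m Y j0 j1 x
    · rw [dat_on h]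
      exact r1_dvd_rough m y x k
    · rw [dat_off h]
      exact one_dvd _
  · unfold prev
    split_ifs with hk
    · by_cases h : k - 2 * m ∈ big m Y j0 j1 x
      · rw [dat_on h]
        have := r2_dvd_rough m y x (k - 2 * m)
        rwa [Nat.sub_add_cancel hk] at this
      · rw [dat_off h]
        exact one_dvd _
    · exact one_dvd _

theorem MM_dvd {G x' : ℕ} (hG : 1 ≤ G)
    (h : dat m (2 * m + G) Y j0 j1 x = dat m (2 * m + G) Y j0 j1 x') :
    (MM m G (dat m (2 * m + G) Y j0 j1 x) : ℤ) ∣ (x : ℤ) - x' := by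
  rw [MM, Nat.cast_prod]
  refine prod_dvd_of_coprime ?_ fun k _ => ?_
  · have key : ∀ k k', k < k' → k' < 2 * m + G →
        (rough (2 * m + G) (x + k + 1)).Coprime (rough (2 * m + G) (x + k' + 1)) :=
      fun k k' h1 h2 => rough_coprime (by omega) (by omega) (by omega)
    intro k hk k' hk' hne
    refine Nat.isCoprime_iff_coprime.2 (Nat.Coprime.coprime_dvd_left (lcm_dvd_rough k)
      (Nat.Coprime.coprime_dvd_right (lcm_dvd_rough k') ?_))
    rcases lt_or_gt_of_ne hne with h1 | h1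
    · exact key _ _ h1 (mem_range.1 hk')
    · exact (key _ _ h1 (mem_range.1 hk)).symm
  · have h1 := (lcm_dvd_rough (m := m) (y := 2 * m + G) (Y := Y) (j0 := j0) (j1 := j1) (x := x)
      k).trans (rough_dvd (by omega) (by omega))
    have h2 := (lcm_dvd_rough (m := m) (y := 2 * m + G) (Y := Y) (j0 := j0) (j1 := j1) (x := x')
      k).trans (rough_dvd (by omega) (by omega))
    rw [← h] at h2
    have := (Int.natCast_dvd_natCast.2 h1).sub (Int.natCast_dvd_natCast.2 h2)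
    rwa [show ((x + k + 1 : ℕ) : ℤ) - ((x' + k + 1 : ℕ) : ℤ) = x - x' by push_cast; ring] at this

theorem r_le {G S j : ℕ} (hy : 1 ≤ y) (hj : j < G) (hS : (G + 2 * m) ^ 2 ≤ S)
    (hs : sg m x j ≤ S) : r1 m y x j ≤ 2 * S ∧ r2 m y x j ≤ 2 * S :=
  ⟨(Nat.le_of_dvd (Nat.pos_of_ne_zero (D1_ne m x j)) (r1_dvd_D hy m x j)).trans (D_le hj hs hS).1,
    (Nat.le_of_dvd (Nat.pos_of_ne_zero (D2_ne m x j)) (r2_dvd_D hy m x j)).trans (D_le hj hs hS).2⟩

theorem valid_dat {G K S j : ℕ} (hm : 1 ≤ m) (hj1 : j1 ≤ G) (hS : (G + 2 * m) ^ 2 ≤ S)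
    (hS2 : 2 * S < 2 ^ (2 * m + G)) (hΩ : ∀ i < 2 * m + G, Ω (x + i + 1) ≤ K)
    (hs : ∀ j < j1, sg m x j ≤ S) (hj : j ∈ big m Y j0 j1 x) :
    Valid m (2 * m + G) K (G * Y) j (prev m (dat m (2 * m + G) Y j0 j1 x) j)
      (sg m x j0 + ∑ i ∈ range j, gE (dat m (2 * m + G) Y j0 j1 x i))
      (dat m (2 * m + G) Y j0 j1 x j) := by
  set y := 2 * m + G with hyd
  have hy : 1 ≤ y := by omega
  obtain ⟨hj0, hjj⟩ := mem_Ico.1 (mem_filter.1 hj).1
  have hp := (prev_pos (m := m) (A := big m Y j0 j1 x) (e := dat m y Y j0 j1 x)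
    (fun _ h => dat_off h) (fun i h => by rw [dat_on h]; exact r_pos hy i) j).2
  have hΩ1 : Ω (r1 m y x j) ≤ K := (omega_le_of_dvd ((r1_dvd_rough m y x j).trans
    (rough_dvd hy (by omega))) (by omega)).trans (hΩ j (by omega))
  have hΩ2 : Ω (r2 m y x j) ≤ K := (omega_le_of_dvd ((r2_dvd_rough m y x j).trans
    (rough_dvd hy (by omega))) (by omega)).trans (hΩ _ (by omega))
  have hsum : ∑ i ∈ range j, gE (dat m y Y j0 j1 x i) =
      ∑ i ∈ Ico j0 j, if Y ≤ gg m x i then gg m x i else 0 := by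
    rw [← sum_subset (s₁ := Ico j0 j) (fun i hi => mem_range.2 (mem_Ico.1 hi).2)]
    · refine sum_congr rfl fun i hi => ?_
      have := mem_Ico.1 hi
      rw [gE_dat hm (by omega)]
      exact if_congr (by simp only [big, mem_filter, mem_Ico]; omega) rfl rfl
    · intro i h1 h2
      have := mem_range.1 h1
      rw [gE_dat hm (by omega), if_neg]
      simp only [big, mem_filter, mem_Ico] at h2 ⊢
      omega
  have hD := D_le (m := m) (show j < G by omega) (hs j hjj) hS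
  have hr := r_pos (m := m) (x := x) hy j
  rw [dat_on hj, hsum]
  refine ⟨?_, mem_filter.2 ⟨Nat.mem_divisors.2 ⟨Nat.gcd_dvd_right _ _, hp.ne'⟩,
    (omega_le_of_dvd (Nat.gcd_dvd_left _ _) hr.1.ne').trans hΩ1⟩, ?_, ?_, hD.1.trans_lt hS2,
    hD.2.trans_lt hS2,
    mem_filter.2 ⟨Nat.mem_divisors.2 ⟨r1_dvd_D hy m x j, D1_ne m x j⟩, hΩ1⟩,
    mem_filter.2 ⟨Nat.mem_divisors.2 ⟨r2_dvd_D hy m x j, D2_ne m x j⟩, hΩ2⟩, mem_Icc.2 ⟨?_, ?_⟩⟩
  · unfold prev
    split_ifs with hk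
    · by_cases h : j - 2 * m ∈ big m Y j0 j1 x
      · rw [dat_on h]
        exact (r_le hy (show j - 2 * m < G by omega) hS (hs _ (by omega))).2.trans_lt hS2
      · rw [dat_off h]
        exact Nat.one_lt_two_pow (by omega)
    · exact Nat.one_lt_two_pow (by omega)
  · rw [sg_eq_sum m x hj0]
    exact Nat.add_le_add_left (sum_le_sum fun i _ => by split_ifs <;> omega) _
  · rw [sg_eq_sum m x hj0, add_assoc]
    refine Nat.add_le_add_left ?_ _
    calc _ ≤ ∑ i ∈ Ico j0 j, ((if Y ≤ gg m x i then gg m x i else 0) + Y) :=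
          sum_le_sum fun i _ => by split_ifs <;> omega
      _ ≤ _ := by
          rw [sum_add_distrib, sum_const, Nat.card_Ico, smul_eq_mul]
          exact Nat.add_le_add_left (Nat.mul_le_mul_right _ (by omega)) _
  · exact Nat.div_pos (Nat.le_of_dvd (gg_pos m x j) (r_mul_dvd hm (by omega) x j))
      (Nat.mul_pos hr.1 hr.2)
  · exact Nat.div_le_of_le_mul (gg_le hy (hΩ j (by omega)) (hΩ _ (by omega)))

theorem window {G K S s0 n0 X : ℕ} (hm : 1 ≤ m) (hG : 1 ≤ G)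
    (hL : G * (G + 1) ≤ (2 * m + G) ^ K) (hY : 1 ≤ Y) (hj1 : j1 ≤ G) (hS : (G + 2 * m) ^ 2 ≤ S)
    (hS2 : 2 * S < 2 ^ (2 * m + G)) (hX : (2 * S * (2 * S)) ^ n0 ≤ X) {R : ℝ} (hR : 0 < R)
    (T : Finset ℕ) (hT : ∀ x ∈ T, x ≤ X ∧ (∀ i < 2 * m + G, Ω (x + i + 1) ≤ K) ∧
      sg m x j0 = s0 ∧ (∀ j < j1, sg m x j ≤ S) ∧ (big m Y j0 j1 x).card ≤ n0 ∧
      R ^ 2 * (((2 * m + G) ^ K : ℕ) : ℝ) ^ (16 * (big m Y j0 j1 x).card) ≤
        ∏ j ∈ big m Y j0 j1 x, ((gg m x j : ℝ) / Y)) :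
    (T.card : ℝ) ≤ 6 * X / R := by
  classical
  set y := 2 * m + G with hyd
  have hy : 1 ≤ y := by omega
  have hL1 : 1 ≤ y ^ K := Nat.one_le_pow _ _ hy
  have hA : ∀ x, big m Y j0 j1 x ⊆ range G := fun x j hj =>
    mem_range.2 ((mem_Ico.1 (mem_filter.1 hj).1).2.trans_le hj1)
  have h1 := sum_beta (Y := Y) hm hy hG hL s0 (T.image (dat m y Y j0 j1)) (by
    intro e he i hi
    obtain ⟨x, -, rfl⟩ := mem_image.1 he
    exact dat_off fun h => absurd (mem_range.1 (hA x h)) (by omega))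
  rw [card_eq_sum_card_image (dat m y Y j0 j1) T, Nat.cast_sum]
  calc _ ≤ ∑ e ∈ T.image (dat m y Y j0 j1),
        2 * X / R * ∏ j ∈ range G, beta m y K G Y s0 j e := sum_le_sum fun e he => ?_
    _ ≤ 2 * X / R * 3 := by
        rw [← mul_sum]
        exact mul_le_mul_of_nonneg_left h1 (by positivity)
    _ = _ := by ring
  obtain ⟨x, hx, rfl⟩ := mem_image.1 he
  obtain ⟨-, a2, a3, a4, a5, a6⟩ := hT x hx
  have hoff : ∀ j ∉ big m Y j0 j1 x, dat m y Y j0 j1 x j = e0 := fun _ h => dat_off h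
  have hpos : ∀ j ∈ big m Y j0 j1 x,
      0 < (dat m y Y j0 j1 x j).2.1 ∧ 0 < (dat m y Y j0 j1 x j).2.2.1 := fun i h => by
    rw [dat_on h]
    exact r_pos hy i
  have hβ : ∏ j ∈ range G, beta m y K G Y s0 j (dat m y Y j0 j1 x) =
      ∏ j ∈ big m Y j0 j1 x, ww (y ^ K) Y (dd m (dat m y Y j0 j1 x) j) := by
    rw [← prod_subset (hA x) fun j _ hj => by rw [beta, wt, if_pos (dat_off hj)]]
    refine prod_congr rfl fun j hj => ?_
    have hv := valid_dat hm hj1 hS hS2 a2 a4 hj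
    rw [a3] at hv
    rw [beta, wt, if_neg, if_pos hv, dd]
    intro h
    have := (mem_Icc.1 hv.2.2.2.2.2.2.2.2).1
    rw [h] at this
    simp [e0] at this
  have hM0 : 0 < MM m G (dat m y Y j0 j1 x) := prod_pos fun k _ =>
    Nat.lcm_pos (prev_pos (m := m) hoff hpos k).1 (prev_pos (m := m) hoff hpos k).2
  have hMX : MM m G (dat m y Y j0 j1 x) ≤ X := by
    have hS1 : 1 ≤ S := le_trans (Nat.one_le_pow _ _ (by omega)) hS
    calc _ ≤ MM m G (dat m y Y j0 j1 x) * ∏ j ∈ big m Y j0 j1 x, dd m (dat m y Y j0 j1 x) j :=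
          Nat.le_mul_of_pos_right _ (prod_pos fun j hj =>
            Nat.gcd_pos_of_pos_left _ (hpos j hj).1)
      _ ≤ (2 * S * (2 * S)) ^ (big m Y j0 j1 x).card := by
          rw [MM_mul (hA x) hoff]
          refine prod_le_pow_card _ _ _ fun j hj => ?_
          have := r_le hy (mem_range.1 (hA x hj)) hS (a4 j (mem_Ico.1 (mem_filter.1 hj).1).2)
          rw [dat_on hj]
          exact Nat.mul_le_mul this.1 this.2
      _ ≤ X := (Nat.pow_le_pow_right (by positivity) a5).trans hX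
  have hgain := a6.trans (gain (m := m) (hA x) hoff hpos hY hL1 (g := gg m x) fun j hj => by
    have := mem_range.1 (hA x hj)
    rw [dat_on hj]
    exact ⟨(mem_filter.1 hj).2, Nat.le_of_dvd (gg_pos m x j) (r_mul_dvd hm (by omega) x j),
      gg_le hy (a2 j (by omega)) (a2 _ (by omega))⟩)
  have hW : 0 ≤ ∏ j ∈ big m Y j0 j1 x, ww (y ^ K) Y (dd m (dat m y Y j0 j1 x) j) :=
    prod_nonneg fun j _ => ww_nonneg _ _ _
  have hgain' := (pow_le_pow_iff_left₀ hR.le (by positivity) two_ne_zero).1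
    (le_of_mul_le_mul_right hgain (by positivity))
  have hc := card_le_of_dvd_sub (T.filter fun x' => dat m y Y j0 j1 x' = dat m y Y j0 j1 x) 0 X _
    hM0 (fun s hs => ⟨Nat.zero_le _, by simpa using (hT s (mem_filter.1 hs).1).1⟩)
    fun s hs s' hs' => by
      have := MM_dvd hG ((mem_filter.1 hs).2.trans (mem_filter.1 hs').2.symm)
      rwa [(mem_filter.1 hs).2] at this
  have hM1 : (0 : ℝ) < MM m G (dat m y Y j0 j1 x) := by exact_mod_cast hM0
  have hM2 : (1 : ℝ) ≤ X / MM m G (dat m y Y j0 j1 x) :=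
    (one_le_div hM1).2 (by exact_mod_cast hMX)
  rw [hβ]
  have hM3 : (X : ℝ) / MM m G (dat m y Y j0 j1 x) + 1 ≤ 2 * (X / MM m G (dat m y Y j0 j1 x)) := by
    linarith
  refine hc.trans (hM3.trans ?_)
  rw [← mul_div_assoc, div_mul_eq_mul_div, div_le_div_iff₀ hM1 hR, mul_assoc (2 * (X : ℝ))]
  exact mul_le_mul_of_nonneg_left (hgain'.trans_eq (mul_comm _ _)) (by positivity)

end Pool.Agent.Lib.MP_9227d9_nt.H66
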