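import Pool.Agent.Lib.MP_9227d9_nt.Basic

open Pool.Agent.Lib.MP_9227d9_nt

namespace Pool.Agent.Lib.MP_9227d9_nt.InfinitelyManyZeros

/-- Part (ii): the sequence vanishes infinitely often. -/
theorem result :
    ∀ m : ℕ, 1 ≤ m → ∀ a : ℕ → ℕ, a 1 = 4 * m ^ 2 →
      (∀ n : ℕ, 2 ≤ n →
        a n = Int.natAbs ((a (n - 1) : ℤ) - ((Nat.gcd (a (n - 1)) (n * (n + 2 * m)) : ℕ) : ℤ))) →
      Set.Infinite {n : ℕ | a n = 0} := by
  intro m _ a _ hrec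
  refine Set.infinite_of_forall_exists_gt fun N => ?_
  obtain ⟨z, hz1, _, hz3⟩ := exists_zero hrec (a (N + 1)) (N + 1) (by omega) le_rfl
  exact ⟨z, hz3, by omega⟩

end Pool.Agent.Lib.MP_9227d9_nt.InfinitelyManyZeros
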