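import Pool.Agent.Lib.MP_9227d9_nt.Basic

open Pool.Agent.Lib.MP_9227d9_nt

namespace Pool.Agent.Lib.MP_9227d9_nt.LockIn

/-- A run of `J` unit steps from time `t`, with `(J+1)^2 > a t + t + 2m + 1`, happens exactly when
`n = t + a t` is reached by unit steps as a zero with `n + 1` and `n + 2m + 1` both prime. -/
theorem result :
    ∀ m : ℕ, 1 ≤ m → ∀ a : ℕ → ℕ, a 1 = 4 * m ^ 2 →
      (∀ n : ℕ, 2 ≤ n →
        a n = Int.natAbs ((a (n - 1) : ℤ) - ((Nat.gcd (a (n - 1)) (n * (n + 2 * m)) : ℕ) : ℤ))) →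
      ∀ t J : ℕ, 1 ≤ t → J ≤ a t → t + a t + 2 * m + 1 < (J + 1) ^ 2 →
        List.TFAE [∀ j, j ≤ J → a (t + j) + j = a t,
          (t + a t + 1).Prime ∧ (t + a t + 2 * m + 1).Prime,
          (∀ j, j ≤ a t → a (t + j) + j = a t) ∧ a (t + a t) = 0 ∧
            (t + a t + 1).Prime ∧ (t + a t + 2 * m + 1).Prime] := by
  intro m _ a _ hrec t J ht hJ hJ2
  have e1 : t + a t + 1 = a t + t + 1 := by omega
  have e2 : t + a t + 2 * m + 1 = a t + t + 1 + 2 * m := by omega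
  tfae_have 1 → 2 := by
    intro h
    rw [e1, e2]
    exact ⟨prime_of_run hrec ht h (c := 0) (Or.inl rfl) (by omega),
      prime_of_run hrec ht h (c := 2 * m) (Or.inr rfl) (by omega)⟩
  tfae_have 2 → 3 := by
    intro h
    have h1 := run_of_prime hrec ht (e1 ▸ h.1) (e2 ▸ h.2)
    have h2 := h1 (a t) le_rfl
    exact ⟨h1, by omega, h⟩
  tfae_have 3 → 1 := fun h j hj => h.1 j (by omega)
  tfae_finish

end Pool.Agent.Lib.MP_9227d9_nt.LockIn
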