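import Pool.Agent.Lib.MP_9227d9_nt.MobOd

/-!
Cancellation on a good line.
-/

namespace Pool.Agent.Lib.MP_9227d9_nt.Mob

open Polynomial

open scoped Classical

namespace CC

variable {k : Type} [Field k] [Fintype k] [CharP k 2]

theorem line (hA : StA) {ι : Type} [Fintype ι] {p : ι → k[X]} (hp : ∀ i, IsP (p i))
    (hi : Function.Injective p) {H Y : k[X]} (hl : ∏ i, p i = od (H * Y))
    (hc : IsCoprime Y (od (H * Y))) : ∃ ε : ℝ, |ε| ≤ 1 ∧ ∀ s : k[X],
      ((H + Y * s ^ 2) * Y).natDegree ≤ 2 * (od (H * Y)).natDegree + 1 →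
      mu (H + Y * s ^ 2) = ε * ∏ i, chi (p i) (od (H * Y)) (ev (H * Y) + Y * s) := by
  have hS : ∀ x ∈ Finset.univ.image p, IsP x := fun x hx => by
    obtain ⟨i, -, rfl⟩ := Finset.mem_image.1 hx
    exact hp i
  obtain ⟨ε, h1, h2⟩ := hA k (Finset.univ.image p) hS
  have e : ∏ x ∈ Finset.univ.image p, x = od (H * Y) := by
    rw [Finset.prod_image fun a _ b _ h => hi h, hl]
  rw [e] at h2
  refine ⟨mu Y * ε, ?_, fun s hs => ?_⟩
  · rw [abs_mul]
    exact mul_le_one₀ (abs_mu_le Y) (abs_nonneg _) h1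
  have e1 : (H + Y * s ^ 2) * Y = H * Y + (Y * s) ^ 2 := by ring
  have e2 : od ((H + Y * s ^ 2) * Y) = od (H * Y) := by rw [e1, od_add, od_sq, add_zero]
  have e3 : ev ((H + Y * s ^ 2) * Y) = ev (H * Y) + Y * s := by rw [e1, ev_add, ev_sq]
  have h3 := natDegree_ev_le ((H + Y * s ^ 2) * Y)
  rw [mu_eq_of_isCoprime_od (Y := Y) (e2 ▸ hc), ev_od ((H + Y * s ^ 2) * Y), e2,
    h2 _ (by omega), e3, Finset.prod_image fun a _ b _ h => hi h, mul_assoc]

omit [Fintype k] [CharP k 2] in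
theorem inj {ι : Type} {p : ι → k[X]} {I : ι → ℕ} (h : ∀ i, IsP (p i) ∧ (p i).natDegree = I i)
    (hI : Function.Injective I) : Function.Injective p :=
  fun a b e => hI (by rw [← (h a).2, ← (h b).2, e])

theorem per (p b a w σ t : k[X]) :
    chi p b (a + w * (σ + p ^ 2 * t)) = chi p b (a + w * σ) := by
  rw [← chi_periodic p b (a + w * σ) (w * t)]
  congr 1
  ring

end CC

theorem stC (hA : StA) (hB : StB) : StC := by
  obtain ⟨C₀, hC⟩ := hB 133
  refine ⟨C₀, fun k _ _ _ c u G w₀ j hu hG w0 hw j1 h1 h2 c1 c2 => ?_⟩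
  obtain ⟨p, hp, ep⟩ := exists_of_Wt_ne_zero h1
  obtain ⟨r, hr, er⟩ := exists_of_Wt_ne_zero h2
  have ir := CC.inj hr c.I₂_inj
  have e2 : c.l₂ u G = od (c.Xs G * (c.D₁ * u)) := by rw [Ctx.l₂, mul_assoc]
  obtain ⟨ε₁, a1, b1⟩ := CC.line hA (fun i => (hp i).1) (CC.inj hp c.I₁_inj) (H := G) (Y := u) ep c1
  obtain ⟨ε₂, a2, b2⟩ := CC.line hA (fun i => (hr i).1) ir (H := c.Xs G) (Y := c.D₁ * u)
    (er.trans e2) (e2 ▸ c2)
  obtain ⟨d1, d2⟩ := ((stDg k c u G).2.2.2 hu).2.2 hG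
  have t0 := c.τ_pos
  have t1 := c.L_ge
  have t2 := c.d₁_eq
  have t3 := c.d₂_eq
  have t4 : c.n' = c.nu + 2 * c.L - 1 := rfl
  have t5 := c.D₂_deg
  have r0 : (r 0).natDegree = 12 * c.τ := (hr 0).2.trans c.I₂_zero
  have hd : r 0 ∣ c.l₂ u G := er ▸ Finset.dvd_prod_of_mem _ (Finset.mem_univ 0)
  have hsq : Squarefree (c.l₂ u G) := by
    have := squarefree_prod (S := Finset.univ.image r) fun x hx => by
      obtain ⟨i, -, rfl⟩ := Finset.mem_image.1 hx
      exact (hr i).1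
    rwa [Finset.prod_image fun a _ b _ h => ir h, er] at this
  have nu : ∀ {a b : k[X]}, IsCoprime a b → r 0 ∣ a → ¬ r 0 ∣ b := fun h ha hb =>
    (hr 0).1.2.not_isUnit (h.isUnit_of_dvd' ha hb)
  let φ : Option (Fin 66 ⊕ Fin 66) → k[X] → ℝ := fun o σ => o.elim (ε₁ ^ j * ε₂) (Sum.elim
    (fun i => chi (p i) (od (G * u)) (ev (G * u) + u * w₀ * σ) ^ j)
    fun i => chi (r i.succ) (c.l₂ u G)
      (ev (c.Xs G * (c.D₁ * u)) + c.D₁ * u * (c.D₂ * w₀) * σ))
  let M : Option (Fin 66 ⊕ Fin 66) → k[X] := fun o =>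
    o.elim 1 (Sum.elim (fun i => p i ^ 2) fun i => r i.succ ^ 2)
  have key := hC k (r 0) (c.l₂ u G) (ev (c.Xs G * (c.D₁ * u))) (c.D₁ * u * (c.D₂ * w₀)) _ φ M
    (76 * c.τ) (by simp) (hr 0).1 (nu (isCoprime_derivative hsq) hd) (fun h => by
      rcases (hr 0).1.prime.dvd_or_dvd h with h | h
      · exact nu c2 h hd
      rcases (hr 0).1.prime.dvd_or_dvd h with h | h
      · exact (hr 0).1.not_dvd_of_lt c.D₂_monic.ne_zero (by omega) h
      · exact (hr 0).1.not_dvd_of_lt w0 (by omega) h) (by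
      rintro (_ | i | i) σ
      · simp only [φ, Option.elim]
        rw [abs_mul, abs_pow]
        exact mul_le_one₀ (pow_le_one₀ (abs_nonneg _) a1) (abs_nonneg _) a2
      · simp only [φ, Option.elim, Sum.elim_inl]
        rw [abs_pow]
        exact pow_le_one₀ (abs_nonneg _) (abs_chi_le _ _ _)
      · simp only [φ, Option.elim, Sum.elim_inr]
        exact abs_chi_le _ _ _) (by
      rintro (_ | i | i) σ t
      · simp only [φ, Option.elim]
      · simp only [φ, M, Option.elim, Sum.elim_inl, CC.per]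
      · simp only [φ, M, Option.elim, Sum.elim_inr, CC.per]) (by
      rintro (_ | i | i) h
      · exact (hr 0).1.prime.not_dvd_one h
      · have e := (hr 0).1.eq_of_dvd (hp i).1 ((hr 0).1.prime.dvd_of_dvd_pow h)
        have := c.I₁_ge i
        rw [← (hp i).2, ← e] at this
        omega
      · exact (Fin.succ_ne_zero i).symm
          (ir ((hr 0).1.eq_of_dvd (hr _).1 ((hr 0).1.prime.dvd_of_dvd_pow h)))) (by
      rintro (_ | i | i)
      · change (1 : k[X]).natDegree + _ ≤ _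
        rw [natDegree_one]
        omega
      · change (p i ^ 2).natDegree + _ ≤ _
        have := c.I₁_le i
        rw [natDegree_pow, (hp i).2]
        omega
      · change (r i.succ ^ 2).natDegree + _ ≤ _
        have := c.I₂_le i.succ
        rw [natDegree_pow, (hr _).2]
        omega) (by omega)
  have eN : Nm (r 0) = c.Q ^ 12 := by rw [Nm, r0, Ctx.Q, ← pow_mul, mul_comm]
  rw [eN] at key
  refine le_of_eq_of_le (congrArg (fun x => |x| ^ 2 ^ 134) (avg_congr fun σ hσ => ?_)) key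
  have m1 : MD c.n' (G + u * (w₀ * σ) ^ 2) := hG.add (degree_mul_sq_lt (L := 78 * c.τ)
    (degree_mul_lt hσ (by omega)) (by rw [hu.2]; omega))
  have m2 := (c.Xs_MD m1).mul (MD.mul (⟨c.D₁_monic, rfl⟩ : MD _ c.D₁) hu)
  have e3 : c.Xs (G + u * (w₀ * σ) ^ 2) = c.Xs G + c.D₁ * u * (c.D₂ * (w₀ * σ)) ^ 2 := by
    simp only [Ctx.Xs]
    ring
  rw [e3] at m2
  rw [e3, b1 _ (by rw [(m1.mul hu).2, show od (G * u) = c.l₁ u G from rfl, d1.2]; omega),
    b2 _ (by rw [m2.2, ← e2, d2.2]; omega), ← e2, Fin.prod_univ_succ (n := 66),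
    Fintype.prod_option, Fintype.prod_sum_type, mul_pow, ← Finset.prod_pow]
  simp only [φ, Option.elim, Sum.elim_inl, Sum.elim_inr, mul_assoc]
  ring

end Pool.Agent.Lib.MP_9227d9_nt.Mob
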