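import Pool.Agent.Lib.MP_9227d9_nt.MobOd

/-!
The core estimate: choice of the parameters.
-/

namespace Pool.Agent.Lib.MP_9227d9_nt.Mob

open Polynomial

open scoped Classical

namespace CoreAux

theorem exists_I (τ d : ℕ) (hτ : 200 ≤ τ) (h1 : 900 * τ ≤ d) (h2 : d ≤ 1930 * τ) :
    ∃ I : Fin 66 → ℕ, Function.Injective I ∧ (∀ i, 13 * τ ≤ I i) ∧ (∀ i, I i ≤ 32 * τ) ∧
      ∑ i, I i = d := by
  refine ⟨fun i => (d / 66 - 33) + (if i.val < 65 then i.val else 98 + d % 66), ?_, ?_, ?_, ?_⟩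
  · intro i j hij
    have hi := i.isLt
    have hj := j.isLt
    apply Fin.ext
    simp only at hij
    split_ifs at hij <;> omega
  · intro i
    have : 13 * τ ≤ d / 66 - 33 := by omega
    exact this.trans (Nat.le_add_right _ _)
  · intro i
    have hi := i.isLt
    simp only
    split_ifs <;> omega
  · rw [Finset.sum_add_distrib, Finset.sum_const, Finset.card_univ, Fintype.card_fin, smul_eq_mul,
      Fin.sum_univ_castSucc]
    have h3 : ∑ i : Fin 65, (if (i.castSucc : Fin 66).val < 65 then (i.castSucc : Fin 66).val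
        else 98 + d % 66) = ∑ i : Fin 65, i.val := by
      refine Finset.sum_congr rfl fun i _ => ?_
      have := i.isLt
      simp
    have h4 : ∑ i : Fin 65, i.val = 2080 := by decide +kernel
    rw [h3, h4]
    have h5 : ¬ ((Fin.last 65 : Fin 66).val < 65) := by simp
    rw [if_neg h5]
    omega

variable {k : Type} [Field k] [Fintype k]

omit [Fintype k] in
theorem exists_ctx (τ n' : ℕ) (D₁ D₂ h : k[X]) (hτ : 200 ≤ τ) (m₁ : D₁.Monic) (s₁ : Squarefree D₁)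
    (m₂ : D₂.Monic) (cop : IsCoprime D₁ h) (hh : h ≠ 0) (hd : h.natDegree ≤ τ)
    (hD₂ : D₂.natDegree ≤ τ) (hD₁ : 2 * D₁.natDegree ≤ 2001 * τ)
    (hlo : 2000 * τ ≤ n' + D₁.natDegree + 2 * D₂.natDegree)
    (hhi : n' + D₁.natDegree + 2 * D₂.natDegree ≤ 2001 * τ) :
    ∃ c : Ctx k, c.τ = τ ∧ c.n' = n' ∧ c.D₁ = D₁ ∧ c.D₂ = D₂ ∧ c.h = h := by
  obtain ⟨nu, L, h1, h2, h3⟩ : ∃ nu L : ℕ, 840 * τ ≤ nu ∧ nu ≤ 840 * τ + 1 ∧
      nu + 2 * L = n' + 1 := by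
    rcases Nat.even_or_odd' n' with ⟨m, hm | hm⟩
    · exact ⟨840 * τ + 1, m - 420 * τ, by omega, by omega, by omega⟩
    · exact ⟨840 * τ, m + 1 - 420 * τ, by omega, by omega, by omega⟩
  obtain ⟨I₁, i1, i2, i3, i4⟩ := exists_I τ (nu + L - 1) hτ (by omega) (by omega)
  obtain ⟨I', j1, j2, j3, j4⟩ :=
    exists_I τ (nu + L - 1 + D₁.natDegree + D₂.natDegree - 12 * τ) hτ (by omega) (by omega)
  refine ⟨{ τ := τ, nu := nu, L := L, D₁ := D₁, D₂ := D₂, h := h, I₁ := I₁,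
            I₂ := Fin.cons (12 * τ) I', τ_pos := by omega, nu_ge := h1, nu_le := h2,
            L_ge := by omega, L_le := by omega, D₁_monic := m₁, D₁_sqf := s₁, D₂_monic := m₂,
            cop := cop, h_ne := hh, h_deg := hd, D₁_deg := by omega, D₂_deg := hD₂,
            I₁_inj := i1, I₁_ge := i2, I₁_le := i3, I₁_sum := by omega,
            I₂_inj := ?_, I₂_zero := rfl, I₂_ge := ?_, I₂_le := ?_, I₂_sum := ?_ },
    rfl, ?_, rfl, rfl, rfl⟩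
  · refine Fin.cons_injective_iff.mpr ⟨?_, j1⟩
    rintro ⟨i, hi⟩
    have := j2 i
    omega
  · intro i
    refine Fin.cases ?_ (fun i => ?_) i
    · simp
    · have := j2 i
      simp only [Fin.cons_succ]
      omega
  · intro i
    refine Fin.cases ?_ (fun i => ?_) i
    · simp only [Fin.cons_zero]
      omega
    · simpa using j3 i
  · rw [Fin.sum_univ_succ]
    simp only [Fin.cons_zero, Fin.cons_succ]
    omega
  · simp only [Ctx.n']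
    omega

omit [Fintype k] in
theorem abs_term_le (j : ℕ) (G F : k[X]) (x : ℝ) (hx : |x| ≤ 1) : |mu G ^ j * mu F * x| ≤ 1 := by
  rw [abs_mul, abs_mul, abs_pow]
  have h1 : |mu G| ^ j ≤ 1 := pow_le_one₀ (abs_nonneg _) (abs_mu_le G)
  have h4 : |mu G| ^ j * |mu F| ≤ 1 := mul_le_one₀ h1 (abs_nonneg _) (abs_mu_le F)
  exact mul_le_one₀ h4 (abs_nonneg _) hx

theorem final_le (q e K C C' : ℝ) (τ : ℕ) (hq : 2 ≤ q) (he : 0 < e) (he' : e ≤ 1 / 4)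
    (hK0 : 0 ≤ K) (hK : K ≤ C' * ((2 : ℝ) ^ (e / 4)) ^ τ) :
    10 * q * K ^ 4 / √(q ^ τ) + C * K ^ 4 / (q ^ τ) ^ (2 * e) ≤
      (10 * q + |C|) * C' ^ 4 / q ^ (e * τ) := by
  have hq0 : 0 < q := by linarith
  have hq1 : 1 ≤ q := by linarith
  have hτ : (0 : ℝ) ≤ τ := Nat.cast_nonneg _
  have e1 : (q ^ τ) ^ (2 * e) = q ^ (e * τ) * q ^ (e * τ) := by
    rw [← Real.rpow_natCast, ← Real.rpow_mul hq0.le, ← Real.rpow_add hq0]
    congr 1
    ring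
  have e2 : q ^ (e * τ) * q ^ (e * τ) ≤ √(q ^ τ) := by
    rw [Real.sqrt_eq_rpow, ← Real.rpow_natCast, ← Real.rpow_mul hq0.le, ← Real.rpow_add hq0]
    exact Real.rpow_le_rpow_of_exponent_le hq1 (by nlinarith)
  have hP : 0 < q ^ (e * τ) := Real.rpow_pos_of_pos hq0 _
  have e3 : K ^ 4 ≤ C' ^ 4 * q ^ (e * τ) := by
    have h1 : K ^ 4 ≤ (C' * ((2 : ℝ) ^ (e / 4)) ^ τ) ^ 4 := pow_le_pow_left₀ hK0 hK 4
    have h2 : (((2 : ℝ) ^ (e / 4)) ^ τ) ^ 4 = (2 : ℝ) ^ (e * τ) := by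
      rw [← pow_mul, ← Real.rpow_natCast, ← Real.rpow_mul (by norm_num)]
      congr 1
      push_cast
      ring
    have h3 : (2 : ℝ) ^ (e * τ) ≤ q ^ (e * τ) :=
      Real.rpow_le_rpow (by norm_num) hq (by positivity)
    rw [mul_pow, h2] at h1
    calc K ^ 4 ≤ C' ^ 4 * (2 : ℝ) ^ (e * τ) := h1
      _ ≤ _ := by gcongr
  have hK4 : 0 ≤ K ^ 4 := by positivity
  have e4 : 10 * q * K ^ 4 / √(q ^ τ) ≤ 10 * q * K ^ 4 / (q ^ (e * τ) * q ^ (e * τ)) :=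
    div_le_div_of_nonneg_left (by positivity) (by positivity) e2
  have e5 : C * K ^ 4 / (q ^ τ) ^ (2 * e) ≤ |C| * K ^ 4 / (q ^ (e * τ) * q ^ (e * τ)) := by
    rw [e1]
    gcongr
    exact le_abs_self C
  have e6 : (10 * q + |C|) * K ^ 4 / (q ^ (e * τ) * q ^ (e * τ)) ≤
      (10 * q + |C|) * (C' ^ 4 * q ^ (e * τ)) / (q ^ (e * τ) * q ^ (e * τ)) := by
    gcongr
  have e7 : (10 * q + |C|) * (C' ^ 4 * q ^ (e * τ)) / (q ^ (e * τ) * q ^ (e * τ)) =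
      (10 * q + |C|) * C' ^ 4 / q ^ (e * τ) := by
    field_simp
  have e8 : (10 * q + |C|) * K ^ 4 / (q ^ (e * τ) * q ^ (e * τ)) =
      10 * q * K ^ 4 / (q ^ (e * τ) * q ^ (e * τ)) + |C| * K ^ 4 / (q ^ (e * τ) * q ^ (e * τ)) := by
    ring
  linarith

end CoreAux

open CoreAux in
theorem stCore (hEa : StEa) (hEb : StEb) (hK : StK) : StCore := by
  obtain ⟨C, hEb⟩ := hEb
  obtain ⟨e, he0, he1, he2⟩ : ∃ e : ℝ, 0 < e ∧ e ≤ 1 / 4 ∧ (1 / 2 ^ 134 : ℝ) = 2 * e :=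
    ⟨1 / 2 ^ 135, by positivity, by norm_num, by norm_num⟩
  rw [he2] at hEb
  refine ⟨e, he0, fun k _ _ _ => ?_⟩
  have hθ : (1 : ℝ) < (2 : ℝ) ^ (e / 4) := Real.one_lt_rpow (by norm_num) (by positivity)
  obtain ⟨C', hC'⟩ := hK k _ hθ
  have hq2 : (2 : ℝ) ≤ qR k := two_le_qR
  have hq : (0 : ℝ) < qR k := qR_pos
  have hq1 : (1 : ℝ) ≤ qR k := one_le_qR
  refine ⟨qR k ^ 200 + (10 * qR k + |C|) * C' ^ 4,
    fun τ n' j D₁ D₂ h M₀ κ m₁ s₁ m₂ cop hh hM hd hMd hD₂ hD₁ hlo hhi hj hκ hper => ?_⟩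
  have hP : 0 < qR k ^ (e * τ) := Real.rpow_pos_of_pos hq _
  have hA : (0 : ℝ) ≤ qR k ^ 200 := by positivity
  have hB : (0 : ℝ) ≤ (10 * qR k + |C|) * C' ^ 4 := by positivity
  by_cases hτ : τ < 200
  · have h1 : |avm n' fun G => mu G ^ j * mu (D₁ * D₂ ^ 2 * G + h) * κ G| ≤ 1 :=
      abs_avm_le_of_le fun G _ => abs_term_le j G _ _ (hκ G)
    refine h1.trans ?_
    rw [le_div_iff₀ hP, one_mul]
    have h2 : qR k ^ (e * τ) ≤ qR k ^ 200 := by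
      rw [← Real.rpow_natCast]
      refine Real.rpow_le_rpow_of_exponent_le hq1 ?_
      have h3 : (τ : ℝ) ≤ 200 := by exact_mod_cast hτ.le
      have h4 : (0 : ℝ) ≤ τ := Nat.cast_nonneg _
      push_cast
      nlinarith
    linarith
  push Not at hτ
  obtain ⟨c, rfl, rfl, rfl, rfl, rfl⟩ :=
    exists_ctx τ n' D₁ D₂ h hτ m₁ s₁ m₂ cop hh hd hD₂ hD₁ hlo hhi
  obtain ⟨K, hK1, hK2⟩ := hC' c.τ (by omega)
  have h1 := hEa k c K j κ hK2 hj hκ
  have h2 := hEb k c K j κ M₀ hK2 hj hκ hM hMd hper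
  have h3 : (avm c.n' fun G => mu G ^ j * mu (c.D₁ * c.D₂ ^ 2 * G + c.h) * κ G) =
      (avm c.n' fun G => c.T j κ G * (1 - rho c.τ (12 * c.τ) (c.Z G) *
        avm c.nu fun u => c.W₁ (c.l₁ u G) * c.W₂ (c.l₂ u G))) +
      avm c.n' fun G => c.T j κ G * (rho c.τ (12 * c.τ) (c.Z G) *
        avm c.nu fun u => c.W₁ (c.l₁ u G) * c.W₂ (c.l₂ u G)) := by
    rw [← avm_add]
    refine avm_congr fun G _ => ?_
    simp only [Ctx.T, Ctx.Xs]
    ring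
  rw [h3]
  refine (abs_add_le _ _).trans ((add_le_add h1 h2).trans ?_)
  have hK0 : 0 ≤ K := by linarith [hK2.ten_le]
  refine (final_le (qR k) e K C C' c.τ hq2 he0 he1 hK0 hK1).trans ?_
  gcongr
  linarith

end Pool.Agent.Lib.MP_9227d9_nt.Mob
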