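import Pool.Agent.Lib.MP_9227d9_nt.MobOd

/-!
The weight may be inserted into the mean.
-/

namespace Pool.Agent.Lib.MP_9227d9_nt.Mob

open Polynomial

open scoped Classical

namespace Ea

variable {k : Type} [Field k] [Fintype k] [CharP k 2] (c : Ctx k) {K : ℝ} {j : ℕ}
  {κ : k[X] → ℝ} {G : k[X]}

omit [Fintype k] [CharP k 2] in
theorem abs_T_le (hκ : ∀ G, |κ G| ≤ 1) (G : k[X]) : |c.T j κ G| ≤ 1 := by
  rw [Ctx.T, abs_mul, abs_mul, abs_pow]
  exact mul_le_one₀ (mul_le_one₀ (pow_le_one₀ (abs_nonneg _) (abs_mu_le _)) (abs_nonneg _)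
    (abs_mu_le _)) (abs_nonneg _) (hκ G)

omit [Fintype k] [CharP k 2] in
theorem sqf_of_T (hj : 1 ≤ j) (h : c.T j κ G ≠ 0) : Squarefree G ∧ Squarefree (c.Xs G * c.D₁) := by
  rw [Ctx.T] at h
  have h1 := left_ne_zero_of_mul h
  have h2 : mu G ≠ 0 := fun h0 => left_ne_zero_of_mul h1 (by rw [h0, zero_pow (by omega)])
  refine ⟨mu_ne_zero_iff.1 h2, squarefree_mul_iff.2 ⟨IsCoprime.isRelPrime ?_,
    mu_ne_zero_iff.1 (right_ne_zero_of_mul h1), c.D₁_sqf⟩⟩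
  have := c.cop.symm.add_mul_left_left (c.D₂ ^ 2 * G)
  rwa [add_comm, ← mul_assoc] at this

theorem od_eq_Z (G : k[X]) : od (G * (c.Xs G * c.D₁)) = c.Z G := by
  have : G * (c.Xs G * c.D₁) = (c.D₁ * c.D₂ * G) ^ 2 + G * (c.h * c.D₁) := by
    rw [Ctx.Xs]; ring
  rw [this, od_add, od_sq, zero_add, Ctx.Z]

theorem mean_w (hM4 : StM4) (hj : 1 ≤ j) (h : c.T j κ G ≠ 0) :
    avm c.nu (fun u => c.w₁ (c.l₁ u G) * c.w₂ (c.l₂ u G)) =
      f0 (180 * c.τ) (12 * c.τ) (c.Z G) := by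
  obtain ⟨h1, h2⟩ := sqf_of_T c hj h
  rw [← od_eq_Z]
  exact hM4 k (190 * c.τ) (180 * c.τ) (12 * c.τ) c.nu G _ h1 h2 (by omega)
    (by have := c.nu_ge; omega)

omit [Fintype k] [CharP k 2] in
theorem n'_le : c.τ ≤ c.n' ∧ c.n' ≤ 2040 * c.τ := by
  have := c.nu_ge
  have := c.nu_le
  have := c.L_ge
  have := c.L_le
  have := c.τ_pos
  rw [Ctx.n']
  omega

omit [Fintype k] [CharP k 2] in
theorem hD_ne : c.h * c.D₁ ≠ 0 := mul_ne_zero c.h_ne c.D₁_monic.ne_zero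

omit [Fintype k] [CharP k 2] in
theorem hD_deg : (c.h * c.D₁).natDegree ≤ 1002 * c.τ := by
  have := c.h_deg
  have := c.D₁_deg
  have := natDegree_mul_le (p := c.h) (q := c.D₁)
  omega

theorem Z_deg (hG : MD c.n' G) : (c.Z G).natDegree ≤ 5000 * c.τ := by
  have h1 := natDegree_od_le (G * (c.h * c.D₁))
  have h2 := natDegree_mul_le (p := G) (q := c.h * c.D₁)
  have h3 := hD_deg c
  have h4 := (n'_le c).2
  rw [hG.2] at h2
  rw [Ctx.Z]
  omega

theorem abs_rho_le (hM5 : StM5) (hK : KB k c.τ K) (Z : k[X]) : |rho c.τ (12 * c.τ) Z| ≤ K := by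
  have h1 := (hM5 k c.τ c.τ (12 * c.τ) Z le_rfl).2.1
  have h2 := hK.lin
  have h3 : (0 : ℝ) ≤ c.τ := Nat.cast_nonneg _
  linarith

theorem first_le (hM4 : StM4) (hM5 : StM5) (hK : KB k c.τ K) (hj : 1 ≤ j) (hκ : ∀ G, |κ G| ≤ 1)
    (hG : MD c.n' G) :
    |c.T j κ G * (1 - rho c.τ (12 * c.τ) (c.Z G) * f0 (180 * c.τ) (12 * c.τ) (c.Z G))| ≤
      2 * K / c.Q + (if Squarefree G ∧ G ∣ c.h * c.D₁ then 1 else 0) * (2 * K ^ 3) := by
  have hK0 := hK.ten_le
  have hQ := c.two_le_Q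
  have h0 : 0 ≤ 2 * K / c.Q := by positivity
  have h0' : 0 ≤ (if Squarefree G ∧ G ∣ c.h * c.D₁ then 1 else 0) * (2 * K ^ 3) := by
    split_ifs <;> positivity
  by_cases hT : c.T j κ G = 0
  · rw [hT, zero_mul, abs_zero]
    positivity
  rw [abs_mul]
  refine (mul_le_of_le_one_left (abs_nonneg _) (abs_T_le c hκ G)).trans ?_
  by_cases hZ : c.Z G = 0
  · have hs := (sqf_of_T c hj hT).1
    rw [if_pos ⟨hs, dvd_of_od_eq_zero hs hZ⟩, ← mean_w c hM4 hj hT]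
    have h1 : |avm c.nu fun u => c.w₁ (c.l₁ u G) * c.w₂ (c.l₂ u G)| ≤ K * K :=
      abs_avm_le_of_le fun u hu => by
        obtain ⟨h1, h2⟩ := ((stDg k c u G).2.2.2 hu).2.2 hG
        rw [abs_mul]
        exact mul_le_mul (c.w₁_le hK h1) (c.w₂_le hK h2) (abs_nonneg _) (by linarith)
    have h2 := mul_le_mul (abs_rho_le c hM5 hK (c.Z G)) h1 (abs_nonneg _) (by linarith)
    rw [← abs_mul] at h2
    have h3 : (1 : ℝ) ≤ K ^ 3 := one_le_pow₀ (by linarith)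
    have h4 := abs_le.1 h2
    rw [abs_le]
    constructor <;> nlinarith
  · have h1 := (hM5 k c.τ (180 * c.τ) (12 * c.τ) (c.Z G) (by omega)).2.2 hZ
    have h2 := hK.om _ hZ (Z_deg c hG)
    have h3 : 2 * 4 ^ (pf (c.Z G)).card / qR k ^ c.τ ≤ 2 * K / c.Q :=
      div_le_div_of_nonneg_right (by linarith) (by rw [← Ctx.Q]; linarith)
    linarith

omit [CharP k 2] in
theorem avm_dvd_le (hK : KB k c.τ K) :
    avm c.n' (fun G => if Squarefree G ∧ G ∣ c.h * c.D₁ then (1 : ℝ) else 0) ≤ K / c.Q := by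
  have hK0 := hK.ten_le
  have hQ := c.two_le_Q
  rw [avm_eq_sum]
  have h1 : c.Q ≤ qR k ^ c.n' := pow_le_pow_right₀ one_le_qR (n'_le c).1
  refine div_le_div₀ (by linarith) ?_ (by linarith) h1
  have h2 := hK.om _ (hD_ne c) ((hD_deg c).trans (by omega))
  have h3 : (((Mo k c.n').filter fun g => Squarefree g ∧ g ∣ c.h * c.D₁).card : ℝ) ≤
      2 ^ (pf (c.h * c.D₁)).card := by exact_mod_cast card_sqfree_dvd_le (hD_ne c)
  have h4 : (2 : ℝ) ^ (pf (c.h * c.D₁)).card ≤ 4 ^ (pf (c.h * c.D₁)).card :=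
    pow_le_pow_left₀ (by norm_num) (by norm_num) _
  refine le_trans ?_ (h3.trans (h4.trans h2))
  rw [← Finset.sum_boole]
  exact Finset.sum_le_sum_of_subset_of_nonneg (Finset.filter_subset _ _) fun g _ _ => by
    split_ifs <;> norm_num

theorem second_le (hC : StConc) (hK : KB k c.τ K) :
    avm c.n' (fun G => |avm c.nu fun u => c.Fu u G|) ≤ 6 * qR k * K ^ 3 / √c.Q := by
  have hK0 := hK.ten_le
  have hQ := c.two_le_Q
  have hq := two_le_qR (k := k)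
  have hs : 0 < √c.Q := Real.sqrt_pos.2 (by linarith)
  refine (abs_le_of_sq_le_sq' ?_ (by positivity)).2
  refine sq_avm_le.trans ?_
  simp only [sq_abs]
  refine (hC k c K hK).trans ?_
  rw [div_pow, Real.sq_sqrt (by linarith)]
  refine div_le_div_of_nonneg_right ?_ (by linarith)
  have h1 : 0 ≤ K ^ 6 := by positivity
  have h2 : 34 * qR k ≤ 36 * qR k ^ 2 := by nlinarith
  nlinarith

end Ea

theorem stEa (hM4 : StM4) (hM5 : StM5) (hC : StConc) : StEa := by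
  intro k _ _ _ c K j κ hK hj hκ
  have hK0 := hK.ten_le
  have hQ := c.two_le_Q
  have hq := two_le_qR (k := k)
  have hs : 0 < √c.Q := Real.sqrt_pos.2 (by linarith)
  have key : ∀ G, MD c.n' G → |c.T j κ G * (1 - rho c.τ (12 * c.τ) (c.Z G) *
      avm c.nu fun u => c.W₁ (c.l₁ u G) * c.W₂ (c.l₂ u G))| ≤
      2 * K / c.Q + (if Squarefree G ∧ G ∣ c.h * c.D₁ then 1 else 0) * (2 * K ^ 3) +
        K * |avm c.nu fun u => c.Fu u G| := by
    intro G hG
    have h1 := Ea.first_le c hM4 hM5 hK hj hκ hG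
    have h2 : |c.T j κ G * (rho c.τ (12 * c.τ) (c.Z G) * avm c.nu fun u => c.Fu u G)| ≤
        K * |avm c.nu fun u => c.Fu u G| := by
      rw [abs_mul, abs_mul]
      exact (mul_le_of_le_one_left (by positivity) (Ea.abs_T_le c hκ G)).trans
        (mul_le_mul_of_nonneg_right (Ea.abs_rho_le c hM5 hK _) (abs_nonneg _))
    refine le_trans (le_of_eq ?_) ((abs_sub _ _).trans (add_le_add h1 h2))
    congr 1
    by_cases hT : c.T j κ G = 0
    · simp [hT]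
    · simp only [Ctx.Fu]
      rw [avm_sub, Ea.mean_w c hM4 hj hT]
      ring
  refine abs_avm_le.trans ((avm_mono key).trans ?_)
  rw [avm_add, avm_add, avm_const, avm_mul_right, avm_mul_left]
  have h1 := mul_le_mul_of_nonneg_right (Ea.avm_dvd_le c hK) (show 0 ≤ 2 * K ^ 3 by positivity)
  have h2 := mul_le_mul_of_nonneg_left (Ea.second_le c hC hK) (show 0 ≤ K by linarith)
  have h3 : √c.Q ≤ c.Q := Real.sqrt_le_iff.2 ⟨by linarith, by nlinarith⟩
  have h4 : K ≤ K ^ 4 := le_self_pow₀ (by linarith) (by norm_num)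
  have h5 : 2 * K / c.Q + K / c.Q * (2 * K ^ 3) ≤ 4 * qR k * K ^ 4 / √c.Q := by
    rw [show 2 * K / c.Q + K / c.Q * (2 * K ^ 3) = (2 * K + 2 * K ^ 4) / c.Q by ring]
    refine div_le_div₀ (by positivity) ?_ hs h3
    nlinarith
  have h6 : 10 * qR k * K ^ 4 / √c.Q =
      4 * qR k * K ^ 4 / √c.Q + K * (6 * qR k * K ^ 3 / √c.Q) := by ring
  linarith

end Pool.Agent.Lib.MP_9227d9_nt.Mob
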