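import Pool.Agent.Lib.MP_9227d9_nt.MobOd

/-!
The weighted mean is small.
-/

namespace Pool.Agent.Lib.MP_9227d9_nt.Mob

open Polynomial

open scoped Classical

namespace Eb

variable {k : Type} [Field k] [Fintype k] [CharP k 2]

/-- The pairs for which a coprimality condition may fail. -/
def Bad (c : Ctx k) (u G : k[X]) : Prop :=
  ∃ p, IsP p ∧ 12 * c.τ ≤ p.natDegree ∧ p ∣ u ∧ (p ^ 2 ∣ u ∨ p ∣ G * c.Xs G * c.D₁)

omit [Fintype k] [CharP k 2] in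
theorem sq_dvd_or {p a u : k[X]} (hp : IsP p) (h : p ^ 2 ∣ a * u) : p ^ 2 ∣ u ∨ p ∣ a := by
  by_cases ha : p ∣ a
  · exact Or.inr ha
  · exact Or.inl (hp.prime.pow_dvd_of_dvd_mul_left 2 ha h)

theorem bad_of (c : Ctx k) {u G : k[X]} (hu : MD c.nu u) (h1 : c.W₁ (c.l₁ u G) ≠ 0)
    (h2 : c.W₂ (c.l₂ u G) ≠ 0)
    (h : ¬ (IsCoprime u (c.l₁ u G) ∧ IsCoprime (c.D₁ * u) (c.l₂ u G))) : Bad c u G := by
  rcases not_and_or.1 h with h | h
  · obtain ⟨p, hp, hpu, hpl⟩ := exists_isP_of_not_isCoprime hu.ne_zero h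
    obtain ⟨i, hi⟩ := natDegree_of_Wt_ne_zero h1 hp hpl
    have hi' := c.I₁_ge i
    refine ⟨p, hp, by omega, hpu, ?_⟩
    rcases sq_dvd_or hp (sq_dvd_of_dvd_od hp (hpu.mul_left G) hpl) with h3 | h3
    · exact Or.inl h3
    · exact Or.inr ((h3.mul_right _).mul_right _)
  · obtain ⟨p, hp, hpu, hpl⟩ :=
      exists_isP_of_not_isCoprime (mul_ne_zero c.D₁_monic.ne_zero hu.ne_zero) h
    obtain ⟨i, hi⟩ := natDegree_of_Wt_ne_zero h2 hp hpl
    have hi' := c.I₂_ge i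
    have hsq : p ^ 2 ∣ c.Xs G * c.D₁ * u := by
      refine sq_dvd_of_dvd_od hp ?_ hpl
      rw [mul_assoc]
      exact hpu.mul_left _
    by_cases hu' : p ∣ u
    · refine ⟨p, hp, by omega, hu', ?_⟩
      rcases sq_dvd_or hp hsq with h3 | h3
      · exact Or.inl h3
      · refine Or.inr ?_
        rw [mul_assoc]
        exact h3.mul_left _
    · exfalso
      have hD : p ∣ c.D₁ := (hp.prime.dvd_or_dvd hpu).resolve_right hu'
      have h3 : p ^ 2 ∣ c.Xs G * c.D₁ := hp.prime.pow_dvd_of_dvd_mul_right 2 hu' hsq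
      rcases sq_dvd_or hp h3 with h4 | h4
      · exact hp.prime.not_isUnit (c.D₁_sqf p (by rwa [sq] at h4))
      · have h5 : p ∣ c.h := (dvd_add_right ((hD.mul_right _).mul_right _)).1 h4
        exact hp.prime.not_isUnit (c.cop.isUnit_of_dvd' hD h5)

omit [CharP k 2] in
theorem avm_bad (hSQ : StSQ) (hEX : StEX) (c : Ctx k) {K : ℝ} (hK : KB k c.τ K) {G : k[X]}
    (hG : MD c.n' G) : avm c.nu (fun u => if Bad c u G then 1 else 0) ≤ 3 * K / c.Q := by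
  have hτ := c.τ_pos
  have hnu := c.nu_ge
  have hX := c.Xs_MD hG
  have hM : G * c.Xs G * c.D₁ ≠ 0 :=
    mul_ne_zero (mul_ne_zero hG.ne_zero hX.ne_zero) c.D₁_monic.ne_zero
  have hdeg : (G * c.Xs G * c.D₁).natDegree ≤ 6084 * c.τ := by
    rw [natDegree_mul (mul_ne_zero hG.ne_zero hX.ne_zero) c.D₁_monic.ne_zero,
      natDegree_mul hG.ne_zero hX.ne_zero, hG.2, hX.2]
    have h1 := c.D₁_deg
    have h2 := c.D₂_deg
    have h3 := c.nu_le
    have h4 := c.L_le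
    unfold Ctx.n'
    omega
  have h1 := hSQ k c.nu (12 * c.τ - 1)
  have h2 := hEX k (G * c.Xs G * c.D₁) (X ^ c.nu) 1 (12 * c.τ) c.nu hM (by omega) (by omega)
    (fun p hp _ hd => (isP_of_mem_pf hp).prime.not_isUnit (isUnit_of_dvd_one hd))
  have h3 : avm c.nu (fun u : k[X] => if ∃ p ∈ pf (G * c.Xs G * c.D₁),
      12 * c.τ ≤ p.natDegree ∧ p ∣ u then 1 else 0)
      ≤ (G * c.Xs G * c.D₁).natDegree / qR k ^ (12 * c.τ) := by
    refine le_trans (avg_mono fun v _ => ?_) h2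
    rw [one_mul]
  have h4 : avm c.nu (fun u => if Bad c u G then 1 else 0) ≤ avm c.nu (fun u : k[X] =>
      (((Mo k c.nu).filter fun g => 12 * c.τ - 1 < g.natDegree ∧ g ^ 2 ∣ u).card : ℝ) +
        if ∃ p ∈ pf (G * c.Xs G * c.D₁), 12 * c.τ ≤ p.natDegree ∧ p ∣ u then 1 else 0) := by
    refine avm_mono fun u hu => ?_
    have ha : (0 : ℝ) ≤ ((Mo k c.nu).filter fun g => 12 * c.τ - 1 < g.natDegree ∧ g ^ 2 ∣ u).card :=
      Nat.cast_nonneg _
    have hb : (0 : ℝ) ≤ if ∃ p ∈ pf (G * c.Xs G * c.D₁), 12 * c.τ ≤ p.natDegree ∧ p ∣ u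
        then 1 else 0 := by split_ifs <;> norm_num
    by_cases hbad : Bad c u G
    · rw [if_pos hbad]
      obtain ⟨p, hp, hpd, hpu, h5 | h5⟩ := hbad
      · have hmem : p ∈ (Mo k c.nu).filter fun g => 12 * c.τ - 1 < g.natDegree ∧ g ^ 2 ∣ u := by
          rw [Finset.mem_filter, mem_Mo]
          refine ⟨⟨hp.1, ?_⟩, by omega, h5⟩
          rw [← hu.2]
          exact natDegree_le_of_dvd hpu hu.ne_zero
        have h6 : (1 : ℝ) ≤ ((Mo k c.nu).filter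
            fun g => 12 * c.τ - 1 < g.natDegree ∧ g ^ 2 ∣ u).card := by
          exact_mod_cast Finset.card_pos.2 ⟨p, hmem⟩
        linarith
      · rw [if_pos ⟨p, (mem_pf hM).2 ⟨hp, h5⟩, hpd, hpu⟩]
        linarith
    · rw [if_neg hbad]
      linarith
  rw [avm_add] at h4
  have hq : (1 : ℝ) ≤ qR k := one_le_qR
  have hQ : (0 : ℝ) < c.Q := lt_of_lt_of_le two_pos c.two_le_Q
  have hK10 := hK.ten_le
  have h5 : 1 / qR k ^ (12 * c.τ - 1) ≤ K / c.Q := by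
    refine div_le_div₀ (by linarith) (by linarith) hQ ?_
    exact pow_le_pow_right₀ hq (by omega)
  have h6 : ((G * c.Xs G * c.D₁).natDegree : ℝ) / qR k ^ (12 * c.τ) ≤ 2 * K / c.Q := by
    refine div_le_div₀ (by linarith) ?_ hQ (pow_le_pow_right₀ hq (by omega))
    have h7 : ((G * c.Xs G * c.D₁).natDegree : ℝ) ≤ 6084 * c.τ := by exact_mod_cast hdeg
    have h8 := hK.lin
    have h9 : (0 : ℝ) ≤ c.τ := Nat.cast_nonneg _
    linarith
  have h7 : 3 * K / c.Q = K / c.Q + 2 * K / c.Q := by ring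
  linarith

theorem Z_shift (c : Ctx k) (u G s : k[X]) :
    c.Z (G + u * s ^ 2) = c.Z G + s * od (u * (c.h * c.D₁)) := by
  unfold Ctx.Z
  rw [← od_mul_sq, ← od_add]
  congr 1
  ring

theorem term_le (hSQ : StSQ) (hEX : StEX) (c : Ctx k) {K B : ℝ} (hK : KB k c.τ K) (j : ℕ)
    (κ : k[X] → ℝ) (M₀ : k[X]) (hκ : ∀ G, |κ G| ≤ 1) (hM₀ : M₀ ≠ 0) (hdeg : M₀.natDegree ≤ c.τ)
    (hper : ∀ G t, κ (G + M₀ * t) = κ G) (S : Finset k[X]) (hS : S ∈ SS k c.τ (12 * c.τ))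
    (hB0 : 0 ≤ B)
    (hB : ∀ u G w₀ : k[X], MD c.nu u → MD c.n' G → w₀ ≠ 0 → w₀.natDegree ≤ 2 * c.τ →
      c.W₁ (c.l₁ u G) ≠ 0 → c.W₂ (c.l₂ u G) ≠ 0 →
      IsCoprime u (c.l₁ u G) → IsCoprime (c.D₁ * u) (c.l₂ u G) →
      |avg (76 * c.τ) fun σ => mu (G + u * (w₀ * σ) ^ 2) ^ j * mu (c.Xs (G + u * (w₀ * σ) ^ 2))|
        ≤ B) :
    |avm c.n' fun G => avm c.nu fun u => c.T j κ G * (if ∀ p ∈ S, p ∣ c.Z G then 1 else 0) *
      (c.W₁ (c.l₁ u G) * c.W₂ (c.l₂ u G))| ≤ K ^ 2 * (B + 3 * K / c.Q) := by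
  obtain ⟨hS1, hS2⟩ := mem_SS.1 hS
  have hSP : ∀ p ∈ S, IsP p := fun p hp => (hS1 p hp).1
  have hR := monic_prod hSP
  have hRd := natDegree_prod_isP hSP
  set R := ∏ p ∈ S, p with hRdef
  have hw0 : R * M₀ ≠ 0 := mul_ne_zero hR.ne_zero hM₀
  have hwd : (R * M₀).natDegree ≤ 2 * c.τ := by
    rw [natDegree_mul hR.ne_zero hM₀]
    omega
  have hK10 := hK.ten_le
  rw [avm_comm]
  have key : ∀ u, MD c.nu u →
      |avm c.n' fun G => c.T j κ G * (if ∀ p ∈ S, p ∣ c.Z G then 1 else 0) *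
        (c.W₁ (c.l₁ u G) * c.W₂ (c.l₂ u G))|
      ≤ avm c.n' fun G => K ^ 2 * (B + if Bad c u G then 1 else 0) := by
    intro u hu
    rw [avm_avg_shift (76 * c.τ) (fun σ => u * (R * M₀ * σ) ^ 2) (fun σ hσ => by
      have h1 : u * (R * M₀ * σ) ^ 2 = (u * (R * M₀) ^ 2) * σ ^ 2 := by ring
      rw [h1]
      refine degree_mul_sq_lt hσ ?_
      rw [natDegree_mul hu.ne_zero (pow_ne_zero 2 hw0), natDegree_pow, hu.2]
      have h2 := c.L_ge
      have h3 := c.τ_pos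
      unfold Ctx.n'
      omega)]
    refine abs_avm_le.trans (avm_mono fun G hG => ?_)
    obtain ⟨-, hl1, hl2, -⟩ := stDg k c u G
    have h1 : avg (76 * c.τ) (fun σ => c.T j κ (G + u * (R * M₀ * σ) ^ 2) *
          (if ∀ p ∈ S, p ∣ c.Z (G + u * (R * M₀ * σ) ^ 2) then 1 else 0) *
          (c.W₁ (c.l₁ u (G + u * (R * M₀ * σ) ^ 2)) * c.W₂ (c.l₂ u (G + u * (R * M₀ * σ) ^ 2))))
        = (κ G * (if ∀ p ∈ S, p ∣ c.Z G then 1 else 0) * (c.W₁ (c.l₁ u G) * c.W₂ (c.l₂ u G))) *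
          avg (76 * c.τ) fun σ => mu (G + u * (R * M₀ * σ) ^ 2) ^ j *
            mu (c.Xs (G + u * (R * M₀ * σ) ^ 2)) := by
      rw [← avg_mul_left]
      refine avg_congr fun σ _ => ?_
      have e1 : κ (G + u * (R * M₀ * σ) ^ 2) = κ G := by
        have : u * (R * M₀ * σ) ^ 2 = M₀ * (u * R ^ 2 * M₀ * σ ^ 2) := by ring
        rw [this, hper]
      have e2 : (∀ p ∈ S, p ∣ c.Z (G + u * (R * M₀ * σ) ^ 2)) ↔ ∀ p ∈ S, p ∣ c.Z G := by
        refine forall₂_congr fun p hp => ?_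
        rw [Z_shift]
        refine dvd_add_left ?_
        exact (((Finset.dvd_prod_of_mem (fun p => p) hp).mul_right _).mul_right _).mul_right _
      rw [hl1, hl2, Ctx.T, e1, if_congr e2 rfl rfl]
      ring
    rw [h1, abs_mul]
    have hind : (0 : ℝ) ≤ if Bad c u G then 1 else 0 := by split_ifs <;> norm_num
    by_cases hW : c.W₁ (c.l₁ u G) ≠ 0 ∧ c.W₂ (c.l₂ u G) ≠ 0
    · have ha : |κ G * (if ∀ p ∈ S, p ∣ c.Z G then 1 else 0) *
          (c.W₁ (c.l₁ u G) * c.W₂ (c.l₂ u G))| ≤ K ^ 2 := by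
        have hi : |(if ∀ p ∈ S, p ∣ c.Z G then (1 : ℝ) else 0)| ≤ 1 := by split_ifs <;> norm_num
        rw [abs_mul, abs_mul, abs_mul]
        calc _ ≤ 1 * 1 * (K * K) :=
              mul_le_mul (mul_le_mul (hκ G) hi (abs_nonneg _) zero_le_one)
                (mul_le_mul (c.W₁_le hK _) (c.W₂_le hK _) (abs_nonneg _) (by linarith))
                (by positivity) (by norm_num)
          _ = K ^ 2 := by ring
      refine mul_le_mul ha ?_ (abs_nonneg _) (by positivity)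
      by_cases hc : IsCoprime u (c.l₁ u G) ∧ IsCoprime (c.D₁ * u) (c.l₂ u G)
      · exact (hB u G _ hu hG hw0 hwd hW.1 hW.2 hc.1 hc.2).trans (by linarith)
      · rw [if_pos (bad_of c hu hW.1 hW.2 hc)]
        refine (abs_avg_le_of_le (B := 1) fun σ _ => ?_).trans (by linarith)
        rw [abs_mul, abs_pow]
        exact mul_le_one₀ (pow_le_one₀ (abs_nonneg _) (abs_mu_le _)) (abs_nonneg _) (abs_mu_le _)
    · have h0 : c.W₁ (c.l₁ u G) * c.W₂ (c.l₂ u G) = 0 := by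
        rcases not_and_or.1 hW with h | h
        · rw [not_not.1 h, zero_mul]
        · rw [not_not.1 h, mul_zero]
      rw [h0, mul_zero, abs_zero, zero_mul]
      positivity
  refine (abs_avm_le.trans (avm_mono key)).trans ?_
  rw [avm_comm]
  refine avm_le_of_le fun G hG => ?_
  rw [avm_mul_left, avm_add, avm_const]
  exact mul_le_mul_of_nonneg_left (by linarith [avm_bad hSQ hEX c hK hG]) (by positivity)

theorem root_le {x C Q : ℝ} {N : ℕ} (hN : 1 ≤ N) (hx : 0 ≤ x) (hQ : 1 ≤ Q)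
    (h : x ^ N ≤ C / Q ^ 12) : x ≤ (|C| + 1) / Q ^ ((N : ℝ)⁻¹) := by
  have hQ0 : 0 < Q := by linarith
  have hC : 1 ≤ |C| + 1 := by linarith [abs_nonneg C]
  have h1 : x ^ N ≤ (|C| + 1) / Q :=
    h.trans (div_le_div₀ (by linarith) (by linarith [le_abs_self C]) hQ0
      (le_self_pow₀ hQ (by norm_num)))
  have hN' : (1 : ℝ) ≤ N := by exact_mod_cast hN
  have h2 : x ≤ ((|C| + 1) / Q) ^ ((N : ℝ)⁻¹) := by
    rw [← Real.pow_rpow_inv_natCast hx (show N ≠ 0 by omega)]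
    exact Real.rpow_le_rpow (pow_nonneg hx _) h1 (by positivity)
  refine h2.trans ?_
  rw [Real.div_rpow (by linarith) hQ0.le]
  refine div_le_div_of_nonneg_right ?_ (Real.rpow_nonneg hQ0.le _)
  exact Real.rpow_le_self_of_one_le hC (inv_le_one_of_one_le₀ hN')

end Eb

theorem stEb (hC : StC) (hSQ : StSQ) (hEX : StEX) (hM5 : StM5) : StEb := by
  obtain ⟨C, hC⟩ := hC
  refine ⟨|C| + 4, fun k _ _ _ c K j κ M₀ hK hj hκ hM₀ hdeg hper => ?_⟩
  have hQ : (1 : ℝ) ≤ c.Q := le_trans one_le_two c.two_le_Q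
  have hQ0 : (0 : ℝ) < c.Q := by linarith
  have hK10 := hK.ten_le
  have hN : 1 ≤ 2 ^ 134 := Nat.one_le_two_pow
  have he : (1 / 2 ^ 134 : ℝ) = (((2 ^ 134 : ℕ) : ℝ))⁻¹ := by
    rw [one_div, Nat.cast_pow, Nat.cast_ofNat]
  rw [he]
  generalize 2 ^ 134 = N at hC hN
  have hN' : (1 : ℝ) ≤ N := by exact_mod_cast hN
  have hQe : 0 < c.Q ^ ((N : ℝ)⁻¹) := Real.rpow_pos_of_pos hQ0 _
  have hQe' : c.Q ^ ((N : ℝ)⁻¹) ≤ c.Q :=
    Real.rpow_le_self_of_one_le hQ (inv_le_one_of_one_le₀ hN')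
  have hterm : ∀ S ∈ SS k c.τ (12 * c.τ),
      |avm c.n' fun G => avm c.nu fun u => c.T j κ G * (if ∀ p ∈ S, p ∣ c.Z G then 1 else 0) *
        (c.W₁ (c.l₁ u G) * c.W₂ (c.l₂ u G))| ≤ (|C| + 4) * K ^ 3 / c.Q ^ ((N : ℝ)⁻¹) := by
    intro S hS
    refine (Eb.term_le hSQ hEX c hK j κ M₀ hκ hM₀ hdeg hper S hS
      (B := (|C| + 1) / c.Q ^ ((N : ℝ)⁻¹)) (by positivity)
      (fun u G w₀ hu hG hw hwd h1 h2 h3 h4 => Eb.root_le hN (abs_nonneg _) hQ
        (hC k c u G w₀ j hu hG hw hwd hj h1 h2 h3 h4))).trans ?_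
    have h1 : 3 * K / c.Q ≤ 3 * K / c.Q ^ ((N : ℝ)⁻¹) :=
      div_le_div_of_nonneg_left (by linarith) hQe hQe'
    have h2 : (|C| + 1) / c.Q ^ ((N : ℝ)⁻¹) ≤ (|C| + 1) * K / c.Q ^ ((N : ℝ)⁻¹) :=
      div_le_div_of_nonneg_right (le_mul_of_one_le_right (by positivity) (by linarith)) hQe.le
    calc _ ≤ K ^ 2 * ((|C| + 1) * K / c.Q ^ ((N : ℝ)⁻¹) + 3 * K / c.Q ^ ((N : ℝ)⁻¹)) :=
          mul_le_mul_of_nonneg_left (add_le_add h2 h1) (by positivity)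
      _ = _ := by ring
  have hexp : (avm c.n' fun G => c.T j κ G * (rho c.τ (12 * c.τ) (c.Z G) *
      avm c.nu fun u => c.W₁ (c.l₁ u G) * c.W₂ (c.l₂ u G)))
      = ∑ S ∈ SS k c.τ (12 * c.τ), (∏ p ∈ S, -1 / Nm p) *
        avm c.n' fun G => avm c.nu fun u => c.T j κ G * (if ∀ p ∈ S, p ∣ c.Z G then 1 else 0) *
          (c.W₁ (c.l₁ u G) * c.W₂ (c.l₂ u G)) := by
    simp only [← avm_mul_left (n := c.n')]
    rw [← avm_sum]
    refine avm_congr fun G _ => ?_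
    rw [rho, Finset.sum_filter, Finset.sum_mul, Finset.mul_sum]
    refine Finset.sum_congr rfl fun S _ => ?_
    rw [avm_mul_left]
    split_ifs <;> ring
  rw [hexp]
  refine (Finset.abs_sum_le_sum_abs _ _).trans ?_
  have hsum := (hM5 k c.τ c.τ (12 * c.τ) 0 le_rfl).1
  have hτK : (c.τ : ℝ) + 1 ≤ K := by
    have h1 := hK.lin
    have h2 : (0 : ℝ) ≤ c.τ := Nat.cast_nonneg _
    linarith
  calc _ ≤ ∑ S ∈ SS k c.τ (12 * c.τ), (∏ p ∈ S, 1 / Nm p) *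
          ((|C| + 4) * K ^ 3 / c.Q ^ ((N : ℝ)⁻¹)) := by
        refine Finset.sum_le_sum fun S hS => ?_
        have h1 : |∏ p ∈ S, -1 / Nm p| = ∏ p ∈ S, 1 / Nm p := by
          rw [Finset.abs_prod]
          refine Finset.prod_congr rfl fun p _ => ?_
          rw [abs_div, abs_neg, abs_one, abs_of_pos (Nm_pos p)]
        rw [abs_mul, h1]
        exact mul_le_mul_of_nonneg_left (hterm S hS)
          (Finset.prod_nonneg fun p _ => (one_div_pos.2 (Nm_pos p)).le)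
    _ ≤ K * ((|C| + 4) * K ^ 3 / c.Q ^ ((N : ℝ)⁻¹)) := by
        rw [← Finset.sum_mul]
        exact mul_le_mul_of_nonneg_right (hsum.trans hτK) (by positivity)
    _ = _ := by ring

end Pool.Agent.Lib.MP_9227d9_nt.Mob
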