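import Pool.Agent.Lib.MP_9227d9_nt.MobOd

/-!
The main theorem from the core estimate and the decomposition of sums over primes.
-/

namespace Pool.Agent.Lib.MP_9227d9_nt.Mob

open Polynomial

open scoped Classical

namespace Main

variable {k : Type} [Field k] [Fintype k]

theorem filter_Mo_eq {N e : ℕ} (h : e ≤ N) :
    (Mo k N).filter (fun f => f.natDegree = e) = (Mo k e).filter (fun f => f.natDegree = e) := by
  ext f
  simp only [Finset.mem_filter, mem_Mo]
  constructor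
  · rintro ⟨⟨h1, _⟩, h3⟩
    exact ⟨⟨h1, h3.le⟩, h3⟩
  · rintro ⟨⟨h1, _⟩, h3⟩
    exact ⟨⟨h1, h3.le.trans h⟩, h3⟩

theorem sum_Mo_eq (n : ℕ) (g : ℕ → ℝ) :
    ∑ D ∈ Mo k n, g D.natDegree = ∑ e ∈ Finset.range (n + 1), qR k ^ e * g e := by
  rw [← Finset.sum_fiberwise_of_maps_to (s := Mo k n) (t := Finset.range (n + 1))
    (g := fun D => D.natDegree)]
  · refine Finset.sum_congr rfl fun e he => ?_
    have he' : e ≤ n := Nat.lt_succ_iff.mp (Finset.mem_range.mp he)
    rw [Finset.sum_congr rfl (g := fun _ => g e)]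
    · rw [Finset.sum_const, nsmul_eq_mul, card_MD n e he']
    · intro D hD
      rw [(Finset.mem_filter.mp hD).2]
  · intro D hD
    exact Finset.mem_range.mpr (Nat.lt_succ_of_le (mem_Mo.mp hD).2)

theorem sum_one (n : ℕ) : ∑ D ∈ Mo k n, 1 / qR k ^ D.natDegree = n + 1 := by
  rw [sum_Mo_eq n (fun e => 1 / qR k ^ e)]
  have hq : (0 : ℝ) < qR k := qR_pos
  rw [Finset.sum_congr rfl (g := fun _ => (1 : ℝ))]
  · simp
  · intro e _
    field_simp

theorem geom_le (q : ℝ) (hq : 2 ≤ q) (n : ℕ) :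
    ∑ e ∈ Finset.range n, 1 / q ^ e ≤ 2 - 2 / q ^ n := by
  induction n with
  | zero => simp
  | succ n ih =>
    rw [Finset.sum_range_succ]
    have h0 : 0 < q ^ n := by positivity
    have h1 : 2 / q ^ (n + 1) ≤ 1 / q ^ n := by
      rw [div_le_div_iff₀ (by positivity) h0, pow_succ]
      nlinarith
    have h2 : 2 / q ^ n = 1 / q ^ n + 1 / q ^ n := by ring
    linarith

theorem geom_tail_le (q : ℝ) (hq : 2 ≤ q) (τ n : ℕ) :
    ∑ e ∈ Finset.range n, (if τ < e then 1 / q ^ e else 0) ≤ 1 / q ^ τ := by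
  have key : ∀ m : ℕ, ∑ e ∈ Finset.range (τ + 1 + m), (if τ < e then 1 / q ^ e else 0) ≤
      1 / q ^ τ - 1 / q ^ (τ + m) := by
    intro m
    induction m with
    | zero =>
      rw [Finset.sum_eq_zero]
      · simp
      · intro e he
        rw [if_neg]
        have := Finset.mem_range.mp he
        omega
    | succ m ih =>
      rw [← add_assoc, Finset.sum_range_succ, if_pos (by omega)]
      have h0 : 0 < q ^ (τ + m) := by positivity
      have h1 : 2 / q ^ (τ + m + 1) ≤ 1 / q ^ (τ + m) := by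
        rw [div_le_div_iff₀ (by positivity) h0, pow_succ]
        nlinarith
      have h2 : τ + 1 + m = τ + m + 1 := by ring
      have h3 : τ + (m + 1) = τ + m + 1 := by ring
      rw [h3]
      rw [h2] at ih ⊢
      have h4 : 2 / q ^ (τ + m + 1) = 1 / q ^ (τ + m + 1) + 1 / q ^ (τ + m + 1) := by ring
      linarith
  have h1 : ∑ e ∈ Finset.range n, (if τ < e then 1 / q ^ e else 0) ≤
      ∑ e ∈ Finset.range (τ + 1 + n), (if τ < e then 1 / q ^ e else 0) := by
    refine Finset.sum_le_sum_of_subset_of_nonneg (Finset.range_mono (by omega)) ?_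
    intro e _ _
    split_ifs
    · positivity
    · exact le_rfl
  have h2 : (0 : ℝ) ≤ 1 / q ^ (τ + n) := by positivity
  linarith [key n]

theorem sum_two (n τ : ℕ) {B : ℝ} (hB : 0 ≤ B) :
    ∑ D ∈ Mo k n, 1 / qR k ^ (2 * D.natDegree) * (B + if τ < D.natDegree then 1 else 0) ≤
      2 * B + 1 / qR k ^ τ := by
  rw [sum_Mo_eq n (fun e => 1 / qR k ^ (2 * e) * (B + if τ < e then 1 else 0))]
  have hq : (0 : ℝ) < qR k := qR_pos
  have h1 : ∀ e ∈ Finset.range (n + 1),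
      qR k ^ e * (1 / qR k ^ (2 * e) * (B + if τ < e then 1 else 0)) =
        B * (1 / qR k ^ e) + (if τ < e then 1 / qR k ^ e else 0) := by
    intro e _
    rw [two_mul, pow_add]
    split_ifs
    · field_simp
    · field_simp
      ring
  rw [Finset.sum_congr rfl h1, Finset.sum_add_distrib, ← Finset.mul_sum]
  have h2 := geom_le (qR k) two_le_qR (n + 1)
  have h3 := geom_tail_le (qR k) two_le_qR τ (n + 1)
  have h4 : (0 : ℝ) ≤ 2 / qR k ^ (n + 1) := by positivity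
  nlinarith

/-- The periodic factor. -/
noncomputable def kap (h E a F : k[X]) : ℝ :=
  if E ∣ F - a ∧ IsCoprime F h then 1 else 0

omit [Fintype k] in
theorem abs_kap_le (h E a F : k[X]) : |kap h E a F| ≤ 1 := by
  unfold kap
  split_ifs <;> simp

omit [Fintype k] in
theorem kap_periodic (h E a D G t : k[X]) :
    kap h E a (D * (G + h * E * t)) = kap h E a (D * G) := by
  unfold kap
  have h1 : E ∣ D * (G + h * E * t) - a ↔ E ∣ D * G - a := by
    have : D * (G + h * E * t) - a = D * G - a + E * (D * h * t) := by ring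
    rw [this]
    exact (dvd_add_left (Dvd.intro _ rfl))
  have h2 : IsCoprime (D * (G + h * E * t)) h ↔ IsCoprime (D * G) h := by
    have : D * (G + h * E * t) = D * G + h * (D * E * t) := by ring
    rw [this]
    exact IsCoprime.add_mul_left_left_iff
  simp only [h1, h2]

omit [Fintype k] in
theorem abs_term_le (j : ℕ) (h E a G F : k[X]) :
    |mu G ^ j * mu (F + h) * kap h E a F| ≤ 1 := by
  rw [abs_mul, abs_mul, abs_pow]
  have h1 : |mu G| ^ j ≤ 1 := pow_le_one₀ (abs_nonneg _) (abs_mu_le G)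
  have h2 := abs_mu_le (F + h)
  have h3 := abs_kap_le h E a F
  have h4 : |mu G| ^ j * |mu (F + h)| ≤ 1 :=
    mul_le_one₀ h1 (abs_nonneg _) h2
  exact mul_le_one₀ h4 (abs_nonneg _) h3

/-- The bound for one pair of moduli. -/
theorem inner_le (n τ : ℕ) (B : ℝ) (hB : 0 ≤ B) (h E a D₁ D₂ : k[X])
    (hcore : ∀ (n' j : ℕ), 1 ≤ j → Squarefree D₁ → IsCoprime D₁ h → D₂.natDegree ≤ τ →
      2 * D₁.natDegree ≤ n → n' + D₁.natDegree + 2 * D₂.natDegree = n →
      |avm n' fun G => mu G ^ j * mu (D₁ * D₂ ^ 2 * G + h) * kap h E a (D₁ * D₂ ^ 2 * G)| ≤ B) :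
    |∑ G ∈ (Mo k n).filter (fun G => D₁.natDegree + 2 * D₂.natDegree + G.natDegree = n),
        coef n D₁ D₂ G * (mu (D₁ * D₂ ^ 2 * G + h) * kap h E a (D₁ * D₂ ^ 2 * G))| ≤
      2 * n * qR k ^ n * (1 / qR k ^ D₁.natDegree *
        (1 / qR k ^ (2 * D₂.natDegree) * (B + if τ < D₂.natDegree then 1 else 0))) := by
  have hq : (0 : ℝ) < qR k := qR_pos
  have hw : 0 ≤ B + if τ < D₂.natDegree then (1 : ℝ) else 0 := by
    split_ifs <;> linarith
  have hR : 0 ≤ 2 * n * qR k ^ n * (1 / qR k ^ D₁.natDegree *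
        (1 / qR k ^ (2 * D₂.natDegree) * (B + if τ < D₂.natDegree then 1 else 0))) := by
    positivity
  by_cases hd : D₁.natDegree + 2 * D₂.natDegree ≤ n
  swap
  · rw [Finset.sum_eq_zero]
    · simpa using hR
    · intro G hG
      have := (Finset.mem_filter.mp hG).2
      omega
  by_cases hs : Squarefree D₁
  swap
  · have h0 : mu D₁ = 0 := by
      by_contra h0
      exact hs (mu_ne_zero_iff.mp h0)
    rw [Finset.sum_eq_zero]
    · simpa using hR
    · intro G _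
      simp [coef, h0]
  by_cases hc : IsCoprime D₁ h
  swap
  · rw [Finset.sum_eq_zero]
    · simpa using hR
    · intro G _
      have : kap h E a (D₁ * D₂ ^ 2 * G) = 0 := by
        unfold kap
        rw [if_neg]
        rintro ⟨_, h2⟩
        rw [mul_assoc] at h2
        exact hc h2.of_mul_left_left
      simp [this]
  by_cases h2 : 2 * D₁.natDegree ≤ n
  swap
  · rw [Finset.sum_eq_zero]
    · simpa using hR
    · intro G _
      have h3 : ¬ 2 * (D₁.natDegree + 2 * D₂.natDegree) < n := by omega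
      simp [coef, h2, h3]
  obtain ⟨n', hn'⟩ : ∃ n', n' + D₁.natDegree + 2 * D₂.natDegree = n :=
    ⟨n - (D₁.natDegree + 2 * D₂.natDegree), by omega⟩
  have hfil : (Mo k n).filter (fun G => D₁.natDegree + 2 * D₂.natDegree + G.natDegree = n) =
      (Mo k n').filter (fun G => G.natDegree = n') := by
    rw [← filter_Mo_eq (N := n) (by omega)]
    refine Finset.filter_congr fun G _ => ?_
    omega
  set w : ℝ := B + if τ < D₂.natDegree then 1 else 0 with hwdef
  have hav : ∀ j : ℕ, 1 ≤ j →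
      |avm n' fun G => mu G ^ j * mu (D₁ * D₂ ^ 2 * G + h) * kap h E a (D₁ * D₂ ^ 2 * G)| ≤ w := by
    intro j hj
    by_cases hτ : τ < D₂.natDegree
    · have : |avm n' fun G => mu G ^ j * mu (D₁ * D₂ ^ 2 * G + h) *
          kap h E a (D₁ * D₂ ^ 2 * G)| ≤ 1 :=
        abs_avm_le_of_le fun G _ => abs_term_le j h E a G _
      rw [hwdef, if_pos hτ]
      linarith
    · have := hcore n' j hj hs hc (by omega) h2 hn'
      rw [hwdef, if_neg hτ]
      linarith
  set A₁ : ℝ := mu D₁ * ((n : ℝ) - D₁.natDegree) with hA₁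
  set A₂ : ℝ := if 2 * (D₁.natDegree + 2 * D₂.natDegree) < n then
    mu D₁ ^ 2 * ((D₁.natDegree : ℝ) + 2 * D₂.natDegree) else 0 with hA₂
  have hdR : (D₁.natDegree : ℝ) + 2 * D₂.natDegree ≤ n := by exact_mod_cast hd
  have hd1 : (0 : ℝ) ≤ D₁.natDegree := Nat.cast_nonneg _
  have hd2 : (0 : ℝ) ≤ D₂.natDegree := Nat.cast_nonneg _
  have hA₁le : |A₁| ≤ n := by
    rw [hA₁, abs_mul, abs_of_nonneg (show (0 : ℝ) ≤ (n : ℝ) - D₁.natDegree by linarith)]
    have := abs_mu_le D₁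
    have := abs_nonneg (mu D₁)
    nlinarith
  have hA₂le : |A₂| ≤ n := by
    rw [hA₂]
    split_ifs
    · rw [abs_mul, abs_pow,
        abs_of_nonneg (show (0 : ℝ) ≤ (D₁.natDegree : ℝ) + 2 * D₂.natDegree by linarith)]
      have h1 : |mu D₁| ^ 2 ≤ 1 := pow_le_one₀ (abs_nonneg _) (abs_mu_le D₁)
      have h3 : 0 ≤ |mu D₁| ^ 2 := by positivity
      nlinarith
    · simp
  have hsum : ∑ G ∈ (Mo k n').filter (fun G => G.natDegree = n'),
      coef n D₁ D₂ G * (mu (D₁ * D₂ ^ 2 * G + h) * kap h E a (D₁ * D₂ ^ 2 * G)) =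
      qR k ^ n' * (A₁ * (avm n' fun G => mu G ^ 2 * mu (D₁ * D₂ ^ 2 * G + h) *
        kap h E a (D₁ * D₂ ^ 2 * G)) + A₂ * (avm n' fun G => mu G ^ 1 *
          mu (D₁ * D₂ ^ 2 * G + h) * kap h E a (D₁ * D₂ ^ 2 * G))) := by
    rw [← avm_mul_left, ← avm_mul_left, ← avm_add, avm_eq_sum, mul_div_cancel₀ _ (by positivity)]
    refine Finset.sum_congr rfl fun G _ => ?_
    rw [hA₁, hA₂]
    unfold coef
    rw [if_pos h2]
    split_ifs <;> ring
  rw [hfil, hsum, abs_mul, abs_of_pos (by positivity : (0 : ℝ) < qR k ^ n')]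
  have hb : |A₁ * (avm n' fun G => mu G ^ 2 * mu (D₁ * D₂ ^ 2 * G + h) *
        kap h E a (D₁ * D₂ ^ 2 * G)) + A₂ * (avm n' fun G => mu G ^ 1 *
          mu (D₁ * D₂ ^ 2 * G + h) * kap h E a (D₁ * D₂ ^ 2 * G))| ≤ 2 * n * w := by
    refine (abs_add_le _ _).trans ?_
    rw [abs_mul A₁, abs_mul A₂]
    have e1 := mul_le_mul hA₁le (hav 2 (by norm_num)) (abs_nonneg _) (Nat.cast_nonneg _)
    have e2 := mul_le_mul hA₂le (hav 1 le_rfl) (abs_nonneg _) (Nat.cast_nonneg _)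
    linarith
  have hpow : qR k ^ n = qR k ^ n' * qR k ^ D₁.natDegree * qR k ^ (2 * D₂.natDegree) := by
    rw [← pow_add, ← pow_add, hn']
  calc qR k ^ n' * _ ≤ qR k ^ n' * (2 * n * w) := by gcongr
    _ = _ := by
      rw [hpow]
      field_simp

theorem finsum_eq (n : ℕ) (h E a : k[X]) :
    ∑ᶠ P ∈ {P : k[X] | P.Monic ∧ Irreducible P ∧ P.natDegree = n ∧ E ∣ P - a},
        ((UniqueFactorizationMonoid.moebius (P + h) : ℤ) : ℝ) =
      ∑ P ∈ (PrD k n).filter (fun P => E ∣ P - a), mu (P + h) := by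
  rw [← finsum_mem_coe_finset]
  congr 1
  ext P
  have : P ∈ {P : k[X] | P.Monic ∧ Irreducible P ∧ P.natDegree = n ∧ E ∣ P - a} ↔
      P ∈ (((PrD k n).filter (fun P => E ∣ P - a) : Finset k[X]) : Set k[X]) := by
    simp only [Set.mem_ofPred_eq, Finset.coe_filter, mem_PrD, IsP]
    tauto
  simp only [this, mu]

theorem trivial_le (n : ℕ) (h E a : k[X]) :
    |∑ P ∈ (PrD k n).filter (fun P => E ∣ P - a), mu (P + h)| ≤ qR k ^ n := by
  refine (Finset.abs_sum_le_sum_abs _ _).trans ?_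
  refine (Finset.sum_le_card_nsmul _ _ 1 fun P _ => abs_mu_le _).trans ?_
  rw [nsmul_eq_mul, mul_one, ← card_MD n n le_rfl]
  refine Nat.cast_le.mpr (Finset.card_le_card ?_)
  intro P hP
  have h1 := mem_PrD.mp (Finset.mem_filter.mp hP).1
  exact Finset.mem_filter.mpr ⟨mem_Mo.mpr ⟨h1.1.1, h1.2.le⟩, h1.2⟩

theorem lin_le (q c : ℝ) (hq : 2 ≤ q) (hc : 0 < c) (n : ℕ) :
    (n : ℝ) + 1 ≤ (2 / c + 1) * q ^ (c * n) := by
  have hl : (1 / 2 : ℝ) ≤ Real.log q := by
    have h1 : Real.log 2 ≤ Real.log q := Real.log_le_log (by norm_num) hq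
    have h2 := Real.log_two_gt_d9
    linarith
  have hn : (0 : ℝ) ≤ n := Nat.cast_nonneg _
  have h1 : 1 + c * n / 2 ≤ q ^ (c * n) := by
    rw [Real.rpow_def_of_pos (by linarith)]
    have h2 := Real.add_one_le_exp (Real.log q * (c * n))
    have h3 : c * n / 2 ≤ Real.log q * (c * n) := by
      have : 0 ≤ c * n := by positivity
      nlinarith
    linarith
  have h4 : (n : ℝ) + 1 ≤ (2 / c + 1) * (1 + c * n / 2) := by
    have e : (2 / c + 1) * (1 + c * n / 2) = 2 / c + n + 1 + c * n / 2 := by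
      field_simp
      ring
    rw [e]
    have : 0 ≤ 2 / c := by positivity
    have : 0 ≤ c * n / 2 := by positivity
    linarith
  calc (n : ℝ) + 1 ≤ (2 / c + 1) * (1 + c * n / 2) := h4
    _ ≤ _ := by gcongr

end Main

open Main in
theorem stMain (hC : StCore) (hL : StLam) : StMain := by
  obtain ⟨c, hc, hC⟩ := hC
  set c₀ : ℝ := min c 1 with hc₀
  have hc₀pos : 0 < c₀ := lt_min hc one_pos
  have hc₀c : c₀ ≤ c := min_le_left _ _
  have hc₀1 : c₀ ≤ 1 := min_le_right _ _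
  set cm : ℝ := c₀ / 4002 with hcm
  have hcmpos : 0 < cm := by positivity
  refine ⟨cm, hcmpos, fun k _ _ _ => ?_⟩
  obtain ⟨C, hC⟩ := hC k
  have hq2 : (2 : ℝ) ≤ qR k := two_le_qR
  have hq : (0 : ℝ) < qR k := qR_pos
  have hq1 : (1 : ℝ) ≤ qR k := one_le_qR
  refine ⟨qR k ^ 4000000 + 2 + 2 * (2 / cm + 1) * (2 * |C| + 1), fun n h E a hh hE hdh hdE => ?_⟩
  rw [finsum_eq]
  change _ ≤ _ * qR k ^ ((1 - cm) * n)
  have hn0 : (0 : ℝ) ≤ n := Nat.cast_nonneg _
  have hP : 0 < qR k ^ ((1 - cm) * n) := Real.rpow_pos_of_pos hq _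
  have hX : (0 : ℝ) ≤ 2 * (2 / cm + 1) * (2 * |C| + 1) := by positivity
  have hY : (0 : ℝ) ≤ qR k ^ 4000000 := by positivity
  have hcm1 : cm ≤ 1 / 4002 := by
    rw [hcm]
    linarith
  by_cases hn : n < 4000000
  · refine (trivial_le n h E a).trans ?_
    have h1 : qR k ^ n ≤ qR k ^ 4000000 := pow_le_pow_right₀ hq1 hn.le
    have h2 : 1 ≤ qR k ^ ((1 - cm) * n) :=
      Real.one_le_rpow hq1 (mul_nonneg (by linarith) hn0)
    calc qR k ^ n ≤ qR k ^ 4000000 * 1 := by linarith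
      _ ≤ _ := by
        refine mul_le_mul (by linarith) h2 zero_le_one (by linarith)
  push Not at hn
  set τ : ℕ := n / 2000 with hτ
  have hτ1 : 2000 * τ ≤ n := by omega
  have hτ2 : n ≤ 2001 * τ := by omega
  have hτ2R : (n : ℝ) ≤ 2001 * τ := by exact_mod_cast hτ2
  have hnpos : (0 : ℝ) < n := by
    have : 0 < n := by omega
    exact_mod_cast this
  have hM : (h * E).natDegree ≤ τ := by
    rw [natDegree_mul hh hE]
    have : ((h.natDegree + E.natDegree : ℕ) : ℝ) ≤ τ := by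
      push_cast
      nlinarith
    exact_mod_cast this
  have hhτ : h.natDegree ≤ τ := by
    rw [natDegree_mul hh hE] at hM
    omega
  have hφ : ∑ P ∈ (PrD k n).filter (fun P => E ∣ P - a), mu (P + h) =
      ∑ P ∈ PrD k n, mu (P + h) * kap h E a P := by
    rw [Finset.sum_filter]
    refine Finset.sum_congr rfl fun P hP => ?_
    have h1 := mem_PrD.mp hP
    have h2 : IsCoprime P h := by
      refine IsCoprime.symm (h1.1.isCoprime_iff.mpr (h1.1.not_dvd_of_lt hh ?_))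
      omega
    unfold kap
    by_cases h3 : E ∣ P - a
    · simp [h3, h2]
    · simp [h3]
  rw [hφ]
  have hLam := hL k n (fun F => mu (F + h) * kap h E a F) (by omega) (fun F => by
    have := abs_term_le 0 h E a F F
    simpa using this)
  set B : ℝ := |C| / qR k ^ (c * τ) with hB
  have hB0 : 0 ≤ B := div_nonneg (abs_nonneg _) (Real.rpow_pos_of_pos hq _).le
  have hin : ∀ D₁ ∈ Mo k n, ∀ D₂ ∈ Mo k n,
      |∑ G ∈ (Mo k n).filter (fun G => D₁.natDegree + 2 * D₂.natDegree + G.natDegree = n),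
        coef n D₁ D₂ G * (mu (D₁ * D₂ ^ 2 * G + h) * kap h E a (D₁ * D₂ ^ 2 * G))| ≤
      2 * n * qR k ^ n * (1 / qR k ^ D₁.natDegree *
        (1 / qR k ^ (2 * D₂.natDegree) * (B + if τ < D₂.natDegree then 1 else 0))) := by
    intro D₁ hD₁ D₂ hD₂
    refine inner_le n τ B hB0 h E a D₁ D₂ fun n' j hj hs hcop hd2 hd1 hn' => ?_
    have := hC τ n' j D₁ D₂ h (h * E) (fun G => kap h E a (D₁ * D₂ ^ 2 * G)) (mem_Mo.mp hD₁).1 hs
      (mem_Mo.mp hD₂).1 hcop hh (mul_ne_zero hh hE) hhτ hM hd2 (by omega) (by omega) (by omega) hj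
      (fun G => abs_kap_le _ _ _ _) (fun G t => kap_periodic h E a _ G t)
    refine this.trans ?_
    exact div_le_div_of_nonneg_right (le_abs_self C) (Real.rpow_pos_of_pos hq _).le
  have htot : |∑ D₁ ∈ Mo k n, ∑ D₂ ∈ Mo k n,
      ∑ G ∈ (Mo k n).filter (fun G => D₁.natDegree + 2 * D₂.natDegree + G.natDegree = n),
        coef n D₁ D₂ G * (mu (D₁ * D₂ ^ 2 * G + h) * kap h E a (D₁ * D₂ ^ 2 * G))| ≤
      2 * n * qR k ^ n * ((n + 1) * (2 * B + 1 / qR k ^ τ)) := by
    refine (Finset.abs_sum_le_sum_abs _ _).trans ?_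
    refine (Finset.sum_le_sum fun D₁ hD₁ => (Finset.abs_sum_le_sum_abs _ _).trans
      (Finset.sum_le_sum fun D₂ hD₂ => hin D₁ hD₁ D₂ hD₂)).trans ?_
    simp only [← Finset.mul_sum]
    rw [← Finset.sum_mul, sum_one]
    have := sum_two (k := k) n τ hB0
    gcongr
  have hdec : 2 * B + 1 / qR k ^ τ ≤ (2 * |C| + 1) / qR k ^ (2 * cm * n) := by
    have hτ0 : (0 : ℝ) ≤ τ := Nat.cast_nonneg _
    have e0 : 2 * cm * n ≤ c₀ * τ := by
      rw [hcm]
      nlinarith
    have e1 : qR k ^ (2 * cm * n) ≤ qR k ^ (c * τ) :=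
      Real.rpow_le_rpow_of_exponent_le hq1 (by nlinarith)
    have e2 : qR k ^ (2 * cm * n) ≤ qR k ^ τ := by
      rw [← Real.rpow_natCast]
      exact Real.rpow_le_rpow_of_exponent_le hq1 (by nlinarith)
    have e3 : 0 < qR k ^ (2 * cm * n) := Real.rpow_pos_of_pos hq _
    have e4 : B ≤ |C| / qR k ^ (2 * cm * n) := div_le_div_of_nonneg_left (abs_nonneg _) e3 e1
    have e5 : 1 / qR k ^ τ ≤ 1 / qR k ^ (2 * cm * n) := div_le_div_of_nonneg_left zero_le_one e3 e2
    rw [add_div, mul_div_assoc]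
    linarith
  have hlin := lin_le (qR k) cm hq2 hcmpos n
  have hsq : √(qR k) ^ n ≤ qR k ^ ((1 - cm) * n) := by
    rw [Real.sqrt_eq_rpow, ← Real.rpow_natCast, ← Real.rpow_mul hq.le]
    exact Real.rpow_le_rpow_of_exponent_le hq1 (by nlinarith)
  have hexp : qR k ^ n * (qR k ^ (cm * n) / qR k ^ (2 * cm * n)) = qR k ^ ((1 - cm) * n) := by
    rw [← Real.rpow_natCast, ← Real.rpow_sub hq, ← Real.rpow_add hq]
    congr 1
    ring
  have hmain : qR k ^ n * ((n + 1) * (2 * B + 1 / qR k ^ τ)) ≤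
      (2 / cm + 1) * (2 * |C| + 1) * qR k ^ ((1 - cm) * n) := by
    rw [← hexp]
    calc qR k ^ n * ((n + 1) * (2 * B + 1 / qR k ^ τ)) ≤
        qR k ^ n * (((2 / cm + 1) * qR k ^ (cm * n)) * ((2 * |C| + 1) / qR k ^ (2 * cm * n))) := by
          have : 0 ≤ 2 * B + 1 / qR k ^ τ := by positivity
          gcongr
      _ = _ := by ring
  set S : ℝ := ∑ P ∈ PrD k n, mu (P + h) * kap h E a P with hS
  have hfin : n * |S| ≤ n * ((2 + 2 * (2 / cm + 1) * (2 * |C| + 1)) * qR k ^ ((1 - cm) * n)) := by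
    have e1 : n * |S| = |n * S| := by rw [abs_mul, abs_of_pos hnpos]
    rw [e1]
    have e2 := abs_sub_abs_le_abs_sub (n * S) (∑ D₁ ∈ Mo k n, ∑ D₂ ∈ Mo k n,
      ∑ G ∈ (Mo k n).filter (fun G => D₁.natDegree + 2 * D₂.natDegree + G.natDegree = n),
        coef n D₁ D₂ G * (mu (D₁ * D₂ ^ 2 * G + h) * kap h E a (D₁ * D₂ ^ 2 * G)))
    have e3 : 2 * n * √(qR k) ^ n ≤ 2 * n * qR k ^ ((1 - cm) * n) := by gcongr
    have e4 : 2 * n * qR k ^ n * ((n + 1) * (2 * B + 1 / qR k ^ τ)) ≤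
        2 * n * ((2 / cm + 1) * (2 * |C| + 1) * qR k ^ ((1 - cm) * n)) := by
      rw [mul_assoc (2 * (n : ℝ))]
      gcongr
    nlinarith
  have hfin' := le_of_mul_le_mul_left hfin hnpos
  refine hfin'.trans ?_
  gcongr
  linarith

end Pool.Agent.Lib.MP_9227d9_nt.Mob
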