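import Pool.Agent.Lib.MP_9227d9_nt.MobOd

/-!
The first cell mean.
-/

namespace Pool.Agent.Lib.MP_9227d9_nt.Mob

open Polynomial

open scoped Classical

namespace T1

variable {k : Type} [Field k] [Fintype k] [CharP k 2] {c : Ctx k} {K : ℝ} {R G₀ u x g : k[X]}

/-- The second modulus on a cell. -/
noncomputable def bb (c : Ctx k) (R G₀ u x : k[X]) : k[X] :=
  c.D₁ * c.D₂ * (c.l₁ u G₀ + R * x) + c.cu u

/-- The integrand on a cell. -/
noncomputable def Psi (c : Ctx k) (R G₀ u x : k[X]) : ℝ :=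
  c.W₁ (c.l₁ u G₀ + R * x) * (c.W₂ (bb c R G₀ u x) - c.w₂ (bb c R G₀ u x))

/-- The number of large square divisors. -/
noncomputable def cnt (c : Ctx k) (u : k[X]) : ℝ :=
  (((Mo k c.nu).filter fun g => 3 * c.τ < g.natDegree ∧ g ^ 2 ∣ u).card : ℝ)

theorem l1_add (v : k[X]) : c.l₁ u (G₀ + R ^ 2 * v) = c.l₁ u G₀ + R * od (v * u) := by
  unfold Ctx.l₁
  rw [show (G₀ + R ^ 2 * v) * u = G₀ * u + v * u * R ^ 2 by ring, od_add, od_mul_sq]

theorem integrand (v : k[X]) : c.W₁ (c.l₁ u (G₀ + R ^ 2 * v)) *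
    (c.W₂ (c.l₂ u (G₀ + R ^ 2 * v)) - c.w₂ (c.l₂ u (G₀ + R ^ 2 * v))) =
    Psi c R G₀ u (od (v * u)) := by
  rw [(stDg k c u (G₀ + R ^ 2 * v)).1, l1_add]
  rfl

theorem MD_l (hR : R.natDegree < c.τ) (hG : MD c.n' G₀) (hu : MD c.nu u) (hx : x.degree < c.m') :
    MD c.d₁ (c.l₁ u G₀ + R * x) := by
  refine (((stDg k c u G₀).2.2.2 hu).2.2 hG).1.add (degree_mul_lt hx ?_)
  have h1 := c.d₁_eq
  have h2 := c.L_ge
  unfold Ctx.m'
  omega

theorem MD_b (hR : R.natDegree < c.τ) (hG : MD c.n' G₀) (hu : MD c.nu u) (hx : x.degree < c.m') :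
    MD c.d₂ (bb c R G₀ u x) :=
  ((stDg k c u G₀).2.2.2 hu).2.1 _ (MD_l hR hG hu hx)

theorem Psi_le (hK : KB k c.τ K) (hR : R.natDegree < c.τ) (hG : MD c.n' G₀) (hu : MD c.nu u)
    (hx : x.degree < c.m') : |Psi c R G₀ u x| ≤ 2 * K ^ 2 := by
  have h1 := c.W₁_le hK (c.l₁ u G₀ + R * x)
  have h2 := c.W₂_le hK (bb c R G₀ u x)
  have h3 := c.w₂_le hK (MD_b hR hG hu hx)
  have h4 := (abs_sub _ _).trans (add_le_add h2 h3)
  have h5 := hK.ten_le
  rw [Psi, abs_mul]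
  calc _ ≤ K * (K + K) := mul_le_mul h1 h4 (abs_nonneg _) (by linarith)
    _ = 2 * K ^ 2 := by ring

omit [Fintype k] [CharP k 2] in
theorem m_add : c.m + c.nu = 2 * c.m' := by
  have h2 := c.L_ge
  unfold Ctx.m Ctx.m'
  omega

theorem od_deg (hu : MD c.nu u) {v : k[X]} (hv : v.degree < c.m) :
    (od (v * u)).degree < c.m' := by
  refine degree_od_lt ?_
  rw [mul_comm]
  refine degree_mul_lt hv ?_
  have := m_add (c := c)
  rw [hu.2]
  omega

omit [CharP k 2] in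
theorem cnt_nonneg : 0 ≤ cnt c u := Nat.cast_nonneg _

theorem step1 (hS : StS) (hK : KB k c.τ K) (hR : R.natDegree < c.τ) (hG : MD c.n' G₀)
    (hu : MD c.nu u) :
    |avg c.m (fun v => Psi c R G₀ u (od (v * u))) - mu u ^ 2 * avg c.m' (Psi c R G₀ u)| ≤
      2 * K ^ 2 * cnt c u := by
  have h0 : 0 ≤ 2 * K ^ 2 * cnt c u := mul_nonneg (by positivity) cnt_nonneg
  have hm := m_add (c := c)
  rw [mu_sq]
  split_ifs with hs
  · have h2 := c.L_ge
    rw [hS k u c.m c.m' _ hu.1 hs (by rw [hu.2]; unfold Ctx.m; omega) (by rw [hu.2]; omega)]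
    simpa using h0
  · obtain ⟨p, hp, hd⟩ := exists_isP_of_not_squarefree hu.ne_zero hs
    rw [zero_mul, sub_zero]
    by_cases hl : 3 * c.τ < p.natDegree
    · have h1 : (1 : ℝ) ≤ cnt c u := by
        unfold cnt
        refine Nat.one_le_cast.2 (Finset.card_pos.2 ⟨p, Finset.mem_filter.2 ⟨mem_Mo.2 ⟨hp.1, ?_⟩,
          hl, hd⟩⟩)
        rw [← hu.2]
        exact natDegree_le_of_dvd ((dvd_pow_self p two_ne_zero).trans hd) hu.ne_zero
      refine (abs_avg_le_of_le fun v hv => Psi_le hK hR hG hu (od_deg hu hv)).trans ?_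
      exact le_mul_of_one_le_right (by positivity) h1
    · rw [avg_congr (G := fun _ => 0), avg_const, abs_zero]
      · exact h0
      intro v _
      have hz : c.W₁ (c.l₁ u G₀ + R * od (v * u)) = 0 := by
        by_contra hw
        rw [← l1_add] at hw
        obtain ⟨i, hi⟩ := natDegree_of_Wt_ne_zero hw hp
          (dvd_od_of_sq_dvd (hd.mul_left (G₀ + R ^ 2 * v)))
        have h1 := c.I₁_ge i
        have h2 := c.τ_pos
        omega
      rw [Psi, hz, zero_mul]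

omit [CharP k 2] in
theorem step2 (hu : MD c.nu u) :
    |mu u ^ 2 - ∑ g ∈ Mo k (3 * c.τ), mu g * if g ^ 2 ∣ u then 1 else 0| ≤ cnt c u := by
  have h1 := c.nu_ge
  have e1 : ∑ g ∈ Mo k (3 * c.τ), (mu g * if g ^ 2 ∣ u then 1 else 0) =
      ∑ g ∈ ((Mo k c.nu).filter fun g => g ^ 2 ∣ u).filter
        (fun g => ¬ 3 * c.τ < g.natDegree), mu g := by
    simp only [mul_ite, mul_one, mul_zero]
    rw [← Finset.sum_filter]
    refine Finset.sum_congr ?_ fun _ _ => rfl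
    ext g
    simp only [Finset.mem_filter, mem_Mo]
    constructor
    · exact fun h => ⟨⟨⟨h.1.1, by have := h.1.2; omega⟩, h.2⟩, by have := h.1.2; omega⟩
    · exact fun h => ⟨⟨h.1.1.1, not_lt.1 h.2⟩, h.1.2⟩
  rw [e1, ← sum_mu_sq_dvd hu.1 hu.2.le, ← Finset.sum_filter_add_sum_filter_not _
    (fun g : k[X] => 3 * c.τ < g.natDegree), add_sub_cancel_right, Finset.filter_filter]
  refine (Finset.abs_sum_le_sum_abs _ _).trans ?_
  refine (Finset.sum_le_card_nsmul _ _ 1 fun g _ => abs_mu_le g).trans ?_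
  rw [nsmul_eq_mul, mul_one, cnt]
  simp only [and_comm, le_refl]

theorem Psi_shift (hG : MD c.n' G₀) (hg : g.natDegree ≤ 3 * c.τ) {e : ℕ} (he : e ≤ 1) {t : k[X]}
    (ht : t.degree < (200 * c.τ : ℕ)) :
    avg c.m' (Psi c R G₀ (u + X ^ e * (R * g) ^ 2 * t ^ 2)) = avg c.m' fun x =>
      c.W₁ (c.l₁ u G₀ + R * x) *
        (c.W₂ (bb c R G₀ u x + od (c.h * c.D₁ * X ^ e) * R * g * t) -
          c.w₂ (bb c R G₀ u x + od (c.h * c.D₁ * X ^ e) * R * g * t)) := by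
  have hy : degree (g * od (G₀ * X ^ e) * t) < (c.m' : WithBot ℕ) := by
    refine degree_mul_lt ht ?_
    have h1 := natDegree_mul_le (p := g) (q := od (G₀ * X ^ e))
    have h2 := natDegree_od_le (G₀ * X ^ e)
    have h3 := natDegree_mul_le (p := G₀) (q := X ^ e)
    have h4 := c.nu_ge
    have h5 := c.L_ge
    have h6 := c.τ_pos
    rw [natDegree_X_pow, hG.2] at h3
    unfold Ctx.n' at h3
    unfold Ctx.m'
    omega
  have e1 : c.l₁ (u + X ^ e * (R * g) ^ 2 * t ^ 2) G₀ =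
      c.l₁ u G₀ + R * (g * od (G₀ * X ^ e) * t) := by
    unfold Ctx.l₁
    rw [show G₀ * (u + X ^ e * (R * g) ^ 2 * t ^ 2) = G₀ * u + G₀ * X ^ e * (R * g * t) ^ 2 by ring,
      od_add, od_mul_sq]
    ring
  have e2 : c.cu (u + X ^ e * (R * g) ^ 2 * t ^ 2) =
      c.cu u + od (c.h * c.D₁ * X ^ e) * R * g * t := by
    unfold Ctx.cu
    rw [show c.h * c.D₁ * (u + X ^ e * (R * g) ^ 2 * t ^ 2) =
      c.h * c.D₁ * u + c.h * c.D₁ * X ^ e * (R * g * t) ^ 2 by ring, od_add, od_mul_sq]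
    ring
  rw [← avg_shift hy (F := fun x => c.W₁ (c.l₁ u G₀ + R * x) *
        (c.W₂ (bb c R G₀ u x + od (c.h * c.D₁ * X ^ e) * R * g * t) -
          c.w₂ (bb c R G₀ u x + od (c.h * c.D₁ * X ^ e) * R * g * t)))]
  refine avg_congr fun x _ => ?_
  have e3 : c.l₁ (u + X ^ e * (R * g) ^ 2 * t ^ 2) G₀ + R * x =
      c.l₁ u G₀ + R * (x + g * od (G₀ * X ^ e) * t) := by
    rw [e1]
    ring
  have e4 : bb c R G₀ (u + X ^ e * (R * g) ^ 2 * t ^ 2) x =
      bb c R G₀ u (x + g * od (G₀ * X ^ e) * t) + od (c.h * c.D₁ * X ^ e) * R * g * t := by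
    rw [bb, bb, e3, e2]
    ring
  rw [Psi, e3, e4]

theorem not_dvd (hR0 : R ≠ 0) (hR : R.natDegree < c.τ) (hg0 : g ≠ 0) (hg : g.natDegree ≤ 3 * c.τ)
    {e : ℕ} (he : e ≤ 1) {p : k[X]} (hp : IsP p) (hd : p ∣ od (c.h * c.D₁ * X ^ e) * R * g)
    (hl : 12 * c.τ ≤ p.natDegree) : ¬ p ∣ c.D₁ * c.D₂ * R := by
  have h0 := c.τ_pos
  have n1 : ¬ p ∣ R := hp.not_dvd_of_lt hR0 (by omega)
  have n2 : ¬ p ∣ g := hp.not_dvd_of_lt hg0 (by omega)
  have n3 : ¬ p ∣ c.D₂ := hp.not_dvd_of_lt c.D₂_monic.ne_zero (by have := c.D₂_deg; omega)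
  have n4 : ¬ p ∣ c.h := hp.not_dvd_of_lt c.h_ne (by have := c.h_deg; omega)
  have n5 : ¬ p ∣ X ^ e :=
    hp.not_dvd_of_lt (pow_ne_zero _ X_ne_zero) (by rw [natDegree_X_pow]; omega)
  intro h
  have h1 := (hp.prime.dvd_or_dvd ((hp.prime.dvd_or_dvd h).resolve_right n1)).resolve_right n3
  have h2 := (hp.prime.dvd_or_dvd ((hp.prime.dvd_or_dvd hd).resolve_right n2)).resolve_right n1
  have h3 := sq_dvd_of_dvd_od hp ((h1.mul_left c.h).mul_right _) h2
  have h4 := hp.prime.pow_dvd_of_dvd_mul_left 2 n4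
    (hp.prime.pow_dvd_of_dvd_mul_right 2 n5 h3)
  exact hp.prime.not_isUnit (c.D₁_sqf p (by rwa [← sq]))

omit [CharP k 2] in
theorem Q_pow (c : Ctx k) (n : ℕ) : qR k ^ (n * c.τ) = c.Q ^ n := by
  rw [Ctx.Q, ← pow_mul, mul_comm]

theorem step3 (hEX : StEX) (hBT : StBT) (hDN : StDN) (hK : KB k c.τ K) (hRm : R.Monic)
    (hR : R.natDegree < c.τ) (hG : MD c.n' G₀) (hg0 : g ≠ 0) (hg : g.natDegree ≤ 3 * c.τ) :
    |avm c.nu fun u => (if g ^ 2 ∣ u then 1 else 0) * avg c.m' (Psi c R G₀ u)| ≤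
      7 * K ^ 3 / c.Q ^ 6 := by
  obtain ⟨e, he, hA⟩ := exists_od_ne_zero (mul_ne_zero c.h_ne c.D₁_monic.ne_zero)
  have hτ := c.τ_pos
  have hnu := c.nu_ge
  have hL := c.L_ge
  have hK10 := hK.ten_le
  have hQ := c.two_le_Q
  have hM0 : od (c.h * c.D₁ * X ^ e) * R * g ≠ 0 := mul_ne_zero (mul_ne_zero hA hRm.ne_zero) hg0
  have hMd : 2 * (od (c.h * c.D₁ * X ^ e) * R * g).natDegree ≤ c.D₁.natDegree + 9 * c.τ + 1 := by
    have h1 := natDegree_mul_le (p := od (c.h * c.D₁ * X ^ e) * R) (q := g)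
    have h2 := natDegree_mul_le (p := od (c.h * c.D₁ * X ^ e)) (q := R)
    have h3 := natDegree_od_le (c.h * c.D₁ * X ^ e)
    have h4 := natDegree_mul_le (p := c.h * c.D₁) (q := X ^ e)
    have h5 := natDegree_mul_le (p := c.h) (q := c.D₁)
    have h6 := c.h_deg
    rw [natDegree_X_pow] at h4
    omega
  have hnd := fun p hp hd hl => not_dvd (c := c) (p := p) hRm.ne_zero hR hg0 hg he hp hd hl
  have hsh := fun u t ht => Psi_shift (c := c) (R := R) (u := u) (t := t) hG hg he ht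
  generalize od (c.h * c.D₁ * X ^ e) * R * g = M at hM0 hMd hnd hsh
  obtain ⟨β, hβ1, hβ2⟩ := hBT k c K M hK hM0 (by
    have h1 := c.d₁_eq
    have h2 := c.d₂_eq
    omega)
  rw [avm_avg_shift (200 * c.τ) (fun t => X ^ e * (R * g) ^ 2 * t ^ 2) (fun t ht => by
    refine degree_mul_sq_lt ht ?_
    have h1 := natDegree_mul_le (p := (X : k[X]) ^ e) (q := (R * g) ^ 2)
    have h2 := natDegree_pow_le (p := R * g) (n := 2)
    have h3 := natDegree_mul_le (p := R) (q := g)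
    rw [natDegree_X_pow] at h1
    omega)]
  have hex : ∀ u, avg c.m' (fun x => if ∃ p ∈ pf M, 12 * c.τ ≤ p.natDegree ∧ p ∣ bb c R G₀ u x
      then 2 * K else 0) ≤ 2 * K * (K / c.Q ^ 12) := by
    intro u
    have h1 := hEX k M (c.D₁ * c.D₂ * c.l₁ u G₀ + c.cu u) (c.D₁ * c.D₂ * R) (12 * c.τ) c.m' hM0
      (by omega) (by unfold Ctx.m'; omega)
      fun p hp hl => hnd p (isP_of_mem_pf hp) ((mem_pf hM0).1 hp).2 hl
    have h2 : (M.natDegree : ℝ) ≤ K := by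
      have h3 : M.natDegree ≤ 6000 * c.τ + 10 := by have := c.D₁_deg; omega
      exact le_trans (by exact_mod_cast h3) hK.lin
    rw [Q_pow] at h1
    refine le_trans (le_of_eq ?_) (mul_le_mul_of_nonneg_left
      (h1.trans (div_le_div_of_nonneg_right h2 (by positivity))) (by linarith))
    rw [← avg_mul_left]
    refine avg_congr fun x _ => ?_
    rw [show bb c R G₀ u x = c.D₁ * c.D₂ * c.l₁ u G₀ + c.cu u + c.D₁ * c.D₂ * R * x by
      rw [bb]; ring, mul_ite, mul_one, mul_zero]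
  have hpt : ∀ u, MD c.nu u → |avg (200 * c.τ) fun t =>
      (if g ^ 2 ∣ u + X ^ e * (R * g) ^ 2 * t ^ 2 then 1 else 0) *
        avg c.m' (Psi c R G₀ (u + X ^ e * (R * g) ^ 2 * t ^ 2))| ≤
      K * avg c.m' (fun x => |β (bb c R G₀ u x)|) +
        K * (3 * K ^ 2 / c.Q ^ 6 + 2 * K * (K / c.Q ^ 12)) := by
    intro u hu
    rw [avg_congr (G := fun t => (if g ^ 2 ∣ u then 1 else 0) * avg c.m' fun x =>
      c.W₁ (c.l₁ u G₀ + R * x) * (c.W₂ (bb c R G₀ u x + M * t) - c.w₂ (bb c R G₀ u x + M * t)))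
      fun t ht => by
        rw [hsh u t ht]
        have : g ^ 2 ∣ X ^ e * (R * g) ^ 2 * t ^ 2 := ⟨X ^ e * R ^ 2 * t ^ 2, by ring⟩
        simp only [dvd_add_left this], avg_mul_left, avg_comm, abs_mul]
    have h1 : |(if g ^ 2 ∣ u then 1 else 0 : ℝ)| ≤ 1 := by split_ifs <;> simp
    refine (mul_le_of_le_one_left (abs_nonneg _) h1).trans (abs_avg_le.trans ?_)
    refine (avg_mono (G := fun x => K * (|β (bb c R G₀ u x)| + 3 * K ^ 2 / c.Q ^ 6 +
      if ∃ p ∈ pf M, 12 * c.τ ≤ p.natDegree ∧ p ∣ bb c R G₀ u x then 2 * K else 0))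
      fun x hx => ?_).trans ?_
    · rw [avg_mul_left, abs_mul]
      exact mul_le_mul (c.W₁_le hK _) (hβ2 _ (MD_b hR hG hu hx)) (abs_nonneg _) (by linarith)
    · rw [avg_mul_left, avg_add, avg_add, avg_const, ← mul_add]
      refine mul_le_mul_of_nonneg_left ?_ (by linarith)
      linarith [hex u]
  have hb : avm c.nu (fun u => avg c.m' fun x => |β (bb c R G₀ u x)|) ≤ 2 * K / c.Q ^ 8 := by
    have h1 := hDN k c R G₀ (fun b => β b ^ 2) hRm hR hG fun b => sq_nonneg _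
    have h2 : avm c.nu (fun u => avg c.m' fun x => |β (bb c R G₀ u x)|) ^ 2 ≤
        c.Q ^ 164 * (4 * K / c.Q ^ 180) := by
      refine sq_avm_le.trans ((avm_mono fun u _ => ?_).trans
        (h1.trans (mul_le_mul_of_nonneg_left hβ1 (by positivity))))
      refine sq_avg_le.trans (le_of_eq (avg_congr fun x _ => ?_))
      rw [sq_abs, bb]
    refine (le_abs_self _).trans (abs_le_of_sq_le_sq (h2.trans ?_) (by positivity))
    have e1 : c.Q ^ 164 * (4 * K / c.Q ^ 180) = 4 * K / c.Q ^ 16 := by field_simp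
    have e2 : (2 * K / c.Q ^ 8) ^ 2 = 4 * K ^ 2 / c.Q ^ 16 := by field_simp; norm_num
    rw [e1, e2]
    exact div_le_div_of_nonneg_right (by nlinarith) (by positivity)
  refine (abs_avm_le.trans (avm_mono hpt)).trans ?_
  rw [avm_add, avm_mul_left, avm_const]
  have h1 : 2 * K / c.Q ^ 8 ≤ 2 * K ^ 2 / c.Q ^ 6 :=
    div_le_div₀ (by positivity) (by nlinarith) (by positivity)
      (pow_le_pow_right₀ (by linarith) (by norm_num))
  have h2 : K / c.Q ^ 12 ≤ K / c.Q ^ 6 :=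
    div_le_div_of_nonneg_left (by linarith) (by positivity)
      (pow_le_pow_right₀ (by linarith) (by norm_num))
  have h3 := mul_le_mul_of_nonneg_left (hb.trans h1) (show 0 ≤ K by linarith)
  have h4 := mul_le_mul_of_nonneg_left h2 (show 0 ≤ 2 * K ^ 2 by positivity)
  calc _ ≤ K * (2 * K ^ 2 / c.Q ^ 6) + (K * (3 * K ^ 2 / c.Q ^ 6) + 2 * K ^ 2 * (K / c.Q ^ 6)) := by
        linarith
    _ = 7 * K ^ 3 / c.Q ^ 6 := by ring

end T1

open T1 in
theorem stT1 (hS : StS) (hSQ : StSQ) (hEX : StEX) (hBT : StBT) (hDN : StDN) : StT1 := by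
  intro k _ _ _ c K R G₀ hK hRm hR hG
  have hK10 := hK.ten_le
  have hQ := c.two_le_Q
  have hq := two_le_qR (k := k)
  simp only [integrand]
  have h1 : |avm c.nu fun u => avg c.m (fun v => Psi c R G₀ u (od (v * u))) -
      ∑ g ∈ Mo k (3 * c.τ), mu g * ((if g ^ 2 ∣ u then 1 else 0) * avg c.m' (Psi c R G₀ u))| ≤
      4 * K ^ 2 * (1 / c.Q ^ 3) := by
    have h2 := hSQ k c.nu (3 * c.τ)
    rw [Q_pow] at h2
    refine (abs_avm_le.trans (avm_mono (G := fun u => 4 * K ^ 2 * cnt c u) fun u hu => ?_)).trans ?_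
    · have a1 := step1 hS hK hR hG hu
      have a2 := step2 hu
      have a3 : |avg c.m' (Psi c R G₀ u)| ≤ 2 * K ^ 2 :=
        abs_avg_le_of_le fun x hx => Psi_le hK hR hG hu hx
      have a4 := mul_le_mul a2 a3 (abs_nonneg _) cnt_nonneg
      rw [← abs_mul, sub_mul, Finset.sum_mul] at a4
      simp only [mul_assoc] at a4
      have a5 := abs_sub_le (avg c.m fun v => Psi c R G₀ u (od (v * u)))
        (mu u ^ 2 * avg c.m' (Psi c R G₀ u))
        (∑ g ∈ Mo k (3 * c.τ), mu g * ((if g ^ 2 ∣ u then 1 else 0) * avg c.m' (Psi c R G₀ u)))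
      linarith
    · rw [avm_mul_left]
      exact mul_le_mul_of_nonneg_left h2 (by positivity)
  rw [avm_sub, avm_sum] at h1
  have h2 : |∑ g ∈ Mo k (3 * c.τ), avm c.nu fun u =>
      mu g * ((if g ^ 2 ∣ u then 1 else 0) * avg c.m' (Psi c R G₀ u))| ≤
      2 * c.Q ^ 3 * (7 * K ^ 3 / c.Q ^ 6) := by
    refine (Finset.abs_sum_le_sum_abs _ _).trans ?_
    refine (Finset.sum_le_card_nsmul _ _ (7 * K ^ 3 / c.Q ^ 6) fun g hg => ?_).trans ?_
    · rw [avm_mul_left, abs_mul]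
      exact (mul_le_of_le_one_left (abs_nonneg _) (abs_mu_le g)).trans
        (step3 hEX hBT hDN hK hRm hR hG (mem_Mo.1 hg).1.ne_zero (mem_Mo.1 hg).2)
    · rw [nsmul_eq_mul, ← Q_pow c 3]
      exact mul_le_mul_of_nonneg_right (card_Mo_le _) (by positivity)
  have h3 := (abs_sub_abs_le_abs_sub _ _).trans h1
  have e1 : 2 * c.Q ^ 3 * (7 * K ^ 3 / c.Q ^ 6) = 14 * K ^ 3 / c.Q ^ 3 := by field_simp; norm_num
  have e2 : 4 * K ^ 2 * (1 / c.Q ^ 3) = 4 * K ^ 2 / c.Q ^ 3 := by ring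
  have h4 : (4 * K ^ 2 + 14 * K ^ 3) / c.Q ^ 3 ≤ 11 * qR k * K ^ 4 / c.Q ^ 3 := by
    refine div_le_div_of_nonneg_right ?_ (by positivity)
    have b1 : K ^ 2 ≤ K ^ 4 := pow_le_pow_right₀ (by linarith) (by norm_num)
    have b2 : K ^ 3 ≤ K ^ 4 := pow_le_pow_right₀ (by linarith) (by norm_num)
    have b3 : 2 * K ^ 4 ≤ qR k * K ^ 4 := mul_le_mul_of_nonneg_right hq (by positivity)
    have b4 : 0 ≤ K ^ 4 := by positivity
    linarith
  rw [add_div] at h4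
  linarith

end Pool.Agent.Lib.MP_9227d9_nt.Mob
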