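import Pool.Agent.Lib.MP_9227d9_nt.MobOd

/-!
The second cell mean and the concentration estimate.
-/

namespace Pool.Agent.Lib.MP_9227d9_nt.Mob

open Polynomial

open scoped Classical

namespace T2

variable {k : Type} [Field k] [Fintype k] [CharP k 2]

omit [CharP k 2] in
theorem cell_MD (c : Ctx k) {R G₀ v : k[X]} (hR : R.Monic) (hRd : R.natDegree < c.τ)
    (hG : MD c.n' G₀) (hv : v.degree < c.m) : MD c.n' (G₀ + R ^ 2 * v) := by
  refine hG.add (degree_mul_lt hv ?_)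
  have h1 := c.L_ge
  rw [hR.natDegree_pow]
  unfold Ctx.m Ctx.n'
  omega

theorem l₁_cell (c : Ctx k) (R G₀ g u₁ v : k[X]) :
    c.l₁ (g ^ 2 * u₁) (G₀ + R ^ 2 * v) = c.l₁ (g ^ 2 * u₁) G₀ + R * g * od (v * u₁) := by
  unfold Ctx.l₁
  rw [← od_mul_sq, ← od_add]
  congr 1
  ring

/-- the trivial bound -/
theorem triv (c : Ctx k) {K : ℝ} (hK : KB k c.τ K) {R G₀ u : k[X]} (hR : R.Monic)
    (hRd : R.natDegree < c.τ) (hG : MD c.n' G₀) (hu : MD c.nu u) :
    |avg c.m fun v => (c.W₁ (c.l₁ u (G₀ + R ^ 2 * v)) - c.w₁ (c.l₁ u (G₀ + R ^ 2 * v))) *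
        c.w₂ (c.l₂ u (G₀ + R ^ 2 * v))| ≤ 2 * K ^ 2 := by
  refine abs_avg_le_of_le fun v hv => ?_
  obtain ⟨h1, h2⟩ := ((stDg k c u (G₀ + R ^ 2 * v)).2.2.2 hu).2.2 (cell_MD c hR hRd hG hv)
  have a1 := c.W₁_le hK (c.l₁ u (G₀ + R ^ 2 * v))
  have a2 := c.w₁_le hK h1
  have a3 := c.w₂_le hK h2
  have a4 := abs_sub (c.W₁ (c.l₁ u (G₀ + R ^ 2 * v))) (c.w₁ (c.l₁ u (G₀ + R ^ 2 * v)))
  have a0 := hK.ten_le
  rw [abs_mul]
  calc _ ≤ (K + K) * K := mul_le_mul (by linarith) a3 (abs_nonneg _) (by linarith)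
    _ = _ := by ring

/-- one term of the model -/
theorem term (hPT : StPT) (c : Ctx k) {K : ℝ} (hK : KB k c.τ K) {A l₀ D e : k[X]} {m : ℕ}
    (hA : A.Monic) (hAd : A.natDegree < 4 * c.τ) (hl : MD c.d₁ l₀) (h1 : A.natDegree + m ≤ c.d₁)
    (h2 : c.d₁ ≤ m + 10 * c.τ) {S : Finset k[X]} (hS : S ∈ SS k (180 * c.τ) (12 * c.τ)) :
    |avg m fun t => (c.W₁ (l₀ + A * t) - c.w₁ (l₀ + A * t)) *
        ∏ p ∈ S, psi p (D * (l₀ + A * t) + e)| ≤
      avg m fun t => 2 * K ^ 2 / c.Q ^ 6 * |∏ p ∈ S, psi p (D * (l₀ + A * t) + e)| := by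
  obtain ⟨hS1, hS2⟩ := mem_SS.1 hS
  have hP : ∀ p ∈ S, IsP p := fun p hp => (hS1 p hp).1
  set r := ∏ p ∈ S, p with hr
  have hrm : r.Monic := monic_prod hP
  have hrd : r.natDegree ≤ 180 * c.τ := by rw [hr, natDegree_prod_isP hP]; exact hS2
  have hd := c.d₁_eq
  have hnu := c.nu_ge
  have hτ := c.τ_pos
  have hM : A * r ≠ 0 := (hA.mul hrm).ne_zero
  have hMd : (A * r).natDegree = A.natDegree + r.natDegree := hA.natDegree_mul hrm
  rw [avg_avg_shift (m - r.natDegree) (fun t => r * t) fun t ht => degree_mul_lt ht (by omega)]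
  refine abs_avg_le.trans (avg_mono fun t ht => ?_)
  have e1 : (avg (m - r.natDegree) fun t' => (c.W₁ (l₀ + A * (t + r * t')) -
      c.w₁ (l₀ + A * (t + r * t'))) * ∏ p ∈ S, psi p (D * (l₀ + A * (t + r * t')) + e)) =
      (avg (m - r.natDegree) fun t' => c.W₁ (l₀ + A * t + A * r * t') -
        c.w₁ (l₀ + A * t + A * r * t')) * ∏ p ∈ S, psi p (D * (l₀ + A * t) + e) := by
    rw [← avg_mul_right]
    refine avg_congr fun t' _ => ?_
    have e2 : l₀ + A * (t + r * t') = l₀ + A * t + A * r * t' := by ring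
    rw [e2]
    congr 1
    refine Finset.prod_congr rfl fun p hp => psi_congr ?_
    have : D * (l₀ + A * t + A * r * t') + e - (D * (l₀ + A * t) + e) = r * (D * A * t') := by ring
    rw [this]
    exact (Finset.dvd_prod_of_mem _ hp).mul_right _
  rw [e1, abs_mul]
  refine mul_le_mul_of_nonneg_right ?_ (abs_nonneg _)
  refine hPT k c K _ _ _ hK (hl.add (degree_mul_lt ht h1)) hM (fun p hp => ?_) (by omega)
    (by omega) (by omega)
  obtain ⟨hp1, hp2⟩ := (mem_pf hM).1 hp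
  rcases hp1.prime.dvd_or_dvd hp2 with h | h
  · have := natDegree_le_of_dvd h hA.ne_zero
    omega
  · exact (hS1 p ((dvd_prod_iff_mem hP hp1).1 h)).2

/-- the bound for a small square part -/
theorem small (hS : StS) (hPT : StPT) (c : Ctx k) {K : ℝ} (hK : KB k c.τ K) {R G₀ g u₁ : k[X]}
    (hR : R.Monic) (hRd : R.natDegree < c.τ) (hG : MD c.n' G₀) (hg : g.Monic) (h1 : u₁.Monic)
    (hs : Squarefree u₁) (hu : MD c.nu (g ^ 2 * u₁)) (hgd : g.natDegree ≤ 3 * c.τ) :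
    |avg c.m fun v => (c.W₁ (c.l₁ (g ^ 2 * u₁) (G₀ + R ^ 2 * v)) -
        c.w₁ (c.l₁ (g ^ 2 * u₁) (G₀ + R ^ 2 * v))) *
        c.w₂ (c.l₂ (g ^ 2 * u₁) (G₀ + R ^ 2 * v))| ≤ 2 * K ^ 3 / c.Q ^ 6 := by
  have hdeg : 2 * g.natDegree + u₁.natDegree = c.nu := by
    rw [← hu.2, (hg.pow 2).natDegree_mul h1, hg.natDegree_pow]
  obtain ⟨-, hD2, hD3⟩ := (stDg k c (g ^ 2 * u₁) G₀).2.2.2 hu
  have hl := (hD3 hG).1
  set l₀ := c.l₁ (g ^ 2 * u₁) G₀ with hl₀
  set e := c.cu (g ^ 2 * u₁) with he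
  set D := c.D₁ * c.D₂ with hD
  have hd := c.d₁_eq
  have hnu := c.nu_ge
  have hL := c.L_ge
  have hτ := c.τ_pos
  have hm : c.m = c.nu + 2 * c.L - 4 * c.τ := rfl
  have hm' : c.m' = c.nu + c.L - 2 * c.τ := rfl
  have hAd : (R * g).natDegree = R.natDegree + g.natDegree := hR.natDegree_mul hg
  have e1 := hS k u₁ c.m (c.m' - g.natDegree) (fun t => (c.W₁ (l₀ + R * g * t) -
    c.w₁ (l₀ + R * g * t)) * c.w₂ (D * (l₀ + R * g * t) + e)) h1 hs (by omega) (by omega)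
  have e2 : ∀ v, c.l₂ (g ^ 2 * u₁) (G₀ + R ^ 2 * v) = D * (l₀ + R * g * od (v * u₁)) + e :=
    fun v => by rw [(stDg k c _ _).1, l₁_cell]
  simp only [e2, l₁_cell]
  rw [e1]
  have hQ : 0 < c.Q := by linarith [c.two_le_Q]
  simp only [Ctx.w₂, wm, Finset.mul_sum]
  rw [avg_sum]
  refine (Finset.abs_sum_le_sum_abs _ _).trans ((Finset.sum_le_sum fun S hS' =>
    term hPT c hK (hR.mul hg) (by omega) hl (by omega) (by omega) hS').trans ?_)
  rw [← avg_sum]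
  refine avg_le_of_le fun t ht => ?_
  have hb : MD c.d₂ (D * (l₀ + R * g * t) + e) :=
    hD2 _ (hl.add (degree_mul_lt ht (by omega)))
  have hw := hK.wa (180 * c.τ) (12 * c.τ) _ hb.ne_zero (by rw [hb.2]; linarith [c.d₂_le])
    (by omega)
  rw [← Finset.mul_sum]
  calc _ ≤ 2 * K ^ 2 / c.Q ^ 6 * K := mul_le_mul_of_nonneg_left hw (by positivity)
    _ = _ := by ring

end T2

theorem stT2 (hS : StS) (hSQ : StSQ) (hPT : StPT) : StT2 := by
  intro k _ _ _ c K R G₀ hK hR hRd hG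
  have hK0 := hK.ten_le
  have hQ := c.two_le_Q
  have hQ0 : 0 < c.Q := by linarith
  refine abs_avm_le.trans ((avm_mono (G := fun u => 2 * K ^ 3 / c.Q ^ 6 + 2 * K ^ 2 *
    (((Mo k c.nu).filter fun g => 3 * c.τ < g.natDegree ∧ g ^ 2 ∣ u).card : ℝ))
    fun u hu => ?_).trans ?_)
  · obtain ⟨g, u₁, hg, h1, hs, rfl⟩ := exists_sq_mul hu.1
    by_cases hgd : g.natDegree ≤ 3 * c.τ
    · refine (T2.small hS hPT c hK hR hRd hG hg h1 hs hu hgd).trans (le_add_of_nonneg_right ?_)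
      positivity
    · refine (T2.triv c hK hR hRd hG hu).trans ?_
      have hdeg : 2 * g.natDegree + u₁.natDegree = c.nu := by
        rw [← hu.2, (hg.pow 2).natDegree_mul h1, hg.natDegree_pow]
      have h2 : (1 : ℝ) ≤ (((Mo k c.nu).filter fun g' =>
          3 * c.τ < g'.natDegree ∧ g' ^ 2 ∣ g ^ 2 * u₁).card : ℝ) := by
        rw [Nat.one_le_cast]
        exact Finset.card_pos.2 ⟨g, Finset.mem_filter.2
          ⟨mem_Mo.2 ⟨hg, by omega⟩, by omega, dvd_mul_right _ _⟩⟩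
      have h3 : 0 ≤ 2 * K ^ 3 / c.Q ^ 6 := by positivity
      nlinarith [sq_nonneg K]
  · rw [avm_add, avm_const, avm_mul_left]
    have h1 := hSQ k c.nu (3 * c.τ)
    have h2 : qR k ^ (3 * c.τ) = c.Q ^ 3 := by rw [Ctx.Q, ← pow_mul, mul_comm]
    rw [h2] at h1
    have h3 : 2 * K ^ 3 / c.Q ^ 6 ≤ 2 * K ^ 3 / c.Q ^ 3 :=
      div_le_div_of_nonneg_left (by positivity) (by positivity)
        (pow_le_pow_right₀ (by linarith) (by norm_num))
    have h4 : 2 * K ^ 2 * (1 / c.Q ^ 3) ≤ 2 * K ^ 3 / c.Q ^ 3 := by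
      rw [mul_one_div]
      exact div_le_div_of_nonneg_right (by nlinarith [sq_nonneg K]) (by positivity)
    have h5 := mul_le_mul_of_nonneg_left h1 (by positivity : 0 ≤ 2 * K ^ 2)
    calc _ ≤ 2 * K ^ 3 / c.Q ^ 3 + 2 * K ^ 3 / c.Q ^ 3 := by linarith
      _ = _ := by ring

theorem stConc (hD : StD) (h1 : StT1) (h2 : StT2) : StConc := by
  intro k _ _ _ c K hK
  have hK0 := hK.ten_le
  have hQ := c.two_le_Q
  have hQ0 : 0 < c.Q := by linarith
  have hq : 2 ≤ qR k := two_le_qR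
  have hnu := c.nu_ge
  have hL := c.L_ge
  have hτ := c.τ_pos
  have key := hD k c.nu c.L c.τ (fun u G => c.Fu u G) (2 * K ^ 2) (15 * qR k * K ^ 4 / c.Q ^ 3)
    (by omega) (by omega) (by omega) (by positivity) (by positivity) (fun u G hu hG => ?_)
    (fun u G σ => ?_) (fun R G₀ hR hRd hG => ?_)
  · refine le_trans key ?_
    change (2 * K ^ 2) ^ 2 / c.Q + 2 * K ^ 2 * √c.Q * (15 * qR k * K ^ 4 / c.Q ^ 3) ≤ _
    have a1 : √c.Q ≤ c.Q ^ 2 := by
      rw [Real.sqrt_le_left (by positivity)]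
      calc c.Q = c.Q ^ 1 := (pow_one _).symm
        _ ≤ c.Q ^ 4 := pow_le_pow_right₀ (by linarith) (by norm_num)
        _ = _ := by ring
    have a2 : 2 * K ^ 2 * √c.Q * (15 * qR k * K ^ 4 / c.Q ^ 3) ≤ 30 * qR k * K ^ 6 / c.Q := by
      calc _ ≤ 2 * K ^ 2 * c.Q ^ 2 * (15 * qR k * K ^ 4 / c.Q ^ 3) := by gcongr
        _ = _ := by field_simp; ring
    have a3 : (2 * K ^ 2) ^ 2 / c.Q ≤ 4 * qR k * K ^ 6 / c.Q := by
      refine div_le_div_of_nonneg_right ?_ hQ0.le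
      have b1 : K ^ 4 ≤ K ^ 6 := pow_le_pow_right₀ (by linarith) (by norm_num)
      have b2 : 0 ≤ K ^ 6 := by positivity
      nlinarith
    calc _ ≤ 4 * qR k * K ^ 6 / c.Q + 30 * qR k * K ^ 6 / c.Q := add_le_add a3 a2
      _ = _ := by ring
  · obtain ⟨b1, b2⟩ := ((stDg k c u G).2.2.2 hu).2.2 hG
    have a1 := c.W₁_le hK (c.l₁ u G)
    have a2 := c.W₂_le hK (c.l₂ u G)
    have a3 := c.w₁_le hK b1
    have a4 := c.w₂_le hK b2
    refine (abs_sub _ _).trans ?_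
    rw [abs_mul, abs_mul]
    have a5 := mul_le_mul a1 a2 (abs_nonneg _) (by linarith)
    have a6 := mul_le_mul a3 a4 (abs_nonneg _) (by linarith)
    linarith
  · simp only [Ctx.Fu, (stDg k c u G).2.1 σ, (stDg k c u G).2.2.1 σ]
  · have a1 := h1 k c K R G₀ hK hR hRd hG
    have a2 := h2 k c K R G₀ hK hR hRd hG
    have a3 := (abs_add_le _ _).trans (add_le_add a1 a2)
    rw [← avm_add] at a3
    simp only [← avg_add] at a3
    have a4 : 4 * K ^ 3 / c.Q ^ 3 ≤ 4 * qR k * K ^ 4 / c.Q ^ 3 := by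
      refine div_le_div_of_nonneg_right ?_ (by positivity)
      have b1 : K ^ 3 ≤ K ^ 4 := pow_le_pow_right₀ (by linarith) (by norm_num)
      have b2 : 0 ≤ K ^ 4 := by positivity
      nlinarith
    calc _ = _ := by
          congr 2
          ext u
          change avg c.m _ = avg c.m _
          congr 1
          ext v
          simp only [Ctx.Fu]
          ring
      _ ≤ _ := a3
      _ ≤ 11 * qR k * K ^ 4 / c.Q ^ 3 + 4 * qR k * K ^ 4 / c.Q ^ 3 := by linarith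
      _ = _ := by ring

end Pool.Agent.Lib.MP_9227d9_nt.Mob
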