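import Pool.Agent.Lib.MP_9227d9_nt.MobA1
import Pool.Agent.Lib.MP_9227d9_nt.MobA2
import Pool.Agent.Lib.MP_9227d9_nt.MobA
import Pool.Agent.Lib.MP_9227d9_nt.MobB0
import Pool.Agent.Lib.MP_9227d9_nt.MobB
import Pool.Agent.Lib.MP_9227d9_nt.MobC
import Pool.Agent.Lib.MP_9227d9_nt.MobDa
import Pool.Agent.Lib.MP_9227d9_nt.MobD
import Pool.Agent.Lib.MP_9227d9_nt.MobVar
import Pool.Agent.Lib.MP_9227d9_nt.MobK
import Pool.Agent.Lib.MP_9227d9_nt.MobS
import Pool.Agent.Lib.MP_9227d9_nt.MobM1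
import Pool.Agent.Lib.MP_9227d9_nt.MobM4
import Pool.Agent.Lib.MP_9227d9_nt.MobPT
import Pool.Agent.Lib.MP_9227d9_nt.MobT1
import Pool.Agent.Lib.MP_9227d9_nt.MobT2
import Pool.Agent.Lib.MP_9227d9_nt.MobEa
import Pool.Agent.Lib.MP_9227d9_nt.MobEb
import Pool.Agent.Lib.MP_9227d9_nt.MobCore
import Pool.Agent.Lib.MP_9227d9_nt.MobLam
import Pool.Agent.Lib.MP_9227d9_nt.MobMain

/-!
Assembly of the modules.
-/

namespace Pool.Agent.Lib.MP_9227d9_nt.Mob

theorem allA : StA := stA stA1 (stA2 stA2n)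

theorem allC : StC := stC allA (stB stB0)

theorem allConc : StConc :=
  stConc (stD stDa) (stT1 stS stSQ stEX (stBT stM1 stM2) stDN) (stT2 stS stSQ (stPT stM1))

theorem allCore : StCore :=
  stCore (stEa stM4 stM5 allConc) (stEb allC stSQ stEX stM5) (stK stVar stM5)

theorem allMain : StMain := stMain allCore stLam

end Pool.Agent.Lib.MP_9227d9_nt.Mob
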