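import Pool.Agent.Lib.MP_9227d9_nt.MobDefs

/-!
Averages over polynomials of bounded degree.
-/

namespace Pool.Agent.Lib.MP_9227d9_nt.Mob

open Polynomial

open scoped Classical

variable {k : Type} [Field k] [Fintype k] {n : ℕ} {F G : k[X] → ℝ}

theorem two_le_qR : (2 : ℝ) ≤ qR k := by
  have : 1 < Fintype.card k := Fintype.one_lt_card
  unfold qR
  exact_mod_cast this

theorem qR_pos : (0 : ℝ) < qR k := lt_of_lt_of_le two_pos two_le_qR

theorem one_le_qR : (1 : ℝ) ≤ qR k := le_trans one_le_two two_le_qR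

theorem mem_Pn {f : k[X]} : f ∈ Pn k n ↔ f.degree < n := by
  simp [Pn]

theorem card_Pn (n : ℕ) : ((Pn k n).card : ℝ) = qR k ^ n := by
  have h : (Pn k n).card = Fintype.card (Fin n → k) := by
    rw [← Finset.card_univ]
    symm
    refine Finset.card_bij (fun c _ => ((degreeLTEquiv k n).symm c : k[X])) ?_ ?_ ?_
    · intro c _
      exact mem_Pn.2 (mem_degreeLT.1 ((degreeLTEquiv k n).symm c).2)
    · intro c _ c' _ h
      exact (degreeLTEquiv k n).symm.injective (Subtype.ext h)
    · intro f hf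
      exact ⟨degreeLTEquiv k n ⟨f, mem_degreeLT.2 (mem_Pn.1 hf)⟩, Finset.mem_univ _, by simp⟩
  rw [h]
  simp [qR]

theorem mem_Mo {f : k[X]} : f ∈ Mo k n ↔ f.Monic ∧ f.natDegree ≤ n := by
  rw [Mo, Finset.mem_filter, mem_Pn]
  constructor
  · rintro ⟨h1, h2⟩
    refine ⟨h2, ?_⟩
    rw [degree_eq_natDegree h2.ne_zero] at h1
    exact Nat.lt_succ_iff.1 (by exact_mod_cast h1)
  · rintro ⟨h1, h2⟩
    refine ⟨?_, h1⟩
    rw [degree_eq_natDegree h1.ne_zero]
    exact_mod_cast Nat.lt_succ_iff.2 h2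

omit [Fintype k] in
theorem degree_lt_of_natDegree {f : k[X]} (h : f ≠ 0 → f.natDegree < n) : f.degree < n := by
  by_cases h0 : f = 0
  · simp [h0]
  · rw [degree_eq_natDegree h0]
    exact_mod_cast h h0

omit [Fintype k] in
theorem natDegree_lt_of_degree {f : k[X]} (h0 : f ≠ 0) (h : f.degree < n) : f.natDegree < n := by
  rw [degree_eq_natDegree h0] at h
  exact_mod_cast h

theorem degree_mul_lt {a t : k[X]} {L n : ℕ} (ht : t.degree < L) (h : a.natDegree + L ≤ n) :
    (a * t).degree < n := by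
  refine degree_lt_of_natDegree fun h0 => ?_
  have h1 := natDegree_lt_of_degree (right_ne_zero_of_mul h0) ht
  have h2 := natDegree_mul_le (p := a) (q := t)
  omega

theorem degree_mul_sq_lt {a t : k[X]} {L n : ℕ} (ht : t.degree < L)
    (h : a.natDegree + 2 * L ≤ n + 1) : (a * t ^ 2).degree < n := by
  refine degree_lt_of_natDegree fun h0 => ?_
  have h3 : t ≠ 0 := fun h4 => h0 (by simp [h4])
  have h1 := natDegree_lt_of_degree h3 ht
  have h2 := natDegree_mul_le (p := a) (q := t ^ 2)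
  have h5 := natDegree_pow_le (p := t) (n := 2)
  omega

theorem qR_pow_pos (n : ℕ) : (0 : ℝ) < qR k ^ n := pow_pos qR_pos n

theorem avg_congr (h : ∀ v : k[X], v.degree < n → F v = G v) : avg n F = avg n G := by
  unfold avg
  rw [Finset.sum_congr rfl fun v hv => h v (mem_Pn.1 hv)]

theorem avg_const (n : ℕ) (c : ℝ) : avg n (fun _ : k[X] => c) = c := by
  unfold avg
  rw [Finset.sum_const, nsmul_eq_mul, card_Pn]
  have := qR_pow_pos (k := k) n
  field_simp

theorem avg_add : avg n (fun v => F v + G v) = avg n F + avg n G := by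
  unfold avg
  rw [Finset.sum_add_distrib, add_div]

theorem avg_sub : avg n (fun v => F v - G v) = avg n F - avg n G := by
  unfold avg
  rw [Finset.sum_sub_distrib, sub_div]

theorem avg_mul_left (c : ℝ) : avg n (fun v => c * F v) = c * avg n F := by
  unfold avg
  rw [← Finset.mul_sum, mul_div_assoc]

theorem avg_mul_right (c : ℝ) : avg n (fun v => F v * c) = avg n F * c := by
  unfold avg
  rw [← Finset.sum_mul]
  ring

theorem avg_sum {ι : Type} (s : Finset ι) (F : ι → k[X] → ℝ) :
    avg n (fun v => ∑ i ∈ s, F i v) = ∑ i ∈ s, avg n (F i) := by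
  unfold avg
  rw [Finset.sum_comm, Finset.sum_div]

theorem avg_mono (h : ∀ v : k[X], v.degree < n → F v ≤ G v) : avg n F ≤ avg n G :=
  div_le_div_of_nonneg_right (Finset.sum_le_sum fun v hv => h v (mem_Pn.1 hv))
    (qR_pow_pos n).le

theorem avg_nonneg (h : ∀ v : k[X], v.degree < n → 0 ≤ F v) : 0 ≤ avg n F := by
  have := avg_mono (F := fun _ => 0) h
  rwa [avg_const] at this

theorem avg_le_of_le {B : ℝ} (h : ∀ v : k[X], v.degree < n → F v ≤ B) : avg n F ≤ B := by
  have := avg_mono (G := fun _ => B) h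
  rwa [avg_const] at this

theorem abs_avg_le : |avg n F| ≤ avg n fun v => |F v| := by
  unfold avg
  rw [abs_div, abs_of_pos (qR_pow_pos n)]
  exact div_le_div_of_nonneg_right (Finset.abs_sum_le_sum_abs _ _) (qR_pow_pos n).le

theorem abs_avg_le_of_le {B : ℝ} (h : ∀ v : k[X], v.degree < n → |F v| ≤ B) : |avg n F| ≤ B :=
  abs_avg_le.trans (avg_le_of_le h)

theorem avg_comm (m n : ℕ) (F : k[X] → k[X] → ℝ) :
    avg m (fun v => avg n fun w => F v w) = avg n fun w => avg m fun v => F v w := by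
  unfold avg
  rw [← Finset.sum_div, ← Finset.sum_div, Finset.sum_comm, div_right_comm]

theorem avg_shift {c : k[X]} (hc : c.degree < n) : avg n (fun v => F (v + c)) = avg n F := by
  unfold avg
  congr 1
  refine Finset.sum_bij' (fun v _ => v + c) (fun v _ => v - c) ?_ ?_ ?_ ?_ ?_
  · intro v hv
    exact mem_Pn.2 ((degree_add_le _ _).trans_lt (max_lt (mem_Pn.1 hv) hc))
  · intro v hv
    exact mem_Pn.2 ((degree_sub_le _ _).trans_lt (max_lt (mem_Pn.1 hv) hc))
  · intro v _
    simp
  · intro v _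
    simp
  · intro v _
    rfl

theorem avg_avg_shift (L : ℕ) (c : k[X] → k[X])
    (hc : ∀ t : k[X], t.degree < L → (c t).degree < n) :
    avg n F = avg n fun v => avg L fun t => F (v + c t) := by
  rw [avg_comm, avg_congr (G := fun _ => avg n F) fun t ht => avg_shift (hc t ht), avg_const]

theorem sq_avg_mul_le :
    avg n (fun v => F v * G v) ^ 2 ≤ avg n (fun v => F v ^ 2) * avg n fun v => G v ^ 2 := by
  unfold avg
  rw [div_pow, div_mul_div_comm, ← sq]
  exact div_le_div_of_nonneg_right (Finset.sum_mul_sq_le_sq_mul_sq _ _ _) (by positivity)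

theorem sq_avg_le : avg n F ^ 2 ≤ avg n fun v => F v ^ 2 := by
  have := sq_avg_mul_le (n := n) (F := F) (G := fun _ => 1)
  simpa [avg_const] using this

theorem MD_add {v : k[X]} (hv : v.degree < n) : MD n (X ^ n + v) := by
  refine ⟨monic_X_pow_add hv, ?_⟩
  rw [natDegree_add_eq_left_of_degree_lt (by simpa using hv), natDegree_X_pow]

theorem MD.degree_sub {f : k[X]} (hf : MD n f) : degree (f - X ^ n) < (n : WithBot ℕ) := by
  have h1 : f.degree = n := by rw [degree_eq_natDegree hf.1.ne_zero, hf.2]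
  have := degree_sub_lt_left (p := f) (q := X ^ n) (by rw [h1, degree_X_pow]) hf.1.ne_zero
    (by rw [hf.1.leadingCoeff, leadingCoeff_X_pow])
  rwa [h1] at this

theorem MD.add {f v : k[X]} (hf : MD n f) (hv : v.degree < n) : MD n (f + v) := by
  have h1 : f.degree = n := by rw [degree_eq_natDegree hf.1.ne_zero, hf.2]
  refine ⟨hf.1.add_of_left (h1 ▸ hv), ?_⟩
  rw [natDegree_add_eq_left_of_degree_lt (h1 ▸ hv), hf.2]

theorem MD.mul {m : ℕ} {f g : k[X]} (hf : MD m f) (hg : MD n g) : MD (m + n) (f * g) :=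
  ⟨hf.1.mul hg.1, by rw [hf.1.natDegree_mul hg.1, hf.2, hg.2]⟩

theorem MD.ne_zero {f : k[X]} (hf : MD n f) : f ≠ 0 := hf.1.ne_zero

theorem sum_MD (N n : ℕ) (h : n ≤ N) (F : k[X] → ℝ) :
    ∑ v ∈ Pn k n, F (X ^ n + v) = ∑ f ∈ (Mo k N).filter (fun f => f.natDegree = n), F f := by
  refine Finset.sum_bij' (fun v _ => X ^ n + v) (fun f _ => f - X ^ n) ?_ ?_ ?_ ?_ ?_
  · intro v hv
    have := MD_add (mem_Pn.1 hv)
    exact Finset.mem_filter.2 ⟨mem_Mo.2 ⟨this.1, this.2.le.trans h⟩, this.2⟩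
  · intro f hf
    obtain ⟨h1, h2⟩ := Finset.mem_filter.1 hf
    exact mem_Pn.2 (MD.degree_sub ⟨(mem_Mo.1 h1).1, h2⟩)
  · intro v _
    simp
  · intro v _
    simp
  · intro v _
    rfl

theorem avm_eq_sum : avm n F =
    (∑ f ∈ (Mo k n).filter (fun f => f.natDegree = n), F f) / qR k ^ n := by
  unfold avm avg
  rw [sum_MD n n le_rfl]

theorem card_MD (N n : ℕ) (h : n ≤ N) :
    (((Mo k N).filter fun f => f.natDegree = n).card : ℝ) = qR k ^ n := by
  have := sum_MD (k := k) N n h fun _ => 1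
  simp only [Finset.sum_const, nsmul_eq_mul, mul_one] at this
  rw [← this, card_Pn]

theorem card_Mo_le (n : ℕ) : ((Mo k n).card : ℝ) ≤ 2 * qR k ^ n := by
  have h1 : ((Mo k n).card : ℝ) = ∑ j ∈ Finset.range (n + 1), qR k ^ j := by
    rw [Finset.card_eq_sum_card_fiberwise (f := natDegree) (t := Finset.range (n + 1))
      fun f hf => by simpa [Nat.lt_succ_iff] using (mem_Mo.1 hf).2, Nat.cast_sum]
    exact Finset.sum_congr rfl fun j hj => card_MD n j (by simpa [Nat.lt_succ_iff] using hj)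
  rw [h1]
  clear h1
  induction n with
  | zero => simp
  | succ n ih =>
    rw [Finset.sum_range_succ]
    have h2 := two_le_qR (k := k)
    have h3 := qR_pow_pos (k := k) n
    rw [pow_succ]
    nlinarith

theorem avm_congr (h : ∀ f, MD n f → F f = G f) : avm n F = avm n G :=
  avg_congr fun _ hv => h _ (MD_add hv)

theorem avm_const (n : ℕ) (c : ℝ) : avm n (fun _ : k[X] => c) = c := avg_const n c

theorem avm_add : avm n (fun v => F v + G v) = avm n F + avm n G := avg_add

theorem avm_sub : avm n (fun v => F v - G v) = avm n F - avm n G := avg_sub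

theorem avm_mul_left (c : ℝ) : avm n (fun v => c * F v) = c * avm n F := avg_mul_left c

theorem avm_mul_right (c : ℝ) : avm n (fun v => F v * c) = avm n F * c := avg_mul_right c

theorem avm_sum {ι : Type} (s : Finset ι) (F : ι → k[X] → ℝ) :
    avm n (fun v => ∑ i ∈ s, F i v) = ∑ i ∈ s, avm n (F i) :=
  avg_sum s fun i v => F i (X ^ n + v)

theorem avm_mono (h : ∀ f, MD n f → F f ≤ G f) : avm n F ≤ avm n G :=
  avg_mono fun _ hv => h _ (MD_add hv)

theorem avm_nonneg (h : ∀ f, MD n f → 0 ≤ F f) : 0 ≤ avm n F :=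
  avg_nonneg fun _ hv => h _ (MD_add hv)

theorem avm_le_of_le {B : ℝ} (h : ∀ f, MD n f → F f ≤ B) : avm n F ≤ B :=
  avg_le_of_le fun _ hv => h _ (MD_add hv)

theorem abs_avm_le : |avm n F| ≤ avm n fun v => |F v| := abs_avg_le

theorem abs_avm_le_of_le {B : ℝ} (h : ∀ f, MD n f → |F f| ≤ B) : |avm n F| ≤ B :=
  abs_avg_le_of_le fun _ hv => h _ (MD_add hv)

theorem avm_comm (m n : ℕ) (F : k[X] → k[X] → ℝ) :
    avm m (fun v => avm n fun w => F v w) = avm n fun w => avm m fun v => F v w :=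
  avg_comm m n fun v w => F (X ^ m + v) (X ^ n + w)

theorem avm_avg_comm (m n : ℕ) (F : k[X] → k[X] → ℝ) :
    avm m (fun v => avg n fun w => F v w) = avg n fun w => avm m fun v => F v w :=
  avg_comm m n fun v w => F (X ^ m + v) w

theorem avm_shift {c : k[X]} (hc : c.degree < n) : avm n (fun v => F (v + c)) = avm n F := by
  unfold avm
  rw [← avg_shift (F := fun v => F (X ^ n + v)) hc]
  simp only [add_assoc]

theorem avm_avg_shift (L : ℕ) (c : k[X] → k[X])
    (hc : ∀ t : k[X], t.degree < L → (c t).degree < n) :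
    avm n F = avm n fun v => avg L fun t => F (v + c t) := by
  rw [avm_avg_comm, avg_congr (G := fun _ => avm n F) fun t ht => avm_shift (hc t ht), avg_const]

theorem sq_avm_le : avm n F ^ 2 ≤ avm n fun v => F v ^ 2 := sq_avg_le

theorem sq_avm_mul_le :
    avm n (fun v => F v * G v) ^ 2 ≤ avm n (fun v => F v ^ 2) * avm n fun v => G v ^ 2 :=
  sq_avg_mul_le

/-- A nonnegative function that is at least `B` on a progression. -/
theorem le_avm_of_progression {M b : k[X]} {len : ℕ} {B : ℝ} (hM : M ≠ 0) (hb : MD n b)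
    (hlen : M.natDegree + len ≤ n) (h0 : ∀ f, MD n f → 0 ≤ F f)
    (hB : ∀ t : k[X], t.degree < len → B ≤ F (b + M * t)) :
    B * qR k ^ len / qR k ^ n ≤ avm n F := by
  rw [avm_eq_sum]
  refine div_le_div_of_nonneg_right ?_ (qR_pow_pos n).le
  have hinj : Set.InjOn (fun t => b + M * t) (Pn k len : Set k[X]) := fun t _ t' _ h =>
    mul_left_cancel₀ hM (add_left_cancel h)
  calc B * qR k ^ len = ∑ _t ∈ Pn k len, B := by
        rw [Finset.sum_const, nsmul_eq_mul, card_Pn, mul_comm]
    _ ≤ ∑ t ∈ Pn k len, F (b + M * t) := Finset.sum_le_sum fun t ht => hB t (mem_Pn.1 ht)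
    _ = ∑ f ∈ (Pn k len).image (fun t => b + M * t), F f := (Finset.sum_image hinj).symm
    _ ≤ _ := by
      refine Finset.sum_le_sum_of_subset_of_nonneg ?_ fun f hf _ => ?_
      · intro f hf
        obtain ⟨t, ht, rfl⟩ := Finset.mem_image.1 hf
        have := hb.add (degree_mul_lt (mem_Pn.1 ht) hlen)
        exact Finset.mem_filter.2 ⟨mem_Mo.2 ⟨this.1, this.2.le⟩, this.2⟩
      · obtain ⟨h1, h2⟩ := Finset.mem_filter.1 hf
        exact h0 f ⟨(mem_Mo.1 h1).1, h2⟩

/-- Division with remainder as a product decomposition of the average. -/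
theorem avg_split {M : k[X]} (hM : M ≠ 0) (e : ℕ) (F : k[X] → ℝ) :
    avg (M.natDegree + e) F = avg M.natDegree fun r => avg e fun t => F (r + M * t) := by
  unfold avg
  rw [← Finset.sum_div, div_div, ← pow_add, add_comm e, ← Finset.sum_product']
  congr 1
  symm
  have hd : M.degree = M.natDegree := degree_eq_natDegree hM
  refine Finset.sum_bij (fun x _ => x.1 + M * x.2) ?_ ?_ ?_ ?_
  · intro x hx
    obtain ⟨h1, h2⟩ := Finset.mem_product.1 hx
    refine mem_Pn.2 ((degree_add_le _ _).trans_lt (max_lt ((mem_Pn.1 h1).trans_le ?_)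
      (degree_mul_lt (mem_Pn.1 h2) le_rfl)))
    exact_mod_cast Nat.le_add_right _ _
  · intro x hx y hy h
    obtain ⟨h1, _⟩ := Finset.mem_product.1 hx
    obtain ⟨h2, _⟩ := Finset.mem_product.1 hy
    have h3 : M ∣ x.1 - y.1 := ⟨y.2 - x.2, by linear_combination h⟩
    have h4 : x.1 - y.1 = 0 := eq_zero_of_dvd_of_degree_lt h3
      ((degree_sub_le _ _).trans_lt (max_lt (hd ▸ mem_Pn.1 h1) (hd ▸ mem_Pn.1 h2)))
    have h5 : x.1 = y.1 := sub_eq_zero.1 h4
    rw [h5] at h
    exact Prod.ext h5 (mul_left_cancel₀ hM (add_left_cancel h))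
  · intro f hf
    refine ⟨(f % M, f / M), Finset.mem_product.2 ⟨mem_Pn.2 (hd ▸ degree_mod_lt f hM),
      mem_Pn.2 ?_⟩, EuclideanDomain.mod_add_div f M⟩
    change (f / M).degree < e
    refine degree_lt_of_natDegree fun h0 => ?_
    have hf0 : f ≠ 0 := fun h => h0 (by simp [h])
    have h1 := natDegree_lt_of_degree hf0 (mem_Pn.1 hf)
    have h2 : M.degree ≤ f.degree := by
      by_contra h3
      exact h0 ((Polynomial.div_eq_zero_iff hM).2 (not_le.1 h3))
    have h3 := degree_add_div hM h2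
    rw [degree_eq_natDegree hM, degree_eq_natDegree h0, degree_eq_natDegree hf0] at h3
    have h4 : M.natDegree + (f / M).natDegree = f.natDegree := by exact_mod_cast h3
    omega
  · intro x _
    rfl

theorem avg_affine {M β : k[X]} (hM : M ≠ 0) (hn : M.natDegree ≤ n)
    (hF : ∀ v t, F (v + M * t) = F v) (hβ : IsCoprime β M) (α : k[X]) :
    avg n (fun t => F (α + β * t)) = avg M.natDegree F := by
  obtain ⟨e, rfl⟩ := Nat.exists_eq_add_of_le hn
  have hd : M.degree = M.natDegree := degree_eq_natDegree hM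
  rw [avg_split hM]
  have h1 : ∀ r : k[X], avg e (fun t => F (α + β * (r + M * t))) = F ((α + β * r) % M) := by
    intro r
    rw [avg_congr (G := fun _ => F ((α + β * r) % M)) fun t _ => ?_, avg_const]
    rw [← hF ((α + β * r) % M) ((α + β * r) / M + β * t)]
    congr 1
    linear_combination (-1 : k[X]) * EuclideanDomain.mod_add_div (α + β * r) M
  simp only [h1]
  unfold avg
  congr 1
  have hinj : ∀ r ∈ Pn k M.natDegree, ∀ r' ∈ Pn k M.natDegree,
      (α + β * r) % M = (α + β * r') % M → r = r' := by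
    intro r hr r' hr' h
    have h3 : M ∣ β * (r - r') := ⟨(α + β * r) / M - (α + β * r') / M, by
      linear_combination h - EuclideanDomain.mod_add_div (α + β * r) M +
        EuclideanDomain.mod_add_div (α + β * r') M⟩
    exact sub_eq_zero.1 (eq_zero_of_dvd_of_degree_lt (hβ.symm.dvd_of_dvd_mul_left h3)
      ((degree_sub_le _ _).trans_lt (max_lt (hd ▸ mem_Pn.1 hr) (hd ▸ mem_Pn.1 hr'))))
  have hmaps : ∀ r ∈ Pn k M.natDegree, (α + β * r) % M ∈ Pn k M.natDegree := fun r _ =>
    mem_Pn.2 (hd ▸ degree_mod_lt _ hM)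
  refine Finset.sum_bij (fun r _ => (α + β * r) % M) hmaps hinj ?_ fun _ _ => rfl
  intro b hb
  obtain ⟨a, ha, h⟩ := Finset.surj_on_of_inj_on_of_card_le (fun r _ => (α + β * r) % M) hmaps
    (fun r r' hr hr' h => hinj r hr r' hr' h) le_rfl b hb
  exact ⟨a, ha, h.symm⟩

theorem avg_periodic {M : k[X]} (hM : M ≠ 0) (hn : M.natDegree ≤ n)
    (hF : ∀ v t, F (v + M * t) = F v) (c : k[X]) :
    avg n (fun v => F (c + v)) = avg M.natDegree F := by
  simpa using avg_affine hM hn hF isCoprime_one_left c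

theorem avg_dvd {M β : k[X]} (hM : M ≠ 0) (hn : M.natDegree ≤ n) (hβ : IsCoprime β M)
    (α : k[X]) : avg n (fun t => if M ∣ α + β * t then 1 else 0) = 1 / Nm M := by
  have hd : M.degree = M.natDegree := degree_eq_natDegree hM
  rw [avg_affine (F := fun v => if M ∣ v then 1 else 0) hM hn
    (fun v t => by simp only [dvd_add_left (dvd_mul_right M t)]) hβ α]
  unfold avg Nm
  congr 1
  rw [Finset.sum_eq_single 0]
  · simp
  · intro v hv h0
    exact if_neg fun h => h0 (eq_zero_of_dvd_of_degree_lt h (hd ▸ mem_Pn.1 hv))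
  · intro h
    exact absurd (mem_Pn.2 (by simp)) h

theorem avg_dvd_le {M β : k[X]} {s : ℕ} (hM : M ≠ 0) (hn : s ≤ n) (hs : s ≤ M.natDegree)
    (hβ : IsCoprime β M) (α : k[X]) :
    avg n (fun t => if M ∣ α + β * t then 1 else 0) ≤ 1 / qR k ^ s := by
  have hd : M.degree = M.natDegree := degree_eq_natDegree hM
  rcases le_total M.natDegree n with h | h
  · rw [avg_dvd hM h hβ]
    exact one_div_le_one_div_of_le (qR_pow_pos s) (pow_le_pow_right₀ one_le_qR hs)
  · refine le_trans ?_ (one_div_le_one_div_of_le (qR_pow_pos s) (pow_le_pow_right₀ one_le_qR hn))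
    unfold avg
    refine div_le_div_of_nonneg_right ?_ (qR_pow_pos n).le
    rw [Finset.sum_boole]
    have : ((Pn k n).filter fun t => M ∣ α + β * t).card ≤ 1 := by
      refine Finset.card_le_one.2 fun t ht t' ht' => ?_
      obtain ⟨h1, h2⟩ := Finset.mem_filter.1 ht
      obtain ⟨h3, h4⟩ := Finset.mem_filter.1 ht'
      have h5 : M ∣ β * (t - t') := by
        have := dvd_sub h2 h4
        rwa [show α + β * t - (α + β * t') = β * (t - t') by ring] at this
      have h6 : (n : WithBot ℕ) ≤ M.degree := by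
        rw [hd]
        exact_mod_cast h
      exact sub_eq_zero.1 (eq_zero_of_dvd_of_degree_lt (hβ.symm.dvd_of_dvd_mul_left h5)
        ((degree_sub_le _ _).trans_lt
          (max_lt ((mem_Pn.1 h1).trans_le h6) ((mem_Pn.1 h3).trans_le h6))))
    exact_mod_cast this

/-- Independence of conditions modulo pairwise coprime moduli. -/
theorem avg_prod {ι : Type} (T : Finset ι) (M : ι → k[X]) (F : ι → k[X] → ℝ)
    (hM : ∀ i ∈ T, M i ≠ 0) (hc : ∀ i ∈ T, ∀ j ∈ T, i ≠ j → IsCoprime (M i) (M j))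
    (hF : ∀ i ∈ T, ∀ v t, F i (v + M i * t) = F i v) (hn : ∑ i ∈ T, (M i).natDegree ≤ n)
    (c : k[X]) :
    avg n (fun v => ∏ i ∈ T, F i (c + v)) = ∏ i ∈ T, avg (M i).natDegree (F i) := by
  induction T using Finset.induction_on with
  | empty => simp [avg_const]
  | insert a T ha ih =>
    have hm : ∀ i ∈ T, i ∈ insert a T := fun i hi => Finset.mem_insert_of_mem hi
    have ha' := Finset.mem_insert_self a T
    rw [Finset.sum_insert ha] at hn
    have ih' := ih (fun i hi => hM i (hm i hi)) (fun i hi j hj => hc i (hm i hi) j (hm j hj))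
      (fun i hi => hF i (hm i hi)) (by omega)
    have hP : (∏ i ∈ T, M i).natDegree ≤ ∑ i ∈ T, (M i).natDegree := natDegree_prod_le _ _
    have hcop : IsCoprime (∏ i ∈ T, M i) (M a) :=
      IsCoprime.prod_left fun i hi => hc i (hm i hi) a ha' fun h => ha (h ▸ hi)
    rw [Finset.prod_insert ha, ← ih', avg_avg_shift (M a).natDegree (fun t => (∏ i ∈ T, M i) * t)
      fun t ht => degree_mul_lt ht (by omega), ← avg_mul_left]
    refine avg_congr fun v _ => ?_
    rw [← avg_affine (hM a ha') le_rfl (hF a ha') hcop (c + v), ← avg_mul_right]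
    refine avg_congr fun t _ => ?_
    rw [Finset.prod_insert ha, ← add_assoc]
    congr 1
    refine Finset.prod_congr rfl fun i hi => ?_
    obtain ⟨y, hy⟩ := Finset.dvd_prod_of_mem M hi
    rw [hy, mul_assoc, hF i (hm i hi)]

end Pool.Agent.Lib.MP_9227d9_nt.Mob
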