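import Mathlib

/-!
Moebius function on shifted primes over finite fields of characteristic two
(definitions and statements of the modules).
-/

namespace Pool.Agent.Lib.MP_9227d9_nt.Mob

open Polynomial

open scoped Classical

section Defs

theorem finite_degree_lt (k : Type) [Field k] [Fintype k] (n : ℕ) :
    {f : k[X] | f.degree < n}.Finite := by
  have h : Finite (degreeLT k n) := Finite.of_equiv _ (degreeLTEquiv k n).toEquiv.symm
  have h2 : {f : k[X] | f.degree < n} = (degreeLT k n : Set k[X]) := by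
    ext f
    simp [mem_degreeLT]
  rw [h2]
  exact Set.toFinite _

/-- The number of elements of `k` as a real number. -/
def qR (k : Type) [Fintype k] : ℝ := Fintype.card k

/-- The polynomials of degree less than `n`. -/
noncomputable def Pn (k : Type) [Field k] [Fintype k] (n : ℕ) : Finset k[X] :=
  (finite_degree_lt k n).toFinset

/-- The monic polynomials of degree at most `n`. -/
noncomputable def Mo (k : Type) [Field k] [Fintype k] (n : ℕ) : Finset k[X] :=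
  (Pn k (n + 1)).filter fun f => f.Monic

variable {k : Type} [Field k] [Fintype k]

/-- Average over the polynomials of degree less than `n`. -/
noncomputable def avg (n : ℕ) (F : k[X] → ℝ) : ℝ := (∑ v ∈ Pn k n, F v) / qR k ^ n

/-- Average over the monic polynomials of degree `n`. -/
noncomputable def avm (n : ℕ) (F : k[X] → ℝ) : ℝ := avg n fun v => F (X ^ n + v)

/-- `f` is monic of degree `n`. -/
def MD (n : ℕ) (f : k[X]) : Prop := f.Monic ∧ f.natDegree = n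

/-- Monic irreducible. -/
def IsP (p : k[X]) : Prop := p.Monic ∧ Irreducible p

/-- The norm `q ^ deg p`. -/
noncomputable def Nm (p : k[X]) : ℝ := qR k ^ p.natDegree

/-- The primes of degree `m`. -/
noncomputable def PrD (k : Type) [Field k] [Fintype k] (m : ℕ) : Finset k[X] :=
  (Pn k (m + 1)).filter fun p => IsP p ∧ p.natDegree = m

/-- The primes of degree less than `s`. -/
noncomputable def PrL (k : Type) [Field k] [Fintype k] (s : ℕ) : Finset k[X] :=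
  (Pn k s).filter IsP

/-- The prime factors of `M` (for `M ≠ 0`). -/
noncomputable def pf (M : k[X]) : Finset k[X] :=
  (Pn k (M.natDegree + 1)).filter fun p => IsP p ∧ p ∣ M

/-- The Moebius function as a real number. -/
noncomputable def mu (F : k[X]) : ℝ := ((UniqueFactorizationMonoid.moebius F : ℤ) : ℝ)

/-- `1` if `z ^ 2 + z = n / M` is solvable modulo `p`, and `-1` otherwise. -/
noncomputable def sgR (p M n : k[X]) : ℝ :=
  if ∃ z : k[X], p ∣ M * (z ^ 2 + z) + n then 1 else -1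

/-- The local factor at `p ∣ b` of the Moebius function of `a ^ 2 + X * b ^ 2`. -/
noncomputable def chi (p b a : k[X]) : ℝ :=
  if p ∣ a then 0
  else sgR p (a ^ 2 * derivative b ^ 4) ((derivative a ^ 2 + X * derivative b ^ 2) ^ 3)

/-- The even part: `F = ev F ^ 2 + X * od F ^ 2`. -/
noncomputable def ev [CharP k 2] (F : k[X]) : k[X] :=
  (contract 2 F).map (frobeniusEquiv k 2).symm.toRingHom

/-- The odd part: `F = ev F ^ 2 + X * od F ^ 2`. -/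
noncomputable def od [CharP k 2] (F : k[X]) : k[X] := ev F.divX

/-- The weight of products of primes of prescribed degrees. -/
noncomputable def Wt {ι : Type} [Fintype ι] (I : ι → ℕ) (l : k[X]) : ℝ :=
  ∑ p ∈ Fintype.piFinset (fun i => PrD k (I i)), if ∏ i, p i = l then ∏ i, (I i : ℝ) else 0

/-- The mean zero local function. -/
noncomputable def psi (p l : k[X]) : ℝ := if p ∣ l then -1 else 1 / (Nm p - 1)

/-- Sets of primes of degree less than `s` with total degree at most `z`. -/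
noncomputable def SS (k : Type) [Field k] [Fintype k] (z s : ℕ) : Finset (Finset k[X]) :=
  (PrL k s).powerset.filter fun S => ∑ p ∈ S, p.natDegree ≤ z

/-- The model of the weight. -/
noncomputable def wm (z s : ℕ) (l : k[X]) : ℝ := ∑ S ∈ SS k z s, ∏ p ∈ S, psi p l

/-- The majorant of the model. -/
noncomputable def wa (z s : ℕ) (l : k[X]) : ℝ := ∑ S ∈ SS k z s, |∏ p ∈ S, psi p l|

/-- `|M| / φ(M)`. -/
noncomputable def cM (M : k[X]) : ℝ := ∏ p ∈ pf M, Nm p / (Nm p - 1)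

/-- The mean of the product of the two models. -/
noncomputable def f0 (z s : ℕ) (Z : k[X]) : ℝ :=
  ∑ S ∈ (SS k z s).filter (fun S => ∀ p ∈ S, p ∣ Z), ∏ p ∈ S, 1 / (Nm p - 1)

/-- The approximate inverse of `f0`. -/
noncomputable def rho (z s : ℕ) (Z : k[X]) : ℝ :=
  ∑ S ∈ (SS k z s).filter (fun S => ∀ p ∈ S, p ∣ Z), ∏ p ∈ S, -1 / Nm p

/-- The coefficient in the decomposition of the von Mangoldt function. -/
noncomputable def coef (n : ℕ) (D₁ D₂ G : k[X]) : ℝ :=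
  (if 2 * D₁.natDegree ≤ n then mu D₁ * ((n : ℝ) - D₁.natDegree) * mu G ^ 2 else 0) +
  (if 2 * (D₁.natDegree + 2 * D₂.natDegree) < n then
    mu D₁ ^ 2 * ((D₁.natDegree : ℝ) + 2 * D₂.natDegree) * mu G else 0)

/-- `K` bounds all the polynomial and subexponential factors at scale `τ`. -/
structure KB (k : Type) [Field k] [Fintype k] (τ : ℕ) (K : ℝ) : Prop where
  lin : (6000 * τ + 10 : ℝ) ≤ K
  om : ∀ M : k[X], M ≠ 0 → M.natDegree ≤ 5000 * τ → (4 : ℝ) ^ (pf M).card ≤ K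
  wa : ∀ (z s : ℕ) (l : k[X]), l ≠ 0 → l.natDegree ≤ 5000 * τ → z ≤ 200 * τ → wa z s l ≤ K
  wt : ∀ (r : ℕ) (I : Fin r → ℕ) (l : k[X]), r ≤ 67 → (∀ i, I i ≤ 32 * τ) → Wt I l ≤ K
  var : ∀ (r : ℕ) (I : Fin r → ℕ) (M : k[X]) (len : ℕ), r ≤ 67 → (∀ i, 12 * τ ≤ I i) →
    (∀ i, I i ≤ 32 * τ) → M ≠ 0 → M.natDegree + len ≤ ∑ i, I i →
    ∃ θ : ℝ, |θ - 1| ≤ K / qR k ^ (6 * τ) ∧
      avm (∑ i, I i) (fun b => if IsCoprime b M then
        (avg len (fun t => Wt I (b + M * t)) - θ * cM M) ^ 2 else 0) ≤ K / qR k ^ len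

/-- The parameters of the core estimate. -/
structure Ctx (k : Type) [Field k] where
  τ : ℕ
  nu : ℕ
  L : ℕ
  D₁ : k[X]
  D₂ : k[X]
  h : k[X]
  I₁ : Fin 66 → ℕ
  I₂ : Fin 67 → ℕ
  τ_pos : 2 ≤ τ
  nu_ge : 840 * τ ≤ nu
  nu_le : nu ≤ 840 * τ + 1
  L_ge : 78 * τ ≤ L
  L_le : L ≤ 600 * τ
  D₁_monic : D₁.Monic
  D₁_sqf : Squarefree D₁
  D₂_monic : D₂.Monic
  cop : IsCoprime D₁ h
  h_ne : h ≠ 0
  h_deg : h.natDegree ≤ τ
  D₁_deg : D₁.natDegree ≤ 1001 * τ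
  D₂_deg : D₂.natDegree ≤ τ
  I₁_inj : Function.Injective I₁
  I₁_ge : ∀ i, 13 * τ ≤ I₁ i
  I₁_le : ∀ i, I₁ i ≤ 32 * τ
  I₁_sum : ∑ i, I₁ i + 1 = nu + L
  I₂_inj : Function.Injective I₂
  I₂_zero : I₂ 0 = 12 * τ
  I₂_ge : ∀ i, 12 * τ ≤ I₂ i
  I₂_le : ∀ i, I₂ i ≤ 32 * τ
  I₂_sum : ∑ i, I₂ i = ∑ i, I₁ i + D₁.natDegree + D₂.natDegree

namespace Ctx

variable (c : Ctx k)

/-- The degree of `G`. -/
def n' : ℕ := c.nu + 2 * c.L - 1

/-- The degree of the first modulus. -/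
def d₁ : ℕ := ∑ i, c.I₁ i

/-- The degree of the second modulus. -/
def d₂ : ℕ := ∑ i, c.I₂ i

/-- The length of a cell. -/
def m : ℕ := c.nu + 2 * c.L - 4 * c.τ

/-- The length of the image of a cell. -/
def m' : ℕ := c.nu + c.L - 2 * c.τ

/-- `q ^ τ`. -/
noncomputable def Q : ℝ := qR k ^ c.τ

/-- The shifted polynomial. -/
noncomputable def Xs (G : k[X]) : k[X] := c.D₁ * c.D₂ ^ 2 * G + c.h

variable [CharP k 2]

/-- The first modulus. -/
noncomputable def l₁ (_c : Ctx k) (u G : k[X]) : k[X] := od (G * u)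

/-- The second modulus. -/
noncomputable def l₂ (u G : k[X]) : k[X] := od (c.Xs G * c.D₁ * u)

/-- The shift between the two moduli. -/
noncomputable def cu (u : k[X]) : k[X] := od (c.h * c.D₁ * u)

/-- The determinant of the two linear forms. -/
noncomputable def Z (G : k[X]) : k[X] := od (G * (c.h * c.D₁))

/-- First weight. -/
noncomputable def W₁ (l : k[X]) : ℝ := Wt c.I₁ l

/-- Second weight. -/
noncomputable def W₂ (l : k[X]) : ℝ := Wt c.I₂ l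

/-- First model. -/
noncomputable def w₁ (l : k[X]) : ℝ := wm (190 * c.τ) (12 * c.τ) l

/-- Second model. -/
noncomputable def w₂ (l : k[X]) : ℝ := wm (180 * c.τ) (12 * c.τ) l

/-- Weight minus model. -/
noncomputable def Fu (u G : k[X]) : ℝ :=
  c.W₁ (c.l₁ u G) * c.W₂ (c.l₂ u G) - c.w₁ (c.l₁ u G) * c.w₂ (c.l₂ u G)

/-- The function whose mean is estimated. -/
noncomputable def T (j : ℕ) (κ : k[X] → ℝ) (G : k[X]) : ℝ := mu G ^ j * mu (c.Xs G) * κ G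

end Ctx

end Defs

/-- A: the Moebius function on `a ^ 2 + X * b ^ 2` is a product of local factors. -/
def StA : Prop :=
  ∀ (k : Type) [Field k] [Fintype k] [CharP k 2] (S : Finset k[X]), (∀ p ∈ S, IsP p) →
    ∃ ε : ℝ, |ε| ≤ 1 ∧ ∀ a : k[X], a.natDegree ≤ (∏ p ∈ S, p).natDegree →
      mu (a ^ 2 + X * (∏ p ∈ S, p) ^ 2) = ε * ∏ p ∈ S, chi p (∏ p ∈ S, p) a

/-- A1: the Moebius function and the sign of the Frobenius permutation of the roots. -/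
def StA1 : Prop :=
  ∀ (k : Type) [Field k] [Fintype k] [CharP k 2] (F : k[X]) (n : ℕ)
    (α : Fin n → AlgebraicClosure k) (s : Equiv.Perm (Fin n)), Squarefree F →
    F.map (algebraMap k (AlgebraicClosure k)) = ∏ i, (X - C (α i)) →
    (∀ i, α (s i) = α i ^ Fintype.card k) →
    mu F = (-1) ^ n * (((Equiv.Perm.sign s : ℤˣ) : ℤ) : ℝ)

/-- A2n: a norm modulo eight. -/
def StA2n : Prop :=
  ∀ (O : Type) [CommRing O] (ι : Type) [Fintype ι] (v : ι → O) (P Q : O) (f : O[X]),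
    f = ∏ i, (X - C (v i)) → f.coeff 1 = 2 * Q * f.coeff 3 →
    ∃ r : O, ∏ i, (v i ^ 2 + 2 * P * v i + 2 * Q) =
      f.coeff 0 ^ 2 + 4 * (P ^ 2 * f.coeff 0 * f.coeff 2 + Q * f.coeff 0 * f.coeff 2 +
        Q ^ 2 * f.coeff 2 ^ 2) + 8 * r

/-- A2: the discriminant modulo eight. -/
def StA2 : Prop :=
  ∀ m : ℕ, ∃ ε : ℕ, ∀ (L : Type) [Field L] [CharP L 2] [PerfectRing L 2] (φ : L →+* L)
    (α : Fin (2 * m + 1) → L) (β : Fin m → L) (s : Equiv.Perm (Fin (2 * m + 1)))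
    (t : Equiv.Perm (Fin m)) (F : L[X]), Function.Injective α → Function.Injective β →
    (∀ i, φ (α i) = α (s i)) → (∀ j, φ (β j) = β (t j)) → F = ∏ i, (X - C (α i)) →
    derivative F = (∏ j, (X - C (β j))) ^ 2 →
    ∃ z : L, z ^ 2 + z = ε + ∑ j, (taylor (β j) F).coeff 2 ^ 3 /
        ((taylor (β j) F).coeff 0 * (taylor (β j) F).coeff 3 ^ 2) ∧
      φ z = z + if Equiv.Perm.sign s = 1 then 0 else 1

/-- B0: the complete sum. -/
def StB0 : Prop :=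
  ∀ (k : Type) [Field k] [Fintype k] [CharP k 2] (p b w : k[X]) (J : Type) [Fintype J]
    [Nonempty J] (a : J → k[X]) (L : ℕ), IsP p → ¬ p ∣ derivative b → ¬ p ∣ w →
    (∀ i j, i ≠ j → ¬ p ∣ a i - a j) → 2 * p.natDegree ≤ L →
    (avg L fun σ => ∏ j, chi p b (a j + w * σ)) ^ 2 ≤ ((Fintype.card J : ℝ) + 2) ^ 2 / Nm p

/-- B: the van der Corput iteration. -/
def StB : Prop :=
  ∀ m : ℕ, ∃ C : ℝ, ∀ (k : Type) [Field k] [Fintype k] [CharP k 2] (p b a w : k[X])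
    (ι : Type) [Fintype ι] (φ : ι → k[X] → ℝ) (M : ι → k[X]) (L : ℕ), Fintype.card ι ≤ m →
    IsP p → ¬ p ∣ derivative b → ¬ p ∣ w → (∀ i σ, |φ i σ| ≤ 1) →
    (∀ i σ t, φ i (σ + M i * t) = φ i σ) → (∀ i, ¬ p ∣ M i) →
    (∀ i, (M i).natDegree + p.natDegree ≤ L) → 2 * p.natDegree ≤ L →
    |avg L fun σ => chi p b (a + w * σ) * ∏ i, φ i σ| ^ 2 ^ (m + 1) ≤ C / Nm p

/-- C: cancellation on a good line. -/
def StC : Prop :=
  ∃ C : ℝ, ∀ (k : Type) [Field k] [Fintype k] [CharP k 2] (c : Ctx k) (u G w₀ : k[X]) (j : ℕ),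
    MD c.nu u → MD c.n' G → w₀ ≠ 0 → w₀.natDegree ≤ 2 * c.τ → 1 ≤ j →
    c.W₁ (c.l₁ u G) ≠ 0 → c.W₂ (c.l₂ u G) ≠ 0 →
    IsCoprime u (c.l₁ u G) → IsCoprime (c.D₁ * u) (c.l₂ u G) →
    |avg (76 * c.τ) fun σ => mu (G + u * (w₀ * σ) ^ 2) ^ j * mu (c.Xs (G + u * (w₀ * σ) ^ 2))|
      ^ 2 ^ 134 ≤ C / c.Q ^ 12

/-- Da: an additive character that is trivial on many lines is trivial on a cell. -/
def StDa : Prop :=
  ∀ (k : Type) [Field k] [Fintype k] [CharP k 2] (nu L z : ℕ) (ω : AddChar k[X] ℂ),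
    1 ≤ z → 2 * z ≤ L → 2 * z ≤ nu →
    avm nu (fun u => if ∀ σ ∈ Pn k L, ω (u * σ ^ 2) = 1 then 1 else 0) ≤ 1 / qR k ^ z ∨
    ∃ R : k[X], R.Monic ∧ R.natDegree < z ∧
      ∀ v ∈ Pn k (nu + 2 * L - 4 * z), ω (R ^ 2 * v) = 1

/-- D: concentration of a mean of functions that are constant on lines. -/
def StD : Prop :=
  ∀ (k : Type) [Field k] [Fintype k] [CharP k 2] (nu L z : ℕ) (F : k[X] → k[X] → ℝ) (K ε : ℝ),
    1 ≤ z → 2 * z ≤ L → 2 * z ≤ nu → 0 ≤ K → 0 ≤ ε →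
    (∀ u G, MD nu u → MD (nu + 2 * L - 1) G → |F u G| ≤ K) →
    (∀ u G σ, F u (G + u * σ ^ 2) = F u G) →
    (∀ R G₀ : k[X], R.Monic → R.natDegree < z → MD (nu + 2 * L - 1) G₀ →
      |avm nu fun u => avg (nu + 2 * L - 4 * z) fun v => F u (G₀ + R ^ 2 * v)| ≤ ε) →
    avm (nu + 2 * L - 1) (fun G => (avm nu fun u => F u G) ^ 2) ≤
      K ^ 2 / qR k ^ z + K * √(qR k ^ z) * ε

/-- Var: variance of the weight in short progressions. -/
def StVar : Prop :=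
  ∀ (k : Type) [Field k] [Fintype k] [CharP k 2], ∃ c : ℝ, 1 ≤ c ∧
    ∀ (r : ℕ) (I : Fin r → ℕ) (M : k[X]) (len s : ℕ), 1 ≤ s → (∀ i, 2 * s ≤ I i) →
    M ≠ 0 → M.natDegree + len ≤ ∑ i, I i →
    ∃ θ : ℝ, |θ - 1| ≤ (c * (∑ i, I i + 2 : ℕ)) ^ r / qR k ^ s ∧
      avm (∑ i, I i) (fun b => if IsCoprime b M then
        (avg len (fun t => Wt I (b + M * t)) - θ * cM M) ^ 2 else 0) ≤
        (c * (∑ i, I i + 2 : ℕ)) ^ (2 * r) / qR k ^ len

/-- K: the constant `K` is subexponential. -/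
def StK : Prop :=
  ∀ (k : Type) [Field k] [Fintype k] [CharP k 2] (θ : ℝ), 1 < θ → ∃ C : ℝ, ∀ τ : ℕ, 1 ≤ τ →
    ∃ K : ℝ, K ≤ C * θ ^ τ ∧ KB k τ K

/-- S: the image of the uniform measure under `v ↦ od (v * u)`. -/
def StS : Prop :=
  ∀ (k : Type) [Field k] [Fintype k] [CharP k 2] (u : k[X]) (m m' : ℕ) (Φ : k[X] → ℝ),
    u.Monic → Squarefree u → u.natDegree ≤ m → m + u.natDegree = 2 * m' →
    avg m (fun v => Φ (od (v * u))) = avg m' Φ

/-- SQ: large square divisors are rare. -/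
def StSQ : Prop :=
  ∀ (k : Type) [Field k] [Fintype k] (n y : ℕ),
    avm n (fun u : k[X] => (((Mo k n).filter fun g => y < g.natDegree ∧ g ^ 2 ∣ u).card : ℝ)) ≤
      1 / qR k ^ y

/-- EX: a large prime factor of `M` rarely divides the terms of a progression. -/
def StEX : Prop :=
  ∀ (k : Type) [Field k] [Fintype k] (M α β : k[X]) (s len : ℕ), M ≠ 0 → 1 ≤ s → s ≤ len →
    (∀ p ∈ pf M, s ≤ p.natDegree → ¬ p ∣ β) →
    avg len (fun t => if ∃ p ∈ pf M, s ≤ p.natDegree ∧ p ∣ α + β * t then 1 else 0) ≤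
      M.natDegree / qR k ^ s

/-- M1: the mean of the model on a progression. -/
def StM1 : Prop :=
  ∀ (k : Type) [Field k] [Fintype k] (z s len : ℕ) (b M : k[X]), z ≤ len →
    avg len (fun t => wm z s (b + M * t)) =
      ∑ S ∈ (SS k z s).filter (fun S => ∀ p ∈ S, p ∣ M), ∏ p ∈ S, psi p b

/-- M2: the tail of the model. -/
def StM2 : Prop :=
  ∀ (k : Type) [Field k] [Fintype k] (z s d : ℕ) (M : k[X]), M ≠ 0 → M.natDegree ≤ d →
    avm d (fun b => (∏ p ∈ (pf M).filter (fun p => p.natDegree < s), (1 + psi p b) -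
      ∑ S ∈ (SS k z s).filter (fun S => ∀ p ∈ S, p ∣ M), ∏ p ∈ S, psi p b) ^ 2) ≤
      4 ^ (pf M).card / qR k ^ z

/-- M4: the mean of the product of the two models. -/
def StM4 : Prop :=
  ∀ (k : Type) [Field k] [Fintype k] [CharP k 2] (z₁ z₂ s nu : ℕ) (G H : k[X]),
    Squarefree G → Squarefree H → z₂ ≤ z₁ → 2 * (z₁ + z₂) ≤ nu →
    avm nu (fun u => wm z₁ s (od (G * u)) * wm z₂ s (od (H * u))) = f0 z₂ s (od (G * H))

/-- M5: `rho` inverts `f0`. -/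
def StM5 : Prop :=
  ∀ (k : Type) [Field k] [Fintype k] (z z₂ s : ℕ) (Z : k[X]), z ≤ z₂ →
    ∑ S ∈ SS k z s, ∏ p ∈ S, 1 / Nm p ≤ z + 1 ∧ |rho z s Z| ≤ z + 1 ∧
      (Z ≠ 0 → |1 - rho z s Z * f0 z₂ s Z| ≤ 2 * 4 ^ (pf Z).card / qR k ^ z)

/-- Dg: shape of the two moduli. -/
def StDg : Prop :=
  ∀ (k : Type) [Field k] [Fintype k] [CharP k 2] (c : Ctx k) (u G : k[X]),
    c.l₂ u G = c.D₁ * c.D₂ * c.l₁ u G + c.cu u ∧
    (∀ σ, c.l₁ u (G + u * σ ^ 2) = c.l₁ u G) ∧ (∀ σ, c.l₂ u (G + u * σ ^ 2) = c.l₂ u G) ∧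
    (MD c.nu u → (c.cu u).degree < c.d₂ ∧
      (∀ l, MD c.d₁ l → MD c.d₂ (c.D₁ * c.D₂ * l + c.cu u)) ∧
      (MD c.n' G → MD c.d₁ (c.l₁ u G) ∧ MD c.d₂ (c.l₂ u G)))

/-- PT: the first weight agrees with its model on every long progression. -/
def StPT : Prop :=
  ∀ (k : Type) [Field k] [Fintype k] [CharP k 2] (c : Ctx k) (K : ℝ) (b M : k[X]) (len : ℕ),
    KB k c.τ K → MD c.d₁ b → M ≠ 0 → (∀ p ∈ pf M, p.natDegree < 12 * c.τ) →
    M.natDegree ≤ 190 * c.τ → M.natDegree + len ≤ c.d₁ → c.d₁ ≤ len + 190 * c.τ →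
    |avg len fun t => c.W₁ (b + M * t) - c.w₁ (b + M * t)| ≤ 2 * K ^ 2 / c.Q ^ 6

/-- BT: the second weight agrees with its model on most short progressions. -/
def StBT : Prop :=
  ∀ (k : Type) [Field k] [Fintype k] [CharP k 2] (c : Ctx k) (K : ℝ) (M : k[X]),
    KB k c.τ K → M ≠ 0 → M.natDegree + 200 * c.τ ≤ c.d₂ →
    ∃ β₀ : k[X] → ℝ, avm c.d₂ (fun b => β₀ b ^ 2) ≤ 4 * K / c.Q ^ 180 ∧
      ∀ b, MD c.d₂ b → |avg (200 * c.τ) fun t => c.W₂ (b + M * t) - c.w₂ (b + M * t)| ≤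
        |β₀ b| + 3 * K ^ 2 / c.Q ^ 6 +
          if ∃ p ∈ pf M, 12 * c.τ ≤ p.natDegree ∧ p ∣ b then 2 * K else 0

/-- DN: density of the second modulus. -/
def StDN : Prop :=
  ∀ (k : Type) [Field k] [Fintype k] [CharP k 2] (c : Ctx k) (R G₀ : k[X]) (Φ : k[X] → ℝ),
    R.Monic → R.natDegree < c.τ → MD c.n' G₀ → (∀ b, 0 ≤ Φ b) →
    avm c.nu (fun u => avg c.m' fun t => Φ (c.D₁ * c.D₂ * (c.l₁ u G₀ + R * t) + c.cu u)) ≤
      c.Q ^ 164 * avm c.d₂ Φ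

/-- T1: first cell mean. -/
def StT1 : Prop :=
  ∀ (k : Type) [Field k] [Fintype k] [CharP k 2] (c : Ctx k) (K : ℝ) (R G₀ : k[X]),
    KB k c.τ K → R.Monic → R.natDegree < c.τ → MD c.n' G₀ →
    |avm c.nu fun u => avg c.m fun v => c.W₁ (c.l₁ u (G₀ + R ^ 2 * v)) *
      (c.W₂ (c.l₂ u (G₀ + R ^ 2 * v)) - c.w₂ (c.l₂ u (G₀ + R ^ 2 * v)))| ≤
      11 * qR k * K ^ 4 / c.Q ^ 3

/-- T2: second cell mean. -/
def StT2 : Prop :=
  ∀ (k : Type) [Field k] [Fintype k] [CharP k 2] (c : Ctx k) (K : ℝ) (R G₀ : k[X]),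
    KB k c.τ K → R.Monic → R.natDegree < c.τ → MD c.n' G₀ →
    |avm c.nu fun u => avg c.m fun v =>
      (c.W₁ (c.l₁ u (G₀ + R ^ 2 * v)) - c.w₁ (c.l₁ u (G₀ + R ^ 2 * v))) *
        c.w₂ (c.l₂ u (G₀ + R ^ 2 * v))| ≤ 4 * K ^ 3 / c.Q ^ 3

/-- Conc: concentration of the mean weight. -/
def StConc : Prop :=
  ∀ (k : Type) [Field k] [Fintype k] [CharP k 2] (c : Ctx k) (K : ℝ), KB k c.τ K →
    avm c.n' (fun G => (avm c.nu fun u => c.Fu u G) ^ 2) ≤ 34 * qR k * K ^ 6 / c.Q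

/-- Ea: the weight may be inserted. -/
def StEa : Prop :=
  ∀ (k : Type) [Field k] [Fintype k] [CharP k 2] (c : Ctx k) (K : ℝ) (j : ℕ) (κ : k[X] → ℝ),
    KB k c.τ K → 1 ≤ j → (∀ G, |κ G| ≤ 1) →
    |avm c.n' fun G => c.T j κ G * (1 - rho c.τ (12 * c.τ) (c.Z G) *
      avm c.nu fun u => c.W₁ (c.l₁ u G) * c.W₂ (c.l₂ u G))| ≤ 10 * qR k * K ^ 4 / √c.Q

/-- Eb: the weighted mean is small. -/
def StEb : Prop :=
  ∃ C : ℝ, ∀ (k : Type) [Field k] [Fintype k] [CharP k 2] (c : Ctx k) (K : ℝ) (j : ℕ)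
    (κ : k[X] → ℝ) (M₀ : k[X]), KB k c.τ K → 1 ≤ j → (∀ G, |κ G| ≤ 1) → M₀ ≠ 0 →
    M₀.natDegree ≤ c.τ → (∀ G t, κ (G + M₀ * t) = κ G) →
    |avm c.n' fun G => c.T j κ G * (rho c.τ (12 * c.τ) (c.Z G) *
      avm c.nu fun u => c.W₁ (c.l₁ u G) * c.W₂ (c.l₂ u G))| ≤
      C * K ^ 4 / c.Q ^ (1 / 2 ^ 134 : ℝ)

/-- Core: cancellation in `mu G ^ j * mu (D G + h)` for every modulus up to half the degree. -/
def StCore : Prop :=
  ∃ c : ℝ, 0 < c ∧ ∀ (k : Type) [Field k] [Fintype k] [CharP k 2], ∃ C : ℝ,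
    ∀ (τ n' j : ℕ) (D₁ D₂ h M₀ : k[X]) (κ : k[X] → ℝ), D₁.Monic → Squarefree D₁ → D₂.Monic →
    IsCoprime D₁ h → h ≠ 0 → M₀ ≠ 0 → h.natDegree ≤ τ → M₀.natDegree ≤ τ → D₂.natDegree ≤ τ →
    2 * D₁.natDegree ≤ 2001 * τ → 2000 * τ ≤ n' + D₁.natDegree + 2 * D₂.natDegree →
    n' + D₁.natDegree + 2 * D₂.natDegree ≤ 2001 * τ → 1 ≤ j →
    (∀ G, |κ G| ≤ 1) → (∀ G t, κ (G + M₀ * t) = κ G) →
    |avm n' fun G => mu G ^ j * mu (D₁ * D₂ ^ 2 * G + h) * κ G| ≤ C / qR k ^ (c * τ)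

/-- Lam: decomposition of a sum over primes. -/
def StLam : Prop :=
  ∀ (k : Type) [Field k] [Fintype k] [CharP k 2] (n : ℕ) (φ : k[X] → ℝ), 1 ≤ n →
    (∀ F, |φ F| ≤ 1) →
    |n * ∑ P ∈ PrD k n, φ P - ∑ D₁ ∈ Mo k n, ∑ D₂ ∈ Mo k n,
      ∑ G ∈ (Mo k n).filter (fun G => D₁.natDegree + 2 * D₂.natDegree + G.natDegree = n),
        coef n D₁ D₂ G * φ (D₁ * D₂ ^ 2 * G)| ≤ 2 * n * √(qR k) ^ n

/-- Om: the number of prime factors is small. -/
def StOm : Prop :=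
  ∀ (k : Type) [Field k] [Fintype k] (θ : ℝ), 1 < θ → ∃ C : ℝ, ∀ M : k[X], M ≠ 0 →
    (4 : ℝ) ^ (pf M).card ≤ C * θ ^ M.natDegree

/-- The main theorem. -/
def StMain : Prop :=
  ∃ c : ℝ, 0 < c ∧ ∀ (k : Type) [Field k] [Fintype k] [CharP k 2], ∃ C : ℝ,
    ∀ (n : ℕ) (h E a : k[X]), h ≠ 0 → E ≠ 0 → (h.natDegree : ℝ) ≤ c * n →
      (E.natDegree : ℝ) ≤ c * n →
      |∑ᶠ P ∈ {P : k[X] | P.Monic ∧ Irreducible P ∧ P.natDegree = n ∧ E ∣ P - a},
        ((UniqueFactorizationMonoid.moebius (P + h) : ℤ) : ℝ)| ≤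
        C * (Fintype.card k : ℝ) ^ ((1 - c) * n)

end Pool.Agent.Lib.MP_9227d9_nt.Mob
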