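import Pool.Agent.Lib.MP_9227d9_nt.MobPr

/-!
Even and odd parts of polynomials in characteristic two.
-/

namespace Pool.Agent.Lib.MP_9227d9_nt.Mob

open Polynomial

open scoped Classical

variable {k : Type} [Field k] [Fintype k] [CharP k 2] {p F G : k[X]}

namespace Od

theorem rt_sq (x : k) : (frobeniusEquiv k 2).symm x ^ 2 = x :=
  frobenius_apply_frobeniusEquiv_symm k 2 x

theorem rt_of_sq (x : k) : (frobeniusEquiv k 2).symm (x ^ 2) = x :=
  frobeniusEquiv_symm_apply_frobenius k 2 x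

theorem coeff_ev (F : k[X]) (n : ℕ) :
    (ev F).coeff n = (frobeniusEquiv k 2).symm (F.coeff (2 * n)) := by
  rw [ev, coeff_map, coeff_contract two_ne_zero, mul_comm]
  rfl

theorem coeff_od (F : k[X]) (n : ℕ) :
    (od F).coeff n = (frobeniusEquiv k 2).symm (F.coeff (2 * n + 1)) := by
  rw [od, coeff_ev, coeff_divX]

omit [Fintype k] in
theorem coeff_sq_even (a : k[X]) (n : ℕ) : (a ^ 2).coeff (2 * n) = a.coeff n ^ 2 := by
  rw [← map_frobenius_expand 2 a, coeff_map, coeff_expand_mul' two_pos, frobenius_def]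

omit [Fintype k] in
theorem coeff_sq_odd (a : k[X]) (n : ℕ) : (a ^ 2).coeff (2 * n + 1) = 0 := by
  rw [← map_frobenius_expand 2 a, coeff_map, coeff_expand two_pos, if_neg (by omega), map_zero]

omit [Fintype k] in
theorem coeff_even (a b : k[X]) (n : ℕ) : (a ^ 2 + X * b ^ 2).coeff (2 * n) = a.coeff n ^ 2 := by
  rw [coeff_add, coeff_sq_even]
  cases n with
  | zero => simp
  | succ n => rw [show 2 * (n + 1) = 2 * n + 1 + 1 by ring, coeff_X_mul, coeff_sq_odd, add_zero]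

omit [Fintype k] in
theorem coeff_odd (a b : k[X]) (n : ℕ) :
    (a ^ 2 + X * b ^ 2).coeff (2 * n + 1) = b.coeff n ^ 2 := by
  rw [coeff_add, coeff_sq_odd, coeff_X_mul, coeff_sq_even, zero_add]

omit [Fintype k] in
theorem two_eq : (2 : k[X]) = 0 := CharTwo.two_eq_zero

omit [Fintype k] [CharP k 2] in
theorem sgR_congr {p M M' n n' : k[X]} (h1 : p ∣ M - M') (h2 : p ∣ n - n') :
    sgR p M n = sgR p M' n' := by
  unfold sgR
  refine if_congr (exists_congr fun z => ?_) rfl rfl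
  have h : p ∣ (M * (z ^ 2 + z) + n) - (M' * (z ^ 2 + z) + n') := by
    have := dvd_add (h1.mul_right (z ^ 2 + z)) h2
    convert this using 1
    ring
  exact dvd_iff_dvd_of_dvd_sub h

end Od

open Od

theorem ev_od (F : k[X]) : F = ev F ^ 2 + X * od F ^ 2 := by
  ext n
  obtain ⟨m, rfl | rfl⟩ := Nat.even_or_odd' n
  · rw [coeff_even, coeff_ev, rt_sq]
  · rw [coeff_odd, coeff_od, rt_sq]

theorem ev_eq (a b : k[X]) : ev (a ^ 2 + X * b ^ 2) = a := by
  ext n
  rw [coeff_ev, coeff_even, rt_of_sq]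

theorem od_eq (a b : k[X]) : od (a ^ 2 + X * b ^ 2) = b := by
  ext n
  rw [coeff_od, coeff_odd, rt_of_sq]

theorem ev_add (F G : k[X]) : ev (F + G) = ev F + ev G := by
  ext n
  simp only [coeff_ev, coeff_add, map_add]

theorem od_add (F G : k[X]) : od (F + G) = od F + od G := by
  ext n
  simp only [coeff_od, coeff_add, map_add]

theorem od_sub (F G : k[X]) : od (F - G) = od F - od G := by
  ext n
  simp only [coeff_od, coeff_sub, map_sub]

theorem ev_zero : ev (0 : k[X]) = 0 := by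
  ext n
  simp only [coeff_ev, coeff_zero, map_zero]

theorem od_zero : od (0 : k[X]) = 0 := by
  ext n
  simp only [coeff_od, coeff_zero, map_zero]

theorem Od.mul_sq (F s : k[X]) : F * s ^ 2 = (s * ev F) ^ 2 + X * (s * od F) ^ 2 := by
  conv_lhs => rw [ev_od F]
  ring

theorem ev_mul_sq (F s : k[X]) : ev (F * s ^ 2) = s * ev F := by
  rw [Od.mul_sq, ev_eq]

theorem od_mul_sq (F s : k[X]) : od (F * s ^ 2) = s * od F := by
  rw [Od.mul_sq, od_eq]

theorem ev_sq (s : k[X]) : ev (s ^ 2) = s := by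
  simpa using ev_eq s 0

theorem od_sq (s : k[X]) : od (s ^ 2) = 0 := by
  simpa using od_eq s 0

theorem Od.X_mul (F : k[X]) : X * F = (X * od F) ^ 2 + X * ev F ^ 2 := by
  conv_lhs => rw [ev_od F]
  ring

theorem od_X_mul (F : k[X]) : od (X * F) = ev F := by
  rw [Od.X_mul, od_eq]

theorem ev_X_mul (F : k[X]) : ev (X * F) = X * od F := by
  rw [Od.X_mul, ev_eq]

theorem od_pow_two (F : k[X]) : od F ^ 2 = derivative F := by
  conv_rhs => rw [ev_od F]
  simp only [sq, derivative_add, derivative_mul, derivative_X]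
  linear_combination (-(derivative (ev F) * ev F) - X * derivative (od F) * od F) * (two_eq (k := k))

theorem Od.mul_eq (F G : k[X]) : F * G = (ev F * ev G + X * (od F * od G)) ^ 2
    + X * (ev F * od G + od F * ev G) ^ 2 := by
  conv_lhs => rw [ev_od F, ev_od G]
  linear_combination (-2 * X * ev F * ev G * od F * od G) * (two_eq (k := k))

theorem od_mul (F G : k[X]) : od (F * G) = ev F * od G + od F * ev G := by
  rw [Od.mul_eq, od_eq]

theorem ev_mul (F G : k[X]) : ev (F * G) = ev F * ev G + X * (od F * od G) := by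
  rw [Od.mul_eq, ev_eq]

theorem exists_od_ne_zero (hF : F ≠ 0) : ∃ e : ℕ, e ≤ 1 ∧ od (F * X ^ e) ≠ 0 := by
  by_contra h
  push Not at h
  have h0 := h 0 zero_le_one
  have h1 := h 1 le_rfl
  rw [pow_zero, mul_one] at h0
  rw [pow_one, mul_comm, od_X_mul] at h1
  apply hF
  rw [ev_od F, h0, h1]
  simp

theorem degree_od_lt {n : ℕ} (h : F.degree < (2 * n + 1 : ℕ)) : (od F).degree < n := by
  rw [degree_lt_iff_coeff_zero] at h ⊢
  intro m hm
  rw [coeff_od, h _ (by omega), map_zero]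

theorem degree_ev_lt {n : ℕ} (h : F.degree < (2 * n : ℕ)) : (ev F).degree < n := by
  rw [degree_lt_iff_coeff_zero] at h ⊢
  intro m hm
  rw [coeff_ev, h _ (by omega), map_zero]

theorem natDegree_od_le (F : k[X]) : 2 * (od F).natDegree ≤ F.natDegree := by
  by_cases h : od F = 0
  · simp [h]
  · have h1 : (od F).coeff (od F).natDegree ≠ 0 := leadingCoeff_ne_zero.2 h
    rw [coeff_od] at h1
    have := le_natDegree_of_ne_zero (p := F) (n := 2 * (od F).natDegree + 1)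
      fun h2 => h1 (by rw [h2, map_zero])
    omega

theorem natDegree_ev_le (F : k[X]) : 2 * (ev F).natDegree ≤ F.natDegree := by
  by_cases h : ev F = 0
  · simp [h]
  · have h1 : (ev F).coeff (ev F).natDegree ≠ 0 := leadingCoeff_ne_zero.2 h
    rw [coeff_ev] at h1
    exact le_natDegree_of_ne_zero fun h2 => h1 (by rw [h2, map_zero])

theorem MD.od {d : ℕ} (h : MD (2 * d + 1) F) : MD d (od F) := by
  have h1 : (Mob.od F).natDegree ≤ d := by
    have := natDegree_od_le F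
    rw [h.2] at this
    omega
  have h2 : (Mob.od F).coeff d = 1 := by
    rw [coeff_od, ← h.2, h.1.coeff_natDegree, map_one]
  exact ⟨monic_of_natDegree_le_of_coeff_eq_one d h1 h2,
    natDegree_eq_of_le_of_coeff_ne_zero h1 (h2 ▸ one_ne_zero)⟩

theorem Od.sq_dvd {g : k[X]} (h1 : g ∣ ev F) (h2 : g ∣ od F) : g ^ 2 ∣ F := by
  rw [ev_od F]
  exact dvd_add (pow_dvd_pow_of_dvd h1 2) ((pow_dvd_pow_of_dvd h2 2).mul_left _)

theorem Od.dvd_ev_sq {g : k[X]} (h1 : g ∣ F) (h2 : g ∣ od F) : g ∣ ev F ^ 2 := by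
  have h : ev F ^ 2 = F - X * od F ^ 2 := eq_sub_of_add_eq (ev_od F).symm
  rw [h]
  exact dvd_sub h1 ((dvd_pow h2 two_ne_zero).mul_left _)

theorem sq_dvd_of_dvd_od (hp : IsP p) (h1 : p ∣ F) (h2 : p ∣ od F) : p ^ 2 ∣ F :=
  Od.sq_dvd (hp.2.prime.dvd_of_dvd_pow (Od.dvd_ev_sq h1 h2)) h2

theorem dvd_od_of_sq_dvd {g : k[X]} (h : g ^ 2 ∣ F) : g ∣ od F := by
  obtain ⟨c, rfl⟩ := h
  rw [mul_comm, od_mul_sq]
  exact dvd_mul_right _ _

theorem dvd_ev_of_sq_dvd {g : k[X]} (h : g ^ 2 ∣ F) : g ∣ ev F := by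
  obtain ⟨c, rfl⟩ := h
  rw [mul_comm, ev_mul_sq]
  exact dvd_mul_right _ _

theorem exists_not_dvd_od (hp : IsP p) (h : ¬ p ^ 2 ∣ F) :
    ∃ e : ℕ, e ≤ 1 ∧ ¬ p ∣ od (F * X ^ e) := by
  have _ := hp
  by_contra h'
  push Not at h'
  have h0 := h' 0 zero_le_one
  have h1 := h' 1 le_rfl
  rw [pow_zero, mul_one] at h0
  rw [pow_one, mul_comm, od_X_mul] at h1
  exact h (Od.sq_dvd h1 h0)

theorem squarefree_of_isCoprime_od {Y : k[X]} (h : IsCoprime Y (od (G * Y))) :
    Squarefree Y ∧ IsCoprime G Y := by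
  have key : ∀ g : k[X], g ∣ Y → g ^ 2 ∣ G * Y → IsUnit g := fun g h1 h2 =>
    h.isUnit_of_dvd' h1 (dvd_od_of_sq_dvd h2)
  refine ⟨fun g hg => key g ((dvd_mul_right g g).trans hg) ?_, ?_⟩
  · rw [sq]
    exact hg.mul_left _
  · refine isRelPrime_iff_isCoprime.1 fun g h1 h2 => key g h2 ?_
    rw [sq]
    exact mul_dvd_mul h1 h2

theorem mu_eq_of_isCoprime_od {Y : k[X]} (h : IsCoprime Y (od (G * Y))) :
    mu G = mu Y * mu (G * Y) := by
  obtain ⟨h1, h2⟩ := squarefree_of_isCoprime_od h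
  have h3 := mu_sq Y
  rw [if_pos h1] at h3
  rw [mu_mul h2]
  linear_combination (-mu G) * h3

theorem Od.dvd_aux {D Y : k[X]} (hD : Squarefree D) (h : D ∣ od (D * Y)) : D ∣ Y := by
  have h1 : D ∣ ev (D * Y) :=
    (hD.dvd_pow_iff_dvd two_ne_zero).1 (Od.dvd_ev_sq (dvd_mul_right _ _) h)
  have h2 := Od.sq_dvd h1 h
  rw [sq] at h2
  exact (mul_dvd_mul_iff_left hD.ne_zero).1 h2

theorem dvd_of_od_eq_zero {Y : k[X]} (hG : Squarefree G) (h : od (G * Y) = 0) : G ∣ Y :=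
  Od.dvd_aux hG (h ▸ dvd_zero _)

theorem dvd_of_dvd_od {D Y : k[X]} (hD : Squarefree D) (h : D ∣ od (D * Y)) : D ∣ Y :=
  Od.dvd_aux hD h

omit [CharP k 2] in
theorem abs_chi_le (p b a : k[X]) : |chi p b a| ≤ 1 := by
  unfold chi sgR
  split_ifs <;> simp

theorem chi_periodic (p b a t : k[X]) : chi p b (a + p ^ 2 * t) = chi p b a := by
  have h1 : p ∣ a + p ^ 2 * t - a := ⟨p * t, by ring⟩
  have h2 : p ∣ derivative (a + p ^ 2 * t) - derivative a :=
    ⟨2 * derivative p * t + p * derivative t, by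
      simp only [sq, derivative_add, derivative_mul]; ring⟩
  unfold chi
  refine if_congr (dvd_iff_dvd_of_dvd_sub h1) rfl (sgR_congr ?_ ?_)
  · rw [← sub_mul]
    exact (h1.trans (sub_dvd_pow_sub_pow _ _ 2)).mul_right _
  · refine Dvd.dvd.trans ?_ (sub_dvd_pow_sub_pow _ _ 3)
    rw [add_sub_add_right_eq_sub]
    exact h2.trans (sub_dvd_pow_sub_pow _ _ 2)

theorem stDg : StDg := by
  intro k _ _ _ c u G
  have e1 : ∀ G, c.l₂ u G = c.D₁ * c.D₂ * c.l₁ u G + c.cu u := fun G => by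
    have : c.Xs G * c.D₁ * u = G * u * (c.D₁ * c.D₂) ^ 2 + c.h * c.D₁ * u := by
      rw [Ctx.Xs]; ring
    rw [Ctx.l₂, this, od_add, od_mul_sq, Ctx.l₁, Ctx.cu]
  have e2 : ∀ σ, c.l₁ u (G + u * σ ^ 2) = c.l₁ u G := fun σ => by
    have : (G + u * σ ^ 2) * u = G * u + (u * σ) ^ 2 := by ring
    rw [Ctx.l₁, this, od_add, od_sq, add_zero, Ctx.l₁]
  refine ⟨e1 G, e2, fun σ => by rw [e1, e2, e1], fun hu => ?_⟩
  have d1 := c.d₁_eq
  have d2 := c.d₂_eq
  have t1 := c.τ_pos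
  have t2 := c.L_ge
  have t3 := c.h_deg
  have h1 : (c.cu u).degree < c.d₂ := by
    refine degree_od_lt (degree_le_natDegree.trans_lt (Nat.cast_lt.2 ?_))
    have a1 := natDegree_mul_le (p := c.h * c.D₁) (q := u)
    have a2 := natDegree_mul_le (p := c.h) (q := c.D₁)
    rw [hu.2] at a1
    omega
  have h2 : ∀ l, MD c.d₁ l → MD c.d₂ (c.D₁ * c.D₂ * l + c.cu u) := fun l hl => by
    refine MD.add ?_ h1
    have := MD.mul (MD.mul (⟨c.D₁_monic, rfl⟩ : MD _ c.D₁) (⟨c.D₂_monic, rfl⟩ : MD _ c.D₂)) hl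
    rwa [show c.D₁.natDegree + c.D₂.natDegree + c.d₁ = c.d₂ by omega] at this
  refine ⟨h1, h2, fun hG => ?_⟩
  have h3 : MD c.d₁ (c.l₁ u G) := by
    refine MD.od ?_
    have := MD.mul hG hu
    rwa [show c.n' + c.nu = 2 * c.d₁ + 1 by rw [Ctx.n']; omega] at this
  exact ⟨h3, by rw [e1]; exact h2 _ h3⟩

end Pool.Agent.Lib.MP_9227d9_nt.Mob
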