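import Pool.Agent.Lib.MP_9227d9_nt.MobAvg

/-!
Primes, the Moebius function, weights and models.
-/

namespace Pool.Agent.Lib.MP_9227d9_nt.Mob

open Polynomial

open scoped Classical

variable {k : Type} [Field k] [Fintype k] {p M F G : k[X]} {S : Finset k[X]}

namespace Pr

omit [Fintype k] in
theorem exists_isP_associated {z : k[X]} (hz : Irreducible z) : ∃ p, IsP p ∧ Associated p z :=
  ⟨normalize z, ⟨monic_normalize hz.ne_zero, (normalize_associated z).symm.irreducible hz⟩,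
    normalize_associated z⟩

omit [Fintype k] in
theorem dvd_of_sq_dvd {g g' u : k[X]} (hg' : g' ≠ 0) (hu : Squarefree u)
    (h : g ^ 2 ∣ g' ^ 2 * u) : g ∣ g' := by
  obtain ⟨a, b, ha, hb, hab⟩ := extract_gcd g g'
  set d := gcd g g' with hd
  have hd0 : d ≠ 0 := by
    intro h0
    rw [h0, zero_mul] at hb
    exact hg' hb
  have hc : IsCoprime a b := (gcd_isUnit_iff a b).1 hab
  have h1 : d ^ 2 * a ^ 2 ∣ d ^ 2 * (b ^ 2 * u) := by
    have e1 : d ^ 2 * a ^ 2 = g ^ 2 := by rw [← mul_pow, ← ha]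
    have e2 : d ^ 2 * (b ^ 2 * u) = g' ^ 2 * u := by rw [← mul_assoc, ← mul_pow, ← hb]
    rw [e1, e2]
    exact h
  have h2 : a ^ 2 ∣ b ^ 2 * u := (mul_dvd_mul_iff_left (pow_ne_zero 2 hd0)).1 h1
  have h3 : a ^ 2 ∣ u := (IsCoprime.pow hc).dvd_of_dvd_mul_left h2
  have h4 : IsUnit a := hu a (by rwa [← pow_two])
  rw [ha, hb]
  exact mul_dvd_mul_left d h4.dvd

theorem avg_dvd_self (h : IsP p) :
    avg p.natDegree (fun l => if p ∣ l then (1 : ℝ) else 0) = 1 / Nm p := by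
  have := avg_dvd (n := p.natDegree) (β := 1) h.1.ne_zero le_rfl isCoprime_one_left 0
  simpa using this

end Pr

theorem mem_PrD {m : ℕ} : p ∈ PrD k m ↔ IsP p ∧ p.natDegree = m := by
  unfold PrD
  rw [Finset.mem_filter, mem_Pn]
  refine ⟨fun h => h.2, fun h => ⟨?_, h⟩⟩
  refine lt_of_le_of_lt degree_le_natDegree ?_
  rw [h.2]
  exact_mod_cast Nat.lt_succ_self m

theorem mem_PrL {s : ℕ} : p ∈ PrL k s ↔ IsP p ∧ p.natDegree < s := by
  unfold PrL
  rw [Finset.mem_filter, mem_Pn]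
  constructor
  · rintro ⟨h1, h2⟩
    exact ⟨h2, (natDegree_lt_iff_degree_lt h2.1.ne_zero).2 h1⟩
  · rintro ⟨h1, h2⟩
    exact ⟨(natDegree_lt_iff_degree_lt h1.1.ne_zero).1 h2, h1⟩

theorem mem_pf (hM : M ≠ 0) : p ∈ pf M ↔ IsP p ∧ p ∣ M := by
  unfold pf
  rw [Finset.mem_filter, mem_Pn]
  refine ⟨fun h => h.2, fun h => ⟨?_, h⟩⟩
  refine lt_of_le_of_lt degree_le_natDegree ?_
  exact_mod_cast Nat.lt_succ_of_le (natDegree_le_of_dvd h.2 hM)

theorem isP_of_mem_pf (h : p ∈ pf M) : IsP p := (Finset.mem_filter.1 h).2.1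

theorem mem_SS {z s : ℕ} :
    S ∈ SS k z s ↔ (∀ p ∈ S, IsP p ∧ p.natDegree < s) ∧ ∑ p ∈ S, p.natDegree ≤ z := by
  unfold SS
  rw [Finset.mem_filter, Finset.mem_powerset]
  refine and_congr_left fun _ => ⟨fun h p hp => mem_PrL.1 (h hp), fun h p hp => mem_PrL.2 (h p hp)⟩

omit [Fintype k] in
theorem IsP.prime (h : IsP p) : Prime p := h.2.prime

omit [Fintype k] in
theorem IsP.natDegree_pos (h : IsP p) : 0 < p.natDegree := h.2.natDegree_pos

theorem IsP.two_le_Nm (h : IsP p) : 2 ≤ Nm p :=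
  le_trans two_le_qR (le_self_pow₀ one_le_qR h.natDegree_pos.ne')

theorem Nm_pos (p : k[X]) : 0 < Nm p := pow_pos qR_pos _

omit [Fintype k] in
theorem IsP.eq_of_dvd {p' : k[X]} (h : IsP p) (h' : IsP p') (hd : p ∣ p') : p = p' :=
  eq_of_monic_of_associated h.1 h'.1 (h.2.associated_of_dvd h'.2 hd)

omit [Fintype k] in
theorem IsP.isCoprime {p' : k[X]} (h : IsP p) (h' : IsP p') (hne : p ≠ p') : IsCoprime p p' :=
  h.2.coprime_iff_not_dvd.2 fun hd => hne (h.eq_of_dvd h' hd)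

omit [Fintype k] in
theorem IsP.isCoprime_iff (h : IsP p) : IsCoprime F p ↔ ¬ p ∣ F :=
  isCoprime_comm.trans h.2.coprime_iff_not_dvd

omit [Fintype k] in
theorem IsP.not_dvd_of_lt (h : IsP p) (hF : F ≠ 0) (hd : F.natDegree < p.natDegree) : ¬ p ∣ F :=
  fun h' => by
    have _ := h
    exact absurd (natDegree_le_of_dvd h' hF) (not_le.2 hd)

omit [Fintype k] in
theorem exists_isP_of_not_isCoprime (hF : F ≠ 0) (h : ¬ IsCoprime F G) :
    ∃ p, IsP p ∧ p ∣ F ∧ p ∣ G := by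
  by_contra hc
  refine h (isCoprime_of_irreducible_dvd (fun h0 => hF h0.1) fun z hz h1 h2 => hc ?_)
  obtain ⟨p, hp, ha⟩ := Pr.exists_isP_associated hz
  exact ⟨p, hp, ha.dvd.trans h1, ha.dvd.trans h2⟩

omit [Fintype k] in
theorem exists_isP_of_not_squarefree (hF : F ≠ 0) (h : ¬ Squarefree F) :
    ∃ p, IsP p ∧ p ^ 2 ∣ F := by
  by_contra hc
  refine h ((squarefree_iff_irreducible_sq_not_dvd_of_ne_zero hF).2 fun z hz h1 => hc ?_)
  obtain ⟨p, hp, ha⟩ := Pr.exists_isP_associated hz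
  refine ⟨p, hp, dvd_trans ?_ h1⟩
  rw [pow_two]
  exact mul_dvd_mul ha.dvd ha.dvd

theorem isCoprime_iff_pf (hM : M ≠ 0) : IsCoprime F M ↔ ∀ p ∈ pf M, ¬ p ∣ F := by
  constructor
  · intro h p hp hd
    have hp' := (mem_pf hM).1 hp
    exact hp'.1.2.not_isUnit (h.isUnit_of_dvd' hd hp'.2)
  · intro h
    by_contra hc
    obtain ⟨p, hp, h1, h2⟩ := exists_isP_of_not_isCoprime hM (fun h' => hc h'.symm)
    exact h p ((mem_pf hM).2 ⟨hp, h1⟩) h2

theorem isCoprime_derivative (h : Squarefree F) : IsCoprime F (derivative F) :=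
  (PerfectField.separable_iff_squarefree.2 h : F.Separable)

omit [Fintype k] in
theorem monic_prod (h : ∀ p ∈ S, IsP p) : (∏ p ∈ S, p).Monic :=
  monic_prod_of_monic _ _ fun p hp => (h p hp).1

omit [Fintype k] in
theorem natDegree_prod_isP (h : ∀ p ∈ S, IsP p) :
    (∏ p ∈ S, p).natDegree = ∑ p ∈ S, p.natDegree :=
  natDegree_prod_of_monic S (fun p => p) fun p hp => (h p hp).1

theorem Nm_prod (h : ∀ p ∈ S, IsP p) : Nm (∏ p ∈ S, p) = ∏ p ∈ S, Nm p := by
  unfold Nm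
  rw [natDegree_prod_isP h, Finset.prod_pow_eq_pow_sum]

theorem prod_Nm (S : Finset k[X]) : ∏ p ∈ S, Nm p = qR k ^ ∑ p ∈ S, p.natDegree := by
  unfold Nm
  rw [Finset.prod_pow_eq_pow_sum]

omit [Fintype k] in
theorem squarefree_prod (h : ∀ p ∈ S, IsP p) : Squarefree (∏ p ∈ S, p) :=
  Finset.squarefree_prod_of_pairwise_isCoprime
    (fun p hp p' hp' hne => ((h p hp).isCoprime (h p' hp') hne).isRelPrime)
    fun p hp => (h p hp).2.squarefree

omit [Fintype k] in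
theorem prod_dvd_iff (h : ∀ p ∈ S, IsP p) : ∏ p ∈ S, p ∣ M ↔ ∀ p ∈ S, p ∣ M :=
  ⟨fun hd _ hp => (Finset.dvd_prod_of_mem _ hp).trans hd, fun hd =>
    Finset.prod_dvd_of_coprime (fun p hp p' hp' hne => (h p hp).isCoprime (h p' hp') hne) hd⟩

omit [Fintype k] in
theorem dvd_prod_iff_mem (h : ∀ p ∈ S, IsP p) (hp : IsP p) : p ∣ ∏ p ∈ S, p ↔ p ∈ S := by
  rw [hp.prime.dvd_finsetProd_iff]
  constructor
  · rintro ⟨a, ha, hd⟩
    rw [hp.eq_of_dvd (h a ha) hd]
    exact ha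
  · intro hm
    exact ⟨p, hm, dvd_rfl⟩

theorem pf_prod (h : ∀ p ∈ S, IsP p) : pf (∏ p ∈ S, p) = S := by
  ext p
  rw [mem_pf (monic_prod h).ne_zero]
  exact ⟨fun hp => (dvd_prod_iff_mem h hp.1).1 hp.2,
    fun hp => ⟨h p hp, (dvd_prod_iff_mem h (h p hp)).2 hp⟩⟩

theorem prod_pf (hm : F.Monic) (h : Squarefree F) : ∏ p ∈ pf F, p = F := by
  have hP : ∀ p ∈ pf F, IsP p := fun p hp => isP_of_mem_pf hp
  obtain ⟨c, hc⟩ : ∏ p ∈ pf F, p ∣ F :=
    (prod_dvd_iff hP).2 fun p hp => ((mem_pf hm.ne_zero).1 hp).2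
  have hu : IsUnit c := by
    by_contra hu
    have hc0 : c ≠ 0 := by
      rintro rfl
      exact hm.ne_zero (by rw [hc, mul_zero])
    obtain ⟨z, hz, hzc⟩ := WfDvdMonoid.exists_irreducible_factor hu hc0
    obtain ⟨p, hp, ha⟩ := Pr.exists_isP_associated hz
    have hpc : p ∣ c := ha.dvd.trans hzc
    have hpF : p ∣ F := hc ▸ hpc.mul_left _
    have hmem : p ∈ pf F := (mem_pf hm.ne_zero).2 ⟨hp, hpF⟩
    refine hp.2.not_isUnit (h p ?_)
    rw [hc]
    exact mul_dvd_mul (Finset.dvd_prod_of_mem _ hmem) hpc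
  refine eq_of_monic_of_associated (monic_prod hP) hm ?_
  conv_rhs => rw [hc]
  exact (associated_mul_unit_right _ _ hu)

theorem sum_natDegree_pf_le (hM : M ≠ 0) : ∑ p ∈ pf M, p.natDegree ≤ M.natDegree := by
  have hP : ∀ p ∈ pf M, IsP p := fun p hp => isP_of_mem_pf hp
  rw [← natDegree_prod_isP hP]
  exact natDegree_le_of_dvd ((prod_dvd_iff hP).2 fun p hp => ((mem_pf hM).1 hp).2) hM

theorem card_pf_le (hM : M ≠ 0) : (pf M).card ≤ M.natDegree := by
  refine le_trans ?_ (sum_natDegree_pf_le hM)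
  rw [Finset.card_eq_sum_ones]
  exact Finset.sum_le_sum fun p hp => (isP_of_mem_pf hp).natDegree_pos

omit [Fintype k] in
theorem exists_sq_mul (hm : F.Monic) :
    ∃ g u : k[X], g.Monic ∧ u.Monic ∧ Squarefree u ∧ F = g ^ 2 * u := by
  induction hn : F.natDegree using Nat.strong_induction_on generalizing F with
  | _ n ih =>
    by_cases hs : Squarefree F
    · exact ⟨1, F, monic_one, hm, hs, by simp⟩
    · obtain ⟨p, hp, c, hc⟩ := exists_isP_of_not_squarefree hm.ne_zero hs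
      have hcm : c.Monic := by
        have h1 : (p ^ 2 * c).Monic := hc ▸ hm
        exact (hp.1.pow 2).of_mul_monic_left h1
      have hd : c.natDegree < n := by
        have h1 := hp.natDegree_pos
        rw [← hn, hc, (hp.1.pow 2).natDegree_mul hcm, hp.1.natDegree_pow]
        omega
      obtain ⟨g, u, hg, hu, hsq, he⟩ := ih _ hd hcm rfl
      exact ⟨p * g, u, hp.1.mul hg, hu, hsq, by rw [hc, he]; ring⟩

omit [Fintype k] in
theorem sq_mul_unique {g u g' u' : k[X]} (hg : g.Monic) (hu : u.Monic) (hs : Squarefree u)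
    (hg' : g'.Monic) (hu' : u'.Monic) (hs' : Squarefree u') (h : g ^ 2 * u = g' ^ 2 * u') :
    g = g' ∧ u = u' := by
  have h1 : g ∣ g' := Pr.dvd_of_sq_dvd hg'.ne_zero hs' ⟨u, h.symm⟩
  have h2 : g' ∣ g := Pr.dvd_of_sq_dvd hg.ne_zero hs ⟨u', h⟩
  have h3 : g = g' := eq_of_monic_of_associated hg hg' (associated_of_dvd_dvd h1 h2)
  subst h3
  have _ := hu
  have _ := hu'
  exact ⟨rfl, mul_left_cancel₀ (pow_ne_zero 2 hg.ne_zero) h⟩

omit [Fintype k] in
theorem abs_mu_le (F : k[X]) : |mu F| ≤ 1 := by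
  unfold mu UniqueFactorizationMonoid.moebius
  split_ifs <;> simp

omit [Fintype k] in
theorem mu_ne_zero_iff : mu F ≠ 0 ↔ Squarefree F := by
  unfold mu UniqueFactorizationMonoid.moebius
  split_ifs with h <;> simp [h]

omit [Fintype k] in
theorem mu_sq (F : k[X]) : mu F ^ 2 = if Squarefree F then 1 else 0 := by
  unfold mu UniqueFactorizationMonoid.moebius
  split_ifs with h
  · push_cast
    rw [← pow_mul, mul_comm, pow_mul]
    simp
  · simp

omit [Fintype k] in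
theorem mu_mul (h : IsCoprime F G) : mu (F * G) = mu F * mu G := by
  unfold mu
  rw [h.isRelPrime.moebius_mul]
  push_cast
  rfl

omit [Fintype k] in
theorem mu_prod (h : ∀ p ∈ S, IsP p) : mu (∏ p ∈ S, p) = (-1) ^ S.card := by
  induction S using Finset.induction_on with
  | empty => simp [mu]
  | insert a S ha ih =>
    have hS : ∀ p ∈ S, IsP p := fun p hp => h p (Finset.mem_insert_of_mem hp)
    have hP : IsP a := h a (Finset.mem_insert_self _ _)
    have hc : IsCoprime a (∏ p ∈ S, p) :=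
      (hP.isCoprime_iff.2 fun hd => ha ((dvd_prod_iff_mem hS hP).1 hd)).symm
    rw [Finset.prod_insert ha, mu_mul hc, ih hS, Finset.card_insert_of_notMem ha, pow_succ]
    have : mu a = -1 := by
      unfold mu
      rw [hP.2.moebius_eq]
      simp
    rw [this]
    ring

theorem sum_mu_dvd {n : ℕ} (hF : F ≠ 0) (hn : F.natDegree ≤ n) (f : k[X] → ℝ) :
    ∑ g ∈ (Mo k n).filter (fun g => g ∣ F), mu g * f g =
      ∑ S ∈ (pf F).powerset, (-1) ^ S.card * f (∏ p ∈ S, p) := by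
  have h1 : ∑ g ∈ (Mo k n).filter (fun g => g ∣ F), mu g * f g =
      ∑ g ∈ ((Mo k n).filter (fun g => g ∣ F)).filter (fun g => Squarefree g), mu g * f g := by
    rw [Finset.sum_filter (fun g => Squarefree g)]
    refine Finset.sum_congr rfl fun g _ => ?_
    split_ifs with hs
    · rfl
    · have : mu g = 0 := by
        by_contra h0
        exact hs (mu_ne_zero_iff.1 h0)
      rw [this, zero_mul]
  rw [h1]
  have hP : ∀ S ∈ (pf F).powerset, ∀ p ∈ S, IsP p := fun S hS p hp =>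
    isP_of_mem_pf (Finset.mem_powerset.1 hS hp)
  refine Finset.sum_nbij' (fun g => pf g) (fun S => ∏ p ∈ S, p) ?_ ?_ ?_ ?_ ?_
  · intro g hg
    simp only [Finset.mem_filter, mem_Mo] at hg
    refine Finset.mem_powerset.2 fun p hp => ?_
    have := (mem_pf hg.1.1.1.ne_zero).1 hp
    exact (mem_pf hF).2 ⟨this.1, this.2.trans hg.1.2⟩
  · intro S hS
    have hd : ∏ p ∈ S, p ∣ F :=
      (prod_dvd_iff (hP S hS)).2 fun p hp => ((mem_pf hF).1 (Finset.mem_powerset.1 hS hp)).2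
    simp only [Finset.mem_filter, mem_Mo]
    exact ⟨⟨⟨monic_prod (hP S hS), (natDegree_le_of_dvd hd hF).trans hn⟩, hd⟩,
      squarefree_prod (hP S hS)⟩
  · intro g hg
    simp only [Finset.mem_filter, mem_Mo] at hg
    exact prod_pf hg.1.1.1 hg.2
  · intro S hS
    exact pf_prod (hP S hS)
  · intro g hg
    simp only [Finset.mem_filter, mem_Mo] at hg
    have h2 := prod_pf hg.1.1.1 hg.2
    have h3 := mu_prod (S := pf g) fun p hp => isP_of_mem_pf hp
    rw [h2] at h3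
    simp only [h2, h3]

theorem sum_mu_sq_dvd {n : ℕ} (hF : F.Monic) (hn : F.natDegree ≤ n) :
    ∑ g ∈ (Mo k n).filter (fun g => g ^ 2 ∣ F), mu g = mu F ^ 2 := by
  obtain ⟨g₀, u, hg, hu, hs, he⟩ := exists_sq_mul hF
  have hd : g₀.natDegree ≤ n := by
    refine le_trans (natDegree_le_of_dvd ?_ hF.ne_zero) hn
    exact ⟨g₀ * u, by rw [he]; ring⟩
  have h1 : (Mo k n).filter (fun g => g ^ 2 ∣ F) = (Mo k n).filter (fun g => g ∣ g₀) := by
    refine Finset.filter_congr fun g _ => ⟨fun h => ?_, fun h => ?_⟩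
    · exact Pr.dvd_of_sq_dvd hg.ne_zero hs (he ▸ h)
    · rw [he]
      exact (pow_dvd_pow_of_dvd h 2).mul_right u
  have h2 := sum_mu_dvd hg.ne_zero hd (fun _ => 1)
  simp only [mul_one] at h2
  have h3 : ∑ S ∈ (pf g₀).powerset, (-1 : ℝ) ^ S.card = if pf g₀ = ∅ then 1 else 0 := by
    have := Finset.sum_powerset_neg_one_pow_card (x := pf g₀)
    have h4 : ((∑ S ∈ (pf g₀).powerset, (-1 : ℤ) ^ S.card : ℤ) : ℝ) =
        ((if pf g₀ = ∅ then 1 else 0 : ℤ) : ℝ) := by rw [this]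
    push_cast at h4
    exact h4
  rw [h1, h2, h3, mu_sq]
  refine if_congr ⟨fun h => ?_, fun h => ?_⟩ rfl rfl
  · by_contra hc
    obtain ⟨p, hp, hpd⟩ := exists_isP_of_not_squarefree hF.ne_zero hc
    have : p ∈ pf g₀ :=
      (mem_pf hg.ne_zero).2 ⟨hp, Pr.dvd_of_sq_dvd hg.ne_zero hs (he ▸ hpd)⟩
    rw [h] at this
    exact absurd this (Finset.notMem_empty p)
  · refine Finset.eq_empty_of_forall_notMem fun p hp => ?_
    have hp' := (mem_pf hg.ne_zero).1 hp
    refine hp'.1.2.not_isUnit (h p ?_)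
    rw [he, pow_two]
    exact (mul_dvd_mul hp'.2 hp'.2).mul_right u

theorem card_sqfree_dvd_le {n : ℕ} (hM : M ≠ 0) :
    ((Mo k n).filter fun g => Squarefree g ∧ g ∣ M).card ≤ 2 ^ (pf M).card := by
  rw [← Finset.card_powerset]
  refine Finset.card_le_card_of_injOn (fun g => pf g) ?_ ?_
  · intro g hg
    simp only [Finset.coe_filter, mem_Mo, Set.mem_ofPred_eq] at hg
    refine Finset.mem_coe.2 (Finset.mem_powerset.2 fun p hp => ?_)
    have := (mem_pf hg.1.1.ne_zero).1 hp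
    exact (mem_pf hM).2 ⟨this.1, this.2.trans hg.2.2⟩
  · intro g hg g' hg' he
    simp only [Finset.coe_filter, mem_Mo, Set.mem_ofPred_eq] at hg hg'
    rw [← prod_pf hg.1.1 hg.2.1, ← prod_pf hg'.1.1 hg'.2.1]
    simp only at he
    rw [he]

theorem Wt_nonneg {ι : Type} [Fintype ι] (I : ι → ℕ) (l : k[X]) : 0 ≤ Wt I l := by
  unfold Wt
  refine Finset.sum_nonneg fun p _ => ?_
  split_ifs
  · exact Finset.prod_nonneg fun i _ => Nat.cast_nonneg _
  · exact le_rfl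

theorem exists_of_Wt_ne_zero {ι : Type} [Fintype ι] {I : ι → ℕ} {l : k[X]} (h : Wt I l ≠ 0) :
    ∃ p : ι → k[X], (∀ i, IsP (p i) ∧ (p i).natDegree = I i) ∧ ∏ i, p i = l := by
  unfold Wt at h
  obtain ⟨p, hp, h0⟩ := Finset.exists_ne_zero_of_sum_ne_zero h
  refine ⟨p, fun i => mem_PrD.1 (Fintype.mem_piFinset.1 hp i), ?_⟩
  by_contra hc
  exact h0 (if_neg hc)

theorem natDegree_of_Wt_ne_zero {ι : Type} [Fintype ι] {I : ι → ℕ} {l : k[X]} (h : Wt I l ≠ 0)
    (hp : IsP p) (hd : p ∣ l) : ∃ i, p.natDegree = I i := by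
  obtain ⟨r, hr, he⟩ := exists_of_Wt_ne_zero h
  rw [← he, hp.prime.dvd_finsetProd_iff] at hd
  obtain ⟨i, _, hi⟩ := hd
  exact ⟨i, by rw [hp.eq_of_dvd (hr i).1 hi, (hr i).2]⟩

theorem one_div_Nm_sub_le (h : IsP p) : 0 < 1 / (Nm p - 1) ∧ 1 / (Nm p - 1) ≤ 2 / Nm p := by
  have h2 := h.two_le_Nm
  refine ⟨one_div_pos.2 (by linarith), ?_⟩
  rw [div_le_div_iff₀ (by linarith) (by linarith)]
  linarith

theorem abs_psi_le (h : IsP p) (l : k[X]) : |psi p l| ≤ 1 := by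
  have h2 := h.two_le_Nm
  unfold psi
  split_ifs
  · simp
  · rw [abs_of_pos (one_div_Nm_sub_le h).1, div_le_one (by linarith)]
    linarith

theorem psi_congr {l l' : k[X]} (h : p ∣ l - l') : psi p l = psi p l' := by
  unfold psi
  exact if_congr (dvd_iff_dvd_of_dvd_sub h) rfl rfl

theorem avg_psi (h : IsP p) : avg p.natDegree (psi p) = 0 := by
  have h2 := h.two_le_Nm
  have h1 : avg p.natDegree (psi p) = avg p.natDegree
      (fun l => 1 / (Nm p - 1) + (-1 - 1 / (Nm p - 1)) * if p ∣ l then 1 else 0) := by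
    refine avg_congr fun l _ => ?_
    unfold psi
    split_ifs <;> ring
  rw [h1, avg_add, avg_const, avg_mul_left, Pr.avg_dvd_self h]
  have h3 : Nm p - 1 ≠ 0 := by linarith
  have h4 : Nm p ≠ 0 := by linarith
  field_simp
  ring

theorem avg_psi_sq (h : IsP p) : avg p.natDegree (fun l => psi p l ^ 2) = 1 / (Nm p - 1) := by
  have h2 := h.two_le_Nm
  have h1 : avg p.natDegree (fun l => psi p l ^ 2) = avg p.natDegree
      (fun l => (1 / (Nm p - 1)) ^ 2 + (1 - (1 / (Nm p - 1)) ^ 2) * if p ∣ l then 1 else 0) := by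
    refine avg_congr fun l _ => ?_
    unfold psi
    split_ifs <;> ring
  rw [h1, avg_add, avg_const, avg_mul_left, Pr.avg_dvd_self h]
  have h3 : Nm p - 1 ≠ 0 := by linarith
  have h4 : Nm p ≠ 0 := by linarith
  field_simp
  ring

theorem abs_wm_le (z s : ℕ) (l : k[X]) : |wm z s l| ≤ wa z s l := Finset.abs_sum_le_sum_abs _ _

theorem one_le_cM (M : k[X]) : 1 ≤ cM M := by
  unfold cM
  refine Finset.one_le_prod fun p hp => ?_
  have h2 := (isP_of_mem_pf hp).two_le_Nm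
  rw [le_div_iff₀ (by linarith)]
  linarith

theorem cM_le (M : k[X]) : cM M ≤ 2 ^ (pf M).card := by
  unfold cM
  rw [← Finset.prod_const]
  refine Finset.prod_le_prod (fun p hp => ?_) fun p hp => ?_
  · have h2 := (isP_of_mem_pf hp).two_le_Nm
    exact div_nonneg (by linarith) (by linarith)
  · have h2 := (isP_of_mem_pf hp).two_le_Nm
    rw [div_le_iff₀ (by linarith)]
    linarith

theorem prod_one_add_psi (h : ∀ p ∈ S, IsP p) (b : k[X]) :
    ∏ p ∈ S, (1 + psi p b) = if ∀ p ∈ S, ¬ p ∣ b then ∏ p ∈ S, Nm p / (Nm p - 1) else 0 := by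
  split_ifs with hb
  · refine Finset.prod_congr rfl fun p hp => ?_
    have h2 := (h p hp).two_le_Nm
    have h3 : Nm p - 1 ≠ 0 := by linarith
    unfold psi
    rw [if_neg (hb p hp)]
    field_simp
    ring
  · push Not at hb
    obtain ⟨p, hp, hd⟩ := hb
    refine Finset.prod_eq_zero hp ?_
    unfold psi
    rw [if_pos hd]
    ring

theorem avm_isCoprime {d : ℕ} (hM : M ≠ 0) (hd : M.natDegree ≤ d) :
    avm d (fun b => if IsCoprime b M then 1 else 0) * cM M = 1 := by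
  have hP : ∀ p ∈ pf M, IsP p := fun p hp => isP_of_mem_pf hp
  have h1 : avm d (fun b => if IsCoprime b M then (1 : ℝ) else 0) =
      avg d (fun v => ∏ p ∈ pf M, if p ∣ X ^ d + v then (0 : ℝ) else 1) := by
    unfold avm
    refine avg_congr fun v _ => ?_
    beta_reduce
    split_ifs with hc
    · exact (Finset.prod_eq_one fun p hp => if_neg ((isCoprime_iff_pf hM).1 hc p hp)).symm
    · rw [isCoprime_iff_pf hM] at hc
      push Not at hc
      obtain ⟨p, hp, hd⟩ := hc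
      symm
      refine Finset.prod_eq_zero hp ?_
      exact if_pos hd
  have h0 := avg_prod (n := d) (pf M) (fun p => p)
    (fun p l : k[X] => if p ∣ l then (0 : ℝ) else 1) (fun p hp => (hP p hp).1.ne_zero)
    (fun p hp p' hp' hne => (hP p hp).isCoprime (hP p' hp') hne)
    (fun p _ v t => if_congr (dvd_add_left (dvd_mul_right p t)) rfl rfl)
    ((sum_natDegree_pf_le hM).trans hd) (X ^ d)
  rw [h1, h0]
  unfold cM
  rw [← Finset.prod_mul_distrib]
  refine Finset.prod_eq_one fun p hp => ?_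
  have h2 := (hP p hp).two_le_Nm
  have h5 : avg p.natDegree (fun l : k[X] => if p ∣ l then (0 : ℝ) else 1) =
      avg p.natDegree (fun l : k[X] => 1 - if p ∣ l then (1 : ℝ) else 0) := by
    refine avg_congr fun l _ => ?_
    split_ifs <;> ring
  rw [h5, avg_sub, avg_const, Pr.avg_dvd_self (hP p hp)]
  have h3 : Nm p - 1 ≠ 0 := by linarith
  have h4 : Nm p ≠ 0 := by linarith
  field_simp

theorem KB.ten_le {τ : ℕ} {K : ℝ} (h : KB k τ K) : 10 ≤ K := by
  have h1 := h.lin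
  have h2 : (0 : ℝ) ≤ τ := Nat.cast_nonneg τ
  linarith

theorem KB.abs_wm_le {τ : ℕ} {K : ℝ} (h : KB k τ K) {z s : ℕ} {l : k[X]} (hl : l ≠ 0)
    (hd : l.natDegree ≤ 5000 * τ) (hz : z ≤ 200 * τ) : |wm z s l| ≤ K :=
  (Mob.abs_wm_le z s l).trans (h.wa z s l hl hd hz)

theorem KB.cM_le {τ : ℕ} {K : ℝ} (h : KB k τ K) (hM : M ≠ 0) (hd : M.natDegree ≤ 5000 * τ) :
    cM M ≤ K :=
  (Mob.cM_le M).trans ((pow_le_pow_left₀ (by norm_num) (by norm_num) _).trans (h.om M hM hd))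

theorem Ctx.two_le_Q (c : Ctx k) : 2 ≤ c.Q :=
  le_trans two_le_qR (le_self_pow₀ one_le_qR (by have := c.τ_pos; omega))

omit [Fintype k] in
theorem Ctx.d₁_eq (c : Ctx k) : c.d₁ + 1 = c.nu + c.L := c.I₁_sum

omit [Fintype k] in
theorem Ctx.d₂_eq (c : Ctx k) : c.d₂ = c.d₁ + c.D₁.natDegree + c.D₂.natDegree := c.I₂_sum

omit [Fintype k] in
theorem Ctx.d₂_le (c : Ctx k) : c.d₂ ≤ 2144 * c.τ := by
  have h := Finset.sum_le_sum (s := Finset.univ) fun i _ => c.I₂_le i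
  rw [Finset.sum_const, Finset.card_univ, Fintype.card_fin, smul_eq_mul] at h
  unfold Ctx.d₂
  omega

omit [Fintype k] in
theorem Ctx.Xs_MD (c : Ctx k) (hG : MD c.n' G) :
    MD (c.D₁.natDegree + 2 * c.D₂.natDegree + c.n') (c.Xs G) := by
  have hm : (c.D₁ * c.D₂ ^ 2 * G).Monic := (c.D₁_monic.mul (c.D₂_monic.pow 2)).mul hG.1
  have hd : (c.D₁ * c.D₂ ^ 2 * G).natDegree = c.D₁.natDegree + 2 * c.D₂.natDegree + c.n' := by
    rw [(c.D₁_monic.mul (c.D₂_monic.pow 2)).natDegree_mul hG.1,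
      c.D₁_monic.natDegree_mul (c.D₂_monic.pow 2), c.D₂_monic.natDegree_pow, hG.2]
  have hlt : c.h.natDegree < (c.D₁ * c.D₂ ^ 2 * G).natDegree := by
    have h1 := c.h_deg
    have h2 := c.nu_ge
    have h3 := c.τ_pos
    rw [hd]
    unfold Ctx.n'
    omega
  unfold Ctx.Xs
  exact ⟨hm.add_of_left (degree_lt_degree hlt),
    by rw [natDegree_add_eq_left_of_natDegree_lt hlt, hd]⟩

theorem Ctx.W₁_le (c : Ctx k) {K : ℝ} (h : KB k c.τ K) (l : k[X]) : |c.W₁ l| ≤ K := by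
  unfold Ctx.W₁
  rw [abs_of_nonneg (Wt_nonneg _ _)]
  exact h.wt 66 _ l (by norm_num) c.I₁_le

theorem Ctx.W₂_le (c : Ctx k) {K : ℝ} (h : KB k c.τ K) (l : k[X]) : |c.W₂ l| ≤ K := by
  unfold Ctx.W₂
  rw [abs_of_nonneg (Wt_nonneg _ _)]
  exact h.wt 67 _ l le_rfl c.I₂_le

theorem Ctx.w₁_le (c : Ctx k) {K : ℝ} (h : KB k c.τ K) {l : k[X]} (hl : MD c.d₁ l) :
    |c.w₁ l| ≤ K := by
  refine h.abs_wm_le hl.ne_zero ?_ (by omega)
  have h1 := c.d₂_eq
  have h2 := c.d₂_le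
  rw [hl.2]
  omega

theorem Ctx.w₂_le (c : Ctx k) {K : ℝ} (h : KB k c.τ K) {l : k[X]} (hl : MD c.d₂ l) :
    |c.w₂ l| ≤ K := by
  refine h.abs_wm_le hl.ne_zero ?_ (by omega)
  have h2 := c.d₂_le
  rw [hl.2]
  omega

end Pool.Agent.Lib.MP_9227d9_nt.Mob
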