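import Pool.Agent.Lib.MP_9227d9_nt.Basic

open Pool.Agent.Lib.MP_9227d9_nt

namespace Pool.Agent.Results.MP_9227d9_nt.SmallGapReduction

/-- For `m = 1` and `m = 2`, part (i) implies part (iii). -/
theorem result :
    ∀ m : ℕ, 1 ≤ m → m ≤ 2 → ∀ a : ℕ → ℕ, a 1 = 4 * m ^ 2 →
      (∀ n : ℕ, 2 ≤ n →
        a n = Int.natAbs ((a (n - 1) : ℤ) - ((Nat.gcd (a (n - 1)) (n * (n + 2 * m)) : ℕ) : ℤ))) →
      (∃ N : ℕ, ∀ n : ℕ, N ≤ n → a n = 0 → (n + 1).Prime ∧ (n + 2 * m + 1).Prime) →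
      Set.Infinite {n : ℕ | a n = 0 ∧ (n + 1).Prime ∧ (n + 2 * m + 1).Prime ∧
        ∀ p : ℕ, n + 1 < p → p < n + 2 * m + 1 → ¬ p.Prime} := by
  intro m hm1 hm2 a _ hrec ⟨N, hN⟩
  refine Set.infinite_of_forall_exists_gt fun K => ?_
  obtain ⟨z, hz1, _, hz3⟩ := exists_zero hrec (a (K + N + 5)) (K + N + 5) (by omega) le_rfl
  obtain ⟨h1, h2⟩ := hN z (by omega) hz3
  refine ⟨z, ⟨hz3, h1, h2, fun p hp1 hp2 hp => ?_⟩, by omega⟩
  have key : ∀ q r : ℕ, q.Prime → 1 < r → r < q → q % r ≠ 0 := fun q r hq hr1 hr2 h => by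
    rcases (Nat.dvd_prime hq).1 (Nat.dvd_of_mod_eq_zero h) with h3 | h3 <;> omega
  have a2 := key _ 2 h1 (by omega) (by omega)
  have a3 := key _ 3 h1 (by omega) (by omega)
  have b3 := key _ 3 h2 (by omega) (by omega)
  have c2 := key _ 2 hp (by omega) (by omega)
  have c3 := key _ 3 hp (by omega) (by omega)
  have b2 := key _ 2 h2 (by omega) (by omega)
  have hm : m = 1 ∨ m = 2 := by omega
  have hp' : p = z + 2 ∨ p = z + 3 ∨ p = z + 4 := by omega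
  have h3 : z % 3 = 0 ∨ z % 3 = 1 ∨ z % 3 = 2 := by omega
  rcases hm with rfl | rfl <;> rcases hp' with rfl | rfl | rfl <;>
    rcases h3 with h3 | h3 | h3 <;> omega

end Pool.Agent.Results.MP_9227d9_nt.SmallGapReduction
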