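import Pool.Agent.Lib.MP_9227d9_nt.TwDefs
import Pool.Agent.Lib.MP_a3f657_nt.C2SfPrime

/-! Basic facts on rough polynomials, the sieve weight and the parameters. -/

namespace Pool.Agent.Lib.MP_9227d9_nt.Mob

open Polynomial

open scoped Classical

variable {k : Type} [Field k] [Fintype k] {z j n : ℕ} {f g p h F A B M : k[X]}

theorem mem_MoD : f ∈ MoD k j ↔ MD j f := by
  rw [MoD, Finset.mem_filter, mem_Mo]
  exact ⟨fun H => ⟨H.1.1, H.2⟩, fun H => ⟨⟨H.1, H.2.le⟩, H.2⟩⟩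

theorem card_MoD (j : ℕ) : ((MoD k j).card : ℝ) = qR k ^ j := card_MD j j le_rfl

theorem avm_eq_MoD (j : ℕ) (Φ : k[X] → ℝ) : avm j Φ = (∑ f ∈ MoD k j, Φ f) / qR k ^ j :=
  avm_eq_sum

theorem sum_MoD (j : ℕ) (Φ : k[X] → ℝ) : ∑ f ∈ MoD k j, Φ f = qR k ^ j * avm j Φ := by
  rw [avm_eq_MoD, mul_div_cancel₀ _ (qR_pow_pos j).ne']

/-- The prime polynomial theorem, upper bound. -/
theorem card_PrD_le [CharP k 2] (m : ℕ) : (m : ℝ) * (PrD k m).card ≤ qR k ^ m := by
  rcases Nat.eq_zero_or_pos m with rfl | hm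
  · simp
  have h1 := MP_a3f657_nt.Two.sum_deg_eq_le (k := k) hm (PrD k m) fun p hp =>
    ⟨(mem_PrD.1 hp).2, (mem_PrD.1 hp).1.1, (mem_PrD.1 hp).1.2⟩
  rw [Finset.sum_congr rfl fun p hp => (mem_PrD.1 hp).2, Finset.sum_const, smul_eq_mul,
    mul_comm] at h1
  unfold qR
  exact_mod_cast h1

theorem card_SS_le (y z : ℕ) : ((SS k y z).card : ℝ) ≤ 2 * qR k ^ y := by
  refine le_trans ?_ (card_Mo_le (k := k) y)
  have : (SS k y z).card ≤ (Mo k y).card := by
    refine Finset.card_le_card_of_injOn (fun S => ∏ p ∈ S, p) ?_ ?_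
    · intro S hS
      have h1 := mem_SS.1 (Finset.mem_coe.1 hS)
      have h2 : ∀ p ∈ S, IsP p := fun p hp => (h1.1 p hp).1
      exact Finset.mem_coe.2 (mem_Mo.2 ⟨monic_prod h2, (natDegree_prod_isP h2).trans_le h1.2⟩)
    · intro S hS S' hS' e
      have h2 : ∀ p ∈ S, IsP p := fun p hp => ((mem_SS.1 (Finset.mem_coe.1 hS)).1 p hp).1
      have h3 : ∀ p ∈ S', IsP p := fun p hp => ((mem_SS.1 (Finset.mem_coe.1 hS')).1 p hp).1
      rw [← pf_prod h2, ← pf_prod h3]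
      exact congrArg pf e
  exact_mod_cast this

theorem avm_eq_one_le (g : k[X]) : avm j (fun f => if f = g then (1 : ℝ) else 0) ≤ 1 / qR k ^ j := by
  rw [avm_eq_MoD, Finset.sum_ite_eq']
  refine div_le_div_of_nonneg_right ?_ (qR_pow_pos j).le
  split_ifs <;> norm_num

theorem avm_dvd_le {s : ℕ} (hM : M ≠ 0) (hn : s ≤ n) (hs : s ≤ M.natDegree) (hA : IsCoprime A M)
    (c : k[X]) : avm n (fun m => if M ∣ A * m + c then (1 : ℝ) else 0) ≤ 1 / qR k ^ s := by
  refine le_trans (le_of_eq ?_) (avg_dvd_le hM hn hs hA (A * X ^ n + c))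
  refine avg_congr fun v _ => ?_
  rw [show A * X ^ n + c + A * v = A * (X ^ n + v) + c by ring]

/-- A nonnegative function on a progression is bounded by its mean. -/
theorem avg_le_avm {b : k[X]} {len : ℕ} {Φ : k[X] → ℝ} (hM : M ≠ 0) (hb : MD n b)
    (hlen : M.natDegree + len ≤ n) (h0 : ∀ f, MD n f → 0 ≤ Φ f) :
    avg len (fun t => Φ (b + M * t)) ≤ qR k ^ (n - len) * avm n Φ := by
  have hinj : Set.InjOn (fun t => b + M * t) (Pn k len : Set k[X]) := fun t _ t' _ h =>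
    mul_left_cancel₀ hM (add_left_cancel h)
  have h1 : ∑ t ∈ Pn k len, Φ (b + M * t) ≤ ∑ f ∈ MoD k n, Φ f := by
    rw [← Finset.sum_image (f := Φ) hinj]
    refine Finset.sum_le_sum_of_subset_of_nonneg ?_ fun f hf _ => h0 f (mem_MoD.1 hf)
    intro f hf
    obtain ⟨t, ht, rfl⟩ := Finset.mem_image.1 hf
    exact mem_MoD.2 (hb.add (degree_mul_lt (mem_Pn.1 ht) hlen))
  rw [avg, div_le_iff₀ (qR_pow_pos len), mul_right_comm, ← pow_add,
    Nat.sub_add_cancel (by omega), ← sum_MoD]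
  exact h1

omit [Fintype k] in
theorem MD.add_of_lt (hF : MD n F) (hh : h.natDegree < n) : MD n (F + h) :=
  ⟨hF.1.add_of_left (degree_lt_degree (hF.2 ▸ hh)),
    by rw [natDegree_add_eq_left_of_natDegree_lt (hF.2 ▸ hh), hF.2]⟩

omit [Fintype k] in
theorem rough_one (z : ℕ) : Rough z (1 : k[X]) := fun _ hp hd =>
  absurd (isUnit_of_dvd_one hd) hp.2.not_isUnit

omit [Fintype k] in
theorem Rough.of_dvd (hf : Rough z f) (hg : g ∣ f) : Rough z g := fun p hp hd =>
  hf p hp (hd.trans hg)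

omit [Fintype k] in
theorem rough_mul : Rough z (f * g) ↔ Rough z f ∧ Rough z g :=
  ⟨fun H => ⟨H.of_dvd (dvd_mul_right f g), H.of_dvd (dvd_mul_left g f)⟩, fun H p hp hd =>
    (hp.prime.dvd_or_dvd hd).elim (H.1 p hp) (H.2 p hp)⟩

omit [Fintype k] in
theorem IsP.rough_iff (hp : IsP p) : Rough z p ↔ z ≤ p.natDegree :=
  ⟨fun H => H p hp dvd_rfl, fun H _ hp' hd => hp'.eq_of_dvd hp hd ▸ H⟩

omit [Fintype k] in
theorem Rough.eq_one (hf : Rough z f) (hm : f.Monic) (hd : f.natDegree < z) : f = 1 := by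
  by_contra h1
  obtain ⟨u, hu, hd'⟩ := WfDvdMonoid.exists_irreducible_factor
    (fun h2 => h1 (hm.isUnit_iff.1 h2)) hm.ne_zero
  obtain ⟨p, hp, ha⟩ := Pr.exists_isP_associated hu
  have h3 := ha.dvd.trans hd'
  have h4 := hf p hp h3
  have h5 := natDegree_le_of_dvd h3 hm.ne_zero
  omega

omit [Fintype k] in
theorem Rough.isCoprime (hf : Rough z f) (hh : h ≠ 0) (hd : h.natDegree < z) : IsCoprime f h := by
  by_contra hc
  obtain ⟨p, hp, h1, h2⟩ := exists_isP_of_not_isCoprime hh fun h' => hc h'.symm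
  have h4 := hf p hp h2
  have h5 := natDegree_le_of_dvd h1 hh
  omega

omit [Fintype k] in
theorem Rough.isCoprime_smth (hf : Rough z f) (hg : Smth z g) (h0 : g ≠ 0) : IsCoprime g f := by
  by_contra hc
  obtain ⟨p, hp, h1, h2⟩ := exists_isP_of_not_isCoprime h0 hc
  exact absurd (hf p hp h2) (not_le.2 (hg p hp h1))

omit [Fintype k] in
/-- If `B` is rough and divides `A m + h` then `B` is coprime to `A` (and to `m`). -/
theorem Rough.isCoprime_of_dvd {m : k[X]} (hB : Rough z B) (hh : h ≠ 0) (hd : h.natDegree < z)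
    (hdvd : B ∣ A * m + h) : IsCoprime A B ∧ IsCoprime m B := by
  obtain ⟨u, v, e⟩ := hB.isCoprime hh hd
  obtain ⟨c, hc⟩ := hdvd
  exact ⟨⟨-(v * m), u + v * c, by linear_combination e - v * hc⟩,
    ⟨-(v * A), u + v * c, by linear_combination e - v * hc⟩⟩

omit [Fintype k] in
theorem Smth.mul (hf : Smth z f) (hg : Smth z g) : Smth z (f * g) := fun p hp hd =>
  (hp.prime.dvd_or_dvd hd).elim (hf p hp) (hg p hp)

omit [Fintype k] in
theorem rI_nonneg (z : ℕ) (f : k[X]) : 0 ≤ rI z f := by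
  unfold rI
  split_ifs <;> norm_num

omit [Fintype k] in
theorem rI_le_one (z : ℕ) (f : k[X]) : rI z f ≤ 1 := by
  unfold rI
  split_ifs <;> norm_num

omit [Fintype k] in
theorem sr_eq (z : ℕ) (f : k[X]) : sr z f = if Squarefree f ∧ Rough z f then 1 else 0 := by
  rw [sr, mu_sq, rI]
  by_cases h1 : Squarefree f <;> by_cases h2 : Rough z f <;> simp [h1, h2]

omit [Fintype k] in
theorem sr_nonneg (z : ℕ) (f : k[X]) : 0 ≤ sr z f := by
  rw [sr_eq]
  split_ifs <;> norm_num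

omit [Fintype k] in
theorem sr_le_one (z : ℕ) (f : k[X]) : sr z f ≤ 1 := by
  rw [sr_eq]
  split_ifs <;> norm_num

omit [Fintype k] in
theorem sr_ne_zero_iff : sr z f ≠ 0 ↔ Squarefree f ∧ Rough z f := by
  rw [sr_eq]
  split_ifs with h1 <;> simp only [h1, ne_eq, one_ne_zero, not_false_eq_true, not_true_eq_false,
    and_self]

omit [Fintype k] in
theorem abs_mu_eq_sq (f : k[X]) : |mu f| = mu f ^ 2 := by
  unfold mu UniqueFactorizationMonoid.moebius
  split_ifs with h1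
  · push_cast
    rw [← pow_mul, mul_comm, pow_mul]
    simp
  · simp

omit [Fintype k] in
theorem abs_mu_mul_rI (z : ℕ) (f : k[X]) : |mu f * rI z f| = sr z f := by
  rw [abs_mul, abs_of_nonneg (rI_nonneg z f), abs_mu_eq_sq, sr]

omit [Fintype k] in
theorem sr_mul_mu (z : ℕ) (f : k[X]) : sr z f * mu f = mu f * rI z f := by
  rw [sr, mu_sq]
  split_ifs with h1
  · ring
  · rw [not_not.1 (mt mu_ne_zero_iff.1 h1)]
    ring

theorem tS_nonneg (z j : ℕ) (F : k[X]) : 0 ≤ tS z j F :=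
  Finset.sum_nonneg fun A _ => sr_nonneg z A

theorem abs_aS_le (z j : ℕ) (F : k[X]) : |aS z j F| ≤ tS z j F :=
  (Finset.abs_sum_le_sum_abs _ _).trans (Finset.sum_le_sum fun A _ => (abs_mu_mul_rI z A).le)

theorem abs_bS_le (z j : ℕ) (F : k[X]) : |bS z j F| ≤ tS z j F := by
  refine (Finset.abs_sum_le_sum_abs _ _).trans (Finset.sum_le_sum fun A _ => ?_)
  rw [abs_mul, abs_of_nonneg (sr_nonneg z A)]
  exact mul_le_of_le_one_right (sr_nonneg z A) (abs_mu_le _)

/-- The number of squarefree rough divisors. -/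
theorem sum_tS_le (hF : F ≠ 0) (hz : 1 ≤ z) (N : ℕ) :
    ∑ j ∈ Finset.range N, tS z j F ≤ 2 ^ (F.natDegree / z) := by
  obtain ⟨R, hR⟩ : ∃ R, R = (pf F).filter fun p => z ≤ p.natDegree := ⟨_, rfl⟩
  have h1 : R.card ≤ F.natDegree / z := by
    rw [Nat.le_div_iff_mul_le hz]
    refine le_trans ?_ (sum_natDegree_pf_le hF)
    refine le_trans ?_ (Finset.sum_le_sum_of_subset (hR ▸ Finset.filter_subset _ _ : R ⊆ pf F))
    rw [← smul_eq_mul]
    refine Finset.card_nsmul_le_sum _ _ _ fun p hp => ?_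
    rw [hR] at hp
    exact (Finset.mem_filter.1 hp).2
  obtain ⟨T, hT⟩ : ∃ T, T = (Mo k N).filter fun A => A ∣ F ∧ Squarefree A ∧ Rough z A := ⟨_, rfl⟩
  have h2 : T.card ≤ 2 ^ R.card := by
    rw [← Finset.card_powerset]
    refine Finset.card_le_card_of_injOn (fun A => pf A) ?_ ?_
    · intro A hA
      rw [hT, Finset.mem_coe, Finset.mem_filter, mem_Mo] at hA
      refine Finset.mem_coe.2 (Finset.mem_powerset.2 fun p hp => ?_)
      have := (mem_pf hA.1.1.ne_zero).1 hp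
      rw [hR, Finset.mem_filter, mem_pf hF]
      exact ⟨⟨this.1, this.2.trans hA.2.1⟩, hA.2.2.2 p this.1 this.2⟩
    · intro A hA A' hA' e
      rw [hT, Finset.mem_coe, Finset.mem_filter, mem_Mo] at hA hA'
      rw [← prod_pf hA.1.1 hA.2.2.1, ← prod_pf hA'.1.1 hA'.2.2.1]
      exact congrArg (fun S : Finset k[X] => ∏ p ∈ S, p) e
  have h3 : ∀ j ∈ Finset.range N, tS z j F = ((T.filter fun A => A.natDegree = j).card : ℝ) := by
    intro j hj
    rw [tS, Finset.sum_congr rfl fun A _ => sr_eq z A, Finset.sum_boole, Finset.filter_filter]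
    refine congrArg (fun S : Finset k[X] => (S.card : ℝ)) (Finset.ext fun A => ?_)
    rw [hT, Finset.mem_filter, Finset.mem_filter, Finset.mem_filter, mem_MoD, mem_Mo]
    have := Finset.mem_range.1 hj
    exact ⟨fun H => ⟨⟨⟨H.1.1, by rw [H.1.2]; omega⟩, H.2⟩, H.1.2⟩, fun H => ⟨⟨H.1.1.1, H.2⟩, H.1.2⟩⟩
  rw [Finset.sum_congr rfl h3, ← Nat.cast_sum, Finset.sum_card_fiberwise_eq_card_filter]
  exact_mod_cast (Finset.card_filter_le _ _).trans (h2.trans (Nat.pow_le_pow_right two_pos h1))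

theorem tS_le (hF : F ≠ 0) (hz : 1 ≤ z) (j : ℕ) : tS z j F ≤ 2 ^ (F.natDegree / z) :=
  (Finset.single_le_sum (f := fun j => tS z j F) (fun i _ => tS_nonneg z i F)
    (Finset.self_mem_range_succ j)).trans (sum_tS_le hF hz (j + 1))

namespace TwA2

omit [Fintype k] in
theorem one_le_om (h p : k[X]) : 1 ≤ om h p := by
  unfold om
  split_ifs <;> norm_num

omit [Fintype k] in
theorem om_le_two (h p : k[X]) : om h p ≤ 2 := by
  unfold om
  split_ifs <;> norm_num

theorem empty_mem_SS (y z : ℕ) : (∅ : Finset k[X]) ∈ SS k y z := mem_SS.2 (by simp)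

end TwA2

theorem Adm.hp_pos (ha : Adm h) (hp' : IsP p) : 0 < hp h p := by
  have h1 := ha p hp'
  have h2 := TwA2.one_le_om h p
  exact div_pos (by linarith) (by linarith)

theorem Adm.hp_le_one (ha : Adm h) (hp' : IsP p) : hp h p ≤ 1 := by
  have h1 := ha p hp'
  have h2 := TwA2.one_le_om h p
  exact (div_le_one (by linarith)).2 (by linarith)

theorem Adm.hp_le (ha : Adm h) (hp' : IsP p) : hp h p ≤ 4 / Nm p := by
  have h1 := ha p hp'
  have h2 := TwA2.one_le_om h p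
  have h3 := TwA2.om_le_two h p
  unfold hp
  rw [div_le_div_iff₀ (by linarith) (by linarith)]
  nlinarith

theorem Adm.one_add_hp (ha : Adm h) (hp' : IsP p) : (1 + hp h p) * (1 - om h p / Nm p) = 1 := by
  have h1 := ha p hp'
  have h2 := TwA2.one_le_om h p
  have h3 : Nm p - om h p ≠ 0 := by linarith
  have h4 : Nm p ≠ 0 := by linarith
  unfold hp
  field_simp
  ring

theorem Adm.abs_ps2_le (ha : Adm h) (hp' : IsP p) (F : k[X]) : |ps2 h p F| ≤ 1 := by
  unfold ps2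
  split_ifs
  · simp
  · rw [abs_of_pos (ha.hp_pos hp')]
    exact ha.hp_le_one hp'

theorem ps2_congr {F' : k[X]} (hd : p ∣ F - F') : ps2 h p F = ps2 h p F' := by
  unfold ps2
  refine if_congr (dvd_iff_dvd_of_dvd_sub ?_) rfl rfl
  rw [show F * (F + h) - F' * (F' + h) = (F - F') * (F + F' + h) by ring]
  exact hd.mul_right _

theorem ps2_shift [CharP k 2] (h p F : k[X]) : ps2 h p (F + h) = ps2 h p F := by
  unfold ps2
  rw [add_assoc, CharTwo.add_self_eq_zero, add_zero, mul_comm]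

theorem avg_dvd_two (hp' : IsP p) (h : k[X]) :
    avg p.natDegree (fun F => if p ∣ F * (F + h) then (1 : ℝ) else 0) = om h p / Nm p := by
  unfold om
  by_cases hd : p ∣ h
  · rw [if_pos hd, ← Pr.avg_dvd_self hp']
    refine avg_congr fun F _ => if_congr ?_ rfl rfl
    rw [hp'.prime.dvd_mul, dvd_add_left hd, or_self]
  · have h1 := avg_dvd (n := p.natDegree) (β := 1) hp'.1.ne_zero le_rfl isCoprime_one_left h
    rw [if_neg hd, show (2 : ℝ) / Nm p = 1 / Nm p + 1 / Nm p by ring]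
    nth_rewrite 1 [← Pr.avg_dvd_self hp']
    rw [← h1, ← avg_add]
    refine avg_congr fun F _ => ?_
    rw [one_mul, add_comm h F]
    by_cases h2 : p ∣ F
    · rw [if_pos (h2.mul_right _), if_pos h2, if_neg fun h3 => hd ((dvd_add_right h2).1 h3),
        add_zero]
    · rw [if_neg h2, zero_add]
      exact if_congr (by rw [hp'.prime.dvd_mul, or_iff_right h2]) rfl rfl

theorem Adm.avg_ps2 (ha : Adm h) (hp' : IsP p) : avg p.natDegree (ps2 h p) = 0 := by
  have h1 : avg p.natDegree (ps2 h p) = avg p.natDegree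
      (fun F => hp h p + (-1 - hp h p) * if p ∣ F * (F + h) then 1 else 0) := by
    refine avg_congr fun l _ => ?_
    unfold ps2
    split_ifs <;> ring
  rw [h1, avg_add, avg_const, avg_mul_left, avg_dvd_two hp']
  linear_combination ha.one_add_hp hp'

theorem Adm.avg_ps2_sq (ha : Adm h) (hp' : IsP p) :
    avg p.natDegree (fun F => ps2 h p F ^ 2) = hp h p := by
  have h1 : avg p.natDegree (fun F => ps2 h p F ^ 2) = avg p.natDegree
      (fun F => hp h p ^ 2 + (1 - hp h p ^ 2) * if p ∣ F * (F + h) then 1 else 0) := by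
    refine avg_congr fun l _ => ?_
    unfold ps2
    split_ifs <;> ring
  rw [h1, avg_add, avg_const, avg_mul_left, avg_dvd_two hp']
  linear_combination (hp h p - 1) * ha.one_add_hp hp'

theorem Adm.one_le_G2 (ha : Adm h) (y z : ℕ) : 1 ≤ G2 h y z := by
  have := Finset.single_le_sum (f := fun S : Finset k[X] => ∏ p ∈ S, hp h p)
    (fun S hS => Finset.prod_nonneg fun p hp' => (ha.hp_pos ((mem_SS.1 hS).1 p hp').1).le)
    (TwA2.empty_mem_SS y z)
  simpa [G2] using this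

theorem nu2_nonneg (h : k[X]) (y z : ℕ) (F : k[X]) : 0 ≤ nu2 h y z F := sq_nonneg _

theorem nu2_shift [CharP k 2] (h : k[X]) (y z : ℕ) (F : k[X]) :
    nu2 h y z (F + h) = nu2 h y z F := by
  simp only [nu2, w2, ps2_shift]

theorem Adm.nu2_eq_one (ha : Adm h) (y : ℕ) (hF : Rough z (F * (F + h))) : nu2 h y z F = 1 := by
  have h1 : w2 h y z F = G2 h y z :=
    Finset.sum_congr rfl fun S hS => Finset.prod_congr rfl fun p hp' => by
      obtain ⟨h2, h3⟩ := (mem_SS.1 hS).1 p hp'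
      exact if_neg fun hd => absurd (hF p h2 hd) (not_le.2 h3)
  have h2 := ha.one_le_G2 y z
  rw [nu2, h1, div_self (by linarith), one_pow]

theorem nu2_le_De (y : ℕ) (hF : ¬ Rough z (F * (F + h))) : nu2 h y z F ≤ De h y z F := by
  unfold Rough at hF
  push Not at hF
  obtain ⟨p, h1, h2, h3⟩ := hF
  refine le_mul_of_one_le_left (nu2_nonneg h y z F) ?_
  exact_mod_cast Finset.card_pos.2 ⟨p, Finset.mem_filter.2 ⟨mem_PrL.2 ⟨h1, h3⟩, h2⟩⟩

theorem De_nonneg (h : k[X]) (y z : ℕ) (F : k[X]) : 0 ≤ De h y z F :=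
  mul_nonneg (Nat.cast_nonneg _) (nu2_nonneg h y z F)

theorem nu2_eq_sum (h : k[X]) (y z : ℕ) (F : k[X]) :
    nu2 h y z F = ∑ x ∈ SS k y z ×ˢ SS k y z, pc h y z x F := by
  unfold nu2 w2 pc
  rw [div_pow, ← Finset.sum_div, Finset.sum_product, sq (∑ S ∈ SS k y z, ∏ p ∈ S, ps2 h p F),
    Finset.sum_mul_sum]

theorem Adm.abs_pc_le_mul (ha : Adm h) (y z : ℕ) (x : Finset k[X] × Finset k[X]) (F : k[X]) :
    |pc h y z x F| ≤ |∏ p ∈ x.1, ps2 h p F| * |∏ p ∈ x.2, ps2 h p F| := by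
  have h1 := ha.one_le_G2 y z
  rw [pc, abs_div, abs_mul]
  exact div_le_self (by positivity) ((one_le_pow₀ h1).trans (le_abs_self _))

theorem Adm.abs_pc_le (ha : Adm h) {y : ℕ} {x : Finset k[X] × Finset k[X]}
    (hx : x ∈ SS k y z ×ˢ SS k y z) (F : k[X]) : |pc h y z x F| ≤ 1 := by
  have key : ∀ S ∈ SS k y z, |∏ p ∈ S, ps2 h p F| ≤ 1 := fun S hS => by
    rw [Finset.abs_prod]
    exact Finset.prod_le_one (fun _ _ => abs_nonneg _) fun p hp' =>
      ha.abs_ps2_le ((mem_SS.1 hS).1 p hp').1 F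
  obtain ⟨h1, h2⟩ := Finset.mem_product.1 hx
  exact (ha.abs_pc_le_mul y z x F).trans (mul_le_one₀ (key _ h1) (abs_nonneg _) (key _ h2))

theorem pc_periodic (h : k[X]) (y z : ℕ) (x : Finset k[X] × Finset k[X]) (F t : k[X]) :
    pc h y z x (F + rr x * t) = pc h y z x F := by
  unfold pc
  congr 2
  · refine Finset.prod_congr rfl fun p hp' => ps2_congr ?_
    rw [add_sub_cancel_left]
    exact ((Finset.dvd_prod_of_mem _ hp').mul_right _).mul_right _
  · refine Finset.prod_congr rfl fun p hp' => ps2_congr ?_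
    rw [add_sub_cancel_left]
    exact ((Finset.dvd_prod_of_mem _ hp').mul_left _).mul_right _

theorem rr_spec {y : ℕ} {x : Finset k[X] × Finset k[X]} (hx : x ∈ SS k y z ×ˢ SS k y z) :
    (rr x).Monic ∧ (rr x).natDegree ≤ 2 * y ∧ Smth z (rr x) := by
  obtain ⟨h1, h2⟩ := Finset.mem_product.1 hx
  obtain ⟨a1, a2⟩ := mem_SS.1 h1
  obtain ⟨b1, b2⟩ := mem_SS.1 h2
  have a3 : ∀ p ∈ x.1, IsP p := fun p hp' => (a1 p hp').1
  have b3 : ∀ p ∈ x.2, IsP p := fun p hp' => (b1 p hp').1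
  refine ⟨(monic_prod a3).mul (monic_prod b3), ?_, fun p hp' hd => ?_⟩
  · rw [rr, (monic_prod a3).natDegree_mul (monic_prod b3), natDegree_prod_isP a3,
      natDegree_prod_isP b3]
    omega
  · rcases hp'.prime.dvd_or_dvd hd with h3 | h3
    · exact (a1 p ((dvd_prod_iff_mem a3 hp').1 h3)).2
    · exact (b1 p ((dvd_prod_iff_mem b3 hp').1 h3)).2

theorem Adm.sum_abs_pc_le (ha : Adm h) (y z : ℕ) (F : k[X]) :
    ∑ x ∈ SS k y z ×ˢ SS k y z, |pc h y z x F| ≤ w2a h y z F ^ 2 := by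
  rw [w2a, sq, Finset.sum_mul_sum, ← Finset.sum_product']
  exact Finset.sum_le_sum fun x _ => ha.abs_pc_le_mul y z x F

theorem abs_gS_le (z γ : ℕ) (D : k[X]) : |gS z γ D| ≤ 4 ^ (pf D).card := by
  rw [gS, abs_neg]
  refine (Finset.abs_sum_le_sum_abs _ _).trans ((Finset.sum_le_sum_of_subset_of_nonneg
    (Finset.filter_subset _ _) fun _ _ _ => abs_nonneg _).trans ?_)
  simp only [Finset.abs_prod]
  rw [← Finset.prod_one_add, ← Finset.prod_const]
  refine Finset.prod_le_prod (fun p _ => by positivity) fun p _ => ?_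
  have h1 := rI_nonneg z p
  have h2 := rI_le_one z p
  rw [abs_of_nonpos (by linarith)]
  linarith

theorem Ph_nonneg {ι : Type} [Fintype ι] (I : ι → ℕ) (len : ℕ) (θ : ℝ) (M x : k[X]) :
    0 ≤ Ph I len θ M x := by
  unfold Ph
  split_ifs
  exacts [abs_nonneg _, le_rfl]

theorem PerS.mono {κ κ' : ℕ} {K : ℝ} {φ : k[X] → ℝ} (H : PerS z κ n K φ) (hκ : κ ≤ κ') :
    PerS z κ' n K φ := by
  obtain ⟨ι, T, f, r, h1, h2, h3⟩ := H
  exact ⟨ι, T, f, r, h1, fun i hi => ⟨(h2 i hi).1, (h2 i hi).2.1.trans hκ, (h2 i hi).2.2⟩, h3⟩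

theorem PerS.mul {κ κ' : ℕ} {K K' : ℝ} {φ φ' : k[X] → ℝ} (H : PerS z κ n K φ)
    (H' : PerS z κ' n K' φ') : PerS z (κ + κ') n (K * K') fun m => φ m * φ' m := by
  obtain ⟨ι, T, f, r, h1, h2, h3⟩ := H
  obtain ⟨ι', T', f', r', h1', h2', h3'⟩ := H'
  refine ⟨ι × ι', T ×ˢ T', fun x m => f x.1 m * f' x.2 m, fun x => r x.1 * r' x.2, fun m => ?_,
    fun x hx => ?_, fun m hm => ?_⟩
  · simp only [h1 m, h1' m]
    rw [Finset.sum_mul_sum, Finset.sum_product]
  · obtain ⟨a1, a2, a3, a4⟩ := h2 _ (Finset.mem_product.1 hx).1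
    obtain ⟨b1, b2, b3, b4⟩ := h2' _ (Finset.mem_product.1 hx).2
    refine ⟨mul_ne_zero a1 b1, natDegree_mul_le.trans (add_le_add a2 b2), a3.mul b3, fun m t => ?_⟩
    simp only
    rw [mul_assoc, a4, mul_left_comm, b4]
  · simp only [abs_mul]
    rw [Finset.sum_product' (f := fun a b => |f a m| * |f' b m|), ← Finset.sum_mul_sum]
    exact mul_le_mul (h3 m hm) (h3' m hm) (Finset.sum_nonneg fun _ _ => abs_nonneg _)
      ((Finset.sum_nonneg fun _ _ => abs_nonneg _).trans (h3 m hm))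

theorem PerS.nonneg {κ : ℕ} {K : ℝ} {φ : k[X] → ℝ} (H : PerS z κ n K φ) : 0 ≤ K := by
  obtain ⟨ι, T, f, r, -, -, h3⟩ := H
  exact (Finset.sum_nonneg fun _ _ => abs_nonneg _).trans
    (h3 (X ^ n) ⟨monic_X_pow n, natDegree_X_pow n⟩)

section E3

variable {a b : ℕ} {Φ Ψ : k[X] → k[X] → k[X] → ℝ}

theorem E3_mono (H : ∀ A B m, MD a A → MD b B → MD (n - a) m → B ∣ A * m + h → sr z A ≠ 0 →
    sr z B ≠ 0 → Φ A B m ≤ Ψ A B m) : E3 h z n a b Φ ≤ E3 h z n a b Ψ := by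
  refine mul_le_mul_of_nonneg_left (avm_mono fun A hA => avm_mono fun B hB =>
    avm_mono fun m hm => ?_) (qR_pow_pos b).le
  split_ifs with hd
  · by_cases h1 : sr z A = 0
    · simp [h1]
    by_cases h2 : sr z B = 0
    · simp [h2]
    exact mul_le_mul_of_nonneg_left (H A B m hA hB hm hd h1 h2)
      (mul_nonneg (sr_nonneg z A) (sr_nonneg z B))
  · exact le_rfl

theorem E3_congr (H : ∀ A B m, MD a A → MD b B → MD (n - a) m → B ∣ A * m + h → sr z A ≠ 0 →
    sr z B ≠ 0 → Φ A B m = Ψ A B m) : E3 h z n a b Φ = E3 h z n a b Ψ :=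
  le_antisymm (E3_mono fun A B m h1 h2 h3 h4 h5 h6 => (H A B m h1 h2 h3 h4 h5 h6).le)
    (E3_mono fun A B m h1 h2 h3 h4 h5 h6 => (H A B m h1 h2 h3 h4 h5 h6).ge)

theorem E3_sub : E3 h z n a b (fun A B m => Φ A B m - Ψ A B m) =
    E3 h z n a b Φ - E3 h z n a b Ψ := by
  unfold E3
  rw [← mul_sub, ← avm_sub]
  refine congrArg _ (avm_congr fun A _ => ?_)
  rw [← avm_sub]
  refine avm_congr fun B _ => ?_
  rw [← avm_sub]
  refine avm_congr fun m _ => ?_
  split_ifs <;> ring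

theorem E3_mul_left (c : ℝ) : E3 h z n a b (fun A B m => c * Φ A B m) = c * E3 h z n a b Φ := by
  unfold E3
  rw [mul_left_comm, ← avm_mul_left c]
  refine congrArg _ (avm_congr fun A _ => ?_)
  rw [← avm_mul_left]
  refine avm_congr fun B _ => ?_
  rw [← avm_mul_left]
  refine avm_congr fun m _ => ?_
  split_ifs <;> ring

theorem abs_E3_le : |E3 h z n a b Φ| ≤ E3 h z n a b fun A B m => |Φ A B m| := by
  refine abs_le.2 ⟨?_, E3_mono fun A B m _ _ _ _ _ _ => le_abs_self _⟩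
  rw [neg_eq_neg_one_mul, ← E3_mul_left]
  exact E3_mono fun A B m _ _ _ _ _ _ => by linarith [neg_abs_le (Φ A B m)]

theorem E3_one_le (hh : h ≠ 0) (hd : h.natDegree < z) (hab : a + b ≤ n) :
    E3 h z n a b (fun _ _ _ => 1) ≤ 1 := by
  have hq := qR_pow_pos (k := k) b
  unfold E3
  rw [← le_div_iff₀' hq]
  refine avm_le_of_le fun A hA => avm_le_of_le fun B hB => ?_
  by_cases h1 : ∃ m, B ∣ A * m + h ∧ sr z B ≠ 0
  · obtain ⟨m, h2, h3⟩ := h1
    refine le_trans (avm_mono fun m _ => ?_) (avm_dvd_le (s := b) hB.ne_zero (by omega) hB.2.ge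
      ((sr_ne_zero_iff.1 h3).2.isCoprime_of_dvd hh hd h2).1 h)
    split_ifs
    · rw [mul_one]
      exact mul_le_one₀ (sr_le_one z A) (sr_nonneg z B) (sr_le_one z B)
    · exact le_rfl
  · push Not at h1
    refine avm_le_of_le fun m _ => ?_
    split_ifs with h2
    · rw [h1 m h2, mul_zero, zero_mul]
      positivity
    · positivity

theorem sq_E3_le (hh : h ≠ 0) (hd : h.natDegree < z) (hab : a + b ≤ n) :
    E3 h z n a b Φ ^ 2 ≤ E3 h z n a b fun A B m => Φ A B m ^ 2 := by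
  have h1 := E3_one_le (n := n) hh hd hab
  have h2 : E3 h z n a b (fun A B m => 2 * E3 h z n a b Φ * Φ A B m - E3 h z n a b Φ ^ 2 * 1) ≤
      E3 h z n a b fun A B m => Φ A B m ^ 2 :=
    E3_mono fun A B m _ _ _ _ _ _ => by nlinarith [sq_nonneg (Φ A B m - E3 h z n a b Φ)]
  rw [E3_sub (Φ := fun A B m => 2 * E3 h z n a b Φ * Φ A B m), E3_mul_left,
    E3_mul_left (Φ := fun _ _ _ => 1)] at h2
  nlinarith [sq_nonneg (E3 h z n a b Φ)]

end E3

theorem KB2.ten_le {U τ : ℕ} {K : ℝ} (H : KB2 k U τ K) : 10 ≤ K := by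
  have := H.lin
  have : (0 : ℝ) ≤ 4 * U * τ := by positivity
  linarith

theorem KB2.cM_le {U τ : ℕ} {K : ℝ} (H : KB2 k U τ K) (hM : M ≠ 0)
    (hd : M.natDegree ≤ 4 * U * τ) : cM M ≤ K :=
  (Mob.cM_le M).trans ((pow_le_pow_left₀ (by norm_num) (by norm_num) _).trans (H.om M hM hd))

namespace Par

variable (P : Par k) {K : ℝ}

theorem qR_le_Q : qR k ≤ P.Q := by
  have := P.τ_pos
  exact le_self_pow₀ one_le_qR (by omega)

theorem two_le_Q : 2 ≤ P.Q := two_le_qR.trans P.qR_le_Q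

theorem Q_pow (j : ℕ) : P.Q ^ j = qR k ^ (j * P.τ) := by rw [Q, ← pow_mul, mul_comm]

theorem h_lt_z : P.h.natDegree < P.z := by
  have := P.τ_pos
  have := P.h_deg
  rw [z]
  omega

theorem κ_eq : P.κ = 2 * P.y := by
  rw [κ, y]
  ring

theorem κ_le : 2000 * P.κ ≤ P.n := by
  have := P.n_ge
  rw [κ]
  omega

theorem τ_le : 384 * P.τ ≤ P.κ := by
  have := Nat.mul_le_mul_right P.τ P.s_ge
  rw [κ]
  omega

theorem U_ge : 48000 * P.s ≤ P.U := by
  have h1 := P.n_ge.trans P.n_le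
  have h2 := P.τ_pos
  rw [← mul_assoc] at h1
  exact Nat.le_of_mul_le_mul_right h1 (by omega)

theorem one_le_G : 1 ≤ P.G := P.adm.one_le_G2 _ _

theorem n_le_K (H : KB2 k P.U P.τ K) : (4 * P.n + 10 : ℝ) ≤ K := by
  have h1 : (P.n : ℝ) ≤ P.U * P.τ := by exact_mod_cast P.n_le
  have := H.lin
  linarith

theorem two_pow_le_K (H : KB2 k P.U P.τ K) {m : ℕ} (hm : m ≤ P.n) : (2 : ℝ) ^ (m / P.z) ≤ K := by
  refine (pow_le_pow_right₀ one_le_two ?_).trans H.two
  have h1 := P.n_le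
  refine Nat.div_le_of_le_mul ?_
  rw [z]
  nlinarith

theorem om_le_K (H : KB2 k P.U P.τ K) (hM : M ≠ 0) (hd : M.natDegree ≤ 4 * P.n) :
    (8 : ℝ) ^ (pf M).card ≤ K := by
  refine H.om M hM (hd.trans ?_)
  have := P.n_le
  rw [mul_assoc]
  omega

theorem w2a_le (H : KB2 k P.U P.τ K) (hF : MD P.n F) : w2a P.h P.y P.z F ≤ K := by
  have h1 := P.κ_le
  have h2 := P.τ_le
  have h3 := P.τ_pos
  have h4 := P.h_deg
  have h5 := P.κ_eq
  have h6 := P.n_le
  have h7 := hF.mul (hF.add_of_lt (h := P.h) (by omega))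
  refine H.w2a _ _ _ _ P.adm h7.ne_zero ?_ (by omega)
  rw [h7.2, mul_assoc]
  omega

theorem ν_le (H : KB2 k P.U P.τ K) (hF : MD P.n F) : P.ν F ≤ K ^ 2 := by
  have h1 := P.adm.sum_abs_pc_le P.y P.z F
  have h2 : 0 ≤ w2a P.h P.y P.z F := Finset.sum_nonneg fun _ _ => abs_nonneg _
  rw [ν, nu2_eq_sum]
  exact (Finset.sum_le_sum fun _ _ => le_abs_self _).trans
    (h1.trans (pow_le_pow_left₀ h2 (P.w2a_le H hF) 2))

theorem tS_le_K (H : KB2 k P.U P.τ K) (hF : MD P.n F) (j : ℕ) : tS P.z j F ≤ K :=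
  (tS_le hF.ne_zero (by have := P.h_lt_z; omega) j).trans (P.two_pow_le_K H hF.2.le)

/-- The sieve weight along a progression. -/
theorem perS (H : KB2 k P.U P.τ K) (α β : k[X]) {j : ℕ} (hF : ∀ m, MD j m → MD P.n (α + β * m)) :
    PerS P.z P.κ j (K ^ 2) fun m => P.ν (α + β * m) := by
  refine ⟨_, SS k P.y P.z ×ˢ SS k P.y P.z, fun x m => pc P.h P.y P.z x (α + β * m), rr,
    fun m => nu2_eq_sum _ _ _ _, fun x hx => ?_, fun m hm => ?_⟩
  · obtain ⟨h1, h2, h3⟩ := rr_spec hx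
    refine ⟨h1.ne_zero, P.κ_eq ▸ h2, h3, fun m t => ?_⟩
    have e : α + β * (m + rr x * t) = α + β * m + rr x * (β * t) := by ring
    beta_reduce
    rw [e, pc_periodic]
  · exact (P.adm.sum_abs_pc_le _ _ _).trans (pow_le_pow_left₀
      (Finset.sum_nonneg fun _ _ => abs_nonneg _) (P.w2a_le H (hF m hm)) 2)

end Par

namespace Tw

variable (c : Tw k) {K : ℝ}

theorem ab_le : c.a + c.b + 10 * c.κ ≤ c.n := by
  have := c.a_le
  have := c.b_le
  rw [Par.κ]
  omega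

theorem n1_add : c.a + c.b + c.n1 = c.n := by
  have := c.ab_le
  rw [n1]
  omega

theorem L_eq : c.L = 2 * c.κ + 76 * c.τ := by
  rw [L, Par.κ]
  omega

theorem nu_add : c.nu + 2 * c.L = c.n1 + 1 := by
  have := c.ab_le
  have := c.n1_add
  have := c.L_eq
  have := c.τ_le
  rw [nu]
  omega

theorem nu_ge : 5 * c.κ ≤ c.nu := by
  have := c.ab_le
  have := c.n1_add
  have := c.L_eq
  have := c.τ_le
  have := c.nu_add
  omega

theorem dl_add : c.dl + 1 = c.a + c.nu + c.L := by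
  have h1 : c.dl + c.b + c.L = c.n := c.I_sum
  have := c.n1_add
  have := c.nu_add
  omega

theorem dl_le : c.dl ≤ c.n := by
  have h1 : c.dl + c.b + c.L = c.n := c.I_sum
  omega

theorem len_add : c.len + 5 * c.τ = c.nu + c.L := by
  have := c.L_eq
  rw [len]
  omega

theorem len_ge : c.a + 24 * c.τ ≤ c.len + c.b + c.nu := by
  have := c.a_le
  have h2 : 2 * c.b + 20 * c.κ ≤ c.n := by
    have := c.b_le
    rw [Par.κ]
    omega
  have := c.n1_add
  have := c.L_eq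
  have := c.τ_le
  have := c.nu_add
  have := c.len_add
  omega

theorem abs_W_le (H : KB2 k c.U c.τ K) (l : k[X]) : |c.W l| ≤ K := by
  rw [W, abs_of_nonneg (Wt_nonneg _ _)]
  exact H.wt _ _ _ c.r_le c.I_le

theorem abs_Wm_le (H : KB2 k c.U c.τ K) {l : k[X]} (hl : MD c.dl l) : |c.Wm l| ≤ 2 * K := by
  have h1 := c.abs_W_le H l
  have h2 := c.dl_le
  have h3 := c.n_le
  have h4 := c.κ_le
  have h5 := c.τ_le
  have h6 := (abs_wm_le (4 * c.τ) (12 * c.τ) l).trans (H.wa _ _ l hl.ne_zero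
    (by rw [hl.2, mul_assoc]; omega) (by omega))
  rw [W] at h1
  rw [Wm]
  linarith [abs_sub (Wt c.I l) (wm (4 * c.τ) (12 * c.τ) l)]

/-- Degrees along the parametrisation. -/
theorem MD_line [CharP k 2] {c₀ m u : k[X]} (hA : MD c.a A) (hc : c₀.natDegree ≤ c.a + c.τ)
    (hm : MD c.n1 m) (hu : MD c.nu u) :
    MD (c.a + c.n1) (A * m + c₀) ∧ MD (2 * c.dl + 1) ((A * m + c₀) * A * u) ∧
      MD c.dl (od ((A * m + c₀) * A * u)) ∧ (od (c₀ * A * u)).degree < c.dl := by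
  have := c.ab_le
  have := c.n1_add
  have := c.L_eq
  have := c.τ_le
  have := c.nu_add
  have := c.dl_add
  have := c.τ_pos
  have h1 : MD (c.a + c.n1) (A * m + c₀) := (hA.mul hm).add_of_lt (by omega)
  have h2 : MD (2 * c.dl + 1) ((A * m + c₀) * A * u) := by
    have := (h1.mul hA).mul hu
    rwa [show c.a + c.n1 + c.a + c.nu = 2 * c.dl + 1 by omega] at this
  refine ⟨h1, h2, h2.od, degree_od_lt (degree_lt_of_natDegree fun _ => ?_)⟩
  have h3 : (c₀ * A * u).natDegree ≤ c₀.natDegree + A.natDegree + u.natDegree :=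
    natDegree_mul_le.trans (Nat.add_le_add_right natDegree_mul_le _)
  rw [hA.2, hu.2] at h3
  omega

/-- The modulus is constant on lines. -/
theorem od_line [CharP k 2] (A c₀ m u σ : k[X]) :
    od ((A * (m + u * σ ^ 2) + c₀) * A * u) = od ((A * m + c₀) * A * u) ∧
    (A * (m + u * σ ^ 2) + c₀) * A * u = (A * m + c₀) * A * u + (A * u * σ) ^ 2 ∧
    od ((A * m + c₀) * A * u) = A * od (m * u) + od (c₀ * A * u) := by
  have e : (A * (m + u * σ ^ 2) + c₀) * A * u = (A * m + c₀) * A * u + (A * u * σ) ^ 2 := by ring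
  refine ⟨by rw [e, od_add, od_sq, add_zero], e, ?_⟩
  rw [show (A * m + c₀) * A * u = m * u * A ^ 2 + c₀ * A * u by ring, od_add, od_mul_sq]

/-- The constant term of the parametrisation. -/
theorem c₀_spec {m₀ c₀ : k[X]} (hA : MD c.a A) (hB : MD c.b B) (hr : Rough c.z A)
    (hm : m₀.degree < c.b) (hc : B * c₀ = A * m₀ + c.h) :
    IsCoprime c₀ A ∧ c₀.natDegree ≤ c.a + c.τ := by
  constructor
  · have h1 := (hr.isCoprime c.h_ne c.h_lt_z).symm.add_mul_left_left m₀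
    rw [add_comm, ← hc] at h1
    exact h1.of_mul_left_right
  · by_cases h0 : c₀ = 0
    · simp [h0]
    have h1 : (B * c₀).natDegree = c.b + c₀.natDegree := by
      rw [natDegree_mul hB.ne_zero h0, hB.2]
    have h2 : m₀.natDegree ≤ c.b := natDegree_le_of_degree_le hm.le
    have h3 : (A * m₀).natDegree ≤ c.a + c.b := natDegree_mul_le.trans (by rw [hA.2]; omega)
    have h4 := natDegree_add_le (A * m₀) c.h
    have h5 := c.h_deg
    rw [hc] at h1
    omega

end Tw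

end Pool.Agent.Lib.MP_9227d9_nt.Mob
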