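import Pool.Agent.Lib.MP_9227d9_nt.TwB

/-! Incomplete Kloosterman sums and large common divisors. -/

namespace Pool.Agent.Lib.MP_9227d9_nt.Mob

open Polynomial

open scoped Classical

namespace TwKI

variable {k : Type} [Field k] [Fintype k]

/-- A short average is a long average with a cut-off. -/
theorem avg_cut (len e : ℕ) (G : k[X] → ℝ) :
    avg len G = qR k ^ e * avg (len + e) fun u => G u * if u.degree < len then 1 else 0 := by
  have hX : (X ^ len : k[X]) ≠ 0 := pow_ne_zero _ X_ne_zero
  have h := avg_split hX e fun u : k[X] => G u * if u.degree < len then 1 else 0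
  rw [natDegree_X_pow] at h
  rw [h, ← avg_mul_left]
  refine avg_congr fun r hr => ?_
  have h1 : ∀ t : k[X], (G (r + X ^ len * t) *
      if degree (r + X ^ len * t) < (len : WithBot ℕ) then 1 else 0) =
      if t = 0 then G r else 0 := by
    intro t
    by_cases ht : t = 0
    · simp [ht, hr]
    · have h2 : (len : WithBot ℕ) ≤ (X ^ len * t).degree := by
        rw [degree_mul, degree_X_pow]
        exact le_add_of_nonneg_right (zero_le_degree_iff.2 ht)
      rw [degree_add_eq_right_of_degree_lt (hr.trans_le h2), if_neg (not_lt.2 h2), if_neg ht,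
        mul_zero]
  simp only [h1]
  unfold avg
  rw [Finset.sum_ite_eq' (Pn k e) 0 fun _ => G r, if_pos (mem_Pn.2 (by simp))]
  have := qR_pow_pos (k := k) e
  field_simp

variable [CharP k 2]

theorem twist {M b x₀ w : k[X]} (hM : M.Monic) (hw : IsCoprime w M) (f : k[X]) :
    |avg M.natDegree fun u => kl M b (x₀ + w * u) * eM M (f * u)| =
      |avg M.natDegree fun x => kl M b x * eM M (f * invM M w * x)| := by
  have h1 := avg_affine (F := fun x => kl M b x * eM M (f * invM M w * x)) hM.ne_zero le_rfl
    (fun v t => by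
      rw [kl_congr (y := v) hM (by simp), eM_congr (y := f * invM M w * v) hM
        ⟨f * invM M w * t, by ring⟩]) hw x₀
  rw [← h1]
  have h2 : ∀ u, kl M b (x₀ + w * u) * eM M (f * invM M w * (x₀ + w * u)) =
      kl M b (x₀ + w * u) * eM M (f * u) * eM M (f * invM M w * x₀) := by
    intro u
    obtain ⟨s, hs⟩ := invM_spec hw
    rw [mul_assoc (kl M b _), ← eM_add]
    congr 1
    refine eM_congr hM ⟨f * u * s, ?_⟩
    linear_combination f * u * hs
  simp only [h2]
  rw [avg_mul_right, abs_mul, abs_eM, mul_one]

end TwKI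

theorem stKI (hS : StKS) : StKI := by
  intro k _ _ _ S M b x₀ w len hM hP hw
  rcases le_total M.natDegree len with h | h
  · have h1 := avg_affine (F := fun x => kl M b x) hM.ne_zero h
      (fun v t => kl_congr (y := v) hM (by simp) b) hw x₀
    have h2 := hS k S M b 0 hM hP
    simp only [zero_mul, eM_zero, mul_one] at h2
    rw [h1, Nat.sub_eq_zero_of_le h, pow_zero, one_mul]
    exact h2
  · rw [TwKI.avg_cut len (M.natDegree - len), Nat.add_sub_cancel' h, abs_mul,
      abs_of_pos (qR_pow_pos _)]
    refine mul_le_mul_of_nonneg_left ?_ (qR_pow_pos _).le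
    rw [avg_congr (G := fun u => avg (M.natDegree - len) fun f =>
      kl M b (x₀ + w * u) * eM M (f * u)) fun u hu => by
        rw [avg_mul_left, avg_eM hM h, (modByMonic_eq_self_iff hM).2
          (by rwa [degree_eq_natDegree hM.ne_zero])], avg_comm]
    refine abs_avg_le_of_le fun f _ => ?_
    rw [TwKI.twist hM hw]
    exact hS k S M b _ hM hP

theorem stGX : StGX := by
  intro k _ _ N y j hN hy
  have hP : ∀ S ∈ (pf N).powerset, ∀ p ∈ S, IsP p := fun S hS p hp =>
    isP_of_mem_pf (Finset.mem_powerset.1 hS hp)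
  have h1 : ∀ x : k[X], (if y < cd N x then (1 : ℝ) else 0) ≤ ∑ S ∈ (pf N).powerset,
      if y < ∑ p ∈ S, p.natDegree ∧ ∏ p ∈ S, p ∣ 1 * x + 0 then (1 : ℝ) else 0 := by
    intro x
    split_ifs with hx
    · have hm : (pf N).filter (fun p => p ∣ x) ∈ (pf N).powerset :=
        Finset.mem_powerset.2 (Finset.filter_subset _ _)
      refine le_trans ?_ (Finset.single_le_sum (fun S _ => by split_ifs <;> norm_num) hm)
      rw [if_pos ⟨hx, by
        rw [one_mul, add_zero]
        exact (prod_dvd_iff (hP _ hm)).2 fun p hp => (Finset.mem_filter.1 hp).2⟩]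
    · exact Finset.sum_nonneg fun S _ => by split_ifs <;> norm_num
  refine (avm_mono fun x _ => h1 x).trans ?_
  rw [avm_sum]
  refine (Finset.sum_le_card_nsmul _ _ (1 / qR k ^ y) fun S hS => ?_).trans ?_
  · by_cases h : y < ∑ p ∈ S, p.natDegree
    · simp only [h, true_and]
      exact avm_dvd_le (monic_prod (hP S hS)).ne_zero hy
        (by rw [natDegree_prod_isP (hP S hS)]; exact h.le) isCoprime_one_left 0
    · simp only [h, false_and, if_false]
      rw [avm_const]
      exact (one_div_pos.2 (qR_pow_pos _)).le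
  · rw [Finset.card_powerset, nsmul_eq_mul, mul_one_div]
    push_cast
    exact le_rfl

end Pool.Agent.Lib.MP_9227d9_nt.Mob
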