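import Pool.Agent.Lib.MP_9227d9_nt.TwDe

/-! The main term of one variable. -/

namespace Pool.Agent.Lib.MP_9227d9_nt.Mob

open Polynomial

open scoped Classical

namespace TwMM

theorem geom_Ico {q : ℝ} (hq : 2 ≤ q) (m N : ℕ) (h : m ≤ N) :
    ∑ t ∈ Finset.Ico m N, 1 / q ^ t ≤ 2 / q ^ m - 2 / q ^ N := by
  induction N, h using Nat.le_induction with
  | base => simp
  | succ N h ih =>
    rw [Finset.sum_Ico_succ_top h]
    have h0 : 0 < q ^ N := by positivity
    have h1 : 2 / q ^ (N + 1) ≤ 1 / q ^ N := by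
      rw [div_le_div_iff₀ (by positivity) h0, pow_succ]
      nlinarith
    have h2 : 2 / q ^ N = 1 / q ^ N + 1 / q ^ N := by ring
    linarith

theorem geom_le {q : ℝ} (hq : 2 ≤ q) (m N : ℕ) :
    ∑ t ∈ Finset.range N, (if m ≤ t then 1 / q ^ t else 0) ≤ 2 / q ^ m := by
  rw [← Finset.sum_filter]
  have h1 := geom_Ico hq m (m + N) (Nat.le_add_right _ _)
  have h2 : 0 ≤ 2 / q ^ (m + N) := by positivity
  refine le_trans (Finset.sum_le_sum_of_subset_of_nonneg (fun t ht => ?_) fun t _ _ => ?_)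
    (h1.trans (by linarith))
  · simp only [Finset.mem_filter, Finset.mem_range, Finset.mem_Ico] at ht ⊢
    omega
  · positivity

theorem geom_zero {q : ℝ} (hq : 2 ≤ q) (N : ℕ) : ∑ t ∈ Finset.range N, 1 / q ^ t ≤ 2 := by
  simpa using geom_le hq 0 N

/-- The shifted sequence. -/
noncomputable def sh (a : ℕ → ℝ) (t j : ℕ) : ℝ := if 2 * t ≤ j then a (j - 2 * t) else 0

theorem sh_nonneg {a : ℕ → ℝ} (ha : ∀ j, 0 ≤ a j) (t j : ℕ) : 0 ≤ sh a t j := by
  unfold sh
  split_ifs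
  exacts [ha _, le_rfl]

theorem sum_sh_right (a : ℕ → ℝ) (t : ℕ) (S : Finset ℕ) : ∑ j ∈ S, sh a t j =
    ∑ i ∈ (S.filter fun j => 2 * t ≤ j).image (fun j => j - 2 * t), a i := by
  rw [Finset.sum_image, Finset.sum_filter]
  · rfl
  · intro m hm m' hm' he
    simp only [Finset.coe_filter, Set.mem_ofPred_eq] at hm hm' he
    omega

theorem sum_sh_left (a : ℕ → ℝ) (j : ℕ) (S : Finset ℕ) : ∑ t ∈ S, sh a t j =
    ∑ i ∈ (S.filter fun t => 2 * t ≤ j).image (fun t => j - 2 * t), a i := by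
  rw [Finset.sum_image, Finset.sum_filter]
  · rfl
  · intro m hm m' hm' he
    simp only [Finset.coe_filter, Set.mem_ofPred_eq] at hm hm' he
    omega

section Seq

variable {σ a : ℕ → ℝ} {q E P : ℝ} {w y : ℕ}

theorem point (hq : 2 ≤ q) (ha : ∀ j, 0 ≤ a j) (hE : 0 ≤ E)
    (hP : ∀ T : Finset ℕ, ∑ i ∈ T, a i ≤ P) (hA : ∀ j : ℕ, w ≤ j → (j : ℝ) * a j ≤ E)
    (hc : ∀ j N, j < N → σ j ≤ ∑ t ∈ Finset.range N, 1 / q ^ t * sh a t j) (hy : 2 * w ≤ y) :
    (y : ℝ) * σ y ≤ 4 * E + y / q ^ (y / 4) * P := by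
  have h0 : (0 : ℝ) ≤ y := Nat.cast_nonneg _
  have h1 : ∀ t ∈ Finset.range (y + 1), (y : ℝ) * (1 / q ^ t * sh a t y) ≤
      2 * E * (1 / q ^ t) + y / q ^ (y / 4) * sh a t y := by
    intro t _
    have h2 := sh_nonneg ha t y
    have h3 : 0 ≤ 1 / q ^ t := by positivity
    by_cases h : 4 * t ≤ y
    · have h4 : sh a t y = a (y - 2 * t) := if_pos (by omega)
      have h5 := hA (y - 2 * t) (by omega)
      have h6 : (y : ℝ) ≤ 2 * ((y - 2 * t : ℕ) : ℝ) := by
        exact_mod_cast (by omega : y ≤ 2 * (y - 2 * t))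
      have h7 : (y : ℝ) * sh a t y ≤ 2 * E := by
        rw [h4]
        nlinarith [ha (y - 2 * t)]
      have h8 : 0 ≤ y / q ^ (y / 4) * sh a t y := by positivity
      nlinarith
    · have h4 : 1 / q ^ t ≤ 1 / q ^ (y / 4) :=
        one_div_le_one_div_of_le (by positivity) (pow_le_pow_right₀ (by linarith) (by omega))
      have h5 : (y : ℝ) * (1 / q ^ t * sh a t y) ≤ y * (1 / q ^ (y / 4) * sh a t y) := by gcongr
      have h6 : 0 ≤ 2 * E * (1 / q ^ t) := by positivity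
      have h7 : (y : ℝ) * (1 / q ^ (y / 4) * sh a t y) = y / q ^ (y / 4) * sh a t y := by ring
      linarith
  have h2 := mul_le_mul_of_nonneg_left (hc y (y + 1) (Nat.lt_succ_self _)) h0
  rw [Finset.mul_sum] at h2
  have h3 := Finset.sum_le_sum h1
  rw [Finset.sum_add_distrib, ← Finset.mul_sum, ← Finset.mul_sum, ← Finset.mul_sum,
    sum_sh_left] at h3
  rw [← Finset.mul_sum] at h2
  have h4 := mul_le_mul_of_nonneg_left (geom_zero hq (y + 1)) (by positivity : 0 ≤ 2 * E)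
  have h5 := mul_le_mul_of_nonneg_left
    (hP (((Finset.range (y + 1)).filter fun t => 2 * t ≤ y).image fun t => y - 2 * t))
    (by positivity : 0 ≤ (y : ℝ) / q ^ (y / 4))
  linarith

theorem tail (hq : 2 ≤ q) (ha : ∀ j, 0 ≤ a j) (hE : 0 ≤ E)
    (hP : ∀ T : Finset ℕ, ∑ i ∈ T, a i ≤ P) (hB : ∀ N, ∑ i ∈ Finset.Ico w N, a i ≤ E)
    (hc : ∀ j N, j < N → σ j ≤ ∑ t ∈ Finset.range N, 1 / q ^ t * sh a t j) (hy : 2 * w ≤ y)
    (N : ℕ) : ∑ j ∈ Finset.Ico y N, σ j ≤ 2 * E + 1 / q ^ (y / 4) * P := by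
  have hP0 : 0 ≤ P := by simpa using hP ∅
  have h1 : ∀ t ∈ Finset.range N, ∑ j ∈ Finset.Ico y N, 1 / q ^ t * sh a t j ≤
      E * (1 / q ^ t) + P * if y / 4 + 1 ≤ t then 1 / q ^ t else 0 := by
    intro t _
    have h3 : 0 ≤ 1 / q ^ t := by positivity
    rw [← Finset.mul_sum, sum_sh_right]
    split_ifs with h
    · have h4 := mul_le_mul_of_nonneg_left
        (hP (((Finset.Ico y N).filter fun j => 2 * t ≤ j).image fun j => j - 2 * t)) h3
      have h5 := mul_nonneg hE h3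
      linarith
    · have h4 : ∑ i ∈ ((Finset.Ico y N).filter fun j => 2 * t ≤ j).image (fun j => j - 2 * t),
          a i ≤ E := by
        refine le_trans (Finset.sum_le_sum_of_subset_of_nonneg (fun i hi => ?_)
          fun i _ _ => ha i) (hB N)
        simp only [Finset.mem_image, Finset.mem_filter, Finset.mem_Ico] at hi ⊢
        obtain ⟨j, hj, rfl⟩ := hi
        omega
      have h5 := mul_le_mul_of_nonneg_left h4 h3
      linarith
  have h2 : ∑ j ∈ Finset.Ico y N, σ j ≤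
      ∑ j ∈ Finset.Ico y N, ∑ t ∈ Finset.range N, 1 / q ^ t * sh a t j :=
    Finset.sum_le_sum fun j hj => hc j N (Finset.mem_Ico.1 hj).2
  rw [Finset.sum_comm] at h2
  have h3 := Finset.sum_le_sum h1
  rw [Finset.sum_add_distrib, ← Finset.mul_sum, ← Finset.mul_sum] at h3
  have h4 := mul_le_mul_of_nonneg_left (geom_zero hq N) hE
  have h5 := mul_le_mul_of_nonneg_left (geom_le hq (y / 4 + 1) N) hP0
  have h6 : 2 / q ^ (y / 4 + 1) ≤ 1 / q ^ (y / 4) := by
    have h0 : 0 < q ^ (y / 4) := by positivity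
    rw [div_le_div_iff₀ (by positivity) h0, pow_succ]
    nlinarith
  have h7 := mul_le_mul_of_nonneg_left h6 hP0
  linarith

theorem abel (m : ℕ → ℝ) (x : ℝ) (y : ℕ) :
    ∑ d ∈ Finset.range (y + 1), (x - d) * m d = (x - y) * ∑ i ∈ Finset.range (y + 1), m i +
      ∑ j ∈ Finset.range y, ∑ i ∈ Finset.range (j + 1), m i := by
  induction y with
  | zero => simp
  | succ y ih =>
    rw [Finset.sum_range_succ, ih, Finset.sum_range_succ _ (y + 1),
      Finset.sum_range_succ (fun j => ∑ i ∈ Finset.range (j + 1), m i) y]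
    push_cast
    ring

theorem le_of_tail {B : ℝ} (hs : HasSum σ P) (h : ∀ N, ∑ j ∈ Finset.Ico y N, σ j ≤ B) :
    P ≤ ∑ j ∈ Finset.range y, σ j + B := by
  refine le_of_tendsto hs.tendsto_sum_nat (Filter.eventually_atTop.2 ⟨y, fun N hN => ?_⟩)
  rw [← Finset.sum_range_add_sum_Ico σ hN]
  linarith [h N]

end Seq

variable {k : Type} [Field k] [Fintype k]

theorem adm_zero : Adm (0 : k[X]) := fun p hp => by
  have := hp.two_le_Nm
  rw [om, if_pos (dvd_zero p)]
  linarith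

theorem hp_zero (p : k[X]) : hp 0 p = 1 / (Nm p - 1) := by
  rw [hp, om, if_pos (dvd_zero p)]

theorem sum_aj_le (z : ℕ) (T : Finset ℕ) : ∑ i ∈ T, TwDe.aj (0 : k[X]) z i ≤ Pi1 k z := by
  have h1 : Pi1 k z = ∑ S ∈ (PrL k z).powerset, ∏ p ∈ S, hp 0 p := by
    rw [← Finset.prod_one_add, Pi1]
    refine Finset.prod_congr rfl fun p hp1 => ?_
    have h2 := (mem_PrL.1 hp1).1.two_le_Nm
    have h3 : Nm p - 1 ≠ 0 := by linarith
    rw [hp_zero]
    field_simp
    ring
  rw [TwDe.sum_aj, h1]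
  refine Finset.sum_le_sum fun S hS => ?_
  split_ifs
  exacts [le_rfl, TwDe.prod_nonneg adm_zero hS]

/-- The sets of small primes of given total degree. -/
noncomputable def SD (k : Type) [Field k] [Fintype k] (z i : ℕ) : Finset (Finset k[X]) :=
  (PrL k z).powerset.filter fun S => ∑ p ∈ S, p.natDegree = i

theorem card_SD_le (z i : ℕ) : ((SD k z i).card : ℝ) / qR k ^ i ≤ TwDe.aj (0 : k[X]) z i := by
  rw [div_eq_mul_one_div, ← nsmul_eq_mul, ← Finset.sum_const]
  refine Finset.sum_le_sum fun S hS => ?_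
  obtain ⟨h1, h2⟩ := Finset.mem_filter.1 hS
  rw [← h2, ← prod_Nm, one_div, ← Finset.prod_inv_distrib]
  refine Finset.prod_le_prod (fun p _ => (inv_pos.2 (Nm_pos p)).le) fun p hp1 => ?_
  have h3 := (mem_PrL.1 (Finset.mem_powerset.1 h1 hp1)).1.two_le_Nm
  rw [hp_zero, one_div]
  exact inv_anti₀ (by linarith) (by linarith)

theorem card_smth_le (z : ℕ) {j N : ℕ} (hj : j < N) :
    ((MoD k j).filter (Smth z)).card ≤ ∑ t ∈ (Finset.range N).filter (fun t => 2 * t ≤ j),
      (MoD k t).card * (SD k z (j - 2 * t)).card := by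
  have h1 : (MoD k j).filter (Smth z) ⊆ ((Finset.range N).filter fun t => 2 * t ≤ j).biUnion
      fun t => (MoD k t ×ˢ SD k z (j - 2 * t)).image fun x => x.1 ^ 2 * ∏ p ∈ x.2, p := by
    intro f hf
    obtain ⟨h1, h2⟩ := Finset.mem_filter.1 hf
    have h3 := mem_MoD.1 h1
    obtain ⟨g, u, hg, hu, hs, he⟩ := exists_sq_mul h3.1
    have h4 : j = 2 * g.natDegree + u.natDegree := by
      rw [← h3.2, he, (hg.pow 2).natDegree_mul hu, hg.natDegree_pow]
    have h5 := prod_pf hu hs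
    have h6 : ∀ p ∈ pf u, IsP p := fun p hp1 => isP_of_mem_pf hp1
    refine Finset.mem_biUnion.2 ⟨g.natDegree, Finset.mem_filter.2
      ⟨Finset.mem_range.2 (by omega), by omega⟩, Finset.mem_image.2 ⟨(g, pf u),
        Finset.mem_product.2 ⟨mem_MoD.2 ⟨hg, rfl⟩, Finset.mem_filter.2
          ⟨Finset.mem_powerset.2 fun p hp1 => mem_PrL.2 ⟨h6 p hp1, h2 p (h6 p hp1) ?_⟩, ?_⟩⟩, ?_⟩⟩
    · rw [he]
      exact ((mem_pf hu.ne_zero).1 hp1).2.mul_left _
    · rw [← natDegree_prod_isP h6, h5]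
      omega
    · simp only [h5, he]
  refine (Finset.card_le_card h1).trans (Finset.card_biUnion_le.trans
    (Finset.sum_le_sum fun t _ => ?_))
  exact Finset.card_image_le.trans (Finset.card_product _ _).le

theorem smD_le (z j N : ℕ) (hj : j < N) : smD k z j ≤
    ∑ t ∈ Finset.range N, 1 / qR k ^ t * sh (TwDe.aj (0 : k[X]) z) t j := by
  have h1 : (((MoD k j).filter (Smth z)).card : ℝ) ≤
      ∑ t ∈ (Finset.range N).filter (fun t => 2 * t ≤ j),
        ((MoD k t).card : ℝ) * (SD k z (j - 2 * t)).card := by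
    exact_mod_cast card_smth_le (k := k) z hj
  rw [smD, avm_eq_MoD, Finset.sum_boole]
  refine (div_le_div_of_nonneg_right h1 (qR_pow_pos j).le).trans ?_
  rw [Finset.sum_div, Finset.sum_filter]
  refine Finset.sum_le_sum fun t _ => ?_
  unfold sh
  split_ifs with h
  · have h2 := card_SD_le (k := k) z (j - 2 * t)
    have h3 : qR k ^ j = qR k ^ t * qR k ^ t * qR k ^ (j - 2 * t) := by
      rw [← pow_add, ← pow_add]
      congr 1
      omega
    have h4 := qR_pow_pos (k := k) t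
    have h5 := qR_pow_pos (k := k) (j - 2 * t)
    refine le_trans (le_of_eq ?_) (mul_le_mul_of_nonneg_left h2 (by positivity))
    rw [card_MoD, h3]
    field_simp
  · simp

theorem smD_nonneg (z j : ℕ) : 0 ≤ smD k z j :=
  avm_nonneg fun f _ => by split_ifs <;> norm_num

theorem smD_eq_one {z j : ℕ} (h : j < z) : smD k z j = 1 := by
  refine (avm_congr fun f hf => if_pos fun p _ hd => ?_).trans (avm_const j 1)
  have := natDegree_le_of_dvd hd hf.ne_zero
  rw [hf.2] at this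
  omega

end TwMM

open TwMM

theorem stMM (hS : StSeq) (h1 : StSm1) : StMM := by
  intro k _ _ _ z s y n hz hs hy hn hn2
  obtain ⟨hσ, hm⟩ := h1 k z
  have h0 := smD_nonneg (k := k) z
  have ha := TwDe.aj_nonneg (adm_zero (k := k)) z
  obtain ⟨hA, hB⟩ := hS (TwDe.aj (0 : k[X]) z) z s hz hs ha (TwDe.aj_rec adm_zero z)
  have hP := sum_aj_le (k := k) z
  have hP0 : 0 ≤ Pi1 k z := by simpa using hP ∅
  have he : 0 ≤ eps s := by
    unfold eps
    positivity
  have hE := mul_nonneg he hP0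
  have hT := mul_le_mul_of_nonneg_left (hP (Finset.range (8 * z))) he
  have h2 := point two_le_qR ha hE hP (w := s * z) (fun j hj => (hA j
    ((Nat.mul_le_mul_right z (Nat.sub_le s 1)).trans hj)).trans hT) (smD_le z) hy
  have h3 := le_of_tail hσ (tail two_le_qR ha hE hP (w := s * z)
    (fun N => (hB N).trans hT) (smD_le z) hy)
  have h4 := sum_le_hasSum (Finset.range y) (fun i _ => h0 i) hσ
  refine ⟨?_, ?_⟩
  · have h5 := sum_le_hasSum (Finset.range z) (fun i _ => h0 i) hσ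
    rw [Finset.sum_congr rfl fun j hj => smD_eq_one (Finset.mem_range.1 hj)] at h5
    simpa using h5
  · have h5 : (y : ℝ) ≤ n := by exact_mod_cast hn
    have h6 : (n : ℝ) ≤ 2 * y := by exact_mod_cast hn2
    have h7 : ((n : ℝ) - y) * smD k z y ≤ y * smD k z y :=
      mul_le_mul_of_nonneg_right (by linarith) (h0 y)
    have h8 : 0 ≤ ((n : ℝ) - y) * smD k z y := mul_nonneg (by linarith) (h0 y)
    have h9 : (48 * eps s + (y + 1) / qR k ^ (y / 4)) * Pi1 k z = 48 * (eps s * Pi1 k z) +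
        y / qR k ^ (y / 4) * Pi1 k z + 1 / qR k ^ (y / 4) * Pi1 k z := by ring
    have h10 := qR_pow_pos (k := k) (y / 4)
    have h11 : 0 ≤ y / qR k ^ (y / 4) * Pi1 k z := by positivity
    have h12 : 0 ≤ 1 / qR k ^ (y / 4) * Pi1 k z := by positivity
    rw [MM, abel, h9]
    simp only [hm]
    rw [abs_le]
    constructor <;> linarith

end Pool.Agent.Lib.MP_9227d9_nt.Mob
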