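import Pool.Agent.Lib.MP_9227d9_nt.TwA

/-! The mean of the sieve weight and the density of squarefree rough polynomials. -/

namespace Pool.Agent.Lib.MP_9227d9_nt.Mob

open Polynomial

open scoped Classical

namespace TwNu1

variable {k : Type} [Field k] [Fintype k]

theorem orth {h F₀ M : k[X]} {S S' : Finset k[X]} {len : ℕ} (ha : Adm h)
    (hA : ∀ p ∈ S ∪ S', IsP p ∧ ¬ p ∣ M) (hd : ∑ p ∈ S ∪ S', p.natDegree ≤ len) :
    avg len (fun t => (∏ p ∈ S, ps2 h p (F₀ + M * t)) * ∏ p ∈ S', ps2 h p (F₀ + M * t)) =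
      if S = S' then ∏ p ∈ S, hp h p else 0 := by
  have h1 : ∀ {T : Finset k[X]}, T ⊆ S ∪ S' → ∀ f : k[X] → ℝ,
      ∏ p ∈ T, f p = ∏ p ∈ S ∪ S', if p ∈ T then f p else 1 := fun hT f => by
    rw [Finset.prod_ite_mem, Finset.inter_eq_right.2 hT]
  have hper : ∀ p v t : k[X], ps2 h p (v + p * t) = ps2 h p v := fun p v t => ps2_congr (by simp)
  have h2 := avg_prod (n := len) (S ∪ S') id
    (fun p t => (if p ∈ S then ps2 h p (F₀ + M * t) else 1) *
      if p ∈ S' then ps2 h p (F₀ + M * t) else 1)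
    (fun p hp => (hA p hp).1.1.ne_zero) (fun p hp p' hp' => (hA p hp).1.isCoprime (hA p' hp').1)
    (fun p _ v t => by
      have : ps2 h p (F₀ + M * (v + id p * t)) = ps2 h p (F₀ + M * v) :=
        ps2_congr ⟨M * t, by simp only [id]; ring⟩
      simp only [this]) hd 0
  have h3 : ∀ p ∈ S ∪ S', avg p.natDegree (fun t => (if p ∈ S then ps2 h p (F₀ + M * t) else 1) *
      if p ∈ S' then ps2 h p (F₀ + M * t) else 1) = avg p.natDegree
        fun v => (if p ∈ S then ps2 h p v else 1) * if p ∈ S' then ps2 h p v else 1 :=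
    fun p hp => avg_affine
      (F := fun v => (if p ∈ S then ps2 h p v else 1) * if p ∈ S' then ps2 h p v else 1)
      (hA p hp).1.1.ne_zero le_rfl (fun v t => by simp only [hper])
      ((hA p hp).1.isCoprime_iff.2 (hA p hp).2) F₀
  simp only [zero_add, id] at h2
  simp only [h1 Finset.subset_union_left, h1 Finset.subset_union_right,
    ← Finset.prod_mul_distrib]
  rw [h2, Finset.prod_congr rfl h3]
  split_ifs with e
  · subst e
    refine Finset.prod_congr rfl fun p hp => ?_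
    split_ifs
    · simpa only [pow_two] using ha.avg_ps2_sq (hA p hp).1
    · simpa using avg_const p.natDegree 1
  · rw [Finset.ext_iff, not_forall] at e
    obtain ⟨p, hp⟩ := e
    by_cases h4 : p ∈ S
    · have h5 : p ∉ S' := fun h5 => hp (iff_of_true h4 h5)
      refine Finset.prod_eq_zero (Finset.mem_union_left _ h4) ?_
      simpa [h4, h5] using ha.avg_ps2 (hA p (Finset.mem_union_left _ h4)).1
    · have h5 : p ∈ S' := by_contra fun h5 => hp (iff_of_false h4 h5)
      refine Finset.prod_eq_zero (Finset.mem_union_right _ h5) ?_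
      simpa [h4, h5] using ha.avg_ps2 (hA p (Finset.mem_union_right _ h5)).1

omit [Fintype k] in
theorem sr_mul_le (z : ℕ) (p f : k[X]) : sr z (p * f) ≤ sr z f := by
  rw [sr_eq, sr_eq]
  split_ifs with h1 h2
  · exact le_rfl
  · exact absurd ⟨h1.1.of_mul_right, (rough_mul.1 h1.2).2⟩ h2
  · exact zero_le_one
  · exact le_rfl

theorem sum_dvd_le (z : ℕ) {p : k[X]} {m j : ℕ} (hp : MD m p) (hm : m ≤ j) :
    ∑ f ∈ (MoD k j).filter (fun f => p ∣ f), sr z f ≤ ∑ f ∈ MoD k (j - m), sr z f := by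
  have h1 : (MoD k j).filter (fun f => p ∣ f) ⊆ (MoD k (j - m)).image fun f => p * f := by
    intro f hf
    obtain ⟨h2, g, rfl⟩ := Finset.mem_filter.1 hf
    have h3 := mem_MoD.1 h2
    have h4 : g.Monic := hp.1.of_mul_monic_left h3.1
    have h5 := h3.2
    rw [hp.1.natDegree_mul h4, hp.2] at h5
    exact Finset.mem_image.2 ⟨g, mem_MoD.2 ⟨h4, by omega⟩, rfl⟩
  refine (Finset.sum_le_sum_of_subset_of_nonneg h1 fun f _ _ => sr_nonneg z f).trans ?_
  rw [Finset.sum_image fun f _ g _ e => mul_left_cancel₀ hp.ne_zero e]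
  exact Finset.sum_le_sum fun f _ => sr_mul_le z p f

theorem deg_le (z : ℕ) {f : k[X]} {j : ℕ} (hf : MD j f) :
    (j : ℝ) * sr z f ≤ ∑ m ∈ Finset.Icc z j, ∑ p ∈ PrD k m, (m : ℝ) * if p ∣ f then sr z f else 0 := by
  by_cases h0 : sr z f = 0
  · simp [h0]
  obtain ⟨hs, hr⟩ := sr_ne_zero_iff.1 h0
  have h1 : j = ∑ p ∈ pf f, p.natDegree := by
    rw [← natDegree_prod_isP fun p => isP_of_mem_pf, prod_pf hf.1 hs, hf.2]
  have h2 : ∀ p ∈ pf f, p.natDegree ∈ Finset.Icc z j := fun p hp => by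
    obtain ⟨h3, h4⟩ := (mem_pf hf.ne_zero).1 hp
    exact Finset.mem_Icc.2 ⟨hr p h3 h4, hf.2 ▸ natDegree_le_of_dvd h4 hf.ne_zero⟩
  have h3 : (j : ℝ) = ∑ m ∈ Finset.Icc z j, ∑ p ∈ (pf f).filter (fun p => p.natDegree = m),
      (p.natDegree : ℝ) := by
    rw [Finset.sum_fiberwise_of_maps_to h2]
    exact_mod_cast h1
  rw [h3, Finset.sum_mul]
  refine Finset.sum_le_sum fun m _ => le_of_eq ?_
  have h4 : (pf f).filter (fun p => p.natDegree = m) = (PrD k m).filter fun p => p ∣ f := by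
    ext p
    simp only [Finset.mem_filter, mem_pf hf.ne_zero, mem_PrD]
    tauto
  rw [Finset.sum_congr rfl (g := fun _ => (m : ℝ)) fun p hp => by rw [(Finset.mem_filter.1 hp).2],
    h4, Finset.sum_mul, Finset.sum_filter]
  exact Finset.sum_congr rfl fun p _ => by split_ifs <;> simp

theorem rec_le [CharP k 2] (z j : ℕ) :
    (j : ℝ) * avm j (fun f : k[X] => sr z f) ≤
      ∑ m ∈ Finset.Icc z j, avm (j - m) fun f : k[X] => sr z f := by
  rw [← avm_mul_left]
  refine (avm_mono fun f hf => deg_le z hf).trans ?_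
  rw [avm_sum]
  refine Finset.sum_le_sum fun m hm => ?_
  have hmj := (Finset.mem_Icc.1 hm).2
  have hc : 0 ≤ avm (j - m) fun f : k[X] => sr z f := avm_nonneg fun f _ => sr_nonneg z f
  have hq := qR_pow_pos (k := k) m
  have h1 : ∀ p ∈ PrD k m, avm j (fun f => (m : ℝ) * if p ∣ f then sr z f else 0) ≤
      (m : ℝ) * ((avm (j - m) fun f : k[X] => sr z f) / qR k ^ m) := fun p hp => by
    rw [avm_mul_left]
    refine mul_le_mul_of_nonneg_left ?_ (Nat.cast_nonneg m)
    have h2 := sum_dvd_le z (p := p) ⟨(mem_PrD.1 hp).1.1, (mem_PrD.1 hp).2⟩ hmj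
    rw [sum_MoD] at h2
    rw [avm_eq_MoD, ← Finset.sum_filter, div_le_div_iff₀ (qR_pow_pos j) hq]
    have h3 : qR k ^ j = qR k ^ (j - m) * qR k ^ m := by rw [← pow_add, Nat.sub_add_cancel hmj]
    rw [h3]
    nlinarith
  rw [avm_sum]
  refine (Finset.sum_le_sum h1).trans ?_
  rw [Finset.sum_const, nsmul_eq_mul, ← mul_assoc, mul_comm _ (m : ℝ), mul_div_assoc',
    div_le_iff₀ hq, mul_comm _ (qR k ^ m)]
  exact mul_le_mul_of_nonneg_right (card_PrD_le m) hc

end TwNu1

theorem stNu1 : StNu1 := by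
  intro k _ _ _ h F₀ M y z len ha hM hl
  have hG : G2 h y z ≠ 0 := (lt_of_lt_of_le one_pos (ha.one_le_G2 y z)).ne'
  have h1 : ∀ x ∈ SS k y z ×ˢ SS k y z, avg len (fun t => pc h y z x (F₀ + M * t)) =
      (if x.1 = x.2 then ∏ p ∈ x.1, hp h p else 0) * (G2 h y z ^ 2)⁻¹ := fun x hx => by
    obtain ⟨h2, h3⟩ := Finset.mem_product.1 hx
    obtain ⟨h4, h5⟩ := mem_SS.1 h2
    obtain ⟨h6, h7⟩ := mem_SS.1 h3
    have h8 := Finset.sum_union_inter (s₁ := x.1) (s₂ := x.2) (f := fun p : k[X] => p.natDegree)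
    rw [← TwNu1.orth (F₀ := F₀) (M := M) (len := len) ha (fun p hp => by
      have h9 := (Finset.mem_union.1 hp).elim (h4 p) (h6 p)
      exact ⟨h9.1, fun hd => absurd (hM p h9.1 hd) (not_le.2 h9.2)⟩) (by omega), ← avg_mul_right]
    rfl
  simp only [nu2_eq_sum]
  rw [avg_sum, Finset.sum_congr rfl h1, ← Finset.sum_mul, Finset.sum_product,
    Finset.sum_congr rfl (g := fun S => ∏ p ∈ S, hp h p) fun S hS => by
      simp only [Finset.sum_ite_eq, if_pos hS]]
  change G2 h y z * _ = _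
  field_simp

theorem stC1 : StC1 := by
  intro k _ _ _ z j hz
  have hz' : (0 : ℝ) < z := by exact_mod_cast hz
  induction j using Nat.strong_induction_on with
  | _ j ih =>
    intro hj
    have hj' : (0 : ℝ) < j := by exact_mod_cast hj
    have h1 := TwNu1.rec_le (k := k) z j
    refine le_of_mul_le_mul_left (h1.trans ?_) hj'
    by_cases hlt : j < z
    · rw [Finset.Icc_eq_empty (by omega), Finset.sum_empty]
      positivity
    have hle : z ≤ j := not_lt.1 hlt
    rw [← Finset.Ico_insert_right hle, Finset.sum_insert Finset.right_notMem_Ico]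
    have h2 : avm (j - j) (fun f : k[X] => sr z f) ≤ 1 := avm_le_of_le fun f _ => sr_le_one z f
    have h3 := Finset.sum_le_card_nsmul (Finset.Ico z j)
      (fun m => avm (j - m) fun f : k[X] => sr z f) (1 / z) fun m hm => by
        have := Finset.mem_Ico.1 hm
        exact ih (j - m) (by omega) (by omega)
    rw [Nat.card_Ico, nsmul_eq_mul, Nat.cast_sub hle] at h3
    have h4 : (j : ℝ) * (1 / z) = 1 + (j - z) * (1 / z) := by
      field_simp
      ring
    linarith

end Pool.Agent.Lib.MP_9227d9_nt.Mob
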