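import Pool.Agent.Lib.MP_9227d9_nt.TwB
import Pool.Agent.Lib.MP_a3f657_nt.C2LpPrime
import Pool.Agent.Lib.MP_a3f657_nt.C2SfEuler

/-! The bound for Kloosterman sums in characteristic two. -/

namespace Pool.Agent.Lib.MP_9227d9_nt.Mob

open Polynomial

open scoped Classical

namespace TwWeil

open Pool.Agent.Lib.MP_a3f657_nt.Two Pool.Agent.Lib.MP_a3f657_nt.Two.Lp
  Pool.Agent.Lib.MP_a3f657_nt.Two.Rh

variable {k : Type} [Field k] [Fintype k] [CharP k 2]

/-- Square root cancellation over the primes of degree one. -/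
theorem norm_le {M : k[X]} {K : ℕ} (χ : MulChar (RM M K) ℂ) (n : k[X]) (hM : M ≠ 0)
    {f₁ f₂ : k[X]} (h₁ : f₁.Monic) (h₂ : f₂.Monic) (hd : f₂.natDegree = f₁.natDegree)
    (c₁ : IsCoprime f₁ M) (c₂ : IsCoprime f₂ M) (hne : Psi χ n f₁ ≠ Psi χ n f₂) :
    ‖∑ᶠ p ∈ {p | GoodP M p ∧ p.natDegree ∣ 1},
      (p.natDegree : ℂ) * Psi χ n p ^ (1 / p.natDegree)‖ ≤
      ((2 * M.natDegree + (K + n.natDegree + 1) : ℕ) : ℝ) * √(Fintype.card k) := by
  have hp : ∀ p, GoodP M p → χ (clM M K p) * sgP p M n = Psi χ n p := fun p hp => by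
    rw [Psi, sg_Sk n hp]
  obtain ⟨γ, hγ, hγ'⟩ := euler {p // GoodP M p} (fun p => p.1.natDegree) (fun p => Psi χ n p.1)
    (2 * M.natDegree + (K + n.natDegree + 1)) (fun p => p.2.2.1.natDegree_pos)
    (fun n => ((finite_monic (k := k) n).preimage Subtype.val_injective.injOn).subset
      fun p hp => ⟨p.2.1, hp⟩) fun j hj => by
      rw [finsum_divisors (Psi_one χ n hM) (Psi_mul χ n)]
      exact sum_eq_zero hM _ (Psi_mul χ n) (Psi_congr χ n hM) h₁ h₂ hd c₁ c₂ hne hj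
  have := finite_RM hM K
  have hT : ∀ m, 1 ≤ m → ∑ᶠ p ∈ {p | GoodP M p ∧ p.natDegree ∣ m},
      (p.natDegree : ℂ) * Psi χ n p ^ (m / p.natDegree) = -(γ.map (· ^ m)).sum := fun m hm => by
    rw [← hγ' m hm, finsum_mem_eq_of_bijOn (s := {i : {p // GoodP M p} | i.1.natDegree ∣ m})
      (t := {p | GoodP M p ∧ p.natDegree ∣ m})
      (g := fun p => (p.natDegree : ℂ) * Psi χ n p ^ (m / p.natDegree)) Subtype.val
      ⟨fun p hp => ⟨p.2, hp⟩, Subtype.val_injective.injOn, fun p hp => ⟨⟨p, hp.1⟩, hp.2, rfl⟩⟩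
      fun _ _ => rfl]
  have hS : ∀ m, 1 ≤ m → sumP ((AdjoinRoot.root M, 1) : RM M K) (1, AdjoinRoot.root (X ^ K)) χ M
      n m = -(γ.map (· ^ m)).sum := fun m hm => by
    rw [← hT m hm, sumP]
    refine (Finset.sum_congr rfl fun a ha => ?_).trans (sum_fixF' M hm _)
    simp only [Finset.mem_filter] at ha
    rw [← hp _ (goodP_minpoly.2 ha.2), mul_pow, chiN, cl_eq_clM, sg_eq_sgP_pow n hm ha.1 ha.2]
  have h1 := rhP k _ _ _ χ M n hM (fun p h1 h2 h3 => by
    rw [cl_eq_clM]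
    exact isUnit_clM K h1 (GoodP.isCoprime ⟨h1, h2, h3⟩)) γ hS
  rw [hT 1 le_rfl, norm_neg]
  refine (norm_multiset_sum_le _).trans ((Multiset.sum_le_card_nsmul _ (√(Fintype.card k))
    fun x hx => ?_).trans ?_)
  · simp only [Multiset.map_map, Multiset.mem_map, Function.comp_apply] at hx
    obtain ⟨z, hz, rfl⟩ := hx
    rw [pow_one]
    exact h1 z hz
  · rw [Multiset.card_map, Multiset.card_map, nsmul_eq_mul]
    exact mul_le_mul_of_nonneg_right (Nat.cast_le.2 hγ) (Real.sqrt_nonneg _)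

omit [Fintype k] [CharP k 2] in
theorem goodP_lin {a : k} (ha : a ≠ 0) : GoodP X (X - C a) :=
  ⟨monic_X_sub_C a, irreducible_X_sub_C a, fun h => ha (by simpa using dvd_iff_isRoot.1 h)⟩

theorem Psi_lin (b c : k) {a : k} (ha : a ≠ 0) :
    Psi (1 : MulChar (RM (X : k[X]) 0) ℂ) (C b + C c * X ^ 2) (X - C a) =
      (ps0 (b / a + c * a) : ℝ) := by
  have h2 : (2 : k) = 0 := CharTwo.two_eq_zero
  have hg := goodP_lin ha
  rw [Psi, sg_Sk _ hg, MulChar.one_apply (isUnit_clM 0 hg.1 (GoodP.isCoprime hg)), one_mul, sgP,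
    ps0]
  have key : ∀ z : k, a * (z ^ 2 + z) + (b + c * a ^ 2) = 0 ↔ z ^ 2 + z = b / a + c * a :=
    fun z => by
      rw [CharTwo.add_eq_zero]
      constructor
      · intro h
        field_simp
        linear_combination h
      · intro h
        rw [h]
        field_simp
  have h : (∃ z : k[X], X - C a ∣ X * (z ^ 2 + z) + (C b + C c * X ^ 2)) ↔
      ∃ z : k, z ^ 2 + z = b / a + c * a := by
    constructor
    · rintro ⟨z, hz⟩
      refine ⟨z.eval a, (key _).1 ?_⟩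
      simpa using dvd_iff_isRoot.1 hz
    · rintro ⟨z, hz⟩
      refine ⟨C z, dvd_iff_isRoot.2 ?_⟩
      simpa using (key z).2 hz
  by_cases h0 : ∃ z : k, z ^ 2 + z = b / a + c * a
  · rw [if_pos h0, if_pos (h.2 h0), Complex.ofReal_one]
  · rw [if_neg h0, if_neg (mt h.1 h0), Complex.ofReal_neg, Complex.ofReal_one]

omit [CharP k 2] in
theorem finsum_lin (G : k[X] → ℂ) :
    ∑ᶠ p ∈ {p : k[X] | GoodP X p ∧ p.natDegree ∣ 1}, (p.natDegree : ℂ) * G p ^ (1 / p.natDegree) =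
      ∑ a ∈ Finset.univ.filter (fun x : k => x ≠ 0), G (X - C a) := by
  rw [← finsum_mem_coe_finset]
  refine (finsum_mem_eq_of_bijOn (fun a : k => X - C a) ⟨fun a ha => ?_, fun a _ b _ h => ?_,
    fun p hp => ?_⟩ fun a _ => ?_).symm
  · exact ⟨goodP_lin (by simpa using ha), by rw [natDegree_X_sub_C]⟩
  · simpa using h
  · have h1 := hp.1.1.eq_X_add_C (Nat.dvd_one.1 hp.2)
    refine ⟨-p.coeff 0, ?_, ?_⟩
    · simp only [Finset.coe_filter, Finset.mem_univ, true_and, Set.mem_ofPred_eq, ne_eq,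
        neg_eq_zero]
      intro h
      rw [h, C_0, add_zero] at h1
      exact hp.1.2.2 (h1 ▸ dvd_rfl)
    · simp only [C_neg, sub_neg_eq_add]
      exact h1.symm
  · simp only [natDegree_X_sub_C, Nat.cast_one, one_mul, Nat.div_one, pow_one]

/-- The phase is not constant. -/
theorem exists_ne (hk : 4 < Fintype.card k) {b : k} (hb : b ≠ 0) (c : k) :
    ∃ x y : k, x ≠ 0 ∧ y ≠ 0 ∧ ps0 (b / x + c * x) ≠ ps0 (b / y + c * y) := by
  by_contra h
  push Not at h
  have h2 : (2 : k) = 0 := CharTwo.two_eq_zero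
  obtain ⟨t, ht⟩ := exists_eval_ne_zero_of_natDegree_lt_card (X ^ 4 - X : k[X])
    (FiniteField.X_pow_card_sub_X_ne_zero k (by norm_num)) (by
      rw [FiniteField.X_pow_card_sub_X_natDegree_eq k (by norm_num), Cardinal.mk_fintype]
      exact_mod_cast hk)
  have h3 : t * (1 + t) * (t ^ 2 + t + 1) ≠ 0 := fun h0 => ht (by
    simp only [eval_sub, eval_pow, eval_X]
    linear_combination h0 - (t ^ 3 + t ^ 2 + t) * h2)
  have t0 : t ≠ 0 := left_ne_zero_of_mul (left_ne_zero_of_mul h3)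
  have t1 : 1 + t ≠ 0 := right_ne_zero_of_mul (left_ne_zero_of_mul h3)
  have t2 : t ^ 2 + t + 1 ≠ 0 := right_ne_zero_of_mul h3
  set e := ps0 (b / 1 + c * 1) with he
  have e1 : |e| = 1 := B0.abs_ps _
  have e2 : e * e = 1 := by rw [← abs_mul_abs_self, e1, mul_one]
  have h4 : ∀ u : k, u ≠ 0 → B0.ps u = e := fun u hu => by
    set x := b * (t ^ 2 + t + 1) / (t * (1 + t) * u) with hx
    have x0 : x ≠ 0 := div_ne_zero (mul_ne_zero hb t2) (mul_ne_zero (mul_ne_zero t0 t1) hu)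
    have h5 : u = (b / x + c * x) + (b / (t * x) + c * (t * x)) +
        (b / ((1 + t) * x) + c * ((1 + t) * x)) := by
      have h6 : u = b / x + b / (t * x) + b / ((1 + t) * x) := by
        have h7 : u = b * (t ^ 2 + t + 1) / (t * (1 + t) * x) := by
          rw [eq_div_iff (mul_ne_zero (mul_ne_zero t0 t1) x0), hx]
          field_simp
        rw [h7]
        field_simp
        linear_combination (-t) * h2
      linear_combination h6 - c * (1 + t) * x * h2
    rw [h5, B0.ps_add, B0.ps_add, ← ps0_eq, ← ps0_eq, ← ps0_eq, h x 1 x0 one_ne_zero,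
      h _ 1 (mul_ne_zero t0 x0) one_ne_zero, h _ 1 (mul_ne_zero t1 x0) one_ne_zero, ← he, e2,
      one_mul]
  have h8 := B0.sum_ps (K := k)
  rw [← Finset.add_sum_erase _ _ (Finset.mem_univ 0), B0.ps_zero,
    Finset.sum_congr rfl fun u hu => h4 u (Finset.ne_of_mem_erase hu), Finset.sum_const,
    Finset.card_erase_of_mem (Finset.mem_univ _), Finset.card_univ, nsmul_eq_mul,
    Nat.cast_pred (by omega)] at h8
  have h9 : (4 : ℝ) < Fintype.card k := by exact_mod_cast hk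
  rcases eq_or_eq_neg_of_abs_eq e1 with h0 | h0 <;> rw [h0] at h8 <;> linarith

end TwWeil

open TwWeil Pool.Agent.Lib.MP_a3f657_nt.Two.Lp in
theorem stWeil : StWeil := by
  intro F _ _ _ b c hb
  have hq : (0 : ℝ) ≤ Fintype.card F := Nat.cast_nonneg _
  rcases le_or_gt (Fintype.card F) 4 with hk | hk
  · have h1 : |∑ x ∈ Finset.univ.filter (fun x : F => x ≠ 0), ps0 (b / x + c * x)| ≤
        Fintype.card F := by
      refine (Finset.abs_sum_le_sum_abs _ _).trans ?_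
      simp only [ps0_eq, B0.abs_ps, Finset.sum_const, nsmul_eq_mul, mul_one]
      exact_mod_cast Finset.card_le_univ _
    have h2 : √(Fintype.card F : ℝ) ≤ 5 := by
      have : (Fintype.card F : ℝ) ≤ 4 := by exact_mod_cast hk
      exact Real.sqrt_le_iff.2 ⟨by norm_num, by linarith⟩
    have h3 := Real.mul_self_sqrt hq
    have h4 := Real.sqrt_nonneg (Fintype.card F : ℝ)
    nlinarith
  obtain ⟨x, y, hx, hy, hne⟩ := exists_ne hk hb c
  have h1 := norm_le (1 : MulChar (Pool.Agent.Lib.MP_a3f657_nt.Two.RM (X : F[X]) 0) ℂ)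
    (C b + C c * X ^ 2) X_ne_zero (monic_X_sub_C x) (monic_X_sub_C y)
    (by rw [natDegree_X_sub_C, natDegree_X_sub_C]) (GoodP.isCoprime (goodP_lin hx))
    (GoodP.isCoprime (goodP_lin hy)) (by
      rw [Psi_lin b c hx, Psi_lin b c hy]
      exact_mod_cast hne)
  rw [finsum_lin, Finset.sum_congr rfl fun a ha => Psi_lin b c (Finset.mem_filter.1 ha).2,
    ← Complex.ofReal_sum, Complex.norm_real, Real.norm_eq_abs] at h1
  refine h1.trans (mul_le_mul_of_nonneg_right ?_ (Real.sqrt_nonneg _))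
  have h2 : (C b + C c * X ^ 2 : F[X]).natDegree ≤ 2 := by compute_degree
  rw [natDegree_X]
  exact_mod_cast (by omega : 2 * 1 + (0 + (C b + C c * X ^ 2 : F[X]).natDegree + 1) ≤ 5)

end Pool.Agent.Lib.MP_9227d9_nt.Mob
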