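import Pool.Agent.Lib.MP_9227d9_nt.MobA
import Pool.Agent.Lib.MP_9227d9_nt.MobA1
import Pool.Agent.Lib.MP_9227d9_nt.MobA2
import Pool.Agent.Lib.MP_9227d9_nt.MobB
import Pool.Agent.Lib.MP_9227d9_nt.MobB0
import Pool.Agent.Lib.MP_9227d9_nt.MobD
import Pool.Agent.Lib.MP_9227d9_nt.MobDa
import Pool.Agent.Lib.MP_9227d9_nt.MobVar
import Pool.Agent.Lib.MP_9227d9_nt.MobK
import Pool.Agent.Lib.MP_9227d9_nt.MobS
import Pool.Agent.Lib.MP_9227d9_nt.MobM1
import Pool.Agent.Lib.MP_9227d9_nt.MobM4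
import Pool.Agent.Lib.MP_9227d9_nt.TwCell
import Pool.Agent.Lib.MP_9227d9_nt.TwColl
import Pool.Agent.Lib.MP_9227d9_nt.TwOff
import Pool.Agent.Lib.MP_9227d9_nt.TwKD
import Pool.Agent.Lib.MP_9227d9_nt.TwCore
import Pool.Agent.Lib.MP_9227d9_nt.TwLim
import Pool.Agent.Lib.MP_9227d9_nt.TwRep
import Pool.Agent.Lib.MP_9227d9_nt.TwKF
import Pool.Agent.Lib.MP_9227d9_nt.TwWeil
import Pool.Agent.Lib.MP_9227d9_nt.TwSing
import Pool.Agent.Lib.MP_9227d9_nt.TwK2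
import Pool.Agent.Lib.MP_9227d9_nt.TwMM
import Pool.Agent.Lib.MP_9227d9_nt.TwIns
import Pool.Agent.Lib.MP_9227d9_nt.TwSm1
import Pool.Agent.Lib.MP_9227d9_nt.TwPar
import Pool.Agent.Lib.MP_9227d9_nt.TwEX
import Pool.Agent.Lib.MP_9227d9_nt.TwLine
import Pool.Agent.Lib.MP_9227d9_nt.TwKp
import Pool.Agent.Lib.MP_9227d9_nt.TwKI
import Pool.Agent.Lib.MP_9227d9_nt.TwKt
import Pool.Agent.Lib.MP_9227d9_nt.TwTK
import Pool.Agent.Lib.MP_9227d9_nt.TwUse
import Pool.Agent.Lib.MP_9227d9_nt.TwSeq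
import Pool.Agent.Lib.MP_9227d9_nt.TwNu1
import Pool.Agent.Lib.MP_9227d9_nt.TwK1
import Pool.Agent.Lib.MP_9227d9_nt.TwA3
import Pool.Agent.Lib.MP_9227d9_nt.TwDe
import Pool.Agent.Lib.MP_9227d9_nt.TwSel
import Pool.Agent.Lib.MP_9227d9_nt.TwTri

/-! Assembly of the modules. -/

namespace Pool.Agent.Lib.MP_9227d9_nt.Mob

theorem twKI : StKI := stKI (stKS (stKp stWeil))

theorem twRed : StRed := stRed stPar1

theorem twTK : StTK :=
  stTK twRed (stKD (stK1 twKI stGX stPar1) (stKt twKI) stKF stDec stSQ) stNu1 stEX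

theorem twUse : StUse :=
  stUse (stIns (stD stDa) (stCell stS stSQ stEX stM1) stColl stPar2) stM4

theorem twEX1 : StEX1 := stEX1 stSQ stEX

theorem twDe : StDe := stDe stSeq

theorem twCore : StCore2 :=
  stCore2 (stRep stSQ) twDe twTK stIex (stA2' twRed stPar2 twUse (stOn twEX1))
    (stA3' twRed stPar2 twUse (stOff twEX1 stEX2)) (stDiag twRed stPar2 stNu1 stC1)

theorem twLim : StLim :=
  stLim twCore (stK2 stVar stM5 stOm) (stLine (stA stA1 (stA2 stA2n)) (stB stB0))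
    (stMM stSeq (stSm1 stPar1)) twDe

theorem twMain : StTwin := stTwin stSing twLim

theorem twSel : StSel := stSel stSeq

theorem twPol : StPol := stPol twMain (stTri twSel (stMM stSeq (stSm1 stPar1)))

end Pool.Agent.Lib.MP_9227d9_nt.Mob
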