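import Pool.Agent.Lib.MP_9227d9_nt.TwA
import Pool.Agent.Lib.MP_9227d9_nt.MobB0

/-! Additive characters and Kloosterman fractions. -/

namespace Pool.Agent.Lib.MP_9227d9_nt.Mob

open Polynomial

open scoped Classical

variable {k : Type} [Field k] [Fintype k] [CharP k 2] {M A b x y : k[X]}

omit [Fintype k] [CharP k 2] in
theorem ps0_eq (t : k) : ps0 t = B0.ps t := rfl

theorem eM_add (M x y : k[X]) : eM M (x + y) = eM M x * eM M y := by
  unfold eM
  rw [add_modByMonic, coeff_add]
  exact B0.ps_add _ _

omit [Fintype k] [CharP k 2] in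
theorem abs_eM (M x : k[X]) : |eM M x| = 1 := by
  unfold eM ps0
  split_ifs <;> simp

omit [Fintype k] [CharP k 2] in
theorem eM_zero (M : k[X]) : eM M 0 = 1 := by
  unfold eM ps0
  exact if_pos ⟨0, by simp⟩

omit [Fintype k] [CharP k 2] in
theorem eM_congr (hM : M.Monic) (h : M ∣ x - y) : eM M x = eM M y := by
  unfold eM
  rw [modByMonic_eq_of_dvd_sub hM h]

omit [Fintype k] [CharP k 2] in
theorem eM_mul (hM : M.Monic) (hA : A.Monic) (x : k[X]) : eM (M * A) (x * A) = eM M x := by
  have h1 : (x * A) %ₘ (M * A) = (x %ₘ M) * A := by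
    refine (div_modByMonic_unique (x /ₘ M) _ (hM.mul hA) ⟨?_, ?_⟩).2
    · conv_rhs => rw [← modByMonic_add_div x M]
      ring
    · rw [degree_mul, degree_mul]
      exact WithBot.add_lt_add_right (degree_ne_bot.2 hA.ne_zero) (degree_modByMonic_lt x hM)
  unfold eM
  rw [h1]
  congr 1
  by_cases h : M = 1
  · subst h
    simp
  · have h2 := natDegree_modByMonic_lt x hM h
    rw [hM.natDegree_mul hA,
      show M.natDegree + A.natDegree - 1 = M.natDegree - 1 + A.natDegree by omega,
      coeff_mul_add_eq_of_natDegree_le (by omega) le_rfl, hA.coeff_natDegree, mul_one]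

omit [Fintype k] [CharP k 2] in
theorem TwB.eM_of_lt (hM : M.Monic) (h : x.degree < M.degree) :
    eM M x = ps0 (x.coeff (M.natDegree - 1)) := by
  unfold eM
  rw [(modByMonic_eq_self_iff hM).2 h]

omit [Fintype k] [CharP k 2] in
theorem eM_small (hM : M.Monic) (h : x.natDegree + 1 < M.natDegree) : eM M x = 1 := by
  rw [TwB.eM_of_lt hM (degree_lt_degree (by omega)), coeff_eq_zero_of_natDegree_lt (by omega)]
  exact if_pos ⟨0, by simp⟩

theorem TwB.exists_ps0 : ∃ t : k, ps0 t = -1 := by
  by_contra h
  have h1 : ∀ t : k, B0.ps t = 1 := by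
    intro t
    by_contra h2
    refine h ⟨t, ?_⟩
    rw [ps0_eq]
    unfold B0.ps at h2 ⊢
    split_ifs at h2 ⊢ <;> simp_all
  have h2 := B0.sum_ps (K := k)
  simp only [h1, Finset.sum_const, Finset.card_univ, nsmul_eq_mul, mul_one,
    Nat.cast_eq_zero] at h2
  exact Fintype.card_ne_zero h2

/-- Orthogonality. -/
theorem avg_eM (hM : M.Monic) {m : ℕ} (hm : m ≤ M.natDegree) (x : k[X]) :
    avg (M.natDegree - m) (fun f => eM M (f * x)) = if (x %ₘ M).degree < m then 1 else 0 := by
  have hc : ∀ f : k[X], eM M (f * x) = eM M (f * (x %ₘ M)) := fun f =>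
    eM_congr hM ⟨f * (x /ₘ M), by
      conv_lhs => rw [← modByMonic_add_div x M]
      rw [add_modByMonic, (modByMonic_eq_self_iff hM).2 (degree_modByMonic_lt x hM),
        self_mul_modByMonic hM]
      ring⟩
  simp only [hc]
  have hlt := degree_modByMonic_lt x hM
  generalize x %ₘ M = r at hlt
  split_ifs with h
  · rw [avg_congr (G := fun _ => 1), avg_const]
    intro f hf
    by_cases h0 : f * r = 0
    · rw [h0, eM_zero]
    · have h1 := natDegree_lt_of_degree (left_ne_zero_of_mul h0) hf
      have h2 := natDegree_lt_of_degree (right_ne_zero_of_mul h0) h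
      have h3 := natDegree_mul_le (p := f) (q := r)
      exact eM_small hM (by omega)
  · have hr : r ≠ 0 := fun h0 => h (by simp [h0])
    have h1 : m ≤ r.natDegree := by
      rw [degree_eq_natDegree hr, not_lt] at h
      exact_mod_cast h
    have h2 : r.natDegree < M.natDegree := natDegree_lt_natDegree hr hlt
    obtain ⟨t, ht⟩ := TwB.exists_ps0 (k := k)
    have hl : r.leadingCoeff ≠ 0 := leadingCoeff_ne_zero.2 hr
    set c : k[X] := C (t / r.leadingCoeff) * X ^ (M.natDegree - 1 - r.natDegree) with hcd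
    have h3 : c.natDegree ≤ M.natDegree - 1 - r.natDegree := natDegree_C_mul_X_pow_le _ _
    have h4 : eM M (c * r) = -1 := by
      have h5 := natDegree_mul_le (p := c) (q := r)
      rw [TwB.eM_of_lt hM (degree_lt_degree (by omega)),
        show M.natDegree - 1 = M.natDegree - 1 - r.natDegree + r.natDegree by omega,
        coeff_mul_add_eq_of_natDegree_le h3 le_rfl, hcd, coeff_C_mul_X_pow, if_pos rfl,
        coeff_natDegree, div_mul_cancel₀ _ hl, ht]
    have h5 := avg_shift (F := fun f => eM M (f * r)) (n := M.natDegree - m) (c := c)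
      (degree_lt_of_natDegree fun _ => by omega)
    simp only [add_mul, eM_add, h4] at h5
    rw [avg_mul_right] at h5
    linarith

theorem exists_eM_ne_one (hM : M.Monic) (h : 0 < M.natDegree) : ∃ x, eM M x = -1 := by
  obtain ⟨t, ht⟩ := TwB.exists_ps0 (k := k)
  refine ⟨C t * X ^ (M.natDegree - 1), ?_⟩
  have h1 := natDegree_C_mul_X_pow_le t (M.natDegree - 1)
  rw [TwB.eM_of_lt hM (degree_lt_degree (by omega)), coeff_C_mul_X_pow, if_pos rfl, ht]

omit [Fintype k] [CharP k 2] in
theorem invM_spec (h : IsCoprime x M) : M ∣ x * invM M x - 1 := by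
  obtain ⟨c, hc⟩ := h.choose_spec
  unfold invM
  rw [dif_pos h]
  exact ⟨-c, by linear_combination hc⟩

omit [Fintype k] [CharP k 2] in
theorem isCoprime_invM (h : IsCoprime x M) : IsCoprime (invM M x) M := by
  obtain ⟨c, hc⟩ := invM_spec h
  exact ⟨x, -c, by linear_combination hc⟩

omit [Fintype k] [CharP k 2] in
theorem abs_kl_le (M b x : k[X]) : |kl M b x| ≤ 1 := by
  unfold kl
  split_ifs
  · exact (abs_eM _ _).le
  · simp

omit [Fintype k] [CharP k 2] in
theorem kl_of_not (h : ¬ IsCoprime x M) (b : k[X]) : kl M b x = 0 := by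
  unfold kl
  exact if_neg h

omit [Fintype k] [CharP k 2] in
theorem kl_eq (hM : M.Monic) (h : IsCoprime x M) (hy : M ∣ x * y - b) : kl M b x = eM M y := by
  unfold kl
  rw [if_pos h]
  refine eM_congr hM ?_
  have e : b * invM M x - y = y * (x * invM M x - 1) - (x * y - b) * invM M x := by ring
  rw [e]
  exact dvd_sub ((invM_spec h).mul_left _) (hy.mul_right _)

omit [Fintype k] [CharP k 2] in
theorem kl_congr (hM : M.Monic) (h : M ∣ x - y) (b : k[X]) : kl M b x = kl M b y := by
  obtain ⟨c, hc⟩ := h
  by_cases hx : IsCoprime x M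
  · have hy : IsCoprime y M := by
      obtain ⟨u, v, huv⟩ := hx
      exact ⟨u, v + u * c, by linear_combination huv - u * hc⟩
    have e : y * (b * invM M x) - b = b * (x * invM M x - 1) - M * (c * b * invM M x) := by
      linear_combination (-(b * invM M x)) * hc
    rw [kl_eq (y := b * invM M x) hM hy
      (e ▸ dvd_sub ((invM_spec hx).mul_left _) (dvd_mul_right _ _))]
    exact if_pos hx
  · have hy : ¬ IsCoprime y M := by
      rintro ⟨u, v, huv⟩
      exact hx ⟨u, v - u * c, by linear_combination huv + u * hc⟩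
    rw [kl_of_not hx, kl_of_not hy]

/-- Chinese remainder theorem for the character. -/
theorem eM_crt (hM : M.Monic) (hA : A.Monic) (h : IsCoprime M A) (x : k[X]) :
    eM (M * A) x = eM M (x * invM M A) * eM A (x * invM A M) := by
  have h1 : M * A ∣ A * invM M A + M * invM A M - 1 := by
    refine h.mul_dvd ?_ ?_
    · rw [add_sub_right_comm]
      exact dvd_add (invM_spec h.symm) (dvd_mul_right _ _)
    · rw [add_sub_assoc]
      exact dvd_add (dvd_mul_right _ _) (invM_spec h)
  have e : x * invM M A * A + x * invM A M * M - x =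
      x * (A * invM M A + M * invM A M - 1) := by ring
  rw [← eM_congr (hM.mul hA) (e ▸ h1.mul_left x), eM_add, eM_mul hM hA, mul_comm M A,
    eM_mul hA hM]

/-- Chinese remainder theorem for Kloosterman fractions. -/
theorem kl_crt (hM : M.Monic) (hA : A.Monic) (h : IsCoprime M A) (b x : k[X]) :
    kl (M * A) b x = kl M (b * invM M A) x * kl A (b * invM A M) x := by
  by_cases hx : IsCoprime x (M * A)
  · have h1 := invM_spec hx
    have e : ∀ u N : k[X], N ∣ M * A → N ∣ x * (b * invM (M * A) x * u) - b * u := by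
      intro u N hN
      have e1 : x * (b * invM (M * A) x * u) - b * u =
          b * u * (x * invM (M * A) x - 1) := by ring
      rw [e1]
      exact (hN.trans h1).mul_left _
    rw [kl_eq hM hx.of_mul_right_left (e _ _ (dvd_mul_right M A)),
      kl_eq hA hx.of_mul_right_right (e _ _ (dvd_mul_left A M)), ← eM_crt hM hA h]
    exact if_pos hx
  · rw [kl_of_not hx]
    by_cases h1 : IsCoprime x M
    · rw [kl_of_not (M := A) fun h2 => hx (h1.mul_right h2), mul_zero]
    · rw [kl_of_not h1, zero_mul]

/-- Reciprocity. -/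
theorem kl_recip (hM : M.Monic) (hA : A.Monic) (h : b.natDegree + 1 < M.natDegree + A.natDegree) :
    kl M b A = kl A b M := by
  by_cases hc : IsCoprime M A
  · have h1 := eM_crt hM hA hc b
    rw [eM_small (hM.mul hA) (by rwa [hM.natDegree_mul hA])] at h1
    unfold kl
    rw [if_pos hc.symm, if_pos hc]
    have h2 := abs_eM A (b * invM A M)
    generalize eM A (b * invM A M) = v at h1 h2
    generalize eM M (b * invM M A) = u at h1
    rcases (abs_eq zero_le_one).1 h2 with rfl | rfl <;> linarith
  · rw [kl_of_not hc, kl_of_not fun h1 => hc h1.symm]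

/-- Product of two fractions. -/
theorem kl_mul_kl {A' C : k[X]} (hA : A.Monic) (hA' : A'.Monic) (hC : C.Monic) (b x : k[X]) :
    kl (A * C) b x * kl (A' * C) b x = kl (A * A' * C) (b * (A + A')) x := by
  by_cases hx : IsCoprime x (A * A' * C)
  · have h1 := invM_spec hx
    have d1 : A * C ∣ A * A' * C := ⟨A', by ring⟩
    have d2 : A' * C ∣ A * A' * C := ⟨A, by ring⟩
    have e : x * (b * invM (A * A' * C) x) - b = b * (x * invM (A * A' * C) x - 1) := by ring
    rw [kl_eq (y := b * invM (A * A' * C) x) (hA.mul hC) (hx.of_isCoprime_of_dvd_right d1)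
        (e ▸ (d1.trans h1).mul_left _),
      kl_eq (y := b * invM (A * A' * C) x) (hA'.mul hC) (hx.of_isCoprime_of_dvd_right d2)
        (e ▸ (d2.trans h1).mul_left _),
      ← eM_mul (hA.mul hC) hA', ← eM_mul (hA'.mul hC) hA,
      show A * C * A' = A * A' * C by ring, show A' * C * A = A * A' * C by ring, ← eM_add]
    unfold kl
    rw [if_pos hx]
    congr 1
    ring
  · rw [kl_of_not hx]
    by_cases h1 : IsCoprime x (A * C)
    · rw [kl_of_not (M := A' * C) fun h2 =>
        hx (h1.of_mul_right_left.mul_right h2.of_mul_right_left |>.mul_right h2.of_mul_right_right),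
        mul_zero]
    · rw [kl_of_not h1, zero_mul]

end Pool.Agent.Lib.MP_9227d9_nt.Mob
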