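import Pool.Agent.Lib.MP_9227d9_nt.MobOd

/-!
Prime pairs over finite fields of characteristic two
(definitions and statements of the modules).
-/

namespace Pool.Agent.Lib.MP_9227d9_nt.Mob

open Polynomial

open scoped Classical

section Defs

/-- The monic polynomials of degree `j`. -/
noncomputable def MoD (k : Type) [Field k] [Fintype k] (j : ℕ) : Finset k[X] :=
  (Mo k j).filter fun f => f.natDegree = j

variable {k : Type} [Field k] [Fintype k]

/-- All prime factors have degree at least `z`. -/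
def Rough (z : ℕ) (f : k[X]) : Prop := ∀ p, IsP p → p ∣ f → z ≤ p.natDegree

/-- All prime factors have degree less than `z`. -/
def Smth (z : ℕ) (f : k[X]) : Prop := ∀ p, IsP p → p ∣ f → p.natDegree < z

/-- Indicator of rough polynomials. -/
noncomputable def rI (z : ℕ) (f : k[X]) : ℝ := if Rough z f then 1 else 0

/-- Indicator of squarefree rough polynomials. -/
noncomputable def sr (z : ℕ) (f : k[X]) : ℝ := mu f ^ 2 * rI z f

/-- Moebius function on the rough divisors of degree `j`. -/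
noncomputable def aS (z j : ℕ) (F : k[X]) : ℝ :=
  ∑ A ∈ (MoD k j).filter (fun A => A ∣ F), mu A * rI z A

/-- Moebius function on the cofactors of the rough divisors of degree `j`. -/
noncomputable def bS (z j : ℕ) (F : k[X]) : ℝ :=
  ∑ A ∈ (MoD k j).filter (fun A => A ∣ F), sr z A * mu (F / A)

/-- The number of squarefree rough divisors of degree `j`. -/
noncomputable def tS (z j : ℕ) (F : k[X]) : ℝ :=
  ∑ A ∈ (MoD k j).filter (fun A => A ∣ F), sr z A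

/-- The number of roots of `F (F + h)` modulo `p`. -/
noncomputable def om (h p : k[X]) : ℝ := if p ∣ h then 1 else 2

/-- No local obstruction. -/
def Adm (h : k[X]) : Prop := ∀ p, IsP p → 2 * om h p ≤ Nm p

/-- The relative density. -/
noncomputable def hp (h p : k[X]) : ℝ := om h p / (Nm p - om h p)

/-- The mean zero local function of the two dimensional sieve. -/
noncomputable def ps2 (h p F : k[X]) : ℝ := if p ∣ F * (F + h) then -1 else hp h p

/-- The square root of the sieve weight, not normalised. -/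
noncomputable def w2 (h : k[X]) (y z : ℕ) (F : k[X]) : ℝ := ∑ S ∈ SS k y z, ∏ p ∈ S, ps2 h p F

/-- Its majorant. -/
noncomputable def w2a (h : k[X]) (y z : ℕ) (F : k[X]) : ℝ :=
  ∑ S ∈ SS k y z, |∏ p ∈ S, ps2 h p F|

/-- The normalisation. -/
noncomputable def G2 (h : k[X]) (y z : ℕ) : ℝ := ∑ S ∈ SS k y z, ∏ p ∈ S, hp h p

/-- The sieve weight. -/
noncomputable def nu2 (h : k[X]) (y z : ℕ) (F : k[X]) : ℝ := (w2 h y z F / G2 h y z) ^ 2

/-- The difference between the upper and the lower sieve weight. -/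
noncomputable def De (h : k[X]) (y z : ℕ) (F : k[X]) : ℝ :=
  (((PrL k z).filter fun p => p ∣ F * (F + h)).card : ℝ) * nu2 h y z F

/-- One piece of the sieve weight. -/
noncomputable def pc (h : k[X]) (y z : ℕ) (x : Finset k[X] × Finset k[X]) (F : k[X]) : ℝ :=
  (∏ p ∈ x.1, ps2 h p F) * (∏ p ∈ x.2, ps2 h p F) / G2 h y z ^ 2

/-- The period of a piece. -/
noncomputable def rr (x : Finset k[X] × Finset k[X]) : k[X] := (∏ p ∈ x.1, p) * ∏ p ∈ x.2, p

/-- The error of the fundamental lemma. -/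
noncomputable def eps (s : ℕ) : ℝ := 8 ^ s / ((s - 2).factorial : ℝ)

/-- The mean of the Moebius function on rough polynomials. -/
noncomputable def mm (k : Type) [Field k] [Fintype k] (z j : ℕ) : ℝ :=
  avm j fun D : k[X] => mu D * rI z D

/-- The density of smooth polynomials. -/
noncomputable def smD (k : Type) [Field k] [Fintype k] (z j : ℕ) : ℝ :=
  avm j fun D : k[X] => if Smth z D then 1 else 0

/-- The main term of one variable. -/
noncomputable def MM (k : Type) [Field k] [Fintype k] (z y n : ℕ) : ℝ :=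
  ∑ d ∈ Finset.range (y + 1), ((n : ℝ) - d) * mm k z d

/-- The Mertens product. -/
noncomputable def Pi1 (k : Type) [Field k] [Fintype k] (z : ℕ) : ℝ :=
  ∏ p ∈ PrL k z, Nm p / (Nm p - 1)

/-- The two dimensional Mertens product. -/
noncomputable def Pi2 (h : k[X]) (z : ℕ) : ℝ := ∏ p ∈ PrL k z, (1 + hp h p)

/-- Indicator of prime pairs. -/
noncomputable def tw (h F : k[X]) : ℝ := if Irreducible F ∧ Irreducible (F + h) then 1 else 0

/-- The local factor of the singular series. -/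
noncomputable def fac (h p : k[X]) : ℝ := (1 - om h p / Nm p) / (1 - 1 / Nm p) ^ 2

/-- The nontrivial character of `k` that is trivial on the values of `z ^ 2 + z`. -/
noncomputable def ps0 {K : Type} [Field K] (x : K) : ℝ := if ∃ z : K, z ^ 2 + z = x then 1 else -1

/-- The additive character `e(x / M)`. -/
noncomputable def eM (M x : k[X]) : ℝ := ps0 ((x %ₘ M).coeff (M.natDegree - 1))

/-- An inverse of `x` modulo `M`. -/
noncomputable def invM (M x : k[X]) : k[X] := if h : IsCoprime x M then h.choose else 0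

/-- The Kloosterman fraction `e(b x⁻¹ / M)`. -/
noncomputable def kl (M b x : k[X]) : ℝ := if IsCoprime x M then eM M (b * invM M x) else 0

/-- Total degree of the primes that divide both. -/
noncomputable def cd (N x : k[X]) : ℕ := ∑ p ∈ (pf N).filter (fun p => p ∣ x), p.natDegree

/-- Bilinear form with Kloosterman fractions. -/
noncomputable def KBi (d e : ℕ) (α β : k[X] → ℝ) (b r : k[X]) : ℝ :=
  avm d fun D => avm e fun E => α D * β E * kl E b (D * r)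

/-- Discrepancy of the count of solutions of `E ∣ D Y + h`. -/
noncomputable def disc (h : k[X]) (d e y : ℕ) (α β φ : k[X] → ℝ) : ℝ :=
  avm d fun D => avm e fun E => if IsCoprime D E then α D * β E *
    (qR k ^ e * avm y (fun Y => if E ∣ D * Y + h then φ (D * Y) else 0) -
      avm y fun Y => φ (D * Y)) else 0

/-- The type I function that agrees with the Moebius function on rough polynomials with a very
large prime factor. -/
noncomputable def gS (z γ : ℕ) (D : k[X]) : ℝ :=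
  -∑ S ∈ (pf D).powerset.filter (fun S => ∑ p ∈ S, p.natDegree < γ), ∏ p ∈ S, (-1 - rI z p)

/-- Mean over the triples `(A, B, m)` with `B ∣ A m + h`. -/
noncomputable def E3 (h : k[X]) (z n a b : ℕ) (Φ : k[X] → k[X] → k[X] → ℝ) : ℝ :=
  qR k ^ b * avm a fun A => avm b fun B => avm (n - a) fun m =>
    if B ∣ A * m + h then sr z A * sr z B * Φ A B m else 0

/-- `φ` is a sum of pieces with small smooth periods. -/
def PerS (z κ n : ℕ) (K : ℝ) (φ : k[X] → ℝ) : Prop :=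
  ∃ (ι : Type) (T : Finset ι) (f : ι → k[X] → ℝ) (r : ι → k[X]), (∀ m, φ m = ∑ i ∈ T, f i m) ∧
    (∀ i ∈ T, r i ≠ 0 ∧ (r i).natDegree ≤ κ ∧ Smth z (r i) ∧ ∀ m t, f i (m + r i * t) = f i m) ∧
    ∀ m, MD n m → ∑ i ∈ T, |f i m| ≤ K

/-- The deviation of the weight from its mean on a progression. -/
noncomputable def Ph {ι : Type} [Fintype ι] (I : ι → ℕ) (len : ℕ) (θ : ℝ) (M x : k[X]) : ℝ :=
  if IsCoprime x M then |avg len (fun t => Wt I (x + M * t)) - θ * cM M| else 0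

/-- `K` bounds all the polynomial and subexponential factors at scale `τ`. -/
structure KB2 (k : Type) [Field k] [Fintype k] (U τ : ℕ) (K : ℝ) : Prop where
  lin : (4 * U * τ + 10 : ℝ) ≤ K
  two : (2 : ℝ) ^ U ≤ K
  om : ∀ M : k[X], M ≠ 0 → M.natDegree ≤ 4 * U * τ → (8 : ℝ) ^ (pf M).card ≤ K
  wa : ∀ (y z : ℕ) (l : k[X]), l ≠ 0 → l.natDegree ≤ 4 * U * τ → y ≤ U * τ → wa y z l ≤ K
  w2a : ∀ (h : k[X]) (y z : ℕ) (F : k[X]), Adm h → F * (F + h) ≠ 0 →
    (F * (F + h)).natDegree ≤ 4 * U * τ → y ≤ U * τ → w2a h y z F ≤ K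
  wt : ∀ (r : ℕ) (I : Fin r → ℕ) (l : k[X]), r ≤ U → (∀ i, I i ≤ 32 * τ) → Wt I l ≤ K
  var : ∀ (r : ℕ) (I : Fin r → ℕ) (M : k[X]) (len : ℕ), r ≤ U → (∀ i, 12 * τ ≤ I i) →
    (∀ i, I i ≤ 32 * τ) → M ≠ 0 → M.natDegree + len ≤ ∑ i, I i →
    ∃ θ : ℝ, |θ - 1| ≤ K / qR k ^ (6 * τ) ∧
      avm (∑ i, I i) (fun b => Ph I len θ M b ^ 2) ≤ K / qR k ^ len

/-- Cancellation on good lines. -/
def LineOK (k : Type) [Field k] [Fintype k] [CharP k 2] (U τ : ℕ) (sv : ℝ) : Prop :=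
  ∀ (r : ℕ) (I : Fin (r + 1) → ℕ) (d : ℕ) (H v : k[X]), r + 1 ≤ U → Function.Injective I →
    I 0 = 12 * τ → (∀ i, I i ≤ 32 * τ) → MD (2 * d + 1) H → Wt I (od H) ≠ 0 →
    v.natDegree + 76 * τ ≤ d + 1 → (∀ p, IsP p → p.natDegree = 12 * τ → p ∣ od H → ¬ p ∣ v) →
    |avg (76 * τ) fun σ => mu (H + (v * σ) ^ 2)| ≤ sv ∧
    ∀ H' v' : k[X], MD (2 * d + 1) H' → Wt I (od H') ≠ 0 → v'.natDegree + 76 * τ ≤ d + 1 →
      (∀ p, IsP p → p.natDegree = 12 * τ → p ∣ od H → ¬ p ∣ od H') →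
      |avg (76 * τ) fun σ => mu (H + (v * σ) ^ 2) * mu (H' + (v' * σ) ^ 2)| ≤ sv

/-- The global parameters. -/
structure Par (k : Type) [Field k] [Fintype k] where
  h : k[X]
  τ : ℕ
  s : ℕ
  U : ℕ
  n : ℕ
  h_ne : h ≠ 0
  adm : Adm h
  h_deg : h.natDegree ≤ τ
  τ_pos : 2 ≤ τ
  s_ge : 16 ≤ s
  n_ge : 48000 * (s * τ) ≤ n
  n_le : n ≤ U * τ
  U_sq : U ^ 2 ≤ τ

namespace Par

variable (P : Par k)

/-- The cut between small and large primes. -/
def z : ℕ := 12 * P.τ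

/-- The level of the sieve. -/
def y : ℕ := P.s * (12 * P.τ)

/-- The degree of the periods. -/
def κ : ℕ := 24 * (P.s * P.τ)

/-- `q ^ τ`. -/
noncomputable def Q : ℝ := qR k ^ P.τ

/-- The sieve weight. -/
noncomputable def ν (F : k[X]) : ℝ := nu2 P.h P.y P.z F

/-- The normalisation. -/
noncomputable def G : ℝ := G2 P.h P.y P.z

/-- Untwisted mean. -/
noncomputable def TK (d e : ℕ) : ℝ := avm P.n fun F => P.ν F * aS P.z d F * aS P.z e (F + P.h)

/-- Twisted mean of type I. -/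
noncomputable def T2 (a b : ℕ) : ℝ := avm P.n fun F => P.ν F * aS P.z a F * bS P.z b (F + P.h)

/-- Twisted mean of type II. -/
noncomputable def T3 (a b : ℕ) : ℝ := avm P.n fun F => P.ν F * bS P.z a F * bS P.z b (F + P.h)

end Par

/-- The parameters of the twisted estimates. -/
structure Tw (k : Type) [Field k] [Fintype k] extends Par k where
  a : ℕ
  b : ℕ
  r : ℕ
  I : Fin (r + 1) → ℕ
  a_le : 2 * a ≤ n
  b_le : 2 * b + 480 * (s * τ) ≤ n
  r_le : r + 1 ≤ U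
  I_inj : Function.Injective I
  I_zero : I 0 = 12 * τ
  I_ge : ∀ i, 12 * τ ≤ I i
  I_le : ∀ i, I i ≤ 32 * τ
  I_sum : ∑ i, I i + b + (48 * (s * τ) + 76 * τ) = n

namespace Tw

variable (c : Tw k)

/-- The length of the lines. -/
def L : ℕ := 48 * (c.s * c.τ) + 76 * c.τ

/-- The degree of the free variable. -/
def n1 : ℕ := c.n - c.a - c.b

/-- The degree of the direction. -/
def nu : ℕ := c.n1 + 1 - 2 * c.L

/-- The degree of the modulus. -/
def dl : ℕ := ∑ i, c.I i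

/-- The length of the short progressions. -/
def len : ℕ := c.nu + c.L - 5 * c.τ

/-- The weight. -/
noncomputable def W (l : k[X]) : ℝ := Wt c.I l

/-- The weight minus its model. -/
noncomputable def Wm (l : k[X]) : ℝ := Wt c.I l - wm (4 * c.τ) (12 * c.τ) l

/-- Mean over triples. -/
noncomputable def E (Φ : k[X] → k[X] → k[X] → ℝ) : ℝ := E3 c.h c.z c.n c.a c.b Φ

/-- The cofactor. -/
noncomputable def Xc (A B m : k[X]) : k[X] := (A * m + c.h) / B

/-- The modulus. -/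
noncomputable def l [CharP k 2] (A B m u : k[X]) : k[X] := od (c.Xc A B m * A * u)

end Tw

end Defs

/-- Seq: decay of a sequence of Dickman type. -/
def StSeq : Prop :=
  ∀ (a : ℕ → ℝ) (z s : ℕ), 1 ≤ z → 16 ≤ s → (∀ j, 0 ≤ a j) →
    (∀ j : ℕ, (j : ℝ) * a j ≤ 4 * ∑ i ∈ Finset.Ico (j - z) j, a i) →
    (∀ j : ℕ, (s - 1) * z ≤ j → (j : ℝ) * a j ≤ eps s * ∑ i ∈ Finset.range (8 * z), a i) ∧
    ∀ N, ∑ i ∈ Finset.Ico (s * z) N, a i ≤ eps s * ∑ i ∈ Finset.range (8 * z), a i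

/-- Nu1: the mean of the sieve weight on a progression with rough modulus. -/
def StNu1 : Prop :=
  ∀ (k : Type) [Field k] [Fintype k] [CharP k 2] (h F₀ M : k[X]) (y z len : ℕ), Adm h →
    Rough z M → 2 * y ≤ len → avg len (fun t => nu2 h y z (F₀ + M * t)) = 1 / G2 h y z

/-- De: the fundamental lemma. -/
def StDe : Prop :=
  ∀ (k : Type) [Field k] [Fintype k] [CharP k 2] (h : k[X]) (s z n : ℕ), Adm h → 1 ≤ z → 16 ≤ s →
    (2 * s + 1) * z ≤ n →
    avm n (De h (s * z) z) ≤ eps s / G2 h (s * z) z ∧ G2 h (s * z) z ≤ Pi2 h z ∧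
      Pi2 h z ≤ (1 + eps s) * G2 h (s * z) z

/-- Sm1: generating function of smooth polynomials. -/
def StSm1 : Prop :=
  ∀ (k : Type) [Field k] [Fintype k] (z : ℕ), HasSum (smD k z) (Pi1 k z) ∧
    ∀ j, ∑ i ∈ Finset.range (j + 1), mm k z i = smD k z j

/-- MM: the main term of one variable. -/
def StMM : Prop :=
  ∀ (k : Type) [Field k] [Fintype k] [CharP k 2] (z s y n : ℕ), 1 ≤ z → 16 ≤ s → 2 * (s * z) ≤ y →
    y ≤ n → n ≤ 2 * y → (z : ℝ) ≤ Pi1 k z ∧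
      |MM k z y n - Pi1 k z| ≤ (48 * eps s + (y + 1) / qR k ^ (y / 4)) * Pi1 k z

/-- C1: the density of squarefree rough polynomials. -/
def StC1 : Prop :=
  ∀ (k : Type) [Field k] [Fintype k] [CharP k 2] (z j : ℕ), 1 ≤ z → 1 ≤ j →
    avm j (fun f : k[X] => sr z f) ≤ 1 / z

/-- K2: the constant `K` is subexponential. -/
def StK2 : Prop :=
  ∀ (k : Type) [Field k] [Fintype k] [CharP k 2] (U : ℕ) (θ : ℝ), 1 < θ → ∃ C : ℝ, ∀ τ : ℕ,
    1 ≤ τ → ∃ K : ℝ, K ≤ C * θ ^ τ ∧ KB2 k U τ K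

/-- Weil: the bound for Kloosterman sums. -/
def StWeil : Prop :=
  ∀ (F : Type) [Field F] [Fintype F] [CharP F 2] (b c : F), b ≠ 0 →
    |∑ x ∈ Finset.univ.filter (fun x : F => x ≠ 0), ps0 (b / x + c * x)| ≤
      5 * √(Fintype.card F)

/-- Kp: Kloosterman sums to prime modulus. -/
def StKp : Prop :=
  ∀ (k : Type) [Field k] [Fintype k] [CharP k 2] (p b c : k[X]), IsP p → ¬ p ∣ b →
    |avg p.natDegree fun x => kl p b x * eM p (c * x)| ≤ 5 / √(Nm p)

/-- KS: complete Kloosterman sums. -/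
def StKS : Prop :=
  ∀ (k : Type) [Field k] [Fintype k] [CharP k 2] (S : Finset k[X]) (M b c : k[X]), M.Monic →
    (∀ p ∈ S, IsP p ∧ p ∣ M ∧ ¬ p ^ 2 ∣ M ∧ ¬ p ∣ b) →
    |avg M.natDegree fun x => kl M b x * eM M (c * x)| ≤
      5 ^ S.card / √(qR k ^ ∑ p ∈ S, p.natDegree)

/-- KI: incomplete Kloosterman sums. -/
def StKI : Prop :=
  ∀ (k : Type) [Field k] [Fintype k] [CharP k 2] (S : Finset k[X]) (M b x₀ w : k[X]) (len : ℕ),
    M.Monic → (∀ p ∈ S, IsP p ∧ p ∣ M ∧ ¬ p ^ 2 ∣ M ∧ ¬ p ∣ b) → IsCoprime w M →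
    |avg len fun v => kl M b (x₀ + w * v)| ≤
      qR k ^ (M.natDegree - len) * (5 ^ S.card / √(qR k ^ ∑ p ∈ S, p.natDegree))

/-- GX: a large common divisor is rare. -/
def StGX : Prop :=
  ∀ (k : Type) [Field k] [Fintype k] (N : k[X]) (y j : ℕ), N ≠ 0 → y ≤ j →
    avm j (fun x => if y < cd N x then 1 else 0) ≤ 2 ^ (pf N).card / qR k ^ y

/-- Par1: sums over divisors. -/
def StPar1 : Prop :=
  ∀ (k : Type) [Field k] [Fintype k] (n a : ℕ) (Φ : k[X] → k[X] → ℝ), a ≤ n →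
    avm n (fun F => ∑ A ∈ (MoD k a).filter (fun A => A ∣ F), Φ A F) =
      avm a fun A => avm (n - a) fun m => Φ A (A * m)

/-- Par2: parametrisation of the solutions of `B ∣ A m + h`. -/
def StPar2 : Prop :=
  ∀ (k : Type) [Field k] [Fintype k] (A B h : k[X]) (b : ℕ), MD b B → IsCoprime A B →
    ∃ m₀ c : k[X], m₀.degree < b ∧ B * c = A * m₀ + h ∧
      (∀ m₁, (A * (m₀ + B * m₁) + h) / B = A * m₁ + c) ∧
      ∀ (j : ℕ) (Φ : k[X] → ℝ), b ≤ j →
        qR k ^ b * avm j (fun m => if B ∣ A * m + h then Φ m else 0) =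
          avm (j - b) fun m₁ => Φ (m₀ + B * m₁)

/-- Red: reduction to means over triples. -/
def StRed : Prop :=
  ∀ (k : Type) [Field k] [Fintype k] (h : k[X]) (z n a b : ℕ) (φ : k[X] → ℝ), a ≤ n →
    avm n (fun F => φ F * aS z a F * aS z b (F + h)) =
      E3 h z n a b (fun A B m => φ (A * m) * mu A * mu B) ∧
    avm n (fun F => φ F * aS z a F * bS z b (F + h)) =
      E3 h z n a b (fun A B m => φ (A * m) * mu A * mu ((A * m + h) / B)) ∧
    avm n (fun F => φ F * bS z a F * bS z b (F + h)) =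
      E3 h z n a b (fun A B m => φ (A * m) * mu m * mu ((A * m + h) / B)) ∧
    avm n (fun F => φ F * tS z a F * tS z b (F + h)) = E3 h z n a b fun A _ m => φ (A * m)

/-- K1: Kloosterman fractions, moduli with a convenient divisor. -/
def StK1 : Prop :=
  ∀ (k : Type) [Field k] [Fintype k] [CharP k 2] (P : Par k) (K : ℝ) (d e : ℕ) (α β : k[X] → ℝ)
    (b r : k[X]), KB2 k P.U P.τ K → P.n ≤ 2 * d + 22 * P.κ → 2 * d ≤ P.n + 20 * P.κ →
    P.n ≤ 2 * e + 22 * P.κ → 2 * e ≤ P.n + 20 * P.κ → b ≠ 0 → b.natDegree ≤ 23 * P.κ → r.Monic →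
    r.natDegree ≤ P.κ → (∀ D, |α D| ≤ 1) → (∀ E, |β E| ≤ 1) →
    (∀ D, MD d D → α D ≠ 0 → Squarefree D ∧ ∃ D₁ : k[X], D₁.Monic ∧ D₁ ∣ D ∧
      50 * P.κ ≤ D₁.natDegree ∧ D₁.natDegree + 50 * P.κ ≤ d) →
    |KBi d e α β b r| ≤ 2 * K ^ 2 / qR k ^ (25 * P.κ)

/-- Kt: Kloosterman fractions, type I. -/
def StKt : Prop :=
  ∀ (k : Type) [Field k] [Fintype k] [CharP k 2] (P : Par k) (K : ℝ) (d e : ℕ) (α β : k[X] → ℝ)
    (b r m₀ : k[X]), KB2 k P.U P.τ K → P.n ≤ 2 * d + 22 * P.κ → 2 * d ≤ P.n + 20 * P.κ →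
    P.n ≤ 2 * e + 22 * P.κ → 2 * e ≤ P.n + 20 * P.κ → b ≠ 0 → b.natDegree ≤ 23 * P.κ →
    m₀ ≠ 0 → m₀.natDegree ≤ 52 * P.κ → (∀ D, |α D| ≤ 1) → (∀ E, |β E| ≤ 1) →
    (∀ D t, α (D + m₀ * t) = α D) → (∀ D p, α D ≠ 0 → IsP p → p ∣ m₀ → p ∣ D * r) →
    (∀ E, MD e E → β E ≠ 0 → Squarefree E) →
    |KBi d e α β b r| ≤ K / qR k ^ (150 * P.κ)

/-- KF: Fourier expansion of the discrepancy. -/
def StKF : Prop :=
  ∀ (k : Type) [Field k] [Fintype k] [CharP k 2] (h r : k[X]) (d e y : ℕ) (α β φ : k[X] → ℝ)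
    (B : ℝ), r.Monic → r.natDegree ≤ y → (∀ F t, φ (F + r * t) = φ F) →
    (∀ E, MD e E → β E ≠ 0 → IsCoprime r E) → 0 ≤ B →
    (∀ (a f : k[X]) (β' : k[X] → ℝ), f ≠ 0 → f.natDegree + y < e + r.natDegree →
      (∀ E, |β' E| ≤ |β E|) → |KBi d e (fun D => α D * φ (D * a)) β' (f * h) r| ≤ B) →
    |disc h d e y α β φ| ≤ qR k ^ (e + r.natDegree - y) * B

/-- Dec: the Moebius function on rough polynomials without a convenient divisor. -/
def StDec : Prop :=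
  ∀ (k : Type) [Field k] [Fintype k] (z γ d : ℕ) (D : k[X]), 1 ≤ γ → 3 * γ ≤ d → z + γ ≤ d →
    MD d D → Squarefree D →
    (¬ ∃ D₁ : k[X], D₁.Monic ∧ D₁ ∣ D ∧ γ ≤ D₁.natDegree ∧ D₁.natDegree + γ ≤ d) →
    mu D * rI z D = gS z γ D

/-- KD: the discrepancy of the untwisted mean. -/
def StKD : Prop :=
  ∀ (k : Type) [Field k] [Fintype k] [CharP k 2] (P : Par k) (K : ℝ) (d e : ℕ),
    KB2 k P.U P.τ K → 2 * d ≤ P.n + 20 * P.κ → 2 * e ≤ P.n + 20 * P.κ →
    |disc P.h d e (P.n - d) (fun D => mu D * rI P.z D) (fun E => mu E * rI P.z E) P.ν| ≤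
      10 * K ^ 4 / P.Q

/-- TK: the untwisted mean. -/
def StTK : Prop :=
  ∀ (k : Type) [Field k] [Fintype k] [CharP k 2] (P : Par k) (K : ℝ) (d e : ℕ),
    KB2 k P.U P.τ K → 2 * d ≤ P.n + 20 * P.κ → 2 * e ≤ P.n + 20 * P.κ →
    |P.TK d e - mm k P.z d * mm k P.z e / P.G| ≤ 11 * K ^ 4 / P.Q

/-- Cell: the mean of weight minus model on a cell. -/
def StCell : Prop :=
  ∀ (k : Type) [Field k] [Fintype k] [CharP k 2] (c : Tw k) (K : ℝ) (θ : k[X] → ℝ)
    (A c₀ R G₀ : k[X]), KB2 k c.U c.τ K → MD c.a A → sr c.z A ≠ 0 → IsCoprime c₀ A →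
    c₀.natDegree ≤ c.a + c.τ → R.Monic → R.natDegree < c.τ → MD c.n1 G₀ →
    (∀ M, |θ M - 1| ≤ K / c.Q ^ 6) →
    |avm c.nu fun u => avg (c.nu + 2 * c.L - 4 * c.τ) fun v =>
      c.Wm (od ((A * (G₀ + R ^ 2 * v) + c₀) * A * u))| ≤ 6 * K ^ 3 / c.Q ^ 3 +
      c.Q ^ 5 * ∑ g ∈ Mo k (3 * c.τ), avm c.nu fun u => avm (c.dl - c.a) fun x =>
        Ph c.I c.len (θ (A * R * g)) (A * R * g) (A * x + od (c₀ * A * u))

/-- Coll: the residue classes are well distributed in mean square. -/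
def StColl : Prop :=
  ∀ (k : Type) [Field k] [Fintype k] [CharP k 2] (h : k[X]) (z a b nu dl : ℕ) (K B₀ : ℝ)
    (c₀ : k[X] → k[X] → k[X]) (Ψ : k[X] → k[X] → ℝ), h ≠ 0 → h.natDegree < z → a ≤ dl →
    (2 : ℝ) ^ ((b + nu) / z) ≤ K → 0 ≤ B₀ → (∀ A x, 0 ≤ Ψ A x) →
    (∀ A, MD a A → avm dl (fun x => Ψ A x ^ 2) ≤ B₀) →
    (∀ A B, MD a A → MD b B → IsCoprime A B → A ∣ B * c₀ A B - h ∧
      ∀ u, MD nu u → (od (c₀ A B * A * u)).degree < dl) →
    (avm a fun A => avm b fun B => if IsCoprime A B then sr z A * sr z B *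
      avm nu (fun u => avm (dl - a) fun x => Ψ A (A * x + od (c₀ A B * A * u))) else 0) ^ 2 ≤
      K * (1 + qR k ^ a / qR k ^ (b + nu)) * B₀

/-- Ins: concentration of the mean weight. -/
def StIns : Prop :=
  ∀ (k : Type) [Field k] [Fintype k] [CharP k 2] (c : Tw k) (K : ℝ), KB2 k c.U c.τ K →
    c.E (fun A B m => (avm c.nu fun u => c.Wm (c.l A B m u)) ^ 2) ≤ 15 * K ^ 4 / c.Q

/-- Use: the weight may be inserted. -/
def StUse : Prop :=
  ∀ (k : Type) [Field k] [Fintype k] [CharP k 2] (c : Tw k) (K C₀ : ℝ)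
    (γ : k[X] → k[X] → k[X] → ℝ), KB2 k c.U c.τ K → 0 ≤ C₀ →
    (∀ A B m, MD c.a A → MD c.b B → MD (c.n - c.a) m → |γ A B m| ≤ C₀) →
    |c.E (fun A B m => γ A B m * mu (c.Xc A B m)) -
      c.E fun A B m => γ A B m * mu (c.Xc A B m) * avm c.nu fun u => c.W (c.l A B m u)| ≤
      4 * C₀ * K ^ 2 / √c.Q

/-- Line: cancellation on good lines. -/
def StLine : Prop :=
  ∀ U : ℕ, ∃ C δ : ℝ, 0 < C ∧ 0 < δ ∧ ∀ (k : Type) [Field k] [Fintype k] [CharP k 2] (τ : ℕ),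
    1 ≤ τ → LineOK k U τ (C / qR k ^ (δ * τ))

/-- EX1: the modulus is usually coprime to the direction. -/
def StEX1 : Prop :=
  ∀ (k : Type) [Field k] [Fintype k] [CharP k 2] (H A : k[X]) (m nu : ℕ), Squarefree H → A ∣ H →
    1 ≤ m → m ≤ nu →
    avm nu (fun u => if ∃ p, IsP p ∧ m ≤ p.natDegree ∧ p ∣ A * u ∧ p ∣ od (H * u) then 1 else 0) ≤
      (qR k + H.natDegree) / qR k ^ m

/-- EX2: two moduli rarely share a prime of given degree. -/
def StEX2 : Prop :=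
  ∀ (k : Type) [Field k] [Fintype k] [CharP k 2] (H H' : k[X]) (m nu : ℕ), Squarefree H →
    Squarefree H' → od (H * H') ≠ 0 → 1 ≤ m → 2 * m ≤ nu →
    avm nu (fun u => if ∃ p, IsP p ∧ p.natDegree = m ∧ p ∣ od (H * u) ∧ p ∣ od (H' * u)
      then 1 else 0) ≤ (1 + (od (H * H')).natDegree) / qR k ^ m

/-- On: the weighted mean of one Moebius function. -/
def StOn : Prop :=
  ∀ (k : Type) [Field k] [Fintype k] [CharP k 2] (c : Tw k) (K K' sv : ℝ) (A c₀ : k[X])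
    (φ : k[X] → ℝ), KB2 k c.U c.τ K → LineOK k c.U c.τ sv → 0 ≤ sv → MD c.a A → Squarefree A →
    IsCoprime c₀ A → c₀.natDegree ≤ c.a + c.τ → PerS c.z (2 * c.κ) c.n1 K' φ →
    |avm c.nu fun u => avm c.n1 fun m => φ m * mu (A * m + c₀) * c.W (od ((A * m + c₀) * A * u))| ≤
      K' * K * (sv + K / c.Q)

/-- Off: the weighted mean of two Moebius functions. -/
def StOff : Prop :=
  ∀ (k : Type) [Field k] [Fintype k] [CharP k 2] (c : Tw k) (K K' sv : ℝ) (A c₀ A' c₀' : k[X])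
    (φ : k[X] → ℝ), KB2 k c.U c.τ K → LineOK k c.U c.τ sv → 0 ≤ sv → MD c.a A → Squarefree A →
    IsCoprime c₀ A → c₀.natDegree ≤ c.a + c.τ → MD c.a A' → Squarefree A' →
    IsCoprime c₀' A' → c₀'.natDegree ≤ c.a + c.τ →
    (∀ m, MD c.n1 m → (A * m + c₀) * A ≠ (A' * m + c₀') * A') → PerS c.z (2 * c.κ) c.n1 K' φ →
    |avm c.nu fun u => avm c.n1 fun m => φ m *
      (mu (A * m + c₀) * c.W (od ((A * m + c₀) * A * u))) *
      (mu (A' * m + c₀') * c.W (od ((A' * m + c₀') * A' * u)))| ≤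
      K' * K ^ 2 * (sv + 3 * K / c.Q)

/-- T2: the twisted mean of type I. -/
def StA2' : Prop :=
  ∀ (k : Type) [Field k] [Fintype k] [CharP k 2] (c : Tw k) (K sv : ℝ), KB2 k c.U c.τ K →
    LineOK k c.U c.τ sv → 0 ≤ sv → |c.T2 c.a c.b| ≤ 5 * K ^ 4 * (1 / √c.Q + sv)

/-- T3: the twisted mean of type II. -/
def StA3' : Prop :=
  ∀ (k : Type) [Field k] [Fintype k] [CharP k 2] (c : Tw k) (K sv : ℝ) (w : ℕ), KB2 k c.U c.τ K →
    LineOK k c.U c.τ sv → 0 ≤ sv → c.b + w ≤ c.a →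
    |c.T3 c.a c.b| ≤ 6 * K ^ 4 * (1 / √c.Q + √sv + 1 / √(qR k ^ w))

/-- Iex: the degrees of the primes can be chosen. -/
def StIex : Prop :=
  ∀ (k : Type) [Field k] [Fintype k] (P : Par k) (a b : ℕ), 2 * a ≤ P.n →
    2 * b + 480 * (P.s * P.τ) ≤ P.n → ∃ c : Tw k, c.toPar = P ∧ c.a = a ∧ c.b = b

/-- Rep: the indicator of prime pairs and the sieve weight. -/
def StRep : Prop :=
  ∀ (k : Type) [Field k] [Fintype k] [CharP k 2] (h : k[X]) (y z n : ℕ)
    (f₁ f₂ : ℕ → ℕ → k[X] → ℝ), Adm h → 1 ≤ z → z ≤ n → h.natDegree < n →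
    (∀ d e, f₁ d e = aS z d ∨ f₁ d e = bS z (n - d)) →
    (∀ d e, f₂ d e = aS z e ∨ f₂ d e = bS z (n - e)) →
    |(n : ℝ) ^ 2 * avm n (tw h) - ∑ d ∈ Finset.range (n + 1), ∑ e ∈ Finset.range (n + 1),
      ((n : ℝ) - d) * ((n : ℝ) - e) * avm n fun F => nu2 h y z F * f₁ d e F * f₂ d e (F + h)| ≤
      (n : ℝ) ^ 2 * 4 ^ (n / z + 1) * (avm n (De h y z) + 2 / qR k ^ (z - 1))

/-- Diag: the trivial bound near the diagonal. -/
def StDiag : Prop :=
  ∀ (k : Type) [Field k] [Fintype k] [CharP k 2] (P : Par k) (a b : ℕ), 1 ≤ a → 1 ≤ b →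
    a + b + P.κ ≤ P.n → |P.T3 a b| ≤ 1 / ((P.z : ℝ) ^ 2 * P.G)

/-- Core2: the estimate for fixed parameters. -/
def StCore2 : Prop :=
  ∀ (k : Type) [Field k] [Fintype k] [CharP k 2] (P : Par k) (K sv : ℝ) (w : ℕ),
    KB2 k P.U P.τ K → LineOK k P.U P.τ sv → 0 ≤ sv → sv ≤ 1 →
    |(P.n : ℝ) ^ 2 * avm P.n (tw P.h) - MM k P.z (P.n / 2 + 10 * P.κ) P.n ^ 2 / P.G| ≤
      (P.n : ℝ) ^ 2 * 4 ^ (P.n / P.z + 1) * eps P.s / P.G +
      (P.n : ℝ) ^ 2 * (P.n + 1) * (2 * w + 1) / ((P.z : ℝ) ^ 2 * P.G) +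
      20 * K ^ 8 * (1 / √P.Q + √sv + 1 / √(qR k ^ w))

/-- Sing: the singular series. -/
def StSing : Prop :=
  ∀ (k : Type) [Field k] [Fintype k] [CharP k 2] (h : k[X]), h ≠ 0 → ∃ S : ℝ,
    HasProd (fun p : {p : k[X] // p.Monic ∧ Irreducible p} => fac h p.1) S ∧
    (Adm h → 0 < S ∧ Filter.Tendsto (fun z => Pi1 k z ^ 2 / Pi2 h z) Filter.atTop (nhds S)) ∧
    (¬ Adm h → S = 0 ∧ ∀ F : k[X], 2 ≤ F.natDegree → h.natDegree < F.natDegree → tw h F = 0) ∧
    ((Fintype.card k = 2 → X * (X + 1) ∣ h) → Adm h)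

/-- Lim: the asymptotic formula. -/
def StLim : Prop :=
  ∀ (k : Type) [Field k] [Fintype k] [CharP k 2] (h : k[X]) (S : ℝ), h ≠ 0 → Adm h →
    Filter.Tendsto (fun z => Pi1 k z ^ 2 / Pi2 h z) Filter.atTop (nhds S) →
    Filter.Tendsto (fun n : ℕ => (n : ℝ) ^ 2 * avm n (tw h)) Filter.atTop (nhds S)

/-- The main theorem. -/
def StTwin : Prop :=
  ∀ (k : Type) [Field k] [Fintype k] [CharP k 2] (h : k[X]), h ≠ 0 → ∃ S : ℝ,
    HasProd (fun p : {p : k[X] // p.Monic ∧ Irreducible p} =>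
      (1 - (if p.1 ∣ h then 1 else 2) / (Fintype.card k : ℝ) ^ p.1.natDegree) /
        (1 - 1 / (Fintype.card k : ℝ) ^ p.1.natDegree) ^ 2) S ∧
    Filter.Tendsto (fun n : ℕ => (n : ℝ) ^ 2 *
      (Set.ncard {P : k[X] | P.Monic ∧ P.natDegree = n ∧ Irreducible P ∧ Irreducible (P + h)} : ℝ) /
        (Fintype.card k : ℝ) ^ n) Filter.atTop (nhds S) ∧
    ((Fintype.card k = 2 → X * (X + 1) ∣ h) →
      0 < S ∧ {P : k[X] | P.Monic ∧ Irreducible P ∧ Irreducible (P + h)}.Infinite)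

end Pool.Agent.Lib.MP_9227d9_nt.Mob
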