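import Pool.Agent.Lib.MP_9227d9_nt.TwA

/-!
Isolated prime pairs over finite fields of characteristic two (statements of the modules).
-/

namespace Pool.Agent.Lib.MP_9227d9_nt.Mob

open Polynomial

open scoped Classical

/-- Sel: an upper bound sieve. -/
def StSel : Prop :=
  ∀ (k : Type) [Field k] [Fintype k] [CharP k 2] (T : Finset k[X]) (A : k[X] → k[X] → Prop)
    (g : k[X] → ℝ) (s z n : ℕ), 1 ≤ z → 16 ≤ s → 2 * (s * z) ≤ n →
    (∀ p ∈ T, IsP p ∧ p.natDegree < z ∧ (∀ F t, A p (F + p * t) ↔ A p F) ∧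
      avg p.natDegree (fun F => if A p F then 1 else 0) = g p ∧ g p < 1 ∧
      g p / (1 - g p) ≤ 4 / Nm p) →
    avm n (fun F => if ∀ p ∈ T, ¬ A p F then 1 else 0) ≤ (1 + eps s) * ∏ p ∈ T, (1 - g p)

/-- Tri: prime triples are rare. -/
def StTri : Prop :=
  ∀ (k : Type) [Field k] [Fintype k] [CharP k 2] (h h' : k[X]), h ≠ 0 → h' ≠ 0 → h ≠ h' →
    Filter.Tendsto (fun n : ℕ => (n : ℝ) ^ 2 * avm n fun F : k[X] =>
      if Irreducible F ∧ Irreducible (F + h) ∧ Irreducible (F + h') then 1 else 0)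
      Filter.atTop (nhds 0)

/-- The main theorem with isolated pairs. -/
def StPol : Prop :=
  ∀ (k : Type) [Field k] [Fintype k] [CharP k 2] (h : k[X]), h ≠ 0 → ∃ S : ℝ,
    HasProd (fun p : {p : k[X] // p.Monic ∧ Irreducible p} =>
      (1 - (if p.1 ∣ h then 1 else 2) / (Fintype.card k : ℝ) ^ p.1.natDegree) /
        (1 - 1 / (Fintype.card k : ℝ) ^ p.1.natDegree) ^ 2) S ∧
    Filter.Tendsto (fun n : ℕ => (n : ℝ) ^ 2 *
      (Set.ncard {P : k[X] | P.Monic ∧ P.natDegree = n ∧ Irreducible P ∧ Irreducible (P + h)} : ℝ) /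
        (Fintype.card k : ℝ) ^ n) Filter.atTop (nhds S) ∧
    Filter.Tendsto (fun n : ℕ => (n : ℝ) ^ 2 *
      (Set.ncard {P : k[X] | P.Monic ∧ P.natDegree = n ∧ Irreducible P ∧ Irreducible (P + h) ∧
        ∀ g : k[X], g.degree ≤ h.degree → Irreducible (P + g) → g = 0 ∨ g = h} : ℝ) /
        (Fintype.card k : ℝ) ^ n) Filter.atTop (nhds S) ∧
    ((Fintype.card k = 2 → X * (X + 1) ∣ h) →
      0 < S ∧ {P : k[X] | P.Monic ∧ Irreducible P ∧ Irreducible (P + h) ∧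
        ∀ g : k[X], g.degree ≤ h.degree → Irreducible (P + g) → g = 0 ∨ g = h}.Infinite)

end Pool.Agent.Lib.MP_9227d9_nt.Mob
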