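import Pool.Agent.Lib.MP_9227d9_nt.Gap

open Pool.Agent.Lib.MP_9227d9_nt

namespace Pool.Agent.Lib.MP_9227d9_nt.ZeroGaps

/-- Two zeros `n < n'` of the sequence satisfy `n' - n ≥ (log n) ^ 2 / 1000`. -/
theorem result :
    ∀ m : ℕ, 1 ≤ m → ∀ a : ℕ → ℕ, a 1 = 4 * m ^ 2 →
      (∀ n : ℕ, 2 ≤ n →
        a n = Int.natAbs ((a (n - 1) : ℤ) - ((Nat.gcd (a (n - 1)) (n * (n + 2 * m)) : ℕ) : ℤ))) →
      ∀ n n' : ℕ, 1 ≤ n → n < n' → a n = 0 → a n' = 0 →
        Real.log n ^ 2 / 1000 ≤ (n' : ℝ) - n := by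
  intro m _ a _ hrec n n' hn hlt h0 h0'
  have hex : ∃ z, n < z ∧ a z = 0 := ⟨n', hlt, h0'⟩
  obtain ⟨hz1, hz2⟩ := Nat.find_spec hex
  have hle : (Nat.find hex : ℝ) ≤ n' := by exact_mod_cast Nat.find_min' hex ⟨hlt, h0'⟩
  have hn1 : (1 : ℝ) ≤ n := by exact_mod_cast hn
  have hl0 : 0 ≤ Real.log n := Real.log_nonneg hn1
  set s := Real.sqrt n with hs
  have hs1 : 1 ≤ s := Real.one_le_sqrt.2 hn1
  have hss : s * s = n := Real.mul_self_sqrt (by linarith)
  have hls : Real.log s = Real.log n / 2 := Real.log_sqrt (by linarith)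
  by_cases hD : s * (6 * ((Nat.find hex : ℝ) - n)) ≤ n + 1
  · have h1 := gap hrec hn h0 hz2 hz1
      (fun t h1 h2 => Nat.pos_of_ne_zero fun h3 => Nat.find_min hex h2 ⟨h1, h3⟩) hs1 hD
    have h2 := Real.log_two_lt_d9
    have h3 := Real.log_pos one_lt_two
    have h4 : Real.logb 2 s * Real.log 2 = Real.log n / 2 := by
      rw [Real.logb, div_mul_cancel₀ _ h3.ne', hls]
    have h5 := Real.logb_nonneg one_lt_two hs1
    have h6 : Real.log n ≤ 1.4 * Real.logb 2 s := by nlinarith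
    nlinarith
  · have h1 : Real.log (Real.sqrt s) ≤ Real.sqrt s - 1 :=
      Real.log_le_sub_one_of_pos (by positivity)
    rw [Real.log_sqrt (by linarith), hls] at h1
    have h2 : Real.sqrt s * Real.sqrt s = s := Real.mul_self_sqrt (by linarith)
    have h3 : s < 6 * ((Nat.find hex : ℝ) - n) := by
      by_contra h
      exact hD (by nlinarith)
    nlinarith

end Pool.Agent.Lib.MP_9227d9_nt.ZeroGaps
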